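import Pool.Agent.Hhelper49.GaussPret.Mult

/-!
# Matomäki–Radziwiłł over the Gaussian integers: definitions

`ab g = |g|`, `ann r s` the nonzero Gaussian integers with `r < |g| ≤ s`, `ch m k` the character
`g ↦ |g|^(im) (g/|g|)^k`, `pr r s` the Gaussian primes of the first quadrant with `r < |p| ≤ s`,
`fr M` the frequencies `(m,k)`, `|m|, |k| < M`, `om S n` the number of elements of `S` dividing `n`,
`Ls S = ∑_{p ∈ S} 1/|p|²`.
-/

set_option autoImplicit false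

namespace Pool.Agent.MRG

open Pool.Agent.GaussPret

/-- absolute value of a Gaussian integer -/
noncomputable def ab (g : GaussianInt) : ℝ := ‖GaussianInt.toComplex g‖

/-- the nonzero Gaussian integers with `r < |g| ≤ s` -/
noncomputable def ann (r s : ℝ) : Finset GaussianInt := (ball s).filter fun g => r < ab g

/-- `|g|^(im) (g/|g|)^k` -/
noncomputable def ch (m : ℝ) (k : ℤ) (g : GaussianInt) : ℂ :=
  Complex.exp (((m * Real.log (ab g) + k * Complex.arg (GaussianInt.toComplex g) : ℝ) : ℂ) *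
    Complex.I)

open scoped Classical in
/-- Gaussian primes with `Re p > 0`, `Im p ≥ 0`, `r < |p| ≤ s` -/
noncomputable def pr (r s : ℝ) : Finset GaussianInt :=
  (ann r s).filter fun p => Prime p ∧ 0 < p.re ∧ 0 ≤ p.im

/-- frequencies -/
noncomputable def fr (M : ℕ) : Finset (ℤ × ℤ) := Finset.Ioo (-(M : ℤ)) M ×ˢ Finset.Ioo (-(M : ℤ)) M

open scoped Classical in
/-- number of elements of `S` dividing `n` -/
noncomputable def om (S : Finset GaussianInt) (n : GaussianInt) : ℕ :=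
  (S.filter fun p => p ∣ n).card

/-- `∑_{p ∈ S} 1/|p|²` -/
noncomputable def Ls (S : Finset GaussianInt) : ℝ := ∑ p ∈ S, 1 / ab p ^ 2

/-- completely multiplicative functions bounded by one, trivial on units (value at `0` free) -/
structure CM (f : GaussianInt → ℂ) : Prop where
  mul : ∀ a b : GaussianInt, a ≠ 0 → b ≠ 0 → f (a * b) = f a * f b
  le : ∀ a : GaussianInt, a ≠ 0 → ‖f a‖ ≤ 1
  map_I : f ⟨0, 1⟩ = 1

/-- the sum over a dyadic annulus twisted by a character -/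
noncomputable def FR (f : GaussianInt → ℂ) (R : ℝ) (c : ℤ × ℤ) : ℂ :=
  ∑ g ∈ ann R (2 * R), f g * ch c.1 c.2 g

/-- primes of the cell `e^(v/h) < |p| ≤ e^((v+1)/h)` -/
noncomputable def cel (h v : ℕ) : Finset GaussianInt :=
  pr (Real.exp ((v : ℝ) / h)) (Real.exp (((v : ℝ) + 1) / h))

/-- primes of the range `e^(v0/h) < |p| ≤ e^(v1/h)` -/
noncomputable def rng (h v0 v1 : ℕ) : Finset GaussianInt :=
  pr (Real.exp ((v0 : ℝ) / h)) (Real.exp ((v1 : ℝ) / h))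

/-- the prime polynomial of a cell -/
noncomputable def Qv (f : GaussianInt → ℂ) (h v : ℕ) (c : ℤ × ℤ) : ℂ :=
  ∑ p ∈ cel h v, f p * ch c.1 c.2 p

/-- all twisted sums of `f` are small (the conclusion of Halász's theorem for our `f`) -/
def SmallFR (f : GaussianInt → ℂ) : Prop :=
  ∀ ε : ℝ, 0 < ε → ∃ Y0 : ℝ, ∀ Y : ℝ, Y0 ≤ Y → ∀ c : ℤ × ℤ, |(c.1 : ℝ)| ≤ Y ^ 2 →
    |(c.2 : ℝ)| ≤ Y ^ 2 → ‖FR f Y c‖ ≤ ε * Y ^ 2

/-- the summatory function on a logarithmic scale -/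
noncomputable def SS (g : GaussianInt → ℂ) (v : ℝ) : ℂ := ∑ n ∈ ball (Real.exp v), g n

/-- the summatory function with logarithmic weights -/
noncomputable def SL (g : GaussianInt → ℂ) (v : ℝ) : ℂ :=
  ∑ n ∈ ball (Real.exp v), g n * (Real.log (ab n) : ℂ)

/-- the Dirichlet series `∑_{n ≠ 0} g(n) |n|^(-2-σ)` -/
noncomputable def Gs (g : GaussianInt → ℂ) (σ : ℝ) : ℂ :=
  ∑' n : GaussianInt, g n * ((ab n ^ (-(2 + σ)) : ℝ) : ℂ)

/-- `g(n) |n|^(-it)` -/
noncomputable def tw (g : GaussianInt → ℂ) (t : ℝ) (n : GaussianInt) : ℂ := g n * ch (-t) 0 n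

/-! ### Elementary facts -/

theorem ab_nonneg (g : GaussianInt) : 0 ≤ ab g := norm_nonneg _

theorem ab_mul (a b : GaussianInt) : ab (a * b) = ab a * ab b := by
  rw [ab, map_mul, norm_mul]; rfl

theorem one_le_ab {g : GaussianInt} (h : g ≠ 0) : 1 ≤ ab g := one_le_norm h

theorem ab_pos {g : GaussianInt} (h : g ≠ 0) : 0 < ab g := one_pos.trans_le (one_le_ab h)

theorem ab_one : ab 1 = 1 := by simp [ab]

theorem toC_ne {g : GaussianInt} (h : g ≠ 0) : GaussianInt.toComplex g ≠ 0 := by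
  intro h0
  have := ab_pos h
  rw [ab, h0, norm_zero] at this
  exact lt_irrefl _ this

theorem nm_eq_ab (g : GaussianInt) : nm g = ab g ^ 2 := nm_eq g

theorem mem_ball' {r : ℝ} {g : GaussianInt} : g ∈ ball r ↔ g ≠ 0 ∧ ab g ≤ r := mem_ball

theorem mem_ann {r s : ℝ} {g : GaussianInt} : g ∈ ann r s ↔ g ≠ 0 ∧ r < ab g ∧ ab g ≤ s := by
  rw [ann, Finset.mem_filter, mem_ball']
  tauto

theorem mem_pr {r s : ℝ} {p : GaussianInt} :
    p ∈ pr r s ↔ (Prime p ∧ 0 < p.re ∧ 0 ≤ p.im) ∧ r < ab p ∧ ab p ≤ s := by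
  classical
  rw [pr, Finset.mem_filter, mem_ann]
  constructor
  · rintro ⟨⟨_, h1, h2⟩, h3⟩
    exact ⟨h3, h1, h2⟩
  · rintro ⟨h3, h1, h2⟩
    exact ⟨⟨h3.1.ne_zero, h1, h2⟩, h3⟩

theorem mem_fr {M : ℕ} {c : ℤ × ℤ} :
    c ∈ fr M ↔ (-(M : ℤ) < c.1 ∧ c.1 < M) ∧ (-(M : ℤ) < c.2 ∧ c.2 < M) := by
  rw [fr, Finset.mem_product, Finset.mem_Ioo, Finset.mem_Ioo]

theorem card_ball_le' (r : ℝ) : ((ball r).card : ℝ) ≤ 9 * r ^ 2 := card_ball_le r

theorem card_ann_le (r s : ℝ) : ((ann r s).card : ℝ) ≤ 9 * s ^ 2 :=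
  (Nat.cast_le.2 (Finset.card_filter_le _ _)).trans (card_ball_le s)

theorem norm_ch (m : ℝ) (k : ℤ) (g : GaussianInt) : ‖ch m k g‖ = 1 :=
  Complex.norm_exp_ofReal_mul_I _

theorem ch_ne_zero (m : ℝ) (k : ℤ) (g : GaussianInt) : ch m k g ≠ 0 := Complex.exp_ne_zero _

theorem ch_zero (g : GaussianInt) : ch 0 0 g = 1 := by simp [ch]

theorem ch_add (m m' : ℝ) (k k' : ℤ) (g : GaussianInt) :
    ch (m + m') (k + k') g = ch m k g * ch m' k' g := by
  rw [ch, ch, ch, ← Complex.exp_add]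
  congr 1
  push_cast
  ring

theorem ch_neg (m : ℝ) (k : ℤ) (g : GaussianInt) :
    ch (-m) (-k) g = (starRingEnd ℂ) (ch m k g) := by
  rw [ch, ch, ← Complex.exp_conj, map_mul, Complex.conj_ofReal, Complex.conj_I]
  congr 1
  push_cast
  ring

theorem ch_sub (m m' : ℝ) (k k' : ℤ) (g : GaussianInt) :
    ch (m - m') (k - k') g = ch m k g * (starRingEnd ℂ) (ch m' k' g) := by
  rw [sub_eq_add_neg, sub_eq_add_neg, ch_add, ch_neg]

/-- the unimodular number `g/|g|` -/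
theorem exp_arg {g : GaussianInt} (h : g ≠ 0) :
    Complex.exp (((Complex.arg (GaussianInt.toComplex g) : ℝ) : ℂ) * Complex.I) =
      GaussianInt.toComplex g / ab g := by
  have h1 := Complex.norm_mul_exp_arg_mul_I (GaussianInt.toComplex g)
  have h2 : (ab g : ℂ) ≠ 0 := by exact_mod_cast (ab_pos h).ne'
  rw [eq_div_iff h2, mul_comm]
  exact h1

theorem ch_eq {g : GaussianInt} (h : g ≠ 0) (m : ℝ) (k : ℤ) :
    ch m k g = Complex.exp (((m * Real.log (ab g) : ℝ) : ℂ) * Complex.I) *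
      (GaussianInt.toComplex g / ab g) ^ k := by
  rw [← exp_arg h, ← Complex.exp_int_mul, ← Complex.exp_add, ch]
  congr 1
  push_cast
  ring

theorem ch_mul {a b : GaussianInt} (ha : a ≠ 0) (hb : b ≠ 0) (m : ℝ) (k : ℤ) :
    ch m k (a * b) = ch m k a * ch m k b := by
  rw [ch_eq ha, ch_eq hb, ch_eq (mul_ne_zero ha hb), ab_mul,
    Real.log_mul (ab_pos ha).ne' (ab_pos hb).ne', map_mul]
  have e : GaussianInt.toComplex a * GaussianInt.toComplex b / ((ab a * ab b : ℝ) : ℂ) =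
      (GaussianInt.toComplex a / ab a) * (GaussianInt.toComplex b / ab b) := by
    push_cast
    rw [mul_div_mul_comm]
  rw [e, mul_zpow, mul_add]
  push_cast
  rw [add_mul, Complex.exp_add]
  ring

theorem ch_one (m : ℝ) (k : ℤ) : ch m k 1 = 1 := by simp [ch, ab]

theorem ab_I : ab ⟨0, 1⟩ = 1 := by
  have h := nm_eq_ab ⟨0, 1⟩
  have h2 : nm ⟨0, 1⟩ = 1 := by simp [nm, Zsqrtd.norm]
  rw [h2] at h
  have := ab_nonneg ⟨0, 1⟩
  nlinarith

theorem toC_I : GaussianInt.toComplex ⟨0, 1⟩ = Complex.I := by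
  rw [GaussianInt.toComplex_def']
  simp

theorem I_ne : (⟨0, 1⟩ : GaussianInt) ≠ 0 := by
  intro h
  have := congrArg Zsqrtd.im h
  simp at this

theorem ch_I (m : ℝ) (k : ℤ) : ch m k ⟨0, 1⟩ = Complex.I ^ k := by
  rw [ch_eq I_ne, ab_I, toC_I]
  simp

theorem ch_I_of_dvd (m : ℝ) {k : ℤ} (hk : 4 ∣ k) : ch m k ⟨0, 1⟩ = 1 := by
  obtain ⟨l, rfl⟩ := hk
  rw [ch_I, zpow_mul]
  have : Complex.I ^ (4 : ℤ) = 1 := by
    have h := Complex.I_pow_four
    exact_mod_cast h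
  rw [this, one_zpow]

theorem CM.map_one {f : GaussianInt → ℂ} (hf : CM f) : f 1 = 1 := by
  have h := hf.mul ⟨0, 1⟩ 1 I_ne one_ne_zero
  rw [mul_one, hf.map_I, one_mul] at h
  exact h.symm

theorem CM.map_unit {f : GaussianInt → ℂ} (hf : CM f) {u : GaussianInt} (hu : IsUnit u) :
    f u = 1 := by
  have hm1 : f (-1) = 1 := by
    have h := hf.mul ⟨0, 1⟩ ⟨0, 1⟩ I_ne I_ne
    have h2 : (⟨0, 1⟩ : GaussianInt) * ⟨0, 1⟩ = -1 := by ext <;> simp
    rw [h2, hf.map_I, one_mul] at h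
    exact h
  have hmI : f ⟨0, -1⟩ = 1 := by
    have h := hf.mul ⟨0, 1⟩ (-1) I_ne (by simp)
    have h2 : (⟨0, 1⟩ : GaussianInt) * (-1) = ⟨0, -1⟩ := by ext <;> simp
    rw [h2, hf.map_I, hm1, one_mul] at h
    exact h
  rcases unit_cases hu with rfl | rfl | rfl | rfl
  · exact hf.map_one
  · exact hm1
  · exact hf.map_I
  · exact hmI

theorem CM.mul_ch {f : GaussianInt → ℂ} (hf : CM f) (m : ℝ) {k : ℤ} (hk : 4 ∣ k) :
    CM (fun g => f g * ch m k g) where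
  mul := by
    intro a b ha hb
    show f (a * b) * ch m k (a * b) = f a * ch m k a * (f b * ch m k b)
    rw [hf.mul a b ha hb, ch_mul ha hb]
    ring
  le := by
    intro a ha
    show ‖f a * ch m k a‖ ≤ 1
    rw [norm_mul, norm_ch, mul_one]
    exact hf.le a ha
  map_I := by
    show f ⟨0, 1⟩ * ch m k ⟨0, 1⟩ = 1
    rw [hf.map_I, ch_I_of_dvd m hk, one_mul]

theorem CM.of_bcm {f : GaussianInt → ℝ} (hf : IsBCM f) : CM (fun g => (f g : ℂ)) where
  mul := by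
    intro a b ha hb
    show ((f (a * b) : ℝ) : ℂ) = f a * f b
    rw [hf.mul a b ha hb]
    push_cast
    rfl
  le := by
    intro a ha
    show ‖((f a : ℝ) : ℂ)‖ ≤ 1
    rw [Complex.norm_real, Real.norm_eq_abs]
    exact hf.abs_le_one ha
  map_I := by
    show ((f ⟨0, 1⟩ : ℝ) : ℂ) = 1
    rw [hf.map_I]
    norm_num

end Pool.Agent.MRG
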