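import Pool.Agent.MRG.Jack
import Pool.Agent.MRG.Defs
import Pool.Agent.Hhelper49.GaussPret.Equi

/-!
# Module Approx: slowly varying functions are combinations of few characters

If `M ≤ 2` the bound is trivial (`R/d ≥ 1`, `#ann ≤ 36 R²`).  Let `m = ⌊M/2⌋ ≥ M/3`, `L = 4m`, `x_a = log R - 1 + 2πa/L`, `y_b = 2πb/L`, `z_ab = e^(x_a + i y_b)`,
`Ψ_ab = ψ (fl z_ab)` (`fl`, `norm_sub_fl` in `GaussPret/Equi`: `‖z - fl z‖ ≤ 2`), and for `n ≠ 0`, `x = log|n|`, `y = arg n`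
`ψ̃(n) = (1/L²) ∑_{a,b < L} Ψ_ab JK m (x - x_a) JK m (y - y_b) = ∑_{c ∈ fr (2m)} A_c ch c.1 c.2 n` with
`A_c = jk m c.1 · jk m c.2 · (1/L²) ∑_{a,b} Ψ_ab e^(-i(c.1 x_a + c.2 y_b))` (`JK_eq`, `ch_eq`/definition of `ch`).
`∑_c |A_c|² ≤ (1/L²) ∑ |Ψ_ab|² ≤ 1` (Bessel: the exponentials with `|c.i| < 2m` are orthogonal on the grid since `L ≥ 4m`; expand, or geometric sums).
`ψ̃` is close to `ψ` on `ann R 2R`: weights `(1/L²) JK JK ≥ 0` with total sum `1`.  Let `τ = d/(52R) ≤ 1/52`.  If `|sin ((x-x_a)/2)| < τ`: as `x - x_a ∈ (1 - 2π, 1.7)`,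
`|x - x_a| ≤ πτ`.  If also `|sin ((y-y_b)/2)| < τ`, then `y - y_b` is within `πτ` of `2πℤ`, so `|z_ab - n| = |n| |e^((x_a - x) + i(y_b - y)) - 1| ≤ 2R · 13τ ≤ d/2`, and
`|fl z_ab - n| ≤ d/2 + 2 ≤ d`, so `|Ψ_ab - ψ(n)| ≤ κ`.  The other pairs have total weight `≤ 2 · (2/m²)/τ²` (`JK_second`, `JK_avg`) and there `|Ψ_ab - ψ(n)| ≤ 2`.  So
`|ψ̃(n) - ψ(n)| ≤ κ + C (R/(Md))²`.  Finally `∑ f ψ̃ = ∑_c A_c FR f R c`, Cauchy–Schwarz.
-/

set_option autoImplicit false

namespace Pool.Agent.MRG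

open Pool.Agent.GaussPret

theorem ap_bessel {P F : Type} [Fintype P] [DecidableEq F] (E : F → P → ℂ) {K : ℝ} (hK : 0 < K)
    (s : Finset F) (hE : ∀ c ∈ s, ∀ c' ∈ s,
      ∑ p, E c' p * (starRingEnd ℂ) (E c p) = if c = c' then (K : ℂ) else 0) (g : P → ℂ) :
    ∑ c ∈ s, ‖∑ p, g p * (starRingEnd ℂ) (E c p)‖ ^ 2 ≤ K * ∑ p, ‖g p‖ ^ 2 := by
  classical
  have hq : (0 : ℝ) < √K := Real.sqrt_pos.mpr hK
  let v : s → EuclideanSpace ℂ P := fun c => WithLp.toLp 2 (fun p => (((√K)⁻¹ : ℝ) : ℂ) * E c p)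
  have hv : Orthonormal ℂ v := by
    rw [orthonormal_iff_ite]
    intro c c'
    rw [PiLp.inner_apply]
    have h1 : ∀ p, inner ℂ ((v c) p) ((v c') p) =
        ((K⁻¹ : ℝ) : ℂ) * (E c' p * (starRingEnd ℂ) (E c p)) := by
      intro p
      rw [RCLike.inner_apply]
      show (((√K)⁻¹ : ℝ) : ℂ) * E c' p * (starRingEnd ℂ) ((((√K)⁻¹ : ℝ) : ℂ) * E c p) = _
      rw [map_mul, Complex.conj_ofReal]
      have h2 : (((√K)⁻¹ : ℝ) : ℂ) * (((√K)⁻¹ : ℝ) : ℂ) = ((K⁻¹ : ℝ) : ℂ) := by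
        rw [← Complex.ofReal_mul, ← mul_inv, Real.mul_self_sqrt hK.le]
      rw [← h2]
      ring
    rw [Finset.sum_congr rfl fun p _ => h1 p, ← Finset.mul_sum, hE c c.2 c' c'.2]
    by_cases h : c = c'
    · rw [if_pos h, if_pos (congrArg Subtype.val h), ← Complex.ofReal_mul, inv_mul_cancel₀ hK.ne']
      norm_num
    · rw [if_neg h, if_neg fun h' => h (Subtype.ext h'), mul_zero]
  have h := hv.sum_inner_products_le (WithLp.toLp 2 g) (s := Finset.univ)
  rw [EuclideanSpace.norm_sq_eq] at h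
  have h3 : ∀ c : s, ‖inner ℂ (v c) (WithLp.toLp 2 g)‖ ^ 2 =
      K⁻¹ * ‖∑ p, g p * (starRingEnd ℂ) (E c p)‖ ^ 2 := by
    intro c
    rw [PiLp.inner_apply]
    have h1 : ∀ p, inner ℂ ((v c) p) (g p) =
        (((√K)⁻¹ : ℝ) : ℂ) * (g p * (starRingEnd ℂ) (E c p)) := by
      intro p
      rw [RCLike.inner_apply]
      show g p * (starRingEnd ℂ) ((((√K)⁻¹ : ℝ) : ℂ) * E c p) = _
      rw [map_mul, Complex.conj_ofReal]
      ring
    rw [Finset.sum_congr rfl fun p _ => h1 p, ← Finset.mul_sum, norm_mul, mul_pow,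
      Complex.norm_real, Real.norm_eq_abs, sq_abs, inv_pow, Real.sq_sqrt hK.le]
  rw [Finset.sum_congr rfl fun c _ => h3 c, ← Finset.mul_sum, inv_mul_le_iff₀ hK] at h
  rw [← Finset.sum_coe_sort]
  exact h

/-- `e^(i t)` -/
noncomputable def apx (t : ℝ) : ℂ := Complex.exp ((t : ℂ) * Complex.I)

theorem apx_add (s t : ℝ) : apx (s + t) = apx s * apx t := by
  rw [apx, apx, apx, ← Complex.exp_add]
  congr 1
  push_cast
  ring

theorem apx_conj (t : ℝ) : (starRingEnd ℂ) (apx t) = apx (-t) := by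
  rw [apx, apx, ← Complex.exp_conj, map_mul, Complex.conj_ofReal, Complex.conj_I]
  congr 1
  push_cast
  ring

theorem apx_zero : apx 0 = 1 := by simp [apx]

theorem norm_apx (t : ℝ) : ‖apx t‖ = 1 := Complex.norm_exp_ofReal_mul_I t

theorem apx_pow (t : ℝ) (a : ℕ) : apx t ^ a = apx (a * t) := by
  induction a with
  | zero => simp [apx_zero]
  | succ a ih =>
    rw [pow_succ, ih, ← apx_add]
    congr 1
    push_cast
    ring

theorem apx_int (k : ℤ) : apx (2 * Real.pi * k) = 1 := by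
  rw [apx]
  have : ((2 * Real.pi * (k : ℝ) : ℝ) : ℂ) * Complex.I = k * (2 * Real.pi * Complex.I) := by
    push_cast; ring
  rw [this, Complex.exp_int_mul_two_pi_mul_I]

theorem ap_geo {L : ℕ} (hL : 0 < L) {j : ℤ} (hj' : |j| < L) (x : ℝ) :
    ∑ a ∈ Finset.range L, apx (j * (x + 2 * Real.pi * a / L)) = if j = 0 then (L : ℂ) else 0 := by
  have hLr : (L : ℝ) ≠ 0 := by exact_mod_cast hL.ne'
  by_cases hj : j = 0
  · rw [if_pos hj, hj]
    simp [apx_zero]
  · rw [if_neg hj]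
    have h1 : ∀ a ∈ Finset.range L, apx (j * (x + 2 * Real.pi * a / L)) =
        apx (j * x) * apx (2 * Real.pi * j / L) ^ a := by
      intro a _
      rw [apx_pow, ← apx_add]
      congr 1
      ring
    rw [Finset.sum_congr rfl h1, ← Finset.mul_sum]
    have h2 : apx (2 * Real.pi * j / L) ≠ 1 := by
      intro h
      rw [apx, Complex.exp_eq_one_iff] at h
      obtain ⟨n, hn⟩ := h
      have h3 : ((2 * Real.pi * j / L : ℝ) : ℂ) * Complex.I =
          ((2 * Real.pi * n : ℝ) : ℂ) * Complex.I := by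
        rw [hn]; push_cast; ring
      have h4 := mul_right_cancel₀ Complex.I_ne_zero h3
      have h5 : 2 * Real.pi * j / L = 2 * Real.pi * n := by exact_mod_cast h4
      have h6 : (j : ℝ) = n * L := by
        rw [div_eq_iff hLr] at h5
        have h7 : (2 * Real.pi) * (j : ℝ) = (2 * Real.pi) * (n * L) := by linarith
        exact mul_left_cancel₀ (by positivity) h7
      have h8 : j = n * L := by exact_mod_cast h6
      have hn0 : n ≠ 0 := by
        rintro rfl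
        apply hj
        rw [h8, zero_mul]
      rw [h8, abs_mul] at hj'
      have h9 : 1 ≤ |n| := Int.one_le_abs hn0
      have h10 : |(L : ℤ)| = L := abs_of_nonneg (by positivity)
      rw [h10] at hj'
      have hL' : (0 : ℤ) < L := by exact_mod_cast hL
      nlinarith
    rw [geom_sum_eq h2, apx_pow]
    have h3 : ((L : ℝ) * (2 * Real.pi * j / L)) = 2 * Real.pi * j := by
      field_simp
    rw [h3, apx_int, sub_self, zero_div, mul_zero]

theorem ap_sin {v τ : ℝ} (h : |Real.sin (v / 2)| < τ) :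
    ∃ k : ℤ, |v - 2 * Real.pi * k| ≤ Real.pi * τ := by
  have hpi := Real.pi_pos
  refine ⟨round (v / (2 * Real.pi)), ?_⟩
  set k := round (v / (2 * Real.pi)) with hk
  have h1 := abs_sub_round (v / (2 * Real.pi))
  rw [← hk] at h1
  have h2 : |v / 2 - k * Real.pi| ≤ Real.pi / 2 := by
    have h3 : v / 2 - k * Real.pi = Real.pi * (v / (2 * Real.pi) - k) := by
      field_simp
    rw [h3, abs_mul, abs_of_pos hpi]
    nlinarith
  have h4 := Real.mul_abs_le_abs_sin h2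
  have h5 : |Real.sin (v / 2 - k * Real.pi)| = |Real.sin (v / 2)| := by
    rw [Real.sin_sub_int_mul_pi, abs_mul]
    have : |((-1 : ℝ)) ^ k| = 1 := by
      rw [abs_zpow, abs_neg, abs_one, one_zpow]
    rw [this, one_mul]
  rw [h5] at h4
  have h6 : |v - 2 * Real.pi * k| = 2 * |v / 2 - k * Real.pi| := by
    have : v - 2 * Real.pi * k = 2 * (v / 2 - k * Real.pi) := by ring
    rw [this, abs_mul, abs_two]
  rw [h6]
  have h7 : 2 / Real.pi * |v / 2 - k * Real.pi| < τ := lt_of_le_of_lt h4 h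
  have h8 : 2 / Real.pi * |v / 2 - k * Real.pi| = (2 * |v / 2 - k * Real.pi|) / Real.pi := by ring
  rw [h8, div_lt_iff₀ hpi] at h7
  linarith

theorem ap_close {R d x₀ y₀ : ℝ} (hd : 8 ≤ d) (hdR : d ≤ R) {n : GaussianInt}
    (hn : n ∈ ann R (2 * R)) (hu1 : 1 - 2 * Real.pi < Real.log (ab n) - x₀)
    (hu2 : Real.log (ab n) - x₀ ≤ 17 / 10)
    (h1 : |Real.sin ((Real.log (ab n) - x₀) / 2)| < d / (52 * R))
    (h2 : |Real.sin ((Complex.arg (GaussianInt.toComplex n) - y₀) / 2)| < d / (52 * R)) :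
    ab (fl (Complex.exp ((x₀ : ℂ) + y₀ * Complex.I)) - n) ≤ d := by
  have hR : 0 < R := by linarith
  have hn' := mem_ann.1 hn
  have hab : 0 < ab n := ab_pos hn'.1
  have hpi := Real.pi_pos
  have hpi3 := Real.pi_gt_three
  have hpi4 := Real.pi_lt_d2
  have hτ1 : d / (52 * R) ≤ 1 / 52 := by
    rw [div_le_div_iff₀ (by positivity) (by norm_num)]
    linarith
  obtain ⟨k, hk⟩ := ap_sin h1
  obtain ⟨l, hl⟩ := ap_sin h2
  set u := Real.log (ab n) - x₀ with hu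
  set v := Complex.arg (GaussianInt.toComplex n) - y₀ with hv
  have hb : Real.pi * (d / (52 * R)) ≤ Real.pi / 52 := by
    calc Real.pi * (d / (52 * R)) ≤ Real.pi * (1 / 52) := mul_le_mul_of_nonneg_left hτ1 hpi.le
      _ = Real.pi / 52 := by ring
  have hk0 : k = 0 := by
    have h3 := abs_le.1 (hk.trans hb)
    by_contra hk0
    rcases lt_or_gt_of_ne hk0 with h | h
    · have h4 : (k : ℝ) ≤ -1 := by exact_mod_cast (by omega : k ≤ -1)
      nlinarith
    · have h4 : (1 : ℝ) ≤ k := by exact_mod_cast (by omega : 1 ≤ k)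
      nlinarith
  rw [hk0, Int.cast_zero, mul_zero, sub_zero] at hk
  set v' := v - 2 * Real.pi * l with hv'
  set w : ℂ := ((-u : ℝ) : ℂ) + ((-v' : ℝ) : ℂ) * Complex.I with hw
  have hwn : ‖w‖ ≤ 2 * (Real.pi * (d / (52 * R))) := by
    refine (norm_add_le _ _).trans ?_
    rw [norm_mul, Complex.norm_I, mul_one, Complex.norm_real, Complex.norm_real, Real.norm_eq_abs,
      Real.norm_eq_abs, abs_neg, abs_neg]
    linarith
  have hw1 : ‖w‖ ≤ 1 := by
    refine hwn.trans ?_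
    nlinarith
  have hexp := Complex.norm_exp_sub_one_le hw1
  have hnC : GaussianInt.toComplex n = Complex.exp ((Real.log (ab n) : ℂ) +
      (Complex.arg (GaussianInt.toComplex n) : ℂ) * Complex.I) := by
    rw [Complex.exp_add]
    have h3 : Complex.exp (Real.log (ab n) : ℂ) = (ab n : ℂ) := by
      rw [← Complex.ofReal_exp, Real.exp_log hab]
    rw [h3]
    exact (Complex.norm_mul_exp_arg_mul_I _).symm
  have hz : Complex.exp ((x₀ : ℂ) + y₀ * Complex.I) =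
      GaussianInt.toComplex n * Complex.exp w := by
    rw [hnC, ← Complex.exp_add]
    have h3 : ((Real.log (ab n) : ℂ) + (Complex.arg (GaussianInt.toComplex n) : ℂ) * Complex.I) +
        w = ((x₀ : ℂ) + y₀ * Complex.I) + l * (2 * Real.pi * Complex.I) := by
      rw [hw, hv', hu, hv]
      push_cast
      ring
    rw [h3, Complex.exp_add _ (l * (2 * Real.pi * Complex.I)), Complex.exp_int_mul_two_pi_mul_I,
      mul_one]
  have hzn : ‖Complex.exp ((x₀ : ℂ) + y₀ * Complex.I) - GaussianInt.toComplex n‖ ≤ d / 2 := by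
    have h3 : Complex.exp ((x₀ : ℂ) + y₀ * Complex.I) - GaussianInt.toComplex n =
        GaussianInt.toComplex n * (Complex.exp w - 1) := by
      rw [hz]; ring
    rw [h3, norm_mul]
    have h4 : ‖GaussianInt.toComplex n‖ ≤ 2 * R := hn'.2.2
    calc ‖GaussianInt.toComplex n‖ * ‖Complex.exp w - 1‖ ≤
          (2 * R) * (2 * (2 * (Real.pi * (d / (52 * R))))) :=
          mul_le_mul h4 (hexp.trans (by linarith)) (norm_nonneg _) (by positivity)
      _ = (8 * Real.pi / 52) * d := by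
          field_simp
          ring
      _ ≤ d / 2 := by nlinarith
  have hfl := norm_sub_fl (Complex.exp ((x₀ : ℂ) + y₀ * Complex.I))
  rw [ab, map_sub]
  set z := Complex.exp ((x₀ : ℂ) + y₀ * Complex.I) with hzz
  have h5 : GaussianInt.toComplex (fl z) - GaussianInt.toComplex n =
      (z - GaussianInt.toComplex n) - (z - GaussianInt.toComplex (fl z)) := by ring
  rw [h5]
  refine (norm_sub_le _ _).trans ?_
  linarith

/-- orthogonality of the characters on the grid -/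
theorem ap_orth {L : ℕ} (hL : 0 < L) (r : ℝ) (c c' : ℤ × ℤ) (h1 : |c'.1 - c.1| < L)
    (h2 : |c'.2 - c.2| < L) :
    ∑ p : Fin L × Fin L, apx (c'.1 * (r + 2 * Real.pi * (p.1 : ℕ) / L) +
        c'.2 * (0 + 2 * Real.pi * (p.2 : ℕ) / L)) *
      (starRingEnd ℂ) (apx (c.1 * (r + 2 * Real.pi * (p.1 : ℕ) / L) +
        c.2 * (0 + 2 * Real.pi * (p.2 : ℕ) / L))) = if c = c' then (((L : ℝ) ^ 2 : ℝ) : ℂ) else 0 := by
  have h3 : ∀ p : Fin L × Fin L, apx (c'.1 * (r + 2 * Real.pi * (p.1 : ℕ) / L) +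
        c'.2 * (0 + 2 * Real.pi * (p.2 : ℕ) / L)) *
      (starRingEnd ℂ) (apx (c.1 * (r + 2 * Real.pi * (p.1 : ℕ) / L) +
        c.2 * (0 + 2 * Real.pi * (p.2 : ℕ) / L))) =
      apx (((c'.1 - c.1 : ℤ) : ℝ) * (r + 2 * Real.pi * (p.1 : ℕ) / L)) *
        apx (((c'.2 - c.2 : ℤ) : ℝ) * (0 + 2 * Real.pi * (p.2 : ℕ) / L)) := by
    intro p
    rw [apx_conj, ← apx_add, ← apx_add]
    congr 1
    push_cast
    ring
  rw [Finset.sum_congr rfl fun p _ => h3 p, Fintype.sum_prod_type]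
  simp only
  rw [← Finset.sum_mul_sum,
    Fin.sum_univ_eq_sum_range (fun a => apx (((c'.1 - c.1 : ℤ) : ℝ) * (r + 2 * Real.pi * a / L))),
    Fin.sum_univ_eq_sum_range (fun a => apx (((c'.2 - c.2 : ℤ) : ℝ) * (0 + 2 * Real.pi * a / L))),
    ap_geo hL h1, ap_geo hL h2]
  by_cases hc : c = c'
  · rw [if_pos hc, hc, sub_self, sub_self, if_pos rfl]
    push_cast
    ring
  · rw [if_neg hc]
    by_cases h4 : c'.1 - c.1 = 0
    · by_cases h5 : c'.2 - c.2 = 0
      · exfalso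
        apply hc
        ext
        · omega
        · omega
      · rw [if_neg h5, mul_zero]
    · rw [if_neg h4, zero_mul]

section main

variable (m : ℕ) (r : ℝ) (Ψ : Fin (4 * m) × Fin (4 * m) → ℂ)

/-- grid points -/
noncomputable def apa (p : Fin (4 * m) × Fin (4 * m)) : ℝ :=
  r + 2 * Real.pi * ((p.1 : ℕ) : ℝ) / ((4 * m : ℕ) : ℝ)

/-- grid points -/
noncomputable def apb (p : Fin (4 * m) × Fin (4 * m)) : ℝ :=
  0 + 2 * Real.pi * ((p.2 : ℕ) : ℝ) / ((4 * m : ℕ) : ℝ)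

/-- coefficients -/
noncomputable def apA (c : ℤ × ℤ) : ℂ :=
  ((jk m c.1 * jk m c.2 : ℝ) : ℂ) * ((((4 * m : ℕ) : ℝ) ^ 2)⁻¹ : ℝ) *
    ∑ p, Ψ p * (starRingEnd ℂ) (apx (c.1 * apa m r p + c.2 * apb m p))

/-- the smoothed function -/
noncomputable def apT (x y : ℝ) : ℂ :=
  ((((4 * m : ℕ) : ℝ) ^ 2)⁻¹ : ℝ) * ∑ p, Ψ p * ((JK m (x - apa m r p) * JK m (y - apb m p) : ℝ) : ℂ)

theorem ap_expand {m : ℕ} (hm : 1 ≤ m) (r : ℝ) (Ψ : Fin (4 * m) × Fin (4 * m) → ℂ) (x y : ℝ) :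
    apT m r Ψ x y = ∑ c ∈ fr (2 * m), apA m r Ψ c * apx (c.1 * x + c.2 * y) := by
  have h1 : ∀ p, ((JK m (x - apa m r p) * JK m (y - apb m p) : ℝ) : ℂ) =
      ∑ c ∈ fr (2 * m), ((jk m c.1 * jk m c.2 : ℝ) : ℂ) *
        (apx (c.1 * x + c.2 * y) * (starRingEnd ℂ) (apx (c.1 * apa m r p + c.2 * apb m p))) := by
    intro p
    rw [Complex.ofReal_mul, JK_eq hm, JK_eq hm, Finset.sum_mul_sum, fr, Finset.sum_product]
    push_cast
    refine Finset.sum_congr rfl fun j _ => Finset.sum_congr rfl fun k _ => ?_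
    have h2 : ∀ t : ℝ, Complex.exp (((t : ℝ) : ℂ) * Complex.I) = apx t := fun t => rfl
    have h3 : apx (j * x + k * y) * (starRingEnd ℂ) (apx (j * apa m r p + k * apb m p)) =
        apx (j * (x - apa m r p)) * apx (k * (y - apb m p)) := by
      rw [apx_conj, ← apx_add, ← apx_add]
      congr 1
      ring
    rw [h3, apx, apx]
    push_cast
    ring
  rw [apT, Finset.sum_congr rfl fun p _ => by rw [h1 p, Finset.mul_sum], Finset.sum_comm,
    Finset.mul_sum]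
  refine Finset.sum_congr rfl fun c _ => ?_
  rw [apA, Finset.mul_sum, Finset.mul_sum, Finset.sum_mul]
  refine Finset.sum_congr rfl fun p _ => ?_
  ring

theorem ap_coef {m : ℕ} (hm : 1 ≤ m) (r : ℝ) (Ψ : Fin (4 * m) × Fin (4 * m) → ℂ)
    (hΨ : ∀ p, ‖Ψ p‖ ≤ 1) : ∑ c ∈ fr (2 * m), ‖apA m r Ψ c‖ ^ 2 ≤ 1 := by
  have hL : 0 < 4 * m := by omega
  set L : ℝ := ((4 * m : ℕ) : ℝ) with hLdef
  have hLr : 0 < L := by rw [hLdef]; exact_mod_cast hL
  have h1 := ap_bessel (fun (c : ℤ × ℤ) (p : Fin (4 * m) × Fin (4 * m)) =>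
    apx (c.1 * apa m r p + c.2 * apb m p)) (K := L ^ 2) (by positivity) (fr (2 * m))
    (by
      intro c hc c' hc'
      rw [mem_fr] at hc hc'
      push_cast at hc hc'
      refine ap_orth hL r c c' ?_ ?_
      · rw [abs_lt]
        push_cast
        constructor <;> linarith [hc.1.1, hc.1.2, hc'.1.1, hc'.1.2]
      · rw [abs_lt]
        push_cast
        constructor <;> linarith [hc.2.1, hc.2.2, hc'.2.1, hc'.2.2]) Ψ
  have h2 : ∀ c ∈ fr (2 * m), ‖apA m r Ψ c‖ ^ 2 ≤ ((L ^ 2)⁻¹) ^ 2 *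
      ‖∑ p, Ψ p * (starRingEnd ℂ) (apx (c.1 * apa m r p + c.2 * apb m p))‖ ^ 2 := by
    intro c _
    rw [apA, norm_mul, norm_mul, mul_pow, mul_pow]
    refine mul_le_mul_of_nonneg_right ?_ (by positivity)
    have h3 : ‖((jk m c.1 * jk m c.2 : ℝ) : ℂ)‖ ≤ 1 := by
      rw [Complex.norm_real, Real.norm_eq_abs, abs_of_nonneg
        (mul_nonneg (jk_mem hm _).1 (jk_mem hm _).1)]
      exact mul_le_one₀ (jk_mem hm _).2 (jk_mem hm _).1 (jk_mem hm _).2
    have h4 : ‖(((((4 * m : ℕ) : ℝ) ^ 2)⁻¹ : ℝ) : ℂ)‖ = (L ^ 2)⁻¹ := by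
      rw [Complex.norm_real, Real.norm_eq_abs, abs_of_nonneg (by positivity)]
    rw [h4]
    calc ‖((jk m c.1 * jk m c.2 : ℝ) : ℂ)‖ ^ 2 * ((L ^ 2)⁻¹) ^ 2 ≤ 1 ^ 2 * ((L ^ 2)⁻¹) ^ 2 :=
          mul_le_mul_of_nonneg_right (pow_le_pow_left₀ (norm_nonneg _) h3 2) (by positivity)
      _ = ((L ^ 2)⁻¹) ^ 2 := by ring
  refine (Finset.sum_le_sum h2).trans ?_
  rw [← Finset.mul_sum]
  have h5 : ∑ p : Fin (4 * m) × Fin (4 * m), ‖Ψ p‖ ^ 2 ≤ L ^ 2 := by
    refine (Finset.sum_le_card_nsmul _ _ 1 fun p _ => ?_).trans ?_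
    · exact pow_le_one₀ (norm_nonneg _) (hΨ p)
    · rw [Finset.card_univ, Fintype.card_prod, Fintype.card_fin, nsmul_eq_mul, mul_one]
      rw [hLdef]
      push_cast
      exact le_of_eq (by ring)
  calc ((L ^ 2)⁻¹) ^ 2 * ∑ c ∈ fr (2 * m),
        ‖∑ p, Ψ p * (starRingEnd ℂ) (apx (c.1 * apa m r p + c.2 * apb m p))‖ ^ 2 ≤
        ((L ^ 2)⁻¹) ^ 2 * (L ^ 2 * L ^ 2) :=
        mul_le_mul_of_nonneg_left (h1.trans (mul_le_mul_of_nonneg_left h5 (by positivity)))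
          (by positivity)
    _ = 1 := by
        field_simp

/-- grid averages of a product -/
theorem ap_avg (m : ℕ) (r x y : ℝ) (F G : ℝ → ℝ) :
    (((4 * m : ℕ) : ℝ) ^ 2)⁻¹ * ∑ p : Fin (4 * m) × Fin (4 * m),
      F (x - apa m r p) * G (y - apb m p) =
    ((1 / ((4 * m : ℕ) : ℝ)) * ∑ a ∈ Finset.range (4 * m),
      F ((x - r) - 2 * Real.pi * a / ((4 * m : ℕ) : ℝ))) *
    ((1 / ((4 * m : ℕ) : ℝ)) * ∑ a ∈ Finset.range (4 * m),
      G (y - 2 * Real.pi * a / ((4 * m : ℕ) : ℝ))) := by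
  rw [Fintype.sum_prod_type]
  have h1 : ∀ p : Fin (4 * m) × Fin (4 * m), F (x - apa m r p) * G (y - apb m p) =
      F ((x - r) - 2 * Real.pi * ((p.1 : ℕ) : ℝ) / ((4 * m : ℕ) : ℝ)) *
      G (y - 2 * Real.pi * ((p.2 : ℕ) : ℝ) / ((4 * m : ℕ) : ℝ)) := by
    intro p
    rw [apa, apb, zero_add, sub_add_eq_sub_sub]
  simp only [h1]
  rw [← Finset.sum_mul_sum,
    Fin.sum_univ_eq_sum_range (fun a => F ((x - r) - 2 * Real.pi * a / ((4 * m : ℕ) : ℝ))),
    Fin.sum_univ_eq_sum_range (fun a => G (y - 2 * Real.pi * a / ((4 * m : ℕ) : ℝ)))]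
  ring

theorem ap_point {m : ℕ} (hm : 1 ≤ m) (r : ℝ) (Ψ : Fin (4 * m) × Fin (4 * m) → ℂ) (x y : ℝ)
    (z : ℂ) {κ τ : ℝ} (hκ : 0 ≤ κ) (hτ : 0 < τ) (h2 : ∀ p, ‖Ψ p - z‖ ≤ 2)
    (hΨ : ∀ p, |Real.sin ((x - apa m r p) / 2)| < τ → |Real.sin ((y - apb m p) / 2)| < τ →
      ‖Ψ p - z‖ ≤ κ) : ‖apT m r Ψ x y - z‖ ≤ κ + 8 / (τ ^ 2 * (m : ℝ) ^ 2) := by
  have hL : 0 < 4 * m := by omega
  have hmr : (0 : ℝ) < m := by exact_mod_cast hm
  set L : ℝ := ((4 * m : ℕ) : ℝ) with hLdef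
  have hLr : 0 < L := by rw [hLdef]; exact_mod_cast hL
  have hw1 := ap_avg m r x y (JK m) (JK m)
  have hA := JK_avg hm (L := 4 * m) le_rfl (x - r)
  have hB := JK_avg hm (L := 4 * m) le_rfl y
  have hA2 := JK_second hm (L := 4 * m) le_rfl (x - r)
  have hB2 := JK_second hm (L := 4 * m) le_rfl y
  rw [hA, hB, mul_one] at hw1
  have hwn : ∀ p : Fin (4 * m) × Fin (4 * m), 0 ≤ JK m (x - apa m r p) * JK m (y - apb m p) :=
    fun p => mul_nonneg (JK_nonneg hm _) (JK_nonneg hm _)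
  have hrep : apT m r Ψ x y - z = (((L ^ 2)⁻¹ : ℝ) : ℂ) *
      ∑ p, ((JK m (x - apa m r p) * JK m (y - apb m p) : ℝ) : ℂ) * (Ψ p - z) := by
    have h3 : ∑ p, ((JK m (x - apa m r p) * JK m (y - apb m p) : ℝ) : ℂ) * (Ψ p - z) =
        ∑ p, Ψ p * ((JK m (x - apa m r p) * JK m (y - apb m p) : ℝ) : ℂ) -
        ((∑ p, JK m (x - apa m r p) * JK m (y - apb m p) : ℝ) : ℂ) * z := by
      rw [Complex.ofReal_sum, Finset.sum_mul, ← Finset.sum_sub_distrib]
      exact Finset.sum_congr rfl fun p _ => by ring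
    rw [h3, mul_sub, ← mul_assoc, ← Complex.ofReal_mul, hw1, Complex.ofReal_one, one_mul]
    rfl
  have hbound : ∀ p : Fin (4 * m) × Fin (4 * m), ‖Ψ p - z‖ ≤ κ + 2 / τ ^ 2 *
      (Real.sin ((x - apa m r p) / 2) ^ 2 + Real.sin ((y - apb m p) / 2) ^ 2) := by
    intro p
    by_cases h3 : |Real.sin ((x - apa m r p) / 2)| < τ
    · by_cases h4 : |Real.sin ((y - apb m p) / 2)| < τ
      · refine (hΨ p h3 h4).trans ?_
        have : 0 ≤ 2 / τ ^ 2 *
          (Real.sin ((x - apa m r p) / 2) ^ 2 + Real.sin ((y - apb m p) / 2) ^ 2) := by positivity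
        linarith
      · rw [not_lt] at h4
        have h5 : τ ^ 2 ≤ Real.sin ((y - apb m p) / 2) ^ 2 := by
          rw [← sq_abs (Real.sin _)]
          exact pow_le_pow_left₀ hτ.le h4 2
        refine (h2 p).trans ?_
        have h6 : 2 / τ ^ 2 * τ ^ 2 ≤ 2 / τ ^ 2 *
          (Real.sin ((x - apa m r p) / 2) ^ 2 + Real.sin ((y - apb m p) / 2) ^ 2) :=
          mul_le_mul_of_nonneg_left (by nlinarith [sq_nonneg (Real.sin ((x - apa m r p) / 2))])
            (by positivity)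
        rw [div_mul_cancel₀ _ (by positivity)] at h6
        linarith
    · rw [not_lt] at h3
      have h5 : τ ^ 2 ≤ Real.sin ((x - apa m r p) / 2) ^ 2 := by
        rw [← sq_abs (Real.sin _)]
        exact pow_le_pow_left₀ hτ.le h3 2
      refine (h2 p).trans ?_
      have h6 : 2 / τ ^ 2 * τ ^ 2 ≤ 2 / τ ^ 2 *
        (Real.sin ((x - apa m r p) / 2) ^ 2 + Real.sin ((y - apb m p) / 2) ^ 2) :=
        mul_le_mul_of_nonneg_left (by nlinarith [sq_nonneg (Real.sin ((y - apb m p) / 2))])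
          (by positivity)
      rw [div_mul_cancel₀ _ (by positivity)] at h6
      linarith
  rw [hrep, norm_mul, Complex.norm_real, Real.norm_eq_abs, abs_of_nonneg (by positivity)]
  have h7 : ‖∑ p, ((JK m (x - apa m r p) * JK m (y - apb m p) : ℝ) : ℂ) * (Ψ p - z)‖ ≤
      ∑ p, (κ * (JK m (x - apa m r p) * JK m (y - apb m p)) +
        2 / τ ^ 2 * ((fun t => JK m t * Real.sin (t / 2) ^ 2) (x - apa m r p) *
          JK m (y - apb m p)) +
        2 / τ ^ 2 * (JK m (x - apa m r p) *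
          (fun t => JK m t * Real.sin (t / 2) ^ 2) (y - apb m p))) := by
    refine (norm_sum_le _ _).trans (Finset.sum_le_sum fun p _ => ?_)
    rw [norm_mul, Complex.norm_real, Real.norm_eq_abs, abs_of_nonneg (hwn p)]
    refine (mul_le_mul_of_nonneg_left (hbound p) (hwn p)).trans (le_of_eq ?_)
    simp only
    ring
  rw [Finset.sum_add_distrib, Finset.sum_add_distrib, ← Finset.mul_sum, ← Finset.mul_sum,
    ← Finset.mul_sum] at h7
  have hw2 := ap_avg m r x y (fun t => JK m t * Real.sin (t / 2) ^ 2) (JK m)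
  have hw3 := ap_avg m r x y (JK m) (fun t => JK m t * Real.sin (t / 2) ^ 2)
  rw [hB, mul_one] at hw2
  rw [hA, one_mul] at hw3
  have h8 := mul_le_mul_of_nonneg_left h7 (by positivity : (0 : ℝ) ≤ (L ^ 2)⁻¹)
  refine h8.trans ?_
  have h9 : (L ^ 2)⁻¹ * (κ * ∑ p, JK m (x - apa m r p) * JK m (y - apb m p) +
      2 / τ ^ 2 * ∑ p, (fun t => JK m t * Real.sin (t / 2) ^ 2) (x - apa m r p) *
        JK m (y - apb m p) +
      2 / τ ^ 2 * ∑ p, JK m (x - apa m r p) *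
        (fun t => JK m t * Real.sin (t / 2) ^ 2) (y - apb m p)) =
      κ * ((L ^ 2)⁻¹ * ∑ p, JK m (x - apa m r p) * JK m (y - apb m p)) +
      2 / τ ^ 2 * ((L ^ 2)⁻¹ * ∑ p, (fun t => JK m t * Real.sin (t / 2) ^ 2) (x - apa m r p) *
        JK m (y - apb m p)) +
      2 / τ ^ 2 * ((L ^ 2)⁻¹ * ∑ p, JK m (x - apa m r p) *
        (fun t => JK m t * Real.sin (t / 2) ^ 2) (y - apb m p)) := by ring
  rw [h9, hw1, hw2, hw3]
  have h10 : (0 : ℝ) ≤ 2 / τ ^ 2 := by positivity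
  have h11 := mul_le_mul_of_nonneg_left hA2 h10
  have h12 := mul_le_mul_of_nonneg_left hB2 h10
  have h13 : 8 / (τ ^ 2 * (m : ℝ) ^ 2) = 2 / τ ^ 2 * (2 / (m : ℝ) ^ 2) +
      2 / τ ^ 2 * (2 / (m : ℝ) ^ 2) := by
    field_simp
    ring
  rw [h13, mul_one]
  linarith

end main

theorem approx : ∃ C : ℝ, 0 < C ∧ ∀ (f ψ : GaussianInt → ℂ) (R d κ : ℝ) (M : ℕ),
    (∀ n, n ≠ 0 → ‖f n‖ ≤ 1) → (∀ n, ‖ψ n‖ ≤ 1) → 8 ≤ d → d ≤ R → 1 ≤ M → 0 ≤ κ →
    (∀ a b : GaussianInt, ab (a - b) ≤ d → ‖ψ a - ψ b‖ ≤ κ) →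
    ‖∑ n ∈ ann R (2 * R), f n * ψ n‖ ≤ Real.sqrt (∑ c ∈ fr M, ‖FR f R c‖ ^ 2) +
      C * R ^ 2 * (κ + (R / (M * d)) ^ 2) := by
  refine ⟨7008768, by norm_num, ?_⟩
  intro f ψ R d κ M hf hψ hd hdR hM hκ hψκ
  have hR : 0 < R := by linarith
  have hdp : 0 < d := by linarith
  have hMr : (0 : ℝ) < M := by exact_mod_cast hM
  have hcard : ((ann R (2 * R)).card : ℝ) ≤ 36 * R ^ 2 := by
    refine (card_ann_le _ _).trans (le_of_eq ?_)
    ring
  rcases Nat.lt_or_ge M 2 with hM2 | hM2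
  · have hM1 : M = 1 := by omega
    have h1 : ‖∑ n ∈ ann R (2 * R), f n * ψ n‖ ≤ 36 * R ^ 2 := by
      refine (norm_sum_le _ _).trans ?_
      refine (Finset.sum_le_card_nsmul _ _ 1 fun n hn => ?_).trans ?_
      · rw [norm_mul]
        exact mul_le_one₀ (hf n (mem_ann.1 hn).1) (norm_nonneg _) (hψ n)
      · rw [nsmul_eq_mul, mul_one]
        exact hcard
    have h2 : 1 ≤ (R / (M * d)) ^ 2 := by
      rw [hM1, Nat.cast_one, one_mul]
      refine one_le_pow₀ ?_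
      rw [le_div_iff₀ hdp]
      linarith
    have h3 : 0 ≤ Real.sqrt (∑ c ∈ fr M, ‖FR f R c‖ ^ 2) := Real.sqrt_nonneg _
    have h4 : R ^ 2 * 1 ≤ R ^ 2 * (κ + (R / (M * d)) ^ 2) :=
      mul_le_mul_of_nonneg_left (by linarith) (by positivity)
    have h5 : 0 ≤ R ^ 2 := by positivity
    have h6 : 7008768 * R ^ 2 * (κ + (R / (M * d)) ^ 2) =
      7008768 * (R ^ 2 * (κ + (R / (M * d)) ^ 2)) := by ring
    rw [h6]
    linarith
  · set m := M / 2 with hmdef
    have hm : 1 ≤ m := by omega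
    have hmr : (0 : ℝ) < m := by exact_mod_cast hm
    have hm3 : (M : ℝ) ≤ 3 * m := by exact_mod_cast (by omega : M ≤ 3 * m)
    have hL : 0 < 4 * m := by omega
    have hLr : (0 : ℝ) < ((4 * m : ℕ) : ℝ) := by exact_mod_cast hL
    set r : ℝ := Real.log R - 1 with hr
    set Ψ : Fin (4 * m) × Fin (4 * m) → ℂ := fun p =>
      ψ (fl (Complex.exp ((apa m r p : ℂ) + apb m p * Complex.I))) with hΨ
    have hpi := Real.pi_pos
    set τ : ℝ := d / (52 * R) with hτ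
    have hτp : 0 < τ := by positivity
    have hpt : ∀ n ∈ ann R (2 * R),
        ‖apT m r Ψ (Real.log (ab n)) (Complex.arg (GaussianInt.toComplex n)) - ψ n‖ ≤
          κ + 194688 * (R / (M * d)) ^ 2 := by
      intro n hn
      have hn' := mem_ann.1 hn
      have h1 := ap_point hm r Ψ (Real.log (ab n)) (Complex.arg (GaussianInt.toComplex n)) (ψ n)
        (κ := κ) (τ := τ) hκ hτp
        (fun p => (norm_sub_le _ _).trans (by linarith [hψ n, hψ (fl (Complex.exp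
          ((apa m r p : ℂ) + apb m p * Complex.I)))])) (by
        intro p h1 h2
        refine hψκ _ _ (ap_close hd hdR hn ?_ ?_ h1 h2)
        · have h3 : Real.log R < Real.log (ab n) := Real.log_lt_log hR hn'.2.1
          have h4 : 2 * Real.pi * ((p.1 : ℕ) : ℝ) / ((4 * m : ℕ) : ℝ) < 2 * Real.pi := by
            rw [div_lt_iff₀ hLr]
            have h5 : ((p.1 : ℕ) : ℝ) < ((4 * m : ℕ) : ℝ) := by exact_mod_cast p.1.2
            exact mul_lt_mul_of_pos_left h5 (by positivity)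
          rw [apa, hr]
          linarith
        · have h3 : Real.log (ab n) ≤ Real.log (2 * R) := Real.log_le_log (ab_pos hn'.1) hn'.2.2
          rw [Real.log_mul (by norm_num) hR.ne'] at h3
          have h4 : 0 ≤ 2 * Real.pi * ((p.1 : ℕ) : ℝ) / ((4 * m : ℕ) : ℝ) := by positivity
          have h5 := Real.log_two_lt_d9
          rw [apa, hr]
          linarith)
      refine h1.trans ?_
      have h2 : 8 / (τ ^ 2 * (m : ℝ) ^ 2) ≤ 194688 * (R / (M * d)) ^ 2 := by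
        have h3 : 194688 * (R / (M * d)) ^ 2 = 8 / (τ ^ 2 * ((M : ℝ) / 3) ^ 2) := by
          rw [hτ]
          field_simp
          ring
        rw [h3]
        refine div_le_div_of_nonneg_left (by norm_num) (by positivity) ?_
        refine mul_le_mul_of_nonneg_left (pow_le_pow_left₀ (by positivity) ?_ 2) (by positivity)
        linarith
      linarith
    have hsum : ∑ n ∈ ann R (2 * R), f n * apT m r Ψ (Real.log (ab n))
        (Complex.arg (GaussianInt.toComplex n)) = ∑ c ∈ fr (2 * m), apA m r Ψ c * FR f R c := by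
      simp only [ap_expand hm, FR, Finset.mul_sum]
      rw [Finset.sum_comm]
      refine Finset.sum_congr rfl fun c _ => Finset.sum_congr rfl fun n _ => ?_
      have : ch c.1 c.2 n = apx (c.1 * Real.log (ab n) + c.2 *
        Complex.arg (GaussianInt.toComplex n)) := rfl
      rw [this]
      ring
    have hCS : ‖∑ c ∈ fr (2 * m), apA m r Ψ c * FR f R c‖ ≤
        Real.sqrt (∑ c ∈ fr M, ‖FR f R c‖ ^ 2) := by
      refine (norm_sum_le _ _).trans ?_
      have h1 : ∑ c ∈ fr (2 * m), ‖apA m r Ψ c * FR f R c‖ ≤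
          √(∑ c ∈ fr (2 * m), ‖apA m r Ψ c‖ ^ 2) * √(∑ c ∈ fr (2 * m), ‖FR f R c‖ ^ 2) := by
        simp only [norm_mul]
        exact Real.sum_mul_le_sqrt_mul_sqrt _ _ _
      refine h1.trans ?_
      have h2 : √(∑ c ∈ fr (2 * m), ‖apA m r Ψ c‖ ^ 2) ≤ 1 :=
        Real.sqrt_le_one.mpr (ap_coef hm r Ψ fun p => hψ _)
      have h3 : √(∑ c ∈ fr (2 * m), ‖FR f R c‖ ^ 2) ≤ √(∑ c ∈ fr M, ‖FR f R c‖ ^ 2) := by
        refine Real.sqrt_le_sqrt (Finset.sum_le_sum_of_subset_of_nonneg ?_ fun _ _ _ => by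
          positivity)
        intro c hc
        rw [mem_fr] at hc ⊢
        omega
      calc _ ≤ 1 * √(∑ c ∈ fr (2 * m), ‖FR f R c‖ ^ 2) :=
            mul_le_mul_of_nonneg_right h2 (Real.sqrt_nonneg _)
        _ ≤ _ := by rw [one_mul]; exact h3
    have hdiff : ‖∑ n ∈ ann R (2 * R), f n * ψ n - ∑ n ∈ ann R (2 * R), f n *
        apT m r Ψ (Real.log (ab n)) (Complex.arg (GaussianInt.toComplex n))‖ ≤
        36 * R ^ 2 * (κ + 194688 * (R / (M * d)) ^ 2) := by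
      rw [← Finset.sum_sub_distrib]
      refine (norm_sum_le _ _).trans ?_
      refine (Finset.sum_le_card_nsmul _ _ (κ + 194688 * (R / (M * d)) ^ 2) fun n hn => ?_).trans ?_
      · rw [← mul_sub, norm_mul]
        have h1 := hpt n hn
        rw [norm_sub_rev] at h1
        calc _ ≤ 1 * (κ + 194688 * (R / (M * d)) ^ 2) :=
              mul_le_mul (hf n (mem_ann.1 hn).1) h1 (norm_nonneg _) (by norm_num)
          _ = _ := one_mul _
      · rw [nsmul_eq_mul]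
        exact mul_le_mul_of_nonneg_right hcard (by positivity)
    have hfin := norm_add_le (∑ n ∈ ann R (2 * R), f n * ψ n - ∑ n ∈ ann R (2 * R), f n *
        apT m r Ψ (Real.log (ab n)) (Complex.arg (GaussianInt.toComplex n)))
      (∑ n ∈ ann R (2 * R), f n *
        apT m r Ψ (Real.log (ab n)) (Complex.arg (GaussianInt.toComplex n)))
    rw [sub_add_cancel] at hfin
    rw [hsum] at hfin hdiff
    have h1 : 36 * R ^ 2 * (κ + 194688 * (R / (M * d)) ^ 2) ≤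
        7008768 * R ^ 2 * (κ + (R / (M * d)) ^ 2) := by
      have h2 : 0 ≤ R ^ 2 * κ := by positivity
      nlinarith
    linarith

end Pool.Agent.MRG
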