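import Pool.Agent.MRG.Defs

/-!
# Module Cheb: Chebyshev's upper bound for Gaussian primes

`cheb`: every `p ∈ pr 1 r` divides a rational prime `q` (`N(p) = p · conj p` is `q` or `q²`).  If `N(p) = |p|² = q` then
`log |p| = (log q)/2`, `q ≤ r²`, and at most two first-quadrant primes divide `q` (`p` and the associate of `conj p`: a first-quadrant prime
dividing `q = p · conj p` divides `p` or `conj p`; use `exists_P1`, `P1_eq_of_dvd` of `GaussPret/Mult`).  If `N(p) = q²` then `p` is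
associated to `q`, `p = q`, `log |p| = log q`, `q ≤ r`.  So the sum is at most `θ(r²) + θ(r) ≤ C r²`
(Mathlib: `Chebyshev.theta`, `Chebyshev.theta_le_log4_mul_x`, or `primorial_le_4_pow`).

`cheb_shell`: `1/|p|² < 1/r²` on the shell, `cheb` with `e r`.  `cheb_div`: sum over the shells `e^j < |p| ≤ e^(j+1)`, `0 ≤ j ≤ u`.
`cheb_sum`: on the shell `log |p| ≥ log r ≥ u`, divide.  `cheb_card`: `#{p : r < |p| ≤ e r} log r ≤ cheb`.
-/

set_option autoImplicit false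

namespace Pool.Agent.MRG

open Pool.Agent.GaussPret

namespace ChebAux

theorem cast_norm (p : GaussianInt) :
    ((Zsqrtd.norm p).natAbs : GaussianInt) = p * star p := by
  have h0 : 0 ≤ Zsqrtd.norm p := GaussianInt.norm_nonneg p
  have h1 : (((Zsqrtd.norm p).natAbs : ℤ) : GaussianInt) = (Zsqrtd.norm p : GaussianInt) := by
    rw [Int.natAbs_of_nonneg h0]
  rw [← Zsqrtd.norm_eq_mul_conj, ← h1]
  exact (Int.cast_natCast _).symm

theorem natAbs_norm (p : GaussianInt) : (((Zsqrtd.norm p).natAbs : ℕ) : ℝ) = ab p ^ 2 := by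
  have h0 : 0 ≤ Zsqrtd.norm p := GaussianInt.norm_nonneg p
  rw [← nm_eq_ab, nm]
  have h1 : (((Zsqrtd.norm p).natAbs : ℤ) : ℝ) = (Zsqrtd.norm p : ℝ) := by
    rw [Int.natAbs_of_nonneg h0]
  rw [← h1]
  exact (Int.cast_natCast _).symm

/-- a Gaussian prime divides a rational prime not larger than its norm -/
theorem exists_nat_prime {p : GaussianInt} (hp : Prime p) :
    ∃ q : ℕ, q.Prime ∧ (q : ℝ) ≤ ab p ^ 2 ∧ p ∣ (q : GaussianInt) := by
  set N := (Zsqrtd.norm p).natAbs with hN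
  have hN0 : N ≠ 0 := by
    have := GaussianInt.norm_pos.2 hp.ne_zero
    omega
  have h1 : p ∣ (N : GaussianInt) := by
    rw [hN, cast_norm]
    exact dvd_mul_right _ _
  have h2 : (N : GaussianInt) = (N.primeFactorsList.map (fun q : ℕ => (q : GaussianInt))).prod := by
    rw [← Nat.cast_list_prod, Nat.prod_primeFactorsList hN0]
  rw [h2, hp.dvd_prod_iff] at h1
  obtain ⟨a, ha, hpa⟩ := h1
  obtain ⟨q, hq, rfl⟩ := List.mem_map.1 ha
  refine ⟨q, Nat.prime_of_mem_primeFactorsList hq, ?_, hpa⟩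
  rw [← natAbs_norm, ← hN]
  exact_mod_cast Nat.le_of_mem_primeFactorsList hq

theorem coprime_of_ne {p q : GaussianInt} (hp : Prime p ∧ 0 < p.re ∧ 0 ≤ p.im)
    (hq : Prime q ∧ 0 < q.re ∧ 0 ≤ q.im) (h : p ≠ q) : IsCoprime p q := by
  rw [hp.1.coprime_iff_not_dvd]
  intro hd
  apply h
  have := P1_eq_of_dvd (p := ⟨p, hp⟩) (q := ⟨q, hq⟩) hd
  exact congrArg Subtype.val this

theorem prod_dvd (r : ℝ) : ∏ p ∈ pr 1 r, p ∣ ((primorial ⌊r ^ 2⌋₊ : ℕ) : GaussianInt) := by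
  apply Finset.prod_dvd_of_coprime
  · intro p hp q hq hpq
    exact coprime_of_ne (mem_pr.1 hp).1 (mem_pr.1 hq).1 hpq
  · intro p hp
    rw [mem_pr] at hp
    obtain ⟨q, hq, hqr, hd⟩ := exists_nat_prime hp.1.1
    have h1 : q ≤ ⌊r ^ 2⌋₊ := by
      apply Nat.le_floor
      have h2 := ab_nonneg p
      have h3 : ab p ^ 2 ≤ r ^ 2 := pow_le_pow_left₀ h2 hp.2.2 2
      linarith
    have h4 : q ∣ primorial ⌊r ^ 2⌋₊ := hq.dvd_primorial_iff.2 h1
    exact hd.trans (Nat.cast_dvd_cast h4)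

theorem ab_natCast (n : ℕ) : ab (n : GaussianInt) = n := by
  rw [ab]
  simp

theorem ab_le_of_dvd {a b : GaussianInt} (hb : b ≠ 0) (h : a ∣ b) : ab a ≤ ab b := by
  obtain ⟨c, rfl⟩ := h
  rw [ab_mul]
  exact le_mul_of_one_le_right (ab_nonneg _) (one_le_ab (right_ne_zero_of_mul hb))

theorem ab_prod (s : Finset GaussianInt) : ab (∏ p ∈ s, p) = ∏ p ∈ s, ab p := by
  rw [ab, map_prod, norm_prod]
  rfl

theorem sum_log (r : ℝ) : ∑ p ∈ pr 1 r, Real.log (ab p) ≤ Real.log 4 * r ^ 2 := by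
  have h0 : ((primorial ⌊r ^ 2⌋₊ : ℕ) : GaussianInt) ≠ 0 := by
    exact_mod_cast (primorial_pos _).ne'
  have h1 := ab_le_of_dvd h0 (prod_dvd r)
  rw [ab_prod, ab_natCast] at h1
  have h2 : (primorial ⌊r ^ 2⌋₊ : ℝ) ≤ 4 ^ ⌊r ^ 2⌋₊ := by
    exact_mod_cast primorial_le_four_pow _
  have h3 : ∏ p ∈ pr 1 r, ab p ≤ (4 : ℝ) ^ ⌊r ^ 2⌋₊ := h1.trans h2
  have hpos : ∀ p ∈ pr 1 r, 0 < ab p := fun p hp => ab_pos (mem_pr.1 hp).1.1.ne_zero
  rw [← Real.log_prod (fun p hp => (hpos p hp).ne')]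
  have h4 : Real.log (∏ p ∈ pr 1 r, ab p) ≤ Real.log ((4 : ℝ) ^ ⌊r ^ 2⌋₊) :=
    Real.log_le_log (Finset.prod_pos hpos) h3
  rw [Real.log_pow] at h4
  have h5 : (⌊r ^ 2⌋₊ : ℝ) ≤ r ^ 2 := Nat.floor_le (sq_nonneg r)
  have h6 : 0 ≤ Real.log 4 := Real.log_nonneg (by norm_num)
  calc _ ≤ (⌊r ^ 2⌋₊ : ℝ) * Real.log 4 := h4
    _ ≤ r ^ 2 * Real.log 4 := mul_le_mul_of_nonneg_right h5 h6
    _ = _ := mul_comm _ _

theorem log4_pos : 0 < Real.log 4 := Real.log_pos (by norm_num)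

theorem log_nonneg_of_mem {r s : ℝ} {p : GaussianInt} (hp : p ∈ pr r s) : 0 ≤ Real.log (ab p) :=
  Real.log_nonneg (one_le_ab (mem_pr.1 hp).1.1.ne_zero)

theorem pr_subset {r s : ℝ} (hr : 1 ≤ r) : pr r s ⊆ pr 1 s := by
  intro p hp
  rw [mem_pr] at hp ⊢
  exact ⟨hp.1, hr.trans_lt hp.2.1, hp.2.2⟩

theorem sum_log' {r : ℝ} (hr : 1 ≤ r) (s : ℝ) :
    ∑ p ∈ pr r s, Real.log (ab p) ≤ Real.log 4 * s ^ 2 :=
  (Finset.sum_le_sum_of_subset_of_nonneg (pr_subset hr)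
    (fun _ hp _ => log_nonneg_of_mem hp)).trans (sum_log s)

theorem shell {r : ℝ} (hr : 1 ≤ r) : ∑ p ∈ pr r (Real.exp 1 * r), Real.log (ab p) / ab p ^ 2 ≤
    Real.log 4 * Real.exp 1 ^ 2 := by
  have hr0 : 0 < r := by linarith
  have h1 : ∑ p ∈ pr r (Real.exp 1 * r), Real.log (ab p) / ab p ^ 2 ≤
      ∑ p ∈ pr r (Real.exp 1 * r), Real.log (ab p) / r ^ 2 := by
    apply Finset.sum_le_sum
    intro p hp
    have h2 := (mem_pr.1 hp).2.1
    apply div_le_div_of_nonneg_left (log_nonneg_of_mem hp) (by positivity)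
    exact pow_le_pow_left₀ hr0.le h2.le 2
  rw [← Finset.sum_div] at h1
  refine h1.trans ?_
  rw [div_le_iff₀ (by positivity)]
  refine (sum_log' hr _).trans (le_of_eq ?_)
  ring

theorem div_nat (n : ℕ) : ∑ p ∈ pr 1 (Real.exp n), Real.log (ab p) / ab p ^ 2 ≤
    Real.log 4 * Real.exp 1 ^ 2 * n := by
  induction n with
  | zero =>
    have : pr 1 (Real.exp ((0 : ℕ) : ℝ)) = ∅ := by
      apply Finset.eq_empty_of_forall_notMem
      intro p hp
      rw [mem_pr] at hp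
      simp only [Nat.cast_zero, Real.exp_zero] at hp
      linarith [hp.2.1, hp.2.2]
    rw [this]
    simp
  | succ n ih =>
    rw [← Finset.sum_filter_add_sum_filter_not _ (fun p => ab p ≤ Real.exp n)]
    have h1 : (pr 1 (Real.exp ((n + 1 : ℕ) : ℝ))).filter (fun p => ab p ≤ Real.exp n) ⊆
        pr 1 (Real.exp n) := by
      intro p hp
      rw [Finset.mem_filter, mem_pr] at hp
      rw [mem_pr]
      exact ⟨hp.1.1, hp.1.2.1, hp.2⟩
    have h2 : (pr 1 (Real.exp ((n + 1 : ℕ) : ℝ))).filter (fun p => ¬ ab p ≤ Real.exp n) ⊆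
        pr (Real.exp n) (Real.exp 1 * Real.exp n) := by
      intro p hp
      rw [Finset.mem_filter, mem_pr] at hp
      rw [mem_pr, ← Real.exp_add]
      refine ⟨hp.1.1, not_le.1 hp.2, ?_⟩
      have := hp.1.2.2
      rw [add_comm]
      exact_mod_cast this
    have hn : ∀ {r s : ℝ}, ∀ p ∈ pr r s, 0 ≤ Real.log (ab p) / ab p ^ 2 := fun _ hp =>
      div_nonneg (log_nonneg_of_mem hp) (sq_nonneg _)
    have h3 := Finset.sum_le_sum_of_subset_of_nonneg (f := fun p => Real.log (ab p) / ab p ^ 2) h1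
      (fun p hp _ => hn p hp)
    have h4 := Finset.sum_le_sum_of_subset_of_nonneg (f := fun p => Real.log (ab p) / ab p ^ 2) h2
      (fun p hp _ => hn p hp)
    have h5 := shell (r := Real.exp n) (Real.one_le_exp (Nat.cast_nonneg n))
    push_cast at h3 h4 ⊢
    linarith

end ChebAux

open ChebAux

/-- `∑_{|p| ≤ r} log |p| ≤ C r²` -/
theorem cheb : ∃ C : ℝ, 0 < C ∧ ∀ r : ℝ, 1 ≤ r →
    ∑ p ∈ pr 1 r, Real.log (ab p) ≤ C * r ^ 2 :=
  ⟨Real.log 4, log4_pos, fun r _ => sum_log r⟩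

/-- `∑_{r < |p| ≤ e r} log |p| / |p|² ≤ C` -/
theorem cheb_shell : ∃ C : ℝ, 0 < C ∧ ∀ r : ℝ, 1 ≤ r →
    ∑ p ∈ pr r (Real.exp 1 * r), Real.log (ab p) / ab p ^ 2 ≤ C :=
  ⟨Real.log 4 * Real.exp 1 ^ 2, mul_pos log4_pos (by positivity), fun _ hr => shell hr⟩

/-- `∑_{|p| ≤ e^u} log |p| / |p|² ≤ C (u + 1)` -/
theorem cheb_div : ∃ C : ℝ, 0 < C ∧ ∀ u : ℝ, 0 ≤ u →
    ∑ p ∈ pr 1 (Real.exp u), Real.log (ab p) / ab p ^ 2 ≤ C * (u + 1) := by
  have hC : 0 < Real.log 4 * Real.exp 1 ^ 2 := mul_pos log4_pos (by positivity)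
  refine ⟨Real.log 4 * Real.exp 1 ^ 2, hC, fun u hu => ?_⟩
  have h1 : pr 1 (Real.exp u) ⊆ pr 1 (Real.exp ⌈u⌉₊) := by
    intro p hp
    rw [mem_pr] at hp ⊢
    exact ⟨hp.1, hp.2.1, hp.2.2.trans (Real.exp_le_exp.2 (Nat.le_ceil u))⟩
  have h2 := Finset.sum_le_sum_of_subset_of_nonneg (f := fun p => Real.log (ab p) / ab p ^ 2) h1
    (fun p hp _ => div_nonneg (log_nonneg_of_mem hp) (sq_nonneg _))
  have h3 : (⌈u⌉₊ : ℝ) ≤ u + 1 := (Nat.ceil_lt_add_one hu).le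
  exact (h2.trans (div_nat _)).trans (mul_le_mul_of_nonneg_left h3 hC.le)

/-- `∑_{e^u < |p| ≤ e^(u+1)} 1 / |p|² ≤ C / u` -/
theorem cheb_sum : ∃ C : ℝ, 0 < C ∧ ∀ u : ℝ, 1 ≤ u →
    ∑ p ∈ pr (Real.exp u) (Real.exp (u + 1)), 1 / ab p ^ 2 ≤ C / u := by
  have hC : 0 < Real.log 4 * Real.exp 1 ^ 2 := mul_pos log4_pos (by positivity)
  refine ⟨Real.log 4 * Real.exp 1 ^ 2, hC, fun u hu => ?_⟩
  have hu0 : 0 < u := by linarith
  have h1 := shell (r := Real.exp u) (Real.one_le_exp hu0.le)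
  rw [← Real.exp_add, add_comm 1 u] at h1
  rw [le_div_iff₀ hu0, Finset.sum_mul]
  refine le_trans (Finset.sum_le_sum ?_) h1
  intro p hp
  rw [mem_pr] at hp
  have h2 : u ≤ Real.log (ab p) := by
    rw [← Real.log_exp u]
    exact Real.log_le_log (Real.exp_pos u) hp.2.1.le
  rw [one_div_mul_eq_div]
  exact div_le_div_of_nonneg_right h2 (sq_nonneg _)

/-- the number of primes of a shell -/
theorem cheb_card : ∃ C : ℝ, 0 < C ∧ ∀ u : ℝ, 1 ≤ u →
    ((pr (Real.exp u) (Real.exp (u + 1))).card : ℝ) ≤ C * Real.exp (2 * u) / u := by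
  have hC : 0 < Real.log 4 * Real.exp 2 := mul_pos log4_pos (Real.exp_pos _)
  refine ⟨Real.log 4 * Real.exp 2, hC, fun u hu => ?_⟩
  have hu0 : 0 < u := by linarith
  have h1 := sum_log' (Real.one_le_exp hu0.le) (Real.exp (u + 1))
  rw [le_div_iff₀ hu0]
  have h2 : ((pr (Real.exp u) (Real.exp (u + 1))).card : ℝ) * u ≤
      ∑ p ∈ pr (Real.exp u) (Real.exp (u + 1)), Real.log (ab p) := by
    rw [← nsmul_eq_mul, ← Finset.sum_const]
    apply Finset.sum_le_sum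
    intro p hp
    rw [mem_pr] at hp
    rw [← Real.log_exp u]
    exact Real.log_le_log (Real.exp_pos u) hp.2.1.le
  refine h2.trans (h1.trans (le_of_eq ?_))
  rw [← Real.exp_nat_mul, mul_assoc, ← Real.exp_add]
  congr 2
  push_cast
  ring

end Pool.Agent.MRG
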