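import Pool.Agent.MRG.Moment

set_option autoImplicit false

/-!
# Module Count: few frequencies with a large prime polynomial

`power_mvt` with exponent `l`, `l v/h ≥ log M`: `#{c ∈ fr M : |Q_v(c)| ≥ τ e^(2v/h)} (τ e^(2v/h))^(2l) ≤ (Cl)^l e^(4vl/h)`.
-/

namespace Pool.Agent.MRG

open Pool.Agent.GaussPret

open scoped Classical in
theorem count_large : ∃ C : ℝ, 1 ≤ C ∧ ∀ (f : GaussianInt → ℂ), CM f → ∀ (h v l M : ℕ) (τ : ℝ),
    1 ≤ h → h ≤ v → 1 ≤ l → 1 ≤ M → (M : ℝ) ≤ Real.exp (l * v / h) → 0 < τ →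
    (((fr M).filter fun c => τ * Real.exp (2 * v / h) ≤ ‖Qv f h v c‖).card : ℝ) ≤
      (C * l) ^ l / τ ^ (2 * l) := by
  obtain ⟨C, hC, hp⟩ := power_mvt
  refine ⟨C, hC, ?_⟩
  intro f hf h v l M τ hh hv hl hM hMe hτ
  have h1 := hp f hf h v l M hh hv hl hM hMe
  have hexp : Real.exp (2 * v / h) ^ (2 * l) = Real.exp (4 * (v * l) / h) := by
    rw [← Real.exp_nat_mul]
    congr 1
    push_cast
    ring
  have h2 : (((fr M).filter fun c => τ * Real.exp (2 * v / h) ≤ ‖Qv f h v c‖).card : ℝ) *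
      (τ ^ (2 * l) * Real.exp (4 * (v * l) / h)) ≤ (C * l) ^ l * Real.exp (4 * (v * l) / h) := by
    calc (((fr M).filter fun c => τ * Real.exp (2 * v / h) ≤ ‖Qv f h v c‖).card : ℝ) *
        (τ ^ (2 * l) * Real.exp (4 * (v * l) / h))
        = ∑ c ∈ (fr M).filter (fun c => τ * Real.exp (2 * v / h) ≤ ‖Qv f h v c‖),
            (τ ^ (2 * l) * Real.exp (4 * (v * l) / h)) := by
          rw [Finset.sum_const, nsmul_eq_mul]
      _ ≤ ∑ c ∈ (fr M).filter (fun c => τ * Real.exp (2 * v / h) ≤ ‖Qv f h v c‖),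
            ‖Qv f h v c‖ ^ (2 * l) := by
          refine Finset.sum_le_sum fun c hc => ?_
          rw [← hexp, ← mul_pow]
          exact pow_le_pow_left₀ (by positivity) (Finset.mem_filter.1 hc).2 _
      _ ≤ ∑ c ∈ fr M, ‖Qv f h v c‖ ^ (2 * l) :=
          Finset.sum_le_sum_of_subset_of_nonneg (Finset.filter_subset _ _)
            fun _ _ _ => by positivity
      _ ≤ _ := h1
  rw [le_div_iff₀ (by positivity)]
  have h3 := Real.exp_pos (4 * ((v : ℝ) * l) / h)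
  rw [← mul_assoc] at h2
  exact le_of_mul_le_mul_right h2 h3

end Pool.Agent.MRG
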