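import Pool.Agent.MRG.Defs
import Pool.Agent.MRZ.MVT

/-!
# Module MvtA: auxiliary lemmas for the mean value theorem on the torus

Instead of Poisson kernels we use the square of the Fejér kernel `fej (4M)` of `MRZ/Fejer`.
-/

set_option autoImplicit false

namespace Pool.Agent.MRG

open Pool.Agent.GaussPret

theorem mvtA_coeff (M : ℕ) (hM : 1 ≤ M) : ∃ (J : Finset ℤ) (γ : ℤ → ℝ), (∀ m, 0 ≤ γ m) ∧
    (∀ m ∈ Finset.Ioo (-(M : ℤ)) M, m ∈ J ∧ (M : ℝ) / 4 ≤ γ m) ∧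
    ∀ x : ℝ, ((Pool.MRZ.fej (2 * (2 * M)) x ^ 2 : ℝ) : ℂ) =
      ∑ m ∈ J, (γ m : ℂ) * Complex.exp (((m * x : ℝ) : ℂ) * Complex.I) := by
  classical
  obtain ⟨T, hT⟩ : ∃ T : ℕ, T = 2 * (2 * M) := ⟨_, rfl⟩
  rw [← hT]
  have hTr : (T : ℝ) = 4 * M := by
    rw [hT]
    push_cast
    ring
  have hM0 : (0 : ℝ) < M := by exact_mod_cast hM
  have hT0 : (0 : ℝ) < T := by
    rw [hTr]
    positivity
  obtain ⟨w, hw⟩ : ∃ w : ℤ → ℝ, w = fun s : ℤ => 1 - |(s : ℝ)| / T := ⟨_, rfl⟩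
  obtain ⟨I, hI⟩ : ∃ I, I = Finset.Ioo (-(T : ℤ)) T := ⟨_, rfl⟩
  have hw0 : ∀ s ∈ I, 0 ≤ w s := by
    intro s hs
    rw [hI, Finset.mem_Ioo] at hs
    rw [hw]
    simp only
    rw [sub_nonneg, div_le_one hT0]
    have h1 : |s| ≤ T := abs_le.2 ⟨hs.1.le, hs.2.le⟩
    exact_mod_cast h1
  have hw2 : ∀ s : ℤ, |s| ≤ 2 * M → 1 / 2 ≤ w s := by
    intro s hs
    rw [hw]
    simp only
    have h1 : |(s : ℝ)| ≤ 2 * M := by exact_mod_cast hs
    have h2 : |(s : ℝ)| / T ≤ 1 / 2 := by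
      rw [div_le_iff₀ hT0, hTr]
      linarith
    linarith
  have hww : ∀ p ∈ I ×ˢ I, 0 ≤ w p.1 * w p.2 := by
    intro p hp
    obtain ⟨h1, h2⟩ := Finset.mem_product.1 hp
    exact mul_nonneg (hw0 _ h1) (hw0 _ h2)
  refine ⟨(I ×ˢ I).image (fun p => p.1 + p.2),
    fun m => ∑ p ∈ (I ×ˢ I).filter (fun p => p.1 + p.2 = m), w p.1 * w p.2, ?_, ?_, ?_⟩
  · intro m
    exact Finset.sum_nonneg (fun p hp => hww p (Finset.mem_filter.1 hp).1)
  · intro m hm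
    rw [Finset.mem_Ioo] at hm
    have hmem : ∀ s ∈ Finset.range M, ((s : ℤ), m - (s : ℤ)) ∈ I ×ˢ I := by
      intro s hs
      rw [Finset.mem_range] at hs
      rw [Finset.mem_product, hI, Finset.mem_Ioo, Finset.mem_Ioo]
      simp only
      omega
    constructor
    · rw [Finset.mem_image]
      exact ⟨_, hmem 0 (Finset.mem_range.2 (by omega)), by simp⟩
    · have h1 : ∑ s ∈ Finset.range M, w (s : ℤ) * w (m - (s : ℤ)) ≤
          ∑ p ∈ (I ×ˢ I).filter (fun p => p.1 + p.2 = m), w p.1 * w p.2 := by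
        have h2 : ∑ s ∈ Finset.range M, w (s : ℤ) * w (m - (s : ℤ)) =
            ∑ p ∈ (Finset.range M).image (fun s : ℕ => ((s : ℤ), m - (s : ℤ))),
              w p.1 * w p.2 := by
          rw [Finset.sum_image]
          intro a _ b _ h
          have h3 := (Prod.mk.inj h).1
          exact_mod_cast h3
        rw [h2]
        apply Finset.sum_le_sum_of_subset_of_nonneg
        · intro p hp
          obtain ⟨s, hs, rfl⟩ := Finset.mem_image.1 hp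
          exact Finset.mem_filter.2 ⟨hmem s hs, by simp⟩
        · intro p hp _
          exact hww p (Finset.mem_filter.1 hp).1
      have h3 : ∑ s ∈ Finset.range M, (1 / 4 : ℝ) ≤
          ∑ s ∈ Finset.range M, w (s : ℤ) * w (m - (s : ℤ)) := by
        apply Finset.sum_le_sum
        intro s hs
        rw [Finset.mem_range] at hs
        have h4 : 1 / 2 ≤ w (s : ℤ) := hw2 _ (abs_le.2 ⟨by omega, by omega⟩)
        have h5 : 1 / 2 ≤ w (m - (s : ℤ)) := hw2 _ (abs_le.2 ⟨by omega, by omega⟩)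
        nlinarith
      rw [Finset.sum_const, Finset.card_range, nsmul_eq_mul] at h3
      simp only
      linarith
  · intro x
    have h1 : ((Pool.MRZ.fej T x : ℝ) : ℂ) = ∑ t ∈ I, (w t : ℂ) *
        Complex.exp (((t * x : ℝ) : ℂ) * Complex.I) := by
      rw [Pool.MRZ.fej_eq_sum_exp, hI, hw]
    have h2 : ((Pool.MRZ.fej T x ^ 2 : ℝ) : ℂ) = ∑ p ∈ I ×ˢ I, ((w p.1 * w p.2 : ℝ) : ℂ) *
        Complex.exp ((((p.1 + p.2 : ℤ) * x : ℝ) : ℂ) * Complex.I) := by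
      rw [Complex.ofReal_pow, h1, pow_two, Finset.sum_mul_sum, ← Finset.sum_product']
      apply Finset.sum_congr rfl
      intro p _
      have h3 : Complex.exp ((((p.1 + p.2 : ℤ) * x : ℝ) : ℂ) * Complex.I) =
          Complex.exp (((p.1 * x : ℝ) : ℂ) * Complex.I) *
            Complex.exp (((p.2 * x : ℝ) : ℂ) * Complex.I) := by
        rw [← Complex.exp_add]
        congr 1
        push_cast
        ring
      rw [h3]
      push_cast
      ring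
    rw [h2, ← Finset.sum_fiberwise_of_maps_to (g := fun p : ℤ × ℤ => p.1 + p.2)
      (t := (I ×ˢ I).image (fun p => p.1 + p.2)) (fun p hp => Finset.mem_image_of_mem _ hp)]
    apply Finset.sum_congr rfl
    intro m _
    rw [Complex.ofReal_sum, Finset.sum_mul]
    apply Finset.sum_congr rfl
    intro p hp
    rw [(Finset.mem_filter.1 hp).2]

/-- the kernel -/
noncomputable def mvtK (M : ℕ) (g g' : GaussianInt) : ℝ :=
  Pool.MRZ.fej (2 * (2 * M)) (Real.log (ab g) - Real.log (ab g')) ^ 2 *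
    Pool.MRZ.fej (2 * (2 * M)) (Complex.arg (GaussianInt.toComplex g) -
      Complex.arg (GaussianInt.toComplex g')) ^ 2

theorem mvtK_nonneg (M : ℕ) (g g' : GaussianInt) : 0 ≤ mvtK M g g' := by
  unfold mvtK
  positivity

theorem mvtK_symm (M : ℕ) (g g' : GaussianInt) : mvtK M g g' = mvtK M g' g := by
  unfold mvtK
  rw [← Pool.MRZ.fej_neg _ (Real.log (ab g) - Real.log (ab g')),
    ← Pool.MRZ.fej_neg _ (Complex.arg (GaussianInt.toComplex g) -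
      Complex.arg (GaussianInt.toComplex g')), neg_sub, neg_sub]

theorem mvtA_schur (M : ℕ) (hM : 1 ≤ M) (S : Finset GaussianInt) (b : GaussianInt → ℂ) :
    (M : ℝ) ^ 2 / 16 * ∑ c ∈ fr M, ‖∑ g ∈ S, b g * ch c.1 c.2 g‖ ^ 2 ≤
      ∑ g ∈ S, ‖b g‖ ^ 2 * ∑ g' ∈ S, mvtK M g g' := by
  obtain ⟨J, γ, hγ0, hγ, hexp⟩ := mvtA_coeff M hM
  obtain ⟨B, hB⟩ : ∃ B : ℤ × ℤ → ℂ, B = fun c => ∑ g ∈ S, b g * ch c.1 c.2 g := ⟨_, rfl⟩
  have hch : ∀ (c : ℤ × ℤ) (g g' : GaussianInt), ch c.1 c.2 g * (starRingEnd ℂ) (ch c.1 c.2 g') =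
      Complex.exp (((c.1 * (Real.log (ab g) - Real.log (ab g')) : ℝ) : ℂ) * Complex.I) *
      Complex.exp (((c.2 * (Complex.arg (GaussianInt.toComplex g) -
        Complex.arg (GaussianInt.toComplex g')) : ℝ) : ℂ) * Complex.I) := by
    intro c g g'
    rw [ch, ch, ← Complex.exp_conj, map_mul, Complex.conj_ofReal, Complex.conj_I,
      ← Complex.exp_add, ← Complex.exp_add]
    congr 1
    push_cast
    ring
  have hA : ∑ c ∈ J ×ˢ J, ((γ c.1 * γ c.2 : ℝ) : ℂ) * (B c * (starRingEnd ℂ) (B c)) =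
      ∑ g ∈ S, ∑ g' ∈ S, b g * (starRingEnd ℂ) (b g') * (mvtK M g g' : ℂ) := by
    have h1 : ∀ c : ℤ × ℤ, B c * (starRingEnd ℂ) (B c) = ∑ g ∈ S, ∑ g' ∈ S,
        b g * (starRingEnd ℂ) (b g') * (ch c.1 c.2 g * (starRingEnd ℂ) (ch c.1 c.2 g')) := by
      intro c
      rw [hB]
      simp only
      rw [map_sum, Finset.sum_mul_sum]
      apply Finset.sum_congr rfl
      intro g _
      apply Finset.sum_congr rfl
      intro g' _
      rw [map_mul]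
      ring
    have h2 : ∀ g g' : GaussianInt, (mvtK M g g' : ℂ) = ∑ c ∈ J ×ˢ J,
        ((γ c.1 * γ c.2 : ℝ) : ℂ) * (ch c.1 c.2 g * (starRingEnd ℂ) (ch c.1 c.2 g')) := by
      intro g g'
      unfold mvtK
      rw [Complex.ofReal_mul, hexp, hexp, Finset.sum_mul_sum, ← Finset.sum_product']
      apply Finset.sum_congr rfl
      intro c _
      rw [hch]
      push_cast
      ring
    simp only [h1, h2, Finset.mul_sum]
    rw [Finset.sum_comm]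
    apply Finset.sum_congr rfl
    intro g _
    rw [Finset.sum_comm]
    apply Finset.sum_congr rfl
    intro g' _
    apply Finset.sum_congr rfl
    intro c _
    ring
  have hX : ((∑ c ∈ J ×ˢ J, γ c.1 * γ c.2 * ‖B c‖ ^ 2 : ℝ) : ℂ) =
      ∑ g ∈ S, ∑ g' ∈ S, b g * (starRingEnd ℂ) (b g') * (mvtK M g g' : ℂ) := by
    rw [← hA, Complex.ofReal_sum]
    apply Finset.sum_congr rfl
    intro c _
    rw [Complex.mul_conj']
    push_cast
    ring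
  have hX0 : 0 ≤ ∑ c ∈ J ×ˢ J, γ c.1 * γ c.2 * ‖B c‖ ^ 2 :=
    Finset.sum_nonneg (fun c _ => mul_nonneg (mul_nonneg (hγ0 _) (hγ0 _)) (sq_nonneg _))
  have hX1 : ∑ c ∈ J ×ˢ J, γ c.1 * γ c.2 * ‖B c‖ ^ 2 ≤
      ∑ g ∈ S, ∑ g' ∈ S, (‖b g‖ ^ 2 * mvtK M g g' + ‖b g'‖ ^ 2 * mvtK M g g') / 2 := by
    have h1 : ‖((∑ c ∈ J ×ˢ J, γ c.1 * γ c.2 * ‖B c‖ ^ 2 : ℝ) : ℂ)‖ =
        ∑ c ∈ J ×ˢ J, γ c.1 * γ c.2 * ‖B c‖ ^ 2 := by
      rw [Complex.norm_real, Real.norm_of_nonneg hX0]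
    rw [← h1, hX]
    refine le_trans (norm_sum_le _ _) (Finset.sum_le_sum fun g _ => ?_)
    refine le_trans (norm_sum_le _ _) (Finset.sum_le_sum fun g' _ => ?_)
    rw [norm_mul, norm_mul, RCLike.norm_conj, Complex.norm_real,
      Real.norm_of_nonneg (mvtK_nonneg M g g')]
    have h2 := mvtK_nonneg M g g'
    have h3 : 0 ≤ (‖b g‖ - ‖b g'‖) ^ 2 * mvtK M g g' := mul_nonneg (sq_nonneg _) h2
    nlinarith
  have hX2 : ∑ g ∈ S, ∑ g' ∈ S, (‖b g‖ ^ 2 * mvtK M g g' + ‖b g'‖ ^ 2 * mvtK M g g') / 2 =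
      ∑ g ∈ S, ‖b g‖ ^ 2 * ∑ g' ∈ S, mvtK M g g' := by
    have h1 : ∑ g ∈ S, ∑ g' ∈ S, ‖b g'‖ ^ 2 * mvtK M g g' =
        ∑ g ∈ S, ∑ g' ∈ S, ‖b g‖ ^ 2 * mvtK M g g' := by
      rw [Finset.sum_comm]
      apply Finset.sum_congr rfl
      intro g _
      apply Finset.sum_congr rfl
      intro g' _
      rw [mvtK_symm]
    have h2 : ∑ g ∈ S, ∑ g' ∈ S, (‖b g‖ ^ 2 * mvtK M g g' + ‖b g'‖ ^ 2 * mvtK M g g') / 2 =
        ((∑ g ∈ S, ∑ g' ∈ S, ‖b g‖ ^ 2 * mvtK M g g') +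
          ∑ g ∈ S, ∑ g' ∈ S, ‖b g'‖ ^ 2 * mvtK M g g') / 2 := by
      simp only [← Finset.sum_div, Finset.sum_add_distrib]
    rw [h2, h1]
    simp only [Finset.mul_sum]
    ring
  have hC : (M : ℝ) ^ 2 / 16 * ∑ c ∈ fr M, ‖B c‖ ^ 2 ≤
      ∑ c ∈ J ×ˢ J, γ c.1 * γ c.2 * ‖B c‖ ^ 2 := by
    have hsub : fr M ⊆ J ×ˢ J := by
      intro c hc
      obtain ⟨h1, h2⟩ := mem_fr.1 hc
      exact Finset.mem_product.2 ⟨(hγ _ (Finset.mem_Ioo.2 h1)).1, (hγ _ (Finset.mem_Ioo.2 h2)).1⟩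
    rw [Finset.mul_sum]
    refine le_trans (Finset.sum_le_sum fun c hc => ?_)
      (Finset.sum_le_sum_of_subset_of_nonneg hsub (fun c _ _ =>
        mul_nonneg (mul_nonneg (hγ0 _) (hγ0 _)) (sq_nonneg _)))
    apply mul_le_mul_of_nonneg_right _ (sq_nonneg _)
    obtain ⟨h1, h2⟩ := mem_fr.1 hc
    have h3 := (hγ _ (Finset.mem_Ioo.2 h1)).2
    have h4 := (hγ _ (Finset.mem_Ioo.2 h2)).2
    have h5 : (0 : ℝ) ≤ (M : ℝ) / 4 := by positivity
    have h6 : (M : ℝ) / 4 * ((M : ℝ) / 4) ≤ γ c.1 * γ c.2 :=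
      mul_le_mul h3 h4 h5 (le_trans h5 h3)
    refine le_trans (le_of_eq ?_) h6
    ring
  rw [hB] at hC
  rw [← hX2]
  rw [hB] at hX1
  exact le_trans hC hX1

/-! ### Lattice sums -/

theorem mvtA_sum_inj {α : Type*} {c : ℝ} (hc : 0 < c) (s : Finset α) (j : α → ℕ)
    (hj : Set.InjOn j s) : ∑ m ∈ s, 1 / (1 + c * (j m : ℝ)) ^ 2 ≤ 1 + 1 / c := by
  classical
  have h1 : ∑ m ∈ s, 1 / (1 + c * (j m : ℝ)) ^ 2 =
      ∑ i ∈ s.image j, 1 / (1 + c * (i : ℝ)) ^ 2 := by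
    rw [Finset.sum_image]
    intro x hx y hy h
    exact hj hx hy h
  rw [h1]
  refine le_trans ?_ (Pool.MRZ.mvt_sum_g' hc ((s.image j).sup id + 1))
  apply Finset.sum_le_sum_of_subset_of_nonneg
  · intro i hi
    rw [Finset.mem_range]
    exact Nat.lt_succ_of_le (Finset.le_sup (f := id) hi)
  · intro i _ _
    positivity

theorem mvtA_sum_int {c : ℝ} (hc : 0 < c) (s : Finset ℤ) (y : ℝ) :
    ∑ m ∈ s, 1 / (1 + c * |(m : ℝ) - y|) ^ 2 ≤ 2 * (1 + 1 / c) := by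
  have key : ∀ m : ℤ, 1 / (1 + c * |(m : ℝ) - y|) ^ 2 ≤
      1 / (1 + c * (⌊|(m : ℝ) - y|⌋₊ : ℝ)) ^ 2 := by
    intro m
    apply one_div_le_one_div_of_le (by positivity)
    have h := Nat.floor_le (abs_nonneg ((m : ℝ) - y))
    have h0 : (0 : ℝ) ≤ (⌊|(m : ℝ) - y|⌋₊ : ℝ) := Nat.cast_nonneg _
    gcongr
  have hlt : ∀ m m' : ℤ, ⌊|(m : ℝ) - y|⌋₊ = ⌊|(m' : ℝ) - y|⌋₊ →
      |(m : ℝ) - y| < |(m' : ℝ) - y| + 1 := by
    intro m m' h
    have h1 := Nat.lt_floor_add_one |(m : ℝ) - y|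
    have h2 := Nat.floor_le (abs_nonneg ((m' : ℝ) - y))
    rw [h] at h1
    linarith
  have hp : ∑ m ∈ s.filter (fun m : ℤ => y ≤ (m : ℝ)), 1 / (1 + c * |(m : ℝ) - y|) ^ 2 ≤
      1 + 1 / c := by
    refine (Finset.sum_le_sum fun m _ => key m).trans (mvtA_sum_inj hc _ _ ?_)
    intro m hm m' hm' h
    simp only [Finset.coe_filter, Set.mem_ofPred_eq] at hm hm'
    have h1 := hlt m m' h
    have h2 := hlt m' m h.symm
    rw [abs_of_nonneg (sub_nonneg.2 hm.2), abs_of_nonneg (sub_nonneg.2 hm'.2)] at h1 h2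
    have h3 : (m : ℝ) < m' + 1 := by linarith
    have h4 : (m' : ℝ) < m + 1 := by linarith
    have h5 : m < m' + 1 := by exact_mod_cast h3
    have h6 : m' < m + 1 := by exact_mod_cast h4
    omega
  have hn : ∑ m ∈ s.filter (fun m : ℤ => ¬ y ≤ (m : ℝ)), 1 / (1 + c * |(m : ℝ) - y|) ^ 2 ≤
      1 + 1 / c := by
    refine (Finset.sum_le_sum fun m _ => key m).trans (mvtA_sum_inj hc _ _ ?_)
    intro m hm m' hm' h
    simp only [Finset.coe_filter, Set.mem_ofPred_eq, not_le] at hm hm'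
    have h1 := hlt m m' h
    have h2 := hlt m' m h.symm
    rw [abs_of_neg (sub_neg.2 hm.2), abs_of_neg (sub_neg.2 hm'.2)] at h1 h2
    have h3 : (m : ℝ) < m' + 1 := by linarith
    have h4 : (m' : ℝ) < m + 1 := by linarith
    have h5 : m < m' + 1 := by exact_mod_cast h3
    have h6 : m' < m + 1 := by exact_mod_cast h4
    omega
  rw [← Finset.sum_filter_add_sum_filter_not s (fun m : ℤ => y ≤ (m : ℝ))]
  linarith

theorem mvtA_sum_gauss {c : ℝ} (hc : 0 < c) (s : Finset GaussianInt) (y : ℂ) :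
    ∑ g ∈ s, 1 / (1 + c * ‖GaussianInt.toComplex g - y‖) ^ 4 ≤ (2 * (1 + 1 / c)) ^ 2 := by
  classical
  have h1 : ∀ g ∈ s, 1 / (1 + c * ‖GaussianInt.toComplex g - y‖) ^ 4 ≤
      1 / (1 + c * |(g.re : ℝ) - y.re|) ^ 2 * (1 / (1 + c * |(g.im : ℝ) - y.im|) ^ 2) := by
    intro g _
    have h2 : |(g.re : ℝ) - y.re| ≤ ‖GaussianInt.toComplex g - y‖ := by
      have h := Complex.abs_re_le_norm (GaussianInt.toComplex g - y)
      rwa [Complex.sub_re, ← GaussianInt.intCast_re] at h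
    have h3 : |(g.im : ℝ) - y.im| ≤ ‖GaussianInt.toComplex g - y‖ := by
      have h := Complex.abs_im_le_norm (GaussianInt.toComplex g - y)
      rwa [Complex.sub_im, ← GaussianInt.intCast_im] at h
    rw [div_mul_div_comm, one_mul]
    apply one_div_le_one_div_of_le (by positivity)
    have h4 : (1 + c * ‖GaussianInt.toComplex g - y‖) ^ 4 =
        (1 + c * ‖GaussianInt.toComplex g - y‖) ^ 2 *
          (1 + c * ‖GaussianInt.toComplex g - y‖) ^ 2 := by ring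
    rw [h4]
    gcongr
  refine (Finset.sum_le_sum h1).trans ?_
  have h2 : ∑ g ∈ s, 1 / (1 + c * |(g.re : ℝ) - y.re|) ^ 2 *
      (1 / (1 + c * |(g.im : ℝ) - y.im|) ^ 2) =
      ∑ p ∈ s.image (fun g : GaussianInt => ((g.re, g.im) : ℤ × ℤ)), 1 / (1 + c * |(p.1 : ℝ) - y.re|) ^ 2 *
        (1 / (1 + c * |(p.2 : ℝ) - y.im|) ^ 2) := by
    rw [Finset.sum_image]
    intro a _ b _ h
    obtain ⟨h3, h4⟩ := Prod.mk.inj h
    exact Zsqrtd.ext h3 h4
  rw [h2]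
  have h3 : ∑ p ∈ s.image (fun g : GaussianInt => ((g.re, g.im) : ℤ × ℤ)), 1 / (1 + c * |(p.1 : ℝ) - y.re|) ^ 2 *
        (1 / (1 + c * |(p.2 : ℝ) - y.im|) ^ 2) ≤
      ∑ p ∈ (s.image (fun g : GaussianInt => (g.re : ℤ))) ×ˢ (s.image (fun g : GaussianInt => (g.im : ℤ))),
        1 / (1 + c * |(p.1 : ℝ) - y.re|) ^ 2 * (1 / (1 + c * |(p.2 : ℝ) - y.im|) ^ 2) := by
    apply Finset.sum_le_sum_of_subset_of_nonneg
    · intro p hp
      obtain ⟨g, hg, rfl⟩ := Finset.mem_image.1 hp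
      exact Finset.mem_product.2 ⟨Finset.mem_image_of_mem _ hg, Finset.mem_image_of_mem _ hg⟩
    · intro p _ _
      positivity
  refine h3.trans ?_
  have h4 : ∑ p ∈ (s.image (fun g : GaussianInt => (g.re : ℤ))) ×ˢ (s.image (fun g : GaussianInt => (g.im : ℤ))),
        1 / (1 + c * |(p.1 : ℝ) - y.re|) ^ 2 * (1 / (1 + c * |(p.2 : ℝ) - y.im|) ^ 2) =
      (∑ a ∈ s.image (fun g : GaussianInt => (g.re : ℤ)), 1 / (1 + c * |(a : ℝ) - y.re|) ^ 2) *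
        ∑ b ∈ s.image (fun g : GaussianInt => (g.im : ℤ)), 1 / (1 + c * |(b : ℝ) - y.im|) ^ 2 := by
    rw [Finset.sum_mul_sum, ← Finset.sum_product']
  rw [h4, pow_two]
  apply mul_le_mul (mvtA_sum_int hc _ _) (mvtA_sum_int hc _ _)
  · exact Finset.sum_nonneg (fun _ _ => by positivity)
  · positivity

/-! ### The kernel near a Gaussian integer -/

/-- the number of turns -/
noncomputable def mvtk (g₀ g : GaussianInt) : ℤ :=
  round ((Real.log (ab g) - Real.log (ab g₀)) / (2 * Real.pi))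

theorem mvtA_round (x : ℝ) : |x - 2 * Real.pi * round (x / (2 * Real.pi))| ≤ Real.pi := by
  have hpi := Real.pi_pos
  have h1 := abs_sub_round (x / (2 * Real.pi))
  have h2 : x - 2 * Real.pi * round (x / (2 * Real.pi)) =
      (2 * Real.pi) * (x / (2 * Real.pi) - round (x / (2 * Real.pi))) := by
    field_simp
  rw [h2, abs_mul, abs_of_pos (by positivity)]
  nlinarith

theorem mvtA_norm (g₀ : GaussianInt) (k : ℤ) :
    ‖((Real.exp (2 * Real.pi * k) : ℝ) : ℂ) * GaussianInt.toComplex g₀‖ =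
      ab g₀ * Real.exp (2 * Real.pi * k) := by
  rw [norm_mul, Complex.norm_real, Real.norm_of_nonneg (Real.exp_pos _).le, mul_comm]
  rfl

theorem mvtA_dist {g₀ g : GaussianInt} (h0 : g₀ ≠ 0) (hg : g ≠ 0) (k l : ℤ)
    (hU : |Real.log (ab g) - Real.log (ab g₀) - 2 * Real.pi * k| ≤ Real.pi) :
    ‖GaussianInt.toComplex g - ((Real.exp (2 * Real.pi * k) : ℝ) : ℂ) * GaussianInt.toComplex g₀‖ ≤
      Real.exp Real.pi * (ab g₀ * Real.exp (2 * Real.pi * k)) *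
        (|Real.log (ab g) - Real.log (ab g₀) - 2 * Real.pi * k| +
          |Complex.arg (GaussianInt.toComplex g) - Complex.arg (GaussianInt.toComplex g₀) -
            2 * Real.pi * l|) := by
  have hpi := Real.pi_pos
  have ha0 := ab_pos h0
  have ha := ab_pos hg
  obtain ⟨Y, hY⟩ : ∃ Y, Y = ab g₀ * Real.exp (2 * Real.pi * k) := ⟨_, rfl⟩
  have hY0 : 0 < Y := by
    rw [hY]
    positivity
  have hlY : Real.log Y = Real.log (ab g₀) + 2 * Real.pi * k := by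
    rw [hY, Real.log_mul ha0.ne' (Real.exp_pos _).ne', Real.log_exp]
  obtain ⟨θ, hθ⟩ : ∃ θ, θ = Complex.arg (GaussianInt.toComplex g) := ⟨_, rfl⟩
  obtain ⟨θ₀, hθ₀⟩ : ∃ θ₀, θ₀ = Complex.arg (GaussianInt.toComplex g₀) := ⟨_, rfl⟩
  have e1 : GaussianInt.toComplex g = (ab g : ℂ) * Complex.exp ((θ : ℂ) * Complex.I) := by
    rw [hθ]
    exact (Complex.norm_mul_exp_arg_mul_I (GaussianInt.toComplex g)).symm
  have e2 : ((Real.exp (2 * Real.pi * k) : ℝ) : ℂ) * GaussianInt.toComplex g₀ =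
      (Y : ℂ) * Complex.exp ((θ₀ : ℂ) * Complex.I) := by
    have h1 : GaussianInt.toComplex g₀ = (ab g₀ : ℂ) * Complex.exp ((θ₀ : ℂ) * Complex.I) := by
      rw [hθ₀]
      exact (Complex.norm_mul_exp_arg_mul_I (GaussianInt.toComplex g₀)).symm
    rw [h1, hY]
    push_cast
    ring
  have hper : Complex.exp ((θ : ℂ) * Complex.I) = Complex.exp ((θ₀ : ℂ) * Complex.I) *
      Complex.exp (Complex.I * ((θ - θ₀ - 2 * Real.pi * l : ℝ) : ℂ)) := by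
    rw [← Complex.exp_add]
    have h1 : (θ : ℂ) * Complex.I = (θ₀ : ℂ) * Complex.I +
        Complex.I * ((θ - θ₀ - 2 * Real.pi * l : ℝ) : ℂ) + l * (2 * Real.pi * Complex.I) := by
      push_cast
      ring
    rw [h1, Complex.exp_add _ ((l : ℂ) * (2 * Real.pi * Complex.I)),
      Complex.exp_int_mul_two_pi_mul_I, mul_one]
  have e3 : GaussianInt.toComplex g - ((Real.exp (2 * Real.pi * k) : ℝ) : ℂ) *
      GaussianInt.toComplex g₀ = ((ab g - Y : ℝ) : ℂ) * Complex.exp ((θ : ℂ) * Complex.I) +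
      (Y : ℂ) * Complex.exp ((θ₀ : ℂ) * Complex.I) *
        (Complex.exp (Complex.I * ((θ - θ₀ - 2 * Real.pi * l : ℝ) : ℂ)) - 1) := by
    rw [e1, e2, mul_sub, mul_assoc (Y : ℂ), ← hper]
    push_cast
    ring
  have h1 : |ab g - Y| ≤ Real.exp Real.pi * Y *
      |Real.log (ab g) - Real.log (ab g₀) - 2 * Real.pi * k| := by
    have h2 := Pool.MRZ.mvt_log ha hY0 (by rw [hlY, ← sub_sub]; exact hU)
    rwa [hlY, ← sub_sub] at h2
  have h2 : ‖Complex.exp (Complex.I * ((θ - θ₀ - 2 * Real.pi * l : ℝ) : ℂ)) - 1‖ ≤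
      |θ - θ₀ - 2 * Real.pi * l| := by
    have h3 := Real.norm_exp_I_mul_ofReal_sub_one_le (x := θ - θ₀ - 2 * Real.pi * l)
    rwa [Real.norm_eq_abs] at h3
  have hE : 1 ≤ Real.exp Real.pi := Real.one_le_exp hpi.le
  rw [e3, ← hθ, ← hθ₀, ← hY]
  refine le_trans (norm_add_le _ _) ?_
  rw [norm_mul, norm_mul, norm_mul, Complex.norm_exp_ofReal_mul_I,
    Complex.norm_exp_ofReal_mul_I, Complex.norm_real, Complex.norm_real, mul_one, mul_one,
    Real.norm_eq_abs, Real.norm_of_nonneg hY0.le, mul_add]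
  apply add_le_add h1
  calc Y * ‖Complex.exp (Complex.I * ((θ - θ₀ - 2 * Real.pi * l : ℝ) : ℂ)) - 1‖
      ≤ Y * |θ - θ₀ - 2 * Real.pi * l| := mul_le_mul_of_nonneg_left h2 hY0.le
    _ = 1 * (Y * |θ - θ₀ - 2 * Real.pi * l|) := by ring
    _ ≤ Real.exp Real.pi * (Y * |θ - θ₀ - 2 * Real.pi * l|) :=
        mul_le_mul_of_nonneg_right hE (by positivity)
    _ = _ := by ring

/-- the radius of the nearest copy -/
noncomputable def mvtY (g₀ : GaussianInt) (k : ℤ) : ℝ := ab g₀ * Real.exp (2 * Real.pi * k)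

/-- the nearest copy -/
noncomputable def mvtP (g₀ : GaussianInt) (k : ℤ) : ℂ :=
  ((Real.exp (2 * Real.pi * k) : ℝ) : ℂ) * GaussianInt.toComplex g₀

/-- the scale -/
noncomputable def mvtC (M : ℕ) (g₀ : GaussianInt) (k : ℤ) : ℝ :=
  4 * M / (Real.pi * (Real.exp Real.pi * mvtY g₀ k))

theorem mvtY_pos {g₀ : GaussianInt} (h0 : g₀ ≠ 0) (k : ℤ) : 0 < mvtY g₀ k :=
  mul_pos (ab_pos h0) (Real.exp_pos _)

theorem mvtA_point {M : ℕ} (hM : 1 ≤ M) {g₀ g : GaussianInt} (h0 : g₀ ≠ 0) (hg : g ≠ 0) :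
    mvtK M g₀ g ≤ 65536 * (M : ℝ) ^ 4 * (1 / (1 + mvtC M g₀ (mvtk g₀ g) *
      ‖GaussianInt.toComplex g - mvtP g₀ (mvtk g₀ g)‖) ^ 4) := by
  have hpi := Real.pi_pos
  have hM0 : (0 : ℝ) < M := by exact_mod_cast hM
  obtain ⟨k, hk⟩ : ∃ k, k = mvtk g₀ g := ⟨_, rfl⟩
  rw [← hk]
  obtain ⟨l, hl⟩ : ∃ l : ℤ, l = round ((Complex.arg (GaussianInt.toComplex g) -
    Complex.arg (GaussianInt.toComplex g₀)) / (2 * Real.pi)) := ⟨_, rfl⟩
  obtain ⟨U, hU⟩ : ∃ U, U = Real.log (ab g) - Real.log (ab g₀) - 2 * Real.pi * k := ⟨_, rfl⟩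
  obtain ⟨Θ, hΘ⟩ : ∃ Θ, Θ = Complex.arg (GaussianInt.toComplex g) -
    Complex.arg (GaussianInt.toComplex g₀) - 2 * Real.pi * l := ⟨_, rfl⟩
  have hUpi : |U| ≤ Real.pi := by
    rw [hU, hk, mvtk]
    exact mvtA_round _
  have hΘpi : |Θ| ≤ Real.pi := by
    rw [hΘ, hl]
    exact mvtA_round _
  have hd := mvtA_dist h0 hg k l (by rw [← hU]; exact hUpi)
  rw [← hU, ← hΘ] at hd
  have hY := mvtY_pos h0 k
  have hE := Real.exp_pos Real.pi
  obtain ⟨A, hA⟩ : ∃ A : ℝ, A = 4 * M * |U| / Real.pi := ⟨_, rfl⟩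
  obtain ⟨B, hB⟩ : ∃ B : ℝ, B = 4 * M * |Θ| / Real.pi := ⟨_, rfl⟩
  have hA0 : 0 ≤ A := by
    rw [hA]
    positivity
  have hB0 : 0 ≤ B := by
    rw [hB]
    positivity
  have f1 : Pool.MRZ.fej (2 * (2 * M)) (Real.log (ab g) - Real.log (ab g₀)) ≤
      16 * M / (1 + A) ^ 2 := by
    have e1 : Real.log (ab g) - Real.log (ab g₀) = U + 2 * Real.pi * k := by
      rw [hU]
      ring
    rw [e1, Pool.MRZ.fej_add_two_pi]
    have h1 := Pool.MRZ.mvt_fej (T := 2 * M) (by omega) hUpi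
    refine h1.trans (le_of_eq ?_)
    rw [hA]
    push_cast
    ring_nf
  have f2 : Pool.MRZ.fej (2 * (2 * M)) (Complex.arg (GaussianInt.toComplex g) -
      Complex.arg (GaussianInt.toComplex g₀)) ≤ 16 * M / (1 + B) ^ 2 := by
    have e1 : Complex.arg (GaussianInt.toComplex g) -
        Complex.arg (GaussianInt.toComplex g₀) = Θ + 2 * Real.pi * l := by
      rw [hΘ]
      ring
    rw [e1, Pool.MRZ.fej_add_two_pi]
    have h1 := Pool.MRZ.mvt_fej (T := 2 * M) (by omega) hΘpi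
    refine h1.trans (le_of_eq ?_)
    rw [hB]
    push_cast
    ring_nf
  have hcd : mvtC M g₀ k * ‖GaussianInt.toComplex g - mvtP g₀ k‖ ≤ A + B := by
    have h1 : mvtC M g₀ k * ‖GaussianInt.toComplex g - mvtP g₀ k‖ ≤
        mvtC M g₀ k * (Real.exp Real.pi * mvtY g₀ k * (|U| + |Θ|)) := by
      apply mul_le_mul_of_nonneg_left hd
      unfold mvtC
      positivity
    refine h1.trans (le_of_eq ?_)
    unfold mvtC
    rw [hA, hB]
    field_simp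
  have hcd0 : 0 ≤ mvtC M g₀ k * ‖GaussianInt.toComplex g - mvtP g₀ k‖ := by
    unfold mvtC
    positivity
  rw [mvtK_symm]
  unfold mvtK
  have g1 := Pool.MRZ.fej_nonneg (2 * (2 * M)) (Real.log (ab g) - Real.log (ab g₀))
  have g2 := Pool.MRZ.fej_nonneg (2 * (2 * M)) (Complex.arg (GaussianInt.toComplex g) -
      Complex.arg (GaussianInt.toComplex g₀))
  calc _ ≤ (16 * M / (1 + A) ^ 2) ^ 2 * (16 * M / (1 + B) ^ 2) ^ 2 := by
        gcongr
    _ = 65536 * (M : ℝ) ^ 4 * (1 / ((1 + A) * (1 + B)) ^ 4) := by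
        field_simp
        ring
    _ ≤ _ := by
        apply mul_le_mul_of_nonneg_left _ (by positivity)
        apply one_div_le_one_div_of_le (by positivity)
        apply pow_le_pow_left₀ (by positivity)
        nlinarith [mul_nonneg hA0 hB0]

theorem mvtA_kernel {M : ℕ} (hM : 1 ≤ M) {R₁ R₂ : ℝ} (h1 : (M : ℝ) ≤ R₁) {g₀ : GaussianInt}
    (h0 : g₀ ≠ 0) :
    ∑ g ∈ ann R₁ R₂, mvtK M g₀ g ≤ 2 ^ 21 * Real.exp Real.pi ^ 4 * M ^ 2 * R₂ ^ 2 := by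
  classical
  have hpi := Real.pi_pos
  have hM0 : (0 : ℝ) < M := by exact_mod_cast hM
  obtain ⟨E, hE⟩ : ∃ E, E = Real.exp Real.pi := ⟨_, rfl⟩
  have hE0 : 0 < E := by
    rw [hE]
    exact Real.exp_pos _
  have hE1 : 1 ≤ E := by
    rw [hE]
    exact Real.one_le_exp hpi.le
  rw [← hE]
  -- radii
  have hrad : ∀ g ∈ ann R₁ R₂, mvtY g₀ (mvtk g₀ g) ≤ E * R₂ ∧
      (M : ℝ) ≤ E * mvtY g₀ (mvtk g₀ g) := by
    intro g hg
    obtain ⟨hg0, hg1, hg2⟩ := mem_ann.1 hg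
    have ha := ab_pos hg0
    have hY := mvtY_pos h0 (mvtk g₀ g)
    have hr : |Real.log (ab g) - Real.log (mvtY g₀ (mvtk g₀ g))| ≤ Real.pi := by
      have h2 := mvtA_round (Real.log (ab g) - Real.log (ab g₀))
      rw [mvtY, Real.log_mul (ab_pos h0).ne' (Real.exp_pos _).ne', Real.log_exp, ← sub_sub]
      exact h2
    obtain ⟨h2, h3⟩ := abs_le.1 hr
    constructor
    · have h4 : mvtY g₀ (mvtk g₀ g) ≤ E * ab g := by
        rw [← Real.log_le_log_iff hY (by positivity), Real.log_mul hE0.ne' ha.ne', hE,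
          Real.log_exp]
        linarith
      exact h4.trans (mul_le_mul_of_nonneg_left hg2 hE0.le)
    · have h4 : ab g ≤ E * mvtY g₀ (mvtk g₀ g) := by
        rw [← Real.log_le_log_iff ha (by positivity), Real.log_mul hE0.ne' hY.ne', hE,
          Real.log_exp]
        linarith
      linarith
  obtain ⟨K, hK⟩ : ∃ K, K = (ann R₁ R₂).image (mvtk g₀) := ⟨_, rfl⟩
  have hKr : ∀ k ∈ K, mvtY g₀ k ≤ E * R₂ ∧ (M : ℝ) ≤ E * mvtY g₀ k := by
    intro k hk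
    rw [hK] at hk
    obtain ⟨g, hg, rfl⟩ := Finset.mem_image.1 hk
    exact hrad g hg
  have s1 : ∑ g ∈ ann R₁ R₂, mvtK M g₀ g ≤ ∑ g ∈ ann R₁ R₂, 65536 * (M : ℝ) ^ 4 *
      (1 / (1 + mvtC M g₀ (mvtk g₀ g) * ‖GaussianInt.toComplex g - mvtP g₀ (mvtk g₀ g)‖) ^ 4) :=
    Finset.sum_le_sum (fun g hg => mvtA_point hM h0 (mem_ann.1 hg).1)
  have s2 : ∑ g ∈ ann R₁ R₂, 65536 * (M : ℝ) ^ 4 *
      (1 / (1 + mvtC M g₀ (mvtk g₀ g) * ‖GaussianInt.toComplex g - mvtP g₀ (mvtk g₀ g)‖) ^ 4) =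
      ∑ k ∈ K, ∑ g ∈ (ann R₁ R₂).filter (fun g => mvtk g₀ g = k), 65536 * (M : ℝ) ^ 4 *
      (1 / (1 + mvtC M g₀ (mvtk g₀ g) *
        ‖GaussianInt.toComplex g - mvtP g₀ (mvtk g₀ g)‖) ^ 4) := by
    rw [hK]
    exact (Finset.sum_fiberwise_of_maps_to (fun g hg => Finset.mem_image_of_mem _ hg) _).symm
  have s3 : ∀ k ∈ K, ∑ g ∈ (ann R₁ R₂).filter (fun g => mvtk g₀ g = k), 65536 * (M : ℝ) ^ 4 *
      (1 / (1 + mvtC M g₀ (mvtk g₀ g) *
        ‖GaussianInt.toComplex g - mvtP g₀ (mvtk g₀ g)‖) ^ 4) ≤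
      2 ^ 20 * E ^ 3 * M ^ 2 * R₂ * mvtY g₀ k := by
    intro k hk
    obtain ⟨r1, r2⟩ := hKr k hk
    have hY := mvtY_pos h0 k
    have hc0 : 0 < mvtC M g₀ k := by
      unfold mvtC
      rw [← hE]
      positivity
    have e1 : ∑ g ∈ (ann R₁ R₂).filter (fun g => mvtk g₀ g = k), 65536 * (M : ℝ) ^ 4 *
        (1 / (1 + mvtC M g₀ (mvtk g₀ g) *
        ‖GaussianInt.toComplex g - mvtP g₀ (mvtk g₀ g)‖) ^ 4) =
        65536 * (M : ℝ) ^ 4 * ∑ g ∈ (ann R₁ R₂).filter (fun g => mvtk g₀ g = k),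
        1 / (1 + mvtC M g₀ k * ‖GaussianInt.toComplex g - mvtP g₀ k‖) ^ 4 := by
      rw [Finset.mul_sum]
      apply Finset.sum_congr rfl
      intro g hg
      rw [(Finset.mem_filter.1 hg).2]
    rw [e1]
    have e2 := mvtA_sum_gauss hc0 ((ann R₁ R₂).filter (fun g => mvtk g₀ g = k)) (mvtP g₀ k)
    have e3 : 1 + 1 / mvtC M g₀ k ≤ 2 * E * mvtY g₀ k / M := by
      have e4 : 1 / mvtC M g₀ k = Real.pi * E * mvtY g₀ k / (4 * M) := by
        unfold mvtC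
        rw [← hE]
        field_simp
      rw [e4, le_div_iff₀ hM0]
      have e5 : (1 + Real.pi * E * mvtY g₀ k / (4 * M)) * M =
          M + Real.pi * E * mvtY g₀ k / 4 := by
        field_simp
      rw [e5]
      have hpi4 := Real.pi_le_four
      have e6 : Real.pi * (E * mvtY g₀ k) ≤ 4 * (E * mvtY g₀ k) :=
        mul_le_mul_of_nonneg_right hpi4 (by positivity)
      linarith
    have e7 : (2 * (1 + 1 / mvtC M g₀ k)) ^ 2 ≤ (2 * (2 * E * mvtY g₀ k / M)) ^ 2 := by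
      apply pow_le_pow_left₀ (by positivity)
      linarith
    calc _ ≤ 65536 * (M : ℝ) ^ 4 * (2 * (2 * E * mvtY g₀ k / M)) ^ 2 :=
          mul_le_mul_of_nonneg_left (e2.trans e7) (by positivity)
      _ = 2 ^ 20 * E ^ 2 * M ^ 2 * mvtY g₀ k * mvtY g₀ k := by
          field_simp
          ring
      _ ≤ 2 ^ 20 * E ^ 2 * M ^ 2 * mvtY g₀ k * (E * R₂) :=
          mul_le_mul_of_nonneg_left r1 (by positivity)
      _ = _ := by ring
  rw [s2] at s1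
  refine s1.trans ((Finset.sum_le_sum s3).trans ?_)
  rw [← Finset.mul_sum]
  rcases K.eq_empty_or_nonempty with hKe | ⟨k₀, hk₀⟩
  · rw [hKe, Finset.sum_empty, mul_zero]
    positivity
  · have hY := mvtY_pos h0 k₀
    have r1 := (hKr k₀ hk₀).1
    have hER : 0 < E * R₂ := by linarith
    have hR : 0 < R₂ := (mul_pos_iff_of_pos_left hE0).1 hER
    have s4 : ∑ k ∈ K, mvtY g₀ k ≤ 2 * (E * R₂) :=
      Pool.MRZ.mvt_geom (ab_pos h0) K (E * R₂) hER.le (fun k hk => (hKr k hk).1)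
    calc 2 ^ 20 * E ^ 3 * (M : ℝ) ^ 2 * R₂ * ∑ k ∈ K, mvtY g₀ k
        ≤ 2 ^ 20 * E ^ 3 * (M : ℝ) ^ 2 * R₂ * (2 * (E * R₂)) :=
          mul_le_mul_of_nonneg_left s4 (by positivity)
      _ = _ := by ring

theorem mvtA_main {M : ℕ} (hM : 1 ≤ M) {R₁ R₂ : ℝ} (h1 : (M : ℝ) ≤ R₁)
    (b : GaussianInt → ℂ) :
    ∑ c ∈ fr M, ‖∑ g ∈ ann R₁ R₂, b g * ch c.1 c.2 g‖ ^ 2 ≤
      2 ^ 25 * Real.exp Real.pi ^ 4 * R₂ ^ 2 * ∑ g ∈ ann R₁ R₂, ‖b g‖ ^ 2 := by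
  have hM0 : (0 : ℝ) < M := by exact_mod_cast hM
  have s1 := mvtA_schur M hM (ann R₁ R₂) b
  have s2 : ∑ g ∈ ann R₁ R₂, ‖b g‖ ^ 2 * ∑ g' ∈ ann R₁ R₂, mvtK M g g' ≤
      ∑ g ∈ ann R₁ R₂, ‖b g‖ ^ 2 * (2 ^ 21 * Real.exp Real.pi ^ 4 * M ^ 2 * R₂ ^ 2) :=
    Finset.sum_le_sum (fun g hg => mul_le_mul_of_nonneg_left
      (mvtA_kernel hM h1 (mem_ann.1 hg).1) (sq_nonneg _))
  rw [← Finset.sum_mul] at s2
  have s3 := s1.trans s2
  have h2 : (0 : ℝ) < (M : ℝ) ^ 2 / 16 := by positivity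
  refine le_of_mul_le_mul_left (s3.trans (le_of_eq ?_)) h2
  ring

end Pool.Agent.MRG
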