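import Pool.Agent.MRG.Thin
import Pool.Agent.MRG.MvtA

/-!
# Module Mvt: the mean value theorem on the torus

The proof is in `MvtA`, with the square of a Fejér kernel in place of the Poisson kernel below.

Let `P(x) = ∑_{m ∈ ℤ} ρ^|m| e^(imx) = (1-ρ²)/(1 - 2ρ cos x + ρ²)`, `ρ = e^(-1/M)` (Poisson kernel): `P ≥ 0`, `∫_0^(2π) P = 2π`, and (Harnack)
`P(x') ≤ C P(x)` if `|x - x'| ≤ 2/M` (the denominator is `(1-ρ)² + 2ρ(1 - cos x) ≍ 1/M² + dist(x, 2πℤ)²`).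

`mvt`: `ρ^|m| ≥ e⁻¹` for `|m| < M`, so the left side is at most
`e² ∑_{m,k ∈ ℤ} ρ^(|m|+|k|) |B(m,k)|² = e² ∑_{g,g'} b(g) conj b(g') P(log|g| - log|g'|) P(arg g - arg g')`
`≤ e² ∑_g |b(g)|² · sup_g ∑_{g'} P(log|g| - log|g'|) P(arg g - arg g')` (Schur: `|b b'| ≤ (|b|² + |b'|²)/2`, symmetry).

`kernel_sum`: for all `u₀, θ₀` and `M ≤ R₁`: `∑_{g' ∈ ann R₁ R₂} P(log|g'| - u₀) P(arg g' - θ₀) ≤ C R₂²`: for `g'` with `|g'| > R₁ ≥ M ≥ 1` and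
`z` in the unit square with lower left corner `g'` (or centre `g'`), `log z` and `log g'` differ by at most `2/M` in both coordinates, up to
`2πi` (if `|g'| ≤ 10` trivial: then `M ≤ 10` and `P ≤ C`), so the sum is at most `C ∫_{R₁/4 ≤ |z| ≤ 4R₂} P(log|z| - u₀) P(arg z - θ₀) dA(z)
= C ∫ P(u - u₀) e^(2u) du ∫ P(θ - θ₀) dθ`; cut the `u`-interval `(-∞, log 4R₂]` into pieces of length `2π`: geometric series.

`mvt_dual`: duality of the finite matrix `(ch c g)` (operator norm of the adjoint).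
-/

set_option autoImplicit false

namespace Pool.Agent.MRG

open Pool.Agent.GaussPret

theorem mvt : ∃ C : ℝ, 0 < C ∧ ∀ (M : ℕ) (R₁ R₂ : ℝ) (b : GaussianInt → ℂ), 1 ≤ M →
    (M : ℝ) ≤ R₁ → R₁ ≤ R₂ →
    ∑ c ∈ fr M, ‖∑ g ∈ ann R₁ R₂, b g * ch c.1 c.2 g‖ ^ 2 ≤
      C * R₂ ^ 2 * ∑ g ∈ ann R₁ R₂, ‖b g‖ ^ 2 :=
  ⟨2 ^ 25 * Real.exp Real.pi ^ 4, by positivity,
    fun _ _ _ b hM h1 _ => mvtA_main hM h1 b⟩

end Pool.Agent.MRG
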