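import Pool.Agent.MRG.TK
import Pool.Agent.MRG.Mvt

/-!
# Module Decomp: decomposition of the character sum over an annulus with the primes of a range

Let `S = rng h v0 v1`, `L = Ls S ≥ 1`, and for `n ≠ 0` let
`a(n) = (1/L) #{(v, p) : v0 ≤ v < v1, p ∈ cel h v, p ∣ n, R e^(-v/h) < |n/p| ≤ 2R e^(-v/h)}`.
The cells partition `S` (`p ∈ cel h v` iff `v < h log |p| ≤ v + 1`, so `v = ⌈h log|p|⌉ - 1`).  As `f (p m) ch(p m) = f p ch p · f m ch m`,
`(1/L) ∑_v Q_v(c) FR f (R e^(-v/h)) c = ∑_n f(n) a(n) ch c n` (the map `(v, p, m) ↦ (p m; p)`).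
`0 ≤ a(n) ≤ om S n / L`; `a(n) = 0` unless `R < |n| ≤ 2R e^(1/h)`; if `R e^(1/h) < |n| ≤ 2R` every `p ∈ S` dividing `n` is counted,
so `a(n) = om S n / L`.  Let `e(n) = f(n) (1_{n ∈ ann R 2R} - a(n))`.  Then `|e(n)| ≤ |1 - om S n/L|` for `R e^(1/h) < |n| ≤ 2R` and
`|e(n)| ≤ 1 + om S n/L ≤ 2 + |1 - om S n/L|` in `ann R (R e^(1/h)) ∪ ann (2R) (2R e^(1/h))`, so
`∑ |e(n)|² ≤ 2 ∑_{ball (2eR)} |1 - om S n/L|² + 8 (#ann R (R e^(1/h)) + #ann (2R) (2R e^(1/h)))
≤ (2/L²) C R² (L + 1) + C (R²/h + R)` by `tk` (`z = e^(v1/h)`, `z² ≤ R ≤ 2eR`) and `card_thin` (`e^(1/h) - 1 ≤ 2/h`); `(L+1)/L² ≤ 2/L`.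

`energy_le`: apply `mvt` to the coefficients `e` on `ann R (2R e^(1/h))`, `M ≤ R`; `|a + b|² ≤ 2|a|² + 2|b|²`; `1/L ≤ 1`.
-/

set_option autoImplicit false

namespace Pool.Agent.MRG

open Pool.Agent.GaussPret

namespace DecompAux

/-- the condition on `n` and the prime `p` -/
def KK (h : ℕ) (R : ℝ) (v : ℕ) (p n : GaussianInt) : Prop :=
  p ∣ n ∧ R * Real.exp (-((v : ℝ) / h)) * ab p < ab n ∧
    ab n ≤ 2 * (R * Real.exp (-((v : ℝ) / h))) * ab p

open scoped Classical in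
/-- the weight -/
noncomputable def WW (h v0 v1 : ℕ) (R : ℝ) (n : GaussianInt) : ℝ :=
  ∑ v ∈ Finset.Ico v0 v1, ∑ p ∈ cel h v, if KK h R v p n then (1 : ℝ) else 0

theorem mem_cel {h v : ℕ} {p : GaussianInt} : p ∈ cel h v ↔
    (Prime p ∧ 0 < p.re ∧ 0 ≤ p.im) ∧ Real.exp ((v : ℝ) / h) < ab p ∧
      ab p ≤ Real.exp (((v : ℝ) + 1) / h) := mem_pr

theorem mem_rng {h v0 v1 : ℕ} {p : GaussianInt} : p ∈ rng h v0 v1 ↔
    (Prime p ∧ 0 < p.re ∧ 0 ≤ p.im) ∧ Real.exp ((v0 : ℝ) / h) < ab p ∧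
      ab p ≤ Real.exp ((v1 : ℝ) / h) := mem_pr

theorem exp1 (h v : ℕ) : Real.exp ((v : ℝ) / h) * Real.exp (-((v : ℝ) / h)) = 1 := by
  rw [← Real.exp_add, add_neg_cancel, Real.exp_zero]

theorem exp2 (h v : ℕ) : Real.exp (((v : ℝ) + 1) / h) * Real.exp (-((v : ℝ) / h)) =
    Real.exp (1 / h) := by
  rw [← Real.exp_add]
  congr 1
  ring

open scoped Classical in
theorem himg (h v : ℕ) (R : ℝ) (hR : 0 < R) (p : GaussianInt) (hp : p ∈ cel h v) :
    (ann R (2 * R * Real.exp (1 / h))).filter (KK h R v p) =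
      (ann (R * Real.exp (-((v : ℝ) / h))) (2 * (R * Real.exp (-((v : ℝ) / h))))).image
        (fun m => p * m) := by
  rw [mem_cel] at hp
  have hp0 : p ≠ 0 := hp.1.1.ne_zero
  have hpp : 0 < ab p := ab_pos hp0
  have hE := Real.exp_pos (-((v : ℝ) / h))
  ext n
  rw [Finset.mem_filter, Finset.mem_image, mem_ann]
  constructor
  · rintro ⟨⟨hn0, _, _⟩, ⟨m, rfl⟩, h1, h2⟩
    have hm0 : m ≠ 0 := right_ne_zero_of_mul hn0
    refine ⟨m, mem_ann.2 ⟨hm0, ?_, ?_⟩, rfl⟩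
    · rw [ab_mul, mul_comm (ab p)] at h1
      exact lt_of_mul_lt_mul_right h1 hpp.le
    · rw [ab_mul, mul_comm (ab p)] at h2
      exact le_of_mul_le_mul_right h2 hpp
  · rintro ⟨m, hm, rfl⟩
    rw [mem_ann] at hm
    refine ⟨⟨mul_ne_zero hp0 hm.1, ?_, ?_⟩, dvd_mul_right p m, ?_, ?_⟩
    · rw [ab_mul]
      calc R = Real.exp ((v : ℝ) / h) * (R * Real.exp (-((v : ℝ) / h))) := by
            have := exp1 h v
            linear_combination (-R) * this
        _ < ab p * ab m := mul_lt_mul'' hp.2.1 hm.2.1 (Real.exp_pos _).le (by positivity)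
    · rw [ab_mul]
      calc ab p * ab m ≤ Real.exp (((v : ℝ) + 1) / h) * (2 * (R * Real.exp (-((v : ℝ) / h)))) :=
            mul_le_mul hp.2.2 hm.2.2 (ab_nonneg m) (Real.exp_pos _).le
        _ = 2 * R * Real.exp (1 / h) := by
            have := exp2 h v
            linear_combination (2 * R) * this
    · rw [ab_mul, mul_comm (ab p)]
      exact mul_lt_mul_of_pos_right hm.2.1 hpp
    · rw [ab_mul, mul_comm (ab p)]
      exact mul_le_mul_of_nonneg_right hm.2.2 hpp.le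

open scoped Classical in
theorem prod_eq (f : GaussianInt → ℂ) (hf : CM f) (h v : ℕ) (R : ℝ) (hR : 0 < R) (c : ℤ × ℤ)
    (p : GaussianInt) (hp : p ∈ cel h v) :
    f p * ch c.1 c.2 p * FR f (R * Real.exp (-((v : ℝ) / h))) c =
      ∑ n ∈ ann R (2 * R * Real.exp (1 / h)), if KK h R v p n then f n * ch c.1 c.2 n else 0 := by
  have hp0 : p ≠ 0 := (mem_cel.1 hp).1.1.ne_zero
  rw [← Finset.sum_filter, himg h v R hR p hp, FR, Finset.mul_sum,
    Finset.sum_image (fun a _ b _ hab => mul_left_cancel₀ hp0 hab)]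
  apply Finset.sum_congr rfl
  intro m hm
  have hm0 : m ≠ 0 := (mem_ann.1 hm).1
  rw [hf.mul p m hp0 hm0, ch_mul hp0 hm0]
  ring

open scoped Classical in
theorem sum_eq (f : GaussianInt → ℂ) (hf : CM f) (h v0 v1 : ℕ) (R : ℝ) (hR : 0 < R) (c : ℤ × ℤ) :
    ∑ v ∈ Finset.Ico v0 v1, Qv f h v c * FR f (R * Real.exp (-((v : ℝ) / h))) c =
      ∑ n ∈ ann R (2 * R * Real.exp (1 / h)), f n * ch c.1 c.2 n * (WW h v0 v1 R n : ℂ) := by
  have h1 : ∀ v ∈ Finset.Ico v0 v1, Qv f h v c * FR f (R * Real.exp (-((v : ℝ) / h))) c =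
      ∑ n ∈ ann R (2 * R * Real.exp (1 / h)), ∑ p ∈ cel h v,
        if KK h R v p n then f n * ch c.1 c.2 n else 0 := by
    intro v _
    rw [Qv, Finset.sum_mul, Finset.sum_congr rfl (fun p hp => prod_eq f hf h v R hR c p hp),
      Finset.sum_comm]
  rw [Finset.sum_congr rfl h1, Finset.sum_comm]
  apply Finset.sum_congr rfl
  intro n _
  rw [WW, Complex.ofReal_sum, Finset.mul_sum]
  apply Finset.sum_congr rfl
  intro v _
  rw [Complex.ofReal_sum, Finset.mul_sum]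
  apply Finset.sum_congr rfl
  intro p _
  split_ifs <;> simp

theorem cel_disj (h v0 v1 : ℕ) :
    ((Finset.Ico v0 v1 : Finset ℕ) : Set ℕ).PairwiseDisjoint (cel h) := by
  have key : ∀ v v' : ℕ, v < v' → ∀ p, p ∈ cel h v → p ∉ cel h v' := by
    intro v v' hv p hp hp'
    rw [mem_cel] at hp hp'
    have h1 : ((v : ℝ) + 1) / h ≤ (v' : ℝ) / h := by
      apply div_le_div_of_nonneg_right _ (Nat.cast_nonneg h)
      exact_mod_cast hv
    have h2 := Real.exp_le_exp.2 h1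
    linarith [hp.2.2, hp'.2.1]
  intro v _ v' _ hne
  rw [Function.onFun, Finset.disjoint_left]
  intro p hp hp'
  rcases lt_or_gt_of_ne hne with hv | hv
  · exact key v v' hv p hp hp'
  · exact key v' v hv p hp' hp

theorem rng_eq (h v0 v1 : ℕ) (hh : 1 ≤ h) :
    rng h v0 v1 = (Finset.Ico v0 v1).biUnion (cel h) := by
  have hh0 : (0 : ℝ) < h := by exact_mod_cast hh
  ext p
  rw [Finset.mem_biUnion, mem_rng]
  constructor
  · rintro ⟨h1, h2, h3⟩
    have hpp : 0 < ab p := ab_pos h1.1.ne_zero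
    set x := (h : ℝ) * Real.log (ab p) with hx
    have hxlog : Real.log (ab p) = x / h := by rw [hx]; field_simp
    have hx0 : (v0 : ℝ) < x := by
      rw [← Real.lt_log_iff_exp_lt hpp, hxlog, div_lt_div_iff_of_pos_right hh0] at h2
      exact h2
    have hx1 : x ≤ v1 := by
      rw [← Real.log_le_iff_le_exp hpp, hxlog, div_le_div_iff_of_pos_right hh0] at h3
      exact h3
    have hn0 : v0 < ⌈x⌉₊ := Nat.lt_ceil.2 hx0
    have hn1 : ⌈x⌉₊ ≤ v1 := Nat.ceil_le.2 hx1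
    refine ⟨⌈x⌉₊ - 1, Finset.mem_Ico.2 ⟨by omega, by omega⟩, mem_cel.2 ⟨h1, ?_, ?_⟩⟩
    · rw [← Real.lt_log_iff_exp_lt hpp, hxlog, div_lt_div_iff_of_pos_right hh0]
      exact Nat.lt_ceil.1 (by omega)
    · rw [← Real.log_le_iff_le_exp hpp, hxlog, div_le_div_iff_of_pos_right hh0]
      have h4 : (((⌈x⌉₊ - 1 : ℕ) : ℝ) + 1) = (⌈x⌉₊ : ℝ) := by
        have : ⌈x⌉₊ - 1 + 1 = ⌈x⌉₊ := by omega
        exact_mod_cast this
      rw [h4]
      exact Nat.le_ceil x
  · rintro ⟨v, hv, hp⟩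
    rw [Finset.mem_Ico] at hv
    rw [mem_cel] at hp
    refine ⟨hp.1, lt_of_le_of_lt ?_ hp.2.1, hp.2.2.trans ?_⟩
    · apply Real.exp_le_exp.2
      apply div_le_div_of_nonneg_right _ hh0.le
      exact_mod_cast hv.1
    · apply Real.exp_le_exp.2
      apply div_le_div_of_nonneg_right _ hh0.le
      exact_mod_cast hv.2

open scoped Classical in
theorem om_eq (h v0 v1 : ℕ) (hh : 1 ≤ h) (n : GaussianInt) :
    (om (rng h v0 v1) n : ℝ) =
      ∑ v ∈ Finset.Ico v0 v1, ∑ p ∈ cel h v, if p ∣ n then (1 : ℝ) else 0 := by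
  rw [om, Finset.card_filter, rng_eq h v0 v1 hh, Finset.sum_biUnion (cel_disj h v0 v1)]
  push_cast
  rfl

theorem WW_nonneg (h v0 v1 : ℕ) (R : ℝ) (n : GaussianInt) : 0 ≤ WW h v0 v1 R n := by
  classical
  unfold WW
  refine Finset.sum_nonneg fun v _ => Finset.sum_nonneg fun p _ => ?_
  split_ifs <;> norm_num

theorem WW_le (h v0 v1 : ℕ) (hh : 1 ≤ h) (R : ℝ) (n : GaussianInt) :
    WW h v0 v1 R n ≤ om (rng h v0 v1) n := by
  classical
  rw [om_eq h v0 v1 hh]
  unfold WW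
  refine Finset.sum_le_sum fun v _ => Finset.sum_le_sum fun p _ => ?_
  by_cases h1 : KK h R v p n
  · rw [if_pos h1, if_pos h1.1]
  · rw [if_neg h1]
    split_ifs <;> norm_num

theorem WW_eq (h v0 v1 : ℕ) (hh : 1 ≤ h) (R : ℝ) (hR : 0 < R) (n : GaussianInt)
    (h1 : R * Real.exp (1 / h) < ab n) (h2 : ab n ≤ 2 * R) :
    WW h v0 v1 R n = om (rng h v0 v1) n := by
  classical
  rw [om_eq h v0 v1 hh]
  unfold WW
  refine Finset.sum_congr rfl fun v _ => Finset.sum_congr rfl fun p hp => ?_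
  rw [mem_cel] at hp
  have hpp : 0 < ab p := ab_pos hp.1.1.ne_zero
  have hE := Real.exp_pos (-((v : ℝ) / h))
  by_cases h3 : p ∣ n
  · rw [if_pos h3, if_pos]
    refine ⟨h3, ?_, ?_⟩
    · calc R * Real.exp (-((v : ℝ) / h)) * ab p ≤
          R * Real.exp (-((v : ℝ) / h)) * Real.exp (((v : ℝ) + 1) / h) := by
            apply mul_le_mul_of_nonneg_left hp.2.2
            positivity
        _ = R * Real.exp (1 / h) := by
            have := exp2 h v
            linear_combination R * this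
        _ < ab n := h1
    · calc ab n ≤ 2 * R := h2
        _ = 2 * (R * Real.exp (-((v : ℝ) / h))) * Real.exp ((v : ℝ) / h) := by
            have := exp1 h v
            linear_combination (-2 * R) * this
        _ ≤ 2 * (R * Real.exp (-((v : ℝ) / h))) * ab p := by
            apply mul_le_mul_of_nonneg_left hp.2.1.le
            positivity
  · rw [if_neg h3, if_neg]
    exact fun h4 => h3 h4.1

theorem exp_small (x : ℝ) (h0 : 0 ≤ x) (h1 : x ≤ 1) : Real.exp x - 1 ≤ 2 * x := by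
  have h := Real.abs_exp_sub_one_le (x := x) (by rw [abs_of_nonneg h0]; exact h1)
  rw [abs_of_nonneg h0] at h
  exact (le_abs_self _).trans h

end DecompAux

open DecompAux

theorem decomp : ∃ C : ℝ, 0 < C ∧ ∀ (f : GaussianInt → ℂ), CM f → ∀ (h v0 v1 : ℕ) (R : ℝ),
    1 ≤ h → v0 < v1 → Real.exp (2 * v1 / h) ≤ R → 1 ≤ Ls (rng h v0 v1) →
    ∃ e : GaussianInt → ℂ,
      (∀ c : ℤ × ℤ, FR f R c = ((1 / Ls (rng h v0 v1) : ℝ) : ℂ) * ∑ v ∈ Finset.Ico v0 v1,
        Qv f h v c * FR f (R * Real.exp (-((v : ℝ) / h))) c +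
        ∑ n ∈ ann R (2 * R * Real.exp (1 / h)), e n * ch c.1 c.2 n) ∧
      ∑ n ∈ ann R (2 * R * Real.exp (1 / h)), ‖e n‖ ^ 2 ≤
        C * R ^ 2 * (1 / Ls (rng h v0 v1) + 1 / h + 1 / R) := by
  classical
  obtain ⟨Ct, hCt, htk⟩ := tk
  obtain ⟨Ch, hCh, hth⟩ := card_thin
  refine ⟨144 * Ct + 288 * Ch, by positivity, ?_⟩
  intro f hf h v0 v1 R hh hv hR hL
  have hh0 : (0 : ℝ) < h := by exact_mod_cast hh
  have hh1 : (1 : ℝ) ≤ h := by exact_mod_cast hh
  have hR1 : 1 ≤ R := by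
    refine le_trans ?_ hR
    rw [← Real.exp_zero]
    apply Real.exp_le_exp.2
    positivity
  have hR0 : 0 < R := by linarith
  set L := Ls (rng h v0 v1) with hLdef
  have hL0 : 0 < L := by linarith
  set E := Real.exp (1 / (h : ℝ)) with hE
  have hE1 : 1 ≤ E := by
    rw [hE, ← Real.exp_zero]
    apply Real.exp_le_exp.2
    positivity
  have hinv : 1 / (h : ℝ) ≤ 1 := by rw [div_le_one hh0]; exact hh1
  have hinv0 : 0 < 1 / (h : ℝ) := by positivity
  have hEs : E - 1 ≤ 2 * (1 / h) := exp_small _ hinv0.le hinv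
  have hE3 : E ≤ 3 := by
    have : Real.exp (1 / (h : ℝ)) ≤ Real.exp 1 := Real.exp_le_exp.2 hinv
    linarith [Real.exp_one_lt_d9]
  set A := ann R (2 * R * E) with hA
  refine ⟨fun n => f n * (((if ab n ≤ 2 * R then (1 : ℝ) else 0) - WW h v0 v1 R n / L : ℝ) : ℂ),
    ?_, ?_⟩
  · intro c
    have h1 : FR f R c = ∑ n ∈ A, f n * ch c.1 c.2 n * ((if ab n ≤ 2 * R then (1 : ℝ) else 0 : ℝ) : ℂ) := by
      have h2 : ann R (2 * R) = A.filter (fun n => ab n ≤ 2 * R) := by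
        ext n
        rw [Finset.mem_filter, hA, mem_ann, mem_ann]
        constructor
        · rintro ⟨h3, h4, h5⟩
          refine ⟨⟨h3, h4, h5.trans ?_⟩, h5⟩
          nlinarith
        · rintro ⟨⟨h3, h4, _⟩, h5⟩
          exact ⟨h3, h4, h5⟩
      rw [FR, h2, Finset.sum_filter]
      apply Finset.sum_congr rfl
      intro n _
      split_ifs <;> simp
    rw [h1, sum_eq f hf h v0 v1 R hR0 c, Finset.mul_sum, ← Finset.sum_add_distrib]
    apply Finset.sum_congr rfl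
    intro n _
    push_cast
    ring
  · -- pointwise bound
    have hpt : ∀ n ∈ A, ‖f n * (((if ab n ≤ 2 * R then (1 : ℝ) else 0) - WW h v0 v1 R n / L : ℝ) : ℂ)‖ ^ 2 ≤
        2 / L ^ 2 * ((om (rng h v0 v1) n : ℝ) - L) ^ 2 +
          ((if ab n ≤ R * E then (8 : ℝ) else 0) + (if 2 * R < ab n then (8 : ℝ) else 0)) := by
      intro n hn
      rw [hA, mem_ann] at hn
      have hfn := hf.le n hn.1
      set W := WW h v0 v1 R n with hW
      set o : ℝ := (om (rng h v0 v1) n : ℝ) with ho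
      have hW0 : 0 ≤ W := WW_nonneg _ _ _ _ _
      have hWo : W ≤ o := WW_le h v0 v1 hh R n
      set s : ℝ := if ab n ≤ 2 * R then (1 : ℝ) else 0 with hs
      have hs0 : 0 ≤ s := by rw [hs]; split_ifs <;> norm_num
      have hs1 : s ≤ 1 := by rw [hs]; split_ifs <;> norm_num
      have h1 : ‖f n * ((s - W / L : ℝ) : ℂ)‖ ^ 2 ≤ (s - W / L) ^ 2 := by
        rw [norm_mul, Complex.norm_real, mul_pow, Real.norm_eq_abs, sq_abs]
        have : ‖f n‖ ^ 2 ≤ 1 := pow_le_one₀ (norm_nonneg _) hfn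
        nlinarith [sq_nonneg (s - W / L)]
      refine h1.trans ?_
      have hq : 2 / L ^ 2 * (o - L) ^ 2 = 2 * (1 - o / L) ^ 2 := by
        field_simp
        ring
      rw [hq]
      have hWL0 : 0 ≤ W / L := by positivity
      have hoL : W / L ≤ o / L := by gcongr
      by_cases hmid : R * E < ab n ∧ ab n ≤ 2 * R
      · have hWeq : W = o := WW_eq h v0 v1 hh R hR0 n hmid.1 hmid.2
        have hseq : s = 1 := by rw [hs, if_pos hmid.2]
        rw [hWeq, hseq, if_neg (not_le.2 hmid.1), if_neg (not_lt.2 hmid.2)]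
        nlinarith [sq_nonneg (1 - o / L)]
      · have h8 : (8 : ℝ) ≤ (if ab n ≤ R * E then (8 : ℝ) else 0) +
            (if 2 * R < ab n then (8 : ℝ) else 0) := by
          by_cases h9 : ab n ≤ R * E
          · rw [if_pos h9]
            split_ifs <;> norm_num
          · have h10 : 2 * R < ab n := by
              by_contra hcon
              exact hmid ⟨not_le.1 h9, not_lt.1 hcon⟩
            rw [if_neg h9, if_pos h10]
            norm_num
        have h11 : (s - W / L) ^ 2 ≤ 8 + 2 * (1 - o / L) ^ 2 := by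
          have h12 : |s - W / L| ≤ 2 + |1 - o / L| := by
            have h13 : o / L ≤ 1 + |1 - o / L| := by
              have := neg_abs_le (1 - o / L)
              linarith
            rw [abs_le]
            constructor <;> linarith [abs_nonneg (1 - o / L)]
          have h14 : (s - W / L) ^ 2 ≤ (2 + |1 - o / L|) ^ 2 := by
            rw [← sq_abs (s - W / L)]
            apply pow_le_pow_left₀ (abs_nonneg _) h12
          have h15 : |1 - o / L| ^ 2 = (1 - o / L) ^ 2 := sq_abs _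
          nlinarith [sq_nonneg (2 - |1 - o / L|)]
        linarith
    refine (Finset.sum_le_sum hpt).trans ?_
    rw [Finset.sum_add_distrib, Finset.sum_add_distrib, ← Finset.mul_sum]
    -- Turan-Kubilius part
    have hT : ∑ n ∈ A, ((om (rng h v0 v1) n : ℝ) - L) ^ 2 ≤ Ct * (6 * R) ^ 2 * (L + 1) := by
      have h1 := htk (Real.exp ((v1 : ℝ) / h)) (6 * R) (rng h v0 v1) (by
          rw [← Real.exp_zero]
          apply Real.exp_le_exp.2
          positivity) (by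
          rw [← Real.exp_nat_mul]
          have : ((2 : ℕ) : ℝ) * ((v1 : ℝ) / h) = 2 * v1 / h := by push_cast; ring
          rw [this]
          linarith) (by
          intro p hp
          rw [mem_rng] at hp
          rw [mem_pr]
          refine ⟨hp.1, lt_of_le_of_lt ?_ hp.2.1, hp.2.2⟩
          rw [← Real.exp_zero]
          apply Real.exp_le_exp.2
          positivity)
      rw [← hLdef] at h1
      refine le_trans ?_ h1
      apply Finset.sum_le_sum_of_subset_of_nonneg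
      · intro n hn
        rw [hA, mem_ann] at hn
        rw [mem_ball']
        refine ⟨hn.1, hn.2.2.trans ?_⟩
        nlinarith
      · intro n _ _
        positivity
    have hT1 : 2 / L ^ 2 * ∑ n ∈ A, ((om (rng h v0 v1) n : ℝ) - L) ^ 2 ≤
        144 * Ct * R ^ 2 * (1 / L) := by
      calc 2 / L ^ 2 * ∑ n ∈ A, ((om (rng h v0 v1) n : ℝ) - L) ^ 2 ≤
          2 / L ^ 2 * (Ct * (6 * R) ^ 2 * (L + 1)) := by gcongr
        _ ≤ 2 / L ^ 2 * (Ct * (6 * R) ^ 2 * (L + L)) := by gcongr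
        _ = 144 * Ct * R ^ 2 * (1 / L) := by
            field_simp
            ring
    -- thin annuli
    have ht0 : 0 ≤ R * (E - 1) := by
      apply mul_nonneg hR0.le
      linarith
    have ht1 : R * (E - 1) ≤ 2 * R * (1 / h) := by nlinarith
    have ht2 : R * (E - 1) ≤ 2 * R := by nlinarith
    have hA1 : ∑ n ∈ A, (if ab n ≤ R * E then (8 : ℝ) else 0) ≤
        8 * (Ch * (4 * R) * (2 * R * (1 / h) + 1)) := by
      rw [← Finset.sum_filter, Finset.sum_const, nsmul_eq_mul]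
      have h1 := hth R (R * (E - 1)) hR0.le ht0
      have h2 : R + R * (E - 1) = R * E := by ring
      rw [h2] at h1
      have h3 : ((A.filter (fun n => ab n ≤ R * E)).card : ℝ) ≤ ((ann R (R * E)).card : ℝ) := by
        apply Nat.cast_le.2
        apply Finset.card_le_card
        intro n hn
        rw [Finset.mem_filter, hA, mem_ann] at hn
        rw [mem_ann]
        exact ⟨hn.1.1, hn.1.2.1, hn.2⟩
      have h4 : (R * E + 1) * (R * (E - 1) + 1) ≤ (4 * R) * (2 * R * (1 / h) + 1) := by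
        apply mul_le_mul _ _ (by linarith) (by linarith)
        · nlinarith
        · linarith
      calc _ ≤ (Ch * (R * E + 1) * (R * (E - 1) + 1)) * 8 := by linarith
        _ = 8 * (Ch * ((R * E + 1) * (R * (E - 1) + 1))) := by ring
        _ ≤ 8 * (Ch * ((4 * R) * (2 * R * (1 / h) + 1))) := by gcongr
        _ = _ := by ring
    have hA2 : ∑ n ∈ A, (if 2 * R < ab n then (8 : ℝ) else 0) ≤
        8 * (Ch * (7 * R) * (4 * R * (1 / h) + 1)) := by
      rw [← Finset.sum_filter, Finset.sum_const, nsmul_eq_mul]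
      have h1 := hth (2 * R) (2 * (R * (E - 1))) (by linarith) (by linarith)
      have h2 : 2 * R + 2 * (R * (E - 1)) = 2 * R * E := by ring
      rw [h2] at h1
      have h3 : ((A.filter (fun n => 2 * R < ab n)).card : ℝ) ≤
          ((ann (2 * R) (2 * R * E)).card : ℝ) := by
        apply Nat.cast_le.2
        apply Finset.card_le_card
        intro n hn
        rw [Finset.mem_filter, hA, mem_ann] at hn
        rw [mem_ann]
        exact ⟨hn.1.1, hn.2, hn.1.2.2⟩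
      have h4 : (2 * R * E + 1) * (2 * (R * (E - 1)) + 1) ≤ (7 * R) * (4 * R * (1 / h) + 1) := by
        apply mul_le_mul _ _ (by linarith) (by linarith)
        · nlinarith
        · linarith
      calc _ ≤ (Ch * (2 * R * E + 1) * (2 * (R * (E - 1)) + 1)) * 8 := by linarith
        _ = 8 * (Ch * ((2 * R * E + 1) * (2 * (R * (E - 1)) + 1))) := by ring
        _ ≤ 8 * (Ch * ((7 * R) * (4 * R * (1 / h) + 1))) := by gcongr
        _ = _ := by ring
    have hRR : R = R ^ 2 * (1 / R) := by field_simp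
    have hfin : 144 * Ct * R ^ 2 * (1 / L) + (8 * (Ch * (4 * R) * (2 * R * (1 / h) + 1)) +
        8 * (Ch * (7 * R) * (4 * R * (1 / h) + 1))) ≤
        (144 * Ct + 288 * Ch) * R ^ 2 * (1 / L + 1 / h + 1 / R) := by
      have e1 : 8 * (Ch * (4 * R) * (2 * R * (1 / h) + 1)) +
        8 * (Ch * (7 * R) * (4 * R * (1 / h) + 1)) =
        288 * Ch * R ^ 2 * (1 / h) + 88 * Ch * R := by ring
      rw [e1]
      have e2 : 88 * Ch * R = 88 * Ch * (R ^ 2 * (1 / R)) := by rw [← hRR]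
      rw [e2]
      have p1 : 0 ≤ 144 * Ct * R ^ 2 * (1 / h) := by positivity
      have p2 : 0 ≤ 144 * Ct * R ^ 2 * (1 / R) := by positivity
      have p3 : 0 ≤ 288 * Ch * R ^ 2 * (1 / L) := by positivity
      have p4 : 0 ≤ Ch * (R ^ 2 * (1 / R)) := by positivity
      nlinarith
    linarith

theorem energy_le : ∃ C : ℝ, 0 < C ∧ ∀ (f : GaussianInt → ℂ), CM f → ∀ (h v0 v1 M : ℕ) (R : ℝ),
    1 ≤ h → v0 < v1 → Real.exp (2 * v1 / h) ≤ R → 1 ≤ Ls (rng h v0 v1) → 1 ≤ M → (M : ℝ) ≤ R →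
    ∀ T ⊆ fr M, ∑ c ∈ T, ‖FR f R c‖ ^ 2 ≤
      2 * ∑ c ∈ T, (∑ v ∈ Finset.Ico v0 v1, ‖Qv f h v c‖ *
        ‖FR f (R * Real.exp (-((v : ℝ) / h))) c‖) ^ 2 +
        C * R ^ 4 * (1 / Ls (rng h v0 v1) + 1 / h + 1 / R) := by
  obtain ⟨Cd, hCd, hd⟩ := decomp
  obtain ⟨Cm, hCm, hm⟩ := mvt
  refine ⟨72 * Cm * Cd, by positivity, ?_⟩
  intro f hf h v0 v1 M R hh hv hR hL hM hMR T hT
  obtain ⟨e, he1, he2⟩ := hd f hf h v0 v1 R hh hv hR hL
  have hh0 : (0 : ℝ) < h := by exact_mod_cast hh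
  have hh1 : (1 : ℝ) ≤ h := by exact_mod_cast hh
  have hR1 : 1 ≤ R := by
    refine le_trans ?_ hR
    rw [← Real.exp_zero]
    apply Real.exp_le_exp.2
    positivity
  have hR0 : 0 < R := by linarith
  set L := Ls (rng h v0 v1) with hLdef
  have hL0 : 0 < L := by linarith
  set E := Real.exp (1 / (h : ℝ)) with hE
  have hE1 : 1 ≤ E := by
    rw [hE, ← Real.exp_zero]
    apply Real.exp_le_exp.2
    positivity
  have hinv : 1 / (h : ℝ) ≤ 1 := by rw [div_le_one hh0]; exact hh1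
  have hE3 : E ≤ 3 := by
    have : Real.exp (1 / (h : ℝ)) ≤ Real.exp 1 := Real.exp_le_exp.2 hinv
    linarith [Real.exp_one_lt_d9]
  have hpt : ∀ c ∈ T, ‖FR f R c‖ ^ 2 ≤
      2 * (∑ v ∈ Finset.Ico v0 v1, ‖Qv f h v c‖ *
        ‖FR f (R * Real.exp (-((v : ℝ) / h))) c‖) ^ 2 +
      2 * ‖∑ n ∈ ann R (2 * R * E), e n * ch c.1 c.2 n‖ ^ 2 := by
    intro c _
    rw [he1 c]
    set a := ((1 / L : ℝ) : ℂ) * ∑ v ∈ Finset.Ico v0 v1,
        Qv f h v c * FR f (R * Real.exp (-((v : ℝ) / h))) c with ha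
    set b := ∑ n ∈ ann R (2 * R * E), e n * ch c.1 c.2 n with hb
    set s := ∑ v ∈ Finset.Ico v0 v1, ‖Qv f h v c‖ *
        ‖FR f (R * Real.exp (-((v : ℝ) / h))) c‖ with hs
    have h1 : ‖a‖ ≤ s := by
      rw [ha, norm_mul, Complex.norm_real, Real.norm_of_nonneg (by positivity)]
      have h2 : ‖∑ v ∈ Finset.Ico v0 v1,
        Qv f h v c * FR f (R * Real.exp (-((v : ℝ) / h))) c‖ ≤ s := by
        refine (norm_sum_le _ _).trans (le_of_eq ?_)
        rw [hs]
        exact Finset.sum_congr rfl fun v _ => norm_mul _ _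
      have h3 : 1 / L ≤ 1 := by rw [div_le_one hL0]; exact hL
      have h4 := norm_nonneg (∑ v ∈ Finset.Ico v0 v1,
        Qv f h v c * FR f (R * Real.exp (-((v : ℝ) / h))) c)
      calc 1 / L * _ ≤ 1 * _ := mul_le_mul_of_nonneg_right h3 h4
        _ ≤ s := by rw [one_mul]; exact h2
    have h2 : ‖a + b‖ ≤ s + ‖b‖ := (norm_add_le a b).trans (by linarith)
    calc ‖a + b‖ ^ 2 ≤ (s + ‖b‖) ^ 2 := pow_le_pow_left₀ (norm_nonneg _) h2 2
      _ ≤ 2 * s ^ 2 + 2 * ‖b‖ ^ 2 := by nlinarith [sq_nonneg (s - ‖b‖)]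
  refine (Finset.sum_le_sum hpt).trans ?_
  rw [Finset.sum_add_distrib, ← Finset.mul_sum, ← Finset.mul_sum]
  have h1 : ∑ c ∈ T, ‖∑ n ∈ ann R (2 * R * E), e n * ch c.1 c.2 n‖ ^ 2 ≤
      Cm * (2 * R * E) ^ 2 * ∑ n ∈ ann R (2 * R * E), ‖e n‖ ^ 2 := by
    refine le_trans ?_ (hm M R (2 * R * E) e hM hMR (by nlinarith))
    apply Finset.sum_le_sum_of_subset_of_nonneg hT
    intro c _ _
    positivity
  have h2 : Cm * (2 * R * E) ^ 2 * ∑ n ∈ ann R (2 * R * E), ‖e n‖ ^ 2 ≤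
      36 * Cm * Cd * R ^ 4 * (1 / L + 1 / h + 1 / R) := by
    have h3 : (2 * R * E) ^ 2 ≤ (6 * R) ^ 2 := by
      apply pow_le_pow_left₀ (by positivity)
      nlinarith
    calc Cm * (2 * R * E) ^ 2 * ∑ n ∈ ann R (2 * R * E), ‖e n‖ ^ 2 ≤
        Cm * (6 * R) ^ 2 * (Cd * R ^ 2 * (1 / L + 1 / h + 1 / R)) := by
          apply mul_le_mul _ he2 (by positivity) (by positivity)
          gcongr
      _ = _ := by ring
  linarith

end Pool.Agent.MRG
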