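import Pool.Agent.MRG.Thin

/-!
# Module Dir: few lattice points in bad directions

`Re (c/g^d) = |c| |g|^(-d) cos (arg c - d arg g)`.  `|cos x| < η` implies that `x` is within `2η` (`η ≤ 1`: `|sin y| ≥ 2|y|/π`) of `π/2 + πℤ`, so `arg g` lies in one of at most `2d + 2`
arcs of length `≤ 4η`.  A sector of the disc `|z| ≤ Y` with angle `β` contains at most `C (β Y² + Y)` lattice points: cover it by a
rectangle-like strip argument, or count: the unit squares around these points lie in the sector thickened by `2`, whose area is `≤ C (β Y² + Y)`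
(`Y ≥ 1`); or elementary: by symmetry (rotations by `i`, which permute lattice points) assume the middle direction is within `π/4` of the real axis and
`β` small; then for each `a` the admissible `b` lie in an interval of length `≤ C β |a|`, so there are at most `Cβ|a| + 1` of them; `|a| ≤ Y`.
-/

set_option autoImplicit false

namespace Pool.Agent.MRG

open Pool.Agent.GaussPret

/-- integers in an interval of length `L` -/
lemma card_int_le (s : Finset ℤ) (x L : ℝ) (hL : 0 ≤ L)
    (h : ∀ n ∈ s, x ≤ (n : ℝ) ∧ (n : ℝ) ≤ x + L) : (s.card : ℝ) ≤ L + 1 := by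
  have hsub : s ⊆ Finset.Icc ⌈x⌉ ⌊x + L⌋ := by
    intro n hn
    rw [Finset.mem_Icc]
    exact ⟨Int.ceil_le.2 (h n hn).1, Int.le_floor.2 (h n hn).2⟩
  have h1 := Finset.card_le_card hsub
  rw [Int.card_Icc] at h1
  have h2 : ((⌊x + L⌋ + 1 - ⌈x⌉).toNat : ℝ) ≤ L + 1 := by
    rcases le_total 0 (⌊x + L⌋ + 1 - ⌈x⌉) with h3 | h3
    · have h4 : (((⌊x + L⌋ + 1 - ⌈x⌉).toNat : ℤ) : ℝ) = ((⌊x + L⌋ + 1 - ⌈x⌉ : ℤ) : ℝ) := by
        rw [Int.toNat_of_nonneg h3]
      have h5 : (((⌊x + L⌋ + 1 - ⌈x⌉).toNat : ℤ) : ℝ) = ((⌊x + L⌋ + 1 - ⌈x⌉).toNat : ℝ) := by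
        norm_cast
      rw [← h5, h4]
      push_cast
      have := Int.floor_le (x + L)
      have := Int.le_ceil x
      linarith
    · rw [Int.toNat_of_nonpos h3]
      push_cast
      linarith
  have h6 : (s.card : ℝ) ≤ ((⌊x + L⌋ + 1 - ⌈x⌉).toNat : ℝ) := by exact_mod_cast h1
  linarith

/-- lattice points in a strip -/
lemma card_strip_aux (S : Finset (ℤ × ℤ)) (Y δ α β : ℝ) (hY : 1 ≤ Y) (hδ : 0 ≤ δ)
    (hα : 1 / 2 ≤ |α|) (h1 : ∀ p ∈ S, |(p.1 : ℝ)| ≤ Y)
    (h2 : ∀ p ∈ S, |(p.2 : ℝ) * α + (p.1 : ℝ) * β| ≤ δ) :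
    (S.card : ℝ) ≤ 3 * Y * (4 * δ + 1) := by
  classical
  have hα0 : α ≠ 0 := by
    intro h0
    rw [h0, abs_zero] at hα
    linarith
  set s1 : Finset ℤ := S.image Prod.fst with hs1
  have hc1 : (s1.card : ℝ) ≤ 2 * Y + 1 := by
    apply card_int_le s1 (-Y) (2 * Y) (by linarith)
    intro n hn
    rw [hs1, Finset.mem_image] at hn
    obtain ⟨p, hp, rfl⟩ := hn
    have := abs_le.1 (h1 p hp)
    exact ⟨this.1, by linarith [this.2]⟩
  have hfib : ∀ a ∈ s1, ((S.filter fun p => p.1 = a).card : ℝ) ≤ 4 * δ + 1 := by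
    intro a _
    have hinj : Set.InjOn Prod.snd ((S.filter fun p => p.1 = a : Finset (ℤ × ℤ)) : Set (ℤ × ℤ)) := by
      intro p hp q hq hpq
      rw [Finset.mem_coe, Finset.mem_filter] at hp hq
      exact Prod.ext (hp.2.trans hq.2.symm) hpq
    rw [← Finset.card_image_of_injOn hinj]
    apply card_int_le _ (-(a * β) / α - 2 * δ) (4 * δ) (by linarith)
    intro n hn
    rw [Finset.mem_image] at hn
    obtain ⟨p, hp, rfl⟩ := hn
    rw [Finset.mem_filter] at hp
    have h3 := h2 p hp.1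
    rw [hp.2] at h3
    have h4 : |(p.2 : ℝ) - -(a * β) / α| ≤ 2 * δ := by
      have h5 : (p.2 : ℝ) - -(a * β) / α = ((p.2 : ℝ) * α + a * β) / α := by
        field_simp
        ring
      rw [h5, abs_div, div_le_iff₀ (abs_pos.2 hα0)]
      nlinarith
    have h6 := abs_le.1 h4
    exact ⟨by linarith [h6.1], by linarith [h6.2]⟩
  have hsum : (S.card : ℝ) = ∑ a ∈ s1, ((S.filter fun p => p.1 = a).card : ℝ) := by
    have := Finset.card_eq_sum_card_fiberwise (s := S) (t := s1) (f := Prod.fst)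
      (fun p hp => Finset.mem_image_of_mem _ hp)
    exact_mod_cast this
  rw [hsum]
  calc ∑ a ∈ s1, ((S.filter fun p => p.1 = a).card : ℝ) ≤ ∑ _a ∈ s1, (4 * δ + 1) :=
        Finset.sum_le_sum hfib
    _ = s1.card * (4 * δ + 1) := by rw [Finset.sum_const, nsmul_eq_mul]
    _ ≤ (2 * Y + 1) * (4 * δ + 1) := mul_le_mul_of_nonneg_right hc1 (by linarith)
    _ ≤ 3 * Y * (4 * δ + 1) := mul_le_mul_of_nonneg_right (by linarith) (by linarith)

lemma abs_re_le' {Y : ℝ} {g : GaussianInt} (h : ab g ≤ Y) : |(g.re : ℝ)| ≤ Y := by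
  refine le_trans ?_ h
  have := Complex.abs_re_le_norm (GaussianInt.toComplex g)
  simpa [ab] using this

lemma abs_im_le' {Y : ℝ} {g : GaussianInt} (h : ab g ≤ Y) : |(g.im : ℝ)| ≤ Y := by
  refine le_trans ?_ h
  have := Complex.abs_im_le_norm (GaussianInt.toComplex g)
  simpa [ab] using this

open scoped Classical in
/-- Gaussian integers in a strip -/
lemma card_strip (Y δ θ : ℝ) (hY : 1 ≤ Y) (hδ : 0 ≤ δ) :
    (((ball Y).filter fun g : GaussianInt =>
      |(g.im : ℝ) * Real.cos θ + (g.re : ℝ) * (-Real.sin θ)| ≤ δ).card : ℝ) ≤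
      3 * Y * (4 * δ + 1) := by
  set B := (ball Y).filter fun g : GaussianInt =>
      |(g.im : ℝ) * Real.cos θ + (g.re : ℝ) * (-Real.sin θ)| ≤ δ with hB
  have hcs : 1 / 2 ≤ |Real.cos θ| ∨ 1 / 2 ≤ |Real.sin θ| := by
    by_contra hcon
    push Not at hcon
    have h1 := Real.sin_sq_add_cos_sq θ
    have h2 : Real.cos θ ^ 2 < 1 / 4 := by
      rw [← sq_abs]
      nlinarith [abs_nonneg (Real.cos θ)]
    have h3 : Real.sin θ ^ 2 < 1 / 4 := by
      rw [← sq_abs]
      nlinarith [abs_nonneg (Real.sin θ)]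
    linarith
  rcases hcs with hc | hc
  · have hinj : Function.Injective (fun g : GaussianInt => (g.re, g.im)) := by
      intro g g' h
      rw [Prod.mk.injEq] at h
      exact Zsqrtd.ext h.1 h.2
    rw [← Finset.card_image_of_injective B hinj]
    apply card_strip_aux _ Y δ (Real.cos θ) (-Real.sin θ) hY hδ hc
    · intro p hp
      obtain ⟨g, hg, rfl⟩ := Finset.mem_image.1 hp
      exact abs_re_le' (mem_ball'.1 (Finset.mem_filter.1 hg).1).2
    · intro p hp
      obtain ⟨g, hg, rfl⟩ := Finset.mem_image.1 hp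
      exact (Finset.mem_filter.1 hg).2
  · have hinj : Function.Injective (fun g : GaussianInt => (g.im, g.re)) := by
      intro g g' h
      rw [Prod.mk.injEq] at h
      exact Zsqrtd.ext h.2 h.1
    rw [← Finset.card_image_of_injective B hinj]
    apply card_strip_aux _ Y δ (-Real.sin θ) (Real.cos θ) hY hδ (by rwa [abs_neg])
    · intro p hp
      obtain ⟨g, hg, rfl⟩ := Finset.mem_image.1 hp
      exact abs_im_le' (mem_ball'.1 (Finset.mem_filter.1 hg).1).2
    · intro p hp
      obtain ⟨g, hg, rfl⟩ := Finset.mem_image.1 hp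
      have := (Finset.mem_filter.1 hg).2
      rw [add_comm] at this
      exact this

/-- small cosine: close to `π/2 + πℤ` -/
lemma exists_near {x η : ℝ} (h : |Real.cos x| < η) :
    ∃ k : ℤ, |x - (Real.pi / 2 + k * Real.pi)| ≤ 2 * η ∧ |(k : ℝ)| ≤ |x| / Real.pi + 1 := by
  have hpi := Real.pi_pos
  refine ⟨⌊x / Real.pi⌋, ?_, ?_⟩
  · set k := ⌊x / Real.pi⌋ with hk
    have h1 : (k : ℝ) ≤ x / Real.pi := Int.floor_le _
    have h2 : x / Real.pi < k + 1 := Int.lt_floor_add_one _
    rw [le_div_iff₀ hpi] at h1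
    rw [div_lt_iff₀ hpi] at h2
    set y := x - (Real.pi / 2 + k * Real.pi) with hy
    have hy1 : |y| ≤ Real.pi / 2 := by
      rw [abs_le]
      constructor <;> rw [hy] <;> linarith
    have hsin : |Real.sin y| = |Real.cos x| := by
      have hx : x = (y + Real.pi / 2) + k * Real.pi := by rw [hy]; ring
      rw [hx, Real.cos_add_int_mul_pi, Real.cos_add_pi_div_two, abs_mul, abs_neg]
      rw [abs_zpow, abs_neg, abs_one, one_zpow, one_mul]
    have h3 := Real.mul_abs_le_abs_sin hy1
    rw [hsin] at h3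
    have h4 : 2 / Real.pi * |y| < η := h3.trans_lt h
    have h5 : |y| < η * (Real.pi / 2) := by
      have : |y| = 2 / Real.pi * |y| * (Real.pi / 2) := by
        field_simp
      rw [this]
      exact mul_lt_mul_of_pos_right h4 (by positivity)
    have hη : 0 < η := (abs_nonneg _).trans_lt h
    nlinarith [Real.pi_lt_four]
  · have h1 : |(⌊x / Real.pi⌋ : ℝ) - x / Real.pi| ≤ 1 := by
      rw [abs_le]
      constructor
      · have := Int.lt_floor_add_one (x / Real.pi)
        linarith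
      · have := Int.floor_le (x / Real.pi)
        linarith
    have h2 : |(⌊x / Real.pi⌋ : ℝ)| ≤ |(⌊x / Real.pi⌋ : ℝ) - x / Real.pi| + |x / Real.pi| := by
      have := abs_add_le ((⌊x / Real.pi⌋ : ℝ) - x / Real.pi) (x / Real.pi)
      simpa using this
    rw [abs_div, abs_of_pos hpi] at h2
    linarith

lemma toC_polar (g : GaussianInt) : GaussianInt.toComplex g =
    (ab g : ℂ) * Complex.exp ((Complex.arg (GaussianInt.toComplex g) : ℂ) * Complex.I) :=
  (Complex.norm_mul_exp_arg_mul_I _).symm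

lemma re_div_pow (d : ℕ) (c : ℂ) (g : GaussianInt) (hg : g ≠ 0) :
    (c / GaussianInt.toComplex g ^ d).re =
      ‖c‖ / ab g ^ d * Real.cos (Complex.arg c - d * Complex.arg (GaussianInt.toComplex g)) := by
  have hab : (ab g : ℂ) ≠ 0 := by exact_mod_cast (ab_pos hg).ne'
  have e1 : c / GaussianInt.toComplex g ^ d = ((‖c‖ / ab g ^ d : ℝ) : ℂ) *
      Complex.exp (((Complex.arg c - d * Complex.arg (GaussianInt.toComplex g) : ℝ) : ℂ) *
        Complex.I) := by
    conv_lhs => rw [toC_polar g, ← Complex.norm_mul_exp_arg_mul_I c]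
    rw [mul_pow, ← Complex.exp_nat_mul, mul_div_mul_comm, ← Complex.exp_sub]
    push_cast
    congr 2
    ring
  rw [e1, Complex.re_ofReal_mul, Complex.exp_ofReal_mul_I_re]

open scoped Classical in
theorem card_dir (d : ℕ) (hd : 1 ≤ d) : ∃ C : ℝ, 0 < C ∧ ∀ (Y η : ℝ) (c : ℂ), 1 ≤ Y → 0 < η → η ≤ 1 → c ≠ 0 →
    (((ball Y).filter fun g => |(c / GaussianInt.toComplex g ^ d).re| < η * ‖c‖ / ab g ^ d).card : ℝ) ≤
      C * (η * Y ^ 2 + Y) := by
  refine ⟨(2 * (d + 2) + 1) * 24, by positivity, ?_⟩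
  intro Y η c hY hη hη1 hc
  have hd0 : (0 : ℝ) < d := by exact_mod_cast hd
  have hd1 : (1 : ℝ) ≤ d := by exact_mod_cast hd
  set K : Finset ℤ := Finset.Icc (-((d : ℤ) + 2)) (d + 2) with hK
  set th : ℤ → ℝ := fun k => (Complex.arg c - (Real.pi / 2 + k * Real.pi)) / d with hth
  have hsub : ((ball Y).filter fun g =>
      |(c / GaussianInt.toComplex g ^ d).re| < η * ‖c‖ / ab g ^ d) ⊆
      K.biUnion fun k => (ball Y).filter fun g : GaussianInt =>
        |(g.im : ℝ) * Real.cos (th k) + (g.re : ℝ) * (-Real.sin (th k))| ≤ 2 * η * Y := by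
    intro g hg
    rw [Finset.mem_filter, mem_ball'] at hg
    obtain ⟨⟨hg0, hgY⟩, hg2⟩ := hg
    have hab := ab_pos hg0
    set θ := Complex.arg (GaussianInt.toComplex g) with hθ
    rw [re_div_pow d c g hg0, abs_mul, abs_of_nonneg (by positivity), ← hθ] at hg2
    have hcos : |Real.cos (Complex.arg c - d * θ)| < η := by
      have h1 : 0 < ‖c‖ / ab g ^ d := by
        have := norm_pos_iff.2 hc
        positivity
      have h2 : η * ‖c‖ / ab g ^ d = ‖c‖ / ab g ^ d * η := by ring
      rw [h2] at hg2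
      exact lt_of_mul_lt_mul_left hg2 h1.le
    obtain ⟨k, hk1, hk2⟩ := exists_near hcos
    rw [Finset.mem_biUnion]
    refine ⟨k, ?_, ?_⟩
    · have h1 : |Complex.arg c - d * θ| ≤ (d + 1) * Real.pi := by
        have a1 := Complex.abs_arg_le_pi c
        have a2 := Complex.abs_arg_le_pi (GaussianInt.toComplex g)
        have a3 : |Complex.arg c - d * θ| ≤ |Complex.arg c| + |d * θ| := abs_sub _ _
        rw [abs_mul, abs_of_pos hd0] at a3
        have a4 : (d : ℝ) * |θ| ≤ d * Real.pi := mul_le_mul_of_nonneg_left a2 hd0.le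
        linarith
      have h2 : |(k : ℝ)| ≤ (d : ℝ) + 2 := by
        have : |Complex.arg c - d * θ| / Real.pi ≤ d + 1 := by
          rw [div_le_iff₀ Real.pi_pos]
          exact h1
        linarith
      rw [hK, Finset.mem_Icc]
      have h3 := abs_le.1 h2
      constructor
      · have : (-((d : ℝ) + 2)) ≤ k := h3.1
        exact_mod_cast this
      · have : (k : ℝ) ≤ (d : ℝ) + 2 := h3.2
        exact_mod_cast this
    · rw [Finset.mem_filter, mem_ball']
      refine ⟨⟨hg0, hgY⟩, ?_⟩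
      have h1 : |θ - th k| ≤ 2 * η := by
        have e : θ - th k = -((Complex.arg c - d * θ) - (Real.pi / 2 + k * Real.pi)) / d := by
          rw [hth]
          field_simp
          ring
        rw [e, abs_div, abs_neg, abs_of_pos hd0, div_le_iff₀ hd0]
        nlinarith
      have hre : (g.re : ℝ) = ab g * Real.cos θ := by
        have := congrArg Complex.re (toC_polar g)
        rw [Complex.re_ofReal_mul, Complex.exp_ofReal_mul_I_re] at this
        simpa using this
      have him : (g.im : ℝ) = ab g * Real.sin θ := by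
        have := congrArg Complex.im (toC_polar g)
        rw [Complex.im_ofReal_mul, Complex.exp_ofReal_mul_I_im] at this
        simpa using this
      have h2 : (g.im : ℝ) * Real.cos (th k) + (g.re : ℝ) * (-Real.sin (th k)) =
          ab g * Real.sin (θ - th k) := by
        rw [hre, him, Real.sin_sub]
        ring
      rw [h2, abs_mul, abs_of_pos hab]
      have h3 : |Real.sin (θ - th k)| ≤ |θ - th k| := Real.abs_sin_le_abs
      calc ab g * |Real.sin (θ - th k)| ≤ Y * (2 * η) :=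
            mul_le_mul hgY (h3.trans h1) (abs_nonneg _) (by linarith)
        _ = 2 * η * Y := by ring
  have hKc : (K.card : ℝ) = 2 * (d + 2) + 1 := by
    rw [hK, Int.card_Icc]
    have : ((d : ℤ) + 2 + 1 - -((d : ℤ) + 2)).toNat = 2 * (d + 2) + 1 := by omega
    rw [this]
    push_cast
    ring
  calc (((ball Y).filter fun g =>
        |(c / GaussianInt.toComplex g ^ d).re| < η * ‖c‖ / ab g ^ d).card : ℝ)
      ≤ ((K.biUnion fun k => (ball Y).filter fun g : GaussianInt =>
        |(g.im : ℝ) * Real.cos (th k) + (g.re : ℝ) * (-Real.sin (th k))| ≤ 2 * η * Y).card : ℝ) := by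
        exact_mod_cast Finset.card_le_card hsub
    _ ≤ ∑ k ∈ K, (((ball Y).filter fun g : GaussianInt =>
        |(g.im : ℝ) * Real.cos (th k) + (g.re : ℝ) * (-Real.sin (th k))| ≤ 2 * η * Y).card : ℝ) := by
        exact_mod_cast Finset.card_biUnion_le
    _ ≤ ∑ _k ∈ K, 3 * Y * (4 * (2 * η * Y) + 1) :=
        Finset.sum_le_sum fun k _ => card_strip Y (2 * η * Y) (th k) hY (by positivity)
    _ = (2 * (d + 2) + 1) * (24 * (η * Y ^ 2) + 3 * Y) := by
        rw [Finset.sum_const, nsmul_eq_mul, hKc]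
        ring
    _ ≤ (2 * (d + 2) + 1) * (24 * (η * Y ^ 2 + Y)) := by
        apply mul_le_mul_of_nonneg_left _ (by positivity)
        linarith
    _ = (2 * (d + 2) + 1) * 24 * (η * Y ^ 2 + Y) := by ring

end Pool.Agent.MRG
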