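import Pool.Agent.MRG.EnergyStep

/-!
# The energy theorem

`∑_{|c| < η R} |FR f R c|² ≤ ε R⁴` for completely multiplicative `f` all of whose twisted sums are small.
-/

set_option autoImplicit false

open Filter Topology

namespace Pool.Agent.MRG

open Pool.Agent.GaussPret

theorem stepF {f : GaussianInt → ℂ} (hf : CM f) {a ε : ℝ} (ha : 0 < a) (ha1 : a ≤ 1) (hε : 0 < ε)
    {h0 s K : ℕ} (hh0 : 1 ≤ h0) (hε1 : 1 / (h0 : ℝ) ≤ ε) (hs : 16 ≤ s) (hK : 3 ≤ K)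
    (hKl : 2 * (Real.log 4 + cE) + 2 ≤ Real.log K) (hKε : 2 / ε ≤ Real.log K) (J : ℕ)
    {y R : ℝ} (hy1 : 1 ≤ y) (hyR : Real.log R = y ^ 4) (hR0 : 0 < R)
    (h1 : (pj s J : ℝ) ^ 2 ≤ y) (h2 : (2 : ℝ) ^ (J + 1) ≤ y)
    (h3 : (h0 : ℝ) ^ 3 * y ^ 10 * Real.exp (-(a / K ^ 2) * y ^ 3 + 2 * y) ≤ ε)
    (h4 : 2 * (K : ℝ) ^ 2 ≤ y)
    (h5 : Real.log (cB * (y ^ 4 + 1)) ≤ a / 2 ^ (J + 1) * pj s J)
    {M : ℕ} (hM : 1 ≤ M) (hMR : (M : ℝ) ≤ R) (T : Finset (ℤ × ℤ)) (hT : T ⊆ fr M)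
    (hc : ∀ c ∈ T, Sm f h0 (vlo K h0 R) (vhi K h0 R) a c ∧
      ¬ Sm f (hj h0 J) (lo h0 s J) (hi h0 s J) (aj a J) c) :
    ∑ c ∈ T, ‖FR f R c‖ ^ 2 ≤ cB * R ^ 4 * (3 * ε + 1 / R) := by
  have hh0' : (1 : ℝ) ≤ h0 := by exact_mod_cast hh0
  have hh0p : (0 : ℝ) < h0 := by linarith
  have hK3 : (3 : ℝ) ≤ K := by exact_mod_cast hK
  have hKp : (0 : ℝ) < K := by linarith
  have hyp : 0 < y := by linarith
  have hX : y ≤ y ^ 4 := by
    calc y = y ^ 1 := (pow_one y).symm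
      _ ≤ y ^ 4 := pow_le_pow_right₀ hy1 (by norm_num)
  have hX2 : 2 * (K : ℝ) ^ 2 ≤ y ^ 4 := h4.trans hX
  -- the two ends
  obtain ⟨Z, hZ⟩ : ∃ Z : ℝ, Z = h0 * y ^ 4 / K ^ 2 := ⟨_, rfl⟩
  have hZ2 : 2 * (h0 : ℝ) ≤ Z := by
    rw [hZ, le_div_iff₀ (by positivity)]
    nlinarith
  have hlo0 : Z ≤ (vlo K h0 R : ℝ) := by
    rw [vlo, hyR, hZ]; exact Nat.le_ceil _
  have hlo1 : (vlo K h0 R : ℝ) < Z + 1 := by
    rw [vlo, hyR, ← hZ]; exact Nat.ceil_lt_add_one (by linarith)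
  have hKZ : (h0 : ℝ) * y ^ 4 / K = K * Z := by
    rw [hZ]; field_simp
  have hhi0 : (vhi K h0 R : ℝ) ≤ K * Z := by
    rw [vhi, hyR, hKZ]; exact Nat.floor_le (by nlinarith)
  have hhi1 : K * Z - 1 < (vhi K h0 R : ℝ) := by
    rw [vhi, hyR, hKZ]; exact Nat.sub_one_lt_floor _
  have hlt : vlo K h0 R < vhi K h0 R := by
    have : (vlo K h0 R : ℝ) < vhi K h0 R := by nlinarith
    exact_mod_cast this
  have hhl : h0 ≤ vlo K h0 R := by
    have : (h0 : ℝ) ≤ vlo K h0 R := by linarith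
    exact_mod_cast this
  have hlop : (0 : ℝ) < vlo K h0 R := by linarith
  have hratio : (K : ℝ) / 4 ≤ (vhi K h0 R : ℝ) / vlo K h0 R := by
    rw [div_le_div_iff₀ (by norm_num) hlop]
    nlinarith
  have hLs : Real.log K / 2 + 1 ≤ Ls (rng h0 (vlo K h0 R) (vhi K h0 R)) := by
    have e1 := Ls_lower hh0 hhl hlt.le
    have e2 : Real.log ((K : ℝ) / 4) ≤ Real.log ((vhi K h0 R : ℝ) / vlo K h0 R) :=
      Real.log_le_log (by positivity) hratio
    rw [Real.log_div hKp.ne' (by norm_num)] at e2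
    linarith
  have hlogK : 0 < Real.log K := Real.log_pos (by linarith)
  have hLs1 : 1 ≤ Ls (rng h0 (vlo K h0 R) (vhi K h0 R)) := by linarith
  have hLs2 : 1 / Ls (rng h0 (vlo K h0 R) (vhi K h0 R)) ≤ ε := by
    rw [div_le_iff₀ (by linarith)]
    rw [div_le_iff₀ hε] at hKε
    nlinarith
  have hv1 : (vhi K h0 R : ℝ) / h0 ≤ y ^ 4 / 3 := by
    rw [div_le_iff₀ hh0p]
    have : K * Z ≤ y ^ 4 / 3 * h0 := by
      rw [← hKZ, div_le_iff₀ hKp]
      have : 0 ≤ y ^ 4 * h0 := by positivity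
      nlinarith
    linarith
  have hRexp : Real.exp (y ^ 4) = R := by rw [← hyR, Real.exp_log hR0]
  have hRR : Real.exp (2 * (vhi K h0 R : ℝ) / h0) ≤ R := by
    refine le_trans (Real.exp_le_exp.2 ?_) hRexp.le
    rw [mul_div_assoc]
    have : 0 < y ^ 4 := by positivity
    linarith
  -- the old range
  have hpJ : (1 : ℝ) ≤ pj s J := by
    exact_mod_cast (show 1 ≤ pj s J from le_trans (by omega) (pj_ge (by omega) J))
  have hpJ2 : 2 ≤ pj s J := le_trans (by omega) (pj_ge (by omega) J)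
  have hjp : 1 ≤ hj h0 J := Nat.one_le_iff_ne_zero.2 (by
    rw [hj]; positivity)
  have hjp' : (0 : ℝ) < hj h0 J := by exact_mod_cast hjp
  have hltJ : lo h0 s J < hi h0 s J := by
    rw [lo, hi]
    apply Nat.mul_lt_mul_of_pos_left _ hjp
    nlinarith
  have hhlJ : hj h0 J ≤ lo h0 s J := by
    rw [lo]
    nlinarith
  have hw1 : ((hi h0 s J : ℕ) : ℝ) / hj h0 J = (pj s J : ℝ) ^ 2 := by
    rw [hi]
    push_cast
    field_simp
  have hw0 : ((lo h0 s J : ℕ) : ℝ) / hj h0 J = pj s J := by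
    rw [lo]
    push_cast
    field_simp
  have haJ : a - aj a J = a / 2 ^ (J + 1) := by rw [aj]; ring
  have hcond : Real.log (cB * ((vhi K h0 R : ℝ) / h0 + 1)) ≤
      (a - aj a J) * ((lo h0 s J : ℝ) / hj h0 J) := by
    rw [haJ, hw0]
    refine le_trans ?_ h5
    have := one_le_cB
    apply Real.log_le_log (by positivity)
    have h6 : (vhi K h0 R : ℝ) / h0 ≤ y ^ 4 := by
      have : 0 < y ^ 4 := by positivity
      linarith
    gcongr
  have e1 := propB.choose_spec.2 f hf (hj h0 J) (lo h0 s J) (hi h0 s J) h0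
    (vlo K h0 R) (vhi K h0 R) M R (aj a J) a hjp hhlJ hltJ hh0 hhl hlt (aj_pos ha _)
    (aj_lt ha _) ha1 hM hMR hRR hLs1 hcond T hT
    (fun c hcT => ⟨(hc c hcT).1, not_Sm (hc c hcT).2⟩)
  refine e1.trans ?_
  show cB * R ^ 4 * _ ≤ cB * R ^ 4 * _
  have hB := one_le_cB
  gcongr
  rw [hw1, haJ]
  have f1 : ((vhi K h0 R : ℝ) - vlo K h0 R) ^ 2 ≤ (h0 : ℝ) ^ 2 * y ^ 8 := by
    have g1 : (vhi K h0 R : ℝ) ≤ h0 * y ^ 4 := by
      rw [div_le_iff₀ hh0p] at hv1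
      have : 0 < y ^ 4 * h0 := by positivity
      linarith
    have g2 : (0 : ℝ) ≤ (vhi K h0 R : ℝ) - vlo K h0 R := by
      have : (vlo K h0 R : ℝ) < vhi K h0 R := by exact_mod_cast hlt
      linarith
    calc ((vhi K h0 R : ℝ) - vlo K h0 R) ^ 2 ≤ (h0 * y ^ 4) ^ 2 := by
          apply pow_le_pow_left₀ g2
          linarith
      _ = (h0 : ℝ) ^ 2 * y ^ 8 := by ring
  have f2 : ((hi h0 s J : ℕ) : ℝ) - ((lo h0 s J : ℕ) : ℝ) ≤ h0 * (y * y) := by
    have g1 : (0 : ℝ) ≤ ((lo h0 s J : ℕ) : ℝ) := Nat.cast_nonneg _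
    have g2 : ((hi h0 s J : ℕ) : ℝ) = h0 * (2 ^ J * (pj s J : ℝ) ^ 2) := by
      rw [hi, hj]; push_cast; ring
    have g3 : (2 : ℝ) ^ J ≤ y := by
      refine le_trans ?_ h2
      exact pow_le_pow_right₀ (by norm_num) (by omega)
    have g4 : (2 : ℝ) ^ J * (pj s J : ℝ) ^ 2 ≤ y * y := by gcongr
    have g5 : (h0 : ℝ) * (2 ^ J * (pj s J : ℝ) ^ 2) ≤ h0 * (y * y) := by gcongr
    linarith
  have f20 : 0 ≤ ((hi h0 s J : ℕ) : ℝ) - ((lo h0 s J : ℕ) : ℝ) := by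
    have : ((lo h0 s J : ℕ) : ℝ) ≤ ((hi h0 s J : ℕ) : ℝ) := by exact_mod_cast hltJ.le
    linarith
  have f3 : -(a / 2 ^ (J + 1) * ((vlo K h0 R : ℝ) / h0)) + 2 * a * (pj s J : ℝ) ^ 2 ≤
      -(a / (K : ℝ) ^ 2) * y ^ 3 + 2 * y := by
    have g1 : y ^ 4 / (K : ℝ) ^ 2 ≤ (vlo K h0 R : ℝ) / h0 := by
      rw [le_div_iff₀ hh0p]
      have : y ^ 4 / (K : ℝ) ^ 2 * h0 = Z := by rw [hZ]; ring
      linarith
    have g2 : a / (K : ℝ) ^ 2 * y ^ 3 ≤ a / 2 ^ (J + 1) * ((vlo K h0 R : ℝ) / h0) := by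
      calc a / (K : ℝ) ^ 2 * y ^ 3 = a / y * (y ^ 4 / (K : ℝ) ^ 2) := by field_simp
        _ ≤ a / 2 ^ (J + 1) * ((vlo K h0 R : ℝ) / h0) := by gcongr
    have g3 : 2 * a * (pj s J : ℝ) ^ 2 ≤ 2 * 1 * y := by gcongr
    linarith
  have f4 : ((vhi K h0 R : ℝ) - vlo K h0 R) ^ 2 *
      (((hi h0 s J : ℕ) : ℝ) - ((lo h0 s J : ℕ) : ℝ)) *
      Real.exp (-(a / 2 ^ (J + 1) * ((vlo K h0 R : ℝ) / h0)) + 2 * a * (pj s J : ℝ) ^ 2) ≤ ε := by
    calc _ ≤ ((h0 : ℝ) ^ 2 * y ^ 8) * (h0 * (y * y)) *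
          Real.exp (-(a / (K : ℝ) ^ 2) * y ^ 3 + 2 * y) := by gcongr
      _ = (h0 : ℝ) ^ 3 * y ^ 10 * Real.exp (-(a / K ^ 2) * y ^ 3 + 2 * y) := by ring
      _ ≤ ε := h3
  linarith

/-- the number of scales -/
theorem exists_J {a y : ℝ} (ha : 0 < a) {s : ℕ} (hs : 16 ≤ s) (hy : 1 ≤ y)
    (h1 : (s : ℝ) ^ 2 + (Real.log (cB * (y ^ 4 + 1)) / a) ^ 16 ≤ y)
    (h2 : 2 + Real.log (cB * (y ^ 4 + 1)) / a ≤ y) :
    ∃ J : ℕ, Real.log (cB * (y ^ 4 + 1)) ≤ a / 2 ^ (J + 1) * pj s J ∧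
      (pj s J : ℝ) ^ 2 ≤ y ∧ (2 : ℝ) ^ (J + 1) ≤ y := by
  classical
  obtain ⟨ℓ, hℓ⟩ : ∃ ℓ : ℝ, ℓ = Real.log (cB * (y ^ 4 + 1)) := ⟨_, rfl⟩
  rw [← hℓ] at h1 h2 ⊢
  have hℓ0 : 0 ≤ ℓ := by
    rw [hℓ]
    apply Real.log_nonneg
    have h3 := one_le_cB
    have h4 : 0 ≤ y ^ 4 := by positivity
    nlinarith
  have hpjc : ∀ i, (pj s i : ℝ) = (s : ℝ) ^ (4 ^ i) := fun i => by rw [pj]; push_cast; rfl
  have hex : ∃ j : ℕ, ℓ ≤ a / 2 ^ (j + 1) * pj s j := by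
    have h3 : Tendsto (fun j : ℕ => a * (8 : ℝ) ^ (j + 1)) atTop atTop := by
      apply Tendsto.const_mul_atTop ha
      exact (tendsto_pow_atTop_atTop_of_one_lt (by norm_num)).comp (tendsto_add_atTop_nat 1)
    obtain ⟨j, hj⟩ := (h3.eventually_ge_atTop ℓ).exists
    refine ⟨j, hj.trans ?_⟩
    rw [hpjc]
    have h4 := pow_scale hs j
    calc a * (8 : ℝ) ^ (j + 1) = a / 2 ^ (j + 1) * 2 ^ (4 * (j + 1)) := by
          have : (2 : ℝ) ^ (4 * (j + 1)) = 8 ^ (j + 1) * 2 ^ (j + 1) := by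
            rw [← mul_pow, pow_mul]; norm_num
          rw [this]
          field_simp
      _ ≤ a / 2 ^ (j + 1) * (s : ℝ) ^ (4 ^ j) := by gcongr
  refine ⟨Nat.find hex, Nat.find_spec hex, ?_⟩
  have hmin : ∀ i, i < Nat.find hex → ¬ ℓ ≤ a / 2 ^ (i + 1) * pj s i := fun i hi =>
    Nat.find_min hex hi
  rcases Nat.eq_zero_or_pos (Nat.find hex) with h0 | h0
  · rw [h0]
    constructor
    · rw [hpjc]
      have : 0 ≤ (ℓ / a) ^ 16 := by positivity
      simpa using by linarith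
    · have : 0 ≤ ℓ / a := by positivity
      norm_num
      linarith
  · obtain ⟨i, hi⟩ := Nat.exists_eq_add_of_le' h0
    have h3 := hmin i (by omega)
    rw [hi]
    obtain ⟨x, hx⟩ : ∃ x : ℝ, x = (pj s i : ℝ) := ⟨_, rfl⟩
    have hx2 : (2 : ℝ) ^ (4 * (i + 1)) ≤ x := by
      rw [hx, hpjc]; exact pow_scale hs i
    have hx4 : (pj s (i + 1) : ℝ) = x ^ 4 := by rw [pj_succ, hx]; push_cast; rfl
    have hxp : 0 < x := lt_of_lt_of_le (by positivity) hx2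
    have hsq : (2 : ℝ) ^ (i + 2) ≤ Real.sqrt x := by
      apply Real.le_sqrt_of_sq_le
      rw [← pow_mul]
      refine le_trans ?_ hx2
      exact pow_le_pow_right₀ (by norm_num) (by omega)
    have hss : Real.sqrt x * Real.sqrt x = x := Real.mul_self_sqrt hxp.le
    have hsp : 0 < Real.sqrt x := Real.sqrt_pos.2 hxp
    rw [← hx] at h3
    push Not at h3
    have h4 : Real.sqrt x ≤ ℓ / a := by
      rw [le_div_iff₀ ha]
      refine le_trans ?_ h3.le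
      rw [div_mul_eq_mul_div, le_div_iff₀ (by positivity)]
      have h5 : (2 : ℝ) ^ (i + 1) ≤ Real.sqrt x := by
        refine le_trans ?_ hsq
        exact pow_le_pow_right₀ (by norm_num) (by omega)
      calc Real.sqrt x * a * 2 ^ (i + 1) ≤ Real.sqrt x * a * Real.sqrt x := by gcongr
        _ = a * x := by rw [mul_right_comm, hss]; ring
    constructor
    · rw [hx4]
      have h6 : (x ^ 4) ^ 2 = Real.sqrt x ^ 16 := by
        rw [← hss]
        have : Real.sqrt (Real.sqrt x * Real.sqrt x) = Real.sqrt x := by rw [hss]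
        rw [this]
        ring
      rw [h6]
      have h7 : Real.sqrt x ^ 16 ≤ (ℓ / a) ^ 16 := pow_le_pow_left₀ hsp.le h4 16
      have h8 : (0 : ℝ) ≤ (s : ℝ) ^ 2 := by positivity
      linarith
    · calc (2 : ℝ) ^ (i + 1 + 1) = 2 ^ (i + 2) := by norm_num [add_assoc]
        _ ≤ Real.sqrt x := hsq
        _ ≤ ℓ / a := h4
        _ ≤ y := by linarith

theorem pj_mono {s : ℕ} (hs : 1 ≤ s) {i j : ℕ} (h : i ≤ j) : pj s i ≤ pj s j :=
  Nat.pow_le_pow_right hs (Nat.pow_le_pow_right (by norm_num) h)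

theorem energy (f : GaussianInt → ℂ) (hf : CM f) (hs : SmallFR f) (ε : ℝ) (hε : 0 < ε) :
    ∃ η : ℝ, 0 < η ∧ ∃ R0 : ℝ, ∀ R : ℝ, R0 ≤ R → ∀ M : ℕ, (M : ℝ) ≤ η * R →
      ∑ c ∈ fr M, ‖FR f R c‖ ^ 2 ≤ ε * R ^ 4 := by
  classical
  obtain ⟨a, CU, K1, ha, ha1, hCU, hK1, hU⟩ := propU
  have hA := cA_pos
  have hB := one_le_cB
  have hB0 : 0 < cB := by linarith
  obtain ⟨δ, hδ⟩ : ∃ δ : ℝ, δ = ε / (16 * (cA + cB + CU)) := ⟨_, rfl⟩
  have hδ0 : 0 < δ := by rw [hδ]; positivity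
  -- the parameters
  obtain ⟨h0, hh0⟩ := exists_nat_gt (1 / δ)
  have hh0p : (0 : ℝ) < h0 := lt_trans (by positivity) hh0
  have hh01 : 1 ≤ h0 := by
    rcases Nat.eq_zero_or_pos h0 with h | h
    · rw [h] at hh0p; simp at hh0p
    · exact h
  have hh0δ : 1 / (h0 : ℝ) ≤ δ := by
    rw [div_le_iff₀ hh0p]
    rw [div_lt_iff₀ hδ0] at hh0
    linarith
  have hlogt : Tendsto (fun n : ℕ => Real.log (n : ℝ)) atTop atTop :=
    Real.tendsto_log_atTop.comp tendsto_natCast_atTop_atTop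
  obtain ⟨K, hK2, hK3, hKK1⟩ := ((hlogt.eventually_ge_atTop (2 * (Real.log 4 + cE) + 2)).and
    ((hlogt.eventually_ge_atTop (2 / δ)).and (eventually_ge_atTop K1))).exists
  have hKK3 : 3 ≤ K := hK1.trans hKK1
  have hlogK : 0 < Real.log K := Real.log_pos (by
    have : (3 : ℝ) ≤ K := by exact_mod_cast hKK3
    linarith)
  have hKδ : 1 / Real.log K ≤ δ := by
    rw [div_le_iff₀ hlogK]
    rw [div_le_iff₀ hδ0] at hK3
    nlinarith
  obtain ⟨s, hs16, hsn⟩ := num_s a cB cE δ h0 ha hB hδ0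
  obtain ⟨y0, hy01, hy0⟩ := num_y a cB δ h0 K s ha hB (by omega) hδ0
  obtain ⟨RU, hRU⟩ := hU f hf hs K h0 hKK1 hh01
  have hev : ∀ᶠ R : ℝ in atTop, 1 / R ≤ δ ∧ Real.log R / R ≤ δ ∧ Real.exp (2 * (s : ℝ) ^ 2) ≤ R ∧
      RU ≤ R ∧ Real.exp (y0 ^ 4) ≤ R ∧ 1 ≤ R := by
    have h1 : Tendsto (fun R : ℝ => 1 / R) atTop (𝓝 0) := by
      simpa only [one_div] using tendsto_inv_atTop_zero
    have h2 : Tendsto (fun R : ℝ => Real.log R / R) atTop (𝓝 0) :=
      Real.isLittleO_log_id_atTop.tendsto_div_nhds_zero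
    exact (h1.eventually_le_const hδ0).and ((h2.eventually_le_const hδ0).and
      ((eventually_ge_atTop _).and ((eventually_ge_atTop _).and ((eventually_ge_atTop _).and
      (eventually_ge_atTop _)))))
  obtain ⟨R0, hR0⟩ := eventually_atTop.1 hev
  refine ⟨Real.exp (-((s : ℝ) ^ 2)), Real.exp_pos _, R0, fun R hR M hM => ?_⟩
  obtain ⟨r1, r2, r3, r4, r5, r6⟩ := hR0 R hR
  have hRp : 0 < R := by linarith
  rcases Nat.eq_zero_or_pos M with hM0 | hM1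
  · rw [hM0]
    have : fr 0 = ∅ := by simp [fr]
    rw [this, Finset.sum_empty]
    positivity
  have hη1 : Real.exp (-((s : ℝ) ^ 2)) ≤ 1 := by
    rw [Real.exp_le_one_iff]
    have : (0 : ℝ) ≤ (s : ℝ) ^ 2 := by positivity
    linarith
  have hMR : (M : ℝ) ≤ R := by
    calc (M : ℝ) ≤ Real.exp (-((s : ℝ) ^ 2)) * R := hM
      _ ≤ 1 * R := by gcongr
      _ = R := one_mul R
  -- the variable y
  have hlogR : 0 ≤ Real.log R := Real.log_nonneg r6
  obtain ⟨y, hy⟩ : ∃ y : ℝ, y = Real.sqrt (Real.sqrt (Real.log R)) := ⟨_, rfl⟩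
  have hy4 : Real.log R = y ^ 4 := by
    have e1 : y ^ 2 = Real.sqrt (Real.log R) := by
      rw [hy, Real.sq_sqrt (Real.sqrt_nonneg _)]
    have e2 : y ^ 4 = (y ^ 2) ^ 2 := by ring
    rw [e2, e1, Real.sq_sqrt hlogR]
  have hynn : 0 ≤ y := by rw [hy]; exact Real.sqrt_nonneg _
  have hyy0 : y0 ≤ y := by
    have e1 : y0 ^ 4 ≤ y ^ 4 := by
      rw [← hy4]
      exact (Real.le_log_iff_exp_le hRp).2 r5
    exact (pow_le_pow_iff_left₀ (by linarith) hynn (by norm_num)).1 e1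
  have hy1 : 1 ≤ y := hy01.trans hyy0
  obtain ⟨y1, y2, y3, y4⟩ := hy0 y hyy0
  obtain ⟨J, j1, j2, j3⟩ := exists_J ha hs16 hy1 y1 y2
  -- the partition
  obtain ⟨S0, hS0⟩ : ∃ S0 : ℕ → ℤ × ℤ → Prop, S0 = fun j c =>
    Sm f (hj h0 j) (lo h0 s j) (hi h0 s j) (aj a j) c := ⟨_, rfl⟩
  obtain ⟨SF, hSF⟩ : ∃ SF : ℤ × ℤ → Prop, SF = fun c =>
    Sm f h0 (vlo K h0 R) (vhi K h0 R) a c := ⟨_, rfl⟩
  have hA0 : ∑ c ∈ (fr M).filter (fun c => S0 0 c), ‖FR f R c‖ ^ 2 ≤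
      cA * R ^ 4 * (3 * δ + 1 / R) := by
    apply stepA hf ha hδ0 hh01 hh0δ hs16 hsn hM1 hM r3 _ (Finset.filter_subset _ _)
    intro c hc
    have := (Finset.mem_filter.1 hc).2
    rw [hS0] at this
    exact this
  have hAj : ∀ j ∈ Finset.range J, ∑ c ∈ (fr M).filter (fun c => S0 (j + 1) c ∧ ¬ S0 j c),
      ‖FR f R c‖ ^ 2 ≤ cB * R ^ 4 * (3 * (δ / 2 ^ (j + 1)) + 1 / R) := by
    intro j hj
    rw [Finset.mem_range] at hj
    apply stepB hf ha ha1 hδ0 hh01 hh0δ hs16 hsn j hM1 hMR _ _ (Finset.filter_subset _ _)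
    · intro c hc
      have := (Finset.mem_filter.1 hc).2
      rw [hS0] at this
      exact this
    · rw [← Real.le_log_iff_exp_le hRp, hy4]
      have e1 : (pj s (j + 1) : ℝ) ≤ pj s J := by
        exact_mod_cast pj_mono (by omega) (by omega)
      have e2 : (pj s (j + 1) : ℝ) ^ 2 ≤ y := by
        refine le_trans ?_ j2
        gcongr
      have e3 : 2 * y ≤ y ^ 4 := by
        have : 2 ≤ y := by
          have e4 : (2 : ℝ) ≤ 2 ^ (J + 1) := by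
            calc (2 : ℝ) = 2 ^ 1 := (pow_one 2).symm
              _ ≤ 2 ^ (J + 1) := pow_le_pow_right₀ (by norm_num) (by omega)
          linarith
        have e5 : (1 : ℝ) ≤ y ^ 2 := one_le_pow₀ hy1
        nlinarith
      linarith
  have hAF : ∑ c ∈ (fr M).filter (fun c => SF c ∧ ¬ S0 J c), ‖FR f R c‖ ^ 2 ≤
      cB * R ^ 4 * (3 * δ + 1 / R) := by
    apply stepF hf ha ha1 hδ0 hh01 hh0δ hs16 hKK3 hK2 hK3 J hy1 hy4 hRp j2 j3 y3 y4 j1 hM1 hMR _
      (Finset.filter_subset _ _)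
    intro c hc
    have := (Finset.mem_filter.1 hc).2
    rw [hS0, hSF] at this
    exact this
  have hAU : ∑ c ∈ (fr M).filter (fun c => ¬ SF c), ‖FR f R c‖ ^ 2 ≤
      CU * R ^ 4 * (1 / Real.log K + 1 / h0) := by
    apply hRU R r4 M hM1 hMR _ (Finset.filter_subset _ _)
    intro c hc
    have := (Finset.mem_filter.1 hc).2
    rw [hSF] at this
    exact not_Sm this
  have hsplit : ∑ c ∈ fr M, ‖FR f R c‖ ^ 2 ≤
      ∑ c ∈ (fr M).filter (fun c => S0 0 c), ‖FR f R c‖ ^ 2 +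
      ∑ j ∈ Finset.range J, ∑ c ∈ (fr M).filter (fun c => S0 (j + 1) c ∧ ¬ S0 j c),
        ‖FR f R c‖ ^ 2 +
      ∑ c ∈ (fr M).filter (fun c => SF c ∧ ¬ S0 J c), ‖FR f R c‖ ^ 2 +
      ∑ c ∈ (fr M).filter (fun c => ¬ SF c), ‖FR f R c‖ ^ 2 := by
    simp only [Finset.sum_filter]
    rw [Finset.sum_comm, ← Finset.sum_add_distrib, ← Finset.sum_add_distrib,
      ← Finset.sum_add_distrib]
    apply Finset.sum_le_sum
    intro c _
    have hnn : 0 ≤ ‖FR f R c‖ ^ 2 := by positivity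
    have t1 : 0 ≤ (if S0 0 c then ‖FR f R c‖ ^ 2 else 0) := by split_ifs <;> positivity
    have t2 : 0 ≤ ∑ j ∈ Finset.range J, (if S0 (j + 1) c ∧ ¬ S0 j c then ‖FR f R c‖ ^ 2 else 0) :=
      Finset.sum_nonneg (fun j _ => by split_ifs <;> positivity)
    have t3 : 0 ≤ (if SF c ∧ ¬ S0 J c then ‖FR f R c‖ ^ 2 else 0) := by split_ifs <;> positivity
    have t4 : 0 ≤ (if ¬ SF c then ‖FR f R c‖ ^ 2 else 0) := by split_ifs <;> positivity
    by_cases hF : SF c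
    · by_cases hJ : S0 J c
      · have hex : ∃ j, S0 j c := ⟨J, hJ⟩
        have hfs := Nat.find_spec hex
        have hfle : Nat.find hex ≤ J := Nat.find_min' hex hJ
        rcases Nat.eq_zero_or_pos (Nat.find hex) with e | e
        · rw [e] at hfs
          rw [if_pos hfs]
          linarith
        · obtain ⟨i, hi⟩ := Nat.exists_eq_add_of_le' e
          rw [hi] at hfs
          have hni : ¬ S0 i c := Nat.find_min hex (by omega)
          have e2 : ‖FR f R c‖ ^ 2 ≤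
              ∑ j ∈ Finset.range J, (if S0 (j + 1) c ∧ ¬ S0 j c then ‖FR f R c‖ ^ 2 else 0) := by
            refine le_trans ?_ (Finset.single_le_sum (f := fun j =>
              if S0 (j + 1) c ∧ ¬ S0 j c then ‖FR f R c‖ ^ 2 else 0)
              (fun j _ => by split_ifs <;> positivity)
              (Finset.mem_range.2 (show i < J by omega)))
            show ‖FR f R c‖ ^ 2 ≤ if S0 (i + 1) c ∧ ¬ S0 i c then ‖FR f R c‖ ^ 2 else 0
            rw [if_pos ⟨hfs, hni⟩]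
          linarith
      · rw [if_pos (show SF c ∧ ¬ S0 J c from ⟨hF, hJ⟩)]
        linarith
    · rw [if_pos (show ¬ SF c from hF)]
      linarith
  -- the sum of the bounds
  have hsum : ∑ j ∈ Finset.range J, ∑ c ∈ (fr M).filter (fun c => S0 (j + 1) c ∧ ¬ S0 j c),
        ‖FR f R c‖ ^ 2 ≤ cB * R ^ 4 * (4 * δ) := by
    refine (Finset.sum_le_sum hAj).trans ?_
    rw [← Finset.mul_sum]
    have e1 : ∑ j ∈ Finset.range J, (3 * (δ / 2 ^ (j + 1)) + 1 / R) ≤ 3 * δ + J * (1 / R) := by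
      rw [Finset.sum_add_distrib, Finset.sum_const, Finset.card_range, nsmul_eq_mul,
        ← Finset.mul_sum]
      have e2 : ∑ j ∈ Finset.range J, δ / 2 ^ (j + 1) ≤ δ := by
        have e3 : ∑ j ∈ Finset.range J, δ / 2 ^ (j + 1) = δ * (1 - 1 / 2 ^ J) := by
          induction J with
          | zero => simp
          | succ n ih =>
            rw [Finset.sum_range_succ]
            have : ∑ j ∈ Finset.range n, δ / 2 ^ (j + 1) = δ * (1 - 1 / 2 ^ n) := by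
              clear ih hsplit hAF hAj hAU hA0 j1 j2 j3
              induction n with
              | zero => simp
              | succ k ihk =>
                rw [Finset.sum_range_succ, ihk]
                field_simp
                ring
            rw [this]
            field_simp
            ring
        rw [e3]
        have : 0 < 1 / (2 : ℝ) ^ J := by positivity
        nlinarith
      linarith
    have e4 : (J : ℝ) * (1 / R) ≤ δ := by
      have e5 : (J : ℝ) ≤ Real.log R := by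
        have e6 : (J : ℝ) ≤ 2 ^ (J + 1) := by
          have : J < 2 ^ (J + 1) := (Nat.lt_two_pow_self).trans
            (Nat.pow_lt_pow_right (by norm_num) (by omega))
          exact_mod_cast this.le
        have e7 : y ≤ y ^ 4 := by
          calc y = y ^ 1 := (pow_one y).symm
            _ ≤ y ^ 4 := pow_le_pow_right₀ hy1 (by norm_num)
        rw [hy4]
        linarith
      calc (J : ℝ) * (1 / R) = J / R := by ring
        _ ≤ Real.log R / R := by gcongr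
        _ ≤ δ := r2
    have e8 : ∑ j ∈ Finset.range J, (3 * (δ / 2 ^ (j + 1)) + 1 / R) ≤ 4 * δ := by linarith
    gcongr
  have t1 : cA * R ^ 4 * (3 * δ + 1 / R) ≤ cA * R ^ 4 * (4 * δ) := by
    gcongr; linarith
  have t2 : cB * R ^ 4 * (3 * δ + 1 / R) ≤ cB * R ^ 4 * (4 * δ) := by
    gcongr; linarith
  have t3 : CU * R ^ 4 * (1 / Real.log K + 1 / h0) ≤ CU * R ^ 4 * (2 * δ) := by
    gcongr; linarith
  have hR4 : 0 < R ^ 4 := by positivity
  have hfin : cA * R ^ 4 * (4 * δ) + cB * R ^ 4 * (4 * δ) + cB * R ^ 4 * (4 * δ) +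
      CU * R ^ 4 * (2 * δ) ≤ ε * R ^ 4 := by
    have e1 : ε = 16 * (cA + cB + CU) * δ := by
      rw [hδ]; field_simp
    rw [e1]
    have q1 : 0 < cA * R ^ 4 * δ := by positivity
    have q2 : 0 < cB * R ^ 4 * δ := by positivity
    have q3 : 0 < CU * R ^ 4 * δ := by positivity
    nlinarith
  linarith

end Pool.Agent.MRG
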