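import Mathlib

/-!
# Numerical facts for the energy theorem
-/

set_option autoImplicit false

open Filter Topology

namespace Pool.Agent.MRG

theorem ev_log_sqrt (a B : ℝ) (ha : 0 < a) (hB : 1 ≤ B) :
    ∀ᶠ x : ℝ in atTop, Real.log (B * (x ^ 8 + 1)) ≤ a * Real.sqrt x := by
  have h1 : (fun x : ℝ => Real.log x) =o[atTop] fun x : ℝ => x ^ (1 / 2 : ℝ) :=
    isLittleO_log_rpow_atTop (by norm_num)
  have h2 := h1.bound (c := a / 16) (by positivity)
  have h3 : Tendsto (fun x : ℝ => Real.sqrt x) atTop atTop := Real.tendsto_sqrt_atTop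
  filter_upwards [h2, eventually_ge_atTop (1 : ℝ),
    h3.eventually_ge_atTop (Real.log (2 * B) * 2 / a)] with x hx hx1 hx2
  have hl : 0 ≤ Real.log x := Real.log_nonneg hx1
  rw [← Real.sqrt_eq_rpow, Real.norm_eq_abs, Real.norm_eq_abs, abs_of_nonneg hl,
    abs_of_nonneg (Real.sqrt_nonneg x)] at hx
  have h4 : B * (x ^ 8 + 1) ≤ (2 * B) * x ^ 8 := by
    have : 1 ≤ x ^ 8 := one_le_pow₀ hx1
    nlinarith
  have h5 : Real.log (B * (x ^ 8 + 1)) ≤ Real.log (2 * B) + 8 * Real.log x := by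
    calc Real.log (B * (x ^ 8 + 1)) ≤ Real.log ((2 * B) * x ^ 8) := by
          apply Real.log_le_log (by positivity) h4
      _ = Real.log (2 * B) + 8 * Real.log x := by
          rw [Real.log_mul (by positivity) (by positivity), Real.log_pow]
          norm_num
  have h6 : Real.log (2 * B) * 2 ≤ a * Real.sqrt x := by
    rw [div_le_iff₀ ha] at hx2
    linarith
  nlinarith

theorem ev_pow_exp (C b ε : ℝ) (hb : 0 < b) (hε : 0 < ε) (n : ℕ) :
    ∀ᶠ x : ℝ in atTop, C * x ^ n * Real.exp (-(b * x)) ≤ ε := by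
  have h1 : Tendsto (fun x : ℝ => x ^ n * Real.exp (-x)) atTop (𝓝 0) :=
    Real.tendsto_pow_mul_exp_neg_atTop_nhds_zero n
  have h2 : Tendsto (fun x : ℝ => b * x) atTop atTop := tendsto_id.const_mul_atTop hb
  have h3 : Tendsto (fun x : ℝ => C / b ^ n * ((b * x) ^ n * Real.exp (-(b * x)))) atTop
      (𝓝 (C / b ^ n * 0)) := (h1.comp h2).const_mul _
  rw [mul_zero] at h3
  filter_upwards [h3.eventually_le_const hε] with x hx
  refine le_trans (le_of_eq ?_) hx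
  rw [mul_pow]
  field_simp

theorem num_s (a B E ε : ℝ) (h0 : ℕ) (ha : 0 < a) (hB : 1 ≤ B) (hε : 0 < ε) :
    ∃ s : ℕ, 16 ≤ s ∧ ∀ x : ℝ, (s : ℝ) ≤ x →
      Real.log (B * (x ^ 8 + 1)) ≤ a * Real.sqrt x ∧
      (h0 : ℝ) ^ 3 * x ^ 22 * Real.exp (-(1 * x)) ≤ ε ∧
      (h0 : ℝ) ^ 2 * x ^ 4 * Real.exp (-(a * x)) ≤ ε ∧
      3 ≤ a * x ∧ 2 * E + 2 ≤ Real.log x ∧ 2 / ε ≤ Real.log x := by
  have h2 : Tendsto (fun x : ℝ => a * x) atTop atTop := tendsto_id.const_mul_atTop ha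
  have h := (ev_log_sqrt a B ha hB).and ((ev_pow_exp ((h0 : ℝ) ^ 3) 1 ε one_pos hε 22).and
    ((ev_pow_exp ((h0 : ℝ) ^ 2) a ε ha hε 4).and ((h2.eventually_ge_atTop 3).and
      ((Real.tendsto_log_atTop.eventually_ge_atTop (2 * E + 2)).and
        (Real.tendsto_log_atTop.eventually_ge_atTop (2 / ε))))))
  obtain ⟨x0, hx0⟩ := eventually_atTop.1 h
  refine ⟨⌈x0⌉₊ + 16, by omega, fun x hx => ?_⟩
  apply hx0 x
  push_cast at hx
  linarith [Nat.le_ceil x0]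

/-- the polylogarithmic quantities of the last step, with `X = y ^ 4` -/
theorem num_y (a B ε : ℝ) (h0 K s : ℕ) (ha : 0 < a) (hB : 1 ≤ B) (hK : 1 ≤ K) (hε : 0 < ε) :
    ∃ y0 : ℝ, 1 ≤ y0 ∧ ∀ y : ℝ, y0 ≤ y →
      (s : ℝ) ^ 2 + (Real.log (B * (y ^ 4 + 1)) / a) ^ 16 ≤ y ∧
      2 + Real.log (B * (y ^ 4 + 1)) / a ≤ y ∧
      (h0 : ℝ) ^ 3 * y ^ 10 * Real.exp (-(a / K ^ 2) * y ^ 3 + 2 * y) ≤ ε ∧
      2 * (K : ℝ) ^ 2 ≤ y := by
  have h1 : (fun x : ℝ => Real.log x ^ 16) =o[atTop] id := Real.isLittleO_pow_log_id_atTop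
  have h1' := h1.bound (c := 1 / (2 * (5 / a) ^ 16)) (by positivity)
  have h2 : (fun x : ℝ => Real.log x) =o[atTop] id := Real.isLittleO_log_id_atTop
  have h2' := h2.bound (c := a / 10) (by positivity)
  have h3 := ev_pow_exp ((h0 : ℝ) ^ 3) 1 ε one_pos hε 10
  have hKp : (0 : ℝ) < K := by exact_mod_cast hK
  obtain ⟨y0, hy0⟩ := eventually_atTop.1 (h1'.and (h2'.and (h3.and
    ((Real.tendsto_log_atTop.eventually_ge_atTop (Real.log (2 * B))).and
    ((eventually_ge_atTop (2 * (s : ℝ) ^ 2)).and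
    ((eventually_ge_atTop (3 * (K : ℝ) ^ 2 / a)).and ((eventually_ge_atTop (2 * (K : ℝ) ^ 2)).and
    (eventually_ge_atTop (4 : ℝ)))))))))
  refine ⟨max y0 1, le_max_right _ _, fun y hy => ?_⟩
  obtain ⟨e1, e2, e3, e4, e5, e6, e7, e8⟩ := hy0 y ((le_max_left _ _).trans hy)
  have hy1 : 1 ≤ y := (le_max_right _ _).trans hy
  have hl : 0 ≤ Real.log y := Real.log_nonneg hy1
  rw [Real.norm_eq_abs, Real.norm_eq_abs, abs_of_nonneg (by positivity), id,
    abs_of_nonneg (by positivity)] at e1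
  rw [Real.norm_eq_abs, Real.norm_eq_abs, abs_of_nonneg hl, id,
    abs_of_nonneg (by positivity)] at e2
  -- the logarithm
  have h5 : Real.log (B * (y ^ 4 + 1)) ≤ 5 * Real.log y := by
    have h4 : B * (y ^ 4 + 1) ≤ (2 * B) * y ^ 4 := by
      have : 1 ≤ y ^ 4 := one_le_pow₀ hy1
      nlinarith
    calc Real.log (B * (y ^ 4 + 1)) ≤ Real.log ((2 * B) * y ^ 4) :=
          Real.log_le_log (by positivity) h4
      _ = Real.log (2 * B) + 4 * Real.log y := by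
          rw [Real.log_mul (by positivity) (by positivity), Real.log_pow]
          norm_num
      _ ≤ 5 * Real.log y := by linarith
  have h50 : 0 ≤ Real.log (B * (y ^ 4 + 1)) := by
    apply Real.log_nonneg
    have : 1 ≤ y ^ 4 := one_le_pow₀ hy1
    nlinarith
  refine ⟨?_, ?_, ?_, e7⟩
  · have h6 : (Real.log (B * (y ^ 4 + 1)) / a) ^ 16 ≤ (5 / a * Real.log y) ^ 16 := by
      apply pow_le_pow_left₀ (by positivity)
      rw [div_mul_eq_mul_div]
      exact div_le_div_of_nonneg_right h5 ha.le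
    have h7 : (5 / a * Real.log y) ^ 16 ≤ y / 2 := by
      rw [mul_pow]
      calc (5 / a) ^ 16 * Real.log y ^ 16 ≤ (5 / a) ^ 16 * (1 / (2 * (5 / a) ^ 16) * y) := by
            gcongr
        _ = y / 2 := by
            field_simp
    linarith
  · have h6 : Real.log (B * (y ^ 4 + 1)) / a ≤ y / 2 := by
      rw [div_le_iff₀ ha]
      nlinarith
    linarith
  · have h6 : -(a / (K : ℝ) ^ 2) * y ^ 3 + 2 * y ≤ -(1 * y) := by
      have h7 : 3 ≤ a / (K : ℝ) ^ 2 * y := by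
        rw [div_le_iff₀ ha] at e6
        rw [div_mul_eq_mul_div, le_div_iff₀ (by positivity)]
        linarith
      have h8 : 3 * y ^ 2 ≤ a / (K : ℝ) ^ 2 * y ^ 3 := by
        calc 3 * y ^ 2 ≤ (a / (K : ℝ) ^ 2 * y) * y ^ 2 := by gcongr
          _ = a / (K : ℝ) ^ 2 * y ^ 3 := by ring
      have h9 : y ≤ y ^ 2 := by nlinarith
      linarith
    calc (h0 : ℝ) ^ 3 * y ^ 10 * Real.exp (-(a / K ^ 2) * y ^ 3 + 2 * y)
        ≤ (h0 : ℝ) ^ 3 * y ^ 10 * Real.exp (-(1 * y)) := by gcongr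
      _ ≤ ε := e3

/-- `s^(4^j) ≥ 16^(4^j) ≥ 16^(j+1)` -/
theorem pow_scale {s : ℕ} (hs : 16 ≤ s) (j : ℕ) : (2 : ℝ) ^ (4 * (j + 1)) ≤ (s : ℝ) ^ (4 ^ j) := by
  have h1 : j + 1 ≤ 4 ^ j := by
    induction j with
    | zero => simp
    | succ j ih => rw [pow_succ]; omega
  calc (2 : ℝ) ^ (4 * (j + 1)) = 16 ^ (j + 1) := by
        rw [pow_mul]; norm_num
    _ ≤ 16 ^ (4 ^ j) := pow_le_pow_right₀ (by norm_num) h1
    _ ≤ (s : ℝ) ^ (4 ^ j) := by
        apply pow_le_pow_left₀ (by norm_num)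
        exact_mod_cast hs

end Pool.Agent.MRG
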