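import Pool.Agent.MRG.Fac
import Pool.Agent.MRG.Cheb
import Pool.Agent.MRG.Mvt

/-!
# Module Moment: mean squares of `Q_r^ℓ` times a polynomial

`tup S l n` is the number of `l`-tuples of elements of `S` whose product divides `n`.

`tup_sq`: `∑_{n ∈ ball r} tup² = ∑_{q, q'} #{n ∈ ball r : ∏ q ∣ n, ∏ q' ∣ n}`.  Put `P = ∏ q`, `A = {i : q'_i ∤ P}`.  The primes `q'_i`, `i ∈ A`, are coprime to `P`
and `∏_{i ∈ A} q'_i ∣ n`, so `P ∏_{i ∈ A} q'_i ∣ n`; the number of such `n` is at most `9 r²/(|P|² ∏_{i∈A} |q'_i|²)`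
(`card_ball_dvd_le` or `card_dvd`).  Sum over `q'`: `∏_i ∑_{p' ∈ S} (1 if p' ∣ P else 1/|p'|²) ≤ (l + Ls S)^l`, since at most `l` elements of `S`
divide `P` (each of them equals some `q_i`: `P1_eq_of_dvd`).  Sum over `q`: `∑_q 1/|P|² = (Ls S)^l`.

`moment_mvt`: `Q_r(c)^ℓ G(c) = ∑_n b(n) ch c n`, where `b` is supported in `e^(ℓr/h) Y < |n| ≤ 2Y e^(ℓ(r+1)/h) =: R₂` and `|b(n)| ≤ tup (cel h r) ℓ n`
(for given primes `q_1,…,q_ℓ` with `∏ q ∣ n` there is one `m`).  `Ls (cel h r) ≤ C` by `cheb_sum` (`r/h ≥ 1`).  So by `mvt` with `R₁ = Y e^(ℓr/h) ≥ M`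
the sum is at most `C R₂² · 9 R₂² (C (C + ℓ))^ℓ ≤ (C ℓ)^ℓ e^(4rℓ/h) · C Y⁴` (`e^(4ℓ/h) ≤ e^(4ℓ)`).
`power_mvt`: the same without `m`.
-/

set_option autoImplicit false

namespace Pool.Agent.MRG

open Pool.Agent.GaussPret

open scoped Classical in
/-- number of `l`-tuples in `S` whose product divides `n` -/
noncomputable def tup (S : Finset GaussianInt) (l : ℕ) (n : GaussianInt) : ℕ :=
  ((Fintype.piFinset fun _ : Fin l => S).filter fun q => ∏ i, q i ∣ n).card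

theorem mom_ab_prod {ι : Type*} (s : Finset ι) (q : ι → GaussianInt) :
    ab (∏ i ∈ s, q i) = ∏ i ∈ s, ab (q i) := by
  classical
  induction s using Finset.induction_on with
  | empty => simp [ab_one]
  | insert a s ha ih => rw [Finset.prod_insert ha, Finset.prod_insert ha, ab_mul, ih]

theorem mom_ch_prod {ι : Type*} (m : ℝ) (k : ℤ) (s : Finset ι) (q : ι → GaussianInt)
    (hq : ∀ i ∈ s, q i ≠ 0) : ch m k (∏ i ∈ s, q i) = ∏ i ∈ s, ch m k (q i) := by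
  classical
  induction s using Finset.induction_on with
  | empty => simp [ch_one]
  | insert a s ha ih =>
    have h1 : ∀ i ∈ s, q i ≠ 0 := fun i hi => hq i (Finset.mem_insert_of_mem hi)
    rw [Finset.prod_insert ha, Finset.prod_insert ha,
      ch_mul (hq a (Finset.mem_insert_self _ _)) (Finset.prod_ne_zero_iff.2 h1), ih h1]

open scoped Classical in
theorem mom_count {S : Finset GaussianInt} {z : ℝ} (hS : S ⊆ pr 1 z) (l : ℕ) (r : ℝ)
    (q q' : Fin l → GaussianInt) (hq : ∀ i, q i ∈ S) (hq' : ∀ i, q' i ∈ S) :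
    (((ball r).filter fun n => ∏ i, q i ∣ n ∧ ∏ i, q' i ∣ n).card : ℝ) ≤
      9 * r ^ 2 * (∏ i, 1 / ab (q i) ^ 2) *
        ∏ i, (if q' i ∣ ∏ j, q j then 1 else 1 / ab (q' i) ^ 2) := by
  have hpr : ∀ s ∈ S, Prime s := fun s hs => (mem_pr.1 (hS hs)).1.1
  set P := ∏ i, q i with hP
  set A := Finset.univ.filter (fun i => ¬ q' i ∣ P) with hA
  set Q := ∏ i ∈ A, q' i with hQ
  have hcop : IsCoprime P Q := by
    apply IsCoprime.prod_right
    intro i hi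
    have h1 : ¬ q' i ∣ P := (Finset.mem_filter.1 hi).2
    exact ((hpr _ (hq' i)).irreducible.coprime_iff_not_dvd.2 h1).symm
  have hQ' : Q ∣ ∏ i, q' i := Finset.prod_dvd_prod_of_subset _ _ _ (Finset.subset_univ _)
  have hPne : P ≠ 0 := Finset.prod_ne_zero_iff.2 fun i _ => (hpr _ (hq i)).ne_zero
  have hQne : Q ≠ 0 := Finset.prod_ne_zero_iff.2 fun i _ => (hpr _ (hq' i)).ne_zero
  have h1 : ((ball r).filter fun n => P ∣ n ∧ ∏ i, q' i ∣ n) ⊆
      (ball r).filter fun n => P * Q ∣ n := by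
    intro n hn
    rw [Finset.mem_filter] at hn ⊢
    exact ⟨hn.1, hcop.mul_dvd hn.2.1 (hQ'.trans hn.2.2)⟩
  have h2 : (((ball r).filter fun n => P * Q ∣ n).card : ℝ) ≤ 9 * r ^ 2 / nm (P * Q) :=
    card_ball_dvd_le r (P * Q) (mul_ne_zero hPne hQne)
  have h3 : (((ball r).filter fun n => P ∣ n ∧ ∏ i, q' i ∣ n).card : ℝ) ≤
      9 * r ^ 2 / nm (P * Q) := by
    refine le_trans ?_ h2
    exact_mod_cast Finset.card_le_card h1
  refine h3.trans (le_of_eq ?_)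
  have h4 : ∏ i, (if q' i ∣ P then (1 : ℝ) else 1 / ab (q' i) ^ 2) = 1 / ab Q ^ 2 := by
    have h5 : ∏ i, (if q' i ∣ P then (1 : ℝ) else 1 / ab (q' i) ^ 2) =
        ∏ i ∈ A, 1 / ab (q' i) ^ 2 := by
      rw [hA, Finset.prod_filter]
      apply Finset.prod_congr rfl
      intro i _
      by_cases h : q' i ∣ P <;> simp [h]
    rw [h5, hQ, mom_ab_prod, ← Finset.prod_pow, Finset.prod_div_distrib]
    simp
  have h6 : ∏ i, 1 / ab (q i) ^ 2 = 1 / ab P ^ 2 := by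
    rw [hP, mom_ab_prod, ← Finset.prod_pow, Finset.prod_div_distrib]
    simp
  rw [h4, h6, nm_eq_ab, ab_mul, mul_pow]
  have hp := ab_pos hPne
  have hq := ab_pos hQne
  field_simp

theorem mom_Ls_nonneg (S : Finset GaussianInt) : 0 ≤ Ls S :=
  Finset.sum_nonneg fun p _ => by positivity

open scoped Classical in
theorem tup_sq (S : Finset GaussianInt) (z : ℝ) (hS : S ⊆ pr 1 z) (l : ℕ) (r : ℝ) :
    ∑ n ∈ ball r, (tup S l n : ℝ) ^ 2 ≤ 9 * r ^ 2 * (Ls S * (Ls S + l)) ^ l := by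
  set I := Fintype.piFinset fun _ : Fin l => S with hI
  have hmem : ∀ q ∈ I, ∀ i, q i ∈ S := fun q hq => Fintype.mem_piFinset.1 hq
  have htup : ∀ n, (tup S l n : ℝ) = ∑ q ∈ I, (if ∏ i, q i ∣ n then (1 : ℝ) else 0) := by
    intro n
    rw [tup, Finset.card_filter]
    push_cast
    rfl
  have e1 : ∑ n ∈ ball r, (tup S l n : ℝ) ^ 2 =
      ∑ q ∈ I, ∑ q' ∈ I,
        (((ball r).filter fun n => ∏ i, q i ∣ n ∧ ∏ i, q' i ∣ n).card : ℝ) := by
    have : ∀ n ∈ ball r, (tup S l n : ℝ) ^ 2 =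
        ∑ q ∈ I, ∑ q' ∈ I, (if ∏ i, q i ∣ n ∧ ∏ i, q' i ∣ n then (1 : ℝ) else 0) := by
      intro n _
      rw [htup, sq, Finset.sum_mul_sum]
      apply Finset.sum_congr rfl
      intro q _
      apply Finset.sum_congr rfl
      intro q' _
      by_cases h1 : ∏ i, q i ∣ n <;> by_cases h2 : ∏ i, q' i ∣ n <;> simp [h1, h2]
    rw [Finset.sum_congr rfl this, Finset.sum_comm]
    apply Finset.sum_congr rfl
    intro q _
    rw [Finset.sum_comm]
    apply Finset.sum_congr rfl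
    intro q' _
    rw [Finset.card_filter]
    push_cast
    rfl
  rw [e1]
  have hL0 := mom_Ls_nonneg S
  have hsum : ∀ q ∈ I, ∑ q' ∈ I,
      (((ball r).filter fun n => ∏ i, q i ∣ n ∧ ∏ i, q' i ∣ n).card : ℝ) ≤
        9 * r ^ 2 * (∏ i, 1 / ab (q i) ^ 2) * (Ls S + l) ^ l := by
    intro q hq
    have hq1 := hmem q hq
    have h1 : ∑ q' ∈ I,
        (((ball r).filter fun n => ∏ i, q i ∣ n ∧ ∏ i, q' i ∣ n).card : ℝ) ≤
        ∑ q' ∈ I, 9 * r ^ 2 * (∏ i, 1 / ab (q i) ^ 2) *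
          ∏ i, (if q' i ∣ ∏ j, q j then 1 else 1 / ab (q' i) ^ 2) :=
      Finset.sum_le_sum fun q' hq' => mom_count hS l r q q' hq1 (hmem q' hq')
    refine h1.trans ?_
    rw [← Finset.mul_sum]
    have h2 : ∑ q' ∈ I, ∏ i, (if q' i ∣ ∏ j, q j then (1 : ℝ) else 1 / ab (q' i) ^ 2) =
        (∑ s ∈ S, (if s ∣ ∏ j, q j then (1 : ℝ) else 1 / ab s ^ 2)) ^ l := by
      rw [Finset.sum_pow']
    rw [h2]
    have h3 : 0 ≤ 9 * r ^ 2 * (∏ i, 1 / ab (q i) ^ 2) := by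
      have : 0 ≤ ∏ i, 1 / ab (q i) ^ 2 := Finset.prod_nonneg fun i _ => by positivity
      positivity
    refine mul_le_mul_of_nonneg_left ?_ h3
    have h4 : 0 ≤ ∑ s ∈ S, (if s ∣ ∏ j, q j then (1 : ℝ) else 1 / ab s ^ 2) :=
      Finset.sum_nonneg fun s _ => by split_ifs <;> positivity
    refine pow_le_pow_left₀ h4 ?_ l
    have h5 : ∑ s ∈ S, (if s ∣ ∏ j, q j then (1 : ℝ) else 1 / ab s ^ 2) ≤
        ∑ s ∈ S, (1 / ab s ^ 2 + (if s ∣ ∏ j, q j then (1 : ℝ) else 0)) := by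
      apply Finset.sum_le_sum
      intro s _
      have : 0 ≤ 1 / ab s ^ 2 := by positivity
      split_ifs <;> linarith
    refine h5.trans ?_
    rw [Finset.sum_add_distrib]
    have h6 : ∑ s ∈ S, (if s ∣ ∏ j, q j then (1 : ℝ) else 0) ≤ l := by
      have h7 : ∑ s ∈ S, (if s ∣ ∏ j, q j then (1 : ℝ) else 0) =
          ((S.filter fun s => s ∣ ∏ j, q j).card : ℝ) := by
        rw [Finset.card_filter]
        push_cast
        rfl
      rw [h7]
      have h8 : (S.filter fun s => s ∣ ∏ j, q j) ⊆ Finset.univ.image q := by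
        intro s hs
        rw [Finset.mem_filter] at hs
        have hsp := (mem_pr.1 (hS hs.1)).1
        obtain ⟨i, _, hi⟩ := hsp.1.exists_mem_finset_dvd hs.2
        have hqi := (mem_pr.1 (hS (hq1 i))).1
        have h9 := P1_eq_of_dvd (p := ⟨s, hsp⟩) (q := ⟨q i, hqi⟩) hi
        have h10 : s = q i := congrArg Subtype.val h9
        rw [h10]
        exact Finset.mem_image_of_mem _ (Finset.mem_univ i)
      have h11 := (Finset.card_le_card h8).trans Finset.card_image_le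
      rw [Finset.card_univ, Fintype.card_fin] at h11
      exact_mod_cast h11
    have h12 : ∑ s ∈ S, 1 / ab s ^ 2 = Ls S := rfl
    rw [h12]
    linarith
  refine (Finset.sum_le_sum hsum).trans (le_of_eq ?_)
  rw [← Finset.sum_mul, ← Finset.mul_sum]
  have h13 : ∑ q ∈ I, ∏ i, 1 / ab (q i) ^ 2 = Ls S ^ l := by
    rw [Ls, Finset.sum_pow']
  rw [h13, mul_pow]
  ring

theorem mom_cel_sub {h r : ℕ} (hh : 1 ≤ h) : cel h r ⊆ pr 1 (Real.exp (((r : ℝ) + 1) / h)) := by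
  intro p hp
  rw [cel, mem_pr] at hp
  rw [mem_pr]
  refine ⟨hp.1, lt_of_le_of_lt ?_ hp.2.1, hp.2.2⟩
  apply Real.one_le_exp
  positivity

open scoped Classical in
theorem mom_gen {Cm : ℝ} (hCm : 0 < Cm)
    (hmvt : ∀ (M : ℕ) (R₁ R₂ : ℝ) (b : GaussianInt → ℂ), 1 ≤ M → (M : ℝ) ≤ R₁ → R₁ ≤ R₂ →
      ∑ c ∈ fr M, ‖∑ g ∈ ann R₁ R₂, b g * ch c.1 c.2 g‖ ^ 2 ≤
        Cm * R₂ ^ 2 * ∑ g ∈ ann R₁ R₂, ‖b g‖ ^ 2)
    (f g : GaussianInt → ℂ) (hf : CM f) (hg : ∀ n, n ≠ 0 → ‖g n‖ ≤ 1)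
    (T : Finset GaussianInt) (Y Z : ℝ) (hY : 0 < Y) (hYZ : Y ≤ Z)
    (hT : ∀ m ∈ T, m ≠ 0 ∧ Y ≤ ab m ∧ ab m ≤ Z)
    (h r l M : ℕ) (hh : 1 ≤ h) (hl : 1 ≤ l) (hM : 1 ≤ M)
    (hMY : (M : ℝ) ≤ Y * Real.exp (l * r / h)) :
    ∑ c ∈ fr M, (‖Qv f h r c‖ ^ l * ‖∑ m ∈ T, g m * ch c.1 c.2 m‖) ^ 2 ≤
      Cm * (Z * Real.exp (l * (r + 1) / h)) ^ 2 *
        (9 * (Z * Real.exp (l * (r + 1) / h)) ^ 2 *
          (Ls (cel h r) * (Ls (cel h r) + l)) ^ l) := by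
  have hh' : (0 : ℝ) < h := by exact_mod_cast hh
  set S := cel h r with hS
  have hSsub : S ⊆ pr 1 (Real.exp (((r : ℝ) + 1) / h)) := mom_cel_sub hh
  set I := (Fintype.piFinset fun _ : Fin l => S) ×ˢ T with hI
  set R₁ := Y * Real.exp (l * r / h) with hR₁
  set R₂ := Z * Real.exp (l * (r + 1) / h) with hR₂
  have hZ : 0 < Z := hY.trans_le hYZ
  have hR : R₁ ≤ R₂ := by
    rw [hR₁, hR₂]
    apply mul_le_mul hYZ _ (Real.exp_pos _).le hZ.le
    apply Real.exp_le_exp.2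
    gcongr
    linarith
  have hSm : ∀ s ∈ S, Prime s ∧ Real.exp ((r : ℝ) / h) < ab s ∧
      ab s ≤ Real.exp (((r : ℝ) + 1) / h) := by
    intro s hs
    rw [hS, cel, mem_pr] at hs
    exact ⟨hs.1.1, hs.2.1, hs.2.2⟩
  have hIm : ∀ x ∈ I, (∀ i, x.1 i ∈ S) ∧ x.2 ∈ T := by
    intro x hx
    rw [hI, Finset.mem_product] at hx
    exact ⟨Fintype.mem_piFinset.1 hx.1, hx.2⟩
  have hne : ∀ x ∈ I, ∏ i, x.1 i ≠ 0 := fun x hx =>
    Finset.prod_ne_zero_iff.2 fun i _ => (hSm _ ((hIm x hx).1 i)).1.ne_zero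
  set v : (Fin l → GaussianInt) × GaussianInt → GaussianInt := fun x => (∏ i, x.1 i) * x.2
    with hv
  set a : (Fin l → GaussianInt) × GaussianInt → ℂ := fun x => (∏ i, f (x.1 i)) * g x.2 with ha
  set b : GaussianInt → ℂ := fun n => ∑ x ∈ I.filter (fun x => v x = n), a x with hb
  have hmaps : ∀ x ∈ I, v x ∈ ann R₁ R₂ := by
    intro x hx
    obtain ⟨hx1, hx2⟩ := hIm x hx
    obtain ⟨hm0, hm1, hm2⟩ := hT _ hx2
    rw [mem_ann]
    have habv : ab (v x) = (∏ i, ab (x.1 i)) * ab x.2 := by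
      rw [hv]
      show ab ((∏ i, x.1 i) * x.2) = _
      rw [ab_mul, mom_ab_prod]
    refine ⟨mul_ne_zero (hne x hx) hm0, ?_, ?_⟩
    · rw [habv, hR₁, mul_comm]
      have h1 : Real.exp (l * r / h) < ∏ i, ab (x.1 i) := by
        have h2 : Real.exp (l * r / h) = ∏ _i : Fin l, Real.exp ((r : ℝ) / h) := by
          rw [Finset.prod_const, Finset.card_univ, Fintype.card_fin, ← Real.exp_nat_mul]
          congr 1
          ring
        rw [h2]
        have : Nonempty (Fin l) := ⟨⟨0, hl⟩⟩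
        exact Finset.prod_lt_prod_of_nonempty (fun i _ => Real.exp_pos _)
          (fun i _ => (hSm _ (hx1 i)).2.1) Finset.univ_nonempty
      calc Real.exp (l * r / h) * Y < (∏ i, ab (x.1 i)) * Y := by gcongr
        _ ≤ (∏ i, ab (x.1 i)) * ab x.2 := by
          have : 0 ≤ ∏ i, ab (x.1 i) := Finset.prod_nonneg fun i _ => ab_nonneg _
          gcongr
    · rw [habv, hR₂, mul_comm]
      have h1 : ∏ i, ab (x.1 i) ≤ Real.exp (l * (r + 1) / h) := by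
        have h2 : Real.exp (l * (r + 1) / h) = ∏ _i : Fin l, Real.exp (((r : ℝ) + 1) / h) := by
          rw [Finset.prod_const, Finset.card_univ, Fintype.card_fin, ← Real.exp_nat_mul]
          congr 1
          ring
        rw [h2]
        exact Finset.prod_le_prod (fun i _ => ab_nonneg _) (fun i _ => (hSm _ (hx1 i)).2.2)
      exact mul_le_mul hm2 h1 (Finset.prod_nonneg fun i _ => ab_nonneg _) hZ.le
  have hexp : ∀ c : ℤ × ℤ, Qv f h r c ^ l * ∑ m ∈ T, g m * ch c.1 c.2 m =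
      ∑ n ∈ ann R₁ R₂, b n * ch c.1 c.2 n := by
    intro c
    have h1 : Qv f h r c ^ l * ∑ m ∈ T, g m * ch c.1 c.2 m =
        ∑ x ∈ I, a x * ch c.1 c.2 (v x) := by
      rw [Qv, Finset.sum_pow', hI, Finset.sum_product, Finset.sum_mul]
      apply Finset.sum_congr rfl
      intro q hq
      rw [Finset.mul_sum]
      apply Finset.sum_congr rfl
      intro m hm
      have hq' : ∀ i ∈ (Finset.univ : Finset (Fin l)), q i ≠ 0 := fun i _ =>
        (hSm _ (Fintype.mem_piFinset.1 hq i)).1.ne_zero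
      show (∏ i, f (q i) * ch c.1 c.2 (q i)) * (g m * ch c.1 c.2 m) =
        (∏ i, f (q i)) * g m * ch c.1 c.2 ((∏ i, q i) * m)
      rw [ch_mul (Finset.prod_ne_zero_iff.2 hq') (hT m hm).1, mom_ch_prod _ _ _ _ hq',
        Finset.prod_mul_distrib]
      ring
    rw [h1, ← Finset.sum_fiberwise_of_maps_to hmaps]
    apply Finset.sum_congr rfl
    intro n _
    rw [hb]
    show _ = (∑ x ∈ I.filter (fun x => v x = n), a x) * ch c.1 c.2 n
    rw [Finset.sum_mul]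
    apply Finset.sum_congr rfl
    intro x hx
    rw [(Finset.mem_filter.1 hx).2]
  have hbn : ∀ n ∈ ann R₁ R₂, ‖b n‖ ≤ tup S l n := by
    intro n hn
    have hn0 : n ≠ 0 := (mem_ann.1 hn).1
    have h1 : ‖b n‖ ≤ ∑ x ∈ I.filter (fun x => v x = n), (1 : ℝ) := by
      rw [hb]
      refine (norm_sum_le _ _).trans (Finset.sum_le_sum ?_)
      intro x hx
      have hxI := (Finset.mem_filter.1 hx).1
      obtain ⟨hx1, hx2⟩ := hIm x hxI
      show ‖(∏ i, f (x.1 i)) * g x.2‖ ≤ 1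
      rw [norm_mul, norm_prod]
      have h2 : ∏ i, ‖f (x.1 i)‖ ≤ 1 :=
        Finset.prod_le_one (fun i _ => norm_nonneg _)
          (fun i _ => hf.le _ (hSm _ (hx1 i)).1.ne_zero)
      have h3 := hg _ (hT _ hx2).1
      have h4 : 0 ≤ ∏ i, ‖f (x.1 i)‖ := Finset.prod_nonneg fun i _ => norm_nonneg _
      nlinarith [norm_nonneg (g x.2)]
    refine h1.trans ?_
    rw [Finset.sum_const, nsmul_eq_mul, mul_one]
    have h2 : (I.filter (fun x => v x = n)).card ≤ tup S l n := by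
      rw [tup]
      apply Finset.card_le_card_of_injOn (fun x => x.1)
      · intro x hx
        have hx' : x ∈ I.filter (fun x => v x = n) := hx
        rw [Finset.mem_filter] at hx'
        exact Finset.mem_coe.2 (Finset.mem_filter.2
          ⟨Fintype.mem_piFinset.2 (hIm x hx'.1).1, ⟨x.2, hx'.2.symm⟩⟩)
      · intro x hx y hy hxy
        have hx' : x ∈ I.filter (fun x => v x = n) := hx
        have hy' : y ∈ I.filter (fun x => v x = n) := hy
        rw [Finset.mem_filter] at hx' hy'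
        have hxy' : x.1 = y.1 := hxy
        have h5 : (∏ i, x.1 i) * x.2 = (∏ i, x.1 i) * y.2 := by
          have h6 : (∏ i, x.1 i) * x.2 = n := hx'.2
          have h7 : (∏ i, y.1 i) * y.2 = n := hy'.2
          rw [h6, hxy', h7]
        exact Prod.ext hxy' (mul_left_cancel₀ (hne x hx'.1) h5)
    exact_mod_cast h2
  have hsq : ∑ n ∈ ann R₁ R₂, ‖b n‖ ^ 2 ≤ 9 * R₂ ^ 2 * (Ls S * (Ls S + l)) ^ l := by
    calc ∑ n ∈ ann R₁ R₂, ‖b n‖ ^ 2 ≤ ∑ n ∈ ann R₁ R₂, (tup S l n : ℝ) ^ 2 :=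
          Finset.sum_le_sum fun n hn => pow_le_pow_left₀ (norm_nonneg _) (hbn n hn) 2
      _ ≤ ∑ n ∈ ball R₂, (tup S l n : ℝ) ^ 2 :=
          Finset.sum_le_sum_of_subset_of_nonneg (Finset.filter_subset _ _)
            (fun n _ _ => by positivity)
      _ ≤ _ := tup_sq S _ hSsub l R₂
  have hmain := hmvt M R₁ R₂ b hM hMY hR
  calc ∑ c ∈ fr M, (‖Qv f h r c‖ ^ l * ‖∑ m ∈ T, g m * ch c.1 c.2 m‖) ^ 2
      = ∑ c ∈ fr M, ‖∑ g ∈ ann R₁ R₂, b g * ch c.1 c.2 g‖ ^ 2 := by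
        apply Finset.sum_congr rfl
        intro c _
        rw [← hexp c, norm_mul, norm_pow]
    _ ≤ Cm * R₂ ^ 2 * ∑ g ∈ ann R₁ R₂, ‖b g‖ ^ 2 := hmain
    _ ≤ _ := by gcongr

theorem mom_Ls_cel : ∃ C : ℝ, 1 ≤ C ∧ ∀ h r : ℕ, 1 ≤ h → h ≤ r → Ls (cel h r) ≤ C := by
  obtain ⟨C, hC, hcheb⟩ := cheb_sum
  refine ⟨max 1 C, le_max_left _ _, ?_⟩
  intro h r hh hr
  have hh' : (0 : ℝ) < h := by exact_mod_cast hh
  have hu : (1 : ℝ) ≤ (r : ℝ) / h := by
    rw [one_le_div hh']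
    exact_mod_cast hr
  have h1 := hcheb _ hu
  have h2 : Ls (cel h r) ≤
      ∑ p ∈ pr (Real.exp ((r : ℝ) / h)) (Real.exp ((r : ℝ) / h + 1)), 1 / ab p ^ 2 := by
    apply Finset.sum_le_sum_of_subset_of_nonneg
    · intro p hp
      rw [cel, mem_pr] at hp
      rw [mem_pr]
      refine ⟨hp.1, hp.2.1, hp.2.2.trans ?_⟩
      apply Real.exp_le_exp.2
      rw [add_div]
      have : (1 : ℝ) / h ≤ 1 := by
        rw [div_le_one hh']
        exact_mod_cast hh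
      linarith
    · intro p _ _
      positivity
  have h3 : C / ((r : ℝ) / h) ≤ C := div_le_self hC.le hu
  exact (h2.trans (h1.trans h3)).trans (le_max_right _ _)

theorem mom_bound {Cm Cs L Z : ℝ} (hCm : 0 < Cm) (hCs : 1 ≤ Cs) (hL0 : 0 ≤ L) (hL : L ≤ Cs)
    (hZ : 0 < Z) (h r l : ℕ) (hh : 1 ≤ h) (hl : 1 ≤ l) :
    Cm * (Z * Real.exp (l * (r + 1) / h)) ^ 2 *
        (9 * (Z * Real.exp (l * (r + 1) / h)) ^ 2 * (L * (L + l)) ^ l) ≤
      (Real.exp 4 * (Cs * (Cs + 1)) * l) ^ l * Real.exp (4 * (r * l) / h) *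
        (9 * Cm * Z ^ 4) := by
  have hh' : (0 : ℝ) < h := by exact_mod_cast hh
  have hl' : (1 : ℝ) ≤ l := by exact_mod_cast hl
  have h1 : (Real.exp (l * (r + 1) / h)) ^ 4 ≤ Real.exp 4 ^ l * Real.exp (4 * (r * l) / h) := by
    rw [← Real.exp_nat_mul, ← Real.exp_nat_mul, ← Real.exp_add]
    apply Real.exp_le_exp.2
    have h2 : (l : ℝ) / h ≤ l := by
      apply div_le_self (by positivity)
      exact_mod_cast hh
    have h3 : ((4 : ℕ) : ℝ) * (l * (r + 1) / h) = 4 * (r * l) / h + 4 * (l / h) := by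
      push_cast
      ring
    rw [h3]
    linarith
  have h2 : (L * (L + l)) ^ l ≤ (Cs * (Cs + 1) * l) ^ l := by
    apply pow_le_pow_left₀ (by positivity)
    have h3 : L + l ≤ (Cs + 1) * l := by nlinarith
    calc L * (L + l) ≤ Cs * ((Cs + 1) * l) := by
          apply mul_le_mul hL h3 (by positivity) (by linarith)
      _ = Cs * (Cs + 1) * l := by ring
  have e1 : Cm * (Z * Real.exp (l * (r + 1) / h)) ^ 2 *
        (9 * (Z * Real.exp (l * (r + 1) / h)) ^ 2 * (L * (L + l)) ^ l) =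
      (9 * Cm * Z ^ 4) * ((Real.exp (l * (r + 1) / h)) ^ 4 * (L * (L + l)) ^ l) := by ring
  have e2 : (Real.exp 4 * (Cs * (Cs + 1)) * l) ^ l * Real.exp (4 * (r * l) / h) *
        (9 * Cm * Z ^ 4) = (9 * Cm * Z ^ 4) * ((Real.exp 4 ^ l * Real.exp (4 * (r * l) / h)) *
          (Cs * (Cs + 1) * l) ^ l) := by
    have : Real.exp 4 * (Cs * (Cs + 1)) * l = Real.exp 4 * (Cs * (Cs + 1) * l) := by ring
    rw [this, mul_pow]
    ring
  rw [e1, e2]
  apply mul_le_mul_of_nonneg_left _ (by positivity)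
  apply mul_le_mul h1 h2 (by positivity) (by positivity)

theorem moment_mvt : ∃ C : ℝ, 1 ≤ C ∧ ∀ (f g : GaussianInt → ℂ), CM f →
    (∀ n, n ≠ 0 → ‖g n‖ ≤ 1) → ∀ (h r l M : ℕ) (Y : ℝ), 1 ≤ h → h ≤ r → 1 ≤ l → 1 ≤ M →
    0 < Y → (M : ℝ) ≤ Y * Real.exp (l * r / h) →
    ∑ c ∈ fr M, (‖Qv f h r c‖ ^ l * ‖∑ m ∈ ann Y (2 * Y), g m * ch c.1 c.2 m‖) ^ 2 ≤
      (C * l) ^ l * Real.exp (4 * (r * l) / h) * (C * Y ^ 4) := by
  obtain ⟨Cm, hCm, hmvt⟩ := mvt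
  obtain ⟨Cs, hCs, hLs⟩ := mom_Ls_cel
  set C := max 1 (max (Real.exp 4 * (Cs * (Cs + 1))) (144 * Cm)) with hC
  have hC1 : 1 ≤ C := le_max_left _ _
  have hC2 : Real.exp 4 * (Cs * (Cs + 1)) ≤ C := (le_max_left _ _).trans (le_max_right _ _)
  have hC3 : 144 * Cm ≤ C := (le_max_right _ _).trans (le_max_right _ _)
  refine ⟨C, hC1, ?_⟩
  intro f g hf hg h r l M Y hh hr hl hM hY hMY
  have h1 := mom_gen hCm hmvt f g hf hg (ann Y (2 * Y)) Y (2 * Y) hY (by linarith)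
    (fun m hm => ⟨(mem_ann.1 hm).1, (mem_ann.1 hm).2.1.le, (mem_ann.1 hm).2.2⟩) h r l M hh hl hM
    hMY
  have h2 := mom_bound hCm hCs (mom_Ls_nonneg (cel h r)) (hLs h r hh hr)
    (show 0 < 2 * Y by linarith) h r l hh hl
  refine h1.trans (h2.trans ?_)
  have hp : 0 ≤ Cs := by linarith
  apply mul_le_mul
  · apply mul_le_mul_of_nonneg_right _ (Real.exp_pos _).le
    apply pow_le_pow_left₀ (by positivity)
    gcongr
  · calc 9 * Cm * (2 * Y) ^ 4 = 144 * Cm * Y ^ 4 := by ring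
      _ ≤ C * Y ^ 4 := by gcongr
  · positivity
  · positivity

theorem power_mvt : ∃ C : ℝ, 1 ≤ C ∧ ∀ (f : GaussianInt → ℂ), CM f →
    ∀ (h r l M : ℕ), 1 ≤ h → h ≤ r → 1 ≤ l → 1 ≤ M → (M : ℝ) ≤ Real.exp (l * r / h) →
    ∑ c ∈ fr M, ‖Qv f h r c‖ ^ (2 * l) ≤ (C * l) ^ l * Real.exp (4 * (r * l) / h) := by
  obtain ⟨Cm, hCm, hmvt⟩ := mvt
  obtain ⟨Cs, hCs, hLs⟩ := mom_Ls_cel
  set D := max 1 (9 * Cm) with hD
  have hD1 : 1 ≤ D := le_max_left _ _
  have hD2 : 9 * Cm ≤ D := le_max_right _ _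
  have hE : 1 ≤ Real.exp 4 * (Cs * (Cs + 1)) := by
    have h1 : (1 : ℝ) ≤ Real.exp 4 := Real.one_le_exp (by norm_num)
    have h2 : (1 : ℝ) ≤ Cs * (Cs + 1) := by nlinarith
    exact one_le_mul_of_one_le_of_one_le h1 h2
  refine ⟨Real.exp 4 * (Cs * (Cs + 1)) * D, by nlinarith, ?_⟩
  intro f hf h r l M hh hr hl hM hMY
  have h1 := mom_gen hCm hmvt f (fun _ => 1) hf (fun n _ => by simp) {1} 1 1 one_pos le_rfl
    (fun m hm => by
      rw [Finset.mem_singleton] at hm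
      rw [hm, ab_one]
      exact ⟨one_ne_zero, le_rfl, le_rfl⟩) h r l M hh hl hM
    (by rw [one_mul]; exact hMY)
  have h2 := mom_bound hCm hCs (mom_Ls_nonneg (cel h r)) (hLs h r hh hr)
    (show (0 : ℝ) < 1 by norm_num) h r l hh hl
  have e1 : ∑ c ∈ fr M, ‖Qv f h r c‖ ^ (2 * l) =
      ∑ c ∈ fr M, (‖Qv f h r c‖ ^ l *
        ‖∑ m ∈ ({1} : Finset GaussianInt), (fun _ => (1 : ℂ)) m * ch c.1 c.2 m‖) ^ 2 := by
    apply Finset.sum_congr rfl
    intro c _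
    rw [Finset.sum_singleton, one_mul, norm_ch, mul_one, ← pow_mul, mul_comm]
  rw [e1]
  refine h1.trans (h2.trans ?_)
  have hp : 0 ≤ Cs := by linarith
  have hDl : D ≤ D ^ l := by
    calc D = D ^ 1 := (pow_one D).symm
      _ ≤ D ^ l := pow_le_pow_right₀ hD1 hl
  calc (Real.exp 4 * (Cs * (Cs + 1)) * l) ^ l * Real.exp (4 * (r * l) / h) * (9 * Cm * 1 ^ 4)
      ≤ (Real.exp 4 * (Cs * (Cs + 1)) * l) ^ l * Real.exp (4 * (r * l) / h) * D ^ l := by
        apply mul_le_mul_of_nonneg_left _ (by positivity)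
        linarith
    _ = (Real.exp 4 * (Cs * (Cs + 1)) * D * l) ^ l * Real.exp (4 * (r * l) / h) := by
        have : Real.exp 4 * (Cs * (Cs + 1)) * D * l = Real.exp 4 * (Cs * (Cs + 1)) * l * D := by
          ring
        rw [this, mul_pow (Real.exp 4 * (Cs * (Cs + 1)) * (l : ℝ)) D]
        ring

end Pool.Agent.MRG
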