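import Pool.Agent.MRG.Decomp
import Pool.Agent.MRG.Moment

/-!
# Module PropB: passing from one range of primes to the next

The old range is `(hh, w0, w1, β)`, the new one `(h, v0, v1, α)`.  By `energy_le`, Cauchy–Schwarz over the cells and the union over
`r ∈ [w0, w1)` with `|Q_{hh,r}(c)| > e^((2-β) r/hh)` it is enough to bound for fixed `v`, `r`, with
`ℓ = ⌈(v/h)/(r/hh)⌉` (so `v/h ≤ ℓ r/hh ≤ v/h + r/hh`, `ℓ ≥ 1` since `v ≥ v0 ≥ h ≥ 1`), `Y = R e^(-v/h)`: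
`∑ |Q_v|² |FR f Y|² ≤ e^(2(2-α)v/h) e^(-2ℓ(2-β)r/hh) ∑_{c ∈ fr M} |Q_{hh,r}|^(2ℓ) |FR f Y|² ≤ e^((4-2α)v/h - 4ℓr/hh + 2βℓr/hh) (Cℓ)^ℓ e^(4rℓ/hh) C Y⁴`
(`moment_mvt` with `g = f`, `Y e^(ℓr/hh) ≥ R ≥ M`) `= C R⁴ (Cℓ)^ℓ e^(-2αv/h + 2βℓr/hh) ≤ C R⁴ (Cℓ)^ℓ e^(-2(α-β)v/h + 2β r/hh)`.
`ℓ ≤ (v/h)(hh/r) + 1 ≤ v1/h + 1` (`r ≥ w0 ≥ hh`), so by hypothesis `log (Cℓ) ≤ (α-β) w0/hh ≤ (α-β) r/hh` and
`ℓ log (Cℓ) ≤ ((v/h)(hh/r) + 1)(α-β) r/hh = (α-β)(v/h + r/hh)`.  Total exponent `≤ -(α-β) v/h + (α+β) r/hh ≤ -(α-β) v0/h + 2α w1/hh`.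
(The constant `C` of the statement is at least the constant of `moment_mvt`.)
-/

set_option autoImplicit false

namespace Pool.Agent.MRG

open Pool.Agent.GaussPret

/-- one cell of the new range and one cell of the old range -/
theorem propB_core {Cm : ℝ} (hCm : 1 ≤ Cm) (f : GaussianInt → ℂ)
    (hmom : ∀ (h r l M : ℕ) (Y : ℝ), 1 ≤ h → h ≤ r → 1 ≤ l → 1 ≤ M →
      0 < Y → (M : ℝ) ≤ Y * Real.exp (l * r / h) →
      ∑ c ∈ fr M, (‖Qv f h r c‖ ^ l * ‖FR f Y c‖) ^ 2 ≤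
        (Cm * l) ^ l * Real.exp (4 * (r * l) / h) * (Cm * Y ^ 4))
    (hh r w0 w1 h v v0 v1 M : ℕ) (R β α : ℝ) (hhh : 1 ≤ hh) (hw0 : hh ≤ w0) (hr0 : w0 ≤ r)
    (hr1 : r < w1) (hh1 : 1 ≤ h) (hhv : h ≤ v0) (hv0 : v0 ≤ v) (hv1 : v < v1) (hβ : 0 < β)
    (hβα : β < α) (hM : 1 ≤ M) (hMR : (M : ℝ) ≤ R)
    (hlog : Real.log (Cm * ((v1 : ℝ) / h + 1)) ≤ (α - β) * (w0 / hh))
    (W : Finset (ℤ × ℤ)) (hWM : W ⊆ fr M)
    (hW : ∀ c ∈ W, ‖Qv f h v c‖ ≤ Real.exp ((2 - α) * v / h) ∧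
      Real.exp ((2 - β) * r / hh) < ‖Qv f hh r c‖) :
    ∑ c ∈ W, (‖Qv f h v c‖ * ‖FR f (R * Real.exp (-((v : ℝ) / h))) c‖) ^ 2 ≤
      Cm * R ^ 4 * Real.exp (-((α - β) * (v0 / h)) + 2 * α * (w1 / hh)) := by
  have hhr : (0 : ℝ) < hh := by exact_mod_cast hhh
  have hhR : (0 : ℝ) < h := by exact_mod_cast hh1
  have hM1 : (1 : ℝ) ≤ M := by exact_mod_cast hM
  have hR0 : 0 < R := by linarith
  obtain ⟨a, ha⟩ : ∃ a : ℝ, a = (v : ℝ) / h := ⟨_, rfl⟩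
  obtain ⟨b, hb⟩ : ∃ b : ℝ, b = (r : ℝ) / hh := ⟨_, rfl⟩
  have ha1 : 1 ≤ a := by
    rw [ha, le_div_iff₀ hhR, one_mul]
    exact_mod_cast hhv.trans hv0
  have hb1 : 1 ≤ b := by
    rw [hb, le_div_iff₀ hhr, one_mul]
    exact_mod_cast hw0.trans hr0
  have hav0 : (v0 : ℝ) / h ≤ a := by
    rw [ha]
    apply div_le_div_of_nonneg_right _ hhR.le
    exact_mod_cast hv0
  have hav1 : a ≤ (v1 : ℝ) / h := by
    rw [ha]
    apply div_le_div_of_nonneg_right _ hhR.le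
    exact_mod_cast hv1.le
  have hbw0 : (w0 : ℝ) / hh ≤ b := by
    rw [hb]
    apply div_le_div_of_nonneg_right _ hhr.le
    exact_mod_cast hr0
  have hbw1 : b ≤ (w1 : ℝ) / hh := by
    rw [hb]
    apply div_le_div_of_nonneg_right _ hhr.le
    exact_mod_cast hr1.le
  have hb0 : 0 < b := by linarith
  have ha0 : 0 < a := by linarith
  obtain ⟨l, hl⟩ : ∃ l : ℕ, l = ⌈a / b⌉₊ := ⟨_, rfl⟩
  have hl1 : 1 ≤ l := by
    rw [hl]
    exact Nat.one_le_ceil_iff.2 (by positivity)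
  have hl1r : (1 : ℝ) ≤ l := by exact_mod_cast hl1
  have hlb : a ≤ l * b := by
    have h1 : a / b ≤ l := by
      rw [hl]
      exact Nat.le_ceil _
    rwa [div_le_iff₀ hb0] at h1
  have hlt : (l : ℝ) < a / b + 1 := by
    rw [hl]
    exact Nat.ceil_lt_add_one (by positivity)
  have hlb2 : l * b ≤ a + b := by
    calc (l : ℝ) * b ≤ (a / b + 1) * b := mul_le_mul_of_nonneg_right hlt.le hb0.le
      _ = a + b := by field_simp
  have hlv : (l : ℝ) ≤ (v1 : ℝ) / h + 1 := by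
    have h1 : a / b ≤ a := div_le_self ha0.le hb1
    linarith
  obtain ⟨Y, hY⟩ : ∃ Y : ℝ, Y = R * Real.exp (-((v : ℝ) / h)) := ⟨_, rfl⟩
  rw [← hY]
  have hY0 : 0 < Y := by
    rw [hY]
    positivity
  have hMY : (M : ℝ) ≤ Y * Real.exp (l * r / hh) := by
    have e : (l : ℝ) * r / hh = l * b := by
      rw [hb]
      ring
    rw [e, hY, ← ha, mul_assoc, ← Real.exp_add]
    have h1 : 1 ≤ Real.exp (-a + l * b) := Real.one_le_exp (by linarith)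
    nlinarith
  have hmm := hmom hh r l M Y hhh (hw0.trans hr0) hl1 hM hY0 hMY
  -- pointwise bound
  have hpt : ∀ c ∈ W, (‖Qv f h v c‖ * ‖FR f Y c‖) ^ 2 ≤
      Real.exp (2 * (2 - α) * a - 2 * l * (2 - β) * b) *
        (‖Qv f hh r c‖ ^ l * ‖FR f Y c‖) ^ 2 := by
    intro c hc
    obtain ⟨h1, h2⟩ := hW c hc
    have e1 : (2 - α) * (v : ℝ) / h = (2 - α) * a := by
      rw [ha]
      ring
    have e2 : (2 - β) * (r : ℝ) / hh = (2 - β) * b := by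
      rw [hb]
      ring
    rw [e1] at h1
    rw [e2] at h2
    have h3 : 1 ≤ Real.exp (-(2 - β) * b) * ‖Qv f hh r c‖ := by
      have h4 : Real.exp (-(2 - β) * b) * Real.exp ((2 - β) * b) = 1 := by
        rw [← Real.exp_add, Real.exp_eq_one_iff]
        ring
      rw [← h4]
      exact mul_le_mul_of_nonneg_left h2.le (Real.exp_pos _).le
    have h5 : 1 ≤ (Real.exp (-(2 - β) * b) * ‖Qv f hh r c‖) ^ l := one_le_pow₀ h3
    have h6 : ‖Qv f h v c‖ ≤ Real.exp ((2 - α) * a) *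
        (Real.exp (-(2 - β) * b) * ‖Qv f hh r c‖) ^ l :=
      h1.trans (le_mul_of_one_le_right (Real.exp_pos _).le h5)
    have h7 : Real.exp (2 * (2 - α) * a - 2 * l * (2 - β) * b) =
        (Real.exp ((2 - α) * a) * Real.exp (-(2 - β) * b) ^ l) ^ 2 := by
      rw [← Real.exp_nat_mul, ← Real.exp_add, ← Real.exp_nat_mul]
      congr 1
      push_cast
      ring
    rw [h7, ← mul_pow]
    apply pow_le_pow_left₀ (by positivity)
    calc ‖Qv f h v c‖ * ‖FR f Y c‖ ≤ (Real.exp ((2 - α) * a) *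
          (Real.exp (-(2 - β) * b) * ‖Qv f hh r c‖) ^ l) * ‖FR f Y c‖ :=
          mul_le_mul_of_nonneg_right h6 (norm_nonneg _)
      _ = _ := by
          rw [mul_pow]
          ring
  have hClog : ((Cm * l) ^ l : ℝ) ≤ Real.exp ((α - β) * (a + b)) := by
    have h0 : 0 < Cm * l := by positivity
    have h1 : Real.log (Cm * l) ≤ (α - β) * b := by
      have h2 : Real.log (Cm * l) ≤ Real.log (Cm * ((v1 : ℝ) / h + 1)) := by
        apply Real.log_le_log h0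
        exact mul_le_mul_of_nonneg_left hlv (by linarith)
      have h3 : (α - β) * ((w0 : ℝ) / hh) ≤ (α - β) * b :=
        mul_le_mul_of_nonneg_left hbw0 (by linarith)
      linarith
    have h4 : (Cm * l) ^ l = Real.exp (l * Real.log (Cm * l)) := by
      rw [Real.exp_nat_mul, Real.exp_log h0]
    rw [h4]
    apply Real.exp_le_exp.2
    calc (l : ℝ) * Real.log (Cm * l) ≤ l * ((α - β) * b) :=
          mul_le_mul_of_nonneg_left h1 (by linarith)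
      _ = (α - β) * (l * b) := by ring
      _ ≤ (α - β) * (a + b) := mul_le_mul_of_nonneg_left hlb2 (by linarith)
  calc ∑ c ∈ W, (‖Qv f h v c‖ * ‖FR f Y c‖) ^ 2 ≤
      ∑ c ∈ W, Real.exp (2 * (2 - α) * a - 2 * l * (2 - β) * b) *
        (‖Qv f hh r c‖ ^ l * ‖FR f Y c‖) ^ 2 := Finset.sum_le_sum hpt
    _ = Real.exp (2 * (2 - α) * a - 2 * l * (2 - β) * b) *
        ∑ c ∈ W, (‖Qv f hh r c‖ ^ l * ‖FR f Y c‖) ^ 2 := by rw [Finset.mul_sum]
    _ ≤ Real.exp (2 * (2 - α) * a - 2 * l * (2 - β) * b) *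
        ((Cm * l) ^ l * Real.exp (4 * (r * l) / hh) * (Cm * Y ^ 4)) := by
        apply mul_le_mul_of_nonneg_left _ (Real.exp_pos _).le
        refine le_trans ?_ hmm
        apply Finset.sum_le_sum_of_subset_of_nonneg hWM
        intro c _ _
        positivity
    _ ≤ Real.exp (2 * (2 - α) * a - 2 * l * (2 - β) * b) *
        (Real.exp ((α - β) * (a + b)) * Real.exp (4 * (r * l) / hh) * (Cm * Y ^ 4)) := by
        gcongr
    _ = Cm * R ^ 4 * Real.exp (-2 * α * a + 2 * β * (l * b) + (α - β) * (a + b)) := by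
        have e1 : 4 * ((r : ℝ) * l) / hh = 4 * (l * b) := by
          rw [hb]
          ring
        have e2 : Y ^ 4 = R ^ 4 * Real.exp (-4 * a) := by
          rw [hY, ← ha, mul_pow, ← Real.exp_nat_mul]
          congr 2
          push_cast
          ring
        have e3 : Real.exp (-2 * α * a + 2 * β * (l * b) + (α - β) * (a + b)) =
            Real.exp (2 * (2 - α) * a - 2 * l * (2 - β) * b) *
              (Real.exp ((α - β) * (a + b)) * Real.exp (4 * (l * b)) * Real.exp (-4 * a)) := by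
          rw [← Real.exp_add, ← Real.exp_add, ← Real.exp_add]
          congr 1
          ring
        rw [e1, e2, e3]
        ring
    _ ≤ _ := by
        apply mul_le_mul_of_nonneg_left _ (by positivity)
        apply Real.exp_le_exp.2
        have h1 : 2 * β * (l * b) ≤ 2 * β * (a + b) :=
          mul_le_mul_of_nonneg_left hlb2 (by linarith)
        have h2 : (α - β) * ((v0 : ℝ) / h) ≤ (α - β) * a :=
          mul_le_mul_of_nonneg_left hav0 (by linarith)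
        have h3 : (α + β) * b ≤ 2 * α * b := mul_le_mul_of_nonneg_right (by linarith) hb0.le
        have h4 : 2 * α * b ≤ 2 * α * ((w1 : ℝ) / hh) :=
          mul_le_mul_of_nonneg_left hbw1 (by linarith)
        nlinarith

/-- union over the cells of the old range -/
theorem propB_union (T : Finset (ℤ × ℤ)) (I : Finset ℕ) (P : ℕ → ℤ × ℤ → Prop)
    (hP : ∀ c ∈ T, ∃ r ∈ I, P r c) (F : ℤ × ℤ → ℝ) (hF : ∀ c, 0 ≤ F c) {B : ℝ}
    (hB : ∀ r ∈ I, ∀ W ⊆ T, (∀ c ∈ W, P r c) → ∑ c ∈ W, F c ≤ B) :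
    ∑ c ∈ T, F c ≤ I.card * B := by
  classical
  have h1 : ∑ c ∈ T, F c ≤ ∑ r ∈ I, ∑ c ∈ T.filter (fun c => P r c), F c := by
    have h2 : ∀ r ∈ I, ∑ c ∈ T.filter (fun c => P r c), F c =
        ∑ c ∈ T, if P r c then F c else 0 := fun r _ => Finset.sum_filter _ _
    rw [Finset.sum_congr rfl h2, Finset.sum_comm]
    apply Finset.sum_le_sum
    intro c hc
    obtain ⟨r, hr, hrc⟩ := hP c hc
    have h3 : F c = if P r c then F c else 0 := by rw [if_pos hrc]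
    calc F c = if P r c then F c else 0 := h3
      _ ≤ ∑ r ∈ I, if P r c then F c else 0 := by
        apply Finset.single_le_sum (f := fun r => if P r c then F c else 0) _ hr
        intro r' _
        show (0 : ℝ) ≤ if P r' c then F c else 0
        split_ifs
        · exact hF c
        · exact le_rfl
  refine h1.trans ?_
  rw [← nsmul_eq_mul]
  apply Finset.sum_le_card_nsmul
  intro r hr
  exact hB r hr _ (Finset.filter_subset _ _) fun c hc => (Finset.mem_filter.1 hc).2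

theorem propB : ∃ C : ℝ, 1 ≤ C ∧ ∀ (f : GaussianInt → ℂ), CM f →
    ∀ (hh w0 w1 h v0 v1 M : ℕ) (R β α : ℝ),
    1 ≤ hh → hh ≤ w0 → w0 < w1 → 1 ≤ h → h ≤ v0 → v0 < v1 → 0 < β → β < α → α ≤ 1 → 1 ≤ M →
    (M : ℝ) ≤ R → Real.exp (2 * v1 / h) ≤ R → 1 ≤ Ls (rng h v0 v1) →
    Real.log (C * ((v1 : ℝ) / h + 1)) ≤ (α - β) * (w0 / hh) →
    ∀ T ⊆ fr M, (∀ c ∈ T, (∀ v ∈ Finset.Ico v0 v1, ‖Qv f h v c‖ ≤ Real.exp ((2 - α) * v / h)) ∧
      ∃ r ∈ Finset.Ico w0 w1, Real.exp ((2 - β) * r / hh) < ‖Qv f hh r c‖) →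
    ∑ c ∈ T, ‖FR f R c‖ ^ 2 ≤ C * R ^ 4 * (((v1 : ℝ) - v0) ^ 2 * ((w1 : ℝ) - w0) *
      Real.exp (-((α - β) * (v0 / h)) + 2 * α * (w1 / hh)) +
      1 / Ls (rng h v0 v1) + 1 / h + 1 / R) := by
  obtain ⟨CE, hCE, hen⟩ := energy_le
  obtain ⟨Cm, hCm, hmom⟩ := moment_mvt
  refine ⟨2 * Cm + CE, by linarith, ?_⟩
  intro f hf hh w0 w1 h v0 v1 M R β α hhh hw0 hw01 hh1 hhv hv01 hβ hβα hα hM hMR hexp hL hlog
    T hT hc
  have hM1 : (1 : ℝ) ≤ M := by exact_mod_cast hM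
  have hR0 : 0 < R := by linarith
  have hhR : (0 : ℝ) < h := by exact_mod_cast hh1
  have hCm0 : 0 < Cm := by linarith
  have hv01r : (v0 : ℝ) < v1 := by exact_mod_cast hv01
  have hw01r : (w0 : ℝ) < w1 := by exact_mod_cast hw01
  have hlog' : Real.log (Cm * ((v1 : ℝ) / h + 1)) ≤ (α - β) * (w0 / hh) := by
    refine le_trans ?_ hlog
    have h1 : (0 : ℝ) < (v1 : ℝ) / h + 1 := by positivity
    apply Real.log_le_log (by positivity)
    exact mul_le_mul_of_nonneg_right (by linarith) h1.le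
  obtain ⟨K, hK⟩ : ∃ K : ℝ, K = Real.exp (-((α - β) * (v0 / h)) + 2 * α * (w1 / hh)) :=
    ⟨_, rfl⟩
  have hK0 : 0 < K := by
    rw [hK]
    exact Real.exp_pos _
  rw [← hK]
  -- one cell of the new range
  have hone : ∀ v ∈ Finset.Ico v0 v1,
      ∑ c ∈ T, (‖Qv f h v c‖ * ‖FR f (R * Real.exp (-((v : ℝ) / h))) c‖) ^ 2 ≤
        ((w1 : ℝ) - w0) * (Cm * R ^ 4 * K) := by
    intro v hv
    have hvI := Finset.mem_Ico.1 hv
    have h1 := propB_union T (Finset.Ico w0 w1)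
      (fun r c => Real.exp ((2 - β) * r / hh) < ‖Qv f hh r c‖) (fun c hcT => (hc c hcT).2)
      (fun c => (‖Qv f h v c‖ * ‖FR f (R * Real.exp (-((v : ℝ) / h))) c‖) ^ 2)
      (fun c => by positivity) (B := Cm * R ^ 4 * K) ?_
    · rw [Nat.card_Ico, Nat.cast_sub hw01.le] at h1
      exact h1
    · intro r hr W hW hWr
      have hrI := Finset.mem_Ico.1 hr
      rw [hK]
      exact propB_core hCm f (fun h' r' l' M' Y' a1 a2 a3 a4 a5 a6 =>
        hmom f f hf (fun n hn => hf.le n hn) h' r' l' M' Y' a1 a2 a3 a4 a5 a6)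
        hh r w0 w1 h v v0 v1 M R β α hhh hw0 hrI.1 hrI.2 hh1 hhv hvI.1 hvI.2 hβ hβα hM hMR
        hlog' W (hW.trans hT) fun c hcW => ⟨(hc c (hW hcW)).1 v hv, hWr c hcW⟩
  have hcs : ∑ c ∈ T, (∑ v ∈ Finset.Ico v0 v1, ‖Qv f h v c‖ *
        ‖FR f (R * Real.exp (-((v : ℝ) / h))) c‖) ^ 2 ≤
      ((v1 : ℝ) - v0) * (((v1 : ℝ) - v0) * (((w1 : ℝ) - w0) * (Cm * R ^ 4 * K))) := by
    have h1 : ∀ c ∈ T, (∑ v ∈ Finset.Ico v0 v1, ‖Qv f h v c‖ *
        ‖FR f (R * Real.exp (-((v : ℝ) / h))) c‖) ^ 2 ≤ ((v1 : ℝ) - v0) *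
        ∑ v ∈ Finset.Ico v0 v1, (‖Qv f h v c‖ *
          ‖FR f (R * Real.exp (-((v : ℝ) / h))) c‖) ^ 2 := by
      intro c _
      have h2 := sq_sum_le_card_mul_sum_sq (s := Finset.Ico v0 v1)
        (f := fun v => ‖Qv f h v c‖ * ‖FR f (R * Real.exp (-((v : ℝ) / h))) c‖)
      rw [Nat.card_Ico, Nat.cast_sub hv01.le] at h2
      exact h2
    refine (Finset.sum_le_sum h1).trans ?_
    rw [← Finset.mul_sum]
    apply mul_le_mul_of_nonneg_left _ (by linarith)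
    rw [Finset.sum_comm]
    refine (Finset.sum_le_card_nsmul _ _ _ hone).trans (le_of_eq ?_)
    rw [Nat.card_Ico, nsmul_eq_mul, Nat.cast_sub hv01.le]
  have hen' := hen f hf h v0 v1 M R hh1 hv01 hexp hL hM hMR T hT
  have hL0 : 0 < Ls (rng h v0 v1) := by linarith
  refine hen'.trans ?_
  obtain ⟨D, hD⟩ : ∃ D : ℝ, D = 1 / Ls (rng h v0 v1) + 1 / h + 1 / R := ⟨_, rfl⟩
  have hD0 : 0 ≤ D := by
    rw [hD]
    positivity
  have hP0 : 0 ≤ ((v1 : ℝ) - v0) ^ 2 * ((w1 : ℝ) - w0) * K := by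
    have h1 : 0 ≤ (w1 : ℝ) - w0 := by linarith
    positivity
  have hR4 : 0 < R ^ 4 := by positivity
  have h9 : 2 * ∑ c ∈ T, (∑ v ∈ Finset.Ico v0 v1, ‖Qv f h v c‖ *
        ‖FR f (R * Real.exp (-((v : ℝ) / h))) c‖) ^ 2 ≤
      2 * Cm * R ^ 4 * (((v1 : ℝ) - v0) ^ 2 * ((w1 : ℝ) - w0) * K) := by
    calc _ ≤ 2 * (((v1 : ℝ) - v0) * (((v1 : ℝ) - v0) *
          (((w1 : ℝ) - w0) * (Cm * R ^ 4 * K)))) :=
          mul_le_mul_of_nonneg_left hcs (by norm_num)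
      _ = _ := by ring
  have h10 : 0 ≤ 2 * Cm * R ^ 4 * D := by positivity
  have h11 : 0 ≤ CE * R ^ 4 * (((v1 : ℝ) - v0) ^ 2 * ((w1 : ℝ) - w0) * K) :=
    mul_nonneg (by positivity) hP0
  have e : ((v1 : ℝ) - v0) ^ 2 * ((w1 : ℝ) - w0) * K + 1 / Ls (rng h v0 v1) + 1 / h + 1 / R =
      ((v1 : ℝ) - v0) ^ 2 * ((w1 : ℝ) - w0) * K + D := by
    rw [hD]
    ring
  rw [e, ← hD]
  have e2 : (2 * Cm + CE) * R ^ 4 * (((v1 : ℝ) - v0) ^ 2 * ((w1 : ℝ) - w0) * K + D) =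
      2 * Cm * R ^ 4 * (((v1 : ℝ) - v0) ^ 2 * ((w1 : ℝ) - w0) * K) + 2 * Cm * R ^ 4 * D +
        (CE * R ^ 4 * (((v1 : ℝ) - v0) ^ 2 * ((w1 : ℝ) - w0) * K) + CE * R ^ 4 * D) := by ring
  rw [e2]
  linarith

end Pool.Agent.MRG
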