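import Pool.Agent.MRG.Weyl

/-!
# Module HalMont: large values of polynomials over annuli (Halász–Montgomery)

Put `Q(c) = ∑_{m ∈ ann Y 2Y} r(m) ch c m`, `E = ∑_{c∈T} |Q(c)|²`, `b_c = conj Q(c)`.  Then
`E = ∑_m r(m) ∑_{c∈T} b_c ch c m ≤ (∑_m |r(m)|²)^(1/2) (∑_m |∑_c b_c ch c m|²)^(1/2)` and
`∑_m |∑_c b_c ch c m|² = ∑_{c,c'} b_c conj b_c' ∑_m ch (c - c') m` (`ch_sub`)
`≤ ∑_c |b_c|² max_c ∑_{c'} |∑_m ch (c - c') m|` (`|b b'| ≤ (|b|² + |b'|²)/2`, symmetry).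
By `weyl_ann 3` (`|c - c'| ≤ D ≤ Y³`): `∑_{c'} ≤ C (Y² ∑_{|j| ≤ D} 1/(1+|j|) + |T| Y^(2-δ)) ≤ C (Y² log (2+D) + |T| Y^(2-δ))`: the `c'` with the same second
coordinate as `c` are determined by `c.1 - c'.1 ∈ [-D, D]`.  So `E² ≤ 36 Y² · E · C(…)`.
-/

set_option autoImplicit false

namespace Pool.Agent.MRG

open Pool.Agent.GaussPret

/-- `∑_{j ≤ N} 1/(1+j) ≤ 1 + log (1+N)` -/
theorem harm_le (N : ℕ) : ∑ j ∈ Finset.range (N + 1), 1 / (1 + (j : ℝ)) ≤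
    1 + Real.log (1 + N) := by
  induction N with
  | zero => simp
  | succ n ih =>
    rw [Finset.sum_range_succ]
    have h1 : (0 : ℝ) < 1 + (n : ℝ) := by positivity
    have h2 : (0 : ℝ) < 1 + ((n + 1 : ℕ) : ℝ) := by positivity
    have h3 : Real.log ((1 + (n : ℝ)) / (1 + ((n + 1 : ℕ) : ℝ))) ≤
        (1 + (n : ℝ)) / (1 + ((n + 1 : ℕ) : ℝ)) - 1 := Real.log_le_sub_one_of_pos (by positivity)
    rw [Real.log_div h1.ne' h2.ne'] at h3
    have h4 : (1 + (n : ℝ)) / (1 + ((n + 1 : ℕ) : ℝ)) - 1 = -(1 / (1 + ((n + 1 : ℕ) : ℝ))) := by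
      field_simp
      push_cast
      ring
    rw [h4] at h3
    linarith

theorem harm_int (D : ℝ) (hD : 1 ≤ D) (s : Finset ℤ) (hs : ∀ j ∈ s, |(j : ℝ)| ≤ D) :
    ∑ j ∈ s, 1 / (1 + |(j : ℝ)|) ≤ 3 * Real.log (2 + D) := by
  classical
  set N : ℕ := ⌊D⌋₊ with hN
  have hsub : s ⊆ (Finset.range (N + 1)).image (fun n : ℕ => (n : ℤ)) ∪
      ((Finset.range (N + 1)).erase 0).image (fun n : ℕ => -(n : ℤ)) := by
    intro j hj
    have hjD := hs j hj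
    have hnat : j.natAbs ≤ N := by
      apply Nat.le_floor
      have : ((j.natAbs : ℕ) : ℝ) = |(j : ℝ)| := Nat.cast_natAbs j |>.trans (by push_cast; rfl)
      rw [this]
      exact hjD
    rw [Finset.mem_union]
    rcases le_or_gt 0 j with h0 | h0
    · left
      rw [Finset.mem_image]
      exact ⟨j.natAbs, Finset.mem_range.2 (by omega), by omega⟩
    · right
      rw [Finset.mem_image]
      exact ⟨j.natAbs, Finset.mem_erase.2 ⟨by omega, Finset.mem_range.2 (by omega)⟩, by omega⟩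
  have hnn : ∀ j : ℤ, 0 ≤ 1 / (1 + |(j : ℝ)|) := fun j => by positivity
  have h1 : ∑ j ∈ s, 1 / (1 + |(j : ℝ)|) ≤
      ∑ j ∈ (Finset.range (N + 1)).image (fun n : ℕ => (n : ℤ)), 1 / (1 + |(j : ℝ)|) +
      ∑ j ∈ ((Finset.range (N + 1)).erase 0).image (fun n : ℕ => -(n : ℤ)),
        1 / (1 + |(j : ℝ)|) := by
    refine (Finset.sum_le_sum_of_subset_of_nonneg hsub fun j _ _ => hnn j).trans ?_
    rw [← Finset.sum_union_inter]
    exact le_add_of_nonneg_right (Finset.sum_nonneg fun j _ => hnn j)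
  have h2 : ∑ j ∈ (Finset.range (N + 1)).image (fun n : ℕ => (n : ℤ)), 1 / (1 + |(j : ℝ)|) =
      ∑ j ∈ Finset.range (N + 1), 1 / (1 + (j : ℝ)) := by
    rw [Finset.sum_image (fun a _ b _ h => by simpa using h)]
    refine Finset.sum_congr rfl fun j _ => ?_
    rw [Int.cast_natCast, abs_of_nonneg (Nat.cast_nonneg j)]
  have h3 : ∑ j ∈ ((Finset.range (N + 1)).erase 0).image (fun n : ℕ => -(n : ℤ)),
      1 / (1 + |(j : ℝ)|) = ∑ j ∈ (Finset.range (N + 1)).erase 0, 1 / (1 + (j : ℝ)) := by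
    rw [Finset.sum_image (fun a _ b _ h => by simpa using h)]
    refine Finset.sum_congr rfl fun j _ => ?_
    rw [Int.cast_neg, Int.cast_natCast, abs_neg, abs_of_nonneg (Nat.cast_nonneg j)]
  have h4 : ∑ j ∈ (Finset.range (N + 1)).erase 0, 1 / (1 + (j : ℝ)) =
      ∑ j ∈ Finset.range (N + 1), 1 / (1 + (j : ℝ)) - 1 := by
    rw [← Finset.add_sum_erase (Finset.range (N + 1)) _ (Finset.mem_range.2 (Nat.succ_pos N))]
    simp
  have h5 := harm_le N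
  have hND : (N : ℝ) ≤ D := Nat.floor_le (by linarith)
  have h6 : Real.log (1 + N) ≤ Real.log (2 + D) :=
    Real.log_le_log (by positivity) (by linarith)
  have h7 : 1 ≤ Real.log (2 + D) := by
    rw [Real.le_log_iff_exp_le (by linarith)]
    have := Real.exp_one_lt_d9
    linarith
  rw [h2, h3, h4] at h1
  linarith

theorem halmont : ∃ δ C : ℝ, 0 < δ ∧ δ ≤ 1 / 2 ∧ 0 < C ∧
    ∀ (Y D : ℝ) (r : GaussianInt → ℂ) (T : Finset (ℤ × ℤ)), 1 ≤ Y → 1 ≤ D → D ≤ Y ^ 3 →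
    (∀ g, g ≠ 0 → ‖r g‖ ≤ 1) →
    (∀ c ∈ T, ∀ c' ∈ T, |((c.1 - c'.1 : ℤ) : ℝ)| + |((c.2 - c'.2 : ℤ) : ℝ)| ≤ D) →
    ∑ c ∈ T, ‖∑ m ∈ ann Y (2 * Y), r m * ch c.1 c.2 m‖ ^ 2 ≤
      C * Y ^ 2 * (Y ^ 2 * Real.log (2 + D) + T.card * Y ^ (2 - δ)) := by
  classical
  obtain ⟨δ, C, hδ, hδ2, hC, hW⟩ := weyl_ann 3
  refine ⟨δ, 108 * C, hδ, hδ2, by positivity, ?_⟩
  intro Y D r T hY hD hDY hr hT
  have hY0 : 0 < Y := by linarith
  set A := ann Y (2 * Y) with hA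
  set Q : ℤ × ℤ → ℂ := fun c => ∑ m ∈ A, r m * ch c.1 c.2 m with hQ
  set E : ℝ := ∑ c ∈ T, ‖Q c‖ ^ 2 with hE
  have hE0 : 0 ≤ E := Finset.sum_nonneg fun c _ => by positivity
  set K : ℤ × ℤ → ℤ × ℤ → ℝ := fun c c' =>
    C * ((if c.2 - c'.2 = 0 then Y ^ 2 / (1 + |((c.1 - c'.1 : ℤ) : ℝ)|) else 0) + Y ^ (2 - δ))
    with hK
  have hKs : ∀ c c', K c c' = K c' c := by
    intro c c'
    simp only [hK]
    have e1 : |((c.1 - c'.1 : ℤ) : ℝ)| = |((c'.1 - c.1 : ℤ) : ℝ)| := by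
      push_cast
      exact abs_sub_comm _ _
    rw [e1]
    by_cases h : c.2 - c'.2 = 0
    · rw [if_pos h, if_pos (by omega)]
    · rw [if_neg h, if_neg (by omega)]
  have hK0 : ∀ c c', 0 ≤ K c c' := by
    intro c c'
    simp only [hK]
    have : (0 : ℝ) ≤ if c.2 - c'.2 = 0 then Y ^ 2 / (1 + |((c.1 - c'.1 : ℤ) : ℝ)|) else 0 := by
      split_ifs
      · positivity
      · exact le_rfl
    positivity
  have hker : ∀ c ∈ T, ∀ c' ∈ T,
      ‖∑ m ∈ A, ch c.1 c.2 m * (starRingEnd ℂ) (ch c'.1 c'.2 m)‖ ≤ K c c' := by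
    intro c hc c' hc'
    have h1 := hW Y ((c.1 - c'.1 : ℤ) : ℝ) (c.2 - c'.2) hY ((hT c hc c' hc').trans hDY)
    refine le_trans (le_of_eq ?_) h1
    congr 1
    refine Finset.sum_congr rfl fun m _ => ?_
    rw [← ch_sub]
    congr 1
    push_cast
    rfl
  set b : ℤ × ℤ → ℂ := fun c => (starRingEnd ℂ) (Q c) with hb
  have hbn : ∀ c, ‖b c‖ = ‖Q c‖ := fun c => RCLike.norm_conj _
  set S : GaussianInt → ℂ := fun m => ∑ c ∈ T, b c * ch c.1 c.2 m with hS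
  -- duality
  have hdual : (E : ℂ) = ∑ m ∈ A, r m * S m := by
    have e1 : (E : ℂ) = ∑ c ∈ T, Q c * b c := by
      rw [hE]
      push_cast
      refine Finset.sum_congr rfl fun c _ => ?_
      rw [hb]
      simp only
      rw [Complex.mul_conj, Complex.normSq_eq_norm_sq]
      push_cast
      rfl
    rw [e1]
    simp only [hQ, hS, Finset.sum_mul, Finset.mul_sum]
    rw [Finset.sum_comm]
    refine Finset.sum_congr rfl fun m _ => Finset.sum_congr rfl fun c _ => ?_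
    ring
  have hE1 : E ≤ ∑ m ∈ A, ‖S m‖ := by
    have : E = ‖(E : ℂ)‖ := by rw [Complex.norm_real, Real.norm_eq_abs, abs_of_nonneg hE0]
    rw [this, hdual]
    refine (norm_sum_le _ _).trans (Finset.sum_le_sum fun m hm => ?_)
    rw [norm_mul]
    have hm0 : m ≠ 0 := (mem_ann.1 hm).1
    calc ‖r m‖ * ‖S m‖ ≤ 1 * ‖S m‖ := by
          apply mul_le_mul_of_nonneg_right (hr m hm0) (norm_nonneg _)
      _ = ‖S m‖ := one_mul _
  have hcardA : (A.card : ℝ) ≤ 36 * Y ^ 2 := by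
    have := card_ann_le Y (2 * Y)
    rw [← hA] at this
    nlinarith
  have hE2 : E ^ 2 ≤ 36 * Y ^ 2 * ∑ m ∈ A, ‖S m‖ ^ 2 := by
    have h1 : (∑ m ∈ A, ‖S m‖) ^ 2 ≤ A.card * ∑ m ∈ A, ‖S m‖ ^ 2 := sq_sum_le_card_mul_sum_sq
    have h2 : E ^ 2 ≤ (∑ m ∈ A, ‖S m‖) ^ 2 := pow_le_pow_left₀ hE0 hE1 2
    have h3 : 0 ≤ ∑ m ∈ A, ‖S m‖ ^ 2 := Finset.sum_nonneg fun m _ => by positivity
    calc E ^ 2 ≤ A.card * ∑ m ∈ A, ‖S m‖ ^ 2 := h2.trans h1
      _ ≤ 36 * Y ^ 2 * ∑ m ∈ A, ‖S m‖ ^ 2 := mul_le_mul_of_nonneg_right hcardA h3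
  -- expansion
  have hexp : ((∑ m ∈ A, ‖S m‖ ^ 2 : ℝ) : ℂ) = ∑ c ∈ T, ∑ c' ∈ T,
      b c * (starRingEnd ℂ) (b c') *
        ∑ m ∈ A, ch c.1 c.2 m * (starRingEnd ℂ) (ch c'.1 c'.2 m) := by
    have e1 : ((∑ m ∈ A, ‖S m‖ ^ 2 : ℝ) : ℂ) = ∑ m ∈ A, ∑ c ∈ T, ∑ c' ∈ T,
        b c * (starRingEnd ℂ) (b c') * (ch c.1 c.2 m * (starRingEnd ℂ) (ch c'.1 c'.2 m)) := by
      push_cast
      refine Finset.sum_congr rfl fun m _ => ?_
      have e2 : ((‖S m‖ : ℝ) : ℂ) ^ 2 = S m * (starRingEnd ℂ) (S m) := by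
        rw [Complex.mul_conj, Complex.normSq_eq_norm_sq]
        push_cast
        rfl
      rw [e2]
      simp only [hS, map_sum, map_mul]
      rw [Finset.sum_mul_sum]
      refine Finset.sum_congr rfl fun c _ => Finset.sum_congr rfl fun c' _ => ?_
      ring
    rw [e1, Finset.sum_comm]
    refine Finset.sum_congr rfl fun c _ => ?_
    rw [Finset.sum_comm]
    refine Finset.sum_congr rfl fun c' _ => ?_
    rw [Finset.mul_sum]
  set M : ℝ := C * (3 * Y ^ 2 * Real.log (2 + D) + T.card * Y ^ (2 - δ)) with hM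
  have hrow : ∀ c ∈ T, ∑ c' ∈ T, K c c' ≤ M := by
    intro c hc
    simp only [hK]
    rw [← Finset.mul_sum, Finset.sum_add_distrib, Finset.sum_const, nsmul_eq_mul, hM]
    apply mul_le_mul_of_nonneg_left _ hC.le
    apply add_le_add_left
    rw [← Finset.sum_filter]
    set T' := T.filter (fun c' => c.2 - c'.2 = 0) with hT'
    have e1 : ∑ c' ∈ T', Y ^ 2 / (1 + |((c.1 - c'.1 : ℤ) : ℝ)|) =
        Y ^ 2 * ∑ j ∈ T'.image (fun c' => c.1 - c'.1), 1 / (1 + |(j : ℝ)|) := by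
      rw [Finset.sum_image, Finset.mul_sum]
      · refine Finset.sum_congr rfl fun c' _ => ?_
        rw [mul_one_div]
      · intro x hx y hy hxy
        have hx2 := (Finset.mem_filter.1 hx).2
        have hy2 := (Finset.mem_filter.1 hy).2
        simp only at hxy
        ext
        · omega
        · omega
    rw [e1]
    have h2 := harm_int D hD (T'.image (fun c' => c.1 - c'.1)) (by
      intro j hj
      obtain ⟨c', hc', rfl⟩ := Finset.mem_image.1 hj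
      have h3 := hT c hc c' (Finset.mem_filter.1 hc').1
      have h4 : 0 ≤ |((c.2 - c'.2 : ℤ) : ℝ)| := abs_nonneg _
      linarith)
    have hY2 : 0 ≤ Y ^ 2 := by positivity
    calc Y ^ 2 * ∑ j ∈ T'.image (fun c' => c.1 - c'.1), 1 / (1 + |(j : ℝ)|) ≤
        Y ^ 2 * (3 * Real.log (2 + D)) := mul_le_mul_of_nonneg_left h2 hY2
      _ = 3 * Y ^ 2 * Real.log (2 + D) := by ring
  have hsecond : ∑ m ∈ A, ‖S m‖ ^ 2 ≤ E * M := by
    have h0 : 0 ≤ ∑ m ∈ A, ‖S m‖ ^ 2 := Finset.sum_nonneg fun m _ => by positivity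
    have h1 : ∑ m ∈ A, ‖S m‖ ^ 2 = ‖((∑ m ∈ A, ‖S m‖ ^ 2 : ℝ) : ℂ)‖ := by
      rw [Complex.norm_real, Real.norm_eq_abs, abs_of_nonneg h0]
    rw [h1, hexp]
    calc ‖∑ c ∈ T, ∑ c' ∈ T, b c * (starRingEnd ℂ) (b c') *
          ∑ m ∈ A, ch c.1 c.2 m * (starRingEnd ℂ) (ch c'.1 c'.2 m)‖
        ≤ ∑ c ∈ T, ∑ c' ∈ T, (‖b c‖ ^ 2 / 2 * K c c' + ‖b c'‖ ^ 2 / 2 * K c c') := by
          refine (norm_sum_le _ _).trans (Finset.sum_le_sum fun c hc => ?_)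
          refine (norm_sum_le _ _).trans (Finset.sum_le_sum fun c' hc' => ?_)
          rw [norm_mul, norm_mul]
          have hcc : ‖(starRingEnd ℂ) (b c')‖ = ‖b c'‖ := RCLike.norm_conj _
          rw [hcc]
          have h2 := hker c hc c' hc'
          have h3 : ‖b c‖ * ‖b c'‖ ≤ ‖b c‖ ^ 2 / 2 + ‖b c'‖ ^ 2 / 2 := by
            nlinarith [sq_nonneg (‖b c‖ - ‖b c'‖)]
          have h4 : 0 ≤ ‖b c‖ * ‖b c'‖ := by positivity
          calc ‖b c‖ * ‖b c'‖ *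
                ‖∑ m ∈ A, ch c.1 c.2 m * (starRingEnd ℂ) (ch c'.1 c'.2 m)‖
              ≤ ‖b c‖ * ‖b c'‖ * K c c' := mul_le_mul_of_nonneg_left h2 h4
            _ ≤ (‖b c‖ ^ 2 / 2 + ‖b c'‖ ^ 2 / 2) * K c c' :=
                mul_le_mul_of_nonneg_right h3 (hK0 c c')
            _ = ‖b c‖ ^ 2 / 2 * K c c' + ‖b c'‖ ^ 2 / 2 * K c c' := by rw [add_mul]
      _ = ∑ c ∈ T, ‖b c‖ ^ 2 * ∑ c' ∈ T, K c c' := by
          have e1 : ∑ c ∈ T, ∑ c' ∈ T, (‖b c‖ ^ 2 / 2 * K c c' + ‖b c'‖ ^ 2 / 2 * K c c') =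
              ∑ c ∈ T, ∑ c' ∈ T, ‖b c‖ ^ 2 / 2 * K c c' +
              ∑ c ∈ T, ∑ c' ∈ T, ‖b c'‖ ^ 2 / 2 * K c c' := by
            rw [← Finset.sum_add_distrib]
            exact Finset.sum_congr rfl fun c _ => Finset.sum_add_distrib
          have e2 : ∑ c ∈ T, ∑ c' ∈ T, ‖b c'‖ ^ 2 / 2 * K c c' =
              ∑ c ∈ T, ∑ c' ∈ T, ‖b c‖ ^ 2 / 2 * K c c' := by
            rw [Finset.sum_comm]
            refine Finset.sum_congr rfl fun c _ => Finset.sum_congr rfl fun c' _ => ?_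
            rw [hKs c' c]
          rw [e1, e2, ← Finset.sum_add_distrib]
          refine Finset.sum_congr rfl fun c _ => ?_
          rw [Finset.mul_sum, ← Finset.sum_add_distrib]
          refine Finset.sum_congr rfl fun c' _ => ?_
          ring
      _ ≤ ∑ c ∈ T, ‖b c‖ ^ 2 * M := by
          refine Finset.sum_le_sum fun c hc => ?_
          exact mul_le_mul_of_nonneg_left (hrow c hc) (by positivity)
      _ = E * M := by
          rw [← Finset.sum_mul, hE]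
          congr 1
          exact Finset.sum_congr rfl fun c _ => by rw [hbn c]
  have hM0 : 0 ≤ M := by
    have : 0 ≤ Real.log (2 + D) := Real.log_nonneg (by linarith)
    positivity
  have hfin : E ≤ 36 * Y ^ 2 * M := by
    rcases hE0.eq_or_lt with h0 | h0
    · rw [← h0]
      positivity
    · have h1 : E ^ 2 ≤ 36 * Y ^ 2 * (E * M) :=
        hE2.trans (mul_le_mul_of_nonneg_left hsecond (by positivity))
      have h2 : E * E ≤ (36 * Y ^ 2 * M) * E := by nlinarith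
      exact le_of_mul_le_mul_right h2 h0
  refine hfin.trans ?_
  rw [hM]
  have hl : 0 ≤ Real.log (2 + D) := Real.log_nonneg (by linarith)
  have hp : 0 ≤ (T.card : ℝ) * Y ^ (2 - δ) := by positivity
  have e1 : 36 * Y ^ 2 * (C * (3 * Y ^ 2 * Real.log (2 + D) + T.card * Y ^ (2 - δ))) =
      C * Y ^ 2 * (108 * (Y ^ 2 * Real.log (2 + D)) + 36 * (T.card * Y ^ (2 - δ))) := by ring
  rw [e1]
  have e2 : 108 * C * Y ^ 2 * (Y ^ 2 * Real.log (2 + D) + T.card * Y ^ (2 - δ)) =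
      C * Y ^ 2 * (108 * (Y ^ 2 * Real.log (2 + D)) + 108 * (T.card * Y ^ (2 - δ))) := by ring
  rw [e2]
  apply mul_le_mul_of_nonneg_left _ (by positivity)
  linarith

end Pool.Agent.MRG
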