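import Pool.Agent.MRG.Eul

/-!
# Module Mert: Mertens' theorem with a bounded error

* `mert_sigma`: `euler` for `g = 1` (`CM`), and `sum_n`: `∑_p |p|^(-2-σ) = log (1/σ) + O(1)`.
* `mert_le`: with `σ = 1/u`: `∑_{|p| ≤ e^u} |p|^(-2) (1 - |p|^(-1/u)) ≤ ∑_{|p| ≤ e^u} (log|p|/u)/|p|² ≤ C` by `cheb_div`, so
  `∑_{|p| ≤ e^u} 1/|p|² ≤ log u + C`; and `∑_{|p| ≤ e^u} 1/|p|² ≥ ∑_{|p| ≤ e^u} |p|^(-2-1/u) ≥ log u - C` by `sum_p_tail`.
* `mertens2`: difference of two values.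
* `eulD_le`: `σ = 1/u`; `∑_p Re g(p) |p|^(-2-σ) = ∑_p |p|^(-2-σ) - ∑_p (1 - Re g(p)) |p|^(-2-σ) ≤ log u + C - (1/3) ∑_{|p| ≤ e^u} (1 - Re g(p))/|p|²`
  (`|p|^(-1/u) ≥ e^(-1) ≥ 1/3`; the terms with `|p| > e^u` are dropped, `1 - Re g(p) ≥ 0`).
* `eulD_ge`: `∑_{|p| ≤ e^u} (1 - Re g(p))/|p|² ≥ ∑_{|p| ≤ e^u} (1 - Re g(p))|p|^(-2-σ) ≥ ∑_p (1 - Re g(p)) |p|^(-2-σ) - 2 sum_p_tail ≥
  log u - C - ∑_p Re g(p)|p|^(-2-σ) ≥ log u - C - log (C ‖Gs g σ‖)`.
-/

set_option autoImplicit false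

namespace Pool.Agent.MRG

open Pool.Agent.GaussPret

private theorem ab_rpow_pos {p : GaussianInt} (hp : Prime p) (s : ℝ) : 0 < ab p ^ s :=
  Real.rpow_pos_of_pos (ab_pos hp.ne_zero) s

/-- `|p|^(-2-σ) = |p|^(-σ) / |p|²` -/
private theorem rpow_split {p : GaussianInt} (hp : Prime p) (s : ℝ) :
    ab p ^ (-(2 + s)) = Real.exp (-(s * Real.log (ab p))) * (1 / ab p ^ 2) := by
  have h0 := ab_pos hp.ne_zero
  rw [neg_add, Real.rpow_add h0, Real.rpow_neg h0.le, Real.rpow_two,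
    Real.rpow_def_of_pos h0 (-s), mul_comm, one_div]
  congr 2
  ring

private theorem rpow_le_sq {p : GaussianInt} (hp : Prime p) {s : ℝ} (hs : 0 ≤ s) :
    ab p ^ (-(2 + s)) ≤ 1 / ab p ^ 2 := by
  have h0 := ab_pos hp.ne_zero
  rw [rpow_split hp]
  have h1 : Real.exp (-(s * Real.log (ab p))) ≤ 1 := by
    rw [← Real.exp_zero]
    apply Real.exp_le_exp.2
    have := mul_nonneg hs (Real.log_nonneg (one_le_ab hp.ne_zero))
    linarith
  have h2 : 0 ≤ 1 / ab p ^ 2 := by positivity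
  calc _ ≤ 1 * (1 / ab p ^ 2) := mul_le_mul_of_nonneg_right h1 h2
    _ = _ := one_mul _

/-- splitting of the sum over all primes at `e^u` -/
private theorem spl : ∃ C : ℝ, 0 < C ∧ ∀ u : ℝ, 1 ≤ u → ∀ (a : GaussianInt → ℝ) (M : ℝ), 0 ≤ M →
    (∀ p, Prime p → 0 ≤ a p ∧ a p ≤ M * ab p ^ (-(2 + 1 / u))) →
    ∑ p ∈ pr 1 (Real.exp u), a p ≤ ∑' p : P1, a p ∧
      ∑' p : P1, a p ≤ ∑ p ∈ pr 1 (Real.exp u), a p + M * C := by
  classical
  obtain ⟨C, hC, hT⟩ := sum_p_tail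
  refine ⟨C, hC, fun u hu a M hM ha => ?_⟩
  have hσ : 0 < 1 / u := by positivity
  have hsum : Summable fun p : P1 => a p := by
    refine Summable.of_nonneg_of_le (fun p => (ha p (P1_prime p)).1)
      (fun p => (ha p (P1_prime p)).2) ?_
    exact (summable_p hσ).mul_left M
  have hS : ∑ p ∈ (pr 1 (Real.exp u)).subtype
      (fun p : GaussianInt => Prime p ∧ 0 < p.re ∧ 0 ≤ p.im), a p = ∑ p ∈ pr 1 (Real.exp u), a p :=
    Finset.sum_subtype_of_mem a (fun x hx => (mem_pr.1 hx).1)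
  constructor
  · rw [← hS]
    exact hsum.sum_le_tsum _ (fun p _ => (ha p (P1_prime p)).1)
  · refine hsum.tsum_le_of_sum_le fun F => ?_
    rw [← Finset.sum_filter_add_sum_filter_not F (fun p : P1 => (p : GaussianInt) ∈ pr 1 (Real.exp u))]
    refine add_le_add ?_ ?_
    · rw [← hS]
      refine Finset.sum_le_sum_of_subset_of_nonneg ?_ (fun p _ _ => (ha p (P1_prime p)).1)
      intro p hp
      rw [Finset.mem_subtype]
      exact (Finset.mem_filter.1 hp).2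
    · have h1 : ∑ p ∈ F.filter (fun p : P1 => ¬ (p : GaussianInt) ∈ pr 1 (Real.exp u)), a p ≤
          ∑ p ∈ F.filter (fun p : P1 => ¬ (p : GaussianInt) ∈ pr 1 (Real.exp u)),
            M * ab (p : GaussianInt) ^ (-(2 + 1 / u)) :=
        Finset.sum_le_sum fun p _ => (ha p (P1_prime p)).2
      refine h1.trans ?_
      rw [← Finset.mul_sum]
      refine mul_le_mul_of_nonneg_left ?_ hM
      have h2 := hT u hu ((F.filter (fun p : P1 => ¬ (p : GaussianInt) ∈ pr 1 (Real.exp u))).map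
        (Function.Embedding.subtype _)) (by
          intro p hp
          rw [Finset.mem_map] at hp
          obtain ⟨q, hq, rfl⟩ := hp
          refine ⟨q.2, ?_⟩
          by_contra hlt
          have hq2 := (Finset.mem_filter.1 hq).2
          apply hq2
          rw [mem_pr]
          exact ⟨q.2, one_lt_ab_prime (P1_prime q), not_lt.1 hlt⟩)
      rw [Finset.sum_map] at h2
      exact h2

theorem mert_sigma : ∃ C : ℝ, 0 < C ∧ ∀ σ : ℝ, 0 < σ → σ ≤ 1 →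
    |∑' p : P1, ab (p : GaussianInt) ^ (-(2 + σ)) - Real.log (1 / σ)| ≤ C := by
  obtain ⟨K, hK, hE⟩ := euler
  obtain ⟨c, C, hc, hC, hN⟩ := sum_n
  refine ⟨|Real.log (c / K)| + |Real.log (K * C)| + 1, by positivity, fun σ hσ hσ1 => ?_⟩
  have hCM : CM (fun _ => (1 : ℂ)) :=
    { mul := fun a b _ _ => by simp
      le := fun a _ => by simp
      map_I := rfl }
  obtain ⟨h1, h2⟩ := hE _ hCM σ hσ hσ1
  obtain ⟨h3, h4⟩ := hN σ hσ hσ1
  have hG : Gs (fun _ => (1 : ℂ)) σ = ((∑' n : GaussianInt, ab n ^ (-(2 + σ)) : ℝ) : ℂ) := by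
    rw [Gs, Complex.ofReal_tsum]
    refine tsum_congr fun n => ?_
    rw [one_mul]
  have hpos : 0 ≤ ∑' n : GaussianInt, ab n ^ (-(2 + σ)) :=
    tsum_nonneg fun n => Real.rpow_nonneg (ab_nonneg n) _
  rw [hG, Complex.norm_real, Real.norm_eq_abs, abs_of_nonneg hpos] at h1 h2
  have hP : ∑' p : P1, ((fun _ => (1 : ℂ)) (p : GaussianInt)).re * ab (p : GaussianInt) ^ (-(2 + σ)) =
      ∑' p : P1, ab (p : GaussianInt) ^ (-(2 + σ)) := by
    refine tsum_congr fun p => ?_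
    rw [Complex.one_re, one_mul]
  rw [hP] at h1 h2
  set P := ∑' p : P1, ab (p : GaussianInt) ^ (-(2 + σ)) with hPd
  set S := ∑' n : GaussianInt, ab n ^ (-(2 + σ)) with hSd
  have hlow : Real.log (c / K) + Real.log (1 / σ) ≤ P := by
    rw [← Real.log_mul (by positivity) (by positivity)]
    rw [Real.log_le_iff_le_exp (by positivity)]
    have h5 : c / σ ≤ K * Real.exp P := h3.trans h1
    have h6 : c / K * (1 / σ) = (c / σ) / K := by
      field_simp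
    rw [h6, div_le_iff₀ hK]
    linarith
  have hup : P ≤ Real.log (K * C) + Real.log (1 / σ) := by
    rw [← Real.log_mul (by positivity) (by positivity)]
    rw [Real.le_log_iff_exp_le (by positivity)]
    have h5 : Real.exp P ≤ K * (C / σ) := h2.trans (mul_le_mul_of_nonneg_left h4 hK.le)
    have h6 : K * C * (1 / σ) = K * (C / σ) := by ring
    rw [h6]
    exact h5
  have e1 := neg_abs_le (Real.log (c / K))
  have e2 := le_abs_self (Real.log (K * C))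
  have e3 := abs_nonneg (Real.log (c / K))
  have e4 := abs_nonneg (Real.log (K * C))
  rw [abs_le]
  constructor <;> linarith

private theorem sq_sub {u : ℝ} (hu : 1 ≤ u) {p : GaussianInt} (hp : Prime p) :
    1 / ab p ^ 2 ≤ ab p ^ (-(2 + 1 / u)) + (1 / u) * (Real.log (ab p) / ab p ^ 2) := by
  have h0 := ab_pos hp.ne_zero
  rw [rpow_split hp]
  have h1 := Real.add_one_le_exp (-(1 / u * Real.log (ab p)))
  have h2 : 0 ≤ 1 / ab p ^ 2 := by positivity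
  have h3 := mul_le_mul_of_nonneg_right h1 h2
  have h4 : 1 / u * (Real.log (ab p) / ab p ^ 2) = 1 / u * Real.log (ab p) * (1 / ab p ^ 2) := by
    ring
  rw [h4]
  nlinarith

theorem mert_le : ∃ C : ℝ, 0 < C ∧ ∀ u : ℝ, 1 ≤ u →
    |∑ p ∈ pr 1 (Real.exp u), 1 / ab p ^ 2 - Real.log u| ≤ C := by
  obtain ⟨C1, hC1, h1⟩ := mert_sigma
  obtain ⟨C2, hC2, h2⟩ := spl
  obtain ⟨C3, hC3, h3⟩ := cheb_div
  refine ⟨C1 + C2 + 2 * C3, by positivity, fun u hu => ?_⟩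
  have hu0 : 0 < u := by linarith
  have hσ : 0 < 1 / u := by positivity
  have hσ1 : 1 / u ≤ 1 := by rw [div_le_one hu0]; exact hu
  have a1 := h1 (1 / u) hσ hσ1
  rw [one_div_one_div, abs_le] at a1
  obtain ⟨a2, a3⟩ := h2 u hu (fun p => ab p ^ (-(2 + 1 / u))) 1 zero_le_one (fun p hp =>
    ⟨(ab_rpow_pos hp _).le, by rw [one_mul]⟩)
  have a4 := h3 u hu0.le
  have a5 : ∑ p ∈ pr 1 (Real.exp u), ab p ^ (-(2 + 1 / u)) ≤
      ∑ p ∈ pr 1 (Real.exp u), 1 / ab p ^ 2 :=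
    Finset.sum_le_sum fun p hp => rpow_le_sq (mem_pr.1 hp).1.1 hσ.le
  have a6 : ∑ p ∈ pr 1 (Real.exp u), 1 / ab p ^ 2 ≤
      ∑ p ∈ pr 1 (Real.exp u), ab p ^ (-(2 + 1 / u)) +
        (1 / u) * ∑ p ∈ pr 1 (Real.exp u), Real.log (ab p) / ab p ^ 2 := by
    rw [Finset.mul_sum, ← Finset.sum_add_distrib]
    exact Finset.sum_le_sum fun p hp => sq_sub hu (mem_pr.1 hp).1.1
  have a7 : (1 / u) * ∑ p ∈ pr 1 (Real.exp u), Real.log (ab p) / ab p ^ 2 ≤ 2 * C3 := by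
    have b1 := mul_le_mul_of_nonneg_left a4 hσ.le
    have b2 : 1 / u * (C3 * (u + 1)) ≤ 2 * C3 := by
      rw [one_div, inv_mul_le_iff₀ hu0]
      nlinarith
    linarith
  rw [abs_le]
  constructor <;> linarith [a1.1, a1.2]

theorem mertens2 : ∃ C : ℝ, 0 < C ∧ ∀ a b : ℝ, 1 ≤ a → a ≤ b →
    |Ls (pr (Real.exp a) (Real.exp b)) - Real.log (b / a)| ≤ C := by
  classical
  obtain ⟨C, hC, h⟩ := mert_le
  refine ⟨2 * C, by positivity, fun a b ha hab => ?_⟩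
  have h1 := h a ha
  have h2 := h b (ha.trans hab)
  have hdis : Disjoint (pr 1 (Real.exp a)) (pr (Real.exp a) (Real.exp b)) := by
    rw [Finset.disjoint_left]
    intro p hp hq
    exact absurd (mem_pr.1 hp).2.2 (not_le.2 (mem_pr.1 hq).2.1)
  have hun : pr 1 (Real.exp b) = (pr 1 (Real.exp a)).disjUnion (pr (Real.exp a) (Real.exp b)) hdis := by
    ext p
    rw [Finset.mem_disjUnion, mem_pr, mem_pr, mem_pr]
    have e1 : Real.exp a ≤ Real.exp b := Real.exp_le_exp.2 hab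
    have e2 : 1 < Real.exp a := Real.one_lt_exp_iff.2 (by linarith)
    constructor
    · rintro ⟨hp, x1, x2⟩
      rcases le_or_gt (ab p) (Real.exp a) with hle | hlt
      · exact Or.inl ⟨hp, x1, hle⟩
      · exact Or.inr ⟨hp, hlt, x2⟩
    · rintro (⟨hp, x1, x2⟩ | ⟨hp, x1, x2⟩)
      · exact ⟨hp, x1, x2.trans e1⟩
      · exact ⟨hp, e2.trans x1, x2⟩
  rw [hun, Finset.sum_disjUnion] at h2
  rw [Ls, Real.log_div (by linarith) (by linarith)]
  rw [abs_le] at h1 h2 ⊢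
  constructor <;> linarith [h1.1, h1.2, h2.1, h2.2]

private theorem re_bound {g : GaussianInt → ℂ} (hg : CM g) {p : GaussianInt} (hp : Prime p) :
    0 ≤ 1 - (g p).re ∧ 1 - (g p).re ≤ 2 := by
  have h1 := hg.le p hp.ne_zero
  have h2 := (Complex.abs_re_le_norm (g p)).trans h1
  rw [abs_le] at h2
  constructor <;> linarith [h2.1, h2.2]

/-- the tail and the main part of `∑ (1 - Re g(p)) |p|^(-2-σ)` -/
private theorem tsum_re {g : GaussianInt → ℂ} (hg : CM g) {u : ℝ} (hu : 1 ≤ u) :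
    ∑' p : P1, (g p).re * ab (p : GaussianInt) ^ (-(2 + 1 / u)) =
      ∑' p : P1, ab (p : GaussianInt) ^ (-(2 + 1 / u)) -
        ∑' p : P1, (1 - (g p).re) * ab (p : GaussianInt) ^ (-(2 + 1 / u)) := by
  have hσ : 0 < 1 / u := by positivity
  have hs1 := summable_p hσ
  have hs2 : Summable fun p : P1 => (1 - (g p).re) * ab (p : GaussianInt) ^ (-(2 + 1 / u)) := by
    refine Summable.of_nonneg_of_le (fun p => ?_) (fun p => ?_) (hs1.mul_left 2)
    · exact mul_nonneg (re_bound hg (P1_prime p)).1 (ab_rpow_pos (P1_prime p) _).le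
    · exact mul_le_mul_of_nonneg_right (re_bound hg (P1_prime p)).2 (ab_rpow_pos (P1_prime p) _).le
  rw [← hs1.tsum_sub hs2]
  refine tsum_congr fun p => ?_
  ring

theorem eulD_le : ∃ C : ℝ, 0 < C ∧ ∀ g : GaussianInt → ℂ, CM g → ∀ u : ℝ, 1 ≤ u →
    ‖Gs g (1 / u)‖ ≤ C * u *
      Real.exp (-(1 / 3) * ∑ p ∈ pr 1 (Real.exp u), (1 - (g p).re) / ab p ^ 2) := by
  obtain ⟨K, hK, hE⟩ := euler
  obtain ⟨C1, hC1, h1⟩ := mert_sigma
  obtain ⟨C2, hC2, h2⟩ := spl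
  refine ⟨K * Real.exp C1, by positivity, fun g hg u hu => ?_⟩
  have hu0 : 0 < u := by linarith
  have hσ : 0 < 1 / u := by positivity
  have hσ1 : 1 / u ≤ 1 := by rw [div_le_one hu0]; exact hu
  have a1 := h1 (1 / u) hσ hσ1
  rw [one_div_one_div, abs_le] at a1
  obtain ⟨a2, a3⟩ := h2 u hu (fun p => (1 - (g p).re) * ab p ^ (-(2 + 1 / u))) 2 (by norm_num)
    (fun p hp => ⟨mul_nonneg (re_bound hg hp).1 (ab_rpow_pos hp _).le,
      mul_le_mul_of_nonneg_right (re_bound hg hp).2 (ab_rpow_pos hp _).le⟩)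
  have a4 := (hE g hg (1 / u) hσ hσ1).1
  rw [tsum_re hg hu] at a4
  have a5 : (1 / 3) * ∑ p ∈ pr 1 (Real.exp u), (1 - (g p).re) / ab p ^ 2 ≤
      ∑ p ∈ pr 1 (Real.exp u), (1 - (g p).re) * ab p ^ (-(2 + 1 / u)) := by
    rw [Finset.mul_sum]
    refine Finset.sum_le_sum fun p hp => ?_
    have hpp := (mem_pr.1 hp).1.1
    have hle := (mem_pr.1 hp).2.2
    have h0 := ab_pos hpp.ne_zero
    rw [rpow_split hpp]
    have b1 : Real.log (ab p) ≤ u := (Real.log_le_iff_le_exp h0).2 hle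
    have b2 : Real.exp (-1) ≤ Real.exp (-(1 / u * Real.log (ab p))) := by
      apply Real.exp_le_exp.2
      have : 1 / u * Real.log (ab p) ≤ 1 := by
        rw [one_div, inv_mul_le_iff₀ hu0]
        linarith
      linarith
    have b3 : (1 : ℝ) / 3 ≤ Real.exp (-1) := by
      rw [Real.exp_neg, one_div]
      apply inv_anti₀ (Real.exp_pos 1)
      have := Real.exp_one_lt_d9
      linarith
    have b4 : 0 ≤ (1 - (g p).re) * (1 / ab p ^ 2) :=
      mul_nonneg (re_bound hg hpp).1 (by positivity)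
    have b5 := mul_le_mul_of_nonneg_right (b3.trans b2) b4
    calc 1 / 3 * ((1 - (g p).re) / ab p ^ 2) = 1 / 3 * ((1 - (g p).re) * (1 / ab p ^ 2)) := by ring
      _ ≤ _ := b5
      _ = _ := by ring
  refine a4.trans ?_
  have a6 : Real.exp (∑' p : P1, ab (p : GaussianInt) ^ (-(2 + 1 / u)) -
        ∑' p : P1, (1 - (g p).re) * ab (p : GaussianInt) ^ (-(2 + 1 / u))) ≤
      Real.exp (C1 + Real.log u +
        -(1 / 3) * ∑ p ∈ pr 1 (Real.exp u), (1 - (g p).re) / ab p ^ 2) := by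
    apply Real.exp_le_exp.2
    linarith [a1.2]
  rw [Real.exp_add, Real.exp_add, Real.exp_log hu0] at a6
  have a7 := mul_le_mul_of_nonneg_left a6 hK.le
  refine a7.trans (le_of_eq ?_)
  ring

theorem eulD_ge : ∃ C : ℝ, 0 < C ∧ ∀ g : GaussianInt → ℂ, CM g → ∀ u : ℝ, 1 ≤ u →
    u * Real.exp (-∑ p ∈ pr 1 (Real.exp u), (1 - (g p).re) / ab p ^ 2) ≤ C * ‖Gs g (1 / u)‖ := by
  obtain ⟨K, hK, hE⟩ := euler
  obtain ⟨C1, hC1, h1⟩ := mert_sigma
  obtain ⟨C2, hC2, h2⟩ := spl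
  refine ⟨K * Real.exp (C1 + 2 * C2), by positivity, fun g hg u hu => ?_⟩
  have hu0 : 0 < u := by linarith
  have hσ : 0 < 1 / u := by positivity
  have hσ1 : 1 / u ≤ 1 := by rw [div_le_one hu0]; exact hu
  have a1 := h1 (1 / u) hσ hσ1
  rw [one_div_one_div, abs_le] at a1
  obtain ⟨a2, a3⟩ := h2 u hu (fun p => (1 - (g p).re) * ab p ^ (-(2 + 1 / u))) 2 (by norm_num)
    (fun p hp => ⟨mul_nonneg (re_bound hg hp).1 (ab_rpow_pos hp _).le,
      mul_le_mul_of_nonneg_right (re_bound hg hp).2 (ab_rpow_pos hp _).le⟩)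
  have a4 := (hE g hg (1 / u) hσ hσ1).2
  rw [tsum_re hg hu] at a4
  have a5 : ∑ p ∈ pr 1 (Real.exp u), (1 - (g p).re) * ab p ^ (-(2 + 1 / u)) ≤
      ∑ p ∈ pr 1 (Real.exp u), (1 - (g p).re) / ab p ^ 2 := by
    refine Finset.sum_le_sum fun p hp => ?_
    have hpp := (mem_pr.1 hp).1.1
    have b1 := mul_le_mul_of_nonneg_left (rpow_le_sq hpp hσ.le) (re_bound hg hpp).1
    refine b1.trans (le_of_eq ?_)
    ring
  have a6 : Real.exp (Real.log u + -(∑ p ∈ pr 1 (Real.exp u), (1 - (g p).re) / ab p ^ 2)) ≤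
      Real.exp ((C1 + 2 * C2) + (∑' p : P1, ab (p : GaussianInt) ^ (-(2 + 1 / u)) -
        ∑' p : P1, (1 - (g p).re) * ab (p : GaussianInt) ^ (-(2 + 1 / u)))) := by
    apply Real.exp_le_exp.2
    linarith [a1.1]
  rw [Real.exp_add, Real.exp_log hu0, Real.exp_add (C1 + 2 * C2)] at a6
  refine a6.trans ?_
  have a7 := mul_le_mul_of_nonneg_left a4 (Real.exp_pos (C1 + 2 * C2)).le
  refine a7.trans (le_of_eq ?_)
  ring

end Pool.Agent.MRG
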