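import Pool.Agent.MRG.Maj
import Pool.Agent.MRG.Cheb

/-!
# Module PrimeLS: a large sieve inequality for primes and few frequencies

Put `w = v/h`, `E = ∑_{c∈Lc} |Qv f h v c|²`, `b_c = conj (Qv f h v c)`; the cell is contained in `pr (e^w) (e^(w+1))`.  With the majorant `W` of `Maj` (`majorant K`)
`E = ∑_{p ∈ cel} f(p) ∑_c b_c ch c p ≤ (#cel)^(1/2) (∑_{n ∈ ball (e^(w+2))} W(n) |∑_c b_c ch c n|²)^(1/2)` and
`∑_n W(n) |∑_c b_c ch c n|² = ∑_{c,c'} b_c conj b_c' ∑_n W(n) ch (c - c') n ≤ E max_c ∑_{c'} |∑_n W(n) ch (c-c') n|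
≤ E (∑_{j∈ℤ} C e^(2w)/(w (1+j²)) + #Lc · C e^((2-δ)w))` (the `c'` with `c'.2 = c.2` are determined by `j = c.1 - c'.1`).
`#cel ≤ C e^(2w)/w` (`cheb_card`).  With `#Lc ≤ e^(δ'w)`, `δ' = δ/2`: `#Lc e^(-δw) ≤ e^(-δw/2) ≤ C/w`.  So `E ≤ C (e^(2w)/w)²`.
-/

set_option autoImplicit false

namespace Pool.Agent.MRG

open Pool.Agent.GaussPret

namespace PrimeLSAux

theorem sum_inv_bound : ∃ S : ℝ, 0 < S ∧ ∀ (Lc : Finset (ℤ × ℤ)) (c : ℤ × ℤ),
    ∑ c' ∈ Lc, (if c.2 - c'.2 = 0 then 1 / (1 + ((c.1 - c'.1 : ℤ) : ℝ) ^ 2) else 0) ≤ S := by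
  have hs : Summable fun k : ℤ => 1 / (1 + (k : ℝ) ^ 2) := by
    have h1 : Summable fun k : ℤ => 1 / (k : ℝ) ^ 2 := Real.summable_one_div_int_pow.mpr one_lt_two
    have h2 : Summable fun k : ℤ => (Pi.single (0 : ℤ) (1 : ℝ) : ℤ → ℝ) k :=
      (hasSum_pi_single (0 : ℤ) (1 : ℝ)).summable
    refine Summable.of_nonneg_of_le (fun k => by positivity) (fun k => ?_) (h1.add h2)
    rcases eq_or_ne k 0 with h | h
    · subst h
      simp
    · have hk : (0 : ℝ) < (k : ℝ) ^ 2 := by positivity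
      rw [Pi.single_eq_of_ne h, add_zero]
      exact one_div_le_one_div_of_le hk (by linarith)
  refine ⟨∑' k : ℤ, 1 / (1 + (k : ℝ) ^ 2), ?_, fun Lc c => ?_⟩
  · exact hs.tsum_pos (fun k => by positivity) 0 (by norm_num)
  · rw [← Finset.sum_filter]
    have hinj : Set.InjOn (fun c' : ℤ × ℤ => c.1 - c'.1)
        ((Lc.filter fun c' => c.2 - c'.2 = 0 : Finset (ℤ × ℤ)) : Set (ℤ × ℤ)) := by
      intro a ha b hb hab
      rw [Finset.mem_coe, Finset.mem_filter] at ha hb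
      simp only at hab
      exact Prod.ext (by omega) (by omega)
    have h1 : ∑ c' ∈ Lc.filter (fun c' => c.2 - c'.2 = 0),
        1 / (1 + ((c.1 - c'.1 : ℤ) : ℝ) ^ 2) =
        ∑ k ∈ (Lc.filter fun c' => c.2 - c'.2 = 0).image (fun c' : ℤ × ℤ => c.1 - c'.1),
          1 / (1 + (k : ℝ) ^ 2) := by
      rw [Finset.sum_image hinj]
    rw [h1]
    exact hs.sum_le_tsum _ (fun k _ => by positivity)

end PrimeLSAux

open PrimeLSAux

theorem prime_ls (K : ℕ) : ∃ δ C w0 : ℝ, 0 < δ ∧ 0 < C ∧ 1 ≤ w0 ∧ ∀ (f : GaussianInt → ℂ), CM f →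
    ∀ (h v : ℕ) (Lc : Finset (ℤ × ℤ)), 1 ≤ h → w0 ≤ (v : ℝ) / h →
    (∀ c ∈ Lc, ∀ c' ∈ Lc, |((c.1 - c'.1 : ℤ) : ℝ)| + |((c.2 - c'.2 : ℤ) : ℝ)| ≤
      Real.exp (K * (v / h))) →
    (Lc.card : ℝ) ≤ Real.exp (δ * (v / h)) →
    ∑ c ∈ Lc, ‖Qv f h v c‖ ^ 2 ≤ C * (Real.exp (2 * (v / h)) / (v / h)) ^ 2 := by
  obtain ⟨δ, C1, w1, hδ, hC1, hmaj⟩ := majorant K
  obtain ⟨C0, hC0, hcard⟩ := cheb_card
  obtain ⟨S, hS, hSum⟩ := sum_inv_bound
  refine ⟨δ / 2, C0 * (C1 * S + C1 * (2 / δ)), max w1 1, by positivity, by positivity,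
    le_max_right _ _, ?_⟩
  intro f hf h v Lc hh hw hdiff hLc
  set w : ℝ := (v : ℝ) / h with hwdef
  have hw1 : w1 ≤ w := (le_max_left _ _).trans hw
  have hw1' : 1 ≤ w := (le_max_right _ _).trans hw
  have hw0 : 0 < w := by linarith
  obtain ⟨W, hW0, hWp, hWK⟩ := hmaj w hw1
  set B : Finset GaussianInt := ball (Real.exp (w + 2)) with hB
  set X : ℝ := Real.exp (2 * w) / w with hX
  have hX0 : 0 < X := by positivity
  -- the kernel
  set κ : ℤ × ℤ → ℤ × ℤ → ℝ := fun c c' =>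
    (if c.2 - c'.2 = 0 then 1 / (1 + ((c.1 - c'.1 : ℤ) : ℝ) ^ 2) else 0) * (C1 * X) +
      C1 * Real.exp ((2 - δ) * w) with hκ
  have hκsymm : ∀ c c', κ c c' = κ c' c := by
    intro c c'
    simp only [hκ]
    have e1 : (c.2 - c'.2 = 0) ↔ (c'.2 - c.2 = 0) := by omega
    have e2 : ((c.1 - c'.1 : ℤ) : ℝ) ^ 2 = ((c'.1 - c.1 : ℤ) : ℝ) ^ 2 := by
      push_cast; ring
    simp only [e1, e2]
  have hker : ∀ c ∈ Lc, ∀ c' ∈ Lc,
      ‖∑ n ∈ B, (W n : ℂ) * (ch c.1 c.2 n * (starRingEnd ℂ) (ch c'.1 c'.2 n))‖ ≤ κ c c' := by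
    intro c hc c' hc'
    have h1 : ∀ n, ch c.1 c.2 n * (starRingEnd ℂ) (ch c'.1 c'.2 n) =
        ch (((c.1 - c'.1 : ℤ) : ℝ)) (c.2 - c'.2) n := by
      intro n
      rw [← ch_sub]
      push_cast
      rfl
    simp only [h1]
    refine (hWK _ _ (hdiff c hc c' hc')).trans (le_of_eq ?_)
    simp only [hκ]
    congr 1
    split_ifs with h0
    · rw [hX]
      have h2 : (0 : ℝ) < 1 + ((c.1 - c'.1 : ℤ) : ℝ) ^ 2 := by positivity
      field_simp
    · simp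
  have hκsum : ∀ c ∈ Lc, ∑ c' ∈ Lc, κ c c' ≤ (C1 * S + C1 * (2 / δ)) * X := by
    intro c hc
    simp only [hκ]
    rw [Finset.sum_add_distrib, ← Finset.sum_mul, Finset.sum_const, nsmul_eq_mul]
    have h1 := hSum Lc c
    have h2 : (Lc.card : ℝ) * (C1 * Real.exp ((2 - δ) * w)) ≤ C1 * (2 / δ) * X := by
      have h3 : w ≤ 2 / δ * Real.exp (δ / 2 * w) := by
        have h4 : δ / 2 * w ≤ Real.exp (δ / 2 * w) := by
          have := Real.add_one_le_exp (δ / 2 * w)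
          linarith
        calc w = 2 / δ * (δ / 2 * w) := by field_simp
          _ ≤ 2 / δ * Real.exp (δ / 2 * w) := by gcongr
      have h5 : Real.exp (δ / 2 * w) * Real.exp ((2 - δ) * w) * w ≤
          2 / δ * Real.exp (2 * w) := by
        calc Real.exp (δ / 2 * w) * Real.exp ((2 - δ) * w) * w
            ≤ Real.exp (δ / 2 * w) * Real.exp ((2 - δ) * w) * (2 / δ * Real.exp (δ / 2 * w)) := by
              gcongr
          _ = 2 / δ * (Real.exp (δ / 2 * w) * Real.exp ((2 - δ) * w) * Real.exp (δ / 2 * w)) := by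
              ring
          _ = 2 / δ * Real.exp (2 * w) := by
              rw [← Real.exp_add, ← Real.exp_add]
              congr 2
              ring
      have h6 : Real.exp (δ / 2 * w) * Real.exp ((2 - δ) * w) ≤ 2 / δ * X := by
        have h7 : 2 / δ * X = (2 / δ * Real.exp (2 * w)) / w := by rw [hX]; ring
        rw [h7, le_div_iff₀ hw0]
        exact h5
      calc (Lc.card : ℝ) * (C1 * Real.exp ((2 - δ) * w))
          ≤ Real.exp (δ / 2 * w) * (C1 * Real.exp ((2 - δ) * w)) := by gcongr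
        _ = C1 * (Real.exp (δ / 2 * w) * Real.exp ((2 - δ) * w)) := by ring
        _ ≤ C1 * (2 / δ * X) := by gcongr
        _ = _ := by ring
    calc _ ≤ S * (C1 * X) + C1 * (2 / δ) * X := by gcongr
      _ = _ := by ring
  -- duality
  set q : ℤ × ℤ → ℂ := fun c => Qv f h v c with hq
  set E : ℝ := ∑ c ∈ Lc, ‖q c‖ ^ 2 with hE
  have hE0 : 0 ≤ E := Finset.sum_nonneg fun c _ => by positivity
  set g : GaussianInt → ℂ := fun n => ∑ c ∈ Lc, (starRingEnd ℂ) (q c) * ch c.1 c.2 n with hg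
  have hE1 : (E : ℂ) = ∑ p ∈ cel h v, f p * g p := by
    have h1 : (E : ℂ) = ∑ c ∈ Lc, (starRingEnd ℂ) (q c) * q c := by
      rw [hE]
      push_cast
      refine Finset.sum_congr rfl fun c _ => ?_
      rw [mul_comm, Complex.mul_conj, Complex.normSq_eq_norm_sq]
      push_cast
      rfl
    rw [h1]
    have h2 : ∀ c ∈ Lc, (starRingEnd ℂ) (q c) * q c =
        ∑ p ∈ cel h v, f p * ((starRingEnd ℂ) (q c) * ch c.1 c.2 p) := by
      intro c _
      have h3 : q c = ∑ p ∈ cel h v, f p * ch c.1 c.2 p := rfl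
      calc (starRingEnd ℂ) (q c) * q c
          = (starRingEnd ℂ) (q c) * ∑ p ∈ cel h v, f p * ch c.1 c.2 p :=
            congrArg (fun z => (starRingEnd ℂ) (q c) * z) h3
        _ = _ := by
            rw [Finset.mul_sum]
            refine Finset.sum_congr rfl fun p _ => ?_
            ring
    rw [Finset.sum_congr rfl h2, Finset.sum_comm]
    refine Finset.sum_congr rfl fun p _ => ?_
    rw [hg, Finset.mul_sum]
  have hsub : cel h v ⊆ pr (Real.exp w) (Real.exp (w + 1)) := by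
    intro p hp
    rw [cel, mem_pr] at hp
    rw [mem_pr]
    refine ⟨hp.1, hp.2.1, hp.2.2.trans (Real.exp_le_exp.2 ?_)⟩
    have hhR : (1 : ℝ) ≤ h := by exact_mod_cast hh
    rw [hwdef, add_div]
    gcongr
    rw [div_le_one (by linarith)]
    exact hhR
  have hE2 : E ≤ ∑ p ∈ cel h v, ‖g p‖ := by
    have h1 : E = ‖(E : ℂ)‖ := by
      rw [Complex.norm_real, Real.norm_of_nonneg hE0]
    rw [h1, hE1]
    refine (norm_sum_le _ _).trans (Finset.sum_le_sum fun p hp => ?_)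
    rw [norm_mul]
    have h2 : ‖f p‖ ≤ 1 := hf.le p (mem_pr.1 (hsub hp)).1.1.ne_zero
    exact mul_le_of_le_one_left (norm_nonneg _) h2
  have hcs : (∑ p ∈ cel h v, ‖g p‖) ^ 2 ≤ ((cel h v).card : ℝ) * ∑ p ∈ cel h v, ‖g p‖ ^ 2 :=
    sq_sum_le_card_mul_sum_sq
  have hmaj2 : ∑ p ∈ cel h v, ‖g p‖ ^ 2 ≤ ∑ n ∈ B, W n * ‖g n‖ ^ 2 := by
    have hsub2 : cel h v ⊆ B := by
      intro p hp
      have := mem_pr.1 (hsub hp)
      rw [hB, mem_ball']
      exact ⟨this.1.1.ne_zero, this.2.2.trans (Real.exp_le_exp.2 (by linarith))⟩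
    calc ∑ p ∈ cel h v, ‖g p‖ ^ 2 ≤ ∑ p ∈ cel h v, W p * ‖g p‖ ^ 2 := by
          refine Finset.sum_le_sum fun p hp => ?_
          exact le_mul_of_one_le_left (by positivity) (hWp p (hsub hp))
      _ ≤ ∑ n ∈ B, W n * ‖g n‖ ^ 2 :=
          Finset.sum_le_sum_of_subset_of_nonneg hsub2
            (fun n _ _ => mul_nonneg (hW0 n) (by positivity))
  have hexp : ((∑ n ∈ B, W n * ‖g n‖ ^ 2 : ℝ) : ℂ) =
      ∑ c ∈ Lc, ∑ c' ∈ Lc, ((starRingEnd ℂ) (q c) * q c') *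
        ∑ n ∈ B, (W n : ℂ) * (ch c.1 c.2 n * (starRingEnd ℂ) (ch c'.1 c'.2 n)) := by
    push_cast
    have h1 : ∀ n ∈ B, (W n : ℂ) * (‖g n‖ : ℂ) ^ 2 =
        ∑ c ∈ Lc, ∑ c' ∈ Lc, ((starRingEnd ℂ) (q c) * q c') *
          ((W n : ℂ) * (ch c.1 c.2 n * (starRingEnd ℂ) (ch c'.1 c'.2 n))) := by
      intro n _
      have h2 : (‖g n‖ : ℂ) ^ 2 = g n * (starRingEnd ℂ) (g n) := by
        rw [Complex.mul_conj, Complex.normSq_eq_norm_sq]
        push_cast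
        rfl
      rw [h2]
      have h3 : (starRingEnd ℂ) (g n) = ∑ c' ∈ Lc, q c' * (starRingEnd ℂ) (ch c'.1 c'.2 n) := by
        rw [hg, map_sum]
        refine Finset.sum_congr rfl fun c' _ => ?_
        rw [map_mul, Complex.conj_conj]
      rw [h3]
      have h4 : g n = ∑ c ∈ Lc, (starRingEnd ℂ) (q c) * ch c.1 c.2 n := rfl
      rw [h4, Finset.sum_mul_sum, Finset.mul_sum]
      refine Finset.sum_congr rfl fun c _ => ?_
      rw [Finset.mul_sum]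
      refine Finset.sum_congr rfl fun c' _ => ?_
      ring
    rw [Finset.sum_congr rfl h1, Finset.sum_comm]
    refine Finset.sum_congr rfl fun c _ => ?_
    rw [Finset.sum_comm]
    refine Finset.sum_congr rfl fun c' _ => ?_
    rw [Finset.mul_sum]
  have hT : ∑ n ∈ B, W n * ‖g n‖ ^ 2 ≤ E * ((C1 * S + C1 * (2 / δ)) * X) := by
    have hT0 : 0 ≤ ∑ n ∈ B, W n * ‖g n‖ ^ 2 :=
      Finset.sum_nonneg fun n _ => mul_nonneg (hW0 n) (by positivity)
    have h1 : ∑ n ∈ B, W n * ‖g n‖ ^ 2 = ‖((∑ n ∈ B, W n * ‖g n‖ ^ 2 : ℝ) : ℂ)‖ := by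
      rw [Complex.norm_real, Real.norm_of_nonneg hT0]
    rw [h1, hexp]
    calc _ ≤ ∑ c ∈ Lc, ∑ c' ∈ Lc, (‖q c‖ * ‖q c'‖) * κ c c' := by
          refine (norm_sum_le _ _).trans (Finset.sum_le_sum fun c hc => ?_)
          refine (norm_sum_le _ _).trans (Finset.sum_le_sum fun c' hc' => ?_)
          rw [norm_mul, norm_mul, Complex.norm_conj]
          exact mul_le_mul_of_nonneg_left (hker c hc c' hc') (by positivity)
      _ ≤ ∑ c ∈ Lc, ∑ c' ∈ Lc, (‖q c‖ ^ 2 / 2 + ‖q c'‖ ^ 2 / 2) * κ c c' := by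
          refine Finset.sum_le_sum fun c hc => Finset.sum_le_sum fun c' hc' => ?_
          have hκ0 : 0 ≤ κ c c' := (norm_nonneg _).trans (hker c hc c' hc')
          refine mul_le_mul_of_nonneg_right ?_ hκ0
          nlinarith [sq_nonneg (‖q c‖ - ‖q c'‖)]
      _ = ∑ c ∈ Lc, ∑ c' ∈ Lc, ‖q c‖ ^ 2 / 2 * κ c c' +
            ∑ c ∈ Lc, ∑ c' ∈ Lc, ‖q c'‖ ^ 2 / 2 * κ c c' := by
          simp only [add_mul, Finset.sum_add_distrib]
      _ = ∑ c ∈ Lc, ‖q c‖ ^ 2 * ∑ c' ∈ Lc, κ c c' := by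
          have h2 : ∑ c ∈ Lc, ∑ c' ∈ Lc, ‖q c'‖ ^ 2 / 2 * κ c c' =
              ∑ c ∈ Lc, ∑ c' ∈ Lc, ‖q c‖ ^ 2 / 2 * κ c c' := by
            rw [Finset.sum_comm]
            refine Finset.sum_congr rfl fun c _ => Finset.sum_congr rfl fun c' _ => ?_
            rw [hκsymm]
          rw [h2, ← Finset.sum_add_distrib]
          refine Finset.sum_congr rfl fun c _ => ?_
          rw [← Finset.mul_sum]
          ring
      _ ≤ ∑ c ∈ Lc, ‖q c‖ ^ 2 * ((C1 * S + C1 * (2 / δ)) * X) := by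
          refine Finset.sum_le_sum fun c hc => ?_
          exact mul_le_mul_of_nonneg_left (hκsum c hc) (by positivity)
      _ = E * ((C1 * S + C1 * (2 / δ)) * X) := by rw [hE, Finset.sum_mul]
  have hcel : ((cel h v).card : ℝ) ≤ C0 * X := by
    calc ((cel h v).card : ℝ) ≤ ((pr (Real.exp w) (Real.exp (w + 1))).card : ℝ) := by
          exact_mod_cast Finset.card_le_card hsub
      _ ≤ C0 * Real.exp (2 * w) / w := hcard w hw1'
      _ = C0 * X := by rw [hX]; ring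
  have hmain : E ^ 2 ≤ (C0 * (C1 * S + C1 * (2 / δ)) * X ^ 2) * E := by
    have hsq0 : 0 ≤ ∑ p ∈ cel h v, ‖g p‖ ^ 2 := Finset.sum_nonneg fun p _ => by positivity
    calc E ^ 2 ≤ (∑ p ∈ cel h v, ‖g p‖) ^ 2 := pow_le_pow_left₀ hE0 hE2 2
      _ ≤ ((cel h v).card : ℝ) * ∑ p ∈ cel h v, ‖g p‖ ^ 2 := hcs
      _ ≤ (C0 * X) * (E * ((C1 * S + C1 * (2 / δ)) * X)) :=
          mul_le_mul hcel (hmaj2.trans hT) hsq0 (by positivity)
      _ = _ := by ring
  rcases hE0.eq_or_lt with h0 | h0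
  · rw [← h0]
    positivity
  · have := hmain
    rw [sq] at this
    exact le_of_mul_le_mul_right this h0

end Pool.Agent.MRG
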