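import Pool.Agent.MRG.Decomp
import Pool.Agent.MRG.Count
import Pool.Agent.MRG.HalMont
import Pool.Agent.MRG.PrimeLS
import Pool.Agent.MRG.Mert

/-!
# Module PropU: the frequencies where a prime polynomial of the last range is large

Let `δ` be the exponent of `halmont`, `α0 = min (1/1000) (δ/20)`.  `X = log R`, `v0 = ⌈h X/K²⌉`, `v1 = ⌊h X/K⌋` (`vlo`, `vhi`).  For `R ≥ R0(K,h,f)`:
`v1/v0 ≥ K/2`, so `Ls (rng h v0 v1) ≥ log (K/2) - C ≥ (log K)/2 ≥ 1` for `K ≥ K1` (`mertens2`, `a = v0/h`, `b = v1/h`), `e^(2 v1/h) ≤ R^(2/K) ≤ R`.  By `energy_le` and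
Cauchy–Schwarz it is enough to show for every `v ∈ [v0, v1)`, with `w = v/h ∈ [X/K², X/K]`, `Y = R e^(-w) ≥ R^(1/2)`:
`∑_{c∈T} |Q_v(c)|² |FR f Y c|² ≤ C_1 R⁴ η₁ X^(-2)` with `C_1 η₁ h² ≤ 1/K` (as `(v1 - v0)² ≤ h² X²/K²`).
* `#T ≤ R^(5 α0)`: `T ⊆ ∪_v {c ∈ fr M : |Q_v| ≥ τ e^(2w)}`, `τ = e^(-α0 w)`; `count_large` with `l = ⌈X/w⌉ ≤ K² + 1`, `l w ≥ X ≥ log M`, `l w ≤ X + w ≤ 2X`, gives
  `≤ (C l)^l e^(2 α0 l w) ≤ C_K R^(4 α0)`; there are `≤ h X` values of `v`.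
* small part `T_s = {c ∈ T : |Q_v(c)| ≤ e^(2w) X^(-3)}`: `≤ e^(4w) X^(-6) ∑_{c∈T} |FR f Y c|²`, and by `halmont` (`D = 4R ≤ Y³`, `r = f`)
  `≤ e^(4w) X^(-6) C Y² (Y² log (2+4R) + R^(5α0) Y^(2-δ)) ≤ C R⁴ X^(-5)` since `R^(5α0) ≤ Y^(10 α0) ≤ Y^δ`.
* large part `T_l = {c ∈ T : |Q_v(c)| > e^(2w) X^(-3)}`: `count_large` with `τ = X^(-3)`, `l = K²` (`l w ≥ X`): `#T_l ≤ (C K²)^(K²) X^(6K²) ≤ e^(δ' w)` for large `R`; `prime_ls (2K²)`
  (`|c - c'| ≤ 4R ≤ R² ≤ e^(2K² w)`): `∑_{T_l} |Q_v|² ≤ C (e^(2w)/w)² ≤ C K⁴ e^(4w) X^(-2)`; and `|FR f Y c| ≤ ε' Y²` (`SmallFR`, `|c| ≤ M ≤ R ≤ Y²`).  Total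
  `≤ C_K ε'² R⁴ X^(-2)`; `ε'` small depending on `K`, `h`.
-/

set_option autoImplicit false

namespace Pool.Agent.MRG

open Pool.Agent.GaussPret

/-- lower end of the last range -/
noncomputable def vlo (K h : ℕ) (R : ℝ) : ℕ := ⌈h * Real.log R / K ^ 2⌉₊

/-- upper end of the last range -/
noncomputable def vhi (K h : ℕ) (R : ℝ) : ℕ := ⌊h * Real.log R / K⌋₊

theorem pu_exp (C b : ℝ) (k : ℕ) (hb : 0 < b) :
    ∃ X0 : ℝ, ∀ X : ℝ, X0 ≤ X → C * X ^ k ≤ Real.exp (b * X) := by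
  have h := (isLittleO_pow_exp_pos_mul_atTop k hb).def (show (0 : ℝ) < 1 / (|C| + 1) by positivity)
  obtain ⟨X0, hX0⟩ := Filter.eventually_atTop.mp h
  refine ⟨X0, fun X hX => ?_⟩
  have h1 := hX0 X hX
  rw [Real.norm_eq_abs, Real.norm_eq_abs, Real.abs_exp] at h1
  have h2 : C * X ^ k ≤ |C| * |X ^ k| := by
    rw [← abs_mul]
    exact le_abs_self _
  have h3 : |C| * |X ^ k| ≤ |C| * (1 / (|C| + 1) * Real.exp (b * X)) :=
    mul_le_mul_of_nonneg_left h1 (abs_nonneg _)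
  have h4 : |C| * (1 / (|C| + 1) * Real.exp (b * X)) ≤ Real.exp (b * X) := by
    have h5 : |C| * (1 / (|C| + 1)) ≤ 1 := by
      rw [mul_one_div, div_le_one (by positivity)]
      linarith
    calc |C| * (1 / (|C| + 1) * Real.exp (b * X)) = |C| * (1 / (|C| + 1)) * Real.exp (b * X) := by
          ring
      _ ≤ 1 * Real.exp (b * X) := mul_le_mul_of_nonneg_right h5 (Real.exp_pos _).le
      _ = _ := one_mul _
  exact (h2.trans h3).trans h4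

/-- the size of a cell in the last range -/
theorem pu_w {K h v : ℕ} {X : ℝ} (hK : 1 ≤ K) (hh : 1 ≤ h) (hX : 0 < X)
    (hv0 : h * X / (K : ℝ) ^ 2 ≤ v) (hv1 : (v : ℝ) ≤ h * X / K) :
    X / (K : ℝ) ^ 2 ≤ (v : ℝ) / h ∧ (v : ℝ) / h ≤ X / K ∧ (v : ℝ) / h ≤ X := by
  have hh0 : (0 : ℝ) < h := by exact_mod_cast hh
  have hK0 : (0 : ℝ) < K := by exact_mod_cast hK
  have hK1 : (1 : ℝ) ≤ K := by exact_mod_cast hK
  have h2 : (v : ℝ) / h ≤ X / K := by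
    rw [div_le_iff₀ hh0]
    calc (v : ℝ) ≤ h * X / K := hv1
      _ = X / K * h := by ring
  refine ⟨?_, h2, h2.trans (div_le_self hX.le hK1)⟩
  rw [le_div_iff₀ hh0]
  calc X / (K : ℝ) ^ 2 * (h : ℝ) = h * X / (K : ℝ) ^ 2 := by ring
    _ ≤ (v : ℝ) := hv0

open scoped Classical in
/-- the number of frequencies -/
theorem pu_card {Cc : ℝ} (hCc : 1 ≤ Cc) {f : GaussianInt → ℂ}
    (hcount : ∀ (h v l M : ℕ) (τ : ℝ),
      1 ≤ h → h ≤ v → 1 ≤ l → 1 ≤ M → (M : ℝ) ≤ Real.exp (l * v / h) → 0 < τ →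
      (((fr M).filter fun c => τ * Real.exp (2 * v / h) ≤ ‖Qv f h v c‖).card : ℝ) ≤
        (Cc * l) ^ l / τ ^ (2 * l))
    {K h M : ℕ} {X α0 : ℝ} (hK : 1 ≤ K) (hh : 1 ≤ h) (hX : (K : ℝ) ^ 2 ≤ X) (hα : 0 < α0)
    (hM : 1 ≤ M) (hMX : (M : ℝ) ≤ Real.exp X)
    (hbig : (h * (Cc * (K : ℝ) ^ 2) ^ (K ^ 2)) * X ^ 1 ≤ Real.exp (α0 * X))
    {v0 v1 : ℕ} (hv0 : h * X / (K : ℝ) ^ 2 ≤ v0) (hv1 : (v1 : ℝ) ≤ h * X / K)
    (T : Finset (ℤ × ℤ)) (hT : T ⊆ fr M)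
    (hTv : ∀ c ∈ T, ∃ v ∈ Finset.Ico v0 v1,
      Real.exp ((2 - α0) * v / h) < ‖Qv f h v c‖) :
    (T.card : ℝ) ≤ Real.exp (5 * α0 * X) := by
  have hh0 : (0 : ℝ) < h := by exact_mod_cast hh
  have hK0 : (0 : ℝ) < K := by exact_mod_cast hK
  have hK1 : (1 : ℝ) ≤ K := by exact_mod_cast hK
  have hX0 : 0 < X := lt_of_lt_of_le (by positivity) hX
  have hCK : 1 ≤ Cc * (K : ℝ) ^ 2 := one_le_mul_of_one_le_of_one_le hCc (one_le_pow₀ hK1)
  let S : ℕ → Finset (ℤ × ℤ) := fun v => (fr M).filter fun c =>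
    Real.exp (-(α0 * (v / h))) * Real.exp (2 * v / h) ≤ ‖Qv f h v c‖
  have hsub : T ⊆ (Finset.Ico v0 v1).biUnion S := by
    intro c hc
    obtain ⟨v, hv, h1⟩ := hTv c hc
    refine Finset.mem_biUnion.mpr ⟨v, hv, Finset.mem_filter.mpr ⟨hT hc, ?_⟩⟩
    rw [← Real.exp_add]
    have e : -(α0 * ((v : ℝ) / h)) + 2 * v / h = (2 - α0) * v / h := by ring
    rw [e]
    exact h1.le
  have h1 : (T.card : ℝ) ≤ ∑ v ∈ Finset.Ico v0 v1, ((S v).card : ℝ) := by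
    have h2 : T.card ≤ ∑ v ∈ Finset.Ico v0 v1, (S v).card :=
      (Finset.card_le_card hsub).trans Finset.card_biUnion_le
    calc (T.card : ℝ) ≤ ((∑ v ∈ Finset.Ico v0 v1, (S v).card : ℕ) : ℝ) := by exact_mod_cast h2
      _ = _ := by push_cast; rfl
  have h2 : ∀ v ∈ Finset.Ico v0 v1,
      ((S v).card : ℝ) ≤ (Cc * (K : ℝ) ^ 2) ^ (K ^ 2) * Real.exp (4 * α0 * X) := by
    intro v hv
    obtain ⟨hva, hvb⟩ := Finset.mem_Ico.mp hv
    have hva' : (v0 : ℝ) ≤ v := by exact_mod_cast hva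
    have hvb' : (v : ℝ) ≤ v1 := by exact_mod_cast hvb.le
    obtain ⟨w1, -, w3⟩ := pu_w hK hh hX0 (hv0.trans hva') (hvb'.trans hv1)
    set w := (v : ℝ) / h with hw
    have hw1 : 1 ≤ w := by
      refine le_trans ?_ w1
      rw [one_le_div (by positivity)]
      exact hX
    have hw0 : 0 < w := by linarith
    have hhv : h ≤ v := by
      have h3 : (h : ℝ) ≤ v := by
        rw [hw, one_le_div hh0] at hw1
        exact hw1
      exact_mod_cast h3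
    set l := ⌈X / w⌉₊ with hl
    have hl1 : X / w ≤ l := Nat.le_ceil _
    have hl2 : l ≤ K ^ 2 := by
      rw [hl, Nat.ceil_le]
      push_cast
      rw [div_le_iff₀ hw0]
      rw [div_le_iff₀ (by positivity)] at w1
      linarith
    have hl3 : (l : ℝ) < X / w + 1 := Nat.ceil_lt_add_one (by positivity)
    have hl4 : 1 ≤ l := Nat.ceil_pos.mpr (by positivity)
    have hlw1 : X ≤ l * w := by
      rw [div_le_iff₀ hw0] at hl1
      exact hl1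
    have hlw2 : l * w ≤ 2 * X := by
      have h3 : (l : ℝ) * w ≤ (X / w + 1) * w := mul_le_mul_of_nonneg_right hl3.le hw0.le
      have h4 : (X / w + 1) * w = X + w := by field_simp
      linarith
    have h5 := hcount h v l M (Real.exp (-(α0 * (v / h)))) hh hhv hl4 hM
      (by
        refine hMX.trans (Real.exp_le_exp.mpr ?_)
        rw [mul_div_assoc, ← hw]
        exact hlw1) (Real.exp_pos _)
    refine h5.trans ?_
    have e1 : Real.exp (-(α0 * ((v : ℝ) / h))) ^ (2 * l) = (Real.exp (2 * α0 * (l * w)))⁻¹ := by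
      rw [← Real.exp_nat_mul, ← Real.exp_neg, ← hw]
      congr 1
      push_cast
      ring
    rw [e1, div_inv_eq_mul]
    apply mul_le_mul
    · have hl1' : (1 : ℝ) ≤ l := by exact_mod_cast hl4
      have hl2' : (l : ℝ) ≤ (K : ℝ) ^ 2 := by exact_mod_cast hl2
      calc (Cc * (l : ℝ)) ^ l ≤ (Cc * (K : ℝ) ^ 2) ^ l :=
            pow_le_pow_left₀ (by positivity) (mul_le_mul_of_nonneg_left hl2' (by linarith)) l
        _ ≤ (Cc * (K : ℝ) ^ 2) ^ (K ^ 2) := pow_le_pow_right₀ hCK hl2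
    · apply Real.exp_le_exp.mpr
      calc 2 * α0 * (l * w) ≤ 2 * α0 * (2 * X) := mul_le_mul_of_nonneg_left hlw2 (by linarith)
        _ = 4 * α0 * X := by ring
    · exact (Real.exp_pos _).le
    · positivity
  have hn : (((v1 - v0 : ℕ) : ℕ) : ℝ) ≤ h * X := by
    have h3 : ((v1 - v0 : ℕ) : ℝ) ≤ v1 := by exact_mod_cast Nat.sub_le _ _
    have h4 : (h : ℝ) * X / K ≤ h * X := div_le_self (by positivity) hK1
    linarith
  calc (T.card : ℝ) ≤ _ := h1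
    _ ≤ ∑ v ∈ Finset.Ico v0 v1, ((Cc * (K : ℝ) ^ 2) ^ (K ^ 2) * Real.exp (4 * α0 * X)) :=
        Finset.sum_le_sum h2
    _ = ((v1 - v0 : ℕ) : ℝ) * ((Cc * (K : ℝ) ^ 2) ^ (K ^ 2) * Real.exp (4 * α0 * X)) := by
        rw [Finset.sum_const, Nat.card_Ico, nsmul_eq_mul]
    _ ≤ (h * X) * ((Cc * (K : ℝ) ^ 2) ^ (K ^ 2) * Real.exp (4 * α0 * X)) :=
        mul_le_mul_of_nonneg_right hn (by positivity)
    _ = ((h * (Cc * (K : ℝ) ^ 2) ^ (K ^ 2)) * X ^ 1) * Real.exp (4 * α0 * X) := by ring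
    _ ≤ Real.exp (α0 * X) * Real.exp (4 * α0 * X) :=
        mul_le_mul_of_nonneg_right hbig (Real.exp_pos _).le
    _ = Real.exp (5 * α0 * X) := by
        rw [← Real.exp_add]
        congr 1
        ring

/-- distances of frequencies -/
theorem pu_dist {M : ℕ} {R : ℝ} (hMR : (M : ℝ) ≤ R) {c c' : ℤ × ℤ} (hc : c ∈ fr M)
    (hc' : c' ∈ fr M) :
    |((c.1 - c'.1 : ℤ) : ℝ)| + |((c.2 - c'.2 : ℤ) : ℝ)| ≤ 4 * R := by
  obtain ⟨⟨a1, a2⟩, ⟨a3, a4⟩⟩ := mem_fr.mp hc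
  obtain ⟨⟨b1, b2⟩, ⟨b3, b4⟩⟩ := mem_fr.mp hc'
  have h1 : |c.1 - c'.1| ≤ 2 * (M : ℤ) := by
    rw [abs_le]
    constructor <;> omega
  have h2 : |c.2 - c'.2| ≤ 2 * (M : ℤ) := by
    rw [abs_le]
    constructor <;> omega
  have h3 : |((c.1 - c'.1 : ℤ) : ℝ)| ≤ 2 * (M : ℝ) := by exact_mod_cast h1
  have h4 : |((c.2 - c'.2 : ℤ) : ℝ)| ≤ 2 * (M : ℝ) := by exact_mod_cast h2
  linarith

/-- the exponential is large -/
theorem pu_E {X : ℝ} (hX : 3 ≤ X) : 8 ≤ Real.exp X := by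
  have h1 := Real.quadratic_le_exp_of_nonneg (show 0 ≤ X by linarith)
  nlinarith

/-- energy of the shorter sums -/
theorem pu_small {δ Ch : ℝ} (hCh : 0 < Ch)
    (hhal : ∀ (Y D : ℝ) (r : GaussianInt → ℂ) (T : Finset (ℤ × ℤ)), 1 ≤ Y → 1 ≤ D → D ≤ Y ^ 3 →
      (∀ g, g ≠ 0 → ‖r g‖ ≤ 1) →
      (∀ c ∈ T, ∀ c' ∈ T, |((c.1 - c'.1 : ℤ) : ℝ)| + |((c.2 - c'.2 : ℤ) : ℝ)| ≤ D) →
      ∑ c ∈ T, ‖∑ m ∈ ann Y (2 * Y), r m * ch c.1 c.2 m‖ ^ 2 ≤
        Ch * Y ^ 2 * (Y ^ 2 * Real.log (2 + D) + T.card * Y ^ (2 - δ)))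
    {f : GaussianInt → ℂ} (hf : CM f) {X w α0 : ℝ} {M : ℕ} (hX : 3 ≤ X) (hw : w ≤ X / 3)
    (hδ : 0 < δ) (hα : 10 * α0 ≤ δ) (hMX : (M : ℝ) ≤ Real.exp X) (T : Finset (ℤ × ℤ))
    (hT : T ⊆ fr M) (hcard : (T.card : ℝ) ≤ Real.exp (5 * α0 * X)) :
    ∑ c ∈ T, ‖FR f (Real.exp X * Real.exp (-w)) c‖ ^ 2 ≤
      3 * Ch * X * (Real.exp X * Real.exp (-w)) ^ 4 := by
  have hE := pu_E hX
  set Y := Real.exp X * Real.exp (-w) with hY
  have hYe : Y = Real.exp (X - w) := by rw [hY, ← Real.exp_add]; rfl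
  have hY0 : 0 < Y := by rw [hYe]; exact Real.exp_pos _
  have hY1 : 1 ≤ Y := by
    rw [hYe]
    exact Real.one_le_exp (by linarith)
  have hY3 : 4 * Real.exp X ≤ Y ^ 3 := by
    calc 4 * Real.exp X ≤ Real.exp X * Real.exp X := by nlinarith
      _ = Real.exp (2 * X) := by rw [← Real.exp_add]; congr 1; ring
      _ ≤ Real.exp (3 * (X - w)) := Real.exp_le_exp.mpr (by linarith)
      _ = Y ^ 3 := by
        rw [hYe, ← Real.exp_nat_mul]
        norm_num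
  have h1 := hhal Y (4 * Real.exp X) f T hY1 (by linarith) hY3 (fun g hg => hf.le g hg)
    (fun c hc c' hc' => pu_dist hMX (hT hc) (hT hc'))
  have h2 : (T.card : ℝ) * Y ^ (2 - δ) ≤ Y ^ 2 := by
    have e1 : Y ^ (2 - δ) = Real.exp ((X - w) * (2 - δ)) := by rw [hYe, Real.exp_mul]
    have e2 : Y ^ 2 = Real.exp (2 * (X - w)) := by
      rw [hYe, ← Real.exp_nat_mul]
      norm_num
    rw [e1, e2]
    calc (T.card : ℝ) * Real.exp ((X - w) * (2 - δ))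
        ≤ Real.exp (5 * α0 * X) * Real.exp ((X - w) * (2 - δ)) :=
          mul_le_mul_of_nonneg_right hcard (Real.exp_pos _).le
      _ = Real.exp (5 * α0 * X + (X - w) * (2 - δ)) := by rw [Real.exp_add]
      _ ≤ Real.exp (2 * (X - w)) := by
        apply Real.exp_le_exp.mpr
        have h3 : δ * (2 * X / 3) ≤ δ * (X - w) := mul_le_mul_of_nonneg_left (by linarith) hδ.le
        have h4 : 10 * α0 * X ≤ δ * X := mul_le_mul_of_nonneg_right hα (by linarith)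
        have h5 : 0 ≤ δ * X := by
          apply mul_nonneg hδ.le
          linarith
        nlinarith
  have h3 : Real.log (2 + 4 * Real.exp X) ≤ 2 * X := by
    rw [Real.log_le_iff_le_exp (by positivity)]
    have e : Real.exp (2 * X) = Real.exp X * Real.exp X := by
      rw [← Real.exp_add]
      congr 1
      ring
    rw [e]
    nlinarith
  have h4 : ∑ c ∈ T, ‖FR f Y c‖ ^ 2 ≤
      Ch * Y ^ 2 * (Y ^ 2 * Real.log (2 + 4 * Real.exp X) + T.card * Y ^ (2 - δ)) := h1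
  refine h4.trans ?_
  calc Ch * Y ^ 2 * (Y ^ 2 * Real.log (2 + 4 * Real.exp X) + T.card * Y ^ (2 - δ))
      ≤ Ch * Y ^ 2 * (Y ^ 2 * (2 * X) + Y ^ 2) := by
        apply mul_le_mul_of_nonneg_left _ (by positivity)
        exact add_le_add (mul_le_mul_of_nonneg_left h3 (by positivity)) h2
    _ = Ch * (2 * X + 1) * Y ^ 4 := by ring
    _ ≤ Ch * (3 * X) * Y ^ 4 := by
        apply mul_le_mul_of_nonneg_right _ (by positivity)
        apply mul_le_mul_of_nonneg_left _ hCh.le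
        linarith
    _ = _ := by ring

open scoped Classical in
/-- energy of the prime polynomial on the frequencies where it is large -/
theorem pu_large {Cc : ℝ} (hCc : 1 ≤ Cc) {f : GaussianInt → ℂ}
    (hcount : ∀ (h v l M : ℕ) (τ : ℝ),
      1 ≤ h → h ≤ v → 1 ≤ l → 1 ≤ M → (M : ℝ) ≤ Real.exp (l * v / h) → 0 < τ →
      (((fr M).filter fun c => τ * Real.exp (2 * v / h) ≤ ‖Qv f h v c‖).card : ℝ) ≤
        (Cc * l) ^ l / τ ^ (2 * l))
    {K h M : ℕ} {X δ Cp w0 : ℝ} (hK : 1 ≤ K) (hh : 1 ≤ h) (hX3 : 3 ≤ X) (hX : (K : ℝ) ^ 2 ≤ X)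
    (hδ : 0 < δ) (hM : 1 ≤ M) (hMX : (M : ℝ) ≤ Real.exp X)
    (hls : ∀ (v : ℕ) (Lc : Finset (ℤ × ℤ)), w0 ≤ (v : ℝ) / h →
      (∀ c ∈ Lc, ∀ c' ∈ Lc, |((c.1 - c'.1 : ℤ) : ℝ)| + |((c.2 - c'.2 : ℤ) : ℝ)| ≤
        Real.exp (((2 * K ^ 2 : ℕ) : ℝ) * (v / h))) →
      (Lc.card : ℝ) ≤ Real.exp (δ * (v / h)) →
      ∑ c ∈ Lc, ‖Qv f h v c‖ ^ 2 ≤ Cp * (Real.exp (2 * (v / h)) / (v / h)) ^ 2)
    (hbig : (Cc * (K : ℝ) ^ 2) ^ (K ^ 2) * X ^ (6 * K ^ 2) ≤ Real.exp (δ / (K : ℝ) ^ 2 * X))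
    {v : ℕ} (hv0 : h * X / (K : ℝ) ^ 2 ≤ v) (hv1 : (v : ℝ) ≤ h * X / K)
    (hw0 : (K : ℝ) ^ 2 * w0 ≤ X)
    (T : Finset (ℤ × ℤ)) (hT : T ⊆ fr M)
    (hTv : ∀ c ∈ T, Real.exp (2 * (v / h)) / X ^ 3 < ‖Qv f h v c‖) :
    ∑ c ∈ T, ‖Qv f h v c‖ ^ 2 ≤ Cp * (Real.exp (2 * (v / h)) / (v / h)) ^ 2 := by
  have hh0 : (0 : ℝ) < h := by exact_mod_cast hh
  have hK0 : (0 : ℝ) < K := by exact_mod_cast hK
  have hK1 : (1 : ℝ) ≤ K := by exact_mod_cast hK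
  have hX0 : 0 < X := by linarith
  obtain ⟨w1, -, w3⟩ := pu_w hK hh hX0 hv0 hv1
  set w := (v : ℝ) / h with hw
  have hKw : X ≤ (K : ℝ) ^ 2 * w := by
    rw [div_le_iff₀ (by positivity)] at w1
    linarith
  have hw1 : 1 ≤ w := by
    refine le_trans ?_ w1
    rw [one_le_div (by positivity)]
    exact hX
  have hhv : h ≤ v := by
    have h3 : (h : ℝ) ≤ v := by
      rw [hw, one_le_div hh0] at hw1
      exact hw1
    exact_mod_cast h3
  apply hls v T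
  · refine le_trans ?_ w1
    rw [le_div_iff₀ (by positivity)]
    linarith
  · intro c hc c' hc'
    refine (pu_dist hMX (hT hc) (hT hc')).trans ?_
    have hE := pu_E hX3
    calc 4 * Real.exp X ≤ Real.exp X * Real.exp X := by nlinarith
      _ = Real.exp (2 * X) := by rw [← Real.exp_add]; congr 1; ring
      _ ≤ _ := by
        apply Real.exp_le_exp.mpr
        push_cast
        rw [← hw]
        linarith
  · have h1 := hcount h v (K ^ 2) M (1 / X ^ 3) hh hhv (Nat.one_le_pow _ _ hK) hM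
      (by
        refine hMX.trans (Real.exp_le_exp.mpr ?_)
        rw [mul_div_assoc, ← hw]
        push_cast
        exact hKw) (by positivity)
    have h2 : (T.card : ℝ) ≤ (((fr M).filter fun c =>
        1 / X ^ 3 * Real.exp (2 * v / h) ≤ ‖Qv f h v c‖).card : ℝ) := by
      have h3 : T ⊆ (fr M).filter fun c =>
          1 / X ^ 3 * Real.exp (2 * v / h) ≤ ‖Qv f h v c‖ := by
        intro c hc
        refine Finset.mem_filter.mpr ⟨hT hc, ?_⟩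
        have e : 1 / X ^ 3 * Real.exp (2 * v / h) = Real.exp (2 * (v / h)) / X ^ 3 := by
          rw [mul_div_assoc]
          ring
        rw [e]
        exact (hTv c hc).le
      exact_mod_cast Finset.card_le_card h3
    refine (h2.trans h1).trans ?_
    have e1 : (Cc * ((K ^ 2 : ℕ) : ℝ)) ^ (K ^ 2) / (1 / X ^ 3) ^ (2 * K ^ 2) =
        (Cc * (K : ℝ) ^ 2) ^ (K ^ 2) * X ^ (6 * K ^ 2) := by
      rw [one_div, inv_pow, div_inv_eq_mul, ← pow_mul]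
      push_cast
      congr 2
      ring
    rw [e1]
    refine hbig.trans (Real.exp_le_exp.mpr ?_)
    calc δ / (K : ℝ) ^ 2 * X = δ * (X / (K : ℝ) ^ 2) := by ring
      _ ≤ δ * w := mul_le_mul_of_nonneg_left w1 hδ.le

open scoped Classical in
/-- one cell -/
theorem pu_v {f : GaussianInt → ℂ} {K h v : ℕ} {X w Ch Cp ε η : ℝ} (hK : 1 ≤ K) (hX : 1 ≤ X)
    (hw : X / (K : ℝ) ^ 2 ≤ w) (hCp : 0 < Cp) (hη : 0 < η)
    (hXη : 6 * Ch / η ≤ X) (hε : ε ^ 2 * (2 * Cp * (K : ℝ) ^ 4) ≤ η)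
    (T : Finset (ℤ × ℤ))
    (hsmall : ∑ c ∈ T, ‖FR f (Real.exp X * Real.exp (-w)) c‖ ^ 2 ≤
      3 * Ch * X * (Real.exp X * Real.exp (-w)) ^ 4)
    (hlarge : ∑ c ∈ T.filter (fun c => ¬ ‖Qv f h v c‖ ≤ Real.exp (2 * w) / X ^ 3),
      ‖Qv f h v c‖ ^ 2 ≤ Cp * (Real.exp (2 * w) / w) ^ 2)
    (hFR : ∀ c ∈ T, ‖FR f (Real.exp X * Real.exp (-w)) c‖ ≤
      ε * (Real.exp X * Real.exp (-w)) ^ 2) :
    ∑ c ∈ T, (‖Qv f h v c‖ * ‖FR f (Real.exp X * Real.exp (-w)) c‖) ^ 2 ≤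
      η * Real.exp X ^ 4 / X ^ 2 := by
  have hK0 : (0 : ℝ) < K := by exact_mod_cast hK
  have hX0 : 0 < X := by linarith
  have hw0 : 0 < w := lt_of_lt_of_le (by positivity) hw
  set Y := Real.exp X * Real.exp (-w) with hY
  have hYE : Real.exp (2 * w) ^ 2 * Y ^ 4 = Real.exp X ^ 4 := by
    rw [hY, ← Real.exp_add, ← Real.exp_nat_mul, ← Real.exp_nat_mul, ← Real.exp_nat_mul,
      ← Real.exp_add]
    congr 1
    push_cast
    ring
  rw [← Finset.sum_filter_add_sum_filter_not T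
    (fun c => ‖Qv f h v c‖ ≤ Real.exp (2 * w) / X ^ 3)]
  have h1 : ∑ c ∈ T.filter (fun c => ‖Qv f h v c‖ ≤ Real.exp (2 * w) / X ^ 3),
      (‖Qv f h v c‖ * ‖FR f Y c‖) ^ 2 ≤ η / 2 * Real.exp X ^ 4 / X ^ 2 := by
    calc _ ≤ ∑ c ∈ T.filter (fun c => ‖Qv f h v c‖ ≤ Real.exp (2 * w) / X ^ 3),
          (Real.exp (2 * w) / X ^ 3) ^ 2 * ‖FR f Y c‖ ^ 2 := by
          apply Finset.sum_le_sum
          intro c hc
          have h2 := (Finset.mem_filter.mp hc).2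
          rw [mul_pow]
          exact mul_le_mul_of_nonneg_right (pow_le_pow_left₀ (norm_nonneg _) h2 2) (by positivity)
      _ ≤ ∑ c ∈ T, (Real.exp (2 * w) / X ^ 3) ^ 2 * ‖FR f Y c‖ ^ 2 :=
          Finset.sum_le_sum_of_subset_of_nonneg (Finset.filter_subset _ _)
            (fun _ _ _ => by positivity)
      _ = (Real.exp (2 * w) / X ^ 3) ^ 2 * ∑ c ∈ T, ‖FR f Y c‖ ^ 2 := by rw [Finset.mul_sum]
      _ ≤ (Real.exp (2 * w) / X ^ 3) ^ 2 * (3 * Ch * X * Y ^ 4) :=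
          mul_le_mul_of_nonneg_left hsmall (by positivity)
      _ = 3 * Ch / X ^ 3 * ((Real.exp (2 * w) ^ 2 * Y ^ 4) / X ^ 2) := by
          field_simp
      _ = 3 * Ch / X ^ 3 * (Real.exp X ^ 4 / X ^ 2) := by rw [hYE]
      _ ≤ η / 2 * (Real.exp X ^ 4 / X ^ 2) := by
          apply mul_le_mul_of_nonneg_right _ (by positivity)
          rw [div_le_iff₀ (by positivity)]
          rw [div_le_iff₀ hη] at hXη
          have h3 : X ≤ X ^ 3 := le_self_pow₀ hX (by norm_num)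
          nlinarith
      _ = _ := by ring
  have h2 : ∑ c ∈ T.filter (fun c => ¬ ‖Qv f h v c‖ ≤ Real.exp (2 * w) / X ^ 3),
      (‖Qv f h v c‖ * ‖FR f Y c‖) ^ 2 ≤ η / 2 * Real.exp X ^ 4 / X ^ 2 := by
    calc _ ≤ ∑ c ∈ T.filter (fun c => ¬ ‖Qv f h v c‖ ≤ Real.exp (2 * w) / X ^ 3),
          ‖Qv f h v c‖ ^ 2 * (ε * Y ^ 2) ^ 2 := by
          apply Finset.sum_le_sum
          intro c hc
          have h3 := (Finset.mem_filter.mp hc).1
          rw [mul_pow]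
          exact mul_le_mul_of_nonneg_left (pow_le_pow_left₀ (norm_nonneg _) (hFR c h3) 2)
            (by positivity)
      _ = (∑ c ∈ T.filter (fun c => ¬ ‖Qv f h v c‖ ≤ Real.exp (2 * w) / X ^ 3),
          ‖Qv f h v c‖ ^ 2) * (ε * Y ^ 2) ^ 2 := by rw [Finset.sum_mul]
      _ ≤ (Cp * (Real.exp (2 * w) / w) ^ 2) * (ε * Y ^ 2) ^ 2 :=
          mul_le_mul_of_nonneg_right hlarge (by positivity)
      _ = Cp * ε ^ 2 * (Real.exp (2 * w) ^ 2 * Y ^ 4) * (1 / w ^ 2) := by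
          field_simp
      _ = Cp * ε ^ 2 * Real.exp X ^ 4 * (1 / w ^ 2) := by rw [hYE]
      _ ≤ Cp * ε ^ 2 * Real.exp X ^ 4 * (1 / (X / (K : ℝ) ^ 2) ^ 2) := by
          apply mul_le_mul_of_nonneg_left _ (by positivity)
          apply one_div_le_one_div_of_le (by positivity)
          exact pow_le_pow_left₀ (by positivity) hw 2
      _ = (ε ^ 2 * (2 * Cp * (K : ℝ) ^ 4)) / 2 * (Real.exp X ^ 4 / X ^ 2) := by
          field_simp
      _ ≤ η / 2 * (Real.exp X ^ 4 / X ^ 2) := by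
          apply mul_le_mul_of_nonneg_right _ (by positivity)
          linarith
      _ = _ := by ring
  calc _ ≤ η / 2 * Real.exp X ^ 4 / X ^ 2 + η / 2 * Real.exp X ^ 4 / X ^ 2 := add_le_add h1 h2
    _ = _ := by ring

/-- the reciprocal sum over the primes of the last range -/
theorem pu_Ls {Cm : ℝ} (hCm : 0 < Cm)
    (hmert : ∀ a b : ℝ, 1 ≤ a → a ≤ b →
      |Ls (pr (Real.exp a) (Real.exp b)) - Real.log (b / a)| ≤ Cm)
    {K h v0 v1 : ℕ} {X : ℝ} (hK : 3 ≤ K) (hh : 1 ≤ h) (hX : 4 * (K : ℝ) ^ 2 ≤ X)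
    (hlogK : 2 * (Cm + 1) ≤ Real.log K)
    (hv0 : h * X / (K : ℝ) ^ 2 ≤ v0) (hv0' : (v0 : ℝ) < h * X / (K : ℝ) ^ 2 + 1)
    (hv1' : h * X / K - 1 < v1) :
    v0 < v1 ∧ Real.log K / 2 ≤ Ls (rng h v0 v1) := by
  have hh0 : (0 : ℝ) < h := by exact_mod_cast hh
  have hh1 : (1 : ℝ) ≤ h := by exact_mod_cast hh
  have hK3 : (3 : ℝ) ≤ K := by exact_mod_cast hK
  have hK0 : (0 : ℝ) < K := by linarith
  set A := h * X / (K : ℝ) ^ 2 with hA
  have hA4 : 4 ≤ A := by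
    rw [hA, le_div_iff₀ (by positivity)]
    nlinarith
  have hKA : h * X / K = K * A := by
    rw [hA]
    field_simp
  rw [hKA] at hv1'
  have hKA3 : 3 * A ≤ K * A := mul_le_mul_of_nonneg_right hK3 (by linarith)
  have hlt : (v0 : ℝ) < v1 := by linarith
  have hlt' : v0 < v1 := by exact_mod_cast hlt
  refine ⟨hlt', ?_⟩
  have hv0p : (0 : ℝ) < v0 := by linarith
  have h1 := hmert ((v0 : ℝ) / h) ((v1 : ℝ) / h)
    (by
      rw [one_le_div hh0]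
      have h2 : (h : ℝ) ≤ A := by
        rw [hA, le_div_iff₀ (by positivity)]
        have : (K : ℝ) ^ 2 ≤ X := by nlinarith
        exact mul_le_mul_of_nonneg_left this hh0.le
      linarith)
    (div_le_div_of_nonneg_right hlt.le hh0.le)
  have e : (v1 : ℝ) / h / (v0 / h) = v1 / v0 := by field_simp
  rw [e] at h1
  have h2 : (K : ℝ) / 2 ≤ v1 / v0 := by
    rw [div_le_div_iff₀ (by norm_num) hv0p]
    nlinarith
  have h3 : Real.log ((K : ℝ) / 2) ≤ Real.log (v1 / v0) := Real.log_le_log (by positivity) h2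
  rw [Real.log_div hK0.ne' (by norm_num)] at h3
  have h4 : Real.log 2 ≤ 1 := by linarith [Real.log_two_lt_d9]
  have h5 := (abs_le.mp h1).1
  show Real.log K / 2 ≤ Ls (pr (Real.exp ((v0 : ℝ) / h)) (Real.exp ((v1 : ℝ) / h)))
  linarith

theorem propU : ∃ (α0 C : ℝ) (K1 : ℕ), 0 < α0 ∧ α0 ≤ 1 ∧ 0 < C ∧ 3 ≤ K1 ∧
    ∀ f : GaussianInt → ℂ, CM f → SmallFR f → ∀ K h : ℕ, K1 ≤ K → 1 ≤ h →
    ∃ R0 : ℝ, ∀ R : ℝ, R0 ≤ R → ∀ M : ℕ, 1 ≤ M → (M : ℝ) ≤ R → ∀ T ⊆ fr M,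
    (∀ c ∈ T, ∃ v ∈ Finset.Ico (vlo K h R) (vhi K h R),
      Real.exp ((2 - α0) * v / h) < ‖Qv f h v c‖) →
    ∑ c ∈ T, ‖FR f R c‖ ^ 2 ≤ C * R ^ 4 * (1 / Real.log K + 1 / h) := by
  obtain ⟨Ce, hCe, henergy⟩ := energy_le
  obtain ⟨δ, Ch, hδ, hδ2, hCh, hhal⟩ := halmont
  obtain ⟨Cc, hCc, hcount⟩ := count_large
  obtain ⟨Cm, hCm, hmert⟩ := mertens2
  set α0 : ℝ := min (1 / 1000) (δ / 20) with hα0
  have hα : 0 < α0 := lt_min (by norm_num) (by positivity)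
  have hα1 : α0 ≤ 1 / 1000 := min_le_left _ _
  have hα2 : α0 ≤ δ / 20 := min_le_right _ _
  refine ⟨α0, 2 * Ce + 1, max 3 ⌈Real.exp (2 * (Cm + 1))⌉₊, hα, by linarith, by linarith,
    le_max_left _ _, ?_⟩
  intro f hf hsm K h hK hh
  have hK3 : 3 ≤ K := (le_max_left _ _).trans hK
  have hK1 : 1 ≤ K := by omega
  have hKr : (3 : ℝ) ≤ K := by exact_mod_cast hK3
  have hK0 : (0 : ℝ) < K := by linarith
  have hh0 : (0 : ℝ) < h := by exact_mod_cast hh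
  have hh1 : (1 : ℝ) ≤ h := by exact_mod_cast hh
  have hlogK : 2 * (Cm + 1) ≤ Real.log K := by
    rw [Real.le_log_iff_exp_le hK0]
    have h1 : ⌈Real.exp (2 * (Cm + 1))⌉₊ ≤ K := (le_max_right _ _).trans hK
    exact (Nat.le_ceil _).trans (by exact_mod_cast h1)
  obtain ⟨δ', Cp, w0, hδ', hCp, hw0, hls⟩ := prime_ls (2 * K ^ 2)
  obtain ⟨Xb, hXb⟩ := pu_exp (h * (Cc * (K : ℝ) ^ 2) ^ (K ^ 2)) α0 1 hα
  obtain ⟨Xc, hXc⟩ := pu_exp ((Cc * (K : ℝ) ^ 2) ^ (K ^ 2)) (δ' / (K : ℝ) ^ 2) (6 * K ^ 2)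
    (by positivity)
  set η : ℝ := 1 / (2 * h ^ 3) with hη
  have hη0 : 0 < η := by positivity
  set ε : ℝ := √(η / (2 * Cp * (K : ℝ) ^ 4)) with hε
  have hε0 : 0 < ε := Real.sqrt_pos.mpr (by positivity)
  have hε2 : ε ^ 2 * (2 * Cp * (K : ℝ) ^ 4) ≤ η := by
    rw [hε, Real.sq_sqrt (by positivity), div_mul_cancel₀ _ (by positivity)]
  obtain ⟨Y0, hY0⟩ := hsm ε hε0
  set X0 : ℝ := 3 + 4 * (K : ℝ) ^ 2 + (K : ℝ) ^ 2 * w0 + h + |Xb| + |Xc| + 6 * Ch / η + 2 * |Y0|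
    with hX0
  refine ⟨Real.exp X0, ?_⟩
  intro R hR M hM hMR T hT hTv
  have hR0 : 0 < R := lt_of_lt_of_le (Real.exp_pos _) hR
  set X := Real.log R with hX
  have hRX : R = Real.exp X := (Real.exp_log hR0).symm
  have hXX0 : X0 ≤ X := (Real.le_log_iff_exp_le hR0).mpr hR
  have n1 : 0 ≤ (K : ℝ) ^ 2 * w0 := by positivity
  have n2 : 0 ≤ |Xb| := abs_nonneg _
  have n3 : 0 ≤ |Xc| := abs_nonneg _
  have n4 : 0 ≤ 6 * Ch / η := by positivity
  have n5 : 0 ≤ |Y0| := abs_nonneg _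
  have n6 : 0 ≤ (K : ℝ) ^ 2 := by positivity
  have x1 : 3 ≤ X := by linarith
  have x2 : 4 * (K : ℝ) ^ 2 ≤ X := by linarith
  have x2' : (K : ℝ) ^ 2 ≤ X := by linarith
  have x3 : (K : ℝ) ^ 2 * w0 ≤ X := by linarith
  have x4 : (h : ℝ) ≤ X := by linarith
  have x5 : Xb ≤ X := by linarith [le_abs_self Xb]
  have x6 : Xc ≤ X := by linarith [le_abs_self Xc]
  have x7 : 6 * Ch / η ≤ X := by linarith
  have x8 : Y0 ≤ X / 2 := by linarith [le_abs_self Y0]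
  have hX0' : 0 < X := by linarith
  have hhX : (0 : ℝ) ≤ h * X / (K : ℝ) ^ 2 := by positivity
  set v0 := vlo K h R with hv0d
  set v1 := vhi K h R with hv1d
  have hv0 : h * X / (K : ℝ) ^ 2 ≤ v0 := Nat.le_ceil _
  have hv0' : (v0 : ℝ) < h * X / (K : ℝ) ^ 2 + 1 := Nat.ceil_lt_add_one hhX
  have hv1 : (v1 : ℝ) ≤ h * X / K := Nat.floor_le (by positivity)
  have hv1' : h * X / K - 1 < v1 := Nat.sub_one_lt_floor _
  obtain ⟨hlt, hLs⟩ := pu_Ls hCm hmert hK3 hh x2 hlogK hv0 hv0' hv1'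
  have hlogK0 : 0 < Real.log K := by linarith
  have hLs1 : 1 ≤ Ls (rng h v0 v1) := by linarith
  have hexp : Real.exp (2 * v1 / h) ≤ R := by
    rw [hRX]
    apply Real.exp_le_exp.mpr
    rw [div_le_iff₀ hh0]
    have h1 : h * X / K ≤ h * X / 3 :=
      div_le_div_of_nonneg_left (by positivity) (by norm_num) hKr
    have h2 : (0 : ℝ) ≤ h * X := by positivity
    linarith
  have hMX : (M : ℝ) ≤ Real.exp X := by rwa [← hRX]
  have hmain := henergy f hf h v0 v1 M R hh hlt hexp hLs1 hM hMR T hT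
  have hcard := pu_card hCc (fun h v l M τ => hcount f hf h v l M τ) hK1 hh x2' hα hM hMX
    (hXb X x5) hv0 hv1 T hT hTv
  have hv : ∀ v ∈ Finset.Ico v0 v1,
      ∑ c ∈ T, (‖Qv f h v c‖ * ‖FR f (R * Real.exp (-((v : ℝ) / h))) c‖) ^ 2 ≤
        η * Real.exp X ^ 4 / X ^ 2 := by
    intro v hv
    obtain ⟨hva, hvb⟩ := Finset.mem_Ico.mp hv
    have hva' : (v0 : ℝ) ≤ v := by exact_mod_cast hva
    have hvb' : (v : ℝ) ≤ v1 := by exact_mod_cast hvb.le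
    obtain ⟨w1, w2, w3⟩ := pu_w hK1 hh hX0' (hv0.trans hva') (hvb'.trans hv1)
    have hw3 : (v : ℝ) / h ≤ X / 3 :=
      w2.trans (div_le_div_of_nonneg_left hX0'.le (by norm_num) hKr)
    rw [hRX]
    refine pu_v hK1 (by linarith) w1 hCp hη0 x7 hε2 T
      (pu_small hCh hhal hf x1 hw3 hδ (by linarith) hMX T hT hcard) ?_ ?_
    · apply pu_large hCc (fun h v l M τ => hcount f hf h v l M τ) hK1 hh x1 x2' hδ' hM hMX
        (fun v Lc => hls f hf h v Lc hh) (hXc X x6) (hv0.trans hva') (hvb'.trans hv1) x3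
      · exact (Finset.filter_subset _ _).trans hT
      · intro c hc
        exact not_le.mp (Finset.mem_filter.mp hc).2
    · intro c hc
      have e : Real.exp X * Real.exp (-((v : ℝ) / h)) = Real.exp (X - v / h) := by
        rw [← Real.exp_add]
        rfl
      have hYX : Real.exp (X / 2) ≤ Real.exp X * Real.exp (-((v : ℝ) / h)) := by
        rw [e]
        exact Real.exp_le_exp.mpr (by linarith)
      have hYX2 : Real.exp X ≤ (Real.exp X * Real.exp (-((v : ℝ) / h))) ^ 2 := by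
        calc Real.exp X = Real.exp (X / 2) ^ 2 := by
              rw [← Real.exp_nat_mul]
              congr 1
              push_cast
              ring
          _ ≤ _ := pow_le_pow_left₀ (Real.exp_pos _).le hYX 2
      obtain ⟨⟨a1, a2⟩, ⟨a3, a4⟩⟩ := mem_fr.mp (hT hc)
      apply hY0
      · calc Y0 ≤ X / 2 := x8
          _ ≤ X / 2 + 1 := by linarith
          _ ≤ Real.exp (X / 2) := Real.add_one_le_exp _
          _ ≤ _ := hYX
      · refine le_trans ?_ hYX2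
        refine le_trans ?_ hMX
        have : |c.1| ≤ (M : ℤ) := by
          rw [abs_le]
          constructor <;> omega
        exact_mod_cast this
      · refine le_trans ?_ hYX2
        refine le_trans ?_ hMX
        have : |c.2| ≤ (M : ℤ) := by
          rw [abs_le]
          constructor <;> omega
        exact_mod_cast this
  have hn : (((Finset.Ico v0 v1).card : ℕ) : ℝ) ≤ h * X := by
    rw [Nat.card_Ico]
    have h3 : ((v1 - v0 : ℕ) : ℝ) ≤ v1 := by exact_mod_cast Nat.sub_le _ _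
    have h4 : (h : ℝ) * X / K ≤ h * X := div_le_self (by positivity) (by linarith)
    linarith
  have hfirst : ∑ c ∈ T, (∑ v ∈ Finset.Ico v0 v1, ‖Qv f h v c‖ *
      ‖FR f (R * Real.exp (-((v : ℝ) / h))) c‖) ^ 2 ≤ h ^ 2 * η * R ^ 4 := by
    calc _ ≤ ∑ c ∈ T, (((Finset.Ico v0 v1).card : ℕ) : ℝ) * ∑ v ∈ Finset.Ico v0 v1,
          (‖Qv f h v c‖ * ‖FR f (R * Real.exp (-((v : ℝ) / h))) c‖) ^ 2 :=
          Finset.sum_le_sum (fun c _ => sq_sum_le_card_mul_sum_sq)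
      _ = (((Finset.Ico v0 v1).card : ℕ) : ℝ) * ∑ v ∈ Finset.Ico v0 v1, ∑ c ∈ T,
          (‖Qv f h v c‖ * ‖FR f (R * Real.exp (-((v : ℝ) / h))) c‖) ^ 2 := by
          rw [← Finset.mul_sum, Finset.sum_comm]
      _ ≤ (((Finset.Ico v0 v1).card : ℕ) : ℝ) * ∑ v ∈ Finset.Ico v0 v1,
          (η * Real.exp X ^ 4 / X ^ 2) :=
          mul_le_mul_of_nonneg_left (Finset.sum_le_sum hv) (Nat.cast_nonneg _)
      _ = (((Finset.Ico v0 v1).card : ℕ) : ℝ) * ((((Finset.Ico v0 v1).card : ℕ) : ℝ) *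
          (η * Real.exp X ^ 4 / X ^ 2)) := by
          rw [Finset.sum_const, nsmul_eq_mul]
      _ ≤ (h * X) * ((h * X) * (η * Real.exp X ^ 4 / X ^ 2)) := by
          have hq0 : 0 ≤ η * Real.exp X ^ 4 / X ^ 2 := by positivity
          have hhX0 : 0 ≤ (h : ℝ) * X := by positivity
          exact mul_le_mul hn (mul_le_mul_of_nonneg_right hn hq0)
            (mul_nonneg (Nat.cast_nonneg _) hq0) hhX0
      _ = h ^ 2 * η * Real.exp X ^ 4 := by field_simp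
      _ = h ^ 2 * η * R ^ 4 := by rw [← hRX]
  have hLsinv : 1 / Ls (rng h v0 v1) ≤ 2 / Real.log K := by
    rw [div_le_div_iff₀ (by linarith) hlogK0]
    linarith
  have hRh : 1 / R ≤ 1 / (h : ℝ) := by
    apply one_div_le_one_div_of_le hh0
    rw [hRX]
    have := Real.add_one_le_exp X
    linarith
  have hR4 : 0 < R ^ 4 := by positivity
  have hηh : 2 * (h ^ 2 * η * R ^ 4) = R ^ 4 * (1 / h) := by
    rw [hη]
    field_simp
  calc ∑ c ∈ T, ‖FR f R c‖ ^ 2 ≤ _ := hmain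
    _ ≤ 2 * (h ^ 2 * η * R ^ 4) + Ce * R ^ 4 * (2 / Real.log K + 1 / h + 1 / h) := by
        apply add_le_add
        · exact mul_le_mul_of_nonneg_left hfirst (by norm_num)
        · apply mul_le_mul_of_nonneg_left _ (by positivity)
          linarith
    _ = R ^ 4 * (1 / h) + 2 * Ce * R ^ 4 * (1 / Real.log K + 1 / h) := by
        rw [hηh]
        ring
    _ ≤ R ^ 4 * (1 / Real.log K + 1 / h) + 2 * Ce * R ^ 4 * (1 / Real.log K + 1 / h) := by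
        have h1 : 0 ≤ 1 / Real.log K := by positivity
        have h2 : R ^ 4 * (1 / (h : ℝ)) ≤ R ^ 4 * (1 / Real.log K + 1 / h) :=
          mul_le_mul_of_nonneg_left (by linarith) hR4.le
        linarith
    _ = _ := by ring

end Pool.Agent.MRG
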