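import Pool.Agent.MRG.PropA
import Pool.Agent.MRG.PropB
import Pool.Agent.MRG.PropU
import Pool.Agent.MRG.EnergyNum

/-!
# The steps of the energy theorem
-/

set_option autoImplicit false

namespace Pool.Agent.MRG

open Pool.Agent.GaussPret

/-- constants -/
noncomputable def cA : ℝ := propA.choose

/-- constants -/
noncomputable def cB : ℝ := propB.choose

/-- constants -/
noncomputable def cE : ℝ := mertens2.choose

theorem cA_pos : 0 < cA := propA.choose_spec.1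

theorem one_le_cB : 1 ≤ cB := propB.choose_spec.1

theorem cE_pos : 0 < cE := mertens2.choose_spec.1

/-- the ranges -/
def pj (s j : ℕ) : ℕ := s ^ (4 ^ j)

/-- the number of cells per unit -/
def hj (h0 j : ℕ) : ℕ := h0 * 2 ^ j

/-- lower end -/
def lo (h0 s j : ℕ) : ℕ := hj h0 j * pj s j

/-- upper end -/
def hi (h0 s j : ℕ) : ℕ := hj h0 j * pj s j ^ 2

/-- the exponents -/
noncomputable def aj (a : ℝ) (j : ℕ) : ℝ := a * (1 - 1 / 2 ^ (j + 1))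

/-- all prime polynomials of the range are small at `c` -/
def Sm (f : GaussianInt → ℂ) (h v0 v1 : ℕ) (α : ℝ) (c : ℤ × ℤ) : Prop :=
  ∀ v ∈ Finset.Ico v0 v1, ‖Qv f h v c‖ ≤ Real.exp ((2 - α) * v / h)

theorem not_Sm {f : GaussianInt → ℂ} {h v0 v1 : ℕ} {α : ℝ} {c : ℤ × ℤ} (hc : ¬ Sm f h v0 v1 α c) :
    ∃ r ∈ Finset.Ico v0 v1, Real.exp ((2 - α) * r / h) < ‖Qv f h r c‖ := by
  unfold Sm at hc
  push Not at hc
  exact hc

theorem Ls_lower {h v0 v1 : ℕ} (hh : 1 ≤ h) (h1 : h ≤ v0) (h2 : v0 ≤ v1) :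
    Real.log ((v1 : ℝ) / v0) - cE ≤ Ls (rng h v0 v1) := by
  have hh' : (0 : ℝ) < h := by exact_mod_cast hh
  have hv0 : (0 : ℝ) < v0 := by exact_mod_cast (lt_of_lt_of_le hh h1)
  have h3 := mertens2.choose_spec.2 ((v0 : ℝ) / h) ((v1 : ℝ) / h)
    (by rw [le_div_iff₀ hh', one_mul]; exact_mod_cast h1)
    (by gcongr)
  have h4 : (v1 : ℝ) / h / ((v0 : ℝ) / h) = (v1 : ℝ) / v0 := by
    field_simp
  rw [h4] at h3
  have h5 := (abs_le.1 h3).1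
  show Real.log ((v1 : ℝ) / v0) - mertens2.choose ≤ Ls (pr _ _)
  linarith

theorem pj_succ (s j : ℕ) : pj s (j + 1) = pj s j ^ 4 := by
  rw [pj, pj, pow_succ, pow_mul]

theorem pj_ge {s : ℕ} (hs : 1 ≤ s) (j : ℕ) : s ≤ pj s j := by
  calc s = s ^ 1 := (pow_one s).symm
    _ ≤ s ^ (4 ^ j) := Nat.pow_le_pow_right hs (Nat.one_le_pow _ _ (by norm_num))

theorem aj_succ (a : ℝ) (j : ℕ) : aj a (j + 1) - aj a j = a / 2 ^ (j + 2) := by
  rw [aj, aj]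
  field_simp
  ring

theorem aj_pos {a : ℝ} (ha : 0 < a) (j : ℕ) : 0 < aj a j := by
  rw [aj]
  have : (1 : ℝ) / 2 ^ (j + 1) < 1 := by
    rw [div_lt_one (by positivity)]
    exact one_lt_pow₀ (by norm_num) (by omega)
  have h2 : 0 < 1 - (1 : ℝ) / 2 ^ (j + 1) := by linarith
  positivity

theorem aj_lt {a : ℝ} (ha : 0 < a) (j : ℕ) : aj a j < a := by
  rw [aj]
  have : 0 < (1 : ℝ) / 2 ^ (j + 1) := by positivity
  nlinarith

/-- the numerical conditions on `s` -/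
def NumS (a ε : ℝ) (h0 s : ℕ) : Prop := ∀ x : ℝ, (s : ℝ) ≤ x →
      Real.log (cB * (x ^ 8 + 1)) ≤ a * Real.sqrt x ∧
      (h0 : ℝ) ^ 3 * x ^ 22 * Real.exp (-(1 * x)) ≤ ε ∧
      (h0 : ℝ) ^ 2 * x ^ 4 * Real.exp (-(a * x)) ≤ ε ∧
      3 ≤ a * x ∧ 2 * cE + 2 ≤ Real.log x ∧ 2 / ε ≤ Real.log x

theorem stepA {f : GaussianInt → ℂ} (hf : CM f) {a ε : ℝ} (ha : 0 < a) (hε : 0 < ε)
    {h0 s : ℕ} (hh0 : 1 ≤ h0) (hε1 : 1 / (h0 : ℝ) ≤ ε) (hs : 16 ≤ s) (hn : NumS a ε h0 s)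
    {R : ℝ} {M : ℕ} (hM : 1 ≤ M) (hMR : (M : ℝ) ≤ Real.exp (-((s : ℝ) ^ 2)) * R)
    (hR : Real.exp (2 * (s : ℝ) ^ 2) ≤ R) (T : Finset (ℤ × ℤ)) (hT : T ⊆ fr M)
    (hc : ∀ c ∈ T, Sm f (hj h0 0) (lo h0 s 0) (hi h0 s 0) (aj a 0) c) :
    ∑ c ∈ T, ‖FR f R c‖ ^ 2 ≤ cA * R ^ 4 * (3 * ε + 1 / R) := by
  have hs0 : (0 : ℝ) < s := by positivity
  have hs16 : (16 : ℝ) ≤ s := by exact_mod_cast hs
  have hh0' : (0 : ℝ) < h0 := by exact_mod_cast hh0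
  have e1 : hj h0 0 = h0 := by simp [hj]
  have e2 : lo h0 s 0 = h0 * s := by simp [lo, hj, pj]
  have e3 : hi h0 s 0 = h0 * s ^ 2 := by simp [hi, hj, pj]
  have e4 : aj a 0 = a / 2 := by rw [aj]; ring
  rw [e1, e2, e3, e4] at hc
  obtain ⟨n1, n2, n3, n4, n5, n6⟩ := hn s le_rfl
  have hlt : h0 * s < h0 * s ^ 2 := by
    apply Nat.mul_lt_mul_of_pos_left _ hh0
    nlinarith
  have hr1 : ((h0 * s ^ 2 : ℕ) : ℝ) / h0 = (s : ℝ) ^ 2 := by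
    push_cast; field_simp
  have hr0 : ((h0 * s : ℕ) : ℝ) / h0 = (s : ℝ) := by
    push_cast; field_simp
  have hLs : Real.log s / 2 ≤ Ls (rng h0 (h0 * s) (h0 * s ^ 2)) := by
    have h1 := Ls_lower (h := h0) (v0 := h0 * s) (v1 := h0 * s ^ 2) hh0 (by nlinarith) hlt.le
    have h2 : ((h0 * s ^ 2 : ℕ) : ℝ) / ((h0 * s : ℕ) : ℝ) = s := by
      push_cast; field_simp
    rw [h2] at h1
    have := cE_pos
    linarith
  have hLs1 : 1 ≤ Ls (rng h0 (h0 * s) (h0 * s ^ 2)) := by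
    have := cE_pos
    linarith
  have hLs2 : 1 / Ls (rng h0 (h0 * s) (h0 * s ^ 2)) ≤ ε := by
    rw [div_le_iff₀ (by linarith)]
    have h1 : 2 / ε ≤ Real.log s := n6
    rw [div_le_iff₀ hε] at h1
    nlinarith
  have h1 := propA.choose_spec.2 f hf h0 (h0 * s) (h0 * s ^ 2) M R (a / 2) hh0 hlt
    (by positivity) hM hLs1 (by rw [hr1, mul_comm]; exact hMR)
    (by rw [mul_div_assoc, hr1]; exact hR) T hT hc
  refine h1.trans ?_
  have hR0 : 0 < R := (Real.exp_pos _).trans_le hR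
  show cA * R ^ 4 * _ ≤ cA * R ^ 4 * _
  have hA := cA_pos
  gcongr
  have h2 : (((h0 * s ^ 2 : ℕ) : ℝ) - ((h0 * s : ℕ) : ℝ)) ^ 2 *
      Real.exp (-(2 * (a / 2) * ((h0 * s : ℕ) : ℝ) / h0)) ≤ ε := by
    rw [mul_div_assoc, hr0]
    have h3 : (((h0 * s ^ 2 : ℕ) : ℝ) - ((h0 * s : ℕ) : ℝ)) ^ 2 ≤ (h0 : ℝ) ^ 2 * (s : ℝ) ^ 4 := by
      have h4 : ((h0 * s : ℕ) : ℝ) ≤ ((h0 * s ^ 2 : ℕ) : ℝ) := by exact_mod_cast hlt.le
      have h5 : (0 : ℝ) ≤ ((h0 * s : ℕ) : ℝ) := Nat.cast_nonneg _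
      calc (((h0 * s ^ 2 : ℕ) : ℝ) - ((h0 * s : ℕ) : ℝ)) ^ 2 ≤ (((h0 * s ^ 2 : ℕ) : ℝ)) ^ 2 := by
            apply pow_le_pow_left₀ (by linarith)
            linarith
        _ = (h0 : ℝ) ^ 2 * (s : ℝ) ^ 4 := by push_cast; ring
    calc (((h0 * s ^ 2 : ℕ) : ℝ) - ((h0 * s : ℕ) : ℝ)) ^ 2 * Real.exp (-(2 * (a / 2) * s))
        ≤ (h0 : ℝ) ^ 2 * (s : ℝ) ^ 4 * Real.exp (-(a * s)) := by
          have : 2 * (a / 2) * (s : ℝ) = a * s := by ring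
          rw [this]
          gcongr
      _ ≤ ε := n3
  linarith

theorem stepB {f : GaussianInt → ℂ} (hf : CM f) {a ε : ℝ} (ha : 0 < a) (ha1 : a ≤ 1) (hε : 0 < ε)
    {h0 s : ℕ} (hh0 : 1 ≤ h0) (hε1 : 1 / (h0 : ℝ) ≤ ε) (hs : 16 ≤ s) (hn : NumS a ε h0 s)
    (j : ℕ) {R : ℝ} {M : ℕ} (hM : 1 ≤ M) (hMR : (M : ℝ) ≤ R)
    (hR : Real.exp (2 * (pj s (j + 1) : ℝ) ^ 2) ≤ R) (T : Finset (ℤ × ℤ)) (hT : T ⊆ fr M)
    (hc : ∀ c ∈ T, Sm f (hj h0 (j + 1)) (lo h0 s (j + 1)) (hi h0 s (j + 1)) (aj a (j + 1)) c ∧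
      ¬ Sm f (hj h0 j) (lo h0 s j) (hi h0 s j) (aj a j) c) :
    ∑ c ∈ T, ‖FR f R c‖ ^ 2 ≤ cB * R ^ 4 * (3 * (ε / 2 ^ (j + 1)) + 1 / R) := by
  have hs0 : (0 : ℝ) < s := by positivity
  have hs16 : (16 : ℝ) ≤ s := by exact_mod_cast hs
  have hh0' : (0 : ℝ) < h0 := by exact_mod_cast hh0
  have hjp : ∀ i, 1 ≤ hj h0 i := fun i => Nat.one_le_iff_ne_zero.2 (by
    rw [hj]; positivity)
  have hjp' : ∀ i, (0 : ℝ) < hj h0 i := fun i => by exact_mod_cast hjp i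
  obtain ⟨x, hx⟩ : ∃ x : ℝ, x = (pj s j : ℝ) := ⟨_, rfl⟩
  have hx0 : x = (s : ℝ) ^ (4 ^ j) := by rw [hx, pj]; push_cast; rfl
  have hx4 : (pj s (j + 1) : ℝ) = x ^ 4 := by rw [pj_succ, hx]; push_cast; rfl
  have hxs : (s : ℝ) ≤ x := by
    rw [hx]
    exact_mod_cast pj_ge (by omega) j
  have hx1 : 1 ≤ x := by linarith
  have hxp : 0 < x := by linarith
  have hx2 : (2 : ℝ) ^ (4 * (j + 1)) ≤ x := by
    rw [hx0]; exact pow_scale hs j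
  obtain ⟨n1, n2, n3, n4, n5, n6⟩ := hn x hxs
  have hpj2 : ∀ i, 2 ≤ pj s i := fun i => le_trans (by omega) (pj_ge (by omega) i)
  have hlt : ∀ i, lo h0 s i < hi h0 s i := by
    intro i
    rw [lo, hi]
    apply Nat.mul_lt_mul_of_pos_left _ (hjp i)
    have := hpj2 i
    nlinarith
  have hhl : ∀ i, hj h0 i ≤ lo h0 s i := by
    intro i
    rw [lo]
    have := hpj2 i
    have := hjp i
    nlinarith
  have hr1 : ((hi h0 s (j + 1) : ℕ) : ℝ) / hj h0 (j + 1) = x ^ 8 := by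
    have h1 := hjp' (j + 1)
    rw [hi]
    push_cast
    rw [hx4]
    field_simp
  have hr0 : ((lo h0 s (j + 1) : ℕ) : ℝ) / hj h0 (j + 1) = x ^ 4 := by
    have h1 := hjp' (j + 1)
    rw [lo]
    push_cast
    rw [hx4]
    field_simp
  have hw1 : ((hi h0 s j : ℕ) : ℝ) / hj h0 j = x ^ 2 := by
    have h1 := hjp' j
    rw [hi]
    push_cast
    rw [← hx]
    field_simp
  have hw0 : ((lo h0 s j : ℕ) : ℝ) / hj h0 j = x := by
    have h1 := hjp' j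
    rw [lo]
    push_cast
    rw [← hx]
    field_simp
  -- powers of two
  have hsq : (2 : ℝ) ^ (j + 2) ≤ Real.sqrt x := by
    apply Real.le_sqrt_of_sq_le
    rw [← pow_mul]
    refine le_trans ?_ hx2
    exact pow_le_pow_right₀ (by norm_num) (by omega)
  have hsx : Real.sqrt x ≤ x := by
    rw [Real.sqrt_le_left (by linarith)]
    nlinarith
  have h2x : (2 : ℝ) ^ (j + 2) ≤ x := hsq.trans hsx
  -- the logarithmic sum
  have hlogx : Real.log (x ^ 4) = 4 * Real.log x := by rw [Real.log_pow]; norm_num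
  have hlog : (2 : ℝ) ^ (j + 1) / ε ≤ Real.log x := by
    obtain ⟨-, -, -, -, -, m6⟩ := hn s le_rfl
    rw [hx0, Real.log_pow]
    push_cast
    have h1 : (2 : ℝ) ^ j ≤ 4 ^ j := pow_le_pow_left₀ (by norm_num) (by norm_num) j
    calc (2 : ℝ) ^ (j + 1) / ε = 2 ^ j * (2 / ε) := by rw [pow_succ]; ring
      _ ≤ 4 ^ j * Real.log s := by gcongr
  have hLs : 3 * Real.log x ≤ Ls (rng (hj h0 (j + 1)) (lo h0 s (j + 1)) (hi h0 s (j + 1))) := by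
    have h1 := Ls_lower (h := hj h0 (j + 1)) (v0 := lo h0 s (j + 1)) (v1 := hi h0 s (j + 1))
      (hjp _) (hhl _) (hlt _).le
    have h2 : ((hi h0 s (j + 1) : ℕ) : ℝ) / ((lo h0 s (j + 1) : ℕ) : ℝ) = x ^ 4 := by
      rw [← div_div_div_cancel_right₀ (hjp' (j + 1)).ne', hr1, hr0]
      field_simp
    rw [h2, hlogx] at h1
    have := cE_pos
    linarith
  have hLs1 : 1 ≤ Ls (rng (hj h0 (j + 1)) (lo h0 s (j + 1)) (hi h0 s (j + 1))) := by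
    have := cE_pos
    linarith
  have hLs2 : 1 / Ls (rng (hj h0 (j + 1)) (lo h0 s (j + 1)) (hi h0 s (j + 1))) ≤
      ε / 2 ^ (j + 1) := by
    rw [div_le_div_iff₀ (by linarith) (by positivity), one_mul]
    rw [div_le_iff₀ hε] at hlog
    have := cE_pos
    nlinarith
  have hh1 : 1 / (hj h0 (j + 1) : ℝ) ≤ ε / 2 ^ (j + 1) := by
    rw [hj]
    push_cast
    rw [div_le_div_iff₀ (by positivity) (by positivity), one_mul]
    rw [div_le_iff₀ hh0'] at hε1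
    have : (0 : ℝ) < 2 ^ (j + 1) := by positivity
    nlinarith
  have hcond : Real.log (cB * ((hi h0 s (j + 1) : ℝ) / hj h0 (j + 1) + 1)) ≤
      (aj a (j + 1) - aj a j) * ((lo h0 s j : ℝ) / hj h0 j) := by
    rw [hr1, hw0, aj_succ]
    refine n1.trans ?_
    have h1 : Real.sqrt x * Real.sqrt x = x := Real.mul_self_sqrt hxp.le
    have h2 : (2 : ℝ) ^ (j + 2) * Real.sqrt x ≤ x := by
      calc (2 : ℝ) ^ (j + 2) * Real.sqrt x ≤ Real.sqrt x * Real.sqrt x := by gcongr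
        _ = x := h1
    rw [div_mul_eq_mul_div, le_div_iff₀ (by positivity)]
    nlinarith
  have h1 := propB.choose_spec.2 f hf (hj h0 j) (lo h0 s j) (hi h0 s j) (hj h0 (j + 1))
    (lo h0 s (j + 1)) (hi h0 s (j + 1)) M R (aj a j) (aj a (j + 1)) (hjp _) (hhl _) (hlt _)
    (hjp _) (hhl _) (hlt _) (aj_pos ha _) (by
      have h2 := aj_succ a j
      have h3 : 0 < a / 2 ^ (j + 2) := by positivity
      linarith) ((aj_lt ha _).le.trans ha1) hM hMR (by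
      rw [mul_div_assoc, hr1]
      have e : (pj s (j + 1) : ℝ) ^ 2 = x ^ 8 := by rw [hx4]; ring
      rw [e] at hR
      exact hR) hLs1 hcond T hT (fun c hcT => ⟨(hc c hcT).1, not_Sm (hc c hcT).2⟩)
  refine h1.trans ?_
  have hR0 : 0 < R := (Real.exp_pos _).trans_le hR
  show cB * R ^ 4 * _ ≤ cB * R ^ 4 * _
  have hB := one_le_cB
  gcongr
  rw [hr0, hw1, aj_succ]
  have h2 : (((hi h0 s (j + 1) : ℕ) : ℝ) - ((lo h0 s (j + 1) : ℕ) : ℝ)) ^ 2 ≤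
      (h0 : ℝ) ^ 2 * 2 ^ (2 * (j + 1)) * x ^ 16 := by
    have h4 : ((lo h0 s (j + 1) : ℕ) : ℝ) ≤ ((hi h0 s (j + 1) : ℕ) : ℝ) := by
      exact_mod_cast (hlt _).le
    have h5 : (0 : ℝ) ≤ ((lo h0 s (j + 1) : ℕ) : ℝ) := Nat.cast_nonneg _
    have h6 : ((hi h0 s (j + 1) : ℕ) : ℝ) = h0 * 2 ^ (j + 1) * x ^ 8 := by
      rw [← hr1, hj]
      push_cast
      field_simp
    calc _ ≤ (((hi h0 s (j + 1) : ℕ) : ℝ)) ^ 2 := by
          apply pow_le_pow_left₀ (by linarith)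
          linarith
      _ = (h0 : ℝ) ^ 2 * 2 ^ (2 * (j + 1)) * x ^ 16 := by rw [h6, mul_pow, mul_pow, ← pow_mul, ← pow_mul]; ring_nf
  have h3 : ((hi h0 s j : ℕ) : ℝ) - ((lo h0 s j : ℕ) : ℝ) ≤ (h0 : ℝ) * 2 ^ j * x ^ 2 := by
    have h5 : (0 : ℝ) ≤ ((lo h0 s j : ℕ) : ℝ) := Nat.cast_nonneg _
    have h6 : ((hi h0 s j : ℕ) : ℝ) = h0 * 2 ^ j * x ^ 2 := by
      rw [← hw1, hj]
      push_cast
      field_simp
    linarith
  have h30 : 0 ≤ ((hi h0 s j : ℕ) : ℝ) - ((lo h0 s j : ℕ) : ℝ) := by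
    have : ((lo h0 s j : ℕ) : ℝ) ≤ ((hi h0 s j : ℕ) : ℝ) := by exact_mod_cast (hlt _).le
    linarith
  have h4 : -(a / 2 ^ (j + 2) * x ^ 4) + 2 * aj a (j + 1) * x ^ 2 ≤ -(1 * x) := by
    have h5 : a * x ^ 3 ≤ a / 2 ^ (j + 2) * x ^ 4 := by
      rw [div_mul_eq_mul_div, le_div_iff₀ (by positivity)]
      have : x ^ 3 * 2 ^ (j + 2) ≤ x ^ 3 * x := by gcongr
      nlinarith
    have h6 : 3 * x ^ 2 ≤ a * x ^ 3 := by
      have : 3 * x ^ 2 ≤ (a * x) * x ^ 2 := by gcongr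
      nlinarith
    have h7 : aj a (j + 1) ≤ 1 := (aj_lt ha _).le.trans ha1
    have h8 : 2 * aj a (j + 1) * x ^ 2 ≤ 2 * 1 * x ^ 2 := by gcongr
    have h9 : x ≤ x ^ 2 := by nlinarith
    linarith
  have h5 : (((hi h0 s (j + 1) : ℕ) : ℝ) - ((lo h0 s (j + 1) : ℕ) : ℝ)) ^ 2 *
      (((hi h0 s j : ℕ) : ℝ) - ((lo h0 s j : ℕ) : ℝ)) *
      Real.exp (-(a / 2 ^ (j + 2) * x ^ 4) + 2 * aj a (j + 1) * x ^ 2) ≤ ε / 2 ^ (j + 1) := by
    calc _ ≤ ((h0 : ℝ) ^ 2 * 2 ^ (2 * (j + 1)) * x ^ 16) * ((h0 : ℝ) * 2 ^ j * x ^ 2) *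
          Real.exp (-(1 * x)) := by gcongr
      _ = (h0 : ℝ) ^ 3 * (2 ^ (3 * j + 2) * x ^ 18) * Real.exp (-(1 * x)) := by
          have e1 : (2 : ℝ) ^ (2 * (j + 1)) * 2 ^ j = 2 ^ (3 * j + 2) := by
            rw [← pow_add]; congr 1; ring
          have e2 : x ^ 18 = x ^ 16 * x ^ 2 := by ring
          rw [← e1, e2]; ring
      _ ≤ (h0 : ℝ) ^ 3 * (x ^ 22 / 2 ^ (j + 1)) * Real.exp (-(1 * x)) := by
          gcongr
          rw [le_div_iff₀ (by positivity)]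
          have e3 : (2 : ℝ) ^ (3 * j + 2) * x ^ 18 * 2 ^ (j + 1) = 2 ^ (4 * j + 3) * x ^ 18 := by
            have : (2 : ℝ) ^ (3 * j + 2) * 2 ^ (j + 1) = 2 ^ (4 * j + 3) := by
              rw [← pow_add]; congr 1; ring
            rw [← this]; ring
          rw [e3]
          have e4 : (2 : ℝ) ^ (4 * j + 3) ≤ x := by
            refine le_trans ?_ hx2
            exact pow_le_pow_right₀ (by norm_num) (by omega)
          calc (2 : ℝ) ^ (4 * j + 3) * x ^ 18 ≤ x * x ^ 18 := by gcongr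
            _ = x ^ 19 := by ring
            _ ≤ x ^ 22 := pow_le_pow_right₀ hx1 (by norm_num)
      _ = ((h0 : ℝ) ^ 3 * x ^ 22 * Real.exp (-(1 * x))) / 2 ^ (j + 1) := by ring
      _ ≤ ε / 2 ^ (j + 1) := by gcongr
  linarith

end Pool.Agent.MRG
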