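import Pool.Agent.MRG.Defs

/-!
# Module Thin: counting Gaussian integers in discs and thin annuli

* `card_ball_asymp`: unit squares around the lattice points: the union of the squares `g + [-1/2,1/2]^2`, `|g| ≤ r`, contains
  the disc of radius `r - 1` and is contained in the disc of radius `r + 1` (area `π r²`; the point `0` is missing in `ball r`).
  (Or count line by line: for `|a| ≤ r` there are `2√(r²-a²) + O(1)` values `b`; compare the sum over `a` with the integral.)
* `card_thin`: by symmetry let `|b| ≥ |a|`, so `|b| ≥ r/√2`; for fixed `a` the admissible `b > 0` lie in an interval of length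
  `((r+t)² - r²)/(b₁+b₂) ≤ C (t + 1)`, and there are at most `2(r+t)+1` values of `a`.  (If `r ≤ t` use `card_ball_le`.)
-/

set_option autoImplicit false

namespace Pool.Agent.MRG

open Pool.Agent.GaussPret

namespace ThinAux

open MeasureTheory

/-- the half-open unit square centred at `g` -/
def sq (g : GaussianInt) : Set ℂ := Complex.measurableEquivRealProd ⁻¹'
  (Set.Ico ((g.re : ℝ) - 1 / 2) ((g.re : ℝ) + 1 / 2) ×ˢ
    Set.Ico ((g.im : ℝ) - 1 / 2) ((g.im : ℝ) + 1 / 2))

theorem mem_sq {g : GaussianInt} {z : ℂ} : z ∈ sq g ↔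
    ((g.re : ℝ) - 1 / 2 ≤ z.re ∧ z.re < (g.re : ℝ) + 1 / 2) ∧
    ((g.im : ℝ) - 1 / 2 ≤ z.im ∧ z.im < (g.im : ℝ) + 1 / 2) := Iff.rfl

theorem measurable_sq (g : GaussianInt) : MeasurableSet (sq g) :=
  Complex.measurableEquivRealProd.measurable (measurableSet_Ico.prod measurableSet_Ico)

theorem volume_sq (g : GaussianInt) : volume (sq g) = 1 := by
  unfold sq
  rw [Complex.volume_preserving_equiv_real_prod.measure_preimage
    (measurableSet_Ico.prod measurableSet_Ico).nullMeasurableSet, Measure.volume_eq_prod,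
    Measure.prod_prod, Real.volume_Ico, Real.volume_Ico]
  have e : ∀ a : ℝ, a + 1 / 2 - (a - 1 / 2) = 1 := fun a => by ring
  rw [e, e]
  simp

theorem disj {g g' : GaussianInt} (h : g ≠ g') : Disjoint (sq g) (sq g') := by
  rw [Set.disjoint_left]
  intro z hz hz'
  rw [mem_sq] at hz hz'
  apply h
  have h1 : g.re = g'.re := by
    have a1 : (g.re : ℝ) < g'.re + 1 := by linarith [hz.1.1, hz'.1.2]
    have a2 : (g'.re : ℝ) < g.re + 1 := by linarith [hz'.1.1, hz.1.2]
    have b1 : g.re < g'.re + 1 := by exact_mod_cast a1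
    have b2 : g'.re < g.re + 1 := by exact_mod_cast a2
    omega
  have h2 : g.im = g'.im := by
    have a1 : (g.im : ℝ) < g'.im + 1 := by linarith [hz.2.1, hz'.2.2]
    have a2 : (g'.im : ℝ) < g.im + 1 := by linarith [hz'.2.1, hz.2.2]
    have b1 : g.im < g'.im + 1 := by exact_mod_cast a1
    have b2 : g'.im < g.im + 1 := by exact_mod_cast a2
    omega
  exact Zsqrtd.ext h1 h2

theorem dist_lt {g : GaussianInt} {z : ℂ} (h : z ∈ sq g) :
    ‖z - GaussianInt.toComplex g‖ < 1 := by
  rw [mem_sq] at h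
  have h1 : ‖z - GaussianInt.toComplex g‖ ^ 2 = (z.re - g.re) ^ 2 + (z.im - g.im) ^ 2 := by
    rw [← Complex.normSq_eq_norm_sq, Complex.normSq_apply, GaussianInt.toComplex_def]
    simp
    ring
  have h2 : (z.re - g.re) ^ 2 ≤ 1 / 4 := by
    nlinarith [h.1.1, h.1.2]
  have h3 : (z.im - g.im) ^ 2 ≤ 1 / 4 := by
    nlinarith [h.2.1, h.2.2]
  have h4 : ‖z - GaussianInt.toComplex g‖ ^ 2 < 1 ^ 2 := by
    rw [h1]
    linarith
  exact lt_of_pow_lt_pow_left₀ 2 zero_le_one h4

open scoped Classical in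
/-- all Gaussian integers of the closed disc -/
noncomputable def S (r : ℝ) : Finset GaussianInt := insert 0 (ball r)

theorem card_S (r : ℝ) : (S r).card = (ball r).card + 1 := by
  classical
  unfold S
  rw [Finset.card_insert_of_notMem]
  intro h
  rw [mem_ball'] at h
  exact h.1 rfl

theorem mem_S {r : ℝ} (hr : 0 ≤ r) {g : GaussianInt} : g ∈ S r ↔ ab g ≤ r := by
  classical
  unfold S
  rw [Finset.mem_insert, mem_ball']
  constructor
  · rintro (h | h)
    · rw [h]
      simpa [ab] using hr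
    · exact h.2
  · intro h
    by_cases h0 : g = 0
    · exact Or.inl h0
    · exact Or.inr ⟨h0, h⟩

theorem volume_S (r : ℝ) : volume (⋃ g ∈ S r, sq g) = ((S r).card : ENNReal) := by
  rw [measure_biUnion_finset]
  · rw [Finset.sum_congr rfl fun g _ => volume_sq g]
    simp
  · intro g _ g' _ h
    exact disj h
  · intro g _
    exact measurable_sq g

theorem up (r : ℝ) (hr : 0 ≤ r) : ((ball r).card : ℝ) + 1 ≤ Real.pi * (r + 1) ^ 2 := by
  have h1 : (⋃ g ∈ S r, sq g) ⊆ Metric.ball (0 : ℂ) (r + 1) := by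
    intro z hz
    rw [Set.mem_iUnion₂] at hz
    obtain ⟨g, hg, hz⟩ := hz
    rw [mem_S hr] at hg
    rw [Metric.mem_ball, dist_zero_right]
    have h2 := dist_lt hz
    calc ‖z‖ = ‖(z - GaussianInt.toComplex g) + GaussianInt.toComplex g‖ := by
          rw [sub_add_cancel]
      _ ≤ ‖z - GaussianInt.toComplex g‖ + ‖GaussianInt.toComplex g‖ := norm_add_le _ _
      _ < 1 + r := by
          have : ‖GaussianInt.toComplex g‖ ≤ r := hg
          linarith
      _ = r + 1 := by ring
  have h2 := measure_mono (μ := volume) h1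
  rw [volume_S, Complex.volume_ball, card_S] at h2
  have h3 := ENNReal.toReal_mono (by finiteness) h2
  rw [ENNReal.toReal_mul, ENNReal.toReal_pow, ENNReal.toReal_ofReal (by linarith),
    ENNReal.toReal_natCast] at h3
  push_cast at h3
  have h4 : (NNReal.pi : ENNReal).toReal = Real.pi := by simp
  rw [h4] at h3
  linarith

theorem lo (r : ℝ) (hr : 1 ≤ r) : Real.pi * (r - 1) ^ 2 ≤ ((ball r).card : ℝ) + 1 := by
  have h1 : Metric.ball (0 : ℂ) (r - 1) ⊆ (⋃ g ∈ S r, sq g) := by
    intro z hz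
    rw [Metric.mem_ball, dist_zero_right] at hz
    rw [Set.mem_iUnion₂]
    have hzg : z ∈ sq ⟨⌊z.re + 1 / 2⌋, ⌊z.im + 1 / 2⌋⟩ := by
      rw [mem_sq]
      have a1 := Int.floor_le (z.re + 1 / 2)
      have a2 := Int.lt_floor_add_one (z.re + 1 / 2)
      have a3 := Int.floor_le (z.im + 1 / 2)
      have a4 := Int.lt_floor_add_one (z.im + 1 / 2)
      refine ⟨⟨?_, ?_⟩, ?_, ?_⟩ <;> simp only <;> linarith
    refine ⟨_, ?_, hzg⟩
    rw [mem_S (by linarith)]
    have h2 := dist_lt hzg
    have h3 : ∀ w : ℂ, ‖z - w‖ < 1 → ‖w‖ ≤ r := by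
      intro w hw
      have : ‖w‖ ≤ ‖z‖ + ‖z - w‖ := by
        calc ‖w‖ = ‖z - (z - w)‖ := by rw [sub_sub_cancel]
          _ ≤ _ := norm_sub_le _ _
      linarith
    exact h3 _ h2
  have h2 := measure_mono (μ := volume) h1
  rw [volume_S, Complex.volume_ball, card_S] at h2
  have h3 := ENNReal.toReal_mono (by finiteness) h2
  rw [ENNReal.toReal_mul, ENNReal.toReal_pow, ENNReal.toReal_ofReal (by linarith),
    ENNReal.toReal_natCast] at h3
  push_cast at h3
  have h4 : (NNReal.pi : ENNReal).toReal = Real.pi := by simp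
  rw [h4] at h3
  linarith

end ThinAux

open ThinAux

theorem card_ball_asymp : ∃ C : ℝ, 0 < C ∧ ∀ r : ℝ, 0 ≤ r →
    |((ball r).card : ℝ) - Real.pi * r ^ 2| ≤ C * (r + 1) := by
  refine ⟨10, by norm_num, fun r hr => ?_⟩
  have hpi := Real.pi_lt_d2
  have hpi0 := Real.pi_pos
  have h1 := up r hr
  rw [abs_le]
  constructor
  · by_cases h : 1 ≤ r
    · have h2 := lo r h
      nlinarith
    · push Not at h
      have h3 : (0 : ℝ) ≤ ((ball r).card : ℝ) := Nat.cast_nonneg _
      have h4 : Real.pi * r ^ 2 ≤ Real.pi * 1 := by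
        refine mul_le_mul_of_nonneg_left ?_ hpi0.le
        nlinarith
      linarith
  · nlinarith

theorem card_thin : ∃ C : ℝ, 0 < C ∧ ∀ r t : ℝ, 0 ≤ r → 0 ≤ t →
    ((ann r (r + t)).card : ℝ) ≤ C * (r + t + 1) * (t + 1) := by
  obtain ⟨C, hC, h⟩ := card_ball_asymp
  refine ⟨2 * C + 8, by linarith, fun r t hr ht => ?_⟩
  have hsum : (ann r (r + t)).card + (ball r).card = (ball (r + t)).card := by
    have h1 := Finset.card_filter_add_card_filter_not (s := ball (r + t)) (fun g => r < ab g)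
    have h2 : (ball (r + t)).filter (fun g => ¬ r < ab g) = ball r := by
      ext g
      rw [Finset.mem_filter, mem_ball', mem_ball']
      constructor
      · rintro ⟨⟨h1, _⟩, h3⟩
        exact ⟨h1, not_lt.1 h3⟩
      · rintro ⟨h1, h3⟩
        exact ⟨⟨h1, by linarith⟩, not_lt.2 h3⟩
    rw [h2] at h1
    exact h1
  have hsum' : ((ann r (r + t)).card : ℝ) = (ball (r + t)).card - (ball r).card := by
    rw [← hsum]
    push_cast
    ring
  have h1 := abs_le.1 (h r hr)
  have h2 := abs_le.1 (h (r + t) (by linarith))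
  have hpi := Real.pi_lt_d2
  have hpi0 := Real.pi_pos
  rw [hsum']
  have h3 : Real.pi * (r + t) ^ 2 - Real.pi * r ^ 2 ≤ 8 * ((r + t + 1) * (t + 1)) := by
    have e : Real.pi * (r + t) ^ 2 - Real.pi * r ^ 2 = Real.pi * (t * (2 * r + t)) := by ring
    rw [e]
    have h4 : t * (2 * r + t) ≤ 2 * ((r + t + 1) * (t + 1)) := by nlinarith [mul_nonneg hr ht]
    have h5 : 0 ≤ t * (2 * r + t) := by positivity
    nlinarith
  have h6 : C * (r + t + 1) + C * (r + 1) ≤ 2 * C * ((r + t + 1) * (t + 1)) := by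
    have h7 : (r + t + 1) + (r + 1) ≤ 2 * ((r + t + 1) * (t + 1)) := by nlinarith [mul_nonneg hr ht]
    nlinarith
  nlinarith [h1.1, h1.2, h2.1, h2.2]

end Pool.Agent.MRG
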