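import Pool.Agent.MRG.Defs
import Pool.Agent.MRG.Thin
import Pool.Agent.Hhelper49.GaussPret.Euler

/-!
# Module Fac: factorisation of Gaussian integers with first-quadrant primes

* `log_eq`: `log |n| = ∑_{p ∈ pr 1 r} v_p(n) log |p|` for `0 ≠ |n| ≤ r` (induction `UniqueFactorizationMonoid.induction_on_prime`: `n` is a unit or
  `q m` with `q` prime, associated to a first-quadrant prime `exists_P1`; `mult_mul`, `mult_prime` in `GaussPret/Euler`; `|q|, |m| ≤ |n|`;
  primes `p` with `|p| > r` do not divide `n`; `|p| ≥ √2 > 1` for every prime).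
* `sum_mul_log`: `v_p(n) = #{j ≥ 1 : p^j ∣ n}` (`j ≤ J` is enough since `|p|^j ≥ 2^(j/2) > r` for `j > J`) and `n = p^j m`,
  `g n = g p ^ j g m`, `m ∈ ball (r/|p|^j)`.
* `dvd_union`: different first-quadrant primes are not associated (`P1_eq_of_dvd`), so a set of them divides `n` iff the product does
  (`Finset.prod_primes_dvd` or induction); both products divide `n` iff all primes of both sets divide `n`.
* `prod_inj`: different finite sets of first-quadrant primes have different products: `p ∣ ∏ A ↔ p ∈ A`.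
* `card_dvd`: the multiples `n = d m` of `d` in `ball r` correspond to `m ∈ ball (r/|d|)`; `sum_dvd` is the same for sums.
-/

set_option autoImplicit false

namespace Pool.Agent.MRG

open Pool.Agent.GaussPret

private theorem nm_two_le {p : GaussianInt} (hp : Prime p) : 2 ≤ nm p := by
  have h0 : 0 < p.norm := by
    have := one_le_nm hp.ne_zero
    rw [nm] at this
    have h2 : (1 : ℤ) ≤ p.norm := by exact_mod_cast this
    omega
  have h1 : p.norm ≠ 1 := by
    intro h
    exact hp.not_isUnit ((Zsqrtd.norm_eq_one_iff' (by norm_num) p).1 h)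
  have h2 : (2 : ℤ) ≤ p.norm := by omega
  rw [nm]
  exact_mod_cast h2

/-- a Gaussian prime has absolute value at least `√2` -/
theorem sqrt_two_le_ab {p : GaussianInt} (hp : Prime p) : Real.sqrt 2 ≤ ab p := by
  have h := nm_two_le hp
  rw [nm_eq_ab] at h
  exact Real.sqrt_le_iff.2 ⟨ab_nonneg p, h⟩

theorem one_lt_ab_prime {p : GaussianInt} (hp : Prime p) : 1 < ab p := by
  have h := sqrt_two_le_ab hp
  have h2 : 1 < Real.sqrt 2 := by
    rw [Real.lt_sqrt (by norm_num)]
    norm_num
  linarith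

private theorem ab_assoc {a b : GaussianInt} (h : Associated a b) : ab a = ab b := by
  obtain ⟨u, rfl⟩ := h
  have hu : ab (u : GaussianInt) = 1 := by
    rcases unit_cases u.isUnit with h | h | h | h
    · rw [h, ab_one]
    · rw [h]
      simp [ab]
    · rw [h, ab_I]
    · rw [h]
      have h' := nm_eq_ab ⟨0, -1⟩
      have h2 : nm ⟨0, -1⟩ = 1 := by simp [nm, Zsqrtd.norm]
      rw [h2] at h'
      have := ab_nonneg ⟨0, -1⟩
      nlinarith
  rw [ab_mul, hu, mul_one]

private theorem ab_unit {u : GaussianInt} (hu : IsUnit u) : ab u = 1 := by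
  rw [← ab_one]
  exact ab_assoc (associated_one_iff_isUnit.2 hu)

private theorem ab_pow (p : GaussianInt) (j : ℕ) : ab (p ^ j) = ab p ^ j := by
  induction j with
  | zero => simp [ab_one]
  | succ j ih => rw [pow_succ, ab_mul, ih, pow_succ]

private theorem pr_P1 {p : GaussianInt} {r s : ℝ} (h : p ∈ pr r s) : Prime p ∧ 0 < p.re ∧ 0 ≤ p.im :=
  (mem_pr.1 h).1

private theorem CM_pow {g : GaussianInt → ℂ} (hg : CM g) {p : GaussianInt} (hp : p ≠ 0) (j : ℕ) :
    g (p ^ j) = g p ^ j := by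
  induction j with
  | zero => simp [hg.map_one]
  | succ j ih => rw [pow_succ, hg.mul _ _ (pow_ne_zero j hp) hp, ih, pow_succ]

theorem log_eq (n : GaussianInt) (hn : n ≠ 0) (r : ℝ) (hr : ab n ≤ r) :
    Real.log (ab n) = ∑ p ∈ pr 1 r, (multiplicity p n : ℝ) * Real.log (ab p) := by
  classical
  revert r hn
  induction n using UniqueFactorizationMonoid.induction_on_prime with
  | h₁ => intro h; exact absurd rfl h
  | h₂ u hu =>
    intro _ r _
    rw [ab_unit hu, Real.log_one]
    symm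
    apply Finset.sum_eq_zero
    intro p hp
    have : multiplicity p u = 0 := by
      rw [multiplicity_eq_zero]
      intro h
      exact (pr_P1 hp).1.not_isUnit (isUnit_of_dvd_unit h hu)
    rw [this]
    simp
  | h₃ a q ha hq ih =>
    intro _ r hr
    have hq0 : q ≠ 0 := hq.ne_zero
    obtain ⟨p0, hp0⟩ := exists_P1 hq
    have habq : ab q = ab (p0 : GaussianInt) := (ab_assoc hp0).symm
    have h1q : 1 ≤ ab q := one_le_ab hq0
    have h1a : 1 ≤ ab a := one_le_ab ha
    rw [ab_mul] at hr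
    have har : ab a ≤ r := by nlinarith
    have hqr : ab q ≤ r := by nlinarith
    have hmem : (p0 : GaussianInt) ∈ pr 1 r := by
      rw [mem_pr]
      exact ⟨p0.2, one_lt_ab_prime p0.2.1, by rw [← habq]; exact hqr⟩
    rw [ab_mul, Real.log_mul (ab_pos hq0).ne' (ab_pos ha).ne', ih ha r har]
    have h2 : ∀ p ∈ pr 1 r, (multiplicity p (q * a) : ℝ) * Real.log (ab p) =
        (if p = (p0 : GaussianInt) then Real.log (ab p) else 0) +
          (multiplicity p a : ℝ) * Real.log (ab p) := by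
      intro p hp
      have hpp : Prime p ∧ 0 < p.re ∧ 0 ≤ p.im := pr_P1 hp
      have h3 : multiplicity p (q * a) = multiplicity p q + multiplicity p a :=
        mult_mul ⟨p, hpp⟩ hq0 ha
      have h4 : multiplicity p q = multiplicity p (p0 : GaussianInt) :=
        (multiplicity_eq_of_associated_right hp0).symm
      have h5 : multiplicity p (p0 : GaussianInt) = if (⟨p, hpp⟩ : P1) = p0 then 1 else 0 :=
        mult_prime ⟨p, hpp⟩ p0
      rw [h3, h4, h5]
      by_cases h6 : p = (p0 : GaussianInt)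
      · have h7 : (⟨p, hpp⟩ : P1) = p0 := Subtype.ext h6
        rw [if_pos h6, if_pos h7]
        push_cast
        ring
      · have h7 : (⟨p, hpp⟩ : P1) ≠ p0 := fun h => h6 (congrArg Subtype.val h)
        rw [if_neg h6, if_neg h7]
        push_cast
        ring
    rw [Finset.sum_congr rfl h2, Finset.sum_add_distrib, Finset.sum_ite_eq', if_pos hmem, habq]

open scoped Classical in
theorem sum_dvd (d : GaussianInt) (hd : d ≠ 0) (r : ℝ) (F : GaussianInt → ℂ) :
    ∑ n ∈ (ball r).filter (fun n => d ∣ n), F n = ∑ m ∈ ball (r / ab d), F (d * m) := by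
  symm
  refine Finset.sum_bij (fun m _ => d * m) ?_ ?_ ?_ ?_
  · intro m hm
    obtain ⟨h1, h2⟩ := mem_ball'.1 hm
    rw [Finset.mem_filter, mem_ball', ab_mul]
    refine ⟨⟨mul_ne_zero hd h1, ?_⟩, dvd_mul_right d m⟩
    rw [le_div_iff₀ (ab_pos hd)] at h2
    linarith
  · intro a _ b _ h
    exact mul_left_cancel₀ hd h
  · intro n hn
    rw [Finset.mem_filter, mem_ball'] at hn
    obtain ⟨⟨h1, h2⟩, m, rfl⟩ := hn
    refine ⟨m, ?_, rfl⟩
    rw [mem_ball', le_div_iff₀ (ab_pos hd)]
    rw [ab_mul] at h2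
    exact ⟨right_ne_zero_of_mul h1, by linarith⟩
  · intro m _
    rfl

theorem sum_mul_log (g : GaussianInt → ℂ) (hg : CM g) (r : ℝ) (J : ℕ)
    (hJ : r < (Real.sqrt 2) ^ (J + 1)) :
    ∑ n ∈ ball r, g n * (Real.log (ab n) : ℂ) =
      ∑ p ∈ pr 1 r, ∑ j ∈ Finset.Icc 1 J, (Real.log (ab p) : ℂ) * g p ^ j *
        ∑ m ∈ ball (r / ab p ^ j), g m := by
  classical
  have h1 : ∀ n ∈ ball r, g n * (Real.log (ab n) : ℂ) =
      ∑ p ∈ pr 1 r, ∑ j ∈ Finset.Icc 1 J, if p ^ j ∣ n then (Real.log (ab p) : ℂ) * g n else 0 := by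
    intro n hn
    obtain ⟨hn0, hnr⟩ := mem_ball'.1 hn
    rw [log_eq n hn0 r hnr]
    push_cast
    rw [Finset.mul_sum]
    refine Finset.sum_congr rfl fun p hp => ?_
    have hpp := (pr_P1 hp).1
    have hfin : FiniteMultiplicity p n := FiniteMultiplicity.of_prime_left hpp hn0
    have hmJ : multiplicity p n ≤ J := by
      by_contra hlt
      push Not at hlt
      have hd : p ^ (J + 1) ∣ n := (pow_dvd_pow p hlt).trans (pow_multiplicity_dvd p n)
      obtain ⟨c, hc⟩ := hd
      have hc0 : c ≠ 0 := by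
        rintro rfl
        exact hn0 (by rw [hc, mul_zero])
      have h3 : ab n = ab p ^ (J + 1) * ab c := by rw [hc, ab_mul, ab_pow]
      have h4 : (Real.sqrt 2) ^ (J + 1) ≤ ab p ^ (J + 1) :=
        pow_le_pow_left₀ (Real.sqrt_nonneg 2) (sqrt_two_le_ab hpp) _
      have h5 : ab p ^ (J + 1) ≤ ab p ^ (J + 1) * ab c :=
        le_mul_of_one_le_right (pow_nonneg (ab_nonneg p) _) (one_le_ab hc0)
      linarith
    have h6 : (Finset.Icc 1 J).filter (fun j => p ^ j ∣ n) = Finset.Icc 1 (multiplicity p n) := by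
      ext j
      rw [Finset.mem_filter, Finset.mem_Icc, Finset.mem_Icc, hfin.pow_dvd_iff_le_multiplicity]
      constructor
      · rintro ⟨⟨h7, _⟩, h8⟩
        exact ⟨h7, h8⟩
      · rintro ⟨h7, h8⟩
        exact ⟨⟨h7, h8.trans hmJ⟩, h8⟩
    rw [← Finset.sum_filter, h6, Finset.sum_const, Nat.card_Icc, nsmul_eq_mul]
    simp only [Nat.add_sub_cancel]
    ring
  rw [Finset.sum_congr rfl h1, Finset.sum_comm]
  refine Finset.sum_congr rfl fun p hp => ?_
  rw [Finset.sum_comm]
  refine Finset.sum_congr rfl fun j _ => ?_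
  have hp0 : p ≠ 0 := (pr_P1 hp).1.ne_zero
  rw [← Finset.sum_filter, sum_dvd (p ^ j) (pow_ne_zero j hp0) r, ab_pow, Finset.mul_sum]
  refine Finset.sum_congr rfl fun m hm => ?_
  rw [hg.mul _ _ (pow_ne_zero j hp0) (mem_ball'.1 hm).1, CM_pow hg hp0]
  ring

/-- a prime of the first quadrant divides a product of such primes only if it occurs in it -/
theorem dvd_prod_iff {A : Finset GaussianInt} (hA : ∀ p ∈ A, Prime p ∧ 0 < p.re ∧ 0 ≤ p.im)
    {p : GaussianInt} (hp : Prime p ∧ 0 < p.re ∧ 0 ≤ p.im) : p ∣ ∏ q ∈ A, q ↔ p ∈ A := by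
  rw [Prime.dvd_finsetProd_iff hp.1]
  constructor
  · rintro ⟨q, hq, hpq⟩
    have h := P1_eq_of_dvd (p := ⟨p, hp⟩) (q := ⟨q, hA q hq⟩) hpq
    have h2 : p = q := congrArg Subtype.val h
    rw [h2]
    exact hq
  · intro h
    exact ⟨p, h, dvd_rfl⟩

theorem prod_dvd_iff {A : Finset GaussianInt} (hA : ∀ p ∈ A, Prime p ∧ 0 < p.re ∧ 0 ≤ p.im)
    {n : GaussianInt} (hn : n ≠ 0) : ∏ q ∈ A, q ∣ n ↔ ∀ p ∈ A, p ∣ n := by
  classical
  constructor
  · intro h p hp
    exact (Finset.dvd_prod_of_mem (fun q => q) hp).trans h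
  · intro h
    have h3 : (A.val.map (fun q => q)).prod ∣ n := by
      rw [Multiset.map_id']
      refine Multiset.prod_primes_dvd n (fun a ha => (hA a ha).1) h ?_
      intro a
      rw [Multiset.countP_eq_card_filter]
      have h4 : (Multiset.filter (Associated a) A.val).card = (A.filter (Associated a)).card := rfl
      rw [h4, Finset.card_le_one]
      intro x hx y hy
      rw [Finset.mem_filter] at hx hy
      have hxy : x ∣ y := (hx.2.symm.trans hy.2).dvd
      have h2 := P1_eq_of_dvd (p := ⟨x, hA x hx.1⟩) (q := ⟨y, hA y hy.1⟩) hxy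
      exact congrArg Subtype.val h2
    exact h3

theorem prod_inj {A B : Finset GaussianInt} (hA : ∀ p ∈ A, Prime p ∧ 0 < p.re ∧ 0 ≤ p.im)
    (hB : ∀ p ∈ B, Prime p ∧ 0 < p.re ∧ 0 ≤ p.im) (h : ∏ q ∈ A, q = ∏ q ∈ B, q) : A = B := by
  ext p
  constructor
  · intro hp
    rw [← dvd_prod_iff hB (hA p hp), ← h]
    exact (dvd_prod_iff hA (hA p hp)).2 hp
  · intro hp
    rw [← dvd_prod_iff hA (hB p hp), h]
    exact (dvd_prod_iff hB (hB p hp)).2 hp

open scoped Classical in
theorem card_dvd (d : GaussianInt) (hd : d ≠ 0) (r : ℝ) :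
    ((ball r).filter (fun n => d ∣ n)).card = (ball (r / ab d)).card := by
  have h := sum_dvd d hd r (fun _ => 1)
  simp only [Finset.sum_const, nsmul_eq_mul, mul_one] at h
  exact_mod_cast h

end Pool.Agent.MRG
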