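import Pool.Agent.MRG.Ser
import Pool.Agent.MRG.Fac

/-!
# Module Eul: the Euler product

For `g` completely multiplicative, bounded by one, trivial on units: `Gs g σ = 4 ∏_{p ∈ P1} (1 - g(p) |p|^(-2-σ))⁻¹`.

Proof of the product formula: for a finite set `T` of first-quadrant primes let `N_T` be the set of `n ≠ 0` all of whose first-quadrant prime divisors are in
`T`.  By induction on `T` (`n = q^j n'`, `q ∤ n'`, geometric series): `∑_{n ∈ N_T} g(n)|n|^(-2-σ) = 4 ∏_{p∈T} (1 - g(p)|p|^(-2-σ))⁻¹` (absolutely convergent,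
`N_∅` = the four units).  For `T = pr 1 r`, `r → ∞`, `N_T ⊇ ball r`, so the left side tends to `Gs g σ`.
(Another way: `UniqueFactorizationMonoid`, or the isomorphism of `{n ≠ 0}` with units × finitely supported functions on `P1`.)

`euler`: `|1 - z|⁻¹ = exp (Re z + O(|z|²))` for `|z| ≤ 1/2` (here `|z| = |g(p)| |p|^(-2-σ) ≤ 1/2` as `|p|² ≥ 2`): more precisely
`|-log|1 - z| - Re z| ≤ |z|²` for `|z| ≤ 1/2`, and `∑_p |p|^(-4) ≤ C`.  So `|Gs g σ| = 4 exp (∑_p Re g(p) |p|^(-2-σ) + O(1))`.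
-/

set_option autoImplicit false

namespace Pool.Agent.MRG

open Pool.Agent.GaussPret Filter Topology

namespace EulAux

/-- the terms of the Dirichlet series -/
noncomputable def aa (g : GaussianInt → ℂ) (σ : ℝ) (n : GaussianInt) : ℂ :=
  g n * ((ab n ^ (-(2 + σ)) : ℝ) : ℂ)

theorem aa_zero (g : GaussianInt → ℂ) {σ : ℝ} (hσ : 0 < σ) : aa g σ 0 = 0 := by
  unfold aa
  have h : ab 0 = 0 := by simp [ab]
  rw [h, Real.zero_rpow (by linarith)]
  simp

theorem aa_mul {g : GaussianInt → ℂ} (hg : CM g) {σ : ℝ} (hσ : 0 < σ) (m n : GaussianInt) :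
    aa g σ (m * n) = aa g σ m * aa g σ n := by
  by_cases hm : m = 0
  · rw [hm, zero_mul, aa_zero g hσ, zero_mul]
  by_cases hn : n = 0
  · rw [hn, mul_zero, aa_zero g hσ, mul_zero]
  unfold aa
  rw [hg.mul m n hm hn, ab_mul, Real.mul_rpow (ab_nonneg m) (ab_nonneg n)]
  push_cast
  ring

theorem ab_of_unit {u : GaussianInt} (hu : IsUnit u) : ab u = 1 := by
  rcases unit_cases hu with h | h | h | h
  · rw [h, ab_one]
  · rw [h]
    simp [ab]
  · rw [h, ab_I]
  · rw [h]
    have h' := nm_eq_ab ⟨0, -1⟩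
    have h2 : nm ⟨0, -1⟩ = 1 := by simp [nm, Zsqrtd.norm]
    rw [h2] at h'
    have := ab_nonneg ⟨0, -1⟩
    nlinarith

theorem aa_unit {g : GaussianInt → ℂ} (hg : CM g) (σ : ℝ) {u : GaussianInt} (hu : IsUnit u) :
    aa g σ u = 1 := by
  unfold aa
  rw [hg.map_unit hu, ab_of_unit hu, Real.one_rpow]
  simp

open scoped Classical in
/-- the terms prime to `T` -/
noncomputable def FT (g : GaussianInt → ℂ) (σ : ℝ) (T : Finset P1) (n : GaussianInt) : ℂ :=
  if ∀ p ∈ T, ¬ (p : GaussianInt) ∣ n then aa g σ n else 0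

theorem norm_FT_le (g : GaussianInt → ℂ) (σ : ℝ) (T : Finset P1) (n : GaussianInt) :
    ‖FT g σ T n‖ ≤ ‖aa g σ n‖ := by
  unfold FT
  split_ifs
  · exact le_rfl
  · rw [norm_zero]
    exact norm_nonneg _

theorem summable_FT {g : GaussianInt → ℂ} (hg : CM g) {σ : ℝ} (hσ : 0 < σ) (T : Finset P1) :
    Summable (FT g σ T) :=
  Summable.of_norm_bounded (summable_Gs hg.le hσ).norm (norm_FT_le g σ T)

open scoped Classical in
theorem tsum_FT_insert {g : GaussianInt → ℂ} (hg : CM g) {σ : ℝ} (hσ : 0 < σ) (T : Finset P1)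
    {q : P1} (hq : q ∉ T) :
    ∑' n, FT g σ (insert q T) n = (1 - aa g σ q) * ∑' n, FT g σ T n := by
  obtain ⟨G, hG⟩ : ∃ G : GaussianInt → ℂ, G = fun n => FT g σ T n - FT g σ (insert q T) n :=
    ⟨_, rfl⟩
  have hq0 : (q : GaussianInt) ≠ 0 := (P1_prime q).ne_zero
  have h1 : ∑' n, G n = ∑' n, FT g σ T n - ∑' n, FT g σ (insert q T) n := by
    rw [hG]
    exact (summable_FT hg hσ T).tsum_sub (summable_FT hg hσ (insert q T))
  have h2 : ∀ m, G ((q : GaussianInt) * m) = aa g σ q * FT g σ T m := by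
    intro m
    have e1 : FT g σ (insert q T) ((q : GaussianInt) * m) = 0 := by
      unfold FT
      rw [if_neg]
      intro h
      exact h q (Finset.mem_insert_self q T) (dvd_mul_right _ _)
    have e2 : (∀ p ∈ T, ¬ (p : GaussianInt) ∣ (q : GaussianInt) * m) ↔
        ∀ p ∈ T, ¬ (p : GaussianInt) ∣ m := by
      constructor
      · intro h p hp hpm
        exact h p hp (hpm.mul_left _)
      · intro h p hp hpm
        rcases (P1_prime p).dvd_or_dvd hpm with h3 | h3
        · rw [P1_eq_of_dvd h3] at hp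
          exact hq hp
        · exact h p hp h3
    have e3 : FT g σ T ((q : GaussianInt) * m) = aa g σ q * FT g σ T m := by
      unfold FT
      by_cases h : ∀ p ∈ T, ¬ (p : GaussianInt) ∣ m
      · rw [if_pos (e2.2 h), if_pos h, aa_mul hg hσ]
      · rw [if_neg (fun h' => h (e2.1 h')), if_neg h, mul_zero]
    rw [hG]
    simp only
    rw [e1, e3, sub_zero]
  have h3 : Function.support G ⊆ Set.range fun m : GaussianInt => (q : GaussianInt) * m := by
    intro n hn
    by_contra h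
    apply hn
    have h4 : ¬ (q : GaussianInt) ∣ n := by
      rintro ⟨m, hm⟩
      exact h ⟨m, hm.symm⟩
    rw [hG]
    simp only
    have h5 : (∀ p ∈ insert q T, ¬ (p : GaussianInt) ∣ n) ↔ ∀ p ∈ T, ¬ (p : GaussianInt) ∣ n := by
      constructor
      · intro h p hp
        exact h p (Finset.mem_insert_of_mem hp)
      · intro h p hp
        rcases Finset.mem_insert.1 hp with rfl | hp
        · exact h4
        · exact h p hp
    unfold FT
    by_cases h6 : ∀ p ∈ T, ¬ (p : GaussianInt) ∣ n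
    · rw [if_pos h6, if_pos (h5.2 h6), sub_self]
    · rw [if_neg h6, if_neg (fun h' => h6 (h5.1 h')), sub_self]
  have h7 := Function.Injective.tsum_eq (fun a b h => mul_left_cancel₀ hq0 h) h3
  rw [← h7] at h1
  simp only [h2] at h1
  rw [tsum_mul_left] at h1
  linear_combination h1

theorem tsum_FT {g : GaussianInt → ℂ} (hg : CM g) {σ : ℝ} (hσ : 0 < σ) (T : Finset P1) :
    ∑' n, FT g σ T n = (∏ p ∈ T, (1 - aa g σ p)) * Gs g σ := by
  classical
  induction T using Finset.induction_on with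
  | empty =>
    rw [Finset.prod_empty, one_mul]
    unfold Gs FT
    simp only [Finset.notMem_empty, false_imp_iff, implies_true, if_true]
    rfl
  | insert q T hq ih => rw [tsum_FT_insert hg hσ T hq, ih, Finset.prod_insert hq, mul_assoc]

/-- only the units remain in the limit -/
theorem tendsto_FT {g : GaussianInt → ℂ} (hg : CM g) {σ : ℝ} (hσ : 0 < σ) :
    Tendsto (fun T : Finset P1 => ∑' n, FT g σ T n) atTop (𝓝 4) := by
  classical
  have h1 : ∑' n : GaussianInt, (if IsUnit n then (1 : ℂ) else 0) = 4 := by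
    have hI : IsUnit (⟨0, 1⟩ : GaussianInt) := by
      rw [← Zsqrtd.norm_eq_one_iff' (by norm_num)]; rfl
    have hmI : IsUnit (⟨0, -1⟩ : GaussianInt) := by
      rw [← Zsqrtd.norm_eq_one_iff' (by norm_num)]; rfl
    rw [tsum_eq_sum (s := {1, -1, ⟨0, 1⟩, ⟨0, -1⟩})]
    · rw [Finset.sum_insert (by decide), Finset.sum_insert (by decide),
        Finset.sum_insert (by decide), Finset.sum_singleton, if_pos isUnit_one,
        if_pos isUnit_one.neg, if_pos hI, if_pos hmI]
      norm_num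
    · intro n hn
      rw [if_neg]
      intro hu
      apply hn
      rcases unit_cases hu with h | h | h | h <;> rw [h] <;> simp
  rw [← h1]
  refine tendsto_tsum_of_dominated_convergence (summable_Gs hg.le hσ).norm ?_ ?_
  · intro n
    by_cases hn : n = 0
    · rw [hn, if_neg not_isUnit_zero]
      have h2 : (fun T : Finset P1 => FT g σ T 0) = fun _ => 0 := by
        funext T
        have h3 := norm_FT_le g σ T 0
        rw [aa_zero g hσ, norm_zero] at h3
        exact norm_le_zero_iff.1 h3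
      rw [h2]
      exact tendsto_const_nhds
    · by_cases hu : IsUnit n
      · rw [if_pos hu]
        have h2 : (fun T : Finset P1 => FT g σ T n) = fun _ => 1 := by
          funext T
          unfold FT
          rw [if_pos, aa_unit hg σ hu]
          intro p _ hp
          exact (P1_prime p).not_isUnit (isUnit_of_dvd_unit hp hu)
        rw [h2]
        exact tendsto_const_nhds
      · rw [if_neg hu]
        obtain ⟨q, hq, hqn⟩ := WfDvdMonoid.exists_irreducible_factor hu hn
        obtain ⟨p, hp⟩ := exists_P1 hq.prime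
        apply tendsto_const_nhds.congr'
        filter_upwards [eventually_ge_atTop {p}] with T hT
        unfold FT
        rw [if_neg]
        intro h
        exact h p (hT (Finset.mem_singleton_self p)) (hp.dvd.trans hqn)
  · exact Eventually.of_forall fun T n => norm_FT_le g σ T n

theorem aa_prime_le {g : GaussianInt → ℂ} (hg : CM g) {σ : ℝ} (hσ : 0 < σ) (p : P1) :
    ‖aa g σ p‖ ≤ ab (p : GaussianInt) ^ (-(2 : ℝ)) ∧ ‖aa g σ p‖ ≤ 1 / 2 ∧
      (aa g σ p).re = (g p).re * ab (p : GaussianInt) ^ (-(2 + σ)) := by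
  have hp := P1_prime p
  have h1 : Real.sqrt 2 ≤ ab (p : GaussianInt) := sqrt_two_le_ab hp
  have h2 : 1 ≤ ab (p : GaussianInt) := one_le_ab hp.ne_zero
  have h0 : 0 < ab (p : GaussianInt) := ab_pos hp.ne_zero
  have h3 : ‖aa g σ p‖ ≤ ab (p : GaussianInt) ^ (-(2 + σ)) := by
    unfold aa
    rw [norm_mul, Complex.norm_real, Real.norm_eq_abs, abs_of_nonneg (Real.rpow_nonneg h0.le _)]
    exact mul_le_of_le_one_left (Real.rpow_nonneg h0.le _) (hg.le _ hp.ne_zero)
  have h4 : ab (p : GaussianInt) ^ (-(2 + σ)) ≤ ab (p : GaussianInt) ^ (-(2 : ℝ)) :=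
    Real.rpow_le_rpow_of_exponent_le h2 (by linarith)
  have h5 : ab (p : GaussianInt) ^ (-(2 : ℝ)) ≤ 1 / 2 := by
    rw [Real.rpow_neg h0.le, one_div]
    apply inv_anti₀ (by norm_num)
    rw [Real.rpow_two]
    have := Real.sq_sqrt (show (0 : ℝ) ≤ 2 by norm_num)
    have h6 := Real.sqrt_nonneg 2
    nlinarith
  refine ⟨h3.trans h4, (h3.trans h4).trans h5, ?_⟩
  unfold aa
  rw [Complex.mul_re, Complex.ofReal_re, Complex.ofReal_im, mul_zero, sub_zero]

/-- `log |1 - z| = - Re z + O(|z|²)` -/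
theorem log_bound {z : ℂ} (hz : ‖z‖ ≤ 1 / 2) :
    |Real.log ‖1 - z‖ + z.re| ≤ ‖z‖ ^ 2 := by
  have h1 := Complex.norm_log_one_add_sub_self_le (z := -z) (by rw [norm_neg]; linarith)
  rw [norm_neg, ← sub_eq_add_neg, sub_neg_eq_add] at h1
  have h2 : ‖z‖ ^ 2 * (1 - ‖z‖)⁻¹ / 2 ≤ ‖z‖ ^ 2 := by
    have h3 : (1 - ‖z‖)⁻¹ ≤ 2 := by
      rw [inv_le_comm₀ (by linarith) (by norm_num)]
      linarith
    have h4 := mul_le_mul_of_nonneg_left h3 (sq_nonneg ‖z‖)
    linarith
  have h5 : |(Complex.log (1 - z) + z).re| ≤ ‖Complex.log (1 - z) + z‖ := Complex.abs_re_le_norm _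
  rw [Complex.add_re, Complex.log_re] at h5
  exact h5.trans (h1.trans h2)

end EulAux

open EulAux in
theorem euler : ∃ C : ℝ, 0 < C ∧ ∀ g : GaussianInt → ℂ, CM g → ∀ σ : ℝ, 0 < σ → σ ≤ 1 →
    ‖Gs g σ‖ ≤ C * Real.exp (∑' p : P1, (g p).re * ab (p : GaussianInt) ^ (-(2 + σ))) ∧
      Real.exp (∑' p : P1, (g p).re * ab (p : GaussianInt) ^ (-(2 + σ))) ≤ C * ‖Gs g σ‖ := by
  obtain ⟨K, hK⟩ : ∃ K : ℝ, K = ∑' p : P1, ab (p : GaussianInt) ^ (-(2 + (2 : ℝ))) := ⟨_, rfl⟩
  have hsK : Summable fun p : P1 => ab (p : GaussianInt) ^ (-(2 + (2 : ℝ))) :=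
    summable_p (by norm_num)
  refine ⟨4 * Real.exp K, by positivity, fun g hg σ hσ _ => ?_⟩
  obtain ⟨X, hX⟩ : ∃ X : ℝ, X = ∑' p : P1, (g p).re * ab (p : GaussianInt) ^ (-(2 + σ)) :=
    ⟨_, rfl⟩
  rw [← hX]
  have hsum : Summable fun p : P1 => (g p).re * ab (p : GaussianInt) ^ (-(2 + σ)) := by
    refine Summable.of_norm_bounded (summable_p hσ) fun p => ?_
    have h0 := Real.rpow_nonneg (ab_nonneg (p : GaussianInt)) (-(2 + σ))
    rw [norm_mul, Real.norm_eq_abs, Real.norm_eq_abs, abs_of_nonneg h0]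
    exact mul_le_of_le_one_left h0 ((Complex.abs_re_le_norm _).trans
      (hg.le _ (P1_prime p).ne_zero))
  have hXt : Tendsto (fun T : Finset P1 => ∑ p ∈ T, (g p).re * ab (p : GaussianInt) ^ (-(2 + σ)))
      atTop (𝓝 X) := by
    rw [hX]
    exact hsum.hasSum
  -- the finite products
  have hprod : ∀ T : Finset P1,
      Real.exp (-(∑ p ∈ T, (g p).re * ab (p : GaussianInt) ^ (-(2 + σ))) - K) ≤
        ‖∏ p ∈ T, (1 - aa g σ p)‖ ∧
      ‖∏ p ∈ T, (1 - aa g σ p)‖ ≤
        Real.exp (-(∑ p ∈ T, (g p).re * ab (p : GaussianInt) ^ (-(2 + σ))) + K) := by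
    intro T
    have h1 : ‖∏ p ∈ T, (1 - aa g σ p)‖ = Real.exp (∑ p ∈ T, Real.log ‖1 - aa g σ p‖) := by
      rw [norm_prod, Real.exp_sum]
      refine Finset.prod_congr rfl fun p _ => ?_
      have h2 := (aa_prime_le hg hσ p).2.1
      have h3 : 0 < ‖1 - aa g σ p‖ := by
        rw [norm_pos_iff]
        intro h
        have h4 : aa g σ p = 1 := by linear_combination -h
        rw [h4, norm_one] at h2
        norm_num at h2
      rw [Real.exp_log h3]
    have h2 : |∑ p ∈ T, Real.log ‖1 - aa g σ p‖ +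
        ∑ p ∈ T, (g p).re * ab (p : GaussianInt) ^ (-(2 + σ))| ≤ K := by
      rw [← Finset.sum_add_distrib]
      calc |∑ p ∈ T, (Real.log ‖1 - aa g σ p‖ + (g p).re * ab (p : GaussianInt) ^ (-(2 + σ)))|
          ≤ ∑ p ∈ T, |Real.log ‖1 - aa g σ p‖ + (g p).re * ab (p : GaussianInt) ^ (-(2 + σ))| :=
            Finset.abs_sum_le_sum_abs _ _
        _ ≤ ∑ p ∈ T, ab (p : GaussianInt) ^ (-(2 + (2 : ℝ))) := by
            refine Finset.sum_le_sum fun p _ => ?_
            obtain ⟨e1, e2, e3⟩ := aa_prime_le hg hσ p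
            rw [← e3]
            refine (log_bound e2).trans ?_
            have e4 : ab (p : GaussianInt) ^ (-(2 + (2 : ℝ))) =
                (ab (p : GaussianInt) ^ (-(2 : ℝ))) ^ 2 := by
              rw [← Real.rpow_natCast, ← Real.rpow_mul (ab_nonneg _)]
              congr 1
              norm_num
            rw [e4]
            exact pow_le_pow_left₀ (norm_nonneg _) e1 2
        _ ≤ K := by
            rw [hK]
            exact hsK.sum_le_tsum T fun p _ => Real.rpow_nonneg (ab_nonneg _) _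
    rw [abs_le] at h2
    rw [h1]
    constructor
    · apply Real.exp_le_exp.2
      linarith [h2.1]
    · apply Real.exp_le_exp.2
      linarith [h2.2]
  have hlim : Tendsto (fun T : Finset P1 => ‖∏ p ∈ T, (1 - aa g σ p)‖ * ‖Gs g σ‖) atTop
      (𝓝 4) := by
    have h1 := (tendsto_FT hg hσ).norm
    have h2 : (fun T : Finset P1 => ‖∑' n, FT g σ T n‖) =
        fun T : Finset P1 => ‖∏ p ∈ T, (1 - aa g σ p)‖ * ‖Gs g σ‖ := by
      funext T
      rw [tsum_FT hg hσ T, norm_mul]
    rw [h2] at h1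
    have h3 : ‖(4 : ℂ)‖ = 4 := by simp
    rwa [h3] at h1
  have hlow : Real.exp (-X - K) * ‖Gs g σ‖ ≤ 4 := by
    refine le_of_tendsto_of_tendsto ?_ hlim (Eventually.of_forall fun T =>
      mul_le_mul_of_nonneg_right (hprod T).1 (norm_nonneg _))
    exact ((Real.continuous_exp.tendsto _).comp (hXt.neg.sub_const K)).mul_const _
  have hup : 4 ≤ Real.exp (-X + K) * ‖Gs g σ‖ := by
    refine le_of_tendsto_of_tendsto hlim ?_ (Eventually.of_forall fun T =>
      mul_le_mul_of_nonneg_right (hprod T).2 (norm_nonneg _))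
    exact ((Real.continuous_exp.tendsto _).comp (hXt.neg.add_const K)).mul_const _
  constructor
  · have h1 : ‖Gs g σ‖ = Real.exp (X + K) * (Real.exp (-X - K) * ‖Gs g σ‖) := by
      rw [← mul_assoc, ← Real.exp_add]
      have : X + K + (-X - K) = 0 := by ring
      rw [this, Real.exp_zero, one_mul]
    rw [h1]
    calc Real.exp (X + K) * (Real.exp (-X - K) * ‖Gs g σ‖) ≤ Real.exp (X + K) * 4 :=
          mul_le_mul_of_nonneg_left hlow (Real.exp_pos _).le
      _ = 4 * Real.exp K * Real.exp X := by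
          rw [Real.exp_add]
          ring
  · have h1 : Real.exp X = Real.exp X * 1 := (mul_one _).symm
    have h2 : Real.exp X * 4 ≤ Real.exp X * (Real.exp (-X + K) * ‖Gs g σ‖) :=
      mul_le_mul_of_nonneg_left hup (Real.exp_pos _).le
    have h3 : Real.exp X * (Real.exp (-X + K) * ‖Gs g σ‖) = Real.exp K * ‖Gs g σ‖ := by
      rw [← mul_assoc, ← Real.exp_add]
      have : X + (-X + K) = K := by ring
      rw [this]
    rw [h3] at h2
    have h4 : 0 < Real.exp X := Real.exp_pos _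
    have h5 : 0 ≤ Real.exp K * ‖Gs g σ‖ := mul_nonneg (Real.exp_pos _).le (norm_nonneg _)
    linarith

end Pool.Agent.MRG
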