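import Pool.Agent.MRG.Defs
import Pool.Agent.Hhelper49.GaussPret.Main

/-!
# Module Folner: dilated Følner sequences

`U`, `k` from `IsDilatedFolner` (`0 ∈ Φ N` is irrelevant up to one point).  Upper bound: `U ⊆ closedBall 0 C`.  Lower bound for the number: `card_lower` in
`GaussPret/Main` (or `card_pts_asymp`).  Near invariance: if `n ∈ Φ H`, `n + a ∉ Φ H`, `n, n + a ≠ 0`, then `n/k_H ∈ U`, `(n+a)/k_H ∉ U`, so (`segment_inter_frontier`,
`mem_cthick` in `GaussPret/Equi`) `n/k_H` is within `|a|/k_H ≤ δ` of `frontier U`; the unit squares `n + [0,1)²` (`cell`) of these `n` are disjoint and, scaled, lie in the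
closed `(δ + 2/k_H)`-thickening of the compact set `frontier U`, so their number is at most `k_H² · volume (cthickening (2δ) (frontier U))` for large `H`, and
`volume (cthickening ε (frontier U)) → volume (frontier U) = 0` (Mathlib `tendsto_measure_cthickening_of_isClosed`).  Add at most `2` for the points `0`, `-a`.
See `card_pts_compare` in `GaussPret/Equi` for the same argument.
-/

set_option autoImplicit false

open Filter Topology MeasureTheory
open scoped ENNReal

namespace Pool.Agent.MRG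

open Pool.Agent.GaussPret

/-- many lattice points close to the frontier -/
theorem card_near_frontier {U : Set ℂ} (B : Finset GaussianInt) {K r : ℝ} (hK : 0 < K)
    (hr : 2 / K ≤ r / 2)
    (hB : ∀ b ∈ B, ∃ w ∈ frontier U, dist (GaussianInt.toComplex b / K) w ≤ r / 2) :
    ((B.card : ℕ) : ℝ≥0∞) * ENNReal.ofReal ((K ^ 2)⁻¹) ≤
      volume (Metric.cthickening r (frontier U)) := by
  have hKc : (K : ℂ) ≠ 0 := by exact_mod_cast hK.ne'
  obtain ⟨ψ, hψ⟩ : ∃ ψ : ℂ → ℂ, ψ = fun u : ℂ => (K : ℂ) * u + 0 := ⟨_, rfl⟩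
  obtain ⟨E, hE⟩ : ∃ E : Set ℂ, E = ⋃ b ∈ B, ψ ⁻¹' (cell b) := ⟨_, rfl⟩
  have hψm : Measurable ψ := by rw [hψ]; fun_prop
  have hEvol : volume E = ((B.card : ℕ) : ℝ≥0∞) * ENNReal.ofReal ((K ^ 2)⁻¹) := by
    rw [hE, measure_biUnion_finset]
    · have : ∀ b ∈ B, volume (ψ ⁻¹' (cell b)) = ENNReal.ofReal ((K ^ 2)⁻¹) := by
        intro b _
        rw [hψ, volume_preimage_affine K hK, volume_cell, mul_one]
      rw [Finset.sum_congr rfl this, Finset.sum_const, nsmul_eq_mul]
    · intro b _ b' _ hbb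
      apply Set.disjoint_left.2
      intro u hu hu'
      apply hbb
      have h1 : fl (ψ u) = b := hu
      have h2 : fl (ψ u) = b' := hu'
      rw [← h1, ← h2]
    · intro b _
      exact hψm (measurableSet_cell b)
  rw [← hEvol]
  refine measure_mono ?_
  intro z hz
  rw [hE, Set.mem_iUnion₂] at hz
  obtain ⟨b, hb, hz⟩ := hz
  have hz1 : fl (ψ z) = b := hz
  obtain ⟨w, hw, hd⟩ := hB b hb
  apply Metric.mem_cthickening_of_dist_le z w r _ hw
  have h1 : z - GaussianInt.toComplex b / K = (ψ z - GaussianInt.toComplex (fl (ψ z))) / K := by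
    rw [hz1, hψ]
    field_simp
    ring
  have h2 : dist z (GaussianInt.toComplex b / K) ≤ 2 / K := by
    rw [dist_eq_norm, h1, norm_div, Complex.norm_real, Real.norm_eq_abs, abs_of_pos hK]
    exact div_le_div_of_nonneg_right (norm_sub_fl _) hK.le
  have h3 := dist_triangle z (GaussianInt.toComplex b / K) w
  linarith

open scoped Classical in
theorem folner_facts {Φ : ℕ → Finset GaussianInt} (hΦ : IsDilatedFolner Φ) :
    ∃ (k : ℕ → ℝ) (C c : ℝ), 0 < C ∧ 0 < c ∧ Tendsto k atTop atTop ∧ (∀ N, 0 < k N) ∧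
      (∀ N, ∀ n ∈ Φ N, ab n ≤ C * k N) ∧
      (∃ N0 : ℕ, ∀ N : ℕ, N0 ≤ N → c * k N ^ 2 ≤ ((Φ N).card : ℝ)) ∧
      (∀ κ : ℝ, 0 < κ → ∃ δ : ℝ, 0 < δ ∧ ∃ H0 : ℕ, ∀ H : ℕ, H0 ≤ H → ∀ a : GaussianInt,
        ab a ≤ δ * k H →
        (((Φ H).filter fun n => n + a ∉ Φ H).card : ℝ) ≤ κ * (Φ H).card) := by
  obtain ⟨U, k, hU, hF, hV, hk, hkt, hΦ⟩ := hΦ
  obtain ⟨ρ, hρ0, hρ⟩ := hU.exists_pos_norm_le
  have hVr : 0 < (volume U).toReal := ENNReal.toReal_pos hV.ne' hU.measure_lt_top.ne
  have hcard := card_lower hU hF hV hkt hΦ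
  obtain ⟨V, hVdef⟩ : ∃ V : ℝ, V = (volume U).toReal := ⟨_, rfl⟩
  rw [← hVdef] at hVr hcard
  refine ⟨k, ρ, V / 2, hρ0, by positivity, hkt, hk, ?_, ?_, ?_⟩
  · intro N n hn
    by_cases h0 : n = 0
    · rw [ab, h0, map_zero, norm_zero]
      exact mul_nonneg hρ0.le (hk N).le
    · obtain ⟨u, hu, hnu⟩ := (hΦ N n h0).1 hn
      rw [ab, hnu, norm_mul, Complex.norm_real, Real.norm_eq_abs, abs_of_pos (hk N), mul_comm]
      exact mul_le_mul_of_nonneg_right (hρ u hu) (hk N).le
  · obtain ⟨N0, hN0⟩ := eventually_atTop.1 hcard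
    refine ⟨N0, fun N hN => ?_⟩
    have := hN0 N hN
    rw [mul_comm]
    exact this
  · intro κ hκ
    have hc : IsCompact (frontier U) :=
      Metric.isCompact_of_isClosed_isBounded isClosed_frontier
        (hU.closure.subset frontier_subset_closure)
    have ht := tendsto_measure_cthickening_of_isCompact (μ := (volume : Measure ℂ)) hc
    rw [hF] at ht
    obtain ⟨ε, hε⟩ : ∃ ε : ℝ, ε = κ * V / 8 := ⟨_, rfl⟩
    have hε0 : 0 < ε := by rw [hε]; positivity
    have hev : ∀ᶠ r : ℝ in 𝓝 0,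
        volume (Metric.cthickening r (frontier U)) < ENNReal.ofReal ε :=
      ht.eventually (gt_mem_nhds (by simpa using hε0))
    obtain ⟨δ₀, hδ₀, hδ₀'⟩ := Metric.eventually_nhds_iff.1 hev
    obtain ⟨r, hr⟩ : ∃ r : ℝ, r = δ₀ / 2 := ⟨_, rfl⟩
    have hr0 : 0 < r := by rw [hr]; positivity
    have hvr : volume (Metric.cthickening r (frontier U)) < ENNReal.ofReal ε := by
      apply hδ₀'
      rw [dist_zero_right, Real.norm_eq_abs, abs_of_pos hr0, hr]
      linarith
    obtain ⟨H0, hH0⟩ := eventually_atTop.1 (((hkt.eventually_ge_atTop 1).and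
      (hkt.eventually_ge_atTop (4 / r))).and ((hkt.eventually_ge_atTop (16 / (κ * V))).and hcard))
    refine ⟨r / 2, by positivity, H0, fun H hH a ha => ?_⟩
    obtain ⟨⟨h1, h2⟩, h3, h4⟩ := hH0 H hH
    obtain ⟨K, hK⟩ : ∃ K : ℝ, K = k H := ⟨_, rfl⟩
    rw [← hK] at h1 h2 h3 h4 ha
    have hK0 : 0 < K := by linarith
    have hKc : (K : ℂ) ≠ 0 := by exact_mod_cast hK0.ne'
    -- remove two points
    obtain ⟨B, hB⟩ : ∃ B : Finset GaussianInt, B = (Φ H).filter fun n => n + a ∉ Φ H := ⟨_, rfl⟩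
    obtain ⟨B', hB'⟩ : ∃ B' : Finset GaussianInt, B' = (B.erase 0).erase (-a) := ⟨_, rfl⟩
    have hcB : B.card ≤ B'.card + 2 := by
      have e1 : B.card ≤ (B.erase 0).card + 1 := by
        have := Finset.pred_card_le_card_erase (s := B) (a := 0)
        omega
      have e2 : (B.erase 0).card ≤ ((B.erase 0).erase (-a)).card + 1 := by
        have := Finset.pred_card_le_card_erase (s := B.erase 0) (a := -a)
        omega
      rw [hB']
      omega
    have hnear : ∀ b ∈ B', ∃ w ∈ frontier U, dist (GaussianInt.toComplex b / K) w ≤ r / 2 := by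
      intro b hb
      rw [hB', Finset.mem_erase, Finset.mem_erase, hB, Finset.mem_filter] at hb
      obtain ⟨hba, hb0, hbΦ, hbn⟩ := hb
      have hba' : b + a ≠ 0 := fun h => hba (eq_neg_of_add_eq_zero_left h)
      obtain ⟨u, hu, hbu⟩ := (hΦ H b hb0).1 hbΦ
      rw [← hK] at hbu
      have hv : (GaussianInt.toComplex (b + a) / K) ∉ U := by
        intro hv
        apply hbn
        rw [hΦ H (b + a) hba']
        refine ⟨_, hv, ?_⟩
        rw [← hK, mul_div_cancel₀ _ hKc]
      have hu' : (GaussianInt.toComplex b / K) ∈ U := by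
        rw [hbu, mul_div_cancel_left₀ _ hKc]
        exact hu
      obtain ⟨w, hw, hwf⟩ := segment_inter_frontier hu' hv
      refine ⟨w, hwf, ?_⟩
      have h5 := dist_add_dist_of_mem_segment hw
      have h6 : dist (GaussianInt.toComplex b / K) (GaussianInt.toComplex (b + a) / K) ≤ r / 2 := by
        rw [dist_eq_norm, ← sub_div, norm_div, Complex.norm_real, Real.norm_eq_abs,
          abs_of_pos hK0, div_le_iff₀ hK0, map_add]
        have h7 : GaussianInt.toComplex b - (GaussianInt.toComplex b + GaussianInt.toComplex a) =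
            -GaussianInt.toComplex a := by ring
        rw [h7, norm_neg]
        exact ha
      have h8 := dist_nonneg (x := w) (y := GaussianInt.toComplex (b + a) / K)
      linarith
    have hr2 : 2 / K ≤ r / 2 := by
      rw [div_le_iff₀ hr0] at h2
      rw [div_le_iff₀ hK0]
      linarith
    have h9 := (card_near_frontier B' hK0 hr2 hnear).trans_lt hvr
    have h10 : ((B'.card : ℕ) : ℝ≥0∞) * ENNReal.ofReal ((K ^ 2)⁻¹)
        = ENNReal.ofReal ((B'.card : ℝ) * (K ^ 2)⁻¹) := by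
      rw [ENNReal.ofReal_mul (by positivity), ENNReal.ofReal_natCast]
    rw [h10, ENNReal.ofReal_lt_ofReal_iff hε0] at h9
    have hK2 : 0 < K ^ 2 := by positivity
    rw [← div_eq_mul_inv, div_lt_iff₀ hK2] at h9
    have h11 : 2 ≤ ε * K ^ 2 := by
      rw [div_le_iff₀ (by positivity)] at h3
      have h12 : κ * V * K ≤ κ * V * K ^ 2 := by
        apply mul_le_mul_of_nonneg_left _ (by positivity)
        nlinarith
      rw [hε]
      linarith
    have h13 : (B.card : ℝ) ≤ (B'.card : ℝ) + 2 := by exact_mod_cast hcB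
    rw [← hB]
    have h14 : κ * (K ^ 2 * (V / 2)) ≤ κ * ((Φ H).card : ℝ) := mul_le_mul_of_nonneg_left h4 hκ.le
    have h15 : 4 * (ε * K ^ 2) = κ * (K ^ 2 * (V / 2)) := by
      rw [hε]
      ring
    linarith

end Pool.Agent.MRG
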