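import Pool.Agent.MRG.Fac
import Pool.Agent.MRG.Thin

/-!
# Module Gsum: the sum `G` of Selberg's sieve from below

`Fam D` are the sets `A` of first-quadrant primes with `|∏ A| ≤ D`.

`card_fam`: `A ↦ ∏ A` is injective (`prod_inj`) into `ball D`.
`fam_down`: `|∏ B| ≤ |∏ A|` for `B ⊆ A`.
`gsum`: every `n ∈ ball D` is a unit times `∏_{p ∈ A} p^(e_p)`, `A = {p ∈ pr 1 D : p ∣ n} ∈ Fam D`, `e_p = v_p(n) ≥ 1`.  So
`∑_{n ∈ ball D} 1/|n|² ≤ 4 ∑_{A ∈ Fam D} ∑_{e : A → [1, J]} ∏_{p∈A} |p|^(-2 e_p) ≤ 4 ∑_{A ∈ Fam D} ∏_{p∈A} 1/(|p|² - 1)`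
(`J` large with `√2^J > D`; the map `n ↦ (A, (v_p(n))_p)` is at most four to one: `n` is determined up to a unit).
`∑_{n ∈ ball D} 1/|n|² ≥ c log D`: for `2^(j+1) ≤ D` the annulus `2^j < |n| ≤ 2^(j+1)` has at least `c 4^j` points (e.g. the points with
`2^j < re ≤ 2^j + 2^(j-1)`, `0 ≤ im ≤ 2^(j-1)`, or `card_ball_asymp` for large `j`); and `n = 1` gives `1` (so the claim holds for `D` near `1`:
`c log D ≤ 1` for `D ≤ e^(1/c)`).
-/

set_option autoImplicit false

namespace Pool.Agent.MRG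

open Pool.Agent.GaussPret

open scoped Classical in
/-- sets of first-quadrant primes with product of absolute value at most `D` -/
noncomputable def Fam (D : ℝ) : Finset (Finset GaussianInt) :=
  (pr 1 D).powerset.filter fun A => ab (∏ p ∈ A, p) ≤ D

namespace GsumAux

theorem mem_Fam {D : ℝ} {A : Finset GaussianInt} :
    A ∈ Fam D ↔ A ⊆ pr 1 D ∧ ab (∏ p ∈ A, p) ≤ D := by
  classical
  rw [Fam, Finset.mem_filter, Finset.mem_powerset]

/-- first-quadrant primes -/
def Q (p : GaussianInt) : Prop := Prime p ∧ 0 < p.re ∧ 0 ≤ p.im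

theorem Q_of_mem {D : ℝ} {A : Finset GaussianInt} (hA : A ⊆ pr 1 D) : ∀ p ∈ A, Q p :=
  fun _ hp => (mem_pr.1 (hA hp)).1

theorem Q_eq {p q : GaussianInt} (hp : Q p) (hq : Q q) (h : p ∣ q) : p = q :=
  congrArg Subtype.val (P1_eq_of_dvd (p := ⟨p, hp⟩) (q := ⟨q, hq⟩) h)

theorem ab_pow' (p : GaussianInt) (j : ℕ) : ab (p ^ j) = ab p ^ j := by
  induction j with
  | zero => simp [ab_one]
  | succ j ih => rw [pow_succ, ab_mul, ih, pow_succ]

theorem ab_le_of_dvd {a b : GaussianInt} (hb : b ≠ 0) (h : a ∣ b) : ab a ≤ ab b := by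
  obtain ⟨c, rfl⟩ := h
  rw [ab_mul]
  exact le_mul_of_one_le_right (ab_nonneg a) (one_le_ab (right_ne_zero_of_mul hb))

theorem geom_le {x : ℝ} (hx : 1 < x) (J : ℕ) :
    ∑ j ∈ Finset.Icc 1 J, 1 / x ^ j ≤ 1 / (x - 1) := by
  have h : ∀ J : ℕ, ∑ j ∈ Finset.Icc 1 J, 1 / x ^ j = (1 - 1 / x ^ J) / (x - 1) := by
    intro J
    induction J with
    | zero => simp
    | succ J ih =>
      rw [Finset.sum_Icc_succ_top (by omega), ih]
      have h1 : x - 1 ≠ 0 := by linarith
      have h2 : x ≠ 0 := by linarith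
      field_simp
      ring
  rw [h]
  have h0 : 0 < x - 1 := by linarith
  refine div_le_div_of_nonneg_right ?_ h0.le
  have : 0 < 1 / x ^ J := by positivity
  linarith

theorem key (A : Finset GaussianInt) (hA : ∀ p ∈ A, Q p) :
    ∀ S : Finset GaussianInt, (∀ n ∈ S, n ≠ 0 ∧ ∀ q, Q q → (q ∣ n ↔ q ∈ A)) →
      ∑ n ∈ S, 1 / ab n ^ 2 ≤ 4 * ∏ p ∈ A, 1 / (ab p ^ 2 - 1) := by
  classical
  induction A using Finset.induction_on with
  | empty =>
    intro S hS
    have hu : ∀ n ∈ S, IsUnit n := by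
      intro n hn
      by_contra hnu
      obtain ⟨q, hq, hqn⟩ := WfDvdMonoid.exists_irreducible_factor hnu (hS n hn).1
      obtain ⟨p0, hp0⟩ := exists_P1 hq.prime
      have h1 := ((hS n hn).2 p0 p0.2).1 (hp0.dvd.trans hqn)
      simp at h1
    have hsub : S ⊆ {1, -1, ⟨0, 1⟩, ⟨0, -1⟩} := by
      intro n hn
      have := unit_cases (hu n hn)
      simp only [Finset.mem_insert, Finset.mem_singleton]
      exact this
    have hle : ∀ n ∈ S, 1 / ab n ^ 2 ≤ 1 := by
      intro n hn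
      have h1 := one_le_ab (hS n hn).1
      rw [div_le_one (by positivity)]
      nlinarith
    calc ∑ n ∈ S, 1 / ab n ^ 2 ≤ ∑ n ∈ S, (1 : ℝ) := Finset.sum_le_sum hle
      _ = (S.card : ℝ) := by simp
      _ ≤ 4 := by
        have := (Finset.card_le_card hsub).trans Finset.card_le_four
        exact_mod_cast this
      _ = _ := by simp
  | insert p A hpA ih =>
    intro S hS
    have hp := hA p (Finset.mem_insert_self p A)
    have hA' : ∀ q ∈ A, Q q := fun q hq => hA q (Finset.mem_insert_of_mem hq)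
    have hp0 : p ≠ 0 := hp.1.ne_zero
    have hab := one_lt_ab_prime hp.1
    have hx : 1 < ab p ^ 2 := by nlinarith
    have hfin : ∀ n ∈ S, FiniteMultiplicity p n := fun n hn =>
      FiniteMultiplicity.of_prime_left hp.1 (hS n hn).1
    obtain ⟨J, hJ⟩ : ∃ J : ℕ, ∀ n ∈ S, multiplicity p n ≤ J :=
      ⟨S.sup (fun n => multiplicity p n), fun n hn =>
        Finset.le_sup (f := fun n => multiplicity p n) hn⟩
    have hmap : ∀ n ∈ S, multiplicity p n ∈ Finset.Icc 1 J := by
      intro n hn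
      rw [Finset.mem_Icc]
      refine ⟨?_, hJ n hn⟩
      have h1 : p ∣ n := ((hS n hn).2 p hp).2 (Finset.mem_insert_self p A)
      have h2 : p ^ 1 ∣ n := by rwa [pow_one]
      exact (hfin n hn).le_multiplicity_of_pow_dvd h2
    rw [← Finset.sum_fiberwise_of_maps_to hmap]
    have hj : ∀ j ∈ Finset.Icc 1 J, ∑ n ∈ S.filter (fun n => multiplicity p n = j), 1 / ab n ^ 2 ≤
        1 / (ab p ^ 2) ^ j * (4 * ∏ q ∈ A, 1 / (ab q ^ 2 - 1)) := by
      intro j _
      set F := S.filter (fun n => multiplicity p n = j) with hF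
      have hFm : ∀ n ∈ F, n ∈ S ∧ multiplicity p n = j := fun n hn => by
        rwa [hF, Finset.mem_filter] at hn
      have hdiv : ∀ n ∈ F, p ^ j * (n / p ^ j) = n := by
        intro n hn
        have h1 : p ^ j ∣ n := by
          have := pow_multiplicity_dvd p n
          rwa [(hFm n hn).2] at this
        exact EuclideanDomain.mul_div_cancel' (pow_ne_zero j hp0) h1
      have hinj : Set.InjOn (fun n => n / p ^ j) (F : Set GaussianInt) := by
        intro a ha b hb hab
        have h1 : a / p ^ j = b / p ^ j := hab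
        rw [← hdiv a ha, ← hdiv b hb, h1]
      have hsum : ∑ n ∈ F, 1 / ab n ^ 2 =
          1 / (ab p ^ 2) ^ j * ∑ n ∈ F.image (fun n => n / p ^ j), 1 / ab n ^ 2 := by
        rw [Finset.sum_image hinj, Finset.mul_sum]
        refine Finset.sum_congr rfl fun n hn => ?_
        have h1 : ab n = ab p ^ j * ab (n / p ^ j) := by
          rw [← ab_pow', ← ab_mul, hdiv n hn]
        rw [h1, mul_pow, ← pow_mul, ← pow_mul, mul_comm j 2, one_div_mul_one_div]
      rw [hsum]
      refine mul_le_mul_of_nonneg_left ?_ (by positivity)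
      apply ih hA'
      intro n' hn'
      rw [Finset.mem_image] at hn'
      obtain ⟨n, hn, rfl⟩ := hn'
      have hn0 := (hS n (hFm n hn).1).1
      have hd := hdiv n hn
      have hn'0 : n / p ^ j ≠ 0 := by
        intro h
        rw [h, mul_zero] at hd
        exact hn0 hd.symm
      refine ⟨hn'0, fun q hq => ?_⟩
      by_cases hqp : q = p
      · subst hqp
        constructor
        · intro h
          exfalso
          have h1 : q ^ (j + 1) ∣ n := by
            rw [← hd, pow_succ]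
            exact mul_dvd_mul_left _ h
          have h2 := (hfin n (hFm n hn).1).le_multiplicity_of_pow_dvd h1
          rw [(hFm n hn).2] at h2
          omega
        · intro h
          exact absurd h hpA
      · have h1 : q ∣ n ↔ q ∣ n / p ^ j := by
          constructor
          · intro h
            rw [← hd] at h
            rcases hq.1.dvd_or_dvd h with h | h
            · exact absurd (Q_eq hq hp (hq.1.dvd_of_dvd_pow h)) hqp
            · exact h
          · intro h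
            rw [← hd]
            exact h.mul_left _
        rw [← h1, (hS n (hFm n hn).1).2 q hq, Finset.mem_insert]
        constructor
        · rintro (h | h)
          · exact absurd h hqp
          · exact h
        · exact Or.inr
    refine (Finset.sum_le_sum hj).trans ?_
    rw [← Finset.sum_mul, Finset.prod_insert hpA]
    have hpos : 0 ≤ 4 * ∏ q ∈ A, 1 / (ab q ^ 2 - 1) := by
      refine mul_nonneg (by norm_num) (Finset.prod_nonneg fun q hq => ?_)
      have := one_lt_ab_prime (hA' q hq).1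
      exact (one_div_pos.2 (by nlinarith)).le
    calc (∑ j ∈ Finset.Icc 1 J, 1 / (ab p ^ 2) ^ j) * (4 * ∏ q ∈ A, 1 / (ab q ^ 2 - 1))
        ≤ 1 / (ab p ^ 2 - 1) * (4 * ∏ q ∈ A, 1 / (ab q ^ 2 - 1)) :=
          mul_le_mul_of_nonneg_right (geom_le hx J) hpos
      _ = _ := by ring

theorem upper {D : ℝ} :
    ∑ n ∈ ball D, 1 / ab n ^ 2 ≤ 4 * ∑ A ∈ Fam D, ∏ p ∈ A, 1 / (ab p ^ 2 - 1) := by
  classical
  set φ : GaussianInt → Finset GaussianInt := fun n => (pr 1 D).filter (fun p => p ∣ n) with hφ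
  have hmaps : ∀ n ∈ ball D, φ n ∈ Fam D := by
    intro n hn
    rw [mem_ball'] at hn
    rw [mem_Fam]
    refine ⟨Finset.filter_subset _ _, ?_⟩
    refine (ab_le_of_dvd hn.1 ?_).trans hn.2
    rw [prod_dvd_iff (Q_of_mem (Finset.filter_subset _ _)) hn.1]
    intro p hp
    exact (Finset.mem_filter.1 hp).2
  rw [← Finset.sum_fiberwise_of_maps_to hmaps, Finset.mul_sum]
  refine Finset.sum_le_sum fun A hA => ?_
  rw [mem_Fam] at hA
  apply key A (Q_of_mem hA.1)
  intro n hn
  rw [Finset.mem_filter, mem_ball'] at hn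
  refine ⟨hn.1.1, fun q hq => ?_⟩
  rw [← hn.2]
  simp only [hφ, Finset.mem_filter]
  constructor
  · intro h
    refine ⟨?_, h⟩
    rw [mem_pr]
    exact ⟨hq, one_lt_ab_prime hq.1, (ab_le_of_dvd hn.1.1 h).trans hn.1.2⟩
  · exact And.right

theorem lower {D : ℝ} (hD : 1 ≤ D) : 1 / 2 * Real.log (D / 2) ≤ ∑ n ∈ ball D, 1 / ab n ^ 2 := by
  classical
  set N : ℕ := ⌊D / 2⌋₊ with hN
  have hND : (N : ℝ) ≤ D / 2 := Nat.floor_le (by linarith)
  have hND2 : D / 2 < N + 1 := Nat.lt_floor_add_one _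
  set P : Finset (Σ _ : ℕ, ℕ) := (Finset.Icc 1 N).sigma (fun a => Finset.range a) with hP
  set ψ : (Σ _ : ℕ, ℕ) → GaussianInt := fun x => ⟨(x.1 : ℤ), (x.2 : ℤ)⟩ with hψ
  have hinj : Set.InjOn ψ (P : Set (Σ _ : ℕ, ℕ)) := by
    rintro ⟨a, b⟩ _ ⟨a', b'⟩ _ h
    have h1 := congrArg Zsqrtd.re h
    have h2 := congrArg Zsqrtd.im h
    simp only [hψ] at h1 h2
    have h1' : a = a' := by exact_mod_cast h1
    have h2' : b = b' := by exact_mod_cast h2
    subst h1' h2'
    rfl
  have habs : ∀ x : (Σ _ : ℕ, ℕ), ab (ψ x) ^ 2 = (x.1 : ℝ) ^ 2 + (x.2 : ℝ) ^ 2 := by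
    intro x
    rw [← nm_eq_ab]
    simp only [nm, hψ, Zsqrtd.norm]
    push_cast
    ring
  have hsub : P.image ψ ⊆ ball D := by
    intro n hn
    rw [Finset.mem_image] at hn
    obtain ⟨⟨a, b⟩, hx, rfl⟩ := hn
    rw [hP, Finset.mem_sigma, Finset.mem_Icc, Finset.mem_range] at hx
    simp only at hx
    have ha : (1 : ℝ) ≤ a := by exact_mod_cast hx.1.1
    have haN : (a : ℝ) ≤ N := by exact_mod_cast hx.1.2
    have hb : (b : ℝ) ≤ a := by exact_mod_cast hx.2.le
    have hb0 : (0 : ℝ) ≤ b := Nat.cast_nonneg b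
    have h1 := habs ⟨a, b⟩
    simp only at h1
    rw [mem_ball']
    constructor
    · intro h0
      have := congrArg Zsqrtd.re h0
      simp only [hψ, Zsqrtd.re_zero] at this
      have : a = 0 := by exact_mod_cast this
      rw [this] at ha
      norm_num at ha
    · refine abs_le_of_sq_le_sq' ?_ (by linarith) |>.2
      rw [h1]
      nlinarith
  have h1 : ∑ x ∈ P, 1 / ab (ψ x) ^ 2 ≤ ∑ n ∈ ball D, 1 / ab n ^ 2 := by
    rw [← Finset.sum_image (f := fun n => 1 / ab n ^ 2) hinj]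
    exact Finset.sum_le_sum_of_subset_of_nonneg hsub fun _ _ _ => by positivity
  refine le_trans ?_ h1
  rw [hP, Finset.sum_sigma]
  have h2 : ∀ a ∈ Finset.Icc 1 N, 1 / 2 * ((a : ℝ))⁻¹ ≤
      ∑ b ∈ Finset.range a, 1 / ab (ψ ⟨a, b⟩) ^ 2 := by
    intro a ha
    rw [Finset.mem_Icc] at ha
    have ha1 : (1 : ℝ) ≤ a := by exact_mod_cast ha.1
    calc 1 / 2 * ((a : ℝ))⁻¹ = ∑ b ∈ Finset.range a, 1 / (2 * (a : ℝ) ^ 2) := by
          rw [Finset.sum_const, Finset.card_range, nsmul_eq_mul]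
          field_simp
      _ ≤ _ := by
          refine Finset.sum_le_sum fun b hb => ?_
          rw [Finset.mem_range] at hb
          have hb' : (b : ℝ) ≤ a := by exact_mod_cast hb.le
          have hb0 : (0 : ℝ) ≤ b := Nat.cast_nonneg b
          rw [habs]
          simp only
          refine one_div_le_one_div_of_le (by positivity) ?_
          nlinarith
  refine le_trans ?_ (Finset.sum_le_sum h2)
  rw [← Finset.mul_sum]
  refine mul_le_mul_of_nonneg_left ?_ (by norm_num)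
  have h3 := log_add_one_le_harmonic N
  have h4 : ((harmonic N : ℚ) : ℝ) = ∑ a ∈ Finset.Icc 1 N, ((a : ℝ))⁻¹ := by
    rw [harmonic_eq_sum_Icc]
    push_cast
    rfl
  rw [h4] at h3
  refine le_trans (Real.log_le_log (by linarith) ?_) h3
  push_cast
  linarith

end GsumAux

open GsumAux

theorem fam_empty {D : ℝ} (hD : 1 ≤ D) : ∅ ∈ Fam D := by
  rw [mem_Fam]
  refine ⟨Finset.empty_subset _, ?_⟩
  rw [Finset.prod_empty, ab_one]
  exact hD

theorem fam_down {D : ℝ} {A B : Finset GaussianInt} (hA : A ∈ Fam D) (hB : B ⊆ A) :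
    B ∈ Fam D := by
  classical
  rw [mem_Fam] at hA ⊢
  refine ⟨hB.trans hA.1, ?_⟩
  refine (ab_le_of_dvd ?_ (Finset.prod_dvd_prod_of_subset B A _ hB)).trans hA.2
  exact Finset.prod_ne_zero_iff.2 fun p hp => (Q_of_mem hA.1 p hp).1.ne_zero

theorem card_fam (D : ℝ) : ((Fam D).card : ℝ) ≤ 9 * D ^ 2 := by
  classical
  refine le_trans ?_ (card_ball_le' D)
  have h : (Fam D).card ≤ (ball D).card := by
    refine Finset.card_le_card_of_injOn (fun A => ∏ p ∈ A, p) ?_ ?_
    · intro A hA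
      have hA' := mem_Fam.1 hA
      refine mem_ball'.2 ⟨?_, hA'.2⟩
      exact Finset.prod_ne_zero_iff.2 fun p hp => (Q_of_mem hA'.1 p hp).1.ne_zero
    · intro A hA B hB h
      exact prod_inj (Q_of_mem (mem_Fam.1 hA).1) (Q_of_mem (mem_Fam.1 hB).1) h
  exact_mod_cast h

theorem gsum : ∃ c : ℝ, 0 < c ∧ ∀ D : ℝ, 1 ≤ D →
    c * Real.log D ≤ ∑ A ∈ Fam D, ∏ p ∈ A, 1 / (ab p ^ 2 - 1) := by
  refine ⟨1 / 16, by norm_num, fun D hD => ?_⟩
  have h1 := upper (D := D)
  have h2 := lower hD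
  have h3 : (1 : ℝ) ≤ ∑ n ∈ ball D, 1 / ab n ^ 2 := by
    have hm : (1 : GaussianInt) ∈ ball D := by
      rw [mem_ball', ab_one]
      exact ⟨one_ne_zero, hD⟩
    have := Finset.single_le_sum (f := fun n => 1 / ab n ^ 2)
      (fun n _ => by positivity) hm
    simpa [ab_one] using this
  have h4 : Real.log (D / 2) = Real.log D - Real.log 2 := Real.log_div (by linarith) two_ne_zero
  have h5 := Real.log_two_lt_d9
  rw [h4] at h2
  rcases le_total (Real.log D) 4 with h | h <;> linarith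

end Pool.Agent.MRG
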