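import Pool.Agent.MRG.Cheb
import Pool.Agent.MRG.Fac
import Pool.Agent.MRG.Thin

/-!
# Module HalA: the pointwise bound by the mean square

`a(v) = ‖SS g v‖ e^(-2v)` (`≤ 9`).

`hal_lip`: `‖SS g v - SS g v'‖ ≤ #ann (e^v') (e^v) ≤ C (e^v + 1)(e^v - e^v' + 1)` (`card_thin`), `e^v - e^v' ≤ e^v (v - v')`, `e^v ≤ e e^v'`, and
`e^(-2v') - e^(-2v) ≤ 2 (v - v') e^(-2v')`.

`hal_sl`: `∑_{n ∈ ball (e^u)} (u - log|n|) = ∫_0^u #ball (e^v) dv ≤ 9 ∫_0^u e^(2v) dv ≤ 5 e^(2u)` (or dyadic shells), and `u SS g u - SL g u = ∑ g(n) (u - log|n|)`.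

`hal_A`: `u ‖SS g u‖ ≤ ‖SL g u‖ + C e^(2u)`.  By `sum_mul_log` (`r = e^u`, any `J` large), `ball (e^u/|p|^j) = ball (e^(u - j log|p|))`:
`‖SL g u‖ ≤ ∑_{p ∈ pr 1 (e^u)} log|p| ‖SS g (u - log|p|)‖ + ∑_p ∑_{j ≥ 2} log|p| 9 e^(2u)/|p|^(2j)`, the last sum is `≤ C e^(2u)`.  First sum:
`e^(2u) ∑_p (log|p|/|p|²) a(u - log|p|)`.  Split into shells `log|p| ∈ (i, i+1]`, `0 ≤ i < ⌊u⌋`, with `I_i = [u-i-1, u-i]`, `M_i = sup_{I_i} a`: by `cheb_shell`
it is `≤ e^(2u) (C ∑_i M_i + C)` (the shell `i = ⌊u⌋`: `a ≤ 9`).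
Let `w = u - i - 1 ≥ 0`.  Take `v* ∈ I_i` with `a(v*) ≥ M_i/2` (or work with every point `v*` of `I_i` instead of the supremum); by `hal_lip` `a(v) ≥ a(v*) - C (|v - v*| + e^(-w))`
for `v ∈ I_i`.  Either `a(v*) ≤ 4 C e^(-w)`, or `a ≥ a(v*)/2` on an interval of length `min(1/2, a(v*)/(4C))` inside `I_i`, hence
`∫_{I_i} a² ≥ c a(v*)³`.  So `M_i ≤ C (∫_{I_i} a²)^(1/3) + C e^(-w)`.  Summing (Hölder: `∑_{i<n} y_i^(1/3) ≤ n^(2/3) (∑ y_i)^(1/3)`):
`∑ M_i ≤ C u^(2/3) (∫_0^u a²)^(1/3) + C`.  Divide by `u`.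
-/

set_option autoImplicit false

open MeasureTheory

namespace Pool.Agent.MRG

open Pool.Agent.GaussPret

private lemma ss_bdd (g : GaussianInt → ℂ) (hg : ∀ n, n ≠ 0 → ‖g n‖ ≤ 1) (v : ℝ) :
    ‖SS g v‖ ≤ 9 * Real.exp (2 * v) := by
  have h1 : ‖SS g v‖ ≤ ((ball (Real.exp v)).card : ℝ) := by
    unfold SS
    calc ‖∑ n ∈ ball (Real.exp v), g n‖ ≤ ∑ n ∈ ball (Real.exp v), ‖g n‖ := norm_sum_le _ _
      _ ≤ ∑ n ∈ ball (Real.exp v), (1 : ℝ) :=
          Finset.sum_le_sum fun n hn => hg n (mem_ball'.1 hn).1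
      _ = _ := by simp
  have h2 := card_ball_le' (Real.exp v)
  have h3 : Real.exp v ^ 2 = Real.exp (2 * v) := by rw [← Real.exp_nat_mul]; norm_num
  rw [h3] at h2
  exact h1.trans h2

private lemma ss_diff (g : GaussianInt → ℂ) (hg : ∀ n, n ≠ 0 → ‖g n‖ ≤ 1) (v' v : ℝ) (h : v' ≤ v) :
    ‖SS g v - SS g v'‖ ≤ ((ann (Real.exp v') (Real.exp v)).card : ℝ) := by
  classical
  have hsub : ball (Real.exp v') ⊆ ball (Real.exp v) := by
    intro n hn
    rw [mem_ball'] at hn ⊢
    exact ⟨hn.1, hn.2.trans (Real.exp_le_exp.2 h)⟩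
  have hsd : ball (Real.exp v) \ ball (Real.exp v') = ann (Real.exp v') (Real.exp v) := by
    ext n
    rw [Finset.mem_sdiff, mem_ann, mem_ball', mem_ball']
    constructor
    · rintro ⟨⟨h1, h2⟩, h3⟩
      refine ⟨h1, ?_, h2⟩
      by_contra h4
      exact h3 ⟨h1, not_lt.1 h4⟩
    · rintro ⟨h1, h2, h3⟩
      exact ⟨⟨h1, h3⟩, fun h4 => absurd h4.2 (not_le.2 h2)⟩
  have e : SS g v - SS g v' = ∑ n ∈ ann (Real.exp v') (Real.exp v), g n := by
    unfold SS
    rw [← hsd, ← Finset.sum_sdiff hsub]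
    ring
  rw [e]
  calc ‖∑ n ∈ ann (Real.exp v') (Real.exp v), g n‖
      ≤ ∑ n ∈ ann (Real.exp v') (Real.exp v), ‖g n‖ := norm_sum_le _ _
    _ ≤ ∑ n ∈ ann (Real.exp v') (Real.exp v), (1 : ℝ) :=
        Finset.sum_le_sum fun n hn => hg n (mem_ann.1 hn).1
    _ = _ := by simp

theorem hal_lip : ∃ C : ℝ, 0 < C ∧ ∀ g : GaussianInt → ℂ, (∀ n, n ≠ 0 → ‖g n‖ ≤ 1) →
    ∀ v' v : ℝ, 0 ≤ v' → v' ≤ v → v ≤ v' + 1 →
    |‖SS g v‖ * Real.exp (-(2 * v)) - ‖SS g v'‖ * Real.exp (-(2 * v'))| ≤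
      C * ((v - v') + Real.exp (-v')) := by
  obtain ⟨C, hC, hthin⟩ := card_thin
  refine ⟨2 * C + 18, by positivity, fun g hg v' v h0 h1 _ => ?_⟩
  have hd := ss_diff g hg v' v h1
  have hle : Real.exp v' ≤ Real.exp v := Real.exp_le_exp.2 h1
  have ht := hthin (Real.exp v') (Real.exp v - Real.exp v') (Real.exp_pos _).le (by linarith)
  have e1 : Real.exp v' + (Real.exp v - Real.exp v') = Real.exp v := by ring
  rw [e1] at ht
  have hb := ss_bdd g hg v'
  -- abbreviations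
  set A := ‖SS g v‖ with hA
  set B := ‖SS g v'‖ with hB
  have hAB : |A - B| ≤ C * (Real.exp v + 1) * (Real.exp v - Real.exp v' + 1) :=
    (abs_norm_sub_norm_le _ _).trans (hd.trans ht)
  have ev : 1 ≤ Real.exp v := Real.one_le_exp (h0.trans h1)
  have em : Real.exp v * Real.exp (-v) = 1 := by rw [← Real.exp_add]; simp
  have e2 : Real.exp (-(2 * v)) = Real.exp (-v) * Real.exp (-v) := by
    rw [← Real.exp_add]; congr 1; ring
  have hpos : 0 < Real.exp (-v) := Real.exp_pos _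
  have h3 : (Real.exp v + 1) * Real.exp (-v) ≤ 2 := by
    have : Real.exp (-v) ≤ 1 := Real.exp_le_one_iff.2 (by linarith)
    nlinarith
  have h4 : (Real.exp v - Real.exp v' + 1) * Real.exp (-v) ≤ (v - v') + Real.exp (-v') := by
    have a1 : Real.exp v' * Real.exp (-v) = Real.exp (-(v - v')) := by
      rw [← Real.exp_add]; congr 1; ring
    have a2 : 1 - (v - v') ≤ Real.exp (-(v - v')) := by
      have := Real.add_one_le_exp (-(v - v'))
      linarith
    have a3 : Real.exp (-v) ≤ Real.exp (-v') := Real.exp_le_exp.2 (by linarith)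
    nlinarith
  have h5 : |A - B| * Real.exp (-(2 * v)) ≤ 2 * C * ((v - v') + Real.exp (-v')) := by
    have hn : 0 ≤ (Real.exp v - Real.exp v' + 1) * Real.exp (-v) :=
      mul_nonneg (by linarith) hpos.le
    calc |A - B| * Real.exp (-(2 * v))
        ≤ (C * (Real.exp v + 1) * (Real.exp v - Real.exp v' + 1)) * Real.exp (-(2 * v)) :=
          mul_le_mul_of_nonneg_right hAB (Real.exp_pos _).le
      _ = C * (((Real.exp v + 1) * Real.exp (-v)) *
            ((Real.exp v - Real.exp v' + 1) * Real.exp (-v))) := by rw [e2]; ring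
      _ ≤ C * (2 * ((v - v') + Real.exp (-v'))) := by
          apply mul_le_mul_of_nonneg_left _ hC.le
          exact mul_le_mul h3 h4 hn (by norm_num)
      _ = _ := by ring
  have h6 : B * (Real.exp (-(2 * v')) - Real.exp (-(2 * v))) ≤ 18 * (v - v') := by
    have a0 : 0 ≤ Real.exp (-(2 * v')) - Real.exp (-(2 * v)) := by
      have : Real.exp (-(2 * v)) ≤ Real.exp (-(2 * v')) := Real.exp_le_exp.2 (by linarith)
      linarith
    have a1 : Real.exp (2 * v') * Real.exp (-(2 * v')) = 1 := by rw [← Real.exp_add]; simp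
    have a2 : Real.exp (2 * v') * Real.exp (-(2 * v)) = Real.exp (-(2 * (v - v'))) := by
      rw [← Real.exp_add]; congr 1; ring
    have a3 : 1 - 2 * (v - v') ≤ Real.exp (-(2 * (v - v'))) := by
      have := Real.add_one_le_exp (-(2 * (v - v')))
      linarith
    calc B * (Real.exp (-(2 * v')) - Real.exp (-(2 * v)))
        ≤ (9 * Real.exp (2 * v')) * (Real.exp (-(2 * v')) - Real.exp (-(2 * v))) :=
          mul_le_mul_of_nonneg_right hb a0
      _ = 9 * (1 - Real.exp (-(2 * (v - v')))) := by rw [← a2]; linear_combination 9 * a1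
      _ ≤ 18 * (v - v') := by linarith
  have h7 : 0 ≤ B * (Real.exp (-(2 * v')) - Real.exp (-(2 * v))) := by
    apply mul_nonneg (norm_nonneg _)
    have : Real.exp (-(2 * v)) ≤ Real.exp (-(2 * v')) := Real.exp_le_exp.2 (by linarith)
    linarith
  have e3 : A * Real.exp (-(2 * v)) - B * Real.exp (-(2 * v')) =
      (A - B) * Real.exp (-(2 * v)) - B * (Real.exp (-(2 * v')) - Real.exp (-(2 * v))) := by ring
  rw [e3]
  have h8 : |(A - B) * Real.exp (-(2 * v))| = |A - B| * Real.exp (-(2 * v)) := by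
    rw [abs_mul, abs_of_pos (Real.exp_pos (-(2 * v)))]
  calc |(A - B) * Real.exp (-(2 * v)) - B * (Real.exp (-(2 * v')) - Real.exp (-(2 * v)))|
      ≤ |(A - B) * Real.exp (-(2 * v))| + |B * (Real.exp (-(2 * v')) - Real.exp (-(2 * v)))| :=
        abs_sub _ _
    _ ≤ 2 * C * ((v - v') + Real.exp (-v')) + 18 * (v - v') := by
        rw [h8, abs_of_nonneg h7]; exact add_le_add h5 h6
    _ ≤ (2 * C + 18) * ((v - v') + Real.exp (-v')) := by
        have := Real.exp_pos (-v')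
        nlinarith

private lemma step_fn (w : GaussianInt → ℂ) (M : ℝ) : ∃ F : ℝ → ℂ, Measurable F ∧
    (∃ B : ℝ, ∀ v, ‖F v‖ ≤ B) ∧ ∀ v, v ≤ M → ∑ n ∈ ball (Real.exp v), w n = F v := by
  classical
  refine ⟨fun v => ∑ n ∈ ball (Real.exp M), if ab n ≤ Real.exp v then w n else 0, ?_, ?_, ?_⟩
  · refine Finset.measurable_sum _ fun n _ => ?_
    exact Measurable.ite (measurableSet_le measurable_const Real.measurable_exp)
      measurable_const measurable_const
  · refine ⟨∑ n ∈ ball (Real.exp M), ‖w n‖, fun v => (norm_sum_le _ _).trans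
      (Finset.sum_le_sum fun n _ => ?_)⟩
    split_ifs
    · exact le_rfl
    · simp
  · intro v hv
    have : ball (Real.exp v) = (ball (Real.exp M)).filter fun n => ab n ≤ Real.exp v := by
      ext n
      rw [Finset.mem_filter, mem_ball', mem_ball']
      constructor
      · rintro ⟨h1, h2⟩
        exact ⟨⟨h1, h2.trans (Real.exp_le_exp.2 hv)⟩, h2⟩
      · rintro ⟨⟨h1, _⟩, h2⟩
        exact ⟨h1, h2⟩
    rw [this, Finset.sum_filter]

private lemma ii_of (F G : ℝ → ℝ) (a b : ℝ) (hG : Measurable G)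
    (hB : ∃ B : ℝ, ∀ v ∈ Set.uIcc a b, |G v| ≤ B) (h : ∀ v, v ≤ max a b → F v = G v) :
    IntervalIntegrable F volume a b := by
  obtain ⟨B, hB⟩ := hB
  have hGi : IntervalIntegrable G volume a b := by
    refine IntervalIntegrable.mono_fun' (g := fun _ => B) intervalIntegrable_const
      hG.aestronglyMeasurable ?_
    refine (ae_restrict_iff' measurableSet_uIoc).2 (Filter.Eventually.of_forall fun v hv => ?_)
    exact hB v (Set.uIoc_subset_uIcc hv)
  refine hGi.congr ?_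
  intro v hv
  refine (h v ?_).symm
  exact hv.2

theorem hal_meas (g : GaussianInt → ℂ) (a b : ℝ) :
    IntervalIntegrable (fun v => (‖SS g v‖ * Real.exp (-(2 * v))) ^ 2) volume a b := by
  obtain ⟨F, hF, ⟨B, hB⟩, hFe⟩ := step_fn g (max a b)
  refine ii_of _ (fun v => (‖F v‖ * Real.exp (-(2 * v))) ^ 2) a b ?_ ?_ ?_
  · fun_prop
  · refine ⟨(B * Real.exp (-(2 * min a b))) ^ 2, fun v hv => ?_⟩
    have hv' : min a b ≤ v := hv.1
    have h1 : Real.exp (-(2 * v)) ≤ Real.exp (-(2 * min a b)) := Real.exp_le_exp.2 (by linarith)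
    rw [abs_of_nonneg (by positivity)]
    have hBn : 0 ≤ B := (norm_nonneg _).trans (hB v)
    gcongr
    exact hB v
  · intro v hv
    show (‖SS g v‖ * Real.exp (-(2 * v))) ^ 2 = (‖F v‖ * Real.exp (-(2 * v))) ^ 2
    rw [← hFe v hv]
    rfl

theorem hal_meas' (g : GaussianInt → ℂ) (a b : ℝ) :
    IntervalIntegrable (fun v => ‖SL g v‖ ^ 2 * Real.exp (-(4 * v))) volume a b := by
  obtain ⟨F, hF, ⟨B, hB⟩, hFe⟩ := step_fn (fun n => g n * (Real.log (ab n) : ℂ)) (max a b)
  refine ii_of _ (fun v => ‖F v‖ ^ 2 * Real.exp (-(4 * v))) a b ?_ ?_ ?_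
  · fun_prop
  · refine ⟨B ^ 2 * Real.exp (-(4 * min a b)), fun v hv => ?_⟩
    have hv' : min a b ≤ v := hv.1
    have h1 : Real.exp (-(4 * v)) ≤ Real.exp (-(4 * min a b)) := Real.exp_le_exp.2 (by linarith)
    rw [abs_of_nonneg (by positivity)]
    have hBn : 0 ≤ B := (norm_nonneg _).trans (hB v)
    gcongr
    exact hB v
  · intro v hv
    show ‖SL g v‖ ^ 2 * Real.exp (-(4 * v)) = ‖F v‖ ^ 2 * Real.exp (-(4 * v))
    rw [← hFe v hv]
    rfl

private lemma sl_sum : ∀ k : ℕ, ∀ u : ℝ, 0 ≤ u → u < k + 1 →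
    ∑ n ∈ ball (Real.exp u), (u - Real.log (ab n)) ≤ 18 * Real.exp (2 * u) := by
  intro k
  induction k with
  | zero =>
    intro u h0 h1
    have h2 := card_ball_le' (Real.exp u)
    have h3 : Real.exp u ^ 2 = Real.exp (2 * u) := by rw [← Real.exp_nat_mul]; norm_num
    rw [h3] at h2
    calc ∑ n ∈ ball (Real.exp u), (u - Real.log (ab n))
        ≤ ∑ n ∈ ball (Real.exp u), (1 : ℝ) := by
          refine Finset.sum_le_sum fun n hn => ?_
          have := Real.log_nonneg (one_le_ab (mem_ball'.1 hn).1)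
          push_cast at h1
          linarith
      _ = ((ball (Real.exp u)).card : ℝ) := by simp
      _ ≤ 18 * Real.exp (2 * u) := by linarith [Real.exp_pos (2 * u)]
  | succ k ih =>
    intro u h0 h1
    by_cases hu : u < k + 1
    · exact ih u h0 hu
    push Not at hu
    have hk : (0 : ℝ) ≤ k := Nat.cast_nonneg k
    have hsub : ball (Real.exp (u - 1)) ⊆ ball (Real.exp u) := by
      intro n hn
      rw [mem_ball'] at hn ⊢
      exact ⟨hn.1, hn.2.trans (Real.exp_le_exp.2 (by linarith))⟩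
    have h2 := ih (u - 1) (by linarith) (by push_cast at h1 ⊢; linarith)
    have h3 := card_ball_le' (Real.exp u)
    have h4 : Real.exp u ^ 2 = Real.exp (2 * u) := by rw [← Real.exp_nat_mul]; norm_num
    rw [h4] at h3
    have h5 : ∑ n ∈ ball (Real.exp u), (u - Real.log (ab n)) ≤
        ∑ n ∈ ball (Real.exp (u - 1)), (u - 1 - Real.log (ab n)) +
          ∑ n ∈ ball (Real.exp u), (1 : ℝ) := by
      classical
      rw [← Finset.sum_sdiff hsub]
      have e1 : ∑ n ∈ ball (Real.exp u), (1 : ℝ) =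
          ∑ n ∈ ball (Real.exp u) \ ball (Real.exp (u - 1)), (1 : ℝ) +
            ∑ n ∈ ball (Real.exp (u - 1)), (1 : ℝ) := (Finset.sum_sdiff hsub).symm
      rw [e1]
      have e2 : ∑ n ∈ ball (Real.exp u) \ ball (Real.exp (u - 1)), (u - Real.log (ab n)) ≤
          ∑ n ∈ ball (Real.exp u) \ ball (Real.exp (u - 1)), (1 : ℝ) := by
        refine Finset.sum_le_sum fun n hn => ?_
        rw [Finset.mem_sdiff, mem_ball', mem_ball'] at hn
        have h6 : Real.exp (u - 1) < ab n := by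
          by_contra h7
          exact hn.2 ⟨hn.1.1, not_lt.1 h7⟩
        have h7 : u - 1 < Real.log (ab n) := by
          rw [Real.lt_log_iff_exp_lt (ab_pos hn.1.1)]
          exact h6
        linarith
      have e3 : ∑ n ∈ ball (Real.exp (u - 1)), (u - Real.log (ab n)) =
          ∑ n ∈ ball (Real.exp (u - 1)), (u - 1 - Real.log (ab n)) +
            ∑ n ∈ ball (Real.exp (u - 1)), (1 : ℝ) := by
        rw [← Finset.sum_add_distrib]
        exact Finset.sum_congr rfl fun n _ => by ring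
      linarith
    have h6 : ∑ n ∈ ball (Real.exp u), (1 : ℝ) = ((ball (Real.exp u)).card : ℝ) := by simp
    have h7 : Real.exp (2 * (u - 1)) ≤ Real.exp (2 * u) / 2 := by
      have e : Real.exp (2 * u) = Real.exp (2 * (u - 1)) * Real.exp 2 := by
        rw [← Real.exp_add]; congr 1; ring
      have e2 : (2 : ℝ) ≤ Real.exp 2 := by
        have := Real.add_one_le_exp (2 : ℝ)
        linarith
      rw [e]
      have := Real.exp_pos (2 * (u - 1))
      nlinarith
    linarith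

theorem hal_sl : ∃ C : ℝ, 0 < C ∧ ∀ g : GaussianInt → ℂ, (∀ n, n ≠ 0 → ‖g n‖ ≤ 1) →
    ∀ u : ℝ, 0 ≤ u → u * ‖SS g u‖ ≤ ‖SL g u‖ + C * Real.exp (2 * u) := by
  refine ⟨18, by norm_num, fun g hg u hu => ?_⟩
  have h1 := sl_sum ⌊u⌋₊ u hu (Nat.lt_floor_add_one u)
  have e : (u : ℂ) * SS g u - SL g u =
      ∑ n ∈ ball (Real.exp u), g n * ((u - Real.log (ab n) : ℝ) : ℂ) := by
    unfold SS SL
    rw [Finset.mul_sum, ← Finset.sum_sub_distrib]
    exact Finset.sum_congr rfl fun n _ => by push_cast; ring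
  have h2 : ‖(u : ℂ) * SS g u - SL g u‖ ≤ 18 * Real.exp (2 * u) := by
    rw [e]
    refine (norm_sum_le _ _).trans (le_trans (Finset.sum_le_sum fun n hn => ?_) h1)
    rw [mem_ball'] at hn
    have h3 : Real.log (ab n) ≤ u := by
      rw [Real.log_le_iff_le_exp (ab_pos hn.1)]
      exact hn.2
    rw [norm_mul, Complex.norm_real, Real.norm_of_nonneg (by linarith)]
    have := hg n hn.1
    nlinarith
  have h3 : ‖(u : ℂ) * SS g u‖ = u * ‖SS g u‖ := by
    rw [norm_mul, Complex.norm_real, Real.norm_of_nonneg hu]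
  have h4 : ‖(u : ℂ) * SS g u‖ ≤ ‖SL g u‖ + ‖(u : ℂ) * SS g u - SL g u‖ := by
    have := norm_add_le (SL g u) ((u : ℂ) * SS g u - SL g u)
    rwa [add_sub_cancel] at this
  linarith

/-- one shell: the pointwise value by the mean square over a unit interval -/
private lemma hal_pt : ∃ C : ℝ, 0 < C ∧ ∀ g : GaussianInt → ℂ, (∀ n, n ≠ 0 → ‖g n‖ ≤ 1) →
    ∀ w : ℝ, 0 ≤ w → ∀ v : ℝ, w ≤ v → v ≤ w + 1 →
      ‖SS g v‖ * Real.exp (-(2 * v)) ≤
        C * (∫ x in w..(w + 1), (‖SS g x‖ * Real.exp (-(2 * x))) ^ 2) ^ ((1 : ℝ) / 3) +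
          C * Real.exp (-w) := by
  obtain ⟨C0, hC0, hlip⟩ := hal_lip
  -- the constant
  set C1 : ℝ := C0 + 9 with hC1
  have hC1p : 0 < C1 := by positivity
  refine ⟨16 * C1, by positivity, fun g hg w hw v hv1 hv2 => ?_⟩
  set a : ℝ → ℝ := fun x => ‖SS g x‖ * Real.exp (-(2 * x)) with ha
  have ha0 : ∀ x, 0 ≤ a x := fun x => mul_nonneg (norm_nonneg _) (Real.exp_pos _).le
  have ha9 : ∀ x, a x ≤ 9 := by
    intro x
    have h := mul_le_mul_of_nonneg_right (ss_bdd g hg x) (Real.exp_pos (-(2 * x))).le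
    have e : 9 * Real.exp (2 * x) * Real.exp (-(2 * x)) = 9 := by
      rw [mul_assoc, ← Real.exp_add]; simp
    rw [e] at h
    exact h
  have hint : ∀ p q : ℝ, IntervalIntegrable (fun x => a x ^ 2) volume p q :=
    fun p q => hal_meas g p q
  have hl : ∀ x y : ℝ, w ≤ x → x ≤ w + 1 → w ≤ y → y ≤ w + 1 →
      a x ≤ a y + C1 * (|x - y| + Real.exp (-w)) := by
    intro x y h1 h2 h3 h4
    rcases le_total x y with hxy | hxy
    · have h := hlip g hg x y (hw.trans h1) hxy (by linarith)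
      have h5 : Real.exp (-x) ≤ Real.exp (-w) := Real.exp_le_exp.2 (by linarith)
      rw [abs_le] at h
      have h6 : C0 * ((y - x) + Real.exp (-x)) ≤ C1 * (|x - y| + Real.exp (-w)) := by
        rw [abs_sub_comm, abs_of_nonneg (by linarith : 0 ≤ y - x)]
        have := Real.exp_pos (-x)
        have := Real.exp_pos (-w)
        rw [hC1]
        nlinarith
      have h7 := h.1
      show ‖SS g x‖ * Real.exp (-(2 * x)) ≤ ‖SS g y‖ * Real.exp (-(2 * y)) + _
      linarith
    · have h := hlip g hg y x (hw.trans h3) hxy (by linarith)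
      have h5 : Real.exp (-y) ≤ Real.exp (-w) := Real.exp_le_exp.2 (by linarith)
      rw [abs_le] at h
      have h6 : C0 * ((x - y) + Real.exp (-y)) ≤ C1 * (|x - y| + Real.exp (-w)) := by
        rw [abs_of_nonneg (by linarith : 0 ≤ x - y)]
        have := Real.exp_pos (-y)
        have := Real.exp_pos (-w)
        rw [hC1]
        nlinarith
      have h7 := h.2
      show ‖SS g x‖ * Real.exp (-(2 * x)) ≤ ‖SS g y‖ * Real.exp (-(2 * y)) + _
      linarith
  set I : ℝ := ∫ x in w..(w + 1), a x ^ 2 with hI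
  have hI0 : 0 ≤ I := intervalIntegral.integral_nonneg (by linarith) fun x _ => sq_nonneg _
  show a v ≤ 16 * C1 * I ^ ((1 : ℝ) / 3) + 16 * C1 * Real.exp (-w)
  have hexp := Real.exp_pos (-w)
  have hrp : 0 ≤ I ^ ((1 : ℝ) / 3) := Real.rpow_nonneg hI0 _
  by_cases hcase : a v ≤ 4 * C1 * Real.exp (-w)
  · nlinarith [mul_pos hC1p hexp, mul_nonneg hC1p.le hrp]
  push Not at hcase
  have hav : 0 < a v := lt_of_le_of_lt (by positivity) hcase
  set δ : ℝ := a v / (4 * C1) with hδ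
  have hδ0 : 0 < δ := by positivity
  have hδ1 : δ ≤ 1 / 4 := by
    rw [hδ, div_le_iff₀ (by positivity)]
    have := ha9 v
    rw [hC1]
    linarith
  -- lower bound on an interval of length δ
  have hlow : ∀ x, w ≤ x → x ≤ w + 1 → |v - x| ≤ δ → a v / 2 ≤ a x := by
    intro x h1 h2 h3
    have h4 := hl v x hv1 hv2 h1 h2
    have h5 : C1 * |v - x| ≤ a v / 4 := by
      have : C1 * δ = a v / 4 := by rw [hδ]; field_simp
      nlinarith
    nlinarith
  have hJ : ∀ p : ℝ, w ≤ p → p + δ ≤ w + 1 → (∀ x, p ≤ x → x ≤ p + δ → a v / 2 ≤ a x) →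
      δ * (a v / 2) ^ 2 ≤ I := by
    intro p h1 h2 h3
    have h4 : ∫ x in p..(p + δ), (a v / 2) ^ 2 ≤ ∫ x in p..(p + δ), a x ^ 2 := by
      refine intervalIntegral.integral_mono_on (by linarith) intervalIntegrable_const
        (hint _ _) fun x hx => ?_
      exact pow_le_pow_left₀ (by positivity) (h3 x hx.1 hx.2) 2
    rw [intervalIntegral.integral_const, smul_eq_mul, add_sub_cancel_left] at h4
    have h5 : I = (∫ x in w..p, a x ^ 2) + (∫ x in p..(p + δ), a x ^ 2) +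
        ∫ x in (p + δ)..(w + 1), a x ^ 2 := by
      rw [hI, intervalIntegral.integral_add_adjacent_intervals (hint _ _) (hint _ _),
        intervalIntegral.integral_add_adjacent_intervals (hint _ _) (hint _ _)]
    have h6 : 0 ≤ ∫ x in w..p, a x ^ 2 :=
      intervalIntegral.integral_nonneg h1 fun x _ => sq_nonneg _
    have h7 : 0 ≤ ∫ x in (p + δ)..(w + 1), a x ^ 2 :=
      intervalIntegral.integral_nonneg h2 fun x _ => sq_nonneg _
    linarith
  have hmain : δ * (a v / 2) ^ 2 ≤ I := by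
    by_cases hv : v + δ ≤ w + 1
    · refine hJ v hv1 hv fun x h1 h2 => hlow x (by linarith) (by linarith) ?_
      rw [abs_sub_comm, abs_of_nonneg (by linarith)]
      linarith
    · push Not at hv
      refine hJ (v - δ) (by linarith) (by linarith) fun x h1 h2 =>
        hlow x (by linarith) (by linarith) ?_
      rw [abs_of_nonneg (by linarith)]
      linarith
  have hcube : a v ^ 3 ≤ 16 * C1 * I := by
    have : δ * (a v / 2) ^ 2 = a v ^ 3 / (16 * C1) := by
      rw [hδ]; field_simp; ring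
    rw [this, div_le_iff₀ (by positivity)] at hmain
    linarith
  have hz : (I ^ ((1 : ℝ) / 3)) ^ 3 = I := by
    rw [← Real.rpow_natCast, ← Real.rpow_mul hI0]
    norm_num
  have h16 : a v ≤ 16 * C1 * I ^ ((1 : ℝ) / 3) := by
    by_contra hcon
    push Not at hcon
    have h1 : (16 * C1 * I ^ ((1 : ℝ) / 3)) ^ 3 < a v ^ 3 :=
      pow_lt_pow_left₀ hcon (by positivity) (by norm_num)
    rw [mul_pow, hz] at h1
    have h2 : 16 * C1 * I ≤ (16 * C1) ^ 3 * I := by
      apply mul_le_mul_of_nonneg_right _ hI0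
      have : (1 : ℝ) ≤ 16 * C1 := by rw [hC1]; linarith
      calc 16 * C1 = (16 * C1) ^ 1 := by ring
        _ ≤ (16 * C1) ^ 3 := pow_le_pow_right₀ this (by norm_num)
    linarith
  have : 0 ≤ 16 * C1 * Real.exp (-w) := by positivity
  linarith

/-- shells -/
private lemma shell_sum : ∃ C : ℝ, 0 < C ∧ ∀ u : ℝ, 0 ≤ u → ∀ (F : GaussianInt → ℝ) (W : ℕ → ℝ),
    (∀ i, 0 ≤ W i) →
    (∀ p ∈ pr 1 (Real.exp u), ∀ i : ℕ, (i : ℝ) < Real.log (ab p) → Real.log (ab p) ≤ i + 1 →
      F p ≤ Real.log (ab p) / ab p ^ 2 * W i) →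
    ∑ p ∈ pr 1 (Real.exp u), F p ≤ C * ∑ i ∈ Finset.range (⌊u⌋₊ + 1), W i := by
  classical
  obtain ⟨C, hC, hsh⟩ := cheb_shell
  refine ⟨C, hC, fun u hu F W hW hF => ?_⟩
  set idx : GaussianInt → ℕ := fun p => ⌈Real.log (ab p)⌉₊ - 1 with hidx
  have hlog : ∀ p ∈ pr 1 (Real.exp u), 0 < Real.log (ab p) ∧ Real.log (ab p) ≤ u := by
    intro p hp
    rw [mem_pr] at hp
    refine ⟨Real.log_pos hp.2.1, ?_⟩
    rw [Real.log_le_iff_le_exp (by linarith [hp.2.1])]
    exact hp.2.2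
  have hi : ∀ p ∈ pr 1 (Real.exp u), (idx p : ℝ) < Real.log (ab p) ∧
      Real.log (ab p) ≤ idx p + 1 := by
    intro p hp
    have h1 := hlog p hp
    have h2 : 1 ≤ ⌈Real.log (ab p)⌉₊ := Nat.one_le_iff_ne_zero.2 (by
      have := Nat.ceil_pos.2 h1.1
      omega)
    have h3 : ((idx p : ℕ) : ℝ) = (⌈Real.log (ab p)⌉₊ : ℝ) - 1 := by
      rw [hidx]
      push_cast [Nat.cast_sub h2]
      ring
    rw [h3]
    have h4 := Nat.le_ceil (Real.log (ab p))
    have h5 := Nat.ceil_lt_add_one h1.1.le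
    constructor <;> linarith
  have hmaps : ∀ p ∈ pr 1 (Real.exp u), idx p ∈ Finset.range (⌊u⌋₊ + 1) := by
    intro p hp
    rw [Finset.mem_range, Nat.lt_succ_iff]
    apply Nat.le_floor
    have h1 := hi p hp
    have h2 := hlog p hp
    linarith
  rw [← Finset.sum_fiberwise_of_maps_to hmaps, Finset.mul_sum]
  refine Finset.sum_le_sum fun i _ => ?_
  have h1 : ∑ p ∈ (pr 1 (Real.exp u)).filter (fun p => idx p = i), F p ≤
      ∑ p ∈ (pr 1 (Real.exp u)).filter (fun p => idx p = i),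
        Real.log (ab p) / ab p ^ 2 * W i := by
    refine Finset.sum_le_sum fun p hp => ?_
    rw [Finset.mem_filter] at hp
    have h2 := hi p hp.1
    rw [hp.2] at h2
    exact hF p hp.1 i h2.1 h2.2
  refine h1.trans ?_
  rw [← Finset.sum_mul]
  refine mul_le_mul_of_nonneg_right ?_ (hW i)
  have h3 := hsh (Real.exp i) (Real.one_le_exp (Nat.cast_nonneg i))
  refine le_trans (Finset.sum_le_sum_of_subset_of_nonneg ?_ ?_) h3
  · intro p hp
    rw [Finset.mem_filter] at hp
    have h2 := hi p hp.1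
    rw [hp.2] at h2
    have h4 := mem_pr.1 hp.1
    have h5 : 0 < ab p := by linarith [h4.2.1]
    rw [mem_pr]
    refine ⟨h4.1, ?_, ?_⟩
    · rw [← Real.lt_log_iff_exp_lt h5]
      exact h2.1
    · rw [← Real.exp_add, ← Real.log_le_iff_le_exp h5]
      linarith
  · intro p hp _
    have h4 := mem_pr.1 hp
    have h5 : 1 < ab p := by
      have : (1 : ℝ) ≤ Real.exp i := Real.one_le_exp (Nat.cast_nonneg i)
      linarith [h4.2.1]
    exact div_nonneg (Real.log_nonneg h5.le) (sq_nonneg _)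

private lemma geom_half (n : ℕ) : ∑ i ∈ Finset.range n, ((1 : ℝ) / 2) ^ i ≤ 2 := by
  rw [geom_sum_eq (by norm_num)]
  have : (0 : ℝ) < (1 / 2) ^ n := by positivity
  rw [div_le_iff_of_neg (by norm_num)]
  linarith

/-- the sum over the prime powers -/
private lemma pw_sum (g : GaussianInt → ℂ) (hg : CM g) (u : ℝ) (J : ℕ) (p : GaussianInt)
    (hp : Prime p) :
    ‖∑ j ∈ Finset.Icc 1 J, (Real.log (ab p) : ℂ) * g p ^ j *
        ∑ m ∈ ball (Real.exp u / ab p ^ j), g m‖ ≤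
      Real.log (ab p) * (‖SS g (u - Real.log (ab p))‖ + 36 * Real.exp (2 * u) / ab p ^ 4) := by
  have hp0 : p ≠ 0 := hp.ne_zero
  have hab : 2 ≤ ab p ^ 2 := by rw [← nm_eq_ab]; exact two_le_nm_of_prime hp
  have hab1 : 1 ≤ ab p := one_le_ab hp0
  have hlog : 0 ≤ Real.log (ab p) := Real.log_nonneg hab1
  have hpos : 0 < ab p := by linarith
  set A := ‖SS g (u - Real.log (ab p))‖ with hA
  have hA0 : 0 ≤ A := norm_nonneg _
  have hterm : ∀ j ∈ Finset.Icc 1 J, ‖(Real.log (ab p) : ℂ) * g p ^ j *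
        ∑ m ∈ ball (Real.exp u / ab p ^ j), g m‖ ≤
      Real.log (ab p) * ((if j = 1 then A else 0) +
        36 * Real.exp (2 * u) / ab p ^ 4 * ((1 / 2) ^ j)) := by
    intro j hj
    rw [Finset.mem_Icc] at hj
    rw [norm_mul, norm_mul, Complex.norm_real, Real.norm_of_nonneg hlog, norm_pow, mul_assoc]
    refine mul_le_mul_of_nonneg_left ?_ hlog
    have h1 : ‖g p‖ ^ j ≤ 1 := pow_le_one₀ (norm_nonneg _) (hg.le p hp0)
    refine (mul_le_of_le_one_left (norm_nonneg _) h1).trans ?_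
    split_ifs with h
    · subst h
      have e : Real.exp u / ab p ^ 1 = Real.exp (u - Real.log (ab p)) := by
        rw [pow_one, Real.exp_sub, Real.exp_log hpos]
      have e2 : ‖∑ m ∈ ball (Real.exp u / ab p ^ 1), g m‖ = A := by rw [e]; rfl
      rw [e2]
      have : 0 ≤ 36 * Real.exp (2 * u) / ab p ^ 4 * ((1 / 2) ^ 1) := by positivity
      linarith
    · have hj2 : 2 ≤ j := by omega
      have h2 : ‖∑ m ∈ ball (Real.exp u / ab p ^ j), g m‖ ≤ 9 * (Real.exp u / ab p ^ j) ^ 2 := by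
        refine le_trans ?_ (card_ball_le' _)
        calc ‖∑ m ∈ ball (Real.exp u / ab p ^ j), g m‖
            ≤ ∑ m ∈ ball (Real.exp u / ab p ^ j), ‖g m‖ := norm_sum_le _ _
          _ ≤ ∑ m ∈ ball (Real.exp u / ab p ^ j), (1 : ℝ) :=
              Finset.sum_le_sum fun n hn => hg.le n (mem_ball'.1 hn).1
          _ = _ := by simp
      refine h2.trans ?_
      rw [zero_add]
      obtain ⟨k, rfl⟩ : ∃ k, j = k + 2 := ⟨j - 2, by omega⟩
      have e1 : Real.exp u ^ 2 = Real.exp (2 * u) := by rw [← Real.exp_nat_mul]; norm_num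
      have e2 : 9 * (Real.exp u / ab p ^ (k + 2)) ^ 2 =
          9 * Real.exp (2 * u) / ab p ^ 4 * (1 / (ab p ^ 2) ^ k) := by
        rw [div_pow, e1]
        field_simp
        ring
      have e3 : 36 * Real.exp (2 * u) / ab p ^ 4 * ((1 / 2 : ℝ) ^ (k + 2)) =
          9 * Real.exp (2 * u) / ab p ^ 4 * ((1 / 2 : ℝ) ^ k) := by
        rw [pow_add]; ring
      rw [e2, e3]
      refine mul_le_mul_of_nonneg_left ?_ (by positivity)
      rw [one_div, one_div, ← inv_pow]
      exact pow_le_pow_left₀ (by positivity) (inv_anti₀ (by norm_num) hab) k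
  refine (norm_sum_le _ _).trans ((Finset.sum_le_sum hterm).trans ?_)
  rw [← Finset.mul_sum, Finset.sum_add_distrib, ← Finset.mul_sum]
  refine mul_le_mul_of_nonneg_left ?_ hlog
  have h1 : ∑ j ∈ Finset.Icc 1 J, (if j = 1 then A else 0) ≤ A := by
    rw [Finset.sum_ite_eq']
    split_ifs
    · exact le_rfl
    · exact hA0
  have h2 : ∑ j ∈ Finset.Icc 1 J, ((1 : ℝ) / 2) ^ j ≤ 1 := by
    have e : ∑ j ∈ Finset.Icc 1 J, ((1 : ℝ) / 2) ^ j =
        ∑ i ∈ Finset.range J, ((1 : ℝ) / 2) ^ (i + 1) := by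
      rw [Finset.range_eq_Ico, Finset.sum_Ico_add' (fun j => ((1 : ℝ) / 2) ^ j) 0 J 1]
      refine Finset.sum_congr ?_ fun _ _ => rfl
      ext j
      simp only [Finset.mem_Icc, Finset.mem_Ico]
      omega
    rw [e]
    have h3 := geom_half J
    have e2 : ∑ i ∈ Finset.range J, ((1 : ℝ) / 2) ^ (i + 1) =
        (∑ i ∈ Finset.range J, ((1 : ℝ) / 2) ^ i) * (1 / 2) := by
      rw [Finset.sum_mul]
      exact Finset.sum_congr rfl fun i _ => by rw [pow_succ]
    rw [e2]
    linarith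
  have h3 : 0 ≤ 36 * Real.exp (2 * u) / ab p ^ 4 := by positivity
  nlinarith

theorem hal_A : ∃ C : ℝ, 0 < C ∧ ∀ g : GaussianInt → ℂ, CM g → ∀ u : ℝ, 1 ≤ u →
    ‖SS g u‖ * Real.exp (-(2 * u)) ≤
      C * ((1 / u) * ∫ v in (0 : ℝ)..u, (‖SS g v‖ * Real.exp (-(2 * v))) ^ 2) ^ ((1 : ℝ) / 3) +
        C / u := by
  obtain ⟨C1, hC1, hsl⟩ := hal_sl
  obtain ⟨C2, hC2, hpt⟩ := hal_pt
  obtain ⟨C3, hC3, hsh⟩ := shell_sum
  refine ⟨C1 + C3 * (C2 + 2 * C2 + 9 + 72), by positivity, fun g hg u hu => ?_⟩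
  have hg1 : ∀ n, n ≠ 0 → ‖g n‖ ≤ 1 := hg.le
  have hu0 : 0 ≤ u := by linarith
  set a : ℝ → ℝ := fun x => ‖SS g x‖ * Real.exp (-(2 * x)) with ha
  have ha0 : ∀ x, 0 ≤ a x := fun x => mul_nonneg (norm_nonneg _) (Real.exp_pos _).le
  have ha9 : ∀ x, a x ≤ 9 := by
    intro x
    have h := mul_le_mul_of_nonneg_right (ss_bdd g hg1 x) (Real.exp_pos (-(2 * x))).le
    have e : 9 * Real.exp (2 * x) * Real.exp (-(2 * x)) = 9 := by
      rw [mul_assoc, ← Real.exp_add]; simp
    rw [e] at h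
    exact h
  have hint : ∀ p q : ℝ, IntervalIntegrable (fun x => a x ^ 2) volume p q :=
    fun p q => hal_meas g p q
  set n := ⌊u⌋₊ with hn
  have hnu : (n : ℝ) ≤ u := Nat.floor_le hu0
  -- unit intervals
  set y : ℕ → ℝ := fun i => ∫ x in (u - i - 1)..(u - i - 1 + 1), a x ^ 2 with hy
  set z : ℕ → ℝ := fun i => (y i) ^ ((1 : ℝ) / 3) with hz
  have hy0 : ∀ i, 0 ≤ y i := fun i =>
    intervalIntegral.integral_nonneg (by linarith) fun x _ => sq_nonneg _
  have hz0 : ∀ i, 0 ≤ z i := fun i => Real.rpow_nonneg (hy0 i) _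
  have hz3 : ∀ i, z i ^ 3 = y i := by
    intro i
    show ((y i) ^ ((1 : ℝ) / 3)) ^ 3 = y i
    rw [← Real.rpow_natCast, ← Real.rpow_mul (hy0 i)]
    norm_num
  set I : ℝ := ∫ x in (0 : ℝ)..u, a x ^ 2 with hI
  have hI0 : 0 ≤ I := intervalIntegral.integral_nonneg hu0 fun x _ => sq_nonneg _
  have hysum : ∑ i ∈ Finset.range n, y i ≤ I := by
    have h1 : ∀ i : ℕ, y i = -∫ x in (u - (i : ℝ))..(u - ((i + 1 : ℕ) : ℝ)), a x ^ 2 := by
      intro i
      rw [← intervalIntegral.integral_symm]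
      show ∫ x in (u - i - 1)..(u - i - 1 + 1), a x ^ 2 = _
      congr 1
      · push_cast; ring
      · ring
    have h2 : ∑ i ∈ Finset.range n, y i = ∫ x in (u - (n : ℝ))..u, a x ^ 2 := by
      rw [Finset.sum_congr rfl fun i _ => h1 i, Finset.sum_neg_distrib,
        intervalIntegral.sum_integral_adjacent_intervals
          (a := fun k : ℕ => u - (k : ℝ)) (fun k _ => hint _ _),
        ← intervalIntegral.integral_symm]
      simp
    rw [h2]
    have h3 : I = (∫ x in (0 : ℝ)..(u - n), a x ^ 2) + ∫ x in (u - (n : ℝ))..u, a x ^ 2 := by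
      rw [hI, intervalIntegral.integral_add_adjacent_intervals (hint _ _) (hint _ _)]
    have h4 : 0 ≤ ∫ x in (0 : ℝ)..(u - n), a x ^ 2 :=
      intervalIntegral.integral_nonneg (by linarith) fun x _ => sq_nonneg _
    linarith
  have hzsum : ∑ i ∈ Finset.range n, z i ≤ u * ((1 / u) * I) ^ ((1 : ℝ) / 3) := by
    have h1 : (∑ i ∈ Finset.range n, z i) ^ 3 ≤ (n : ℝ) ^ 2 * ∑ i ∈ Finset.range n, z i ^ 3 := by
      have := pow_sum_le_card_mul_sum_pow (s := Finset.range n) (f := z) (fun i _ => hz0 i) 2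
      rw [Finset.card_range] at this
      exact this
    have h2 : ∑ i ∈ Finset.range n, z i ^ 3 ≤ I := by
      rw [Finset.sum_congr rfl fun i _ => hz3 i]
      exact hysum
    have h3 : (n : ℝ) ^ 2 ≤ u ^ 2 := pow_le_pow_left₀ (Nat.cast_nonneg _) hnu 2
    have h4 : (∑ i ∈ Finset.range n, z i) ^ 3 ≤ u ^ 2 * I := by
      refine h1.trans ?_
      exact mul_le_mul h3 h2 (Finset.sum_nonneg fun i _ => pow_nonneg (hz0 i) 3) (by positivity)
    have h5 : 0 ≤ (1 / u) * I := by positivity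
    have h6 : (u * ((1 / u) * I) ^ ((1 : ℝ) / 3)) ^ 3 = u ^ 2 * I := by
      rw [mul_pow, ← Real.rpow_natCast (((1 / u) * I) ^ ((1 : ℝ) / 3)), ← Real.rpow_mul h5]
      norm_num
      field_simp
    rw [← h6] at h4
    exact le_of_pow_le_pow_left₀ (by norm_num) (by positivity) h4
  -- the weights
  set V : ℕ → ℝ := fun i => if i < n then C2 * z i + C2 * Real.exp (-(u - i - 1)) else 9 with hV
  have hV0 : ∀ i, 0 ≤ V i := by
    intro i
    show 0 ≤ (if i < n then C2 * z i + C2 * Real.exp (-(u - i - 1)) else 9)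
    split_ifs
    · have := hz0 i
      positivity
    · norm_num
  set W : ℕ → ℝ := fun i => V i + 36 * (1 / 2) ^ i with hW
  obtain ⟨J, hJ⟩ : ∃ J : ℕ, Real.exp u < Real.sqrt 2 ^ (J + 1) := by
    have h1 : (1 : ℝ) < Real.sqrt 2 := by
      rw [Real.lt_sqrt (by norm_num)]; norm_num
    obtain ⟨J, hJ⟩ := pow_unbounded_of_one_lt (Real.exp u) h1
    exact ⟨J, hJ.trans_le (pow_le_pow_right₀ h1.le (Nat.le_succ J))⟩
  have hSL : ‖SL g u‖ ≤ Real.exp (2 * u) * (C3 * ∑ i ∈ Finset.range (n + 1), W i) := by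
    have h1 : SL g u = _ := sum_mul_log g hg (Real.exp u) J hJ
    rw [h1]
    refine (norm_sum_le _ _).trans ?_
    have h2 := hsh u hu0 (fun p => ‖∑ j ∈ Finset.Icc 1 J, (Real.log (ab p) : ℂ) * g p ^ j *
        ∑ m ∈ ball (Real.exp u / ab p ^ j), g m‖ * Real.exp (-(2 * u))) W ?_ ?_
    · rw [← Finset.sum_mul] at h2
      have e : Real.exp (2 * u) * Real.exp (-(2 * u)) = 1 := by rw [← Real.exp_add]; simp
      have h3 := mul_le_mul_of_nonneg_left h2 (Real.exp_pos (2 * u)).le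
      calc _ = Real.exp (2 * u) * ((∑ p ∈ pr 1 (Real.exp u),
              ‖∑ j ∈ Finset.Icc 1 J, (Real.log (ab p) : ℂ) * g p ^ j *
                ∑ m ∈ ball (Real.exp u / ab p ^ j), g m‖) * Real.exp (-(2 * u))) := by
            rw [mul_comm (∑ p ∈ pr 1 (Real.exp u), _) (Real.exp (-(2 * u))), ← mul_assoc, e,
              one_mul]
        _ ≤ _ := h3
    · intro i
      have := hV0 i
      show 0 ≤ V i + 36 * (1 / 2) ^ i
      positivity
    · intro p hp i hi1 hi2
      have hp' := mem_pr.1 hp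
      have hab0 : 0 < ab p := by linarith [hp'.2.1]
      have hlog0 : 0 < Real.log (ab p) := Real.log_pos hp'.2.1
      have hlogu : Real.log (ab p) ≤ u := by
        rw [Real.log_le_iff_le_exp hab0]; exact hp'.2.2
      have h3 := mul_le_mul_of_nonneg_right (pw_sum g hg u J p hp'.1.1)
        (Real.exp_pos (-(2 * u))).le
      refine h3.trans ?_
      have hexp2 : Real.exp (2 * Real.log (ab p)) = ab p ^ 2 := by
        rw [two_mul, Real.exp_add, Real.exp_log hab0]; ring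
      have e1 : ‖SS g (u - Real.log (ab p))‖ * Real.exp (-(2 * u)) =
          a (u - Real.log (ab p)) / ab p ^ 2 := by
        show _ = ‖SS g (u - Real.log (ab p))‖ * Real.exp (-(2 * (u - Real.log (ab p)))) / ab p ^ 2
        have : Real.exp (-(2 * (u - Real.log (ab p)))) = Real.exp (-(2 * u)) * ab p ^ 2 := by
          rw [← hexp2, ← Real.exp_add]; congr 1; ring
        rw [this]
        field_simp
      have e2 : 36 * Real.exp (2 * u) / ab p ^ 4 * Real.exp (-(2 * u)) =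
          36 / ab p ^ 2 / ab p ^ 2 := by
        have e : Real.exp (2 * u) * Real.exp (-(2 * u)) = 1 := by rw [← Real.exp_add]; simp
        calc 36 * Real.exp (2 * u) / ab p ^ 4 * Real.exp (-(2 * u))
            = 36 * (Real.exp (2 * u) * Real.exp (-(2 * u))) / ab p ^ 4 := by ring
          _ = 36 / ab p ^ 2 / ab p ^ 2 := by rw [e]; field_simp
      have e3 : Real.log (ab p) * (‖SS g (u - Real.log (ab p))‖ +
          36 * Real.exp (2 * u) / ab p ^ 4) * Real.exp (-(2 * u)) =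
          Real.log (ab p) / ab p ^ 2 * (a (u - Real.log (ab p)) + 36 / ab p ^ 2) := by
        calc _ = Real.log (ab p) * (‖SS g (u - Real.log (ab p))‖ * Real.exp (-(2 * u)) +
              36 * Real.exp (2 * u) / ab p ^ 4 * Real.exp (-(2 * u))) := by ring
          _ = _ := by rw [e1, e2]; ring
      rw [e3]
      refine mul_le_mul_of_nonneg_left ?_ (by positivity)
      show _ ≤ V i + 36 * (1 / 2) ^ i
      refine add_le_add ?_ ?_
      · show _ ≤ (if i < n then C2 * z i + C2 * Real.exp (-(u - i - 1)) else 9)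
        split_ifs with hin
        · have hin' : (i : ℝ) + 1 ≤ n := by exact_mod_cast hin
          have h4 := hpt g hg1 (u - i - 1) (by linarith) (u - Real.log (ab p)) (by linarith)
            (by linarith)
          exact h4
        · exact ha9 _
      · have h5 : Real.exp (i : ℝ) ≤ ab p ^ 2 := by
          rw [← hexp2]
          exact Real.exp_le_exp.2 (by linarith)
        have h6 : (2 : ℝ) ^ i ≤ Real.exp (i : ℝ) := by
          have h7 : (2 : ℝ) ≤ Real.exp 1 := by
            have := Real.add_one_le_exp (1 : ℝ)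
            linarith
          calc (2 : ℝ) ^ i ≤ Real.exp 1 ^ i := pow_le_pow_left₀ (by norm_num) h7 i
            _ = Real.exp (i : ℝ) := by rw [← Real.exp_nat_mul, mul_one]
        rw [one_div, inv_pow, div_eq_mul_inv]
        refine mul_le_mul_of_nonneg_left ?_ (by norm_num)
        exact inv_anti₀ (by positivity) (h6.trans h5)
  have hWsum : ∑ i ∈ Finset.range (n + 1), W i ≤
      C2 * (u * ((1 / u) * I) ^ ((1 : ℝ) / 3)) + 2 * C2 + 9 + 72 := by
    have h1 : ∑ i ∈ Finset.range (n + 1), W i =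
        ∑ i ∈ Finset.range (n + 1), V i + 36 * ∑ i ∈ Finset.range (n + 1), ((1 : ℝ) / 2) ^ i := by
      rw [Finset.mul_sum, ← Finset.sum_add_distrib]
    have h2 := geom_half (n + 1)
    have h3 : ∑ i ∈ Finset.range (n + 1), V i =
        ∑ i ∈ Finset.range n, (C2 * z i + C2 * Real.exp (-(u - i - 1))) + 9 := by
      rw [Finset.sum_range_succ]
      congr 1
      · refine Finset.sum_congr rfl fun i hi => ?_
        show (if i < n then C2 * z i + C2 * Real.exp (-(u - i - 1)) else 9) = _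
        rw [if_pos (Finset.mem_range.1 hi)]
      · show (if n < n then C2 * z n + C2 * Real.exp (-(u - n - 1)) else 9) = 9
        rw [if_neg (lt_irrefl n)]
    have h4 : ∑ i ∈ Finset.range n, Real.exp (-(u - i - 1)) ≤ 2 := by
      have h5 : ∑ i ∈ Finset.range n, Real.exp (-(u - i - 1)) ≤
          ∑ i ∈ Finset.range n, ((1 : ℝ) / 2) ^ (n - 1 - i) := by
        refine Finset.sum_le_sum fun i hi => ?_
        rw [Finset.mem_range] at hi
        have h7 : (2 : ℝ) ≤ Real.exp 1 := by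
          have := Real.add_one_le_exp (1 : ℝ)
          linarith
        have h8 : (2 : ℝ) ^ (n - 1 - i) ≤ Real.exp ((n - 1 - i : ℕ) : ℝ) := by
          calc (2 : ℝ) ^ (n - 1 - i) ≤ Real.exp 1 ^ (n - 1 - i) :=
                pow_le_pow_left₀ (by norm_num) h7 _
            _ = Real.exp ((n - 1 - i : ℕ) : ℝ) := by rw [← Real.exp_nat_mul, mul_one]
        have h9 : ((n - 1 - i : ℕ) : ℝ) ≤ u - i - 1 := by
          have : ((n - 1 - i : ℕ) : ℝ) + 1 + i = n := by
            have : (n - 1 - i) + 1 + i = n := by omega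
            exact_mod_cast this
          linarith
        rw [Real.exp_neg, one_div, inv_pow]
        exact inv_anti₀ (by positivity) (h8.trans (Real.exp_le_exp.2 h9))
      refine h5.trans ?_
      rw [Finset.sum_range_reflect (fun i => ((1 : ℝ) / 2) ^ i) n]
      exact geom_half n
    have h6 : ∑ i ∈ Finset.range n, (C2 * z i + C2 * Real.exp (-(u - i - 1))) =
        C2 * ∑ i ∈ Finset.range n, z i + C2 * ∑ i ∈ Finset.range n, Real.exp (-(u - i - 1)) := by
      rw [Finset.sum_add_distrib, Finset.mul_sum, Finset.mul_sum]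
    rw [h1, h3, h6]
    have h7 := mul_le_mul_of_nonneg_left hzsum hC2.le
    have h8 := mul_le_mul_of_nonneg_left h4 hC2.le
    linarith
  have hfin := hsl g hg1 u hu0
  have e : Real.exp (2 * u) * Real.exp (-(2 * u)) = 1 := by rw [← Real.exp_add]; simp
  set K : ℝ := ((1 / u) * I) ^ ((1 : ℝ) / 3) with hK
  have hK0 : 0 ≤ K := Real.rpow_nonneg (by positivity) _
  have h1 : u * a u ≤ C3 * (C2 * (u * K) + 2 * C2 + 9 + 72) + C1 := by
    have h2 : u * ‖SS g u‖ ≤ Real.exp (2 * u) * (C3 * (C2 * (u * K) + 2 * C2 + 9 + 72)) +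
        C1 * Real.exp (2 * u) := by
      have h3 := mul_le_mul_of_nonneg_left (mul_le_mul_of_nonneg_left hWsum hC3.le)
        (Real.exp_pos (2 * u)).le
      linarith
    have h4 := mul_le_mul_of_nonneg_right h2 (Real.exp_pos (-(2 * u))).le
    calc u * a u = u * ‖SS g u‖ * Real.exp (-(2 * u)) := by
          show u * (‖SS g u‖ * Real.exp (-(2 * u))) = _
          ring
      _ ≤ _ := h4
      _ = (Real.exp (2 * u) * Real.exp (-(2 * u))) *
            (C3 * (C2 * (u * K) + 2 * C2 + 9 + 72) + C1) := by ring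
      _ = _ := by rw [e, one_mul]
  show a u ≤ (C1 + C3 * (C2 + 2 * C2 + 9 + 72)) * K + (C1 + C3 * (C2 + 2 * C2 + 9 + 72)) / u
  have hu1 : 0 < u := by linarith
  have h2 : a u ≤ (C3 * (C2 * (u * K) + 2 * C2 + 9 + 72) + C1) / u := by
    rw [le_div_iff₀ hu1]
    linarith
  refine h2.trans ?_
  have e2 : (C3 * (C2 * (u * K) + 2 * C2 + 9 + 72) + C1) / u =
      C3 * C2 * K + (C3 * (2 * C2 + 9 + 72) + C1) / u := by
    field_simp
    ring
  rw [e2]
  refine add_le_add ?_ ?_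
  · refine mul_le_mul_of_nonneg_right ?_ hK0
    nlinarith [mul_pos hC3 hC2]
  · refine div_le_div_of_nonneg_right ?_ hu1.le
    nlinarith [mul_pos hC3 hC2]

end Pool.Agent.MRG
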