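import Pool.Agent.MRG.Lapl

/-!
# Module HalB: the mean square bound of Halász

`σ = 1/u`.  By `lapl_sq` we need `∫ ‖Ds (tw g t) σ‖²/(4+t²) dt ≤ C (κ² u³ + u³/T)`.
For `|t| ≤ T`: `Ds (tw g t) = Gs (tw g t) Lm (tw g t)` (`log_id` for `tw g t`, which is `CM` by `CM.mul_ch` with `k = 0`), so
`‖Ds‖² ≤ κ² u² ‖Lm‖²`, and `∫ ‖Lm (tw g t) σ‖²/(4+t²) dt ≤ ∑_{i ∈ ℤ} (2/(1+i²)) ∫_i^(i+1) ‖Lm‖² ≤ C u` (`mv_L`; `4 + t² ≥ (1+i²)/2` on `[i,i+1]`).
For `|t| > T`: `∑_{|i| ≥ T - 1} (2/(1+i²)) C u³ ≤ C u³/T` (`mv_D`; for `T ≤ 2` the full sum is `≤ C ≤ 2C/T`).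
-/

set_option autoImplicit false

open MeasureTheory

namespace Pool.Agent.MRG

open Pool.Agent.GaussPret

private lemma w_int (F : ℝ → ℝ) (hF : Continuous F) (a b : ℝ) :
    IntervalIntegrable (fun t => F t / (4 + t ^ 2)) volume a b := by
  apply Continuous.intervalIntegrable
  exact hF.div (by fun_prop) (fun t => by positivity)

/-- unit intervals, telescoping -/
private lemma tele {F : ℝ → ℝ} (hF : Continuous F) (h0 : ∀ t, 0 ≤ F t) {K : ℝ}
    (hK : ∀ t0 : ℝ, ∫ t in t0..(t0 + 1), F t ≤ K) (k n : ℕ) (hkn : k ≤ n) :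
    ∫ t in (k : ℝ)..(n : ℝ), F t / (4 + t ^ 2) ≤ 2 * K * (1 / ((k : ℝ) + 1) - 1 / ((n : ℝ) + 1)) := by
  have hK0 : 0 ≤ K := le_trans (intervalIntegral.integral_nonneg (by linarith) fun t _ => h0 t) (hK 0)
  induction n, hkn using Nat.le_induction with
  | base => simp
  | succ n hn ih =>
    rw [← intervalIntegral.integral_add_adjacent_intervals (w_int F hF k n)
      (w_int F hF n ((n + 1 : ℕ) : ℝ))]
    have h1 : ∫ t in (n : ℝ)..((n + 1 : ℕ) : ℝ), F t / (4 + t ^ 2) ≤ K / (4 + (n : ℝ) ^ 2) := by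
      have h2 : ∫ t in (n : ℝ)..((n + 1 : ℕ) : ℝ), F t / (4 + t ^ 2) ≤
          ∫ t in (n : ℝ)..((n + 1 : ℕ) : ℝ), F t / (4 + (n : ℝ) ^ 2) := by
        refine intervalIntegral.integral_mono_on (by push_cast; linarith) (w_int F hF _ _)
          ((hF.div_const _).intervalIntegrable _ _) fun t ht => ?_
        refine div_le_div_of_nonneg_left (h0 t) (by positivity) ?_
        have : (0 : ℝ) ≤ n := Nat.cast_nonneg n
        nlinarith [ht.1]
      refine h2.trans ?_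
      rw [intervalIntegral.integral_div]
      refine div_le_div_of_nonneg_right ?_ (by positivity)
      have := hK n
      push_cast
      exact this
    have h3 : K / (4 + (n : ℝ) ^ 2) ≤
        2 * K * (1 / ((n : ℝ) + 1) - 1 / (((n + 1 : ℕ) : ℝ) + 1)) := by
      have hn0 : (0 : ℝ) ≤ n := Nat.cast_nonneg n
      have h4 : 1 / ((n : ℝ) + 1) - 1 / (((n + 1 : ℕ) : ℝ) + 1) = 1 / (((n : ℝ) + 1) * (n + 2)) := by
        push_cast
        field_simp
        ring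
      rw [h4, mul_one_div, div_le_div_iff₀ (by positivity) (by positivity)]
      have h5 : ((n : ℝ) + 1) * (n + 2) ≤ 2 * (4 + (n : ℝ) ^ 2) := by nlinarith [sq_nonneg ((n : ℝ) - 3 / 2)]
      nlinarith [mul_le_mul_of_nonneg_left h5 hK0]
    linarith

private lemma mid {F : ℝ → ℝ} (hF : Continuous F) (h0 : ∀ t, 0 ≤ F t) {K : ℝ}
    (hK : ∀ t0 : ℝ, ∫ t in t0..(t0 + 1), F t ≤ K) (n : ℕ) :
    ∫ t in (-(n : ℝ))..(n : ℝ), F t / (4 + t ^ 2) ≤ 4 * K := by
  have hK0 : 0 ≤ K := le_trans (intervalIntegral.integral_nonneg (by linarith) fun t _ => h0 t) (hK 0)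
  have hneg : ∀ t0 : ℝ, ∫ t in t0..(t0 + 1), F (-t) ≤ K := by
    intro t0
    rw [intervalIntegral.integral_comp_neg]
    have := hK (-(t0 + 1))
    rw [show -(t0 + 1) + 1 = -t0 by ring] at this
    exact this
  have h1 := tele hF h0 hK 0 n (Nat.zero_le n)
  have h2 := tele (F := fun t => F (-t)) (hF.comp continuous_neg) (fun t => h0 _) hneg 0 n (Nat.zero_le n)
  have h3 : ∫ t in ((0 : ℕ) : ℝ)..(n : ℝ), F (-t) / (4 + t ^ 2) =
      ∫ t in (-(n : ℝ))..0, F t / (4 + t ^ 2) := by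
    have := intervalIntegral.integral_comp_neg (a := ((0 : ℕ) : ℝ)) (b := (n : ℝ))
      (fun t => F t / (4 + t ^ 2))
    simp only [even_two, Even.neg_pow, Nat.cast_zero, neg_zero] at this
    rw [← this, Nat.cast_zero]
  rw [h3] at h2
  rw [← intervalIntegral.integral_add_adjacent_intervals (w_int F hF (-(n : ℝ)) 0)
      (w_int F hF 0 n)]
  have h4 : 2 * K * (1 / (((0 : ℕ) : ℝ) + 1) - 1 / ((n : ℝ) + 1)) ≤ 2 * K := by
    have : (0 : ℝ) ≤ 1 / ((n : ℝ) + 1) := by positivity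
    have h5 : 1 / (((0 : ℕ) : ℝ) + 1) - 1 / ((n : ℝ) + 1) ≤ 1 := by
      simp only [Nat.cast_zero, zero_add, div_one]
      linarith
    nlinarith
  simp only [Nat.cast_zero] at h1 h4
  simp only [Nat.cast_zero] at h2
  linarith

private lemma w_intg : Integrable (fun t : ℝ => 1 / (4 + t ^ 2)) := by
  refine integrable_inv_one_add_sq.mono' ?_ ?_
  · exact (Continuous.div continuous_const (by fun_prop) (fun t => by positivity)).aestronglyMeasurable
  · refine Filter.Eventually.of_forall fun t => ?_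
    rw [Real.norm_eq_abs, abs_of_nonneg (by positivity), one_div]
    exact inv_anti₀ (by positivity) (by linarith)

private lemma D_intg {F : ℝ → ℝ} (hF : Continuous F) {B : ℝ} (hB : ∀ t, |F t| ≤ B) :
    Integrable (fun t : ℝ => F t / (4 + t ^ 2)) := by
  refine (w_intg.const_mul B).mono' ?_ ?_
  · exact (hF.div (by fun_prop) (fun t => by positivity)).aestronglyMeasurable
  · refine Filter.Eventually.of_forall fun t => ?_
    rw [Real.norm_eq_abs, abs_div, abs_of_nonneg (by positivity : (0 : ℝ) ≤ 4 + t ^ 2), mul_one_div]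
    exact div_le_div_of_nonneg_right (hB t) (by positivity)

private lemma tail {F : ℝ → ℝ} (hF : Continuous F) (h0 : ∀ t, 0 ≤ F t) {K B : ℝ}
    (hB : ∀ t, |F t| ≤ B) (hK : ∀ t0 : ℝ, ∫ t in t0..(t0 + 1), F t ≤ K) (T : ℝ) (hT : 1 ≤ T) :
    ∫ t in Set.Ioi T, F t / (4 + t ^ 2) ≤ 2 * K / T := by
  have hK0 : 0 ≤ K := le_trans (intervalIntegral.integral_nonneg (by linarith) fun t _ => h0 t) (hK 0)
  have hi := D_intg hF hB
  have hT0 : 0 < T := by linarith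
  set k := ⌊T⌋₊ with hk
  have hk1 : (k : ℝ) ≤ T := Nat.floor_le hT0.le
  have hk2 : T < (k : ℝ) + 1 := Nat.lt_floor_add_one T
  have h1 : ∫ t in Set.Ioi T, F t / (4 + t ^ 2) ≤ ∫ t in Set.Ioi (k : ℝ), F t / (4 + t ^ 2) := by
    refine setIntegral_mono_set hi.integrableOn ?_ ?_
    · exact Filter.Eventually.of_forall fun t => div_nonneg (h0 t) (by positivity)
    · exact (Set.Ioi_subset_Ioi hk1).eventuallyLE
  refine h1.trans ?_
  have h2 := intervalIntegral_tendsto_integral_Ioi (k : ℝ) (hi.integrableOn (s := Set.Ioi (k : ℝ)))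
    (tendsto_natCast_atTop_atTop (R := ℝ))
  refine le_of_tendsto h2 ?_
  filter_upwards [Filter.eventually_ge_atTop k] with n hn
  refine (tele hF h0 hK k n hn).trans ?_
  have h3 : (0 : ℝ) ≤ 1 / ((n : ℝ) + 1) := by positivity
  have h4 : 1 / ((k : ℝ) + 1) ≤ 1 / T := one_div_le_one_div_of_le hT0 hk2.le
  have h5 : 2 * K * (1 / ((k : ℝ) + 1) - 1 / ((n : ℝ) + 1)) ≤ 2 * K * (1 / T) :=
    mul_le_mul_of_nonneg_left (by linarith) (by linarith)
  rw [mul_one_div] at h5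
  exact h5

theorem halB : ∃ C : ℝ, 0 < C ∧ ∀ g : GaussianInt → ℂ, CM g → ∀ u T κ : ℝ, 1 ≤ u → 1 ≤ T → 0 ≤ κ →
    (∀ t : ℝ, |t| ≤ T → ‖Gs (tw g t) (1 / u)‖ ≤ κ * u) →
    ∫ v in (0 : ℝ)..u, ‖SL g v‖ ^ 2 * Real.exp (-(4 * v)) ≤ C * (κ ^ 2 * u ^ 3 + u ^ 3 / T) := by
  obtain ⟨C₀, hC₀, hlap⟩ := lapl_sq
  obtain ⟨C₁, hC₁, hmL⟩ := mv_L
  obtain ⟨C₂, hC₂, hmD⟩ := mv_D
  refine ⟨C₀ * (4 * C₁ + 4 * C₂), by positivity, ?_⟩
  intro g hg u T κ hu hT hκ hG
  have hu0 : 0 < u := by linarith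
  have hT0 : 0 < T := by linarith
  have hσ : (0 : ℝ) < 1 / u := by positivity
  have hσ1 : 1 / u ≤ 1 := by rw [div_le_one hu0]; exact hu
  refine (hlap g hg.le u hu).trans ?_
  rw [mul_assoc]
  refine mul_le_mul_of_nonneg_left ?_ hC₀.le
  set D : ℝ → ℝ := fun t => ‖Ds (tw g t) (1 / u)‖ ^ 2 with hD
  set L : ℝ → ℝ := fun t => ‖Lm (tw g t) (1 / u)‖ ^ 2 with hL
  have hDc : Continuous D := (cont_Ds hg.le hσ).norm.pow 2
  have hLc : Continuous L := (cont_Lm hg.le hσ).norm.pow 2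
  have hD0 : ∀ t, 0 ≤ D t := fun t => sq_nonneg _
  have hL0 : ∀ t, 0 ≤ L t := fun t => sq_nonneg _
  obtain ⟨B, hB⟩ := bdd_Ds hg.le hσ
  have hDB : ∀ t, |D t| ≤ B ^ 2 := by
    intro t
    rw [abs_of_nonneg (hD0 t)]
    exact pow_le_pow_left₀ (norm_nonneg _) (hB t) 2
  have hKD : ∀ t0 : ℝ, ∫ t in t0..(t0 + 1), D t ≤ C₂ * u ^ 3 := by
    intro t0
    refine (hmD g hg.le (1 / u) t0 hσ hσ1).trans (le_of_eq ?_)
    field_simp
  have hKL : ∀ t0 : ℝ, ∫ t in t0..(t0 + 1), L t ≤ C₁ * u := by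
    intro t0
    refine (hmL g hg.le (1 / u) t0 hσ hσ1).trans (le_of_eq ?_)
    field_simp
  have hi := D_intg hDc hDB
  -- the identity `Ds = Gs Lm`
  have hDL : ∀ t, |t| ≤ T → D t ≤ κ ^ 2 * u ^ 2 * L t := by
    intro t ht
    have hcm : CM (tw g t) := hg.mul_ch (-t) (dvd_zero 4)
    simp only [hD, hL]
    rw [log_id hcm hσ, norm_mul, mul_pow]
    refine mul_le_mul_of_nonneg_right ?_ (sq_nonneg _)
    rw [← mul_pow]
    exact pow_le_pow_left₀ (norm_nonneg _) (hG t ht) 2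
  have hneg : ∀ t0 : ℝ, ∫ t in t0..(t0 + 1), D (-t) ≤ C₂ * u ^ 3 := by
    intro t0
    rw [intervalIntegral.integral_comp_neg]
    have := hKD (-(t0 + 1))
    rw [show -(t0 + 1) + 1 = -t0 by ring] at this
    exact this
  -- decomposition of the line
  have hsplit : ∫ t, D t / (4 + t ^ 2) = (∫ t in Set.Iic (-T), D t / (4 + t ^ 2)) +
      ((∫ t in (-T)..T, D t / (4 + t ^ 2)) + ∫ t in Set.Ioi T, D t / (4 + t ^ 2)) := by
    rw [intervalIntegral.integral_interval_add_Ioi' (hi.intervalIntegrable) hi.integrableOn,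
      intervalIntegral.integral_Iic_add_Ioi hi.integrableOn hi.integrableOn]
  rw [hsplit]
  have h1 : ∫ t in Set.Ioi T, D t / (4 + t ^ 2) ≤ 2 * (C₂ * u ^ 3) / T := tail hDc hD0 hDB hKD T hT
  have h2 : ∫ t in Set.Iic (-T), D t / (4 + t ^ 2) ≤ 2 * (C₂ * u ^ 3) / T := by
    rw [← integral_comp_neg_Ioi]
    simp only [even_two, Even.neg_pow]
    exact tail (F := fun t => D (-t)) (hDc.comp continuous_neg) (fun t => hD0 _)
      (fun t => hDB _) hneg T hT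
  have h3 : ∫ t in (-T)..T, D t / (4 + t ^ 2) ≤ κ ^ 2 * u ^ 2 * (4 * (C₁ * u)) := by
    have h4 : ∫ t in (-T)..T, D t / (4 + t ^ 2) ≤
        ∫ t in (-T)..T, κ ^ 2 * u ^ 2 * (L t / (4 + t ^ 2)) := by
      refine intervalIntegral.integral_mono_on (by linarith) (w_int D hDc _ _)
        ((w_int L hLc _ _).const_mul _) fun t ht => ?_
      rw [← mul_div_assoc]
      exact div_le_div_of_nonneg_right (hDL t (abs_le.mpr ⟨ht.1, ht.2⟩)) (by positivity)
    refine h4.trans ?_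
    rw [intervalIntegral.integral_const_mul]
    refine mul_le_mul_of_nonneg_left ?_ (by positivity)
    refine le_trans ?_ (mid hLc hL0 hKL ⌈T⌉₊)
    have hTn : T ≤ (⌈T⌉₊ : ℝ) := Nat.le_ceil T
    refine intervalIntegral.integral_mono_interval (by linarith) (by linarith) hTn ?_ (w_int L hLc _ _)
    exact Filter.Eventually.of_forall fun t => div_nonneg (hL0 t) (by positivity)
  have h5 : (4 * C₁ + 4 * C₂) * (κ ^ 2 * u ^ 3 + u ^ 3 / T) =
      (κ ^ 2 * u ^ 2 * (4 * (C₁ * u)) + (2 * (C₂ * u ^ 3) / T + 2 * (C₂ * u ^ 3) / T)) +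
        (4 * C₂ * (κ ^ 2 * u ^ 3) + 4 * C₁ * (u ^ 3 / T)) := by ring
  rw [h5]
  have h6 : 0 ≤ 4 * C₂ * (κ ^ 2 * u ^ 3) + 4 * C₁ * (u ^ 3 / T) := by positivity
  linarith

end Pool.Agent.MRG
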