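import Pool.Agent.MRG.HalA
import Pool.Agent.MRG.HalB
import Pool.Agent.MRG.Mert

/-!
# Module Halasz: a qualitative form of Halász's theorem

By `eulD_le` for `tw g t` (`CM` by `CM.mul_ch`, `k = 0`) the hypothesis gives `‖Gs (tw g t) (1/u)‖ ≤ κ u`, `κ = C e^(-Δ/3)`, `|t| ≤ T`.  `halB`:
`∫_0^u ‖SL g v‖² e^(-4v) ≤ C (κ² + 1/T) u³`.  With `a(v) = ‖SS g v‖ e^(-2v) ≤ 9` and `hal_sl`: `(v a(v))² ≤ 2 ‖SL g v‖² e^(-4v) + 2 C²`, so for `0 < θ < 1`
`(1/u) ∫_0^u a² ≤ 81 θ + (1/u)(θu)^(-2) ∫_0^u (v a)² ≤ 81 θ + (C/θ²)(κ² + 1/T + 1/u²)`.  Given `ε` choose `θ`, then `Δ`, `T`, `U0`, and use `hal_A`.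
-/

set_option autoImplicit false

open MeasureTheory

namespace Pool.Agent.MRG

open Pool.Agent.GaussPret

namespace HalaszAux

theorem SS_le {g : GaussianInt → ℂ} (hg : ∀ n, n ≠ 0 → ‖g n‖ ≤ 1) (v : ℝ) :
    ‖SS g v‖ * Real.exp (-(2 * v)) ≤ 9 := by
  have h1 : ‖SS g v‖ ≤ 9 * Real.exp v ^ 2 := by
    refine (norm_sum_le _ _).trans (le_trans ?_ (card_ball_le' _))
    calc ∑ n ∈ ball (Real.exp v), ‖g n‖ ≤ ∑ _n ∈ ball (Real.exp v), (1 : ℝ) :=
          Finset.sum_le_sum fun n hn => hg n (mem_ball'.mp hn).1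
      _ = _ := by simp
  have h2 : Real.exp v ^ 2 * Real.exp (-(2 * v)) = 1 := by
    rw [← Real.exp_nat_mul, ← Real.exp_add]
    norm_num
  calc ‖SS g v‖ * Real.exp (-(2 * v)) ≤ 9 * Real.exp v ^ 2 * Real.exp (-(2 * v)) :=
        mul_le_mul_of_nonneg_right h1 (Real.exp_pos _).le
    _ = 9 := by rw [mul_assoc, h2, mul_one]

/-- pointwise: `(v a)² ≤ 2 ‖SL‖² e^(-4v) + 2 C²` -/
theorem point {g : GaussianInt → ℂ} {C v : ℝ} (hC : 0 < C) (hv : 0 ≤ v)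
    (h : v * ‖SS g v‖ ≤ ‖SL g v‖ + C * Real.exp (2 * v)) :
    v ^ 2 * (‖SS g v‖ * Real.exp (-(2 * v))) ^ 2 ≤
      2 * (‖SL g v‖ ^ 2 * Real.exp (-(4 * v))) + 2 * C ^ 2 := by
  have e1 : Real.exp (2 * v) * Real.exp (-(2 * v)) = 1 := by
    rw [← Real.exp_add]
    norm_num
  have e2 : Real.exp (-(4 * v)) = Real.exp (-(2 * v)) ^ 2 := by
    rw [← Real.exp_nat_mul]
    congr 1
    push_cast
    ring
  have hp := Real.exp_pos (-(2 * v))
  have h1 : v * (‖SS g v‖ * Real.exp (-(2 * v))) ≤ ‖SL g v‖ * Real.exp (-(2 * v)) + C := by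
    calc v * (‖SS g v‖ * Real.exp (-(2 * v))) = (v * ‖SS g v‖) * Real.exp (-(2 * v)) := by ring
      _ ≤ (‖SL g v‖ + C * Real.exp (2 * v)) * Real.exp (-(2 * v)) :=
        mul_le_mul_of_nonneg_right h hp.le
      _ = ‖SL g v‖ * Real.exp (-(2 * v)) + C * (Real.exp (2 * v) * Real.exp (-(2 * v))) := by ring
      _ = _ := by rw [e1, mul_one]
  have h0 : 0 ≤ v * (‖SS g v‖ * Real.exp (-(2 * v))) := by positivity
  have h2 := pow_le_pow_left₀ h0 h1 2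
  rw [mul_pow] at h2
  refine h2.trans ?_
  rw [e2]
  nlinarith [sq_nonneg (‖SL g v‖ * Real.exp (-(2 * v)) - C)]

end HalaszAux

open HalaszAux in
theorem halasz (ε : ℝ) (hε : 0 < ε) : ∃ Δ T U0 : ℝ, ∀ g : GaussianInt → ℂ, CM g → ∀ u : ℝ, U0 ≤ u →
    (∀ t : ℝ, |t| ≤ T → Δ ≤ ∑ p ∈ pr 1 (Real.exp u), (1 - (tw g t p).re) / ab p ^ 2) →
    ‖SS g u‖ ≤ ε * Real.exp (2 * u) := by
  obtain ⟨CA, hCA, hA⟩ := hal_A
  obtain ⟨CS, hCS, hS⟩ := hal_sl
  obtain ⟨CB, hCB, hB⟩ := halB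
  obtain ⟨CE, hCE, hE⟩ := eulD_le
  obtain ⟨δ, hδ⟩ : ∃ δ : ℝ, δ = (ε / (2 * CA)) ^ 3 := ⟨_, rfl⟩
  have hδ0 : 0 < δ := by rw [hδ]; positivity
  obtain ⟨θ, hθ⟩ : ∃ θ : ℝ, θ = min (1 / 2) (δ / 162) := ⟨_, rfl⟩
  have hθ0 : 0 < θ := by rw [hθ]; exact lt_min (by norm_num) (by positivity)
  have hθ1 : θ ≤ 1 / 2 := by rw [hθ]; exact min_le_left _ _
  have hθδ : 81 * θ ≤ δ / 2 := by
    have : θ ≤ δ / 162 := by rw [hθ]; exact min_le_right _ _
    linarith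
  obtain ⟨η, hη⟩ : ∃ η : ℝ, η = δ * θ ^ 2 / (16 * CB) := ⟨_, rfl⟩
  have hη0 : 0 < η := by rw [hη]; positivity
  obtain ⟨T, hT⟩ : ∃ T : ℝ, T = max 1 (1 / η) := ⟨_, rfl⟩
  have hT1 : 1 ≤ T := by rw [hT]; exact le_max_left _ _
  have hTη : 1 / T ≤ η := by
    have h1 : 1 / η ≤ T := by rw [hT]; exact le_max_right _ _
    rw [div_le_iff₀ (by linarith)]
    rw [div_le_iff₀ hη0] at h1
    linarith
  obtain ⟨Δ, hΔ⟩ : ∃ Δ : ℝ, Δ = -(3 / 2) * Real.log (η / CE ^ 2) := ⟨_, rfl⟩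
  have hκ : (CE * Real.exp (-(1 / 3) * Δ)) ^ 2 = η := by
    rw [mul_pow, ← Real.exp_nat_mul, hΔ]
    have : ((2 : ℕ) : ℝ) * (-(1 / 3) * (-(3 / 2) * Real.log (η / CE ^ 2))) =
        Real.log (η / CE ^ 2) := by
      push_cast
      ring
    rw [this, Real.exp_log (by positivity)]
    field_simp
  refine ⟨Δ, T, max (max 1 (2 * CA / ε)) (16 * CS ^ 2 / (θ ^ 2 * δ)), ?_⟩
  intro g hg u hu hyp
  have hu1 : 1 ≤ u := (le_max_left _ _).trans ((le_max_left _ _).trans hu)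
  have hu2 : 2 * CA / ε ≤ u := (le_max_right _ _).trans ((le_max_left _ _).trans hu)
  have hu3 : 16 * CS ^ 2 / (θ ^ 2 * δ) ≤ u := (le_max_right _ _).trans hu
  have hu0 : 0 < u := by linarith
  have hb : ∀ n, n ≠ 0 → ‖g n‖ ≤ 1 := hg.le
  -- the Dirichlet series
  have hG : ∀ t : ℝ, |t| ≤ T → ‖Gs (tw g t) (1 / u)‖ ≤ (CE * Real.exp (-(1 / 3) * Δ)) * u := by
    intro t ht
    have hcm : CM (tw g t) := hg.mul_ch (-t) (dvd_zero 4)
    refine (hE _ hcm u hu1).trans ?_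
    have h1 := hyp t ht
    have h2 : Real.exp (-(1 / 3) * ∑ p ∈ pr 1 (Real.exp u), (1 - (tw g t p).re) / ab p ^ 2) ≤
        Real.exp (-(1 / 3) * Δ) := Real.exp_le_exp.mpr (by linarith)
    calc _ ≤ CE * u * Real.exp (-(1 / 3) * Δ) := mul_le_mul_of_nonneg_left h2 (by positivity)
      _ = _ := by ring
  have hI := hB g hg u T _ hu1 hT1 (by positivity) hG
  rw [hκ] at hI
  obtain ⟨J, hJ⟩ : ∃ J, J = ∫ v in (0 : ℝ)..u, ‖SL g v‖ ^ 2 * Real.exp (-(4 * v)) := ⟨_, rfl⟩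
  rw [← hJ] at hI
  have hI2 : J ≤ δ * θ ^ 2 / 8 * u ^ 3 := by
    refine hI.trans ?_
    have h1 : η * u ^ 3 + u ^ 3 / T ≤ 2 * η * u ^ 3 := by
      have : u ^ 3 / T ≤ η * u ^ 3 := by
        rw [div_eq_mul_one_div, mul_comm]
        exact mul_le_mul_of_nonneg_right hTη (by positivity)
      linarith
    refine (mul_le_mul_of_nonneg_left h1 hCB.le).trans (le_of_eq ?_)
    rw [hη]
    field_simp
    ring
  -- the mean square of `a`
  have hθu : 0 < θ * u := by positivity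
  have hθu1 : θ * u ≤ u := mul_le_of_le_one_left hu0.le (by linarith)
  have m1 := hal_meas g 0 (θ * u)
  have m2 := hal_meas g (θ * u) u
  have p1 : ∫ v in (0 : ℝ)..(θ * u), (‖SS g v‖ * Real.exp (-(2 * v))) ^ 2 ≤ 81 * (θ * u) := by
    have h1 : ∫ v in (0 : ℝ)..(θ * u), (‖SS g v‖ * Real.exp (-(2 * v))) ^ 2 ≤
        ∫ _v in (0 : ℝ)..(θ * u), (81 : ℝ) := by
      apply intervalIntegral.integral_mono_on hθu.le m1 intervalIntegrable_const
      intro v _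
      have h2 := SS_le hb v
      have h3 : 0 ≤ ‖SS g v‖ * Real.exp (-(2 * v)) := by positivity
      nlinarith
    rw [intervalIntegral.integral_const] at h1
    simpa [mul_comm] using h1
  have m3 := hal_meas' g (θ * u) u
  have p2 : ∫ v in (θ * u)..u, (‖SS g v‖ * Real.exp (-(2 * v))) ^ 2 ≤
      ((θ * u) ^ 2)⁻¹ * (2 * J + 2 * CS ^ 2 * u) := by
    have h1 : ∫ v in (θ * u)..u, (‖SS g v‖ * Real.exp (-(2 * v))) ^ 2 ≤
        ∫ v in (θ * u)..u, ((θ * u) ^ 2)⁻¹ *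
          (2 * (‖SL g v‖ ^ 2 * Real.exp (-(4 * v))) + 2 * CS ^ 2) := by
      apply intervalIntegral.integral_mono_on hθu1 m2
      · exact ((m3.const_mul 2).add intervalIntegrable_const).const_mul _
      intro v hv
      have hv0 : 0 < v := hθu.trans_le hv.1
      have h2 := point hCS hv0.le (hS g hb v hv0.le)
      rw [← div_eq_inv_mul, le_div_iff₀ (by positivity)]
      refine le_trans ?_ h2
      rw [mul_comm]
      apply mul_le_mul_of_nonneg_right _ (by positivity)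
      exact pow_le_pow_left₀ hθu.le hv.1 2
    refine h1.trans ?_
    rw [intervalIntegral.integral_const_mul]
    apply mul_le_mul_of_nonneg_left _ (by positivity)
    rw [intervalIntegral.integral_add (m3.const_mul 2) intervalIntegrable_const,
      intervalIntegral.integral_const_mul, intervalIntegral.integral_const]
    have h3 : ∫ v in (θ * u)..u, ‖SL g v‖ ^ 2 * Real.exp (-(4 * v)) ≤ J := by
      rw [hJ]
      apply intervalIntegral.integral_mono_interval hθu.le hθu1 le_rfl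
      · exact Filter.Eventually.of_forall fun v => by positivity
      · exact hal_meas' g 0 u
    have h4 : (u - θ * u) • (2 * CS ^ 2) ≤ 2 * CS ^ 2 * u := by
      rw [smul_eq_mul, mul_comm]
      exact mul_le_mul_of_nonneg_left (by linarith) (by positivity)
    linarith
  have p3 : (1 / u) * ∫ v in (0 : ℝ)..u, (‖SS g v‖ * Real.exp (-(2 * v))) ^ 2 ≤ δ := by
    rw [← intervalIntegral.integral_add_adjacent_intervals m1 m2, one_div,
      ← div_eq_inv_mul, div_le_iff₀ hu0]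
    have h5 : ((θ * u) ^ 2)⁻¹ * (2 * J + 2 * CS ^ 2 * u) ≤ δ / 2 * u := by
      rw [← div_eq_inv_mul, div_le_iff₀ (by positivity)]
      have h6 : 16 * CS ^ 2 ≤ u * (θ ^ 2 * δ) := by
        rwa [div_le_iff₀ (by positivity)] at hu3
      have h7 : 16 * CS ^ 2 * u ≤ u ^ 3 * (θ ^ 2 * δ) := by
        calc 16 * CS ^ 2 * u ≤ u * (θ ^ 2 * δ) * u := mul_le_mul_of_nonneg_right h6 hu0.le
          _ = u ^ 2 * (θ ^ 2 * δ) * 1 := by ring
          _ ≤ u ^ 2 * (θ ^ 2 * δ) * u := mul_le_mul_of_nonneg_left hu1 (by positivity)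
          _ = _ := by ring
      have e1 : δ / 2 * u * (θ * u) ^ 2 = 1 / 2 * (u ^ 3 * (θ ^ 2 * δ)) := by ring
      rw [e1]
      have e2 : δ * θ ^ 2 / 8 * u ^ 3 = 1 / 8 * (u ^ 3 * (θ ^ 2 * δ)) := by ring
      rw [e2] at hI2
      have h8 : 0 < u ^ 3 * (θ ^ 2 * δ) := by positivity
      linarith
    have h9 : 81 * (θ * u) ≤ δ / 2 * u := by
      calc 81 * (θ * u) = 81 * θ * u := by ring
        _ ≤ _ := mul_le_mul_of_nonneg_right hθδ hu0.le
    linarith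
  have hfin := hA g hg u hu1
  have p4 : 0 ≤ (1 / u) * ∫ v in (0 : ℝ)..u, (‖SS g v‖ * Real.exp (-(2 * v))) ^ 2 := by
    apply mul_nonneg (by positivity)
    apply intervalIntegral.integral_nonneg hu0.le
    intro v _
    positivity
  have p5 : ((1 / u) * ∫ v in (0 : ℝ)..u, (‖SS g v‖ * Real.exp (-(2 * v))) ^ 2) ^ ((1 : ℝ) / 3) ≤
      ε / (2 * CA) := by
    refine (Real.rpow_le_rpow p4 p3 (by norm_num)).trans (le_of_eq ?_)
    rw [hδ, ← Real.rpow_natCast, ← Real.rpow_mul (by positivity)]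
    norm_num
  have p6 : CA / u ≤ ε / 2 := by
    rw [div_le_iff₀ hu0]
    rw [div_le_iff₀ hε] at hu2
    linarith
  have p7 : ‖SS g u‖ * Real.exp (-(2 * u)) ≤ ε := by
    refine hfin.trans ?_
    have h1 := mul_le_mul_of_nonneg_left p5 hCA.le
    have h2 : CA * (ε / (2 * CA)) = ε / 2 := by field_simp
    rw [h2] at h1
    linarith
  have e3 : Real.exp (-(2 * u)) * Real.exp (2 * u) = 1 := by
    rw [← Real.exp_add]
    norm_num
  calc ‖SS g u‖ = ‖SS g u‖ * Real.exp (-(2 * u)) * Real.exp (2 * u) := by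
        rw [mul_assoc, e3, mul_one]
    _ ≤ _ := mul_le_mul_of_nonneg_right p7 (Real.exp_pos _).le

end Pool.Agent.MRG
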