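import Mathlib
import Pool.Agent.MRZ.Fejer

/-!
# Module Jack: the Jackson kernel on a grid

`F(t) = (1/m) |∑_{0 ≤ j < m} e^(ijt)|² = ∑_{|j| < m} (1 - |j|/m) e^(ijt)`, `F(t)² = ∑_{|j| ≤ 2m-2} B_j e^(ijt)`, `B_j = ∑_i (1-|i|/m)₊ (1-|j-i|/m)₊ ≥ 0`, `B_{-j} = B_j`,
`B_j ≤ B_0` (Cauchy–Schwarz), `B_0 = (2m²+1)/(3m) ≥ 2m/3`.  `jk m j = B_j/B_0`, `JK m t = ∑ jk m j cos (j t) = F(t)²/B_0`.
* `jk_avg`: the average over the grid `x - 2πa/L`, `a < L`, kills all frequencies `0 < |j| < L`.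
* `jk_second`: `|∑_{j<m} e^(ijt)|² sin² (t/2) = sin² (mt/2)`, so `F sin²(t/2) ≤ 1/m`, `F² sin² (t/2) ≤ F/m`, the average of `F` is `1`; so the average is
  `≤ (1/m)/B_0 ≤ 2/m²`.
-/

set_option autoImplicit false

namespace Pool.Agent.MRG

/-- coefficients of the square of the Fejér kernel -/
noncomputable def jB (m : ℕ) (j : ℤ) : ℝ :=
  ∑ i ∈ Finset.Ioo (-(m : ℤ)) m, (1 - |(i : ℝ)| / m) * max 0 (1 - |((j - i : ℤ) : ℝ)| / m)

/-- normalised coefficients -/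
noncomputable def jk (m : ℕ) (j : ℤ) : ℝ := jB m j / jB m 0

/-- the Jackson kernel -/
noncomputable def JK (m : ℕ) (t : ℝ) : ℝ :=
  ∑ j ∈ Finset.Ioo (-(2 * m : ℤ)) (2 * m), jk m j * Real.cos (j * t)

namespace JackAux

open Finset

/-- the triangle function -/
noncomputable def w (m : ℕ) (i : ℤ) : ℝ := max 0 (1 - |(i : ℝ)| / m)

/-- the exponential -/
noncomputable def ec (j : ℤ) (t : ℝ) : ℂ := Complex.exp (((j * t : ℝ) : ℂ) * Complex.I)

theorem ec_add (i l : ℤ) (t : ℝ) : ec (i + l) t = ec i t * ec l t := by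
  unfold ec
  rw [← Complex.exp_add]
  congr 1
  push_cast
  ring

theorem ec_re (j : ℤ) (t : ℝ) : (ec j t).re = Real.cos (j * t) := Complex.exp_ofReal_mul_I_re _

theorem ec_im (j : ℤ) (t : ℝ) : (ec j t).im = Real.sin (j * t) := Complex.exp_ofReal_mul_I_im _

theorem w_nonneg (m : ℕ) (i : ℤ) : 0 ≤ w m i := le_max_left _ _

theorem w_neg (m : ℕ) (i : ℤ) : w m (-i) = w m i := by
  unfold w
  push_cast
  rw [abs_neg]

theorem w_mem {m : ℕ} {i : ℤ} (hi : i ∈ Ioo (-(m : ℤ)) m) : w m i = 1 - |(i : ℝ)| / m := by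
  rw [mem_Ioo] at hi
  have hm : (0 : ℝ) < m := by
    have : (0 : ℤ) < m := by omega
    exact_mod_cast this
  refine max_eq_right ?_
  have h1 : |(i : ℝ)| ≤ m := by
    have : |i| ≤ (m : ℤ) := by rw [abs_le]; omega
    exact_mod_cast this
  have h2 : |(i : ℝ)| / m ≤ 1 := by rwa [div_le_one hm]
  linarith

theorem w_not_mem {m : ℕ} (hm : 1 ≤ m) {i : ℤ} (hi : i ∉ Ioo (-(m : ℤ)) m) : w m i = 0 := by
  have hm : (0 : ℝ) < m := by exact_mod_cast hm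
  refine max_eq_left ?_
  have h1 : (m : ℝ) ≤ |(i : ℝ)| := by
    have h2 : (m : ℤ) ≤ |i| := by
      rw [mem_Ioo] at hi
      rw [le_abs]
      omega
    exact_mod_cast h2
  have h2 : 1 ≤ |(i : ℝ)| / m := by rwa [one_le_div hm]
  linarith

theorem jB_eq (m : ℕ) (j : ℤ) : jB m j = ∑ i ∈ Ioo (-(m : ℤ)) m, w m i * w m (j - i) := by
  unfold jB
  refine sum_congr rfl fun i hi => ?_
  rw [w_mem hi]
  rfl

theorem jB_zero (m : ℕ) : jB m 0 = ∑ i ∈ Ioo (-(m : ℤ)) m, w m i ^ 2 := by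
  rw [jB_eq]
  refine sum_congr rfl fun i _ => ?_
  rw [zero_sub, w_neg]
  ring

theorem jB_nonneg (m : ℕ) (j : ℤ) : 0 ≤ jB m j := by
  rw [jB_eq]
  exact sum_nonneg fun i _ => mul_nonneg (w_nonneg _ _) (w_nonneg _ _)

theorem sum_sq_shift {m : ℕ} (hm : 1 ≤ m) (j : ℤ) :
    ∑ i ∈ Ioo (-(m : ℤ)) m, w m (j - i) ^ 2 ≤ jB m 0 := by
  rw [jB_zero]
  have h1 : ∑ i ∈ Ioo (-(m : ℤ)) m, w m (j - i) ^ 2 =
      ∑ i ∈ (Ioo (-(m : ℤ)) m).image (fun i => j - i), w m i ^ 2 := by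
    rw [sum_image]
    intro a _ b _ h
    have h2 : j - a = j - b := h
    omega
  rw [h1, ← sum_filter_add_sum_filter_not ((Ioo (-(m : ℤ)) m).image (fun i => j - i))
    (fun i => i ∈ Ioo (-(m : ℤ)) m)]
  have h3 : ∑ i ∈ ((Ioo (-(m : ℤ)) m).image (fun i => j - i)).filter
      (fun i => ¬ i ∈ Ioo (-(m : ℤ)) m), w m i ^ 2 = 0 := by
    refine sum_eq_zero fun i hi => ?_
    rw [w_not_mem hm (mem_filter.1 hi).2]
    ring
  rw [h3, add_zero]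
  refine sum_le_sum_of_subset_of_nonneg ?_ fun i _ _ => sq_nonneg _
  intro i hi
  exact (mem_filter.1 hi).2

theorem jB_le {m : ℕ} (hm : 1 ≤ m) (j : ℤ) : jB m j ≤ jB m 0 := by
  have h1 := sum_sq_shift hm j
  have h2 : jB m j ≤ ∑ i ∈ Ioo (-(m : ℤ)) m, (w m i ^ 2 + w m (j - i) ^ 2) / 2 := by
    rw [jB_eq]
    refine sum_le_sum fun i _ => ?_
    nlinarith [sq_nonneg (w m i - w m (j - i))]
  rw [← sum_div, sum_add_distrib, ← jB_zero] at h2
  linarith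

theorem sum_w {m : ℕ} (hm : 1 ≤ m) : ∑ i ∈ Ioo (-(m : ℤ)) m, w m i = m := by
  have hm' : (0 : ℝ) < m := by exact_mod_cast hm
  have h1 := Pool.MRZ.FejA.mul_fej m 0
  have h2 : Pool.MRZ.fej m 0 = ∑ i ∈ Ioo (-(m : ℤ)) m, w m i := by
    unfold Pool.MRZ.fej
    refine sum_congr rfl fun i hi => ?_
    rw [w_mem hi, mul_zero, Real.cos_zero, mul_one]
  have h3 : Pool.MRZ.FejA.cs m 0 = m := by
    unfold Pool.MRZ.FejA.cs
    simp
  have h4 : Pool.MRZ.FejA.sn m 0 = 0 := by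
    unfold Pool.MRZ.FejA.sn
    simp
  rw [h2, h3, h4] at h1
  have h5 : (m : ℝ) * ∑ i ∈ Ioo (-(m : ℤ)) m, w m i = m * m := by rw [h1]; ring
  exact mul_left_cancel₀ hm'.ne' h5

theorem half_le {m : ℕ} (hm : 1 ≤ m) : (m : ℝ) / 2 ≤ jB m 0 := by
  have hm' : (0 : ℝ) < m := by exact_mod_cast hm
  have h1 := sq_sum_le_card_mul_sum_sq (s := Ioo (-(m : ℤ)) m) (f := w m)
  rw [sum_w hm, ← jB_zero, Int.card_Ioo] at h1
  have h2 : (((m : ℤ) - (-(m : ℤ)) - 1).toNat : ℝ) ≤ 2 * m := by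
    have h3 : ((m : ℤ) - (-(m : ℤ)) - 1).toNat ≤ 2 * m := by omega
    exact_mod_cast h3
  have h3 : (m : ℝ) ^ 2 ≤ 2 * m * jB m 0 :=
    h1.trans (mul_le_mul_of_nonneg_right h2 (jB_nonneg _ _))
  have h4 : (m : ℝ) * (m / 2) ≤ m * jB m 0 := by nlinarith
  exact le_of_mul_le_mul_left h4 hm'

theorem jB_zero_pos {m : ℕ} (hm : 1 ≤ m) : 0 < jB m 0 := by
  have hm' : (0 : ℝ) < m := by exact_mod_cast hm
  have := half_le hm
  linarith

theorem shift {m : ℕ} (hm : 1 ≤ m) {i : ℤ} (hi : i ∈ Ioo (-(m : ℤ)) m) (G : ℤ → ℂ) :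
    ∑ l ∈ Ioo (-(m : ℤ)) m, (w m l : ℂ) * G (i + l) =
      ∑ j ∈ Ioo (-(2 * m : ℤ)) (2 * m), (w m (j - i) : ℂ) * G j := by
  have h1 : ∑ l ∈ Ioo (-(m : ℤ)) m, (w m l : ℂ) * G (i + l) =
      ∑ j ∈ (Ioo (-(m : ℤ)) m).map (addLeftEmbedding i), (w m (j - i) : ℂ) * G j := by
    rw [sum_map]
    refine sum_congr rfl fun l _ => ?_
    simp
  rw [h1]
  refine sum_subset ?_ ?_
  · intro j hj
    rw [mem_map] at hj
    obtain ⟨l, hl, rfl⟩ := hj
    rw [mem_Ioo] at *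
    show _ < i + l ∧ i + l < _
    omega
  · intro j _ hj2
    have h2 : j - i ∉ Ioo (-(m : ℤ)) m := by
      intro h
      apply hj2
      rw [mem_map]
      refine ⟨j - i, h, ?_⟩
      show i + (j - i) = j
      ring
    rw [w_not_mem hm h2]
    simp

theorem fej_eq (m : ℕ) (t : ℝ) :
    ((Pool.MRZ.fej m t : ℝ) : ℂ) = ∑ i ∈ Ioo (-(m : ℤ)) m, (w m i : ℂ) * ec i t := by
  rw [Pool.MRZ.fej_eq_sum_exp]
  refine sum_congr rfl fun i hi => ?_
  rw [w_mem hi]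
  rfl

theorem conv {m : ℕ} (hm : 1 ≤ m) (t : ℝ) :
    ((Pool.MRZ.fej m t ^ 2 : ℝ) : ℂ) =
      ∑ j ∈ Ioo (-(2 * m : ℤ)) (2 * m), (jB m j : ℂ) * ec j t := by
  have h0 : ((Pool.MRZ.fej m t ^ 2 : ℝ) : ℂ) = ((Pool.MRZ.fej m t : ℝ) : ℂ) *
      ((Pool.MRZ.fej m t : ℝ) : ℂ) := by push_cast; ring
  rw [h0]
  nth_rewrite 1 [fej_eq]
  rw [fej_eq, sum_mul]
  have h1 : ∀ i ∈ Ioo (-(m : ℤ)) m, (w m i : ℂ) * ec i t *
      ∑ l ∈ Ioo (-(m : ℤ)) m, (w m l : ℂ) * ec l t =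
      ∑ j ∈ Ioo (-(2 * m : ℤ)) (2 * m), (w m i : ℂ) * ((w m (j - i) : ℂ) * ec j t) := by
    intro i hi
    rw [← mul_sum, ← shift hm hi (fun j => ec j t), mul_assoc, mul_sum]
    congr 1
    refine sum_congr rfl fun l _ => ?_
    rw [ec_add]
    ring
  rw [sum_congr rfl h1, sum_comm]
  refine sum_congr rfl fun j _ => ?_
  rw [jB_eq]
  push_cast
  rw [sum_mul]
  refine sum_congr rfl fun i _ => ?_
  ring

theorem jB_mul_JK {m : ℕ} (hm : 1 ≤ m) (t : ℝ) :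
    jB m 0 * JK m t = ∑ j ∈ Ioo (-(2 * m : ℤ)) (2 * m), jB m j * Real.cos (j * t) := by
  unfold JK jk
  rw [mul_sum]
  refine sum_congr rfl fun j _ => ?_
  have := (jB_zero_pos hm).ne'
  field_simp

theorem jB_mul_JK' {m : ℕ} (hm : 1 ≤ m) (t : ℝ) :
    jB m 0 * JK m t = Pool.MRZ.fej m t ^ 2 := by
  have h1 := congrArg Complex.re (conv hm t)
  rw [Complex.ofReal_re, Complex.re_sum] at h1
  rw [jB_mul_JK hm, h1]
  refine sum_congr rfl fun j _ => ?_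
  rw [Complex.re_ofReal_mul, ec_re]

theorem JK_sq {m : ℕ} (hm : 1 ≤ m) (t : ℝ) : JK m t = Pool.MRZ.fej m t ^ 2 / jB m 0 := by
  rw [eq_div_iff (jB_zero_pos hm).ne', mul_comm, jB_mul_JK' hm]

/-- the average over the grid kills the nonzero frequencies -/
theorem avg_ec {L : ℕ} {j : ℤ} (hj : j ≠ 0) (h1 : -(L : ℤ) < j) (h2 : j < L)
    (x : ℝ) : ∑ a ∈ range L, ec j (x - 2 * Real.pi * a / L) = 0 := by
  have hL : 0 < L := by omega
  have hL' : (L : ℂ) ≠ 0 := by exact_mod_cast hL.ne'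
  set ζ : ℂ := Complex.exp (-(2 * Real.pi * Complex.I * j / L)) with hζ
  have h3 : ∀ a : ℕ, ec j (x - 2 * Real.pi * a / L) = ec j x * ζ ^ a := by
    intro a
    rw [hζ, ← Complex.exp_nat_mul]
    unfold ec
    rw [← Complex.exp_add]
    congr 1
    push_cast
    ring
  have h4 : ζ ≠ 1 := by
    intro h
    rw [hζ, Complex.exp_eq_one_iff] at h
    obtain ⟨n, hn⟩ := h
    have h5 : (2 * Real.pi * Complex.I : ℂ) ≠ 0 := Complex.two_pi_I_ne_zero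
    have h6 : (-(j : ℂ)) = n * L := by
      have h7 : (2 * Real.pi * Complex.I : ℂ) * (-(j : ℂ)) = (2 * Real.pi * Complex.I : ℂ) * (n * L) := by
        calc (2 * Real.pi * Complex.I : ℂ) * (-(j : ℂ)) =
              (-(2 * Real.pi * Complex.I * j / L)) * L := by field_simp
          _ = n * (2 * Real.pi * Complex.I) * L := by rw [hn]
          _ = _ := by ring
      exact mul_left_cancel₀ h5 h7
    have h7 : -j = n * (L : ℤ) := by exact_mod_cast h6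
    rcases lt_trichotomy n 0 with hn0 | hn0 | hn0
    · nlinarith
    · rw [hn0] at h7
      omega
    · nlinarith
  have h5 : ζ ^ L = 1 := by
    rw [hζ, ← Complex.exp_nat_mul, Complex.exp_eq_one_iff]
    refine ⟨-j, ?_⟩
    push_cast
    field_simp
  rw [sum_congr rfl fun a _ => h3 a, ← mul_sum, geom_sum_eq h4, h5]
  simp

theorem avg_poly {M L : ℕ} (hM : 1 ≤ M) (hML : M ≤ L) (c : ℤ → ℂ) (x : ℝ) :
    (1 / (L : ℂ)) * ∑ a ∈ range L, ∑ j ∈ Ioo (-(M : ℤ)) M,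
      c j * ec j (x - 2 * Real.pi * a / L) = c 0 := by
  have hL : 0 < L := by omega
  have hL' : (L : ℂ) ≠ 0 := by exact_mod_cast hL.ne'
  rw [sum_comm, sum_eq_single (0 : ℤ)]
  · have h1 : ∀ a ∈ range L, c 0 * ec 0 (x - 2 * Real.pi * a / L) = c 0 := by
      intro a _
      unfold ec
      simp
    rw [sum_congr rfl h1, sum_const, card_range, nsmul_eq_mul]
    field_simp
  · intro j hj hj0
    rw [mem_Ioo] at hj
    rw [← mul_sum, avg_ec hj0 (by omega) (by omega), mul_zero]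
  · intro h
    exfalso
    apply h
    rw [mem_Ioo]
    omega

theorem avg_fej {m L : ℕ} (hm : 1 ≤ m) (hL : m ≤ L) (x : ℝ) :
    (1 / (L : ℝ)) * ∑ a ∈ range L, Pool.MRZ.fej m (x - 2 * Real.pi * a / L) = 1 := by
  have h1 := avg_poly hm hL (fun j => (w m j : ℂ)) x
  have h2 : (w m 0 : ℂ) = 1 := by
    unfold w
    simp
  have h3 : ((1 / (L : ℝ) * ∑ a ∈ range L, Pool.MRZ.fej m (x - 2 * Real.pi * a / L) : ℝ) : ℂ) = 1 := by
    rw [← h2]
    beta_reduce at h1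
    rw [← h1]
    push_cast
    congr 1
    refine sum_congr rfl fun a _ => ?_
    rw [fej_eq]
  exact_mod_cast h3

end JackAux

open JackAux

theorem jk_mem {m : ℕ} (hm : 1 ≤ m) (j : ℤ) : 0 ≤ jk m j ∧ jk m j ≤ 1 := by
  have h := jB_zero_pos hm
  exact ⟨div_nonneg (jB_nonneg _ _) h.le, (div_le_one h).2 (jB_le hm j)⟩

theorem JK_eq {m : ℕ} (hm : 1 ≤ m) (t : ℝ) :
    (JK m t : ℂ) = ∑ j ∈ Finset.Ioo (-(2 * m : ℤ)) (2 * m),
      (jk m j : ℂ) * Complex.exp (((j * t : ℝ) : ℂ) * Complex.I) := by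
  have h0 := (jB_zero_pos hm).ne'
  have h0' : (jB m 0 : ℂ) ≠ 0 := by exact_mod_cast h0
  have h1 : (jB m 0 : ℂ) * (JK m t : ℂ) = (jB m 0 : ℂ) *
      ∑ j ∈ Finset.Ioo (-(2 * m : ℤ)) (2 * m),
      (jk m j : ℂ) * Complex.exp (((j * t : ℝ) : ℂ) * Complex.I) := by
    rw [← Complex.ofReal_mul, jB_mul_JK' hm, conv hm, Finset.mul_sum]
    refine Finset.sum_congr rfl fun j _ => ?_
    unfold jk ec
    push_cast
    field_simp
  exact mul_left_cancel₀ h0' h1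

theorem JK_nonneg {m : ℕ} (hm : 1 ≤ m) (t : ℝ) : 0 ≤ JK m t := by
  rw [JK_sq hm]
  exact div_nonneg (sq_nonneg _) (jB_nonneg _ _)

theorem JK_avg {m L : ℕ} (hm : 1 ≤ m) (hL : 4 * m ≤ L) (x : ℝ) :
    (1 / (L : ℝ)) * ∑ a ∈ Finset.range L, JK m (x - 2 * Real.pi * a / L) = 1 := by
  have h1 := avg_poly (M := 2 * m) (L := L) (by omega) (by omega) (fun j => (jk m j : ℂ)) x
  have h2 : (jk m 0 : ℂ) = 1 := by
    unfold jk
    rw [div_self (jB_zero_pos hm).ne']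
    simp
  have h3 : ((1 / (L : ℝ) * ∑ a ∈ Finset.range L, JK m (x - 2 * Real.pi * a / L) : ℝ) : ℂ) = 1 := by
    rw [← h2]
    beta_reduce at h1
    rw [← h1]
    push_cast
    congr 1
    refine Finset.sum_congr rfl fun a _ => ?_
    rw [JK_eq hm]
    unfold ec
    push_cast
    rfl
  exact_mod_cast h3

theorem JK_second {m L : ℕ} (hm : 1 ≤ m) (hL : 4 * m ≤ L) (x : ℝ) :
    (1 / (L : ℝ)) * ∑ a ∈ Finset.range L, JK m (x - 2 * Real.pi * a / L) *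
      Real.sin ((x - 2 * Real.pi * a / L) / 2) ^ 2 ≤ 2 / (m : ℝ) ^ 2 := by
  have hm' : (0 : ℝ) < m := by exact_mod_cast hm
  have hB := jB_zero_pos hm
  have hhalf := half_le hm
  have h1 : ∀ a ∈ Finset.range L, JK m (x - 2 * Real.pi * a / L) *
      Real.sin ((x - 2 * Real.pi * a / L) / 2) ^ 2 ≤
      Pool.MRZ.fej m (x - 2 * Real.pi * a / L) * (1 / (m * jB m 0)) := by
    intro a _
    set θ := x - 2 * Real.pi * a / L
    have h2 := Pool.MRZ.FejA.sin_sq_mul m θ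
    rw [← Pool.MRZ.FejA.mul_fej] at h2
    have h3 := Pool.MRZ.fej_nonneg m θ
    rw [JK_sq hm]
    calc Pool.MRZ.fej m θ ^ 2 / jB m 0 * Real.sin (θ / 2) ^ 2 =
          Pool.MRZ.fej m θ / (m * jB m 0) * (Real.sin (θ / 2) ^ 2 * (m * Pool.MRZ.fej m θ)) := by
          field_simp
      _ ≤ Pool.MRZ.fej m θ / (m * jB m 0) * 1 :=
          mul_le_mul_of_nonneg_left h2 (by positivity)
      _ = _ := by ring
  calc (1 / (L : ℝ)) * ∑ a ∈ Finset.range L, JK m (x - 2 * Real.pi * a / L) *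
      Real.sin ((x - 2 * Real.pi * a / L) / 2) ^ 2
      ≤ (1 / (L : ℝ)) * ∑ a ∈ Finset.range L,
        Pool.MRZ.fej m (x - 2 * Real.pi * a / L) * (1 / (m * jB m 0)) :=
        mul_le_mul_of_nonneg_left (Finset.sum_le_sum h1) (by positivity)
    _ = ((1 / (L : ℝ)) * ∑ a ∈ Finset.range L,
        Pool.MRZ.fej m (x - 2 * Real.pi * a / L)) * (1 / (m * jB m 0)) := by
        rw [← Finset.sum_mul]
        ring
    _ = 1 / (m * jB m 0) := by rw [avg_fej hm (by omega), one_mul]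
    _ ≤ 1 / (m * (m / 2)) := by
        apply one_div_le_one_div_of_le (by positivity)
        exact mul_le_mul_of_nonneg_left hhalf hm'.le
    _ = 2 / (m : ℝ) ^ 2 := by
        field_simp

end Pool.Agent.MRG
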