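import Pool.Agent.MRG.Cheb
import Pool.Agent.MRG.Thin

/-!
# Module Ser: convergence of the Dirichlet series

All sums over shells: `#{n ≠ 0 : e^j < |n| ≤ e^(j+1)} ≤ 9 e^(2j+2)`, and `|n| ≤ 1` means `|n| = 1` (four points).
* `sum_n`: `∑_{n} |n|^(-2-σ) ≤ C ∑_j e^(-σj) ≤ C/σ`; the lower bound `c/σ` from shells with at least `c e^(2j)` points (`card_ball_asymp`) and
  `n = 1` (`σ ≤ 1`).  The term `n = 0` is `0 ^ (-(2+σ)) = 0`.
* `sum_log`: `∑_n log|n| |n|^(-2-σ) < ∞`.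
* `sum_p`: from `cheb`.  `sum_p_tail`: `∑_{|p| > e^u} |p|^(-2-1/u) ≤ ∑_{j ≥ 0} (C/(u+j)) e^(-(u+j)/u) ≤ (C/u) ∑_j e^(-j/u) ≤ C` by `cheb_sum`.
-/

set_option autoImplicit false

namespace Pool.Agent.MRG

open Pool.Agent.GaussPret

namespace SerAux

/-- index of the shell `e^j ≤ |n| < e^(j+1)` -/
noncomputable def idx (n : GaussianInt) : ℕ := ⌊Real.log (ab n)⌋₊

theorem log_nonneg {n : GaussianInt} (hn : n ≠ 0) : 0 ≤ Real.log (ab n) :=
  Real.log_nonneg (one_le_ab hn)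

theorem exp_idx_le {n : GaussianInt} (hn : n ≠ 0) : Real.exp (idx n) ≤ ab n := by
  have h := Nat.floor_le (log_nonneg hn)
  have h2 := Real.exp_le_exp.2 h
  rw [Real.exp_log (ab_pos hn)] at h2
  exact h2

theorem ab_le_exp {n : GaussianInt} (hn : n ≠ 0) : ab n ≤ Real.exp ((idx n : ℝ) + 1) := by
  have h := (Nat.lt_floor_add_one (Real.log (ab n))).le
  have h2 := Real.exp_le_exp.2 h
  rw [Real.exp_log (ab_pos hn)] at h2
  exact h2

theorem sum_le {F : GaussianInt → ℝ} {w : ℕ → ℝ} (h0 : F 0 = 0) (hw : ∀ j, 0 ≤ w j)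
    (hF : ∀ n, n ≠ 0 → F n ≤ w (idx n))
    (hs : Summable fun j : ℕ => 9 * Real.exp ((j : ℝ) + 1) ^ 2 * w j) (T : Finset GaussianInt) :
    ∑ n ∈ T, F n ≤ ∑' j : ℕ, 9 * Real.exp ((j : ℝ) + 1) ^ 2 * w j := by
  classical
  have e1 : ∑ n ∈ T, F n = ∑ n ∈ T.filter (fun n => n ≠ 0), F n := by
    symm
    apply Finset.sum_filter_of_ne
    intro n _ hn h
    rw [h] at hn
    exact hn h0
  rw [e1, ← Finset.sum_fiberwise_of_maps_to (g := idx)
    (t := (T.filter (fun n => n ≠ 0)).image idx) (fun n hn => Finset.mem_image_of_mem _ hn)]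
  refine (Finset.sum_le_sum ?_).trans (hs.sum_le_tsum _ (fun j _ => mul_nonneg (by positivity) (hw j)))
  intro j _
  have h1 : ∑ n ∈ (T.filter (fun n => n ≠ 0)).filter (fun n => idx n = j), F n ≤
      ∑ n ∈ (T.filter (fun n => n ≠ 0)).filter (fun n => idx n = j), w j := by
    apply Finset.sum_le_sum
    intro n hn
    rw [Finset.mem_filter, Finset.mem_filter] at hn
    have := hF n hn.1.2
    rw [hn.2] at this
    exact this
  refine h1.trans ?_
  rw [Finset.sum_const, nsmul_eq_mul]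
  apply mul_le_mul_of_nonneg_right _ (hw j)
  have h2 : (T.filter (fun n => n ≠ 0)).filter (fun n => idx n = j) ⊆
      ball (Real.exp ((j : ℝ) + 1)) := by
    intro n hn
    rw [Finset.mem_filter, Finset.mem_filter] at hn
    rw [mem_ball']
    refine ⟨hn.1.2, ?_⟩
    have := ab_le_exp hn.1.2
    rw [hn.2] at this
    exact this
  exact (Nat.cast_le.2 (Finset.card_le_card h2)).trans (card_ball_le' _)

theorem ab_zero : ab 0 = 0 := by simp [ab]

theorem zero_term {s : ℝ} (hs : 0 < s) : ab 0 ^ (-s) = 0 := by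
  rw [ab_zero, Real.zero_rpow (by linarith)]

theorem term_le {σ : ℝ} (hσ : 0 < σ) (n : GaussianInt) (hn : n ≠ 0) :
    ab n ^ (-(2 + σ)) ≤ Real.exp (-(2 + σ) * idx n) := by
  have h1 := exp_idx_le hn
  have h2 : Real.exp (-(2 + σ) * idx n) = Real.exp (idx n) ^ (-(2 + σ)) := by
    rw [← Real.exp_mul]
    congr 1
    ring
  rw [h2]
  exact Real.rpow_le_rpow_of_nonpos (Real.exp_pos _) h1 (by linarith)

theorem shape (σ : ℝ) (j : ℕ) : 9 * Real.exp ((j : ℝ) + 1) ^ 2 * Real.exp (-(2 + σ) * j) =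
    9 * Real.exp 2 * Real.exp (-σ) ^ j := by
  have e1 : Real.exp ((j : ℝ) + 1) ^ 2 = Real.exp (2 * ((j : ℝ) + 1)) := by
    rw [← Real.exp_nat_mul]
    norm_num
  have e2 : Real.exp (-σ) ^ j = Real.exp (j * (-σ)) := by
    rw [← Real.exp_nat_mul]
  rw [e1, e2, mul_assoc, mul_assoc, ← Real.exp_add, ← Real.exp_add]
  congr 2
  ring

theorem exp_neg_lt {σ : ℝ} (hσ : 0 < σ) : Real.exp (-σ) < 1 := by
  rw [Real.exp_lt_one_iff]
  linarith

theorem geo_summable {σ : ℝ} (hσ : 0 < σ) :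
    Summable fun j : ℕ => 9 * Real.exp ((j : ℝ) + 1) ^ 2 * Real.exp (-(2 + σ) * j) := by
  simp_rw [shape]
  exact (summable_geometric_of_lt_one (Real.exp_pos _).le (exp_neg_lt hσ)).mul_left _

/-- `1/(1 - e^(-σ)) ≤ e/σ` for `σ ≤ 1` -/
theorem geo_le {σ : ℝ} (hσ : 0 < σ) (h1 : σ ≤ 1) :
    (1 - Real.exp (-σ))⁻¹ ≤ Real.exp 1 / σ := by
  have h2 : σ / Real.exp 1 ≤ 1 - Real.exp (-σ) := by
    have h3 := Real.add_one_le_exp σ
    have h4 : Real.exp (-σ) * Real.exp σ = 1 := by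
      rw [← Real.exp_add]
      simp
    have h5 : Real.exp (-1) ≤ Real.exp (-σ) := Real.exp_le_exp.2 (by linarith)
    have h6 : σ / Real.exp 1 = σ * Real.exp (-1) := by
      rw [Real.exp_neg, div_eq_mul_inv]
    rw [h6]
    have h7 : σ * Real.exp (-1) ≤ σ * Real.exp (-σ) := mul_le_mul_of_nonneg_left h5 hσ.le
    have h8 : σ * Real.exp (-σ) ≤ (Real.exp σ - 1) * Real.exp (-σ) :=
      mul_le_mul_of_nonneg_right (by linarith) (Real.exp_pos _).le
    nlinarith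
  have h3 : 0 < σ / Real.exp 1 := div_pos hσ (Real.exp_pos _)
  calc (1 - Real.exp (-σ))⁻¹ ≤ (σ / Real.exp 1)⁻¹ := inv_anti₀ h3 h2
    _ = _ := inv_div _ _

theorem geo_tsum {σ : ℝ} (hσ : 0 < σ) :
    ∑' j : ℕ, 9 * Real.exp ((j : ℝ) + 1) ^ 2 * Real.exp (-(2 + σ) * j) =
      9 * Real.exp 2 * (1 - Real.exp (-σ))⁻¹ := by
  simp_rw [shape]
  rw [tsum_mul_left, tsum_geometric_of_lt_one (Real.exp_pos _).le (exp_neg_lt hσ)]

theorem term_nonneg (s : ℝ) (n : GaussianInt) : 0 ≤ ab n ^ s := Real.rpow_nonneg (ab_nonneg _) _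

theorem fin_le {σ : ℝ} (hσ : 0 < σ) (T : Finset GaussianInt) :
    ∑ n ∈ T, ab n ^ (-(2 + σ)) ≤ 9 * Real.exp 2 * (1 - Real.exp (-σ))⁻¹ := by
  rw [← geo_tsum hσ]
  exact sum_le (zero_term (by linarith)) (fun j => (Real.exp_pos _).le) (term_le hσ)
    (geo_summable hσ) T

/-- the lattice points used for the lower bound -/
def emb (x : (_ : ℕ) × ℕ) : GaussianInt := ⟨(x.1 : ℤ), (x.2 : ℤ)⟩

theorem emb_inj : Function.Injective emb := by
  rintro ⟨a, b⟩ ⟨a', b'⟩ h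
  have h1 : (a : ℤ) = a' := congrArg Zsqrtd.re h
  have h2 : (b : ℤ) = b' := congrArg Zsqrtd.im h
  have h3 : a = a' := by exact_mod_cast h1
  have h4 : b = b' := by exact_mod_cast h2
  rw [h3, h4]

theorem ab_emb_le {a b : ℕ} (h : b < a) : ab (emb ⟨a, b⟩) ≤ 2 * a := by
  have h1 := nm_eq_ab (emb ⟨a, b⟩)
  have h2 : nm (emb ⟨a, b⟩) = (a : ℝ) ^ 2 + (b : ℝ) ^ 2 := by
    unfold nm emb
    rw [Zsqrtd.norm_def]
    push_cast
    ring
  have h3 : (b : ℝ) < a := by exact_mod_cast h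
  have h4 : (0 : ℝ) ≤ b := Nat.cast_nonneg _
  rw [h2] at h1
  nlinarith [ab_nonneg (emb ⟨a, b⟩)]

theorem emb_ne {a b : ℕ} (h : b < a) : emb ⟨a, b⟩ ≠ 0 := by
  intro h0
  have h1 : (a : ℤ) = 0 := congrArg Zsqrtd.re h0
  omega

theorem lower_term {σ : ℝ} (hσ : 0 < σ) {a b M : ℕ} (h : b < a) (hM : a ≤ M) :
    1 / (4 * (a : ℝ) ^ 2) * (2 * (M : ℝ)) ^ (-σ) ≤ ab (emb ⟨a, b⟩) ^ (-(2 + σ)) := by
  have ha : (0 : ℝ) < a := by exact_mod_cast (by omega : 0 < a)
  have hM' : (a : ℝ) ≤ M := by exact_mod_cast hM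
  have h1 : (2 * (a : ℝ)) ^ (-(2 + σ)) ≤ ab (emb ⟨a, b⟩) ^ (-(2 + σ)) :=
    Real.rpow_le_rpow_of_nonpos (ab_pos (emb_ne h)) (ab_emb_le h) (by linarith)
  refine le_trans ?_ h1
  have h2 : (2 * (a : ℝ)) ^ (-(2 + σ)) = 1 / (4 * (a : ℝ) ^ 2) * (2 * (a : ℝ)) ^ (-σ) := by
    have e : -(2 + σ) = -2 + -σ := by ring
    rw [e, Real.rpow_add (by positivity), Real.rpow_neg (by positivity) 2, Real.rpow_two]
    congr 1
    rw [one_div]
    congr 1
    ring
  rw [h2]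
  apply mul_le_mul_of_nonneg_left _ (by positivity)
  exact Real.rpow_le_rpow_of_nonpos (by positivity) (by linarith) (by linarith)

end SerAux

open SerAux in
theorem summable_n {σ : ℝ} (hσ : 0 < σ) :
    Summable fun n : GaussianInt => ab n ^ (-(2 + σ)) :=
  summable_of_sum_le (fun n => term_nonneg _ n) (fin_le hσ)

open SerAux in
theorem summable_log {σ : ℝ} (hσ : 0 < σ) :
    Summable fun n : GaussianInt => Real.log (ab n) * ab n ^ (-(2 + σ)) := by
  have h1 := (summable_n (half_pos hσ)).mul_left (2 / σ)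
  apply Summable.of_nonneg_of_le _ _ h1
  · intro n
    by_cases hn : n = 0
    · rw [hn, ab_zero, Real.log_zero, zero_mul]
    · exact mul_nonneg (log_nonneg hn) (term_nonneg _ n)
  · intro n
    by_cases hn : n = 0
    · rw [hn, ab_zero, Real.log_zero, zero_mul, Real.zero_rpow (by linarith), mul_zero]
    · have h2 := Real.log_le_rpow_div (ab_nonneg n) (half_pos hσ)
      have h3 : ab n ^ (-(2 + σ / 2)) = ab n ^ (σ / 2) * ab n ^ (-(2 + σ)) := by
        rw [← Real.rpow_add (ab_pos hn)]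
        congr 1
        ring
      rw [h3, ← mul_assoc]
      apply mul_le_mul_of_nonneg_right _ (term_nonneg _ n)
      refine h2.trans (le_of_eq ?_)
      field_simp

open SerAux in
theorem summable_Gs {g : GaussianInt → ℂ} (hg : ∀ n, n ≠ 0 → ‖g n‖ ≤ 1) {σ : ℝ} (hσ : 0 < σ) :
    Summable fun n : GaussianInt => g n * ((ab n ^ (-(2 + σ)) : ℝ) : ℂ) := by
  apply Summable.of_norm_bounded (summable_n hσ)
  intro n
  rw [norm_mul, Complex.norm_real, Real.norm_of_nonneg (term_nonneg _ n)]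
  by_cases hn : n = 0
  · rw [hn, zero_term (by linarith), mul_zero]
  · exact mul_le_of_le_one_left (term_nonneg _ n) (hg n hn)

open SerAux in
theorem sum_n : ∃ c C : ℝ, 0 < c ∧ 0 < C ∧ ∀ σ : ℝ, 0 < σ → σ ≤ 1 →
    c / σ ≤ ∑' n : GaussianInt, ab n ^ (-(2 + σ)) ∧
      ∑' n : GaussianInt, ab n ^ (-(2 + σ)) ≤ C / σ := by
  refine ⟨1 / (8 * Real.exp 1), 9 * Real.exp 2 * Real.exp 1, by positivity, by positivity,
    fun σ hσ h1 => ⟨?_, ?_⟩⟩
  · classical
    set M : ℕ := ⌊Real.exp (1 / σ)⌋₊ with hM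
    have hM1 : (M : ℝ) ≤ Real.exp (1 / σ) := Nat.floor_le (Real.exp_pos _).le
    have hM2 : Real.exp (1 / σ) < (M : ℝ) + 1 := Nat.lt_floor_add_one _
    have hM3 : 1 ≤ M := by
      rw [hM]
      apply Nat.le_floor
      rw [Nat.cast_one]
      exact Real.one_le_exp (by positivity)
    have hM4 : (1 : ℝ) ≤ M := by exact_mod_cast hM3
    set T := ((Finset.Icc 1 M).sigma fun a => Finset.range a) with hT
    have h2 : ∑ n ∈ T.image emb, ab n ^ (-(2 + σ)) ≤ ∑' n : GaussianInt, ab n ^ (-(2 + σ)) :=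
      (summable_n hσ).sum_le_tsum _ (fun n _ => term_nonneg _ n)
    refine le_trans ?_ h2
    rw [Finset.sum_image (fun x _ y _ h => emb_inj h), hT, Finset.sum_sigma]
    have h3 : ∀ a ∈ Finset.Icc 1 M, (2 * (M : ℝ)) ^ (-σ) / 4 * ((a : ℝ))⁻¹ ≤
        ∑ b ∈ Finset.range a, ab (emb ⟨a, b⟩) ^ (-(2 + σ)) := by
      intro a ha
      rw [Finset.mem_Icc] at ha
      have ha0 : (0 : ℝ) < a := by exact_mod_cast (by omega : 0 < a)
      have h4 : ∑ b ∈ Finset.range a, 1 / (4 * (a : ℝ) ^ 2) * (2 * (M : ℝ)) ^ (-σ) ≤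
          ∑ b ∈ Finset.range a, ab (emb ⟨a, b⟩) ^ (-(2 + σ)) := by
        apply Finset.sum_le_sum
        intro b hb
        exact lower_term hσ (Finset.mem_range.1 hb) ha.2
      refine le_trans (le_of_eq ?_) h4
      rw [Finset.sum_const, Finset.card_range, nsmul_eq_mul]
      field_simp
    refine le_trans ?_ (Finset.sum_le_sum h3)
    rw [← Finset.mul_sum]
    have h5 : 1 / σ ≤ ∑ a ∈ Finset.Icc 1 M, ((a : ℝ))⁻¹ := by
      have h6 := log_add_one_le_harmonic M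
      rw [harmonic_eq_sum_Icc] at h6
      push_cast at h6
      refine le_trans ?_ h6
      rw [Real.le_log_iff_exp_le (by positivity)]
      exact hM2.le
    have h7 : 1 / (2 * Real.exp 1) ≤ (2 * (M : ℝ)) ^ (-σ) := by
      have h8 : (2 * Real.exp (1 / σ)) ^ (-σ) ≤ (2 * (M : ℝ)) ^ (-σ) :=
        Real.rpow_le_rpow_of_nonpos (by positivity) (by linarith) (by linarith)
      refine le_trans ?_ h8
      rw [Real.mul_rpow (by norm_num) (Real.exp_pos _).le, ← Real.exp_mul]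
      have h9 : 1 / σ * -σ = -1 := by field_simp
      rw [h9, Real.exp_neg]
      have h10 : (2 : ℝ)⁻¹ ≤ 2 ^ (-σ) := by
        have : (2 : ℝ) ^ (-1 : ℝ) ≤ 2 ^ (-σ) :=
          Real.rpow_le_rpow_of_exponent_le (by norm_num) (by linarith)
        rwa [Real.rpow_neg_one] at this
      have h11 : 0 < (Real.exp 1)⁻¹ := inv_pos.2 (Real.exp_pos _)
      calc 1 / (2 * Real.exp 1) = (2 : ℝ)⁻¹ * (Real.exp 1)⁻¹ := by
            rw [one_div, mul_inv]
        _ ≤ _ := mul_le_mul_of_nonneg_right h10 h11.le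
    have h12 : 0 < 1 / (2 * Real.exp 1) := by positivity
    calc 1 / (8 * Real.exp 1) / σ = 1 / (2 * Real.exp 1) / 4 * (1 / σ) := by
          field_simp
          ring
      _ ≤ (2 * (M : ℝ)) ^ (-σ) / 4 * ∑ a ∈ Finset.Icc 1 M, ((a : ℝ))⁻¹ := by
          apply mul_le_mul _ h5 (by positivity) (by positivity)
          linarith
  · refine ((summable_n hσ).tsum_le_of_sum_le (fin_le hσ)).trans ?_
    rw [mul_div_assoc]
    exact mul_le_mul_of_nonneg_left (geo_le hσ h1) (by positivity)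

theorem summable_p {σ : ℝ} (hσ : 0 < σ) :
    Summable fun p : P1 => ab (p : GaussianInt) ^ (-(2 + σ)) :=
  (summable_n hσ).comp_injective Subtype.val_injective

namespace SerAux

theorem tail_step {C u : ℝ} (hC : 0 < C)
    (hc : ∀ u : ℝ, 1 ≤ u → ∑ p ∈ pr (Real.exp u) (Real.exp (u + 1)), 1 / ab p ^ 2 ≤ C / u)
    (hu : 1 ≤ u) (j : ℕ) :
    ∑ p ∈ pr (Real.exp (u + j)) (Real.exp (u + j + 1)), ab p ^ (-(2 + 1 / u)) ≤
      C / u * Real.exp (-(1 / u)) ^ j := by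
  have hu0 : 0 < u := by linarith
  have hj : (0 : ℝ) ≤ j := Nat.cast_nonneg _
  have h1 : ∀ p ∈ pr (Real.exp (u + j)) (Real.exp (u + j + 1)), ab p ^ (-(2 + 1 / u)) ≤
      1 / ab p ^ 2 * Real.exp (-(1 / u)) ^ j := by
    intro p hp
    rw [mem_pr] at hp
    have hp0 := ab_pos hp.1.1.ne_zero
    have e : -(2 + 1 / u) = -2 + -(1 / u) := by ring
    rw [e, Real.rpow_add hp0, Real.rpow_neg hp0.le 2, Real.rpow_two, one_div (ab p ^ 2)]
    apply mul_le_mul_of_nonneg_left _ (by positivity)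
    have h2 : ab p ^ (-(1 / u)) ≤ Real.exp (u + j) ^ (-(1 / u)) :=
      Real.rpow_le_rpow_of_nonpos (Real.exp_pos _) hp.2.1.le (by
        have : 0 < 1 / u := by positivity
        linarith)
    have h3 : Real.exp (u + j) ^ (-(1 / u)) ≤ Real.exp (-(1 / u)) ^ j := by
      rw [← Real.exp_mul, ← Real.exp_nat_mul]
      apply Real.exp_le_exp.2
      have : u * (1 / u) = 1 := by field_simp
      nlinarith
    exact h2.trans h3
  refine (Finset.sum_le_sum h1).trans ?_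
  rw [← Finset.sum_mul]
  apply mul_le_mul_of_nonneg_right _ (by positivity)
  refine (hc (u + j) (by linarith)).trans ?_
  exact div_le_div_of_nonneg_left hC.le hu0 (by linarith)

theorem tail_nat {C u : ℝ} (hC : 0 < C)
    (hc : ∀ u : ℝ, 1 ≤ u → ∑ p ∈ pr (Real.exp u) (Real.exp (u + 1)), 1 / ab p ^ 2 ≤ C / u)
    (hu : 1 ≤ u) (N : ℕ) :
    ∑ p ∈ pr (Real.exp u) (Real.exp (u + N)), ab p ^ (-(2 + 1 / u)) ≤
      C / u * ∑ j ∈ Finset.range N, Real.exp (-(1 / u)) ^ j := by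
  classical
  induction N with
  | zero =>
    have : pr (Real.exp u) (Real.exp (u + ((0 : ℕ) : ℝ))) = ∅ := by
      apply Finset.eq_empty_of_forall_notMem
      intro p hp
      rw [mem_pr, Nat.cast_zero, add_zero] at hp
      linarith [hp.2.1, hp.2.2]
    rw [this]
    simp
  | succ N ih =>
    rw [Finset.sum_range_succ, mul_add]
    have h1 : pr (Real.exp u) (Real.exp (u + ((N + 1 : ℕ) : ℝ))) ⊆
        pr (Real.exp u) (Real.exp (u + N)) ∪ pr (Real.exp (u + N)) (Real.exp (u + N + 1)) := by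
      intro p hp
      rw [Finset.mem_union, mem_pr, mem_pr]
      rw [mem_pr] at hp
      push_cast at hp
      rw [← add_assoc] at hp
      rcases le_or_gt (ab p) (Real.exp (u + N)) with h | h
      · exact Or.inl ⟨hp.1, hp.2.1, h⟩
      · exact Or.inr ⟨hp.1, h, hp.2.2⟩
    refine (Finset.sum_le_sum_of_subset_of_nonneg h1 (fun p _ _ => term_nonneg _ p)).trans ?_
    refine le_trans ?_ (add_le_add ih (tail_step hC hc hu N))
    rw [← Finset.sum_union_inter]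
    exact le_add_of_nonneg_right (Finset.sum_nonneg fun p _ => term_nonneg _ p)

end SerAux

open SerAux in
theorem sum_p_tail : ∃ C : ℝ, 0 < C ∧ ∀ u : ℝ, 1 ≤ u → ∀ T : Finset GaussianInt,
    (∀ p ∈ T, (Prime p ∧ 0 < p.re ∧ 0 ≤ p.im) ∧ Real.exp u < ab p) →
    ∑ p ∈ T, ab p ^ (-(2 + 1 / u)) ≤ C := by
  obtain ⟨C, hC, hc⟩ := cheb_sum
  refine ⟨C * Real.exp 1, by positivity, fun u hu T hT => ?_⟩
  have hu0 : 0 < u := by linarith
  obtain ⟨N, hN⟩ : ∃ N : ℕ, ∀ p ∈ T, ab p ≤ Real.exp (u + N) := by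
    refine ⟨T.sup fun p => ⌈ab p⌉₊, fun p hp => ?_⟩
    have h1 : (⌈ab p⌉₊ : ℝ) ≤ ((T.sup fun p => ⌈ab p⌉₊ : ℕ) : ℝ) := by
      exact_mod_cast Finset.le_sup (f := fun p => ⌈ab p⌉₊) hp
    have h2 := Nat.le_ceil (ab p)
    have h3 := Real.add_one_le_exp (u + ((T.sup fun p => ⌈ab p⌉₊ : ℕ) : ℝ))
    linarith
  have h1 : T ⊆ pr (Real.exp u) (Real.exp (u + N)) := by
    intro p hp
    rw [mem_pr]
    exact ⟨(hT p hp).1, (hT p hp).2, hN p hp⟩
  refine (Finset.sum_le_sum_of_subset_of_nonneg h1 (fun p _ _ => term_nonneg _ p)).trans ?_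
  refine (tail_nat hC hc hu N).trans ?_
  have h2 : 0 < 1 / u := by positivity
  have h3 : 1 / u ≤ 1 := by
    rw [div_le_one hu0]
    exact hu
  have h4 := geo_le h2 h3
  have h5 : ∑ j ∈ Finset.range N, Real.exp (-(1 / u)) ^ j ≤ (1 - Real.exp (-(1 / u)))⁻¹ := by
    rw [← tsum_geometric_of_lt_one (Real.exp_pos _).le (exp_neg_lt h2)]
    exact (summable_geometric_of_lt_one (Real.exp_pos _).le (exp_neg_lt h2)).sum_le_tsum _
      (fun j _ => by positivity)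
  calc C / u * ∑ j ∈ Finset.range N, Real.exp (-(1 / u)) ^ j ≤ C / u * (Real.exp 1 / (1 / u)) :=
        mul_le_mul_of_nonneg_left (h5.trans h4) (by positivity)
    _ = C * Real.exp 1 := by field_simp

end Pool.Agent.MRG
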