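import Pool.Agent.MRG.Weyl
import Pool.Agent.MRG.Ser

/-!
# Module LBound: upper bounds for `Gs (ch m k) (1/u)`

Put `S(y) = ∑_{g ∈ ball y} ch m k g`, `σ = 1/u`.  `Gs (ch m k) σ = ∫_1^∞ S(y) (2+σ) y^(-3-σ) dy` (`|n|^(-2-σ) = ∫_{|n|}^∞ (2+σ) y^(-3-σ) dy`).

* `lb_large`: let `y₀ = e^(ε'u)`.  `y ≤ y₀`: `|S(y)| ≤ 9y²`, contribution `≤ 27 ∫_1^(y₀) dy/y = 27 ε' u`.  `y > y₀`: `|m| + |k| ≤ e^(Ku) ≤ y^(K')`, `K' = ⌈K/ε'⌉`, so by `weyl K'`
  `S(y) = mainT m k y + O(y^(2-δ))`; the error contributes `≤ C ∫_(y₀)^∞ y^(-1-δ) dy = (C/δ) e^(-δε'u) ≤ 1` for large `u`; the main term occurs only for `k = 0`, then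
  `|∫_(y₀)^∞ 2π y^(2+im)/(2+im) (2+σ) y^(-3-σ) dy| = |2π (2+σ)/(2+im) · y₀^(im-σ)/(σ-im)| ≤ 10/|m| ≤ 10`, as `|m| ≥ T1 ≥ 1`.
* `lb_fixed`: by `weyl_small`, `S(y) = mainT m k y + O_{m,k}(y)` for all `y ≥ 1`; the same computation with `y₀ = 1`; if `k = 0` then `m ≠ 0`.
(Everything may also be done with sums over shells instead of integrals.)
-/

set_option autoImplicit false

namespace Pool.Agent.MRG

open Pool.Agent.GaussPret

namespace LBoundAux

open MeasureTheory Set

theorem countable_G : Countable GaussianInt :=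
  Function.Injective.countable (f := fun g : GaussianInt => (g.re, g.im)) (by
    intro a b hab
    simp only [Prod.mk.injEq] at hab
    exact Zsqrtd.ext hab.1 hab.2)

/-- the weight -/
noncomputable def w (σ y : ℝ) : ℝ := (2 + σ) * y ^ (-(3 + σ))

theorem w_int (σ a : ℝ) (hσ : 0 < σ) (ha : 0 < a) :
    IntegrableOn (w σ) (Ioi a) ∧ ∫ y in Ioi a, w σ y = a ^ (-(2 + σ)) := by
  constructor
  · exact (integrableOn_Ioi_rpow_of_lt (by linarith) ha).const_mul _
  · unfold w
    rw [integral_const_mul, integral_Ioi_rpow_of_lt (by linarith) ha]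
    have h1 : -(3 + σ) + 1 = -(2 + σ) := by ring
    rw [h1]
    have h2 : (2 + σ) ≠ 0 := by linarith
    field_simp

theorem w_nonneg {σ y : ℝ} (hσ : 0 < σ) (hy : 0 < y) : 0 ≤ w σ y := by
  unfold w
  positivity

/-- the set over which the `n`-th term lives -/
theorem inter_ae (a : ℝ) (ha : 1 ≤ a) : (Ioi (1 : ℝ) ∩ Ici a : Set ℝ) =ᵐ[volume] Ioi a := by
  rcases eq_or_lt_of_le ha with h | h
  · subst h
    have : (Ioi (1 : ℝ) ∩ Ici 1 : Set ℝ) = Ioi 1 := by
      ext y
      simp only [mem_inter_iff, mem_Ioi, mem_Ici]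
      constructor
      · exact fun h => h.1
      · exact fun h => ⟨h, h.le⟩
    rw [this]
  · have : (Ioi (1 : ℝ) ∩ Ici a : Set ℝ) = Ici a := by
      ext y
      simp only [mem_inter_iff, mem_Ioi, mem_Ici]
      constructor
      · exact fun h => h.2
      · exact fun h' => ⟨lt_of_lt_of_le h h', h'⟩
    rw [this]
    exact Ioi_ae_eq_Ici.symm

open scoped Classical in
/-- the terms -/
noncomputable def FF (m : ℝ) (k : ℤ) (σ : ℝ) (n : GaussianInt) (y : ℝ) : ℂ :=
  if n = 0 then 0 else (Ici (ab n)).indicator (fun y => ch m k n * (w σ y : ℂ)) y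

theorem FF_sum (m : ℝ) (k : ℤ) (σ y : ℝ) :
    ∑' n, FF m k σ n y = (∑ g ∈ ball y, ch m k g) * (w σ y : ℂ) := by
  rw [tsum_eq_sum (s := ball y), Finset.sum_mul]
  · apply Finset.sum_congr rfl
    intro n hn
    rw [mem_ball'] at hn
    unfold FF
    rw [if_neg hn.1, indicator_of_mem (by exact hn.2)]
  · intro n hn
    rw [mem_ball'] at hn
    unfold FF
    split_ifs with h
    · rfl
    · rw [indicator_of_notMem]
      intro h2
      exact hn ⟨h, h2⟩

theorem FF_meas (m : ℝ) (k : ℤ) (σ : ℝ) (n : GaussianInt) : Measurable (FF m k σ n) := by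
  unfold FF
  by_cases h : n = 0
  · simp only [h, if_true]
    exact measurable_const
  · simp only [h, if_false]
    apply Measurable.indicator _ measurableSet_Ici
    apply Measurable.const_mul
    apply Complex.measurable_ofReal.comp
    unfold w
    fun_prop

theorem S_meas (m : ℝ) (k : ℤ) (σ : ℝ) :
    Measurable (fun y => (∑ g ∈ ball y, ch m k g) * (w σ y : ℂ)) := by
  refine measurable_of_tendsto_metrizable
    (f := fun (N : ℕ) y => ∑ n ∈ ball (N : ℝ), FF m k σ n y) ?_ ?_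
  · intro N
    exact Finset.measurable_sum _ (fun n _ => FF_meas m k σ n)
  · rw [tendsto_pi_nhds]
    intro y
    apply tendsto_const_nhds.congr'
    filter_upwards [Filter.eventually_ge_atTop ⌈y⌉₊] with N hN
    rw [← FF_sum, tsum_eq_sum (s := ball (N : ℝ))]
    intro n hn
    rw [mem_ball'] at hn
    unfold FF
    split_ifs with h
    · rfl
    · rw [indicator_of_notMem]
      intro h2
      apply hn
      refine ⟨h, le_trans h2 ?_⟩
      exact (Nat.le_ceil y).trans (by exact_mod_cast hN)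

theorem FF_int (m : ℝ) (k : ℤ) (σ : ℝ) (hσ : 0 < σ) (n : GaussianInt) :
    IntegrableOn (FF m k σ n) (Ioi 1) ∧
      ∫ y in Ioi 1, FF m k σ n y = ch m k n * ((ab n ^ (-(2 + σ)) : ℝ) : ℂ) ∧
      ∫ y in Ioi 1, ‖FF m k σ n y‖ = ab n ^ (-(2 + σ)) := by
  by_cases h : n = 0
  · subst h
    have h0 : ab (0 : GaussianInt) = 0 := by simp [ab]
    have h1 : (0 : ℝ) ^ (-(2 + σ)) = 0 := Real.zero_rpow (by linarith)
    have h2 : FF m k σ 0 = fun _ => 0 := by
      ext y
      simp [FF]
    rw [h2, h0, h1]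
    simp
  · have ha := one_le_ab h
    have ha0 : 0 < ab n := by linarith
    have hw := w_int σ (ab n) hσ ha0
    have hF : FF m k σ n = (Ici (ab n)).indicator (fun y => ch m k n * (w σ y : ℂ)) := by
      ext y
      simp [FF, h]
    have hFn : ∀ y, ‖FF m k σ n y‖ = (Ici (ab n)).indicator (fun y => w σ y) y := by
      intro y
      rw [hF, norm_indicator_eq_indicator_norm]
      by_cases hy : y ∈ Ici (ab n)
      · rw [indicator_of_mem hy, indicator_of_mem hy, norm_mul, norm_ch, one_mul,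
          Complex.norm_real, Real.norm_of_nonneg (w_nonneg hσ (lt_of_lt_of_le ha0 hy))]
      · rw [indicator_of_notMem hy, indicator_of_notMem hy]
    refine ⟨?_, ?_, ?_⟩
    · rw [hF, IntegrableOn, integrable_indicator_iff measurableSet_Ici, IntegrableOn,
        Measure.restrict_restrict measurableSet_Ici, inter_comm,
        Measure.restrict_congr_set (inter_ae _ ha)]
      exact hw.1.ofReal.const_mul _
    · rw [hF, setIntegral_indicator measurableSet_Ici,
        Measure.restrict_congr_set (inter_ae _ ha), integral_const_mul, integral_complex_ofReal,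
        hw.2]
    · simp_rw [hFn]
      rw [setIntegral_indicator measurableSet_Ici,
        Measure.restrict_congr_set (inter_ae _ ha), hw.2]

theorem Gs_int (m : ℝ) (k : ℤ) (σ : ℝ) (hσ : 0 < σ) :
    Gs (ch m k) σ = ∫ y in Ioi 1, (∑ g ∈ ball y, ch m k g) * (w σ y : ℂ) := by
  have := countable_G
  have h1 := integral_tsum_of_summable_integral_norm (μ := volume.restrict (Ioi (1 : ℝ)))
    (F := fun n y => FF m k σ n y) (fun n => (FF_int m k σ hσ n).1) (by
      simp_rw [fun n => (FF_int m k σ hσ n).2.2]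
      exact summable_n hσ)
  simp_rw [fun n => (FF_int m k σ hσ n).2.1, fun y => FF_sum m k σ y] at h1
  exact h1

theorem norm_mainT_le (m : ℝ) (k : ℤ) (Y T : ℝ) (hY : 0 ≤ Y) (hT : 0 < T)
    (h : k = 0 → T ≤ |m|) : ‖mainT m k Y‖ ≤ 2 * Real.pi * Y ^ 2 / T := by
  unfold mainT
  split_ifs with hk
  · have h1 : T ≤ ‖(2 : ℂ) + m * Complex.I‖ := by
      have := Complex.abs_im_le_norm ((2 : ℂ) + m * Complex.I)
      simp at this
      exact (h hk).trans this
    have h2 : ‖2 * (Real.pi : ℂ) * (Y : ℂ) ^ 2 *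
        Complex.exp (((m * Real.log Y : ℝ) : ℂ) * Complex.I)‖ = 2 * Real.pi * Y ^ 2 := by
      rw [norm_mul, Complex.norm_exp_ofReal_mul_I, mul_one, norm_mul, norm_mul, norm_pow,
        Complex.norm_real, Complex.norm_real, Real.norm_of_nonneg hY,
        Real.norm_of_nonneg Real.pi_pos.le]
      norm_num
    rw [norm_div, h2]
    exact div_le_div_of_nonneg_left (by positivity) hT h1
  · rw [norm_zero]
    positivity

theorem int_pow (s : ℝ) (hs : 0 < s) :
    IntegrableOn (fun y : ℝ => y ^ (-(1 + s))) (Ioi 1) ∧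
      ∫ y in Ioi (1 : ℝ), y ^ (-(1 + s)) = 1 / s := by
  refine ⟨integrableOn_Ioi_rpow_of_lt (by linarith) one_pos, ?_⟩
  rw [integral_Ioi_rpow_of_lt (by linarith) one_pos]
  have h1 : -(1 + s) + 1 = -s := by ring
  rw [h1, Real.one_rpow]
  field_simp

theorem int_inv (b : ℝ) (hb : 1 ≤ b) :
    IntegrableOn ((Ioc 1 b).indicator (fun y : ℝ => y⁻¹)) (Ioi 1) ∧
      ∫ y in Ioi (1 : ℝ), (Ioc 1 b).indicator (fun y : ℝ => y⁻¹) y = Real.log b := by
  have h0 : Ioi (1 : ℝ) ∩ Ioc 1 b = Ioc 1 b := by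
    ext y
    simp only [mem_inter_iff, mem_Ioi, mem_Ioc]
    tauto
  constructor
  · rw [IntegrableOn, integrable_indicator_iff measurableSet_Ioc, IntegrableOn,
      Measure.restrict_restrict measurableSet_Ioc, inter_comm, h0]
    have : ContinuousOn (fun y : ℝ => y⁻¹) (Icc 1 b) := by
      intro y hy
      exact (continuousAt_inv₀ (by linarith [hy.1] : y ≠ 0)).continuousWithinAt
    exact (this.integrableOn_Icc).mono_set Ioc_subset_Icc_self
  · rw [setIntegral_indicator measurableSet_Ioc, h0, ← intervalIntegral.integral_of_le hb,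
      integral_inv_of_pos one_pos (by linarith), div_one]

/-- the bound of the weight for `y ≥ 1` -/
theorem w_mul_sq (σ y : ℝ) (hσ1 : σ ≤ 1) (hy : 1 ≤ y) :
    w σ y * y ^ 2 ≤ 3 * y ^ (-(1 + σ)) := by
  have hy0 : 0 < y := by linarith
  unfold w
  have h1 : y ^ (-(3 + σ)) * y ^ 2 = y ^ (-(1 + σ)) := by
    rw [← Real.rpow_natCast y 2, ← Real.rpow_add hy0]
    congr 1
    push_cast
    ring
  have h2 : 0 ≤ y ^ (-(1 + σ)) := Real.rpow_nonneg hy0.le _
  calc (2 + σ) * y ^ (-(3 + σ)) * y ^ 2 = (2 + σ) * y ^ (-(1 + σ)) := by rw [← h1]; ring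
    _ ≤ 3 * y ^ (-(1 + σ)) := mul_le_mul_of_nonneg_right (by linarith) h2

theorem rpow_le_of (y a b : ℝ) (hy : 1 ≤ y) (h : a ≤ b) : y ^ a ≤ y ^ b :=
  Real.rpow_le_rpow_of_exponent_le hy h

end LBoundAux

open LBoundAux

theorem lb_large (K : ℕ) (ε : ℝ) (hε : 0 < ε) : ∃ T1 U0 : ℝ, 1 ≤ T1 ∧ ∀ u : ℝ, U0 ≤ u →
    ∀ (m : ℝ) (k : ℤ), T1 ≤ |m| + |(k : ℝ)| → |m| + |(k : ℝ)| ≤ Real.exp (K * u) →
    ‖Gs (ch m k) (1 / u)‖ ≤ ε * u := by
  set ε' := ε / 81 with hε'
  have hε'0 : 0 < ε' := by positivity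
  set K' := ⌈(K : ℝ) / ε'⌉₊ with hK'
  obtain ⟨δ, C, hδ, hδ2, hC, hw⟩ := weyl K'
  set T1 : ℝ := max 1 (18 * Real.pi / ε) with hT1
  have hT11 : 1 ≤ T1 := le_max_left _ _
  have hT12 : 18 * Real.pi / ε ≤ T1 := le_max_right _ _
  have hT10 : 0 < T1 := by linarith
  refine ⟨T1, max 1 (9 * C / (δ * ε)), hT11, ?_⟩
  intro u hu m k hm1 hm2
  have hu1 : 1 ≤ u := (le_max_left _ _).trans hu
  have hu2 : 9 * C / (δ * ε) ≤ u := (le_max_right _ _).trans hu
  have hu0 : 0 < u := by linarith
  set σ := 1 / u with hσ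
  have hσ0 : 0 < σ := by positivity
  have hσ1 : σ ≤ 1 := by rw [hσ, div_le_one hu0]; exact hu1
  set y0 := Real.exp (ε' * u) with hy0
  have hy01 : 1 ≤ y0 := by
    rw [hy0, ← Real.exp_zero]
    apply Real.exp_le_exp.2
    positivity
  rw [Gs_int m k σ hσ0]
  set g : ℝ → ℝ := fun y => 27 * (Set.Ioc 1 y0).indicator (fun y : ℝ => y⁻¹) y +
    6 * Real.pi / T1 * y ^ (-(1 + σ)) + 3 * C * y ^ (-(1 + δ)) with hg
  have i1 := int_inv y0 hy01
  have i2 := int_pow σ hσ0
  have i3 := int_pow δ hδ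
  have hgint : MeasureTheory.IntegrableOn g (Set.Ioi 1) :=
    ((i1.1.const_mul 27).add (i2.1.const_mul _)).add (i3.1.const_mul _)
  have hgval : ∫ y in Set.Ioi (1 : ℝ), g y = 27 * (ε' * u) + 6 * Real.pi / T1 * u + 3 * C * (1 / δ) := by
    have j12 : MeasureTheory.IntegrableOn (fun y : ℝ => 27 * (Set.Ioc 1 y0).indicator
        (fun y : ℝ => y⁻¹) y + 6 * Real.pi / T1 * y ^ (-(1 + σ))) (Set.Ioi 1) :=
      (i1.1.const_mul 27).add (i2.1.const_mul _)
    have q1 := MeasureTheory.integral_add j12 (i3.1.const_mul (3 * C))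
    have q2 := MeasureTheory.integral_add (i1.1.const_mul 27) (i2.1.const_mul (6 * Real.pi / T1))
    have e1 : ∫ y in Set.Ioi (1 : ℝ), g y =
        27 * Real.log y0 + 6 * Real.pi / T1 * (1 / σ) + 3 * C * (1 / δ) := by
      refine q1.trans ?_
      rw [q2, MeasureTheory.integral_const_mul, MeasureTheory.integral_const_mul,
        MeasureTheory.integral_const_mul, i1.2, i2.2, i3.2]
    rw [e1, hy0, Real.log_exp, hσ]
    congr 2
    field_simp
  have hbound : ‖∫ y in Set.Ioi (1 : ℝ), (∑ g ∈ ball y, ch m k g) * (w σ y : ℂ)‖ ≤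
      ∫ y in Set.Ioi (1 : ℝ), g y := by
    apply MeasureTheory.norm_integral_le_of_norm_le hgint
    refine (MeasureTheory.ae_restrict_iff' measurableSet_Ioi).2 (Filter.Eventually.of_forall ?_)
    intro y hy
    have hy1 : 1 < y := hy
    have hypos : 0 < y := by linarith
    have hw0 := w_nonneg hσ0 hypos
    rw [norm_mul, Complex.norm_real, Real.norm_of_nonneg hw0]
    have p2 : 0 ≤ 6 * Real.pi / T1 * y ^ (-(1 + σ)) := by
      have := Real.rpow_nonneg hypos.le (-(1 + σ))
      positivity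
    have p3 : 0 ≤ 3 * C * y ^ (-(1 + δ)) := by
      have := Real.rpow_nonneg hypos.le (-(1 + δ))
      positivity
    have hws := w_mul_sq σ y hσ1 hy1.le
    rcases le_or_gt y y0 with hyy | hyy
    · have h1 : ‖∑ g ∈ ball y, ch m k g‖ ≤ 9 * y ^ 2 := by
        refine (norm_sum_le _ _).trans ?_
        simp only [norm_ch, Finset.sum_const, nsmul_eq_mul, mul_one]
        exact card_ball_le' y
      have h2 : y ^ (-(1 + σ)) ≤ y⁻¹ := by
        rw [← Real.rpow_neg_one]
        exact rpow_le_of y _ _ hy1.le (by linarith)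
      simp only [hg]
      rw [Set.indicator_of_mem (show y ∈ Set.Ioc 1 y0 from ⟨hy1, hyy⟩)]
      calc ‖∑ g ∈ ball y, ch m k g‖ * w σ y ≤ 9 * y ^ 2 * w σ y :=
            mul_le_mul_of_nonneg_right h1 hw0
        _ = 9 * (w σ y * y ^ 2) := by ring
        _ ≤ 9 * (3 * y ^ (-(1 + σ))) := by gcongr
        _ ≤ 9 * (3 * y⁻¹) := by gcongr
        _ ≤ _ := by linarith
    · have hcond : |m| + |(k : ℝ)| ≤ y ^ K' := by
        refine hm2.trans ?_
        have h1 : (K : ℝ) ≤ ε' * K' := by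
          have := Nat.le_ceil ((K : ℝ) / ε')
          rw [div_le_iff₀ hε'0] at this
          linarith
        calc Real.exp (K * u) ≤ Real.exp (ε' * u) ^ K' := by
              rw [← Real.exp_nat_mul]
              apply Real.exp_le_exp.2
              nlinarith
          _ ≤ y ^ K' := pow_le_pow_left₀ (Real.exp_pos _).le hyy.le K'
      have h1 := hw y m k hy1.le hcond
      have h2 : ‖mainT m k y‖ ≤ 2 * Real.pi * y ^ 2 / T1 := by
        apply norm_mainT_le m k y T1 hypos.le hT10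
        intro hk
        subst hk
        simpa using hm1
      have h3 : ‖∑ g ∈ ball y, ch m k g‖ ≤ 2 * Real.pi * y ^ 2 / T1 + C * y ^ (2 - δ) := by
        calc ‖∑ g ∈ ball y, ch m k g‖ =
            ‖mainT m k y + (∑ g ∈ ball y, ch m k g - mainT m k y)‖ := by congr 1; ring
          _ ≤ ‖mainT m k y‖ + ‖∑ g ∈ ball y, ch m k g - mainT m k y‖ := norm_add_le _ _
          _ ≤ _ := add_le_add h2 h1
      have h4 : y ^ (2 - δ) = y ^ 2 * y ^ (-δ) := by
        rw [← Real.rpow_natCast y 2, ← Real.rpow_add hypos]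
        congr 1
      have h5 : w σ y * y ^ (2 - δ) ≤ 3 * y ^ (-(1 + δ)) := by
        have h6 := Real.rpow_nonneg hypos.le (-δ)
        calc w σ y * y ^ (2 - δ) = (w σ y * y ^ 2) * y ^ (-δ) := by rw [h4]; ring
          _ ≤ (3 * y ^ (-(1 + σ))) * y ^ (-δ) := mul_le_mul_of_nonneg_right hws h6
          _ = 3 * y ^ (-(1 + σ) + -δ) := by rw [Real.rpow_add hypos]; ring
          _ ≤ 3 * y ^ (-(1 + δ)) := by
              have := rpow_le_of y (-(1 + σ) + -δ) (-(1 + δ)) hy1.le (by linarith)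
              linarith
      have h7 : 0 ≤ 27 * (Set.Ioc 1 y0).indicator (fun y : ℝ => y⁻¹) y := by
        rw [Set.indicator_of_notMem (fun h => absurd h.2 (not_le.2 hyy)), mul_zero]
      simp only [hg]
      calc ‖∑ g ∈ ball y, ch m k g‖ * w σ y ≤
          (2 * Real.pi * y ^ 2 / T1 + C * y ^ (2 - δ)) * w σ y :=
            mul_le_mul_of_nonneg_right h3 hw0
        _ = 2 * Real.pi / T1 * (w σ y * y ^ 2) + C * (w σ y * y ^ (2 - δ)) := by ring
        _ ≤ 2 * Real.pi / T1 * (3 * y ^ (-(1 + σ))) + C * (3 * y ^ (-(1 + δ))) := by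
            have := Real.pi_pos
            gcongr
        _ = 6 * Real.pi / T1 * y ^ (-(1 + σ)) + 3 * C * y ^ (-(1 + δ)) := by ring
        _ ≤ _ := by linarith
  refine hbound.trans ?_
  rw [hgval]
  have e1 : 27 * (ε' * u) = ε / 3 * u := by rw [hε']; ring
  have e2 : 6 * Real.pi / T1 * u ≤ ε / 3 * u := by
    apply mul_le_mul_of_nonneg_right _ hu0.le
    rw [div_le_iff₀ hT10]
    rw [div_le_iff₀ hε] at hT12
    linarith
  have e3 : 3 * C * (1 / δ) ≤ ε / 3 * u := by
    rw [div_le_iff₀ (by positivity)] at hu2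
    have : 3 * C * (1 / δ) = (9 * C) / (3 * δ) := by field_simp; norm_num
    rw [this, div_le_iff₀ (by positivity)]
    linarith
  linarith

theorem lb_fixed (m : ℝ) (k : ℤ) (h : m ≠ 0 ∨ k ≠ 0) :
    ∃ C : ℝ, ∀ u : ℝ, 1 ≤ u → ‖Gs (ch m k) (1 / u)‖ ≤ C := by
  obtain ⟨C0, hC0, hws⟩ := weyl_small
  set C1 := C0 * (1 + |m| + |(k : ℝ)|) with hC1
  have hC10 : 0 ≤ C1 := by positivity
  refine ⟨3 * C1 + 6 * Real.pi / |m|, ?_⟩
  intro u hu1
  have hu0 : 0 < u := by linarith
  set σ := 1 / u with hσ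
  have hσ0 : 0 < σ := by positivity
  have hσ1 : σ ≤ 1 := by rw [hσ, div_le_one hu0]; exact hu1
  rw [Gs_int m k σ hσ0]
  -- the difference
  have i1 := int_pow 1 one_pos
  have hmT : Measurable (fun y => mainT m k y * (w σ y : ℂ)) := by
    apply Measurable.mul
    · unfold mainT
      by_cases hk : k = 0
      · simp only [hk, if_true]
        fun_prop
      · simp only [hk, if_false]
        exact measurable_const
    · apply Complex.measurable_ofReal.comp
      unfold w
      fun_prop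
  have hpt : ∀ y : ℝ, 1 < y →
      ‖((∑ g ∈ ball y, ch m k g) - mainT m k y) * (w σ y : ℂ)‖ ≤ 3 * C1 * y ^ (-(1 + 1) : ℝ) := by
    intro y hy1
    have hypos : 0 < y := by linarith
    have hw0 := w_nonneg hσ0 hypos
    rw [norm_mul, Complex.norm_real, Real.norm_of_nonneg hw0]
    have h1 := hws y m k hy1.le
    have h2 : w σ y * y ≤ 3 * y ^ (-(1 + 1) : ℝ) := by
      have h3 := w_mul_sq σ y hσ1 hy1.le
      have h4 : w σ y * y = (w σ y * y ^ 2) * y⁻¹ := by field_simp
      rw [h4]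
      calc (w σ y * y ^ 2) * y⁻¹ ≤ (3 * y ^ (-(1 + σ))) * y⁻¹ :=
            mul_le_mul_of_nonneg_right h3 (by positivity)
        _ = 3 * y ^ (-(1 + σ) + -1) := by
            rw [Real.rpow_add hypos, Real.rpow_neg_one]; ring
        _ ≤ 3 * y ^ (-(1 + 1) : ℝ) := by
            have := rpow_le_of y (-(1 + σ) + -1) (-(1 + 1)) hy1.le (by linarith)
            linarith
    calc _ ≤ (C0 * (1 + |m| + |(k : ℝ)|) * y) * w σ y := mul_le_mul_of_nonneg_right h1 hw0
      _ = C1 * (w σ y * y) := by rw [hC1]; ring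
      _ ≤ C1 * (3 * y ^ (-(1 + 1) : ℝ)) := by gcongr
      _ = _ := by ring
  have hbnd : MeasureTheory.IntegrableOn (fun y : ℝ => 3 * C1 * y ^ (-(1 + 1) : ℝ)) (Set.Ioi 1) :=
    i1.1.const_mul _
  have hdiff : MeasureTheory.IntegrableOn
      (fun y => ((∑ g ∈ ball y, ch m k g) - mainT m k y) * (w σ y : ℂ)) (Set.Ioi 1) := by
    apply MeasureTheory.Integrable.mono' hbnd
    · have hmeas := (S_meas m k σ).sub hmT
      have e : (fun y => ((∑ g ∈ ball y, ch m k g) - mainT m k y) * (w σ y : ℂ)) =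
          (fun y => (∑ g ∈ ball y, ch m k g) * (w σ y : ℂ)) -
            (fun y => mainT m k y * (w σ y : ℂ)) := by
        ext y
        simp only [Pi.sub_apply]
        ring
      rw [e]
      exact hmeas.aestronglyMeasurable
    · refine (MeasureTheory.ae_restrict_iff' measurableSet_Ioi).2 (Filter.Eventually.of_forall ?_)
      intro y hy
      exact hpt y hy
  have hdb : ‖∫ y in Set.Ioi (1 : ℝ), ((∑ g ∈ ball y, ch m k g) - mainT m k y) * (w σ y : ℂ)‖ ≤
      3 * C1 := by
    refine (MeasureTheory.norm_integral_le_of_norm_le hbnd ?_).trans (le_of_eq ?_)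
    · refine (MeasureTheory.ae_restrict_iff' measurableSet_Ioi).2 (Filter.Eventually.of_forall ?_)
      intro y hy
      exact hpt y hy
    · rw [MeasureTheory.integral_const_mul, i1.2]
      norm_num
  -- the main term
  have hmain : MeasureTheory.IntegrableOn (fun y => mainT m k y * (w σ y : ℂ)) (Set.Ioi 1) ∧
      ‖∫ y in Set.Ioi (1 : ℝ), mainT m k y * (w σ y : ℂ)‖ ≤ 6 * Real.pi / |m| := by
    by_cases hk : k = 0
    · have hm : m ≠ 0 := h.resolve_right (not_not.2 hk)
      have hm0 : 0 < |m| := abs_pos.2 hm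
      set a : ℂ := ((-(1 + σ) : ℝ) : ℂ) + m * Complex.I with ha
      have hare : a.re < -1 := by
        rw [ha]
        simp only [Complex.add_re, Complex.ofReal_re, Complex.mul_re, Complex.I_re, mul_zero,
          Complex.ofReal_im, Complex.I_im, mul_one, sub_self, add_zero]
        linarith
      set D : ℂ := 2 * Real.pi * ((2 + σ : ℝ) : ℂ) / (2 + m * Complex.I) with hD
      have heq : ∀ y ∈ Set.Ioi (1 : ℝ), D * (y : ℂ) ^ a = mainT m k y * (w σ y : ℂ) := by
        intro y hy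
        have hy1 : 1 < y := hy
        have hypos : 0 < y := by linarith
        have hyC : (y : ℂ) ≠ 0 := by exact_mod_cast hypos.ne'
        rw [hk, mainT, if_pos rfl, hD, ha, Complex.cpow_add _ _ hyC, ← Complex.ofReal_cpow hypos.le]
        have e1 : (y : ℂ) ^ (m * Complex.I) =
            Complex.exp (((m * Real.log y : ℝ) : ℂ) * Complex.I) := by
          rw [Complex.cpow_def_of_ne_zero hyC, ← Complex.ofReal_log hypos.le]
          congr 1
          push_cast
          ring
        have e2 : y ^ (-(1 + σ)) = y ^ 2 * y ^ (-(3 + σ)) := by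
          rw [← Real.rpow_natCast y 2, ← Real.rpow_add hypos]
          congr 1
          push_cast
          ring
        rw [e1, e2]
        unfold w
        push_cast
        ring
      have hint := MeasureTheory.IntegrableOn.congr_fun
        (((integrableOn_Ioi_cpow_of_lt hare one_pos)).const_mul D) heq measurableSet_Ioi
      refine ⟨hint, ?_⟩
      rw [← MeasureTheory.setIntegral_congr_fun measurableSet_Ioi heq,
        MeasureTheory.integral_const_mul, integral_Ioi_cpow_of_lt hare one_pos]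
      rw [norm_mul]
      have e1 : ‖((1 : ℝ) : ℂ) ^ (a + 1)‖ = 1 := by
        rw [Complex.ofReal_one, Complex.one_cpow, norm_one]
      have e2 : |m| ≤ ‖a + 1‖ := by
        have := Complex.abs_im_le_norm (a + 1)
        rw [ha] at this ⊢
        simpa using this
      have e3 : ‖D‖ ≤ 3 * Real.pi := by
        rw [hD, norm_div, norm_mul, norm_mul, Complex.norm_real, Complex.norm_real,
          Real.norm_of_nonneg Real.pi_pos.le, Real.norm_of_nonneg (by linarith)]
        have e4 : (2 : ℝ) ≤ ‖(2 : ℂ) + m * Complex.I‖ := by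
          have := Complex.abs_re_le_norm ((2 : ℂ) + m * Complex.I)
          simpa using this
        have hpi := Real.pi_pos
        rw [div_le_iff₀ (by linarith)]
        have e5 : ‖(2 : ℂ)‖ = 2 := by norm_num
        rw [e5]
        nlinarith
      have e0 : ‖-((1 : ℝ) : ℂ) ^ (a + 1) / (a + 1)‖ = 1 / ‖a + 1‖ := by
        rw [norm_div, norm_neg, e1]
      rw [e0]
      have hpi := Real.pi_pos
      calc ‖D‖ * (1 / ‖a + 1‖) ≤ 3 * Real.pi * (1 / |m|) := by gcongr
        _ ≤ 6 * Real.pi / |m| := by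
            rw [mul_one_div]
            gcongr
            linarith
    · have h0 : (fun y => mainT m k y * (w σ y : ℂ)) = fun _ => 0 := by
        ext y
        rw [mainT, if_neg hk, zero_mul]
      rw [h0]
      constructor
      · exact MeasureTheory.integrableOn_zero
      · rw [MeasureTheory.integral_zero, norm_zero]
        have := Real.pi_pos
        positivity
  have hsplit : ∫ y in Set.Ioi (1 : ℝ), (∑ g ∈ ball y, ch m k g) * (w σ y : ℂ) =
      (∫ y in Set.Ioi (1 : ℝ), ((∑ g ∈ ball y, ch m k g) - mainT m k y) * (w σ y : ℂ)) +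
        ∫ y in Set.Ioi (1 : ℝ), mainT m k y * (w σ y : ℂ) := by
    rw [← MeasureTheory.integral_add hdiff hmain.1]
    congr 1
    ext y
    ring
  rw [hsplit]
  exact (norm_add_le _ _).trans (add_le_add hdb hmain.2)

end Pool.Agent.MRG
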