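import Pool.Agent.MRG.Ser
import Pool.Agent.MRG.Fac

/-!
# Module LogId: the logarithmic derivative identity

`Ds g σ = ∑_n g(n) log|n| |n|^(-2-σ)`, `Lm g σ = ∑_{p ∈ P1, j ≥ 0} g(p)^(j+1) log|p| |p|^(-(j+1)(2+σ))`.  Then `Ds = Gs · Lm` for `g` completely multiplicative:
`log |n| = ∑_{(p,j) : p^(j+1) ∣ n} log|p|` (`log_eq`, `v_p(n) = #{j : p^(j+1) ∣ n}`), and the pairs `(n, (p,j))` with `n ≠ 0`, `p^(j+1) ∣ n` correspond to
the pairs `(m, (p,j))`, `m ≠ 0`, `n = p^(j+1) m`, `g n = g(p)^(j+1) g(m)`, `|n| = |p|^(j+1) |m|`.  The family `(m,(p,j)) ↦ …` is absolutely summable (product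
of `summable_Gs` and `summable_Lm`), so it may be summed in the other order (`tsum_mul_tsum_of_summable_norm`, `Summable.tsum_sigma`).
`summable_Lm`: `∑_p ∑_{j≥1} log|p| |p|^(-2(j+1)) ≤ C ∑_p log|p| |p|^(-4) < ∞`, `j = 0` from `summable_log`.
-/

set_option autoImplicit false

namespace Pool.Agent.MRG

open Pool.Agent.GaussPret

/-- `∑ g(n) log|n| |n|^(-2-σ)` -/
noncomputable def Ds (g : GaussianInt → ℂ) (σ : ℝ) : ℂ :=
  ∑' n : GaussianInt, g n * (Real.log (ab n) : ℂ) * ((ab n ^ (-(2 + σ)) : ℝ) : ℂ)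

/-- `∑ g(p)^(j+1) log|p| |p|^(-(j+1)(2+σ))` -/
noncomputable def Lm (g : GaussianInt → ℂ) (σ : ℝ) : ℂ :=
  ∑' q : P1 × ℕ, g q.1 ^ (q.2 + 1) * (Real.log (ab (q.1 : GaussianInt)) : ℂ) *
    ((ab (q.1 : GaussianInt) ^ (-(((q.2 : ℝ) + 1) * (2 + σ))) : ℝ) : ℂ)

theorem summable_Lm {g : GaussianInt → ℂ} (hg : ∀ n, n ≠ 0 → ‖g n‖ ≤ 1) {σ : ℝ} (hσ : 0 < σ) :
    Summable fun q : P1 × ℕ => ‖g q.1 ^ (q.2 + 1) * (Real.log (ab (q.1 : GaussianInt)) : ℂ) *
      ((ab (q.1 : GaussianInt) ^ (-(((q.2 : ℝ) + 1) * (2 + σ))) : ℝ) : ℂ)‖ := by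
  have h1 : Summable fun p : P1 => Real.log (ab (p : GaussianInt)) *
      ab (p : GaussianInt) ^ (-(2 + σ)) :=
    (summable_log hσ).comp_injective (i := fun p : P1 => (p : GaussianInt))
      Subtype.val_injective
  have h2 : Summable fun j : ℕ => ((1 : ℝ) / 2) ^ j := summable_geometric_two
  have h3 : Summable fun q : P1 × ℕ => (Real.log (ab (q.1 : GaussianInt)) *
      ab (q.1 : GaussianInt) ^ (-(2 + σ))) * ((1 : ℝ) / 2) ^ q.2 := by
    refine Summable.mul_of_nonneg h1 h2 ?_ ?_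
    · intro p
      show (0 : ℝ) ≤ Real.log (ab (p : GaussianInt)) * ab (p : GaussianInt) ^ (-(2 + σ))
      exact mul_nonneg (Real.log_nonneg (one_le_ab p.2.1.ne_zero))
        (Real.rpow_nonneg (ab_nonneg _) _)
    · intro j
      show (0 : ℝ) ≤ ((1 : ℝ) / 2) ^ j
      positivity
  refine Summable.of_nonneg_of_le (fun q => norm_nonneg _) (fun q => ?_) h3
  obtain ⟨p, j⟩ := q
  show ‖g p ^ (j + 1) * (Real.log (ab (p : GaussianInt)) : ℂ) *
      ((ab (p : GaussianInt) ^ (-(((j : ℝ) + 1) * (2 + σ))) : ℝ) : ℂ)‖ ≤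
    (Real.log (ab (p : GaussianInt)) * ab (p : GaussianInt) ^ (-(2 + σ))) * ((1 : ℝ) / 2) ^ j
  have hp0 : (p : GaussianInt) ≠ 0 := p.2.1.ne_zero
  have hl : 0 ≤ Real.log (ab (p : GaussianInt)) := Real.log_nonneg (one_le_ab hp0)
  have hpos : 0 < ab (p : GaussianInt) := ab_pos hp0
  rw [norm_mul, norm_mul, norm_pow, Complex.norm_real, Complex.norm_real, Real.norm_of_nonneg hl,
    Real.norm_of_nonneg (Real.rpow_nonneg (ab_nonneg _) _)]
  have h4 : ‖g (p : GaussianInt)‖ ^ (j + 1) ≤ 1 := pow_le_one₀ (norm_nonneg _) (hg _ hp0)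
  have h5 : ab (p : GaussianInt) ^ (-(((j : ℝ) + 1) * (2 + σ))) =
      ab (p : GaussianInt) ^ (-(2 + σ)) * (ab (p : GaussianInt) ^ (-(2 + σ))) ^ j := by
    rw [← Real.rpow_natCast, ← Real.rpow_mul hpos.le, ← Real.rpow_add hpos]
    congr 1
    ring
  have h6 : ab (p : GaussianInt) ^ (-(2 + σ)) ≤ 1 / 2 := by
    have h7 : ab (p : GaussianInt) ^ (-(2 + σ)) ≤ ab (p : GaussianInt) ^ (-(2 : ℝ)) :=
      Real.rpow_le_rpow_of_exponent_le (one_le_ab hp0) (by linarith)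
    have h8 : ab (p : GaussianInt) ^ (-(2 : ℝ)) = 1 / ab (p : GaussianInt) ^ 2 := by
      rw [Real.rpow_neg hpos.le, Real.rpow_two, one_div]
    have h9 : (2 : ℝ) ≤ ab (p : GaussianInt) ^ 2 := by
      have h10 := sqrt_two_le_ab p.2.1
      have h11 : Real.sqrt 2 ^ 2 = 2 := Real.sq_sqrt (by norm_num)
      calc (2 : ℝ) = Real.sqrt 2 ^ 2 := h11.symm
        _ ≤ _ := pow_le_pow_left₀ (Real.sqrt_nonneg 2) h10 2
    rw [h8] at h7
    refine h7.trans ?_
    exact one_div_le_one_div_of_le (by norm_num) h9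
  have h12 : 0 ≤ ab (p : GaussianInt) ^ (-(2 + σ)) := Real.rpow_nonneg (ab_nonneg _) _
  rw [h5]
  have h13 : (ab (p : GaussianInt) ^ (-(2 + σ))) ^ j ≤ ((1 : ℝ) / 2) ^ j :=
    pow_le_pow_left₀ h12 h6 j
  calc ‖g (p : GaussianInt)‖ ^ (j + 1) * Real.log (ab (p : GaussianInt)) *
        (ab (p : GaussianInt) ^ (-(2 + σ)) * (ab (p : GaussianInt) ^ (-(2 + σ))) ^ j)
      ≤ 1 * Real.log (ab (p : GaussianInt)) *
        (ab (p : GaussianInt) ^ (-(2 + σ)) * ((1 : ℝ) / 2) ^ j) := by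
        gcongr
    _ = _ := by ring

private theorem ab_pow' (p : GaussianInt) (j : ℕ) : ab (p ^ j) = ab p ^ j := by
  induction j with
  | zero => simp [ab_one]
  | succ j ih => rw [pow_succ, ab_mul, ih, pow_succ]

private theorem CM_pow' {g : GaussianInt → ℂ} (hg : CM g) {p : GaussianInt} (hp : p ≠ 0) (j : ℕ) :
    g (p ^ j) = g p ^ j := by
  induction j with
  | zero => simp [hg.map_one]
  | succ j ih => rw [pow_succ, hg.mul _ _ (pow_ne_zero j hp) hp, ih, pow_succ]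

open scoped Classical in
/-- `∑_{(p,j), p^(j+1) ∣ n} log|p| = log |n|` -/
private theorem hasSum_log {n : GaussianInt} (hn : n ≠ 0) :
    ∑' q : P1 × ℕ, (if (q.1 : GaussianInt) ^ (q.2 + 1) ∣ n then
      (Real.log (ab (q.1 : GaussianInt)) : ℂ) else 0) = (Real.log (ab n) : ℂ) := by
  have hpr : ∀ p ∈ pr 1 (ab n), Prime p ∧ 0 < p.re ∧ 0 ≤ p.im := fun p hp => (mem_pr.1 hp).1
  -- finite set containing the support
  let T : Finset P1 := (pr 1 (ab n)).subtype (fun p => Prime p ∧ 0 < p.re ∧ 0 ≤ p.im)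
  let M : ℕ := T.sup (fun p => multiplicity (p : GaussianInt) n)
  have hmul : ∀ p : P1, ∀ j : ℕ, (p : GaussianInt) ^ (j + 1) ∣ n ↔
      j < multiplicity (p : GaussianInt) n := by
    intro p j
    have hfin : FiniteMultiplicity (p : GaussianInt) n :=
      FiniteMultiplicity.of_prime_left p.2.1 hn
    rw [hfin.pow_dvd_iff_le_multiplicity]
    exact Nat.succ_le_iff
  have hT : ∀ p : P1, (p : GaussianInt) ∣ n → p ∈ T := by
    intro p hp
    rw [Finset.mem_subtype, mem_pr]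
    refine ⟨p.2, one_lt_ab_prime p.2.1, ?_⟩
    obtain ⟨c, rfl⟩ := hp
    rw [ab_mul]
    exact le_mul_of_one_le_right (ab_nonneg _) (one_le_ab (right_ne_zero_of_mul hn))
  rw [tsum_eq_sum (s := T ×ˢ Finset.range M)]
  · rw [Finset.sum_product]
    have h1 : ∀ p ∈ T, ∑ j ∈ Finset.range M, (if (p : GaussianInt) ^ (j + 1) ∣ n then
        (Real.log (ab (p : GaussianInt)) : ℂ) else 0) =
        (((multiplicity (p : GaussianInt) n : ℝ) * Real.log (ab (p : GaussianInt)) : ℝ) : ℂ) := by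
      intro p hp
      rw [← Finset.sum_filter]
      have h2 : (Finset.range M).filter (fun j => (p : GaussianInt) ^ (j + 1) ∣ n) =
          Finset.range (multiplicity (p : GaussianInt) n) := by
        ext j
        rw [Finset.mem_filter, Finset.mem_range, Finset.mem_range, hmul p j]
        constructor
        · exact fun h => h.2
        · intro h
          refine ⟨lt_of_lt_of_le h ?_, h⟩
          exact Finset.le_sup (f := fun p : P1 => multiplicity (p : GaussianInt) n) hp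
      rw [h2, Finset.sum_const, Finset.card_range, nsmul_eq_mul]
      push_cast
      ring
    rw [Finset.sum_congr rfl h1]
    rw [log_eq n hn (ab n) le_rfl]
    rw [← Complex.ofReal_sum]
    congr 1
    rw [Finset.sum_subtype_of_mem
      (f := fun p : GaussianInt => (multiplicity p n : ℝ) * Real.log (ab p)) hpr]
  · intro q hq
    rw [if_neg]
    intro hd
    apply hq
    rw [Finset.mem_product]
    have hd1 : (q.1 : GaussianInt) ∣ n := (dvd_pow_self _ (Nat.succ_ne_zero _)).trans hd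
    have hqT := hT q.1 hd1
    refine ⟨hqT, ?_⟩
    rw [Finset.mem_range]
    refine lt_of_lt_of_le ((hmul q.1 q.2).1 hd) ?_
    exact Finset.le_sup (f := fun p : P1 => multiplicity (p : GaussianInt) n) hqT

theorem log_id {g : GaussianInt → ℂ} (hg : CM g) {σ : ℝ} (hσ : 0 < σ) :
    Ds g σ = Gs g σ * Lm g σ := by
  classical
  have hexp : -(2 + σ) ≠ 0 := by linarith
  have hab0 : ab 0 = 0 := by simp [ab]
  have hz : ab 0 ^ (-(2 + σ)) = 0 := by rw [hab0, Real.zero_rpow hexp]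
  have hGs : Summable fun n : GaussianInt => ‖g n * ((ab n ^ (-(2 + σ)) : ℝ) : ℂ)‖ :=
    (summable_Gs (fun n hn => hg.le n hn) hσ).norm
  have hLm := summable_Lm (g := g) (fun n hn => hg.le n hn) hσ
  -- the two families
  let F : GaussianInt × (P1 × ℕ) → ℂ := fun x =>
    (g x.1 * ((ab x.1 ^ (-(2 + σ)) : ℝ) : ℂ)) *
      (g x.2.1 ^ (x.2.2 + 1) * (Real.log (ab (x.2.1 : GaussianInt)) : ℂ) *
        ((ab (x.2.1 : GaussianInt) ^ (-(((x.2.2 : ℝ) + 1) * (2 + σ))) : ℝ) : ℂ))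
  let H : GaussianInt × (P1 × ℕ) → ℂ := fun x =>
    (g x.1 * ((ab x.1 ^ (-(2 + σ)) : ℝ) : ℂ)) *
      (if (x.2.1 : GaussianInt) ^ (x.2.2 + 1) ∣ x.1 then
        (Real.log (ab (x.2.1 : GaussianInt)) : ℂ) else 0)
  let φ : GaussianInt × (P1 × ℕ) → GaussianInt × (P1 × ℕ) := fun x =>
    ((x.2.1 : GaussianInt) ^ (x.2.2 + 1) * x.1, x.2)
  have hφ : Function.Injective φ := by
    rintro ⟨m, p, j⟩ ⟨m', p', j'⟩ h
    have h1 : ((p : GaussianInt) ^ (j + 1) * m, (p, j)) =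
      ((p' : GaussianInt) ^ (j' + 1) * m', (p', j')) := h
    rw [Prod.mk.injEq] at h1
    obtain ⟨h2, h3⟩ := h1
    rw [Prod.mk.injEq] at h3
    obtain ⟨rfl, rfl⟩ := h3
    have h4 := mul_left_cancel₀ (pow_ne_zero (j + 1) p.2.1.ne_zero) h2
    rw [h4]
  have hFH : H ∘ φ = F := by
    funext x
    obtain ⟨m, p, j⟩ := x
    show (g ((p : GaussianInt) ^ (j + 1) * m) *
        ((ab ((p : GaussianInt) ^ (j + 1) * m) ^ (-(2 + σ)) : ℝ) : ℂ)) *
      (if (p : GaussianInt) ^ (j + 1) ∣ (p : GaussianInt) ^ (j + 1) * m then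
        (Real.log (ab (p : GaussianInt)) : ℂ) else 0) =
      (g m * ((ab m ^ (-(2 + σ)) : ℝ) : ℂ)) *
      (g p ^ (j + 1) * (Real.log (ab (p : GaussianInt)) : ℂ) *
        ((ab (p : GaussianInt) ^ (-(((j : ℝ) + 1) * (2 + σ))) : ℝ) : ℂ))
    rw [if_pos (dvd_mul_right _ _)]
    by_cases hm : m = 0
    · rw [hm, mul_zero, hz]
      simp
    · have hp0 : (p : GaussianInt) ≠ 0 := p.2.1.ne_zero
      rw [hg.mul _ _ (pow_ne_zero _ hp0) hm, CM_pow' hg hp0, ab_mul, ab_pow']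
      have e1 : (ab (p : GaussianInt) ^ (j + 1) * ab m) ^ (-(2 + σ)) =
          ab (p : GaussianInt) ^ (-(((j : ℝ) + 1) * (2 + σ))) * ab m ^ (-(2 + σ)) := by
        rw [Real.mul_rpow (pow_nonneg (ab_nonneg _) _) (ab_nonneg _), ← Real.rpow_natCast,
          ← Real.rpow_mul (ab_nonneg _)]
        congr 2
        push_cast
        ring
      rw [e1]
      push_cast
      ring
  have hFsum : Summable F := by
    have := summable_mul_of_summable_norm hGs hLm
    exact this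
  have hFt : Gs g σ * Lm g σ = ∑' x, F x := by
    rw [Gs, Lm]
    exact tsum_mul_tsum_of_summable_norm hGs hLm
  have hsupp : ∀ x, x ∉ Set.range φ → H x = 0 := by
    rintro ⟨n, p, j⟩ hx
    show (g n * ((ab n ^ (-(2 + σ)) : ℝ) : ℂ)) *
      (if (p : GaussianInt) ^ (j + 1) ∣ n then
        (Real.log (ab (p : GaussianInt)) : ℂ) else 0) = 0
    rw [if_neg, mul_zero]
    rintro ⟨c, rfl⟩
    exact hx ⟨(c, (p, j)), rfl⟩
  have hHsum : Summable H := by
    rw [← hφ.summable_iff hsupp, hFH]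
    exact hFsum
  have hHt : ∑' x, F x = ∑' x, H x := by
    rw [← hFH]
    exact hφ.tsum_eq (fun x hx => by
      by_contra h
      exact hx (hsupp x h))
  rw [hFt, hHt, hHsum.tsum_prod, Ds]
  refine tsum_congr fun n => ?_
  show _ = ∑' q : P1 × ℕ, (g n * ((ab n ^ (-(2 + σ)) : ℝ) : ℂ)) *
      (if (q.1 : GaussianInt) ^ (q.2 + 1) ∣ n then
        (Real.log (ab (q.1 : GaussianInt)) : ℂ) else 0)
  rw [tsum_mul_left]
  by_cases hn : n = 0
  · rw [hn, hz]
    simp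
  · rw [hasSum_log hn]
    ring

end Pool.Agent.MRG
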