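import Pool.Agent.MRG.UnitMV
import Pool.Agent.MRG.LogId

/-!
# Module MVal: mean values of `Lm` and `Ds` over unit intervals

`tw g t n = g n |n|^(-it)`, `ch (-t) 0 n = e^(-it log|n|)`, and `(tw g t) p ^ (j+1) = g(p)^(j+1) e^(-it (j+1) log|p|)`.  Apply `unit_mv`:
* `mv_L`: index set `P1 × ℕ`, `x = (j+1) log|p|`, `d = g(p)^(j+1) log|p| |p|^(-(j+1)(2+σ))`; for `x ∈ [i, i+1)`:
  `∑ |d| ≤ e^(-(2+σ)i) ∑_{j ≥ 0} ∑_{|p|^(j+1) ≤ e^(i+1)} log|p| ≤ e^(-(2+σ)i) (C e^(2(i+1)) + (C (i+1)) C e^(i+1)) ≤ C e^(-σi)` (`cheb`; only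
  `j + 1 ≤ (i+1)/log √2` occur, and `e^(2(i+1)/(j+1)) ≤ e^(i+1)` for `j ≥ 1`).  `∑_i e^(-2σi) ≤ C/σ`.
* `mv_D`: index set `GaussianInt`, `x = log|n|` (`n = 0`: `d = 0`, `log (ab 0) = 0`), `∑_{x ∈ [i,i+1)} |d| ≤ 9 e^(2(i+1)) (i+1) e^(-(2+σ)i) ≤ C (i+1) e^(-σi)`,
  `∑_i (i+1)² e^(-2σi) ≤ C/σ³`.
Also continuity in `t` (uniform convergence).
-/

set_option autoImplicit false

namespace Pool.Agent.MRG

open Pool.Agent.GaussPret

namespace MValAux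

/-- the coefficients of `Lm` -/
noncomputable def dL (g : GaussianInt → ℂ) (σ : ℝ) (q : P1 × ℕ) : ℂ :=
  g q.1 ^ (q.2 + 1) * (Real.log (ab (q.1 : GaussianInt)) : ℂ) *
    ((ab (q.1 : GaussianInt) ^ (-(((q.2 : ℝ) + 1) * (2 + σ))) : ℝ) : ℂ)

/-- the frequencies of `Lm` -/
noncomputable def xL (q : P1 × ℕ) : ℝ := ((q.2 : ℝ) + 1) * Real.log (ab (q.1 : GaussianInt))

/-- the coefficients of `Ds` -/
noncomputable def dD (g : GaussianInt → ℂ) (σ : ℝ) (n : GaussianInt) : ℂ :=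
  g n * (Real.log (ab n) : ℂ) * ((ab n ^ (-(2 + σ)) : ℝ) : ℂ)

theorem ab_zero : ab 0 = 0 := by simp [ab]

theorem log_nonneg (n : GaussianInt) : 0 ≤ Real.log (ab n) := by
  by_cases h : n = 0
  · rw [h, ab_zero, Real.log_zero]
  · exact Real.log_nonneg (one_le_ab h)

theorem tw_eq (g : GaussianInt → ℂ) (t : ℝ) (n : GaussianInt) :
    tw g t n = g n * Complex.exp (((-(t * Real.log (ab n)) : ℝ) : ℂ) * Complex.I) := by
  rw [tw, ch]
  congr 3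
  push_cast
  ring

theorem Lm_tw (g : GaussianInt → ℂ) (t σ : ℝ) :
    Lm (tw g t) σ = ∑' q : P1 × ℕ, dL g σ q *
      Complex.exp (((-(t * xL q) : ℝ) : ℂ) * Complex.I) := by
  rw [Lm]
  refine tsum_congr fun q => ?_
  rw [tw_eq, mul_pow, ← Complex.exp_nat_mul, dL, xL]
  have e : (((q.2 + 1 : ℕ)) : ℂ) *
      (((-(t * Real.log (ab (q.1 : GaussianInt))) : ℝ) : ℂ) * Complex.I) =
      ((-(t * (((q.2 : ℝ) + 1) * Real.log (ab (q.1 : GaussianInt)))) : ℝ) : ℂ) * Complex.I := by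
    push_cast
    ring
  rw [e]
  ring

theorem Ds_tw (g : GaussianInt → ℂ) (t σ : ℝ) :
    Ds (tw g t) σ = ∑' n : GaussianInt, dD g σ n *
      Complex.exp (((-(t * Real.log (ab n)) : ℝ) : ℂ) * Complex.I) := by
  rw [Ds]
  refine tsum_congr fun n => ?_
  rw [tw_eq, dD]
  ring

theorem norm_mul_exp (z : ℂ) (x : ℝ) : ‖z * Complex.exp ((x : ℂ) * Complex.I)‖ = ‖z‖ := by
  rw [norm_mul, Complex.norm_exp_ofReal_mul_I, mul_one]

theorem norm_dD_le {g : GaussianInt → ℂ} (hg : ∀ n, n ≠ 0 → ‖g n‖ ≤ 1) (σ : ℝ)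
    (n : GaussianInt) : ‖dD g σ n‖ ≤ Real.log (ab n) * ab n ^ (-(2 + σ)) := by
  by_cases h : n = 0
  · rw [dD, h, ab_zero, Real.log_zero]
    simp
  · rw [dD, norm_mul, norm_mul, Complex.norm_real, Complex.norm_real,
      Real.norm_of_nonneg (log_nonneg n), Real.norm_of_nonneg (Real.rpow_nonneg (ab_nonneg n) _)]
    have h1 : 0 ≤ Real.log (ab n) * ab n ^ (-(2 + σ)) :=
      mul_nonneg (log_nonneg n) (Real.rpow_nonneg (ab_nonneg n) _)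
    calc ‖g n‖ * Real.log (ab n) * ab n ^ (-(2 + σ)) =
        ‖g n‖ * (Real.log (ab n) * ab n ^ (-(2 + σ))) := by ring
      _ ≤ 1 * (Real.log (ab n) * ab n ^ (-(2 + σ))) := mul_le_mul_of_nonneg_right (hg n h) h1
      _ = _ := one_mul _

theorem summable_dD {g : GaussianInt → ℂ} (hg : ∀ n, n ≠ 0 → ‖g n‖ ≤ 1) {σ : ℝ} (hσ : 0 < σ) :
    Summable fun n => ‖dD g σ n‖ :=
  Summable.of_nonneg_of_le (fun _ => norm_nonneg _) (norm_dD_le hg σ) (summable_log hσ)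

theorem summable_dL {g : GaussianInt → ℂ} (hg : ∀ n, n ≠ 0 → ‖g n‖ ≤ 1) {σ : ℝ} (hσ : 0 < σ) :
    Summable fun q => ‖dL g σ q‖ := summable_Lm hg hσ

theorem cont_exp (x : ℝ) :
    Continuous fun t : ℝ => Complex.exp (((-(t * x) : ℝ) : ℂ) * Complex.I) := by
  fun_prop

/-- the geometric sum -/
theorem geom {σ : ℝ} (h0 : 0 < σ) (h1 : σ ≤ 1) :
    Summable (fun j : ℕ => Real.exp (-(σ * j))) ∧
      ∑' j : ℕ, Real.exp (-(σ * j)) ≤ Real.exp 1 / σ := by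
  have h2 : (fun j : ℕ => Real.exp (-(σ * j))) = fun j : ℕ => (Real.exp (-σ)) ^ j := by
    funext j
    rw [← Real.exp_nat_mul]
    congr 1
    ring
  have h3 : Real.exp (-σ) < 1 := by
    rw [Real.exp_lt_one_iff]
    linarith
  rw [h2]
  refine ⟨summable_geometric_of_lt_one (Real.exp_pos _).le h3, ?_⟩
  rw [tsum_geometric_of_lt_one (Real.exp_pos _).le h3]
  have h4 : σ / Real.exp 1 ≤ 1 - Real.exp (-σ) := by
    have h5 : σ + 1 ≤ Real.exp σ := Real.add_one_le_exp σ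
    have h6 : Real.exp (-σ) * Real.exp σ = 1 := by
      rw [← Real.exp_add]
      simp
    have h7 : σ * Real.exp (-σ) ≤ 1 - Real.exp (-σ) := by
      have := mul_le_mul_of_nonneg_left h5 (Real.exp_pos (-σ)).le
      nlinarith
    have h8 : Real.exp (-1) ≤ Real.exp (-σ) := Real.exp_le_exp.2 (by linarith)
    have h9 : σ / Real.exp 1 = σ * Real.exp (-1) := by
      rw [Real.exp_neg, div_eq_mul_inv]
    rw [h9]
    exact (mul_le_mul_of_nonneg_left h8 h0.le).trans h7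
  have h5 : 0 < σ / Real.exp 1 := div_pos h0 (Real.exp_pos _)
  calc (1 - Real.exp (-σ))⁻¹ ≤ (σ / Real.exp 1)⁻¹ := inv_anti₀ h5 h4
    _ = Real.exp 1 / σ := inv_div _ _

theorem rpow_eq {n : GaussianInt} (h : n ≠ 0) (y : ℝ) :
    ab n ^ y = Real.exp (Real.log (ab n) * y) := Real.rpow_def_of_pos (ab_pos h) y

theorem block_D {g : GaussianInt → ℂ} (hg : ∀ n, n ≠ 0 → ‖g n‖ ≤ 1) {σ : ℝ} (h0 : 0 < σ)
    (j : ℕ) (s : Finset GaussianInt)
    (hs : ∀ n ∈ s, (j : ℝ) ≤ Real.log (ab n) ∧ Real.log (ab n) < j + 1) :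
    ∑ n ∈ s, ‖dD g σ n‖ ≤ 9 * Real.exp 2 * (((j : ℝ) + 1) * Real.exp (-(σ * j))) := by
  classical
  have h1 : ∑ n ∈ s, ‖dD g σ n‖ = ∑ n ∈ s.filter (fun n => n ≠ 0), ‖dD g σ n‖ := by
    rw [Finset.sum_filter]
    refine Finset.sum_congr rfl fun n _ => ?_
    by_cases h : n = 0
    · rw [if_neg (by simpa using h), dD, h, ab_zero, Real.log_zero]
      simp
    · rw [if_pos h]
  rw [h1]
  have h2 : ∀ n ∈ s.filter (fun n => n ≠ 0), ‖dD g σ n‖ ≤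
      ((j : ℝ) + 1) * Real.exp (-((2 + σ) * j)) := by
    intro n hn
    obtain ⟨hn1, hn2⟩ := Finset.mem_filter.1 hn
    obtain ⟨h3, h4⟩ := hs n hn1
    refine (norm_dD_le hg σ n).trans ?_
    rw [rpow_eq hn2]
    refine mul_le_mul h4.le (Real.exp_le_exp.2 ?_) (Real.exp_pos _).le (by positivity)
    nlinarith
  have h3 : s.filter (fun n => n ≠ 0) ⊆ ball (Real.exp ((j : ℝ) + 1)) := by
    intro n hn
    obtain ⟨hn1, hn2⟩ := Finset.mem_filter.1 hn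
    rw [mem_ball']
    refine ⟨hn2, ?_⟩
    rw [← Real.log_le_iff_le_exp (ab_pos hn2)]
    exact (hs n hn1).2.le
  have h4 : ((s.filter (fun n => n ≠ 0)).card : ℝ) ≤ 9 * Real.exp ((j : ℝ) + 1) ^ 2 :=
    (Nat.cast_le.2 (Finset.card_le_card h3)).trans (card_ball_le' _)
  have h5 : 0 ≤ ((j : ℝ) + 1) * Real.exp (-((2 + σ) * j)) := by positivity
  calc ∑ n ∈ s.filter (fun n => n ≠ 0), ‖dD g σ n‖ ≤
      ∑ n ∈ s.filter (fun n => n ≠ 0), ((j : ℝ) + 1) * Real.exp (-((2 + σ) * j)) :=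
        Finset.sum_le_sum h2
    _ = ((s.filter (fun n => n ≠ 0)).card : ℝ) * (((j : ℝ) + 1) * Real.exp (-((2 + σ) * j))) := by
        rw [Finset.sum_const, nsmul_eq_mul]
    _ ≤ 9 * Real.exp ((j : ℝ) + 1) ^ 2 * (((j : ℝ) + 1) * Real.exp (-((2 + σ) * j))) :=
        mul_le_mul_of_nonneg_right h4 h5
    _ = 9 * Real.exp 2 * (((j : ℝ) + 1) * Real.exp (-(σ * j))) := by
        have e : Real.exp ((j : ℝ) + 1) ^ 2 * Real.exp (-((2 + σ) * j)) =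
            Real.exp 2 * Real.exp (-(σ * j)) := by
          rw [← Real.exp_nat_mul, ← Real.exp_add, ← Real.exp_add]
          congr 1
          push_cast
          ring
        calc 9 * Real.exp ((j : ℝ) + 1) ^ 2 * (((j : ℝ) + 1) * Real.exp (-((2 + σ) * j))) =
            9 * ((j : ℝ) + 1) * (Real.exp ((j : ℝ) + 1) ^ 2 * Real.exp (-((2 + σ) * j))) := by ring
          _ = _ := by rw [e]; ring

theorem sq_bound {σ : ℝ} (h0 : 0 < σ) (h1 : σ ≤ 1) (j : ℕ) :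
    (9 * Real.exp 2 * (((j : ℝ) + 1) * Real.exp (-(σ * j)))) ^ 2 ≤
      81 * Real.exp 5 * 4 / σ ^ 2 * Real.exp (-(σ * j)) := by
  have h2 : σ * ((j : ℝ) + 1) / 2 ≤ Real.exp (σ * ((j : ℝ) + 1) / 2) := by
    have := Real.add_one_le_exp (σ * ((j : ℝ) + 1) / 2)
    linarith
  have h3 : (σ * ((j : ℝ) + 1) / 2) ^ 2 ≤ Real.exp (σ * ((j : ℝ) + 1)) := by
    have h4 := pow_le_pow_left₀ (by positivity) h2 2
    rw [← Real.exp_nat_mul] at h4
    have e : ((2 : ℕ) : ℝ) * (σ * ((j : ℝ) + 1) / 2) = σ * ((j : ℝ) + 1) := by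
      push_cast
      ring
    rw [e] at h4
    exact h4
  have h4 : ((j : ℝ) + 1) ^ 2 ≤ 4 / σ ^ 2 * Real.exp (σ * ((j : ℝ) + 1)) := by
    have e : ((j : ℝ) + 1) ^ 2 = 4 / σ ^ 2 * (σ * ((j : ℝ) + 1) / 2) ^ 2 := by
      field_simp
      ring
    rw [e]
    exact mul_le_mul_of_nonneg_left h3 (by positivity)
  have h5 : Real.exp (σ * ((j : ℝ) + 1)) * Real.exp (-(σ * j)) ^ 2 ≤
      Real.exp 1 * Real.exp (-(σ * j)) := by
    rw [← Real.exp_nat_mul, ← Real.exp_add, ← Real.exp_add]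
    apply Real.exp_le_exp.2
    push_cast
    nlinarith
  have h6 : Real.exp 2 ^ 2 * Real.exp 1 = Real.exp 5 := by
    rw [← Real.exp_nat_mul, ← Real.exp_add]
    congr 1
    norm_num
  calc (9 * Real.exp 2 * (((j : ℝ) + 1) * Real.exp (-(σ * j)))) ^ 2 =
      81 * Real.exp 2 ^ 2 * (((j : ℝ) + 1) ^ 2 * Real.exp (-(σ * j)) ^ 2) := by ring
    _ ≤ 81 * Real.exp 2 ^ 2 *
        (4 / σ ^ 2 * Real.exp (σ * ((j : ℝ) + 1)) * Real.exp (-(σ * j)) ^ 2) := by gcongr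
    _ = 81 * Real.exp 2 ^ 2 * (4 / σ ^ 2) *
        (Real.exp (σ * ((j : ℝ) + 1)) * Real.exp (-(σ * j)) ^ 2) := by ring
    _ ≤ 81 * Real.exp 2 ^ 2 * (4 / σ ^ 2) * (Real.exp 1 * Real.exp (-(σ * j))) := by gcongr
    _ = 81 * (Real.exp 2 ^ 2 * Real.exp 1) * 4 / σ ^ 2 * Real.exp (-(σ * j)) := by ring
    _ = _ := by rw [h6]

theorem log_sqrt_two : 1 / 3 ≤ Real.log (Real.sqrt 2) := by
  rw [Real.log_sqrt (by norm_num)]
  have := Real.log_two_gt_d9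
  linarith

theorem third_le (p : P1) : 1 / 3 ≤ Real.log (ab (p : GaussianInt)) :=
  log_sqrt_two.trans (Real.log_le_log (Real.sqrt_pos.2 (by norm_num)) (sqrt_two_le_ab p.2.1))

/-- sums over a column of a block -/
theorem col {C : ℝ} (hC0 : 0 < C) (hC : ∀ r : ℝ, 1 ≤ r →
      ∑ p ∈ pr 1 r, Real.log (ab p) ≤ C * r ^ 2) (i j : ℕ) (s : Finset (P1 × ℕ))
    (hs : ∀ q ∈ s, xL q < i + 1) :
    ∑ q ∈ s with q.2 = j, Real.log (ab (q.1 : GaussianInt)) ≤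
      C * Real.exp (2 * (((i : ℝ) + 1) / ((j : ℝ) + 1))) := by
  classical
  have hj : 0 < (j : ℝ) + 1 := by positivity
  have h1 : ∑ q ∈ s with q.2 = j, Real.log (ab (q.1 : GaussianInt)) =
      ∑ p ∈ (s.filter (fun q => q.2 = j)).image (fun q => (q.1 : GaussianInt)),
        Real.log (ab p) := by
    rw [Finset.sum_image]
    intro a ha b hb hab
    have ha2 := (Finset.mem_filter.1 ha).2
    have hb2 := (Finset.mem_filter.1 hb).2
    exact Prod.ext (Subtype.ext hab) (ha2.trans hb2.symm)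
  rw [h1]
  have h2 : (s.filter (fun q => q.2 = j)).image (fun q => (q.1 : GaussianInt)) ⊆
      pr 1 (Real.exp (((i : ℝ) + 1) / ((j : ℝ) + 1))) := by
    intro p hp
    obtain ⟨q, hq, rfl⟩ := Finset.mem_image.1 hp
    obtain ⟨hq1, hq2⟩ := Finset.mem_filter.1 hq
    rw [mem_pr]
    refine ⟨q.1.2, one_lt_ab_prime q.1.2.1, ?_⟩
    rw [← Real.log_le_iff_le_exp (ab_pos q.1.2.1.ne_zero), le_div_iff₀ hj]
    have h3 := hs q hq1
    rw [xL, hq2] at h3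
    linarith
  have h3 : 1 ≤ Real.exp (((i : ℝ) + 1) / ((j : ℝ) + 1)) := Real.one_le_exp (by positivity)
  calc ∑ p ∈ (s.filter (fun q => q.2 = j)).image (fun q => (q.1 : GaussianInt)),
        Real.log (ab p) ≤ ∑ p ∈ pr 1 (Real.exp (((i : ℝ) + 1) / ((j : ℝ) + 1))),
        Real.log (ab p) :=
        Finset.sum_le_sum_of_subset_of_nonneg h2 fun p _ _ => log_nonneg p
    _ ≤ C * Real.exp (((i : ℝ) + 1) / ((j : ℝ) + 1)) ^ 2 := hC _ h3
    _ = _ := by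
      rw [← Real.exp_nat_mul]
      norm_num

theorem block_log {C : ℝ} (hC0 : 0 < C) (hC : ∀ r : ℝ, 1 ≤ r →
      ∑ p ∈ pr 1 r, Real.log (ab p) ≤ C * r ^ 2) (i : ℕ) (s : Finset (P1 × ℕ))
    (hs : ∀ q ∈ s, xL q < i + 1) :
    ∑ q ∈ s, Real.log (ab (q.1 : GaussianInt)) ≤ 4 * C * Real.exp (2 * ((i : ℝ) + 1)) := by
  classical
  have h1 : ∀ q ∈ s, q.2 ∈ Finset.range (3 * (i + 1)) := by
    intro q hq
    rw [Finset.mem_range]
    have h2 := hs q hq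
    rw [xL] at h2
    have h3 := third_le q.1
    have h4 : ((q.2 : ℝ) + 1) * (1 / 3) ≤ ((q.2 : ℝ) + 1) * Real.log (ab (q.1 : GaussianInt)) :=
      mul_le_mul_of_nonneg_left h3 (by positivity)
    have h5 : (q.2 : ℝ) < 3 * ((i : ℝ) + 1) := by linarith
    exact_mod_cast h5
  rw [← Finset.sum_fiberwise_of_maps_to h1]
  have h2 : ∀ j ∈ Finset.range (3 * (i + 1)),
      ∑ q ∈ s with q.2 = j, Real.log (ab (q.1 : GaussianInt)) ≤
        C * Real.exp ((i : ℝ) + 1) + (if j = 0 then C * Real.exp (2 * ((i : ℝ) + 1)) else 0) := by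
    intro j _
    refine (col hC0 hC i j s hs).trans ?_
    by_cases hj : j = 0
    · rw [if_pos hj, hj]
      have e : 2 * (((i : ℝ) + 1) / (((0 : ℕ) : ℝ) + 1)) = 2 * ((i : ℝ) + 1) := by simp
      rw [e]
      have := mul_pos hC0 (Real.exp_pos ((i : ℝ) + 1))
      linarith
    · rw [if_neg hj, add_zero]
      refine mul_le_mul_of_nonneg_left (Real.exp_le_exp.2 ?_) hC0.le
      have hj1 : (1 : ℝ) ≤ j := by exact_mod_cast Nat.one_le_iff_ne_zero.2 hj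
      have hi : 0 ≤ (i : ℝ) + 1 := by positivity
      rw [mul_div_assoc', div_le_iff₀ (by positivity)]
      nlinarith
  refine (Finset.sum_le_sum h2).trans ?_
  rw [Finset.sum_add_distrib, Finset.sum_const, Finset.card_range, nsmul_eq_mul,
    Finset.sum_ite_eq' (Finset.range (3 * (i + 1))) 0
      (fun _ => C * Real.exp (2 * ((i : ℝ) + 1))), if_pos (Finset.mem_range.2 (by omega))]
  have h3 : (i : ℝ) + 1 ≤ Real.exp ((i : ℝ) + 1) := by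
    have := Real.add_one_le_exp ((i : ℝ) + 1)
    linarith
  have h4 : Real.exp ((i : ℝ) + 1) * Real.exp ((i : ℝ) + 1) = Real.exp (2 * ((i : ℝ) + 1)) := by
    rw [← Real.exp_add]
    congr 1
    ring
  have h5 : ((i : ℝ) + 1) * Real.exp ((i : ℝ) + 1) ≤ Real.exp (2 * ((i : ℝ) + 1)) := by
    rw [← h4]
    exact mul_le_mul_of_nonneg_right h3 (Real.exp_pos _).le
  push_cast
  nlinarith

theorem block_L {C : ℝ} (hC0 : 0 < C) (hC : ∀ r : ℝ, 1 ≤ r →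
      ∑ p ∈ pr 1 r, Real.log (ab p) ≤ C * r ^ 2) {g : GaussianInt → ℂ}
    (hg : ∀ n, n ≠ 0 → ‖g n‖ ≤ 1) {σ : ℝ} (h0 : 0 < σ) (i : ℕ) (s : Finset (P1 × ℕ))
    (hs : ∀ q ∈ s, (i : ℝ) ≤ xL q ∧ xL q < i + 1) :
    ∑ q ∈ s, ‖dL g σ q‖ ≤ 4 * C * Real.exp 2 * Real.exp (-(σ * i)) := by
  have h1 : ∀ q ∈ s, ‖dL g σ q‖ ≤
      Real.log (ab (q.1 : GaussianInt)) * Real.exp (-((2 + σ) * i)) := by
    intro q hq
    have hp0 : (q.1 : GaussianInt) ≠ 0 := q.1.2.1.ne_zero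
    rw [dL, norm_mul, norm_mul, norm_pow, Complex.norm_real, Complex.norm_real,
      Real.norm_of_nonneg (log_nonneg _),
      Real.norm_of_nonneg (Real.rpow_nonneg (ab_nonneg _) _), rpow_eq hp0]
    have h2 : ‖g q.1‖ ^ (q.2 + 1) ≤ 1 := pow_le_one₀ (norm_nonneg _) (hg _ hp0)
    have h3 : Real.exp (Real.log (ab (q.1 : GaussianInt)) * -(((q.2 : ℝ) + 1) * (2 + σ))) ≤
        Real.exp (-((2 + σ) * i)) := by
      apply Real.exp_le_exp.2
      have h4 := (hs q hq).1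
      rw [xL] at h4
      nlinarith
    have h4 := log_nonneg (q.1 : GaussianInt)
    calc ‖g q.1‖ ^ (q.2 + 1) * Real.log (ab (q.1 : GaussianInt)) *
        Real.exp (Real.log (ab (q.1 : GaussianInt)) * -(((q.2 : ℝ) + 1) * (2 + σ))) ≤
        1 * Real.log (ab (q.1 : GaussianInt)) * Real.exp (-((2 + σ) * i)) := by gcongr
      _ = _ := by ring
  calc ∑ q ∈ s, ‖dL g σ q‖ ≤
      ∑ q ∈ s, Real.log (ab (q.1 : GaussianInt)) * Real.exp (-((2 + σ) * i)) :=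
        Finset.sum_le_sum h1
    _ = (∑ q ∈ s, Real.log (ab (q.1 : GaussianInt))) * Real.exp (-((2 + σ) * i)) := by
        rw [Finset.sum_mul]
    _ ≤ (4 * C * Real.exp (2 * ((i : ℝ) + 1))) * Real.exp (-((2 + σ) * i)) :=
        mul_le_mul_of_nonneg_right (block_log hC0 hC i s fun q hq => (hs q hq).2)
          (Real.exp_pos _).le
    _ = 4 * C * (Real.exp (2 * ((i : ℝ) + 1)) * Real.exp (-((2 + σ) * i))) := by ring
    _ = 4 * C * (Real.exp 2 * Real.exp (-(σ * i))) := by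
        rw [← Real.exp_add, ← Real.exp_add]
        congr 2
        ring
    _ = _ := by ring

theorem xL_nonneg (q : P1 × ℕ) : 0 ≤ xL q := mul_nonneg (by positivity) (log_nonneg _)

end MValAux

open MValAux

theorem cont_Lm {g : GaussianInt → ℂ} (hg : ∀ n, n ≠ 0 → ‖g n‖ ≤ 1) {σ : ℝ} (hσ : 0 < σ) :
    Continuous fun t : ℝ => Lm (tw g t) σ := by
  simp_rw [Lm_tw]
  refine continuous_tsum (fun q => continuous_const.mul (cont_exp (xL q))) (summable_dL hg hσ)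
    fun q t => ?_
  rw [norm_mul_exp]

theorem cont_Ds {g : GaussianInt → ℂ} (hg : ∀ n, n ≠ 0 → ‖g n‖ ≤ 1) {σ : ℝ} (hσ : 0 < σ) :
    Continuous fun t : ℝ => Ds (tw g t) σ := by
  simp_rw [Ds_tw]
  refine continuous_tsum (fun n => continuous_const.mul (cont_exp (Real.log (ab n))))
    (summable_dD hg hσ) fun n t => ?_
  rw [norm_mul_exp]

theorem bdd_Ds {g : GaussianInt → ℂ} (hg : ∀ n, n ≠ 0 → ‖g n‖ ≤ 1) {σ : ℝ} (hσ : 0 < σ) :
    ∃ B : ℝ, ∀ t : ℝ, ‖Ds (tw g t) σ‖ ≤ B := by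
  refine ⟨∑' n, ‖dD g σ n‖, fun t => ?_⟩
  rw [Ds_tw]
  have h1 : (fun n => ‖dD g σ n * Complex.exp (((-(t * Real.log (ab n)) : ℝ) : ℂ) *
      Complex.I)‖) = fun n => ‖dD g σ n‖ := by
    funext n
    exact norm_mul_exp _ _
  have h2 := norm_tsum_le_tsum_norm (f := fun n => dD g σ n *
    Complex.exp (((-(t * Real.log (ab n)) : ℝ) : ℂ) * Complex.I))
    (by rw [h1]; exact summable_dD hg hσ)
  rw [h1] at h2
  exact h2

theorem mv_L : ∃ C : ℝ, 0 < C ∧ ∀ g : GaussianInt → ℂ, (∀ n, n ≠ 0 → ‖g n‖ ≤ 1) →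
    ∀ σ t0 : ℝ, 0 < σ → σ ≤ 1 → ∫ t in t0..(t0 + 1), ‖Lm (tw g t) σ‖ ^ 2 ≤ C / σ := by
  obtain ⟨C1, hC1, H⟩ := unit_mv
  obtain ⟨C2, hC2, hC⟩ := cheb
  refine ⟨C1 * ((4 * C2 * Real.exp 2) ^ 2 * Real.exp 1), by positivity,
    fun g hg σ t0 h0 h1 => ?_⟩
  obtain ⟨hsum, hle⟩ := geom h0 h1
  have h2 : ∀ j : ℕ, (4 * C2 * Real.exp 2 * Real.exp (-(σ * j))) ^ 2 ≤
      (4 * C2 * Real.exp 2) ^ 2 * Real.exp (-(σ * j)) := by
    intro j
    rw [mul_pow]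
    refine mul_le_mul_of_nonneg_left ?_ (by positivity)
    have h3 : Real.exp (-(σ * j)) ≤ 1 := by
      rw [Real.exp_le_one_iff]
      have : 0 ≤ σ * j := by positivity
      linarith
    rw [sq]
    exact mul_le_of_le_one_left (Real.exp_pos _).le h3
  have h3 : Summable fun j : ℕ => (4 * C2 * Real.exp 2) ^ 2 * Real.exp (-(σ * j)) :=
    hsum.mul_left _
  have h4 : Summable fun j : ℕ => (4 * C2 * Real.exp 2 * Real.exp (-(σ * j))) ^ 2 :=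
    Summable.of_nonneg_of_le (fun _ => sq_nonneg _) h2 h3
  have h5 := H (P1 × ℕ) xL (dL g σ) (fun j => 4 * C2 * Real.exp 2 * Real.exp (-(σ * j)))
    xL_nonneg (summable_dL hg h0) (fun j s hs => block_L hC2 hC hg h0 j s hs) h4 t0
  have h6 : ∑' j : ℕ, (4 * C2 * Real.exp 2 * Real.exp (-(σ * j))) ^ 2 ≤
      (4 * C2 * Real.exp 2) ^ 2 * (Real.exp 1 / σ) := by
    calc ∑' j : ℕ, (4 * C2 * Real.exp 2 * Real.exp (-(σ * j))) ^ 2 ≤
        ∑' j : ℕ, (4 * C2 * Real.exp 2) ^ 2 * Real.exp (-(σ * j)) := h4.tsum_le_tsum h2 h3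
      _ = (4 * C2 * Real.exp 2) ^ 2 * ∑' j : ℕ, Real.exp (-(σ * j)) := tsum_mul_left
      _ ≤ _ := mul_le_mul_of_nonneg_left hle (by positivity)
  simp_rw [Lm_tw]
  refine h5.trans ?_
  calc C1 * ∑' j : ℕ, (4 * C2 * Real.exp 2 * Real.exp (-(σ * j))) ^ 2 ≤
      C1 * ((4 * C2 * Real.exp 2) ^ 2 * (Real.exp 1 / σ)) :=
        mul_le_mul_of_nonneg_left h6 hC1.le
    _ = _ := by ring

theorem mv_D : ∃ C : ℝ, 0 < C ∧ ∀ g : GaussianInt → ℂ, (∀ n, n ≠ 0 → ‖g n‖ ≤ 1) →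
    ∀ σ t0 : ℝ, 0 < σ → σ ≤ 1 → ∫ t in t0..(t0 + 1), ‖Ds (tw g t) σ‖ ^ 2 ≤ C / σ ^ 3 := by
  obtain ⟨C1, hC1, H⟩ := unit_mv
  refine ⟨C1 * (81 * Real.exp 5 * 4 * Real.exp 1), by positivity, fun g hg σ t0 h0 h1 => ?_⟩
  obtain ⟨hsum, hle⟩ := geom h0 h1
  have h2 := sq_bound h0 h1
  have h3 : Summable fun j : ℕ => 81 * Real.exp 5 * 4 / σ ^ 2 * Real.exp (-(σ * j)) :=
    hsum.mul_left _
  have h4 : Summable fun j : ℕ =>
      (9 * Real.exp 2 * (((j : ℝ) + 1) * Real.exp (-(σ * j)))) ^ 2 :=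
    Summable.of_nonneg_of_le (fun _ => sq_nonneg _) h2 h3
  have h5 := H GaussianInt (fun n => Real.log (ab n)) (dD g σ)
    (fun j => 9 * Real.exp 2 * (((j : ℝ) + 1) * Real.exp (-(σ * j))))
    log_nonneg (summable_dD hg h0) (fun j s hs => block_D hg h0 j s hs) h4 t0
  have h6 : ∑' j : ℕ, (9 * Real.exp 2 * (((j : ℝ) + 1) * Real.exp (-(σ * j)))) ^ 2 ≤
      81 * Real.exp 5 * 4 / σ ^ 2 * (Real.exp 1 / σ) := by
    calc ∑' j : ℕ, (9 * Real.exp 2 * (((j : ℝ) + 1) * Real.exp (-(σ * j)))) ^ 2 ≤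
        ∑' j : ℕ, 81 * Real.exp 5 * 4 / σ ^ 2 * Real.exp (-(σ * j)) := h4.tsum_le_tsum h2 h3
      _ = 81 * Real.exp 5 * 4 / σ ^ 2 * ∑' j : ℕ, Real.exp (-(σ * j)) := tsum_mul_left
      _ ≤ _ := mul_le_mul_of_nonneg_left hle (by positivity)
  simp_rw [Ds_tw]
  refine h5.trans ?_
  calc C1 * ∑' j : ℕ, (9 * Real.exp 2 * (((j : ℝ) + 1) * Real.exp (-(σ * j)))) ^ 2 ≤
      C1 * (81 * Real.exp 5 * 4 / σ ^ 2 * (Real.exp 1 / σ)) :=
        mul_le_mul_of_nonneg_left h6 hC1.le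
    _ = _ := by
      have : σ ≠ 0 := h0.ne'
      field_simp

end Pool.Agent.MRG
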