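import Pool.Agent.MRG.Planch
import Pool.Agent.MRG.MVal

/-!
# Module Lapl: the Laplace transform of the summatory function

`lapl`: `SL g v = ∑_{n ∈ ball (e^v)} g(n) log|n|`, each `n ≠ 0` contributes
`∫_{log|n|}^∞ e^(-(2+σ+it)v) dv = |n|^(-(2+σ+it))/(2+σ+it)`; interchange sum and integral (`integral_tsum` / `hasSum_integral_of_summable_integral_norm`;
`∑ log|n| |n|^(-2-σ) < ∞`).

`lapl_sq`: `planch` with `b(v) = SL g v e^(-(2+σ)v)` for `v > 0`, `0` for `v ≤ 0`, `σ = 1/u`; `|b(v)| ≤ 9 v e^(-σv)`; the transform is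
`Ds (tw g t) σ/(2+σ+it)`, bounded by `B/(4+t²)^(1/2)`.  `e^(-2σv) ≥ e^(-2)` for `v ≤ u`.
-/

set_option autoImplicit false

open MeasureTheory

namespace Pool.Agent.MRG

open Pool.Agent.GaussPret

namespace LaplAux

theorem countable_G : Countable GaussianInt := by
  have h : Function.Injective fun z : GaussianInt => (z.re, z.im) := by
    intro a b hab
    simp only [Prod.mk.injEq] at hab
    exact Zsqrtd.ext hab.1 hab.2
  exact h.countable

/-- one term of the Laplace transform -/
noncomputable def tm (g : GaussianInt → ℂ) (s : ℂ) (n : GaussianInt) : ℝ → ℂ :=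
  (Set.Ici (Real.log (ab n))).indicator fun v : ℝ =>
    g n * (Real.log (ab n) : ℂ) * Complex.exp (-(s * v))

theorem log_ab_nonneg (n : GaussianInt) : 0 ≤ Real.log (ab n) := by
  by_cases h : n = 0
  · subst h
    simp [ab]
  · exact Real.log_nonneg (one_le_ab h)

theorem log_ab_zero : Real.log (ab 0) = 0 := by simp [ab]

theorem set_ae {L : ℝ} (hL : 0 ≤ L) :
    (Set.Ioi (0 : ℝ) ∩ Set.Ici L : Set ℝ) =ᵐ[volume] Set.Ioi L := by
  have h1 : (Set.Ioi (0 : ℝ) ∩ Set.Ici L : Set ℝ) =ᵐ[volume] (Set.Ioi (0 : ℝ) ∩ Set.Ioi L : Set ℝ) :=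
    (ae_eq_refl _).inter Ioi_ae_eq_Ici.symm
  have h2 : (Set.Ioi (0 : ℝ) ∩ Set.Ioi L : Set ℝ) = Set.Ioi L := by
    ext x
    simp only [Set.mem_inter_iff, Set.mem_Ioi]
    constructor
    · exact fun h => h.2
    · exact fun h => ⟨hL.trans_lt h, h⟩
  rw [h2] at h1
  exact h1

theorem SL_eq_tsum (g : GaussianInt → ℂ) (s : ℂ) (v : ℝ) :
    SL g v * Complex.exp (-(s * v)) = ∑' n : GaussianInt, tm g s n v := by
  rw [tsum_eq_sum (s := ball (Real.exp v))]
  · rw [SL, Finset.sum_mul]
    apply Finset.sum_congr rfl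
    intro n hn
    rw [mem_ball'] at hn
    rw [tm, Set.indicator_of_mem]
    rw [Set.mem_Ici]
    rw [Real.log_le_iff_le_exp (ab_pos hn.1)]
    exact hn.2
  · intro n hn
    rw [mem_ball'] at hn
    by_cases h : n = 0
    · subst h
      rw [tm, log_ab_zero]
      simp
    · rw [tm, Set.indicator_of_notMem]
      rw [Set.mem_Ici, Real.log_le_iff_le_exp (ab_pos h)]
      intro h'
      exact hn ⟨h, h'⟩

theorem int_tm (g : GaussianInt → ℂ) {s : ℂ} (hs : 0 < s.re) (n : GaussianInt) :
    Integrable (tm g s n) := by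
  have h1 : IntegrableOn (fun v : ℝ => Complex.exp (-s * v)) (Set.Ioi (Real.log (ab n))) :=
    integrableOn_exp_mul_complex_Ioi (by simpa using hs) _
  have h2 := ((integrableOn_Ici_iff_integrableOn_Ioi (by simp)).2 h1).const_mul (g n * (Real.log (ab n) : ℂ))
  have h3 := IntegrableOn.integrable_indicator h2 measurableSet_Ici
  refine h3.congr (Filter.Eventually.of_forall fun v => ?_)
  simp only [tm, neg_mul]

theorem integral_tm (g : GaussianInt → ℂ) {s : ℂ} (hs : 0 < s.re) (n : GaussianInt) :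
    ∫ v in Set.Ioi (0 : ℝ), tm g s n v =
      g n * (Real.log (ab n) : ℂ) * (Complex.exp (-(s * (Real.log (ab n) : ℝ))) / s) := by
  unfold tm
  rw [setIntegral_indicator measurableSet_Ici, setIntegral_congr_set (set_ae (log_ab_nonneg n)),
    integral_const_mul]
  have h : ∫ v in Set.Ioi (Real.log (ab n)), Complex.exp (-(s * (v : ℝ))) =
      ∫ v in Set.Ioi (Real.log (ab n)), Complex.exp (-s * (v : ℝ)) := by
    congr 1
    ext v
    rw [neg_mul]
  rw [h, integral_exp_mul_complex_Ioi (by simpa using hs), neg_mul, neg_div_neg_eq]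

theorem norm_tm (g : GaussianInt → ℂ) (s : ℂ) (n : GaussianInt) (v : ℝ) :
    ‖tm g s n v‖ = (Set.Ici (Real.log (ab n))).indicator (fun v : ℝ =>
      ‖g n‖ * Real.log (ab n) * Real.exp (-s.re * v)) v := by
  rw [tm]
  by_cases h : v ∈ Set.Ici (Real.log (ab n))
  · rw [Set.indicator_of_mem h, Set.indicator_of_mem h, norm_mul, norm_mul, Complex.norm_real,
      Real.norm_of_nonneg (log_ab_nonneg n), Complex.norm_exp]
    congr 2
    simp
  · rw [Set.indicator_of_notMem h, Set.indicator_of_notMem h, norm_zero]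

theorem integral_norm_tm (g : GaussianInt → ℂ) {s : ℂ} (hs : 0 < s.re) (n : GaussianInt) :
    ∫ v in Set.Ioi (0 : ℝ), ‖tm g s n v‖ =
      ‖g n‖ * Real.log (ab n) * (Real.exp (-(s.re * Real.log (ab n))) / s.re) := by
  simp_rw [norm_tm]
  rw [setIntegral_indicator measurableSet_Ici, setIntegral_congr_set (set_ae (log_ab_nonneg n)),
    integral_const_mul, integral_exp_mul_Ioi (by simpa using hs), neg_mul, neg_div_neg_eq]

theorem exp_log_eq {n : GaussianInt} (h : n ≠ 0) (r : ℝ) :
    Real.exp (-(r * Real.log (ab n))) = ab n ^ (-r) := by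
  rw [Real.rpow_def_of_pos (ab_pos h)]
  congr 1
  ring

theorem summable_norm_tm {g : GaussianInt → ℂ} (hg : ∀ n, n ≠ 0 → ‖g n‖ ≤ 1) {σ : ℝ} (hσ : 0 < σ)
    (t : ℝ) : Summable fun n : GaussianInt =>
      ∫ v in Set.Ioi (0 : ℝ), ‖tm g (2 + σ + t * Complex.I) n v‖ := by
  have hre : (2 + (σ : ℂ) + t * Complex.I).re = 2 + σ := by simp
  have hs : 0 < (2 + (σ : ℂ) + t * Complex.I).re := by rw [hre]; linarith
  refine Summable.of_nonneg_of_le (fun n => integral_nonneg fun v => norm_nonneg _) (fun n => ?_)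
    (summable_log hσ)
  rw [integral_norm_tm g hs, hre]
  by_cases h : n = 0
  · subst h
    rw [log_ab_zero]
    simp
  · rw [exp_log_eq h]
    have h1 := hg n h
    have h2 := log_ab_nonneg n
    have h3 : 0 ≤ ab n ^ (-(2 + σ)) := Real.rpow_nonneg (ab_nonneg n) _
    calc ‖g n‖ * Real.log (ab n) * (ab n ^ (-(2 + σ)) / (2 + σ))
        ≤ 1 * Real.log (ab n) * (ab n ^ (-(2 + σ)) / 1) := by
          apply mul_le_mul (mul_le_mul_of_nonneg_right h1 h2)
          · apply div_le_div_of_nonneg_left h3 one_pos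
            linarith
          · positivity
          · positivity
      _ = _ := by ring

end LaplAux

open LaplAux

theorem lapl {g : GaussianInt → ℂ} (hg : ∀ n, n ≠ 0 → ‖g n‖ ≤ 1) {σ : ℝ} (hσ : 0 < σ) (t : ℝ) :
    ∫ v in Set.Ioi (0 : ℝ), SL g v * Complex.exp (-((2 + σ + t * Complex.I) * v)) =
      Ds (tw g t) σ / (2 + σ + t * Complex.I) := by
  have hre : (2 + (σ : ℂ) + t * Complex.I).re = 2 + σ := by simp
  have hs : 0 < (2 + (σ : ℂ) + t * Complex.I).re := by rw [hre]; linarith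
  set s : ℂ := 2 + (σ : ℂ) + t * Complex.I with hsdef
  simp_rw [SL_eq_tsum g s]
  haveI := countable_G
  have h := hasSum_integral_of_summable_integral_norm (μ := volume.restrict (Set.Ioi (0 : ℝ)))
    (F := tm g s) (fun n => (int_tm g hs n).integrableOn) (summable_norm_tm hg hσ t)
  rw [← h.tsum_eq, Ds, ← tsum_div_const]
  congr 1
  ext n
  rw [integral_tm g hs n]
  by_cases h0 : n = 0
  · subst h0
    rw [log_ab_zero]
    simp
  · rw [tw, mul_div_assoc']
    congr 1
    have e : Complex.exp (-(s * (Real.log (ab n) : ℝ))) =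
        ch (-t) 0 n * ((ab n ^ (-(2 + σ)) : ℝ) : ℂ) := by
      rw [← exp_log_eq h0, ch, Complex.ofReal_exp, ← Complex.exp_add]
      congr 1
      rw [hsdef]
      push_cast
      ring
    rw [e]
    ring

theorem measurable_SL (g : GaussianInt → ℂ) : Measurable (SL g) := by
  -- limit of the functions with a fixed finite index set
  let F : ℕ → ℝ → ℂ := fun N v => ∑ n ∈ ball (N : ℝ),
    (Set.Ici (Real.log (ab n))).indicator (fun _ => g n * (Real.log (ab n) : ℂ)) v
  refine measurable_of_tendsto_metrizable (f := F) ?_ ?_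
  · intro N
    refine Finset.measurable_fun_sum _ fun n _ => ?_
    exact measurable_const.indicator measurableSet_Ici
  · rw [tendsto_pi_nhds]
    intro v
    apply tendsto_const_nhds.congr'
    filter_upwards [Filter.eventually_ge_atTop ⌈Real.exp v⌉₊] with N hN
    have hN' : Real.exp v ≤ N := (Nat.le_ceil _).trans (by exact_mod_cast hN)
    show SL g v = F N v
    rw [SL]
    have hsub : ball (Real.exp v) ⊆ ball (N : ℝ) := by
      intro n hn
      rw [mem_ball'] at hn ⊢
      exact ⟨hn.1, hn.2.trans hN'⟩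
    show _ = ∑ n ∈ ball (N : ℝ), _
    rw [← Finset.sum_subset hsub]
    · apply Finset.sum_congr rfl
      intro n hn
      rw [mem_ball'] at hn
      rw [Set.indicator_of_mem]
      rw [Set.mem_Ici, Real.log_le_iff_le_exp (ab_pos hn.1)]
      exact hn.2
    · intro n hn hn'
      rw [mem_ball'] at hn hn'
      rw [Set.indicator_of_notMem]
      rw [Set.mem_Ici, Real.log_le_iff_le_exp (ab_pos hn.1)]
      intro h
      exact hn' ⟨hn.1, h⟩

theorem norm_SL_le {g : GaussianInt → ℂ} (hg : ∀ n, n ≠ 0 → ‖g n‖ ≤ 1) {v : ℝ} (hv : 0 ≤ v) :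
    ‖SL g v‖ ≤ 9 * v * Real.exp (2 * v) := by
  have h1 : ‖SL g v‖ ≤ ∑ n ∈ ball (Real.exp v), v := by
    refine (norm_sum_le _ _).trans (Finset.sum_le_sum fun n hn => ?_)
    rw [mem_ball'] at hn
    rw [norm_mul, Complex.norm_real, Real.norm_of_nonneg (log_ab_nonneg n)]
    have h2 : Real.log (ab n) ≤ v := by
      rw [Real.log_le_iff_le_exp (ab_pos hn.1)]
      exact hn.2
    calc ‖g n‖ * Real.log (ab n) ≤ 1 * v :=
          mul_le_mul (hg n hn.1) h2 (log_ab_nonneg n) zero_le_one
      _ = v := one_mul v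
  rw [Finset.sum_const, nsmul_eq_mul] at h1
  refine h1.trans ?_
  have h3 := card_ball_le' (Real.exp v)
  have h4 : Real.exp v ^ 2 = Real.exp (2 * v) := by
    rw [← Real.exp_nat_mul]
    norm_num
  rw [h4] at h3
  calc ((ball (Real.exp v)).card : ℝ) * v ≤ 9 * Real.exp (2 * v) * v :=
        mul_le_mul_of_nonneg_right h3 hv
    _ = _ := by ring

theorem lapl_sq : ∃ C : ℝ, 0 < C ∧ ∀ g : GaussianInt → ℂ, (∀ n, n ≠ 0 → ‖g n‖ ≤ 1) →
    ∀ u : ℝ, 1 ≤ u → ∫ v in (0 : ℝ)..u, ‖SL g v‖ ^ 2 * Real.exp (-(4 * v)) ≤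
      C * ∫ t : ℝ, ‖Ds (tw g t) (1 / u)‖ ^ 2 / (4 + t ^ 2) := by
  refine ⟨Real.exp 2 * (1 / (2 * Real.pi)), by positivity, ?_⟩
  intro g hg u hu
  have hu0 : 0 < u := one_pos.trans_le hu
  set σ : ℝ := 1 / u with hσdef
  have hσ : 0 < σ := by positivity
  -- the function `b`
  let b : ℝ → ℂ := (Set.Ioi (0 : ℝ)).indicator fun v : ℝ =>
    SL g v * Complex.exp (((-((2 + σ) * v) : ℝ) : ℂ))
  have hbm : Measurable b := by
    refine Measurable.indicator ?_ measurableSet_Ioi
    refine (measurable_SL g).mul ?_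
    exact (Complex.continuous_exp.comp (Complex.continuous_ofReal.comp
      (by fun_prop))).measurable
  have hbn : ∀ v : ℝ, 0 < v → ‖b v‖ ≤ 9 * (v * Real.exp (-(σ * v))) := by
    intro v hv
    have hb : b v = SL g v * Complex.exp (((-((2 + σ) * v) : ℝ) : ℂ)) :=
      Set.indicator_of_mem (Set.mem_Ioi.2 hv) _
    rw [hb, norm_mul, Complex.norm_exp, Complex.ofReal_re]
    calc ‖SL g v‖ * Real.exp (-((2 + σ) * v))
        ≤ 9 * v * Real.exp (2 * v) * Real.exp (-((2 + σ) * v)) :=
          mul_le_mul_of_nonneg_right (norm_SL_le hg hv.le) (Real.exp_nonneg _)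
      _ = 9 * (v * Real.exp (-(σ * v))) := by
          rw [mul_assoc, ← Real.exp_add, mul_assoc]
          congr 3
          ring
  have hb0 : ∀ v : ℝ, v ≤ 0 → b v = 0 := by
    intro v hv
    exact Set.indicator_of_notMem (by simpa using hv) _
  have hbd : ∀ v : ℝ, ‖b v‖ ≤ 9 * (1 / σ) := by
    intro v
    rcases le_or_gt v 0 with hv | hv
    · rw [hb0 v hv, norm_zero]
      positivity
    · refine (hbn v hv).trans ?_
      apply mul_le_mul_of_nonneg_left _ (by norm_num)
      rw [Real.exp_neg, ← div_eq_mul_inv, div_le_div_iff₀ (Real.exp_pos _) hσ]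
      have := Real.add_one_le_exp (σ * v)
      nlinarith
  have hmaj : IntegrableOn (fun v : ℝ => v * Real.exp (-(σ * v))) (Set.Ioi 0) := by
    have h := integrableOn_rpow_mul_exp_neg_mul_rpow (p := 1) (s := 1) (b := σ) (by norm_num)
      one_pos hσ
    refine h.congr_fun ?_ measurableSet_Ioi
    intro v hv
    simp only [Real.rpow_one, neg_mul]
  have hbi : Integrable b := by
    have h1 : IntegrableOn b (Set.Ioi 0) := by
      refine Integrable.mono' (hmaj.const_mul 9) hbm.aestronglyMeasurable ?_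
      filter_upwards [ae_restrict_mem measurableSet_Ioi] with v hv
      exact hbn v hv
    have h2 : b = (Set.Ioi (0 : ℝ)).indicator b := by
      ext v
      by_cases hv : v ∈ Set.Ioi (0 : ℝ)
      · rw [Set.indicator_of_mem hv]
      · rw [Set.indicator_of_notMem hv]
        exact hb0 v (by simpa using hv)
    rw [h2]
    exact h1.integrable_indicator measurableSet_Ioi
  -- the transform
  have htr : ∀ t : ℝ, ∫ v : ℝ, b v * Complex.exp (((-(t * v) : ℝ) : ℂ) * Complex.I) =
      Ds (tw g t) σ / (2 + σ + t * Complex.I) := by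
    intro t
    rw [← lapl hg hσ t, ← integral_indicator measurableSet_Ioi]
    congr 1
    ext v
    by_cases hv : v ∈ Set.Ioi (0 : ℝ)
    · rw [Set.indicator_of_mem hv]
      have hb : b v = SL g v * Complex.exp (((-((2 + σ) * v) : ℝ) : ℂ)) :=
        Set.indicator_of_mem hv _
      rw [hb, mul_assoc, ← Complex.exp_add]
      congr 2
      push_cast
      ring
    · rw [Set.indicator_of_notMem hv, hb0 v (by simpa using hv), zero_mul]
  have hsq : ∀ t : ℝ, ‖∫ v : ℝ, b v * Complex.exp (((-(t * v) : ℝ) : ℂ) * Complex.I)‖ ^ 2 =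
      ‖Ds (tw g t) σ‖ ^ 2 / ((2 + σ) ^ 2 + t ^ 2) := by
    intro t
    rw [htr, norm_div, div_pow]
    congr 1
    rw [← Complex.normSq_eq_norm_sq, Complex.normSq_apply]
    simp
    ring
  have hle : ∀ t : ℝ, ‖Ds (tw g t) σ‖ ^ 2 / ((2 + σ) ^ 2 + t ^ 2) ≤
      ‖Ds (tw g t) σ‖ ^ 2 / (4 + t ^ 2) := by
    intro t
    apply div_le_div_of_nonneg_left (by positivity) (by positivity)
    nlinarith
  obtain ⟨B, hB⟩ := bdd_Ds hg hσ
  have hcont := cont_Ds hg hσ
  have hint4 : Integrable fun t : ℝ => ‖Ds (tw g t) σ‖ ^ 2 / (4 + t ^ 2) := by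
    refine Integrable.mono' (integrable_inv_one_add_sq.const_mul (B ^ 2)) ?_ ?_
    · refine Continuous.aestronglyMeasurable ?_
      refine (hcont.norm.pow 2).div (by fun_prop) ?_
      intro t
      positivity
    · filter_upwards with t
      rw [Real.norm_of_nonneg (by positivity)]
      rw [div_eq_mul_inv]
      apply mul_le_mul
      · exact pow_le_pow_left₀ (norm_nonneg _) (hB t) 2
      · apply inv_anti₀ (by positivity)
        linarith
      · positivity
      · positivity
  have hint : Integrable fun t : ℝ =>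
      ‖∫ v : ℝ, b v * Complex.exp (((-(t * v) : ℝ) : ℂ) * Complex.I)‖ ^ 2 := by
    simp_rw [hsq]
    refine Integrable.mono' hint4 ?_ ?_
    · refine Continuous.aestronglyMeasurable ?_
      refine (hcont.norm.pow 2).div (by fun_prop) ?_
      intro t
      positivity
    · filter_upwards with t
      rw [Real.norm_of_nonneg (by positivity)]
      exact hle t
  have hpl := planch b hbi ⟨_, hbd⟩ hint
  have hR : ∫ t : ℝ, ‖∫ v : ℝ, b v * Complex.exp (((-(t * v) : ℝ) : ℂ) * Complex.I)‖ ^ 2 ≤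
      ∫ t : ℝ, ‖Ds (tw g t) σ‖ ^ 2 / (4 + t ^ 2) := by
    apply integral_mono hint hint4
    intro t
    show ‖∫ v : ℝ, b v * Complex.exp (((-(t * v) : ℝ) : ℂ) * Complex.I)‖ ^ 2 ≤ _
    rw [hsq]
    exact hle t
  -- the left side
  have hbsq : Integrable fun v : ℝ => ‖b v‖ ^ 2 := by
    refine Integrable.mono' (hbi.norm.const_mul (9 * (1 / σ))) ?_ ?_
    · exact (hbm.norm.pow_const 2).aestronglyMeasurable
    · filter_upwards with v
      rw [Real.norm_of_nonneg (by positivity), sq]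
      exact mul_le_mul_of_nonneg_right (hbd v) (norm_nonneg _)
  have hL : ∫ v in (0 : ℝ)..u, ‖SL g v‖ ^ 2 * Real.exp (-(4 * v)) ≤
      Real.exp 2 * ∫ v : ℝ, ‖b v‖ ^ 2 := by
    rw [intervalIntegral.integral_of_le hu0.le, ← integral_const_mul]
    have h1 : ∫ v in Set.Ioc 0 u, ‖SL g v‖ ^ 2 * Real.exp (-(4 * v)) ≤
        ∫ v in Set.Ioc 0 u, Real.exp 2 * ‖b v‖ ^ 2 := by
      have hpt : ∀ v ∈ Set.Ioc 0 u, ‖SL g v‖ ^ 2 * Real.exp (-(4 * v)) ≤
          Real.exp 2 * ‖b v‖ ^ 2 := by
        intro v hv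
        have hb : b v = SL g v * Complex.exp (((-((2 + σ) * v) : ℝ) : ℂ)) :=
          Set.indicator_of_mem (Set.mem_Ioi.2 hv.1) _
        rw [hb, norm_mul, Complex.norm_exp, Complex.ofReal_re, mul_pow, ← Real.exp_nat_mul,
          mul_left_comm, ← Real.exp_add]
        apply mul_le_mul_of_nonneg_left _ (by positivity)
        rw [Real.exp_le_exp]
        have h5 : σ * v ≤ 1 := by
          rw [hσdef, one_div, inv_mul_le_iff₀ hu0, mul_one]
          exact hv.2
        push_cast
        nlinarith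
      have hI : IntegrableOn (fun v : ℝ => Real.exp 2 * ‖b v‖ ^ 2) (Set.Ioc 0 u) :=
        (hbsq.const_mul _).integrableOn
      refine setIntegral_mono_on ?_ hI measurableSet_Ioc hpt
      refine Integrable.mono' hI ?_ ?_
      · refine Measurable.aestronglyMeasurable ?_
        refine ((measurable_SL g).norm.pow_const 2).mul ?_
        fun_prop
      · filter_upwards [ae_restrict_mem measurableSet_Ioc] with v hv
        rw [Real.norm_of_nonneg (by positivity)]
        exact hpt v hv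
    refine h1.trans ?_
    apply setIntegral_le_integral (hbsq.const_mul _)
    filter_upwards with v
    positivity
  calc ∫ v in (0 : ℝ)..u, ‖SL g v‖ ^ 2 * Real.exp (-(4 * v))
      ≤ Real.exp 2 * ∫ v : ℝ, ‖b v‖ ^ 2 := hL
    _ ≤ Real.exp 2 * ((1 / (2 * Real.pi)) * ∫ t : ℝ, ‖Ds (tw g t) σ‖ ^ 2 / (4 + t ^ 2)) := by
        apply mul_le_mul_of_nonneg_left _ (Real.exp_nonneg _)
        exact hpl.trans (mul_le_mul_of_nonneg_left hR (by positivity))
    _ = _ := by ring

end Pool.Agent.MRG
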