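import Pool.Agent.MRG.Approx
import Pool.Agent.MRG.Folner

/-!
# Module Window: from the energy to the windows

Let `k, C, c` be as in `folner_facts`, `ε > 0`.  `B(n) = ∑_{g ∈ win (Φ H) n} f g`, `s(n) = sign B(n)` for `n ∈ Φ N`, `s(n) = 0` otherwise;
`#win (Φ H) n ≥ #Φ_H - 1 ≥ #Φ_H/2`, so `|avg (win (Φ H) n) f| ≤ 2 |B(n)|/#Φ_H` and
`∑_{n∈Φ_N} |B(n)| = ∑_n s(n) ∑_{h∈Φ_H, n+h≠0} f(n+h) = #Φ_H ∑_{g ≠ 0} f(g) ψ(g)`, `ψ(g) = (1/#Φ_H) ∑_{h∈Φ_H} s(g-h)`, `|ψ| ≤ 1`, `ψ = 0` unless `|g| ≤ C (k_N + k_H) ≤ X := 2C k_N`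
(`N` large).  `|ψ(g) - ψ(g+a)| ≤ 2κ` for `|a| ≤ d := δ k_H` (`folner_facts` for `a` and `-a`: the two sums differ only in the `h` with `h ∈ Φ_H`, `h ± a ∉ Φ_H`).
Dyadic decomposition: `ball X = ball (X 2^(-J)) ∪ ⋃_{j<J} ann R_j (2R_j)`, `R_j = X 2^(-j-1)`; `#ball (X 2^(-J)) ≤ 9 X² 4^(-J)`.  Let `η` be given by `hE` for `ε₁²`, and `M = ⌊η R_j⌋ ≥ 1`
(`N` large): `approx` with `2κ`: `|∑_{ann} f ψ| ≤ ε₁ R_j² + C R_j² (2κ + (2/(η d))²)`.  `H` large (depending on `η`, `κ`, `δ`): `d ≥ 8`, `2/(η d) ≤ κ`; `N` large: `d ≤ R_j`, `R_j ≥ R0`.  Sum over `j`,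
divide by `#Φ_N ≥ c k_N² = c X²/(4C²)`: the average is at most `(8C²/c)(9·4^(-J) + ε₁ + C (2κ + κ²)) ≤ ε` for suitable `J`, `ε₁`, `κ`.
Order of the choices: `J`, `ε₁`, `κ`; `η`, `R0`; `δ`; `H0`; `N0`.
-/

set_option autoImplicit false

namespace Pool.Agent.MRG

open Pool.Agent.GaussPret

namespace WindowAux

theorem sum_ball_split (F : GaussianInt → ℝ) {Y : ℝ} (hY : 0 ≤ Y) :
    ∑ g ∈ ball Y, F g = ∑ g ∈ ball (Y / 2), F g + ∑ g ∈ ann (Y / 2) (2 * (Y / 2)), F g := by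
  have e : 2 * (Y / 2) = Y := by ring
  rw [e]
  have h1 : ball (Y / 2) = (ball Y).filter fun g => ¬ Y / 2 < ab g := by
    ext g
    rw [Finset.mem_filter, mem_ball', mem_ball', not_lt]
    constructor
    · rintro ⟨h1, h2⟩
      exact ⟨⟨h1, by linarith⟩, h2⟩
    · rintro ⟨⟨h1, -⟩, h2⟩
      exact ⟨h1, h2⟩
  rw [h1, ann, add_comm]
  exact (Finset.sum_filter_add_sum_filter_not (ball Y) (fun g => Y / 2 < ab g) F).symm

theorem dyadic (F : GaussianInt → ℝ) {Y : ℝ} (hY : 0 ≤ Y) (J : ℕ) :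
    ∑ g ∈ ball Y, F g = ∑ g ∈ ball (Y / 2 ^ J), F g +
      ∑ j ∈ Finset.range J, ∑ g ∈ ann (Y / 2 ^ (j + 1)) (2 * (Y / 2 ^ (j + 1))), F g := by
  induction J with
  | zero => simp
  | succ J ih =>
    rw [ih, Finset.sum_range_succ, sum_ball_split F (Y := Y / 2 ^ J) (by positivity)]
    have e : Y / 2 ^ J / 2 = Y / 2 ^ (J + 1) := by
      rw [pow_succ, div_div]
    rw [e]
    ring

theorem sum_win {f : GaussianInt → ℝ} {A P : Finset GaussianInt} {X : ℝ}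
    (hX : ∀ n ∈ P, ∀ h ∈ A, ab (n + h) ≤ X) {s : GaussianInt → ℝ} (hs : ∀ n, n ∉ P → s n = 0) :
    ∑ n ∈ P, s n * ∑ g ∈ win A n, f g = ∑ g ∈ ball X, f g * ∑ h ∈ A, s (g - h) := by
  classical
  have h1 : ∀ n ∈ P, s n * ∑ g ∈ win A n, f g =
      ∑ g ∈ ball X, if g - n ∈ A then f g * s n else 0 := by
    intro n hn
    have hw : win A n = (ball X).filter fun g => g - n ∈ A := by
      ext g
      rw [win, Finset.mem_erase, Finset.mem_image, Finset.mem_filter, mem_ball']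
      constructor
      · rintro ⟨h0, h, hh, rfl⟩
        refine ⟨⟨h0, hX n hn h hh⟩, ?_⟩
        rw [add_sub_cancel_left]
        exact hh
      · rintro ⟨⟨h0, -⟩, h2⟩
        exact ⟨h0, g - n, h2, by abel⟩
    rw [hw, Finset.mul_sum, Finset.sum_filter]
    refine Finset.sum_congr rfl fun g _ => ?_
    split_ifs <;> ring
  rw [Finset.sum_congr rfl h1, Finset.sum_comm]
  refine Finset.sum_congr rfl fun g _ => ?_
  rw [← Finset.sum_filter, ← Finset.mul_sum]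
  congr 1
  have h2 : ∑ h ∈ A, s (g - h) = ∑ h ∈ A.filter fun h => g - h ∈ P, s (g - h) := by
    rw [Finset.sum_filter]
    refine Finset.sum_congr rfl fun h _ => ?_
    split_ifs with hh
    · rfl
    · exact hs _ hh
  rw [h2]
  refine Finset.sum_nbij' (fun n => g - n) (fun h => g - h) ?_ ?_ ?_ ?_ ?_
  · intro n hn
    rw [Finset.mem_filter] at hn ⊢
    refine ⟨hn.2, ?_⟩
    rw [sub_sub_cancel]
    exact hn.1
  · intro h hh
    rw [Finset.mem_filter] at hh ⊢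
    refine ⟨hh.2, ?_⟩
    rw [sub_sub_cancel]
    exact hh.1
  · intro n _
    exact sub_sub_cancel _ _
  · intro n _
    exact sub_sub_cancel _ _
  · intro n _
    rw [sub_sub_cancel]

open scoped Classical in
theorem psi_lip {A : Finset GaussianInt} {s : GaussianInt → ℝ} (hs : ∀ n, |s n| ≤ 1)
    (g a : GaussianInt) {κ : ℝ}
    (h1 : ((A.filter fun n => n + a ∉ A).card : ℝ) ≤ κ * A.card)
    (h2 : ((A.filter fun n => n + -a ∉ A).card : ℝ) ≤ κ * A.card) :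
    |∑ h ∈ A, s (g - h) - ∑ h ∈ A, s (g + a - h)| ≤ 2 * κ * A.card := by
  have hinj : Function.Injective fun h : GaussianInt => h - a := fun x y h => by simpa using h
  set A' : Finset GaussianInt := A.map ⟨fun h => h - a, hinj⟩ with hA'
  have e1 : ∑ h ∈ A, s (g + a - h) = ∑ h ∈ A', s (g - h) := by
    rw [hA', Finset.sum_map]
    refine Finset.sum_congr rfl fun h _ => ?_
    simp only [Function.Embedding.coeFn_mk]
    congr 1
    abel
  have hmem : ∀ h, h ∈ A' ↔ h + a ∈ A := by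
    intro h
    rw [hA', Finset.mem_map]
    simp only [Function.Embedding.coeFn_mk]
    constructor
    · rintro ⟨x, hx, rfl⟩
      rw [sub_add_cancel]
      exact hx
    · intro hx
      exact ⟨h + a, hx, add_sub_cancel_right _ _⟩
  have hb : ∀ S : Finset GaussianInt, |∑ h ∈ S, s (g - h)| ≤ S.card := by
    intro S
    calc |∑ h ∈ S, s (g - h)| ≤ ∑ h ∈ S, |s (g - h)| := Finset.abs_sum_le_sum_abs _ _
      _ ≤ ∑ h ∈ S, (1 : ℝ) := Finset.sum_le_sum fun h _ => hs _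
      _ = S.card := by simp
  have c1 : ((A \ A').card : ℝ) ≤ κ * A.card := by
    have : A \ A' = A.filter fun n => n + a ∉ A := by
      ext h
      rw [Finset.mem_sdiff, Finset.mem_filter, hmem]
    rw [this]
    exact h1
  have c2 : ((A' \ A).card : ℝ) ≤ κ * A.card := by
    have : (A' \ A).card = (A.filter fun n => n + -a ∉ A).card := by
      refine Finset.card_nbij' (fun h => h + a) (fun h => h + -a) ?_ ?_ ?_ ?_
      · intro h hh
        rw [Finset.mem_coe, Finset.mem_sdiff, hmem] at hh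
        rw [Finset.mem_coe, Finset.mem_filter]
        refine ⟨hh.1, ?_⟩
        rw [add_neg_cancel_right]
        exact hh.2
      · intro h hh
        rw [Finset.mem_coe, Finset.mem_filter] at hh
        rw [Finset.mem_coe, Finset.mem_sdiff, hmem, neg_add_cancel_right]
        exact hh
      · intro h _
        exact add_neg_cancel_right _ _
      · intro h _
        exact neg_add_cancel_right _ _
    rw [this]
    exact h2
  rw [e1, ← Finset.sum_sdiff_sub_sum_sdiff]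
  calc |∑ h ∈ A \ A', s (g - h) - ∑ h ∈ A' \ A, s (g - h)|
      ≤ |∑ h ∈ A \ A', s (g - h)| + |∑ h ∈ A' \ A, s (g - h)| := abs_sub _ _
    _ ≤ κ * A.card + κ * A.card := add_le_add ((hb _).trans c1) ((hb _).trans c2)
    _ = 2 * κ * A.card := by ring

/-- windows have almost full size -/
theorem avg_win_le {A : Finset GaussianInt} (hA : 2 ≤ A.card) (f : GaussianInt → ℝ)
    (n : GaussianInt) : |avg (win A n) f| ≤ 2 * |∑ g ∈ win A n, f g| / A.card := by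
  have h1 : A.card ≤ (win A n).card + 1 := by
    rw [win]
    have h2 : (A.image fun h => n + h).card = A.card :=
      Finset.card_image_of_injective _ (add_right_injective n)
    have h3 := Finset.pred_card_le_card_erase (s := A.image fun h => n + h) (a := 0)
    omega
  have h2 : (A.card : ℝ) ≤ (win A n).card + 1 := by exact_mod_cast h1
  have h3 : (2 : ℝ) ≤ A.card := by exact_mod_cast hA
  have h4 : (A.card : ℝ) / 2 ≤ (win A n).card := by linarith
  have h5 : (0 : ℝ) < (win A n).card := by linarith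
  rw [avg, abs_div, abs_of_pos h5, div_le_div_iff₀ h5 (by linarith)]
  have := abs_nonneg (∑ g ∈ win A n, f g)
  nlinarith

/-- the main estimate -/
theorem main_bound {f : GaussianInt → ℝ} (hf : ∀ n, n ≠ 0 → |f n| ≤ 1) {ψ : GaussianInt → ℝ}
    (hψ : ∀ n, |ψ n| ≤ 1) {X d κ η ε₁ R0 Ca : ℝ} {J : ℕ} (hX : 0 < X) (hCa : 0 < Ca)
    (hap : ∀ (f ψ : GaussianInt → ℂ) (R d κ : ℝ) (M : ℕ),
      (∀ n, n ≠ 0 → ‖f n‖ ≤ 1) → (∀ n, ‖ψ n‖ ≤ 1) → 8 ≤ d → d ≤ R → 1 ≤ M → 0 ≤ κ →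
      (∀ a b : GaussianInt, ab (a - b) ≤ d → ‖ψ a - ψ b‖ ≤ κ) →
      ‖∑ n ∈ ann R (2 * R), f n * ψ n‖ ≤ Real.sqrt (∑ c ∈ fr M, ‖FR f R c‖ ^ 2) +
        Ca * R ^ 2 * (κ + (R / (M * d)) ^ 2))
    (hE : ∀ R : ℝ, R0 ≤ R → ∀ M : ℕ, (M : ℝ) ≤ η * R →
      ∑ c ∈ fr M, ‖FR (fun n => (f n : ℂ)) R c‖ ^ 2 ≤ ε₁ ^ 2 * R ^ 4)
    (hη : 0 < η) (hε₁ : 0 < ε₁) (hκ : 0 < κ) (hd : 8 ≤ d) (hdκ : 2 / (η * d) ≤ κ)
    (hlip : ∀ g a : GaussianInt, ab a ≤ d → |ψ g - ψ (g + a)| ≤ 2 * κ)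
    (hR0 : R0 ≤ X / 2 ^ J) (hR1 : d ≤ X / 2 ^ J) (hR2 : 1 / η ≤ X / 2 ^ J) :
    |∑ g ∈ ball X, f g * ψ g| ≤ X ^ 2 * (9 * (1 / 4) ^ J + ε₁ + Ca * (2 * κ + κ ^ 2)) := by
  rw [dyadic (fun g => f g * ψ g) hX.le J]
  have hb1 : |∑ g ∈ ball (X / 2 ^ J), f g * ψ g| ≤ X ^ 2 * (9 * (1 / 4) ^ J) := by
    calc |∑ g ∈ ball (X / 2 ^ J), f g * ψ g| ≤ ∑ g ∈ ball (X / 2 ^ J), |f g * ψ g| :=
          Finset.abs_sum_le_sum_abs _ _
      _ ≤ ∑ g ∈ ball (X / 2 ^ J), (1 : ℝ) := by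
          refine Finset.sum_le_sum fun g hg => ?_
          rw [abs_mul]
          exact mul_le_one₀ (hf g (mem_ball'.1 hg).1) (abs_nonneg _) (hψ g)
      _ = (ball (X / 2 ^ J)).card := by simp
      _ ≤ 9 * (X / 2 ^ J) ^ 2 := card_ball_le' _
      _ = X ^ 2 * (9 * (1 / 4) ^ J) := by
          rw [div_pow, ← pow_mul, mul_comm J 2, pow_mul, one_div, inv_pow]
          norm_num
          ring
  have hb2 : ∀ j ∈ Finset.range J,
      |∑ g ∈ ann (X / 2 ^ (j + 1)) (2 * (X / 2 ^ (j + 1))), f g * ψ g| ≤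
      X ^ 2 * (1 / 4) ^ (j + 1) * (ε₁ + Ca * (2 * κ + κ ^ 2)) := by
    intro j hj
    rw [Finset.mem_range] at hj
    set R : ℝ := X / 2 ^ (j + 1) with hR
    have hRpos : 0 < R := by positivity
    have hRge : X / 2 ^ J ≤ R := by
      rw [hR]
      apply div_le_div_of_nonneg_left hX.le (by positivity)
      exact pow_le_pow_right₀ (by norm_num) (by omega)
    have hηR : 1 ≤ η * R := by
      have : 1 / η ≤ R := hR2.trans hRge
      rw [div_le_iff₀ hη] at this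
      linarith
    set M : ℕ := ⌊η * R⌋₊ with hM
    have hM1 : 1 ≤ M := Nat.le_floor (by simpa using hηR)
    have hM2 : (M : ℝ) ≤ η * R := Nat.floor_le (by positivity)
    have hM3 : η * R / 2 ≤ M := by
      have h1 := Nat.lt_floor_add_one (η * R)
      rw [← hM] at h1
      have h2 : (1 : ℝ) ≤ M := by exact_mod_cast hM1
      linarith
    have hMpos : (0 : ℝ) < M := by exact_mod_cast hM1
    have hdpos : 0 < d := by linarith
    have key := hap (fun n => (f n : ℂ)) (fun n => (ψ n : ℂ)) R d (2 * κ) M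
      (fun n hn => by
        rw [Complex.norm_real, Real.norm_eq_abs]
        exact hf n hn)
      (fun n => by
        rw [Complex.norm_real, Real.norm_eq_abs]
        exact hψ n) hd (hR1.trans hRge) hM1 (by positivity)
      (fun a b hab => by
        rw [← Complex.ofReal_sub, Complex.norm_real, Real.norm_eq_abs, abs_sub_comm]
        have := hlip b (a - b) hab
        rwa [add_sub_cancel] at this)
    have e1 : ‖∑ n ∈ ann R (2 * R), (f n : ℂ) * (ψ n : ℂ)‖ =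
        |∑ g ∈ ann R (2 * R), f g * ψ g| := by
      rw [← Real.norm_eq_abs, ← Complex.norm_real]
      congr 1
      push_cast
      rfl
    rw [e1] at key
    have h1 : Real.sqrt (∑ c ∈ fr M, ‖FR (fun n => (f n : ℂ)) R c‖ ^ 2) ≤ ε₁ * R ^ 2 := by
      rw [Real.sqrt_le_left (by positivity)]
      calc ∑ c ∈ fr M, ‖FR (fun n => (f n : ℂ)) R c‖ ^ 2 ≤ ε₁ ^ 2 * R ^ 4 :=
            hE R (hR0.trans hRge) M hM2
        _ = (ε₁ * R ^ 2) ^ 2 := by ring
    have h2 : R / (M * d) ≤ κ := by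
      refine le_trans ?_ hdκ
      rw [div_le_div_iff₀ (by positivity) (by positivity)]
      have : R * (η * d) = (η * R / 2) * (2 * d) := by ring
      rw [this]
      calc η * R / 2 * (2 * d) ≤ M * (2 * d) := mul_le_mul_of_nonneg_right hM3 (by positivity)
        _ = 2 * (M * d) := by ring
    have h3 : (R / (M * d)) ^ 2 ≤ κ ^ 2 := pow_le_pow_left₀ (by positivity) h2 2
    have h4 : R ^ 2 = X ^ 2 * (1 / 4) ^ (j + 1) := by
      rw [hR, div_pow, ← pow_mul, mul_comm (j + 1) 2, pow_mul, one_div, inv_pow]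
      norm_num
      ring
    calc |∑ g ∈ ann R (2 * R), f g * ψ g|
        ≤ Real.sqrt (∑ c ∈ fr M, ‖FR (fun n => (f n : ℂ)) R c‖ ^ 2) +
          Ca * R ^ 2 * (2 * κ + (R / (M * d)) ^ 2) := key
      _ ≤ ε₁ * R ^ 2 + Ca * R ^ 2 * (2 * κ + κ ^ 2) := by gcongr
      _ = R ^ 2 * (ε₁ + Ca * (2 * κ + κ ^ 2)) := by ring
      _ = X ^ 2 * (1 / 4) ^ (j + 1) * (ε₁ + Ca * (2 * κ + κ ^ 2)) := by rw [h4]
  have hgeo : ∑ j ∈ Finset.range J, (1 / 4 : ℝ) ^ (j + 1) ≤ 1 := by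
    have : ∀ J : ℕ, ∑ j ∈ Finset.range J, (1 / 4 : ℝ) ^ (j + 1) = (1 - (1 / 4) ^ J) / 3 := by
      intro J
      induction J with
      | zero => simp
      | succ J ih =>
        rw [Finset.sum_range_succ, ih, pow_succ]
        ring
    rw [this]
    have h0 : (0 : ℝ) ≤ (1 / 4) ^ J := by positivity
    linarith
  have hQ : 0 ≤ ε₁ + Ca * (2 * κ + κ ^ 2) := by positivity
  calc |∑ g ∈ ball (X / 2 ^ J), f g * ψ g +
        ∑ j ∈ Finset.range J, ∑ g ∈ ann (X / 2 ^ (j + 1)) (2 * (X / 2 ^ (j + 1))), f g * ψ g|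
      ≤ |∑ g ∈ ball (X / 2 ^ J), f g * ψ g| +
        |∑ j ∈ Finset.range J, ∑ g ∈ ann (X / 2 ^ (j + 1)) (2 * (X / 2 ^ (j + 1))), f g * ψ g| :=
        abs_add_le _ _
    _ ≤ X ^ 2 * (9 * (1 / 4) ^ J) +
        ∑ j ∈ Finset.range J, X ^ 2 * (1 / 4) ^ (j + 1) * (ε₁ + Ca * (2 * κ + κ ^ 2)) :=
        add_le_add hb1 ((Finset.abs_sum_le_sum_abs _ _).trans (Finset.sum_le_sum hb2))
    _ = X ^ 2 * (9 * (1 / 4) ^ J) +
        X ^ 2 * (ε₁ + Ca * (2 * κ + κ ^ 2)) * ∑ j ∈ Finset.range J, (1 / 4 : ℝ) ^ (j + 1) := by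
        rw [Finset.mul_sum]
        congr 1
        refine Finset.sum_congr rfl fun j _ => ?_
        ring
    _ ≤ X ^ 2 * (9 * (1 / 4) ^ J) + X ^ 2 * (ε₁ + Ca * (2 * κ + κ ^ 2)) * 1 := by
        gcongr
    _ = X ^ 2 * (9 * (1 / 4) ^ J + ε₁ + Ca * (2 * κ + κ ^ 2)) := by ring

end WindowAux

theorem window (f : GaussianInt → ℝ) (hf : ∀ n, n ≠ 0 → |f n| ≤ 1)
    (hE : ∀ ε : ℝ, 0 < ε → ∃ η : ℝ, 0 < η ∧ ∃ R0 : ℝ, ∀ R : ℝ, R0 ≤ R → ∀ M : ℕ, (M : ℝ) ≤ η * R →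
      ∑ c ∈ fr M, ‖FR (fun n => (f n : ℂ)) R c‖ ^ 2 ≤ ε * R ^ 4)
    {Φ : ℕ → Finset GaussianInt} (hΦ : IsDilatedFolner Φ) (ε : ℝ) (hε : 0 < ε) :
    ∃ H0 : ℕ, ∀ H : ℕ, H0 ≤ H → ∃ N0 : ℕ, ∀ N : ℕ, N0 ≤ N →
      avg (Φ N) (fun n => |avg (win (Φ H) n) f|) ≤ ε := by
  classical
  obtain ⟨k, C, c, hC, hc, hk, hk0, hF1, ⟨N1, hF2⟩, hF3⟩ := folner_facts hΦ
  obtain ⟨Ca, hCa, hap⟩ := approx
  set K : ℝ := 8 * C ^ 2 / c with hK
  have hK0 : 0 < K := by positivity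
  set ε₁ : ℝ := ε / (3 * K) with hε₁
  have hε₁0 : 0 < ε₁ := by positivity
  set κ : ℝ := min 1 (ε / (9 * K * Ca)) with hκ
  have hκ0 : 0 < κ := lt_min one_pos (by positivity)
  have hκ1 : κ ≤ 1 := min_le_left _ _
  have hκ2 : κ ≤ ε / (9 * K * Ca) := min_le_right _ _
  obtain ⟨J, hJ⟩ : ∃ J : ℕ, (1 / 4 : ℝ) ^ J < ε / (27 * K) :=
    exists_pow_lt_of_lt_one (by positivity) (by norm_num)
  obtain ⟨η, hη, R0, hER⟩ := hE (ε₁ ^ 2) (by positivity)
  obtain ⟨δ, hδ, H1, hF4⟩ := hF3 κ hκ0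
  -- choice of `H`
  have hkH : ∀ b : ℝ, ∃ H : ℕ, ∀ H' : ℕ, H ≤ H' → b ≤ k H' := fun b =>
    Filter.eventually_atTop.1 (hk.eventually_ge_atTop b)
  obtain ⟨H2, hH2⟩ := hkH (max (max (8 / δ) (2 / (η * κ) / δ)) (max 1 (2 / c)))
  refine ⟨max H1 (max H2 N1), fun H hH => ?_⟩
  have hHH1 : H1 ≤ H := (le_max_left _ _).trans hH
  have hHH2 : H2 ≤ H := (le_max_left _ _).trans ((le_max_right _ _).trans hH)
  have hHN1 : N1 ≤ H := (le_max_right _ _).trans ((le_max_right _ _).trans hH)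
  have hkHb := hH2 H hHH2
  have hb1 : 8 / δ ≤ k H := (le_max_left _ _).trans ((le_max_left _ _).trans hkHb)
  have hb2 : 2 / (η * κ) / δ ≤ k H := (le_max_right _ _).trans ((le_max_left _ _).trans hkHb)
  have hb3 : 1 ≤ k H := (le_max_left _ _).trans ((le_max_right _ _).trans hkHb)
  have hb4 : 2 / c ≤ k H := (le_max_right _ _).trans ((le_max_right _ _).trans hkHb)
  set d : ℝ := δ * k H with hd
  have hd8 : 8 ≤ d := by
    rw [div_le_iff₀ hδ] at hb1
    linarith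
  have hdκ : 2 / (η * d) ≤ κ := by
    rw [div_le_iff₀ hδ, div_le_iff₀ (by positivity)] at hb2
    rw [div_le_iff₀ (by positivity)]
    have : κ * (η * d) = k H * δ * (η * κ) := by
      rw [hd]
      ring
    rw [this]
    exact hb2
  have hcardA : 2 ≤ (Φ H).card := by
    have h1 := hF2 H hHN1
    have h2 : (2 : ℝ) ≤ c * k H ^ 2 := by
      rw [div_le_iff₀ hc] at hb4
      nlinarith
    exact_mod_cast h2.trans h1
  -- choice of `N`
  obtain ⟨N2, hN2⟩ := hkH (max (k H) (2 ^ J * max (max R0 d) (1 / η) / (2 * C)))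
  refine ⟨max N1 N2, fun N hN => ?_⟩
  have hNN1 : N1 ≤ N := (le_max_left _ _).trans hN
  have hkN := hN2 N ((le_max_right _ _).trans hN)
  have hkN1 : k H ≤ k N := (le_max_left _ _).trans hkN
  have hkN2 : 2 ^ J * max (max R0 d) (1 / η) / (2 * C) ≤ k N := (le_max_right _ _).trans hkN
  set X : ℝ := 2 * C * k N with hX
  have hX0 : 0 < X := by
    have := hk0 N
    positivity
  have hXJ : max (max R0 d) (1 / η) ≤ X / 2 ^ J := by
    rw [le_div_iff₀ (by positivity)]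
    rw [div_le_iff₀ (by positivity)] at hkN2
    rw [hX]
    linarith
  have hXR0 : R0 ≤ X / 2 ^ J := (le_max_left _ _).trans ((le_max_left _ _).trans hXJ)
  have hXd : d ≤ X / 2 ^ J := (le_max_right _ _).trans ((le_max_left _ _).trans hXJ)
  have hXη : 1 / η ≤ X / 2 ^ J := (le_max_right _ _).trans hXJ
  -- the functions
  set A := Φ H with hA
  set P := Φ N with hP
  have hA0 : (0 : ℝ) < A.card := by
    have : (2 : ℝ) ≤ A.card := by exact_mod_cast hcardA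
    linarith
  set B : GaussianInt → ℝ := fun n => ∑ g ∈ win A n, f g with hB
  set s : GaussianInt → ℝ := fun n => if n ∈ P then (SignType.sign (B n) : ℝ) else 0 with hs
  have hs1 : ∀ n, |s n| ≤ 1 := by
    intro n
    simp only [hs]
    split_ifs
    · rcases lt_trichotomy (B n) 0 with h | h | h
      · rw [sign_neg h]; simp
      · rw [h, sign_zero]; simp
      · rw [sign_pos h]; simp
    · simp
  have hs0 : ∀ n, n ∉ P → s n = 0 := by
    intro n hn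
    simp only [hs]
    rw [if_neg hn]
  have hsB : ∀ n ∈ P, s n * B n = |B n| := by
    intro n hn
    simp only [hs]
    rw [if_pos hn]
    exact sign_mul_self (B n)
  set ψ : GaussianInt → ℝ := fun g => (∑ h ∈ A, s (g - h)) / A.card with hψ
  have hψ1 : ∀ g, |ψ g| ≤ 1 := by
    intro g
    simp only [hψ]
    rw [abs_div, abs_of_pos hA0, div_le_one hA0]
    calc |∑ h ∈ A, s (g - h)| ≤ ∑ h ∈ A, |s (g - h)| := Finset.abs_sum_le_sum_abs _ _
      _ ≤ ∑ h ∈ A, (1 : ℝ) := Finset.sum_le_sum fun h _ => hs1 _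
      _ = A.card := by simp
  have hlip : ∀ g a : GaussianInt, ab a ≤ d → |ψ g - ψ (g + a)| ≤ 2 * κ := by
    intro g a ha
    have h1 := hF4 H hHH1 a ha
    have h2 := hF4 H hHH1 (-a) (by
      have : ab (-a) = ab a := by
        rw [ab, ab, map_neg, norm_neg]
      rw [this]
      exact ha)
    simp only [hψ]
    rw [← sub_div, abs_div, abs_of_pos hA0, div_le_iff₀ hA0]
    apply WindowAux.psi_lip hs1 g a
    · convert h1
    · convert h2
  have hbound := WindowAux.main_bound hf hψ1 hX0 hCa hap hER hη hε₁0 hκ0 hd8 hdκ hlip hXR0 hXd hXη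
  -- the sum over the outer set
  have hXm : ∀ n ∈ P, ∀ h ∈ A, ab (n + h) ≤ X := by
    intro n hn h hh
    have h1 := hF1 N n hn
    have h2 := hF1 H h hh
    have h3 : ab (n + h) ≤ ab n + ab h := by
      rw [ab, ab, ab, map_add]
      exact norm_add_le _ _
    rw [hX]
    nlinarith
  have hsum : ∑ n ∈ P, |B n| = A.card * ∑ g ∈ ball X, f g * ψ g := by
    have h1 : ∑ n ∈ P, |B n| = ∑ n ∈ P, s n * B n :=
      Finset.sum_congr rfl fun n hn => (hsB n hn).symm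
    rw [h1, WindowAux.sum_win hXm hs0, Finset.mul_sum]
    refine Finset.sum_congr rfl fun g _ => ?_
    simp only [hψ]
    field_simp
  have hcardP : c * k N ^ 2 ≤ (P.card : ℝ) := hF2 N hNN1
  have hP0 : (0 : ℝ) < P.card := by
    have := hk0 N
    have : 0 < c * k N ^ 2 := by positivity
    linarith
  have hQ : K * (9 * (1 / 4) ^ J + ε₁ + Ca * (2 * κ + κ ^ 2)) ≤ ε := by
    have h1 : K * (9 * (1 / 4) ^ J) ≤ ε / 3 := by
      have h2 : (1 / 4 : ℝ) ^ J ≤ ε / (27 * K) := hJ.le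
      rw [le_div_iff₀ (by positivity)] at h2
      linarith
    have h2 : K * ε₁ = ε / 3 := by
      rw [hε₁]
      field_simp
    have h3 : K * (Ca * (2 * κ + κ ^ 2)) ≤ ε / 3 := by
      have h4 : 2 * κ + κ ^ 2 ≤ 3 * κ := by nlinarith
      rw [le_div_iff₀ (by positivity)] at hκ2
      calc K * (Ca * (2 * κ + κ ^ 2)) ≤ K * (Ca * (3 * κ)) := by gcongr
        _ = κ * (9 * K * Ca) / 3 := by ring
        _ ≤ ε / 3 := by linarith
    linarith
  calc avg P (fun n => |avg (win A n) f|)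
      ≤ (∑ n ∈ P, 2 * |B n| / A.card) / P.card := by
        rw [avg]
        refine div_le_div_of_nonneg_right (Finset.sum_le_sum fun n _ => ?_) hP0.le
        exact WindowAux.avg_win_le hcardA f n
    _ = 2 / P.card * ∑ g ∈ ball X, f g * ψ g := by
        have h1 : ∑ n ∈ P, 2 * |B n| / A.card = 2 / A.card * ∑ n ∈ P, |B n| := by
          rw [Finset.mul_sum]
          refine Finset.sum_congr rfl fun n _ => ?_
          ring
        rw [h1, hsum]
        field_simp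
    _ ≤ 2 / P.card * (X ^ 2 * (9 * (1 / 4) ^ J + ε₁ + Ca * (2 * κ + κ ^ 2))) := by
        refine mul_le_mul_of_nonneg_left ((le_abs_self _).trans hbound) (by positivity)
    _ ≤ 2 / (c * k N ^ 2) * (X ^ 2 * (9 * (1 / 4) ^ J + ε₁ + Ca * (2 * κ + κ ^ 2))) := by
        have := hk0 N
        gcongr
    _ = K * (9 * (1 / 4) ^ J + ε₁ + Ca * (2 * κ + κ ^ 2)) := by
        have := (hk0 N).ne'
        rw [hX, hK]
        field_simp
        ring
    _ ≤ ε := hQ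

end Pool.Agent.MRG
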