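import Pool.Agent.MRG.Small
import Pool.Agent.MRG.Energy
import Pool.Agent.MRG.Window
import Pool.Agent.Hhelper49.GaussPret.Zero

/-!
# The Matomäki–Radziwiłł theorem for squares of Gaussian integers: the assembly
-/

set_option autoImplicit false

open Filter Topology

namespace Pool.Agent.MRG

open Pool.Agent.GaussPret

/-- the double limit assertion with `lim sup` for the inner limit -/
def ShortAvgSup (f : GaussianInt → ℝ) (Φ : ℕ → Finset GaussianInt) : Prop :=
  ∀ ε : ℝ, 0 < ε → ∃ H0 : ℕ, ∀ H : ℕ, H0 ≤ H → ∃ N0 : ℕ, ∀ N : ℕ, N0 ≤ N →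
    avg (Φ N) (fun n => |avg (win (Φ H) n) f - PP f|) ≤ ε

theorem ShortAvg.sup {f : GaussianInt → ℝ} {Φ : ℕ → Finset GaussianInt} (h : ShortAvg f Φ) :
    ShortAvgSup f Φ := by
  obtain ⟨L, h1, h2⟩ := h
  intro ε hε
  obtain ⟨H0, hH0⟩ := Metric.tendsto_atTop.1 h2 (ε / 2) (by positivity)
  refine ⟨H0, fun H hH => ?_⟩
  have h3 := hH0 H hH
  rw [dist_zero_right, Real.norm_eq_abs] at h3
  obtain ⟨N0, hN0⟩ := Metric.tendsto_atTop.1 (h1 H) (ε / 2) (by positivity)
  refine ⟨N0, fun N hN => ?_⟩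
  have h4 := hN0 N hN
  rw [Real.dist_eq] at h4
  have h5 := abs_lt.1 h4
  have h6 := abs_lt.1 h3
  linarith [h5.2, h6.2]

theorem mr_main {f : GaussianInt → ℝ} (hf : IsBCM f) {Φ : ℕ → Finset GaussianInt}
    (hΦ : IsDilatedFolner Φ) : ShortAvgSup f Φ := by
  by_cases hs : Summable fun p : P1 => (1 - f p) / nm (p : GaussianInt)
  · apply ShortAvg.sup
    refine pret_main hf isRayChar_one one_pos ?_ hΦ
    simpa only [mul_one] using hs
  · have hP : PP f = 0 := by
      by_contra h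
      exact hs (summable_of_PP hf h)
    intro ε hε
    have := window f (fun n hn => hf.abs_le_one hn)
      (fun ε hε => energy _ (CM.of_bcm hf) (smallFR f hf hs) ε hε) hΦ ε hε
    simpa only [hP, sub_zero] using this

end Pool.Agent.MRG
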