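import Mathlib

/-!
# Module Sel: Selberg's weights for a finite set of primes

Purely combinatorial.  `P` a finite set with `N p > 1` for `p ∈ P`, `F` a family of subsets of `P`, closed under subsets, `∅ ∈ F`.
`h(A) = ∏_{p∈A} 1/(N p - 1)`, `N(A) = ∏_{p∈A} N p`, `G = ∑_{A∈F} h(A) > 0`.  For `A ∈ F` put
`λ(A) = (-1)^|A| (N(A) / G) ∑_{C ∈ F, A ⊆ C} h(C)`, and `λ(A) = 0` for `A ∉ F`.
* `λ(∅) = 1`.
* `|λ(A)| ≤ 1`: `∑_{C ∈ F, A ⊆ C} h(C) = h(A) ∑_{B ∩ A = ∅, A ∪ B ∈ F} h(B)` and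
  `G = ∑_{L ⊆ A} ∑_{C ∈ F, C ∩ A = L} h(C) = ∑_{L⊆A} h(L) ∑_{B ∩ A = ∅, B ∪ L ∈ F} h(B) ≥ (∑_{L ⊆ A} h(L)) ∑_{B ∩ A = ∅, A ∪ B ∈ F} h(B)`, and
  `∑_{L⊆A} h(L) = ∏_{p∈A} (1 + 1/(N p - 1)) = N(A) h(A)`.
* `N(A ∪ B) = N(A) N(B)/N(A ∩ B)` and `N(A ∩ B) = ∑_{L ⊆ A ∩ B} ∏_{p∈L} (N p - 1)`, so the quadratic form is
  `∑_{L ⊆ P} ∏_{p∈L} (N p - 1) (∑_{A ⊇ L} λ(A)/N(A))²`, and
  `∑_{A⊇L} λ(A)/N(A) = (1/G) ∑_{C ∈ F, C ⊇ L} h(C) ∑_{L ⊆ A ⊆ C} (-1)^|A| = (1/G) (-1)^|L| h(L) [L ∈ F]`.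
  So it equals `∑_{L∈F} h(L)/G² = 1/G`.
-/

set_option autoImplicit false

namespace Pool.Agent.MRG

namespace SelAux

variable {α : Type*} [DecidableEq α]

/-- `h(A) = ∏_{p∈A} 1/(N p - 1)` -/
noncomputable def hh (N : α → ℝ) (A : Finset α) : ℝ := ∏ p ∈ A, 1 / (N p - 1)

/-- `N(A) = ∏_{p∈A} N p` -/
noncomputable def NN (N : α → ℝ) (A : Finset α) : ℝ := ∏ p ∈ A, N p

/-- `G` -/
noncomputable def GG (N : α → ℝ) (F : Finset (Finset α)) : ℝ := ∑ A ∈ F, hh N A

/-- the weights -/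
noncomputable def lm (N : α → ℝ) (F : Finset (Finset α)) (A : Finset α) : ℝ :=
  if A ∈ F then (-1) ^ A.card * (NN N A / GG N F) * ∑ C ∈ F.filter (fun C => A ⊆ C), hh N C else 0

omit [DecidableEq α] in
theorem hh_pos {N : α → ℝ} {A : Finset α} (h : ∀ p ∈ A, 1 < N p) : 0 < hh N A := by
  refine Finset.prod_pos fun p hp => ?_
  have := h p hp
  exact one_div_pos.2 (by linarith)

omit [DecidableEq α] in
theorem NN_pos {N : α → ℝ} {A : Finset α} (h : ∀ p ∈ A, 1 < N p) : 0 < NN N A := by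
  refine Finset.prod_pos fun p hp => ?_
  have := h p hp
  linarith

omit [DecidableEq α] in
/-- `∑_{L⊆A} h(L) = N(A) h(A)` -/
theorem sum_hh {N : α → ℝ} {A : Finset α} (h : ∀ p ∈ A, 1 < N p) :
    ∑ L ∈ A.powerset, hh N L = NN N A * hh N A := by
  unfold hh NN
  rw [← Finset.prod_mul_distrib, ← Finset.prod_add_one]
  refine Finset.prod_congr rfl fun p hp => ?_
  have := h p hp
  have h2 : N p - 1 ≠ 0 := by linarith
  field_simp
  ring

omit [DecidableEq α] in
/-- `∑_{L⊆A} 1/h(L) = N(A)` -/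
theorem sum_inv_hh {N : α → ℝ} {A : Finset α} :
    ∑ L ∈ A.powerset, (hh N L)⁻¹ = NN N A := by
  unfold hh NN
  have : ∀ L ∈ A.powerset, (∏ p ∈ L, 1 / (N p - 1))⁻¹ = ∏ p ∈ L, (N p - 1) := by
    intro L _
    rw [← Finset.prod_inv_distrib]
    refine Finset.prod_congr rfl fun p _ => ?_
    rw [one_div, inv_inv]
  rw [Finset.sum_congr rfl this, ← Finset.prod_add_one]
  refine Finset.prod_congr rfl fun p _ => ?_
  ring

theorem hh_union {N : α → ℝ} {A B : Finset α} (h : Disjoint A B) :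
    hh N (A ∪ B) = hh N A * hh N B := Finset.prod_union h

/-- `N(A) ∑_{C ∈ F, A ⊆ C} h(C) ≤ G` -/
theorem key_le {P : Finset α} {N : α → ℝ} (hN : ∀ p ∈ P, 1 < N p) {F : Finset (Finset α)}
    (hP : ∀ A ∈ F, A ⊆ P) (hd : ∀ A ∈ F, ∀ B ⊆ A, B ∈ F) {A : Finset α} (hA : A ∈ F) :
    NN N A * ∑ C ∈ F.filter (fun C => A ⊆ C), hh N C ≤ GG N F := by
  have hAN : ∀ p ∈ A, 1 < N p := fun p hp => hN p (hP A hA hp)
  have e1 : NN N A * ∑ C ∈ F.filter (fun C => A ⊆ C), hh N C =
      ∑ x ∈ A.powerset ×ˢ (F.filter (fun C => A ⊆ C)), hh N (x.1 ∪ (x.2 \ A)) := by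
    have e2 : ∑ C ∈ F.filter (fun C => A ⊆ C), hh N C =
        hh N A * ∑ C ∈ F.filter (fun C => A ⊆ C), hh N (C \ A) := by
      rw [Finset.mul_sum]
      refine Finset.sum_congr rfl fun C hC => ?_
      rw [← hh_union Finset.disjoint_sdiff, Finset.union_sdiff_of_subset (Finset.mem_filter.1 hC).2]
    rw [e2, ← mul_assoc, ← sum_hh hAN, Finset.sum_mul_sum, ← Finset.sum_product']
    refine Finset.sum_congr rfl fun x hx => ?_
    rw [Finset.mem_product, Finset.mem_powerset] at hx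
    rw [hh_union]
    exact Finset.disjoint_of_subset_left hx.1 Finset.disjoint_sdiff
  rw [e1]
  have hinj : Set.InjOn (fun x : Finset α × Finset α => x.1 ∪ (x.2 \ A))
      ((A.powerset ×ˢ (F.filter (fun C => A ⊆ C)) : Finset (Finset α × Finset α)) :
        Set (Finset α × Finset α)) := by
    rintro ⟨L, C⟩ hx ⟨L', C'⟩ hx' h
    simp only [Finset.coe_product, Set.mem_prod, Finset.mem_coe, Finset.mem_powerset,
      Finset.mem_filter] at hx hx'
    simp only at h
    have e3 : ∀ L C : Finset α, L ⊆ A → A ⊆ C → (L ∪ (C \ A)) ∩ A = L ∧ (L ∪ (C \ A)) ∪ A = C := by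
      intro L C hL hC
      constructor
      · ext x
        simp only [Finset.mem_inter, Finset.mem_union, Finset.mem_sdiff]
        constructor
        · rintro ⟨h1 | h1, h2⟩
          · exact h1
          · exact absurd h2 h1.2
        · intro h1
          exact ⟨Or.inl h1, hL h1⟩
      · ext x
        simp only [Finset.mem_union, Finset.mem_sdiff]
        constructor
        · rintro ((h1 | h1) | h1)
          · exact hC (hL h1)
          · exact h1.1
          · exact hC h1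
        · intro h1
          by_cases h2 : x ∈ A
          · exact Or.inr h2
          · exact Or.inl (Or.inr ⟨h1, h2⟩)
    have h1 := e3 L C hx.1 hx.2.2
    have h2 := e3 L' C' hx'.1 hx'.2.2
    rw [← h] at h2
    rw [Prod.mk.injEq]
    exact ⟨h1.1.symm.trans h2.1, h1.2.symm.trans h2.2⟩
  rw [← Finset.sum_image (f := fun B => hh N B) hinj]
  unfold GG
  refine Finset.sum_le_sum_of_subset_of_nonneg ?_ ?_
  · intro B hB
    rw [Finset.mem_image] at hB
    obtain ⟨⟨L, C⟩, hx, rfl⟩ := hB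
    simp only [Finset.mem_product, Finset.mem_powerset, Finset.mem_filter] at hx
    refine hd C hx.2.1 _ ?_
    refine Finset.union_subset (hx.1.trans hx.2.2) Finset.sdiff_subset
  · intro B hB _
    exact (hh_pos fun p hp => hN p (hP B hB hp)).le

/-- `∑_{L ⊆ A ⊆ C} (-1)^|A| = (-1)^|L| [L = C]` -/
theorem alt_sum (L C : Finset α) (hLC : L ⊆ C) :
    ∑ A ∈ Finset.Icc L C, (-1 : ℝ) ^ A.card = if L = C then (-1) ^ L.card else 0 := by
  rw [Finset.Icc_eq_image_powerset hLC, Finset.sum_image]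
  · have e1 : ∀ B ∈ (C \ L).powerset, (-1 : ℝ) ^ (L ∪ B).card = (-1) ^ L.card * (-1) ^ B.card := by
      intro B hB
      rw [Finset.mem_powerset] at hB
      rw [Finset.card_union_of_disjoint, pow_add]
      exact Finset.disjoint_of_subset_right hB Finset.disjoint_sdiff
    rw [Finset.sum_congr rfl e1, ← Finset.mul_sum]
    have e2 : ∑ B ∈ (C \ L).powerset, (-1 : ℝ) ^ B.card = if C \ L = ∅ then 1 else 0 := by
      have := Finset.sum_powerset_neg_one_pow_card (x := C \ L)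
      have h2 := congrArg (fun z : ℤ => (z : ℝ)) this
      push_cast at h2
      exact h2
    rw [e2]
    by_cases h : L = C
    · subst h
      simp
    · rw [if_neg h, if_neg, mul_zero]
      intro h2
      rw [Finset.sdiff_eq_empty_iff_subset] at h2
      exact h (Finset.Subset.antisymm hLC h2)
  · intro B hB B' hB' h
    simp only [Finset.coe_powerset, Set.mem_preimage, Set.mem_powerset_iff, Finset.coe_subset]
      at hB hB'
    have e : ∀ B : Finset α, B ⊆ C \ L → (L ∪ B) \ L = B := by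
      intro B hB
      rw [Finset.union_sdiff_left]
      exact Finset.sdiff_eq_self_of_disjoint
        (Finset.disjoint_of_subset_left hB Finset.sdiff_disjoint)
    have h3 : L ∪ B = L ∪ B' := h
    rw [← e B hB, ← e B' hB', h3]

/-- `∑_{A ⊇ L} λ(A)/N(A) = (-1)^|L| h(L)/G` -/
theorem sum_lm {P : Finset α} {N : α → ℝ} (hN : ∀ p ∈ P, 1 < N p) {F : Finset (Finset α)}
    (hP : ∀ A ∈ F, A ⊆ P) (hd : ∀ A ∈ F, ∀ B ⊆ A, B ∈ F) {L : Finset α} (hL : L ∈ F) :
    ∑ A ∈ F, (if L ⊆ A then lm N F A / NN N A else 0) = (-1) ^ L.card * hh N L / GG N F := by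
  have e1 : ∀ A ∈ F, (if L ⊆ A then lm N F A / NN N A else 0) =
      ∑ C ∈ F, (if L ⊆ A ∧ A ⊆ C then (-1) ^ A.card * hh N C / GG N F else 0) := by
    intro A hA
    by_cases h : L ⊆ A
    · rw [if_pos h, lm, if_pos hA, Finset.sum_filter]
      have hne : NN N A ≠ 0 := (NN_pos fun p hp => hN p (hP A hA hp)).ne'
      rw [Finset.mul_sum, Finset.sum_div]
      refine Finset.sum_congr rfl fun C _ => ?_
      by_cases h2 : A ⊆ C
      · rw [if_pos h2, if_pos ⟨h, h2⟩]
        field_simp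
      · rw [if_neg h2, if_neg (fun h3 => h2 h3.2), mul_zero, zero_div]
    · rw [if_neg h]
      symm
      refine Finset.sum_eq_zero fun C _ => ?_
      rw [if_neg (fun h3 => h h3.1)]
  rw [Finset.sum_congr rfl e1, Finset.sum_comm]
  have e2 : ∀ C ∈ F, ∑ A ∈ F, (if L ⊆ A ∧ A ⊆ C then (-1) ^ A.card * hh N C / GG N F else 0) =
      if L = C then (-1) ^ L.card * hh N C / GG N F else 0 := by
    intro C hC
    rw [← Finset.sum_filter]
    have e3 : F.filter (fun A => L ⊆ A ∧ A ⊆ C) = Finset.Icc L C := by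
      ext A
      rw [Finset.mem_filter, Finset.mem_Icc]
      constructor
      · rintro ⟨_, h⟩
        exact h
      · intro h
        exact ⟨hd C hC A h.2, h⟩
    rw [e3]
    have e4 : ∑ A ∈ Finset.Icc L C, (-1) ^ A.card * hh N C / GG N F =
        (∑ A ∈ Finset.Icc L C, (-1 : ℝ) ^ A.card) * (hh N C / GG N F) := by
      rw [Finset.sum_mul]
      refine Finset.sum_congr rfl fun A _ => ?_
      ring
    rw [e4]
    by_cases hLC : L ⊆ C
    · rw [alt_sum L C hLC]
      split_ifs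
      · ring
      · ring
    · have h5 : Finset.Icc L C = ∅ := Finset.Icc_eq_empty hLC
      rw [h5, Finset.sum_empty, zero_mul, if_neg]
      rintro rfl
      exact hLC (Finset.Subset.refl _)
  rw [Finset.sum_congr rfl e2, Finset.sum_ite_eq, if_pos hL]

end SelAux

open SelAux

theorem selberg_weights {α : Type*} [DecidableEq α] (P : Finset α) (N : α → ℝ)
    (hN : ∀ p ∈ P, 1 < N p) (F : Finset (Finset α)) (h0 : ∅ ∈ F) (hP : ∀ A ∈ F, A ⊆ P)
    (hd : ∀ A ∈ F, ∀ B ⊆ A, B ∈ F) :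
    ∃ lam : Finset α → ℝ, lam ∅ = 1 ∧ (∀ A, |lam A| ≤ 1) ∧ (∀ A, A ∉ F → lam A = 0) ∧
      ∑ A ∈ F, ∑ B ∈ F, lam A * lam B / ∏ p ∈ A ∪ B, N p =
        1 / ∑ A ∈ F, ∏ p ∈ A, 1 / (N p - 1) := by
  have hpos : ∀ A ∈ F, 0 < hh N A := fun A hA => hh_pos fun p hp => hN p (hP A hA hp)
  have hposN : ∀ A ∈ F, 0 < NN N A := fun A hA => NN_pos fun p hp => hN p (hP A hA hp)
  have hG : 0 < GG N F := Finset.sum_pos hpos ⟨∅, h0⟩
  refine ⟨lm N F, ?_, ?_, ?_, ?_⟩
  · unfold lm
    rw [if_pos h0]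
    have e1 : F.filter (fun C => ∅ ⊆ C) = F := by simp
    rw [e1]
    change (-1) ^ (∅ : Finset α).card * (NN N ∅ / GG N F) * GG N F = 1
    have e2 : NN N ∅ = 1 := by simp [NN]
    rw [e2, Finset.card_empty, pow_zero]
    field_simp
  · intro A
    by_cases hA : A ∈ F
    · unfold lm
      rw [if_pos hA]
      have h1 := key_le hN hP hd hA
      set S := ∑ C ∈ F.filter (fun C => A ⊆ C), hh N C with hS
      have hS0 : 0 ≤ S := Finset.sum_nonneg fun C hC => (hpos C (Finset.mem_filter.1 hC).1).le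
      rw [abs_mul, abs_mul, abs_pow, abs_neg, abs_one, one_pow, one_mul,
        abs_of_nonneg (div_nonneg (hposN A hA).le hG.le), abs_of_nonneg hS0, div_mul_eq_mul_div,
        div_le_one hG]
      exact h1
    · unfold lm
      rw [if_neg hA, abs_zero]
      exact zero_le_one
  · intro A hA
    unfold lm
    rw [if_neg hA]
  · change _ = 1 / GG N F
    -- expand
    have e1 : ∀ A ∈ F, ∀ B ∈ F, lm N F A * lm N F B / ∏ p ∈ A ∪ B, N p =
        ∑ L ∈ F, (hh N L)⁻¹ * ((if L ⊆ A then lm N F A / NN N A else 0) *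
          (if L ⊆ B then lm N F B / NN N B else 0)) := by
      intro A hA B hB
      have hU : (∏ p ∈ A ∪ B, N p) * NN N (A ∩ B) = NN N A * NN N B :=
        Finset.prod_union_inter
      have hI : 0 < NN N (A ∩ B) := hposN _ (hd A hA _ Finset.inter_subset_left)
      have hUpos : 0 < ∏ p ∈ A ∪ B, N p := by
        refine Finset.prod_pos fun p hp => ?_
        rw [Finset.mem_union] at hp
        rcases hp with hp | hp
        · have := hN p (hP A hA hp); linarith
        · have := hN p (hP B hB hp); linarith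
      have e2 : ∑ L ∈ F, (hh N L)⁻¹ * ((if L ⊆ A then lm N F A / NN N A else 0) *
          (if L ⊆ B then lm N F B / NN N B else 0)) =
          ∑ L ∈ (A ∩ B).powerset, (hh N L)⁻¹ * (lm N F A / NN N A * (lm N F B / NN N B)) := by
        have e3 : (A ∩ B).powerset = F.filter (fun L => L ⊆ A ∧ L ⊆ B) := by
          ext L
          rw [Finset.mem_powerset, Finset.mem_filter, Finset.subset_inter_iff]
          constructor
          · intro h
            exact ⟨hd A hA L h.1, h⟩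
          · intro h
            exact h.2
        rw [e3, Finset.sum_filter]
        refine Finset.sum_congr rfl fun L _ => ?_
        by_cases h1 : L ⊆ A <;> by_cases h2 : L ⊆ B <;> simp [h1, h2]
      rw [e2, ← Finset.sum_mul, sum_inv_hh]
      have hA' := hposN A hA
      have hB' := hposN B hB
      rw [div_mul_div_comm, ← hU]
      field_simp
    have e2 : ∑ A ∈ F, ∑ B ∈ F, lm N F A * lm N F B / ∏ p ∈ A ∪ B, N p =
        ∑ L ∈ F, (hh N L)⁻¹ * (∑ A ∈ F, (if L ⊆ A then lm N F A / NN N A else 0)) ^ 2 := by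
      have e3 : ∀ L ∈ F, (hh N L)⁻¹ * (∑ A ∈ F, (if L ⊆ A then lm N F A / NN N A else 0)) ^ 2 =
          ∑ A ∈ F, ∑ B ∈ F, (hh N L)⁻¹ * ((if L ⊆ A then lm N F A / NN N A else 0) *
          (if L ⊆ B then lm N F B / NN N B else 0)) := by
        intro L _
        rw [sq, Finset.sum_mul_sum, Finset.mul_sum]
        refine Finset.sum_congr rfl fun A _ => ?_
        rw [Finset.mul_sum]
      rw [Finset.sum_congr rfl e3]
      symm
      rw [Finset.sum_comm]
      refine Finset.sum_congr rfl fun A hA => ?_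
      rw [Finset.sum_comm]
      exact Finset.sum_congr rfl fun B hB => (e1 A hA B hB).symm
    rw [e2]
    have e4 : ∀ L ∈ F, (hh N L)⁻¹ *
        (∑ A ∈ F, (if L ⊆ A then lm N F A / NN N A else 0)) ^ 2 = hh N L * (1 / GG N F ^ 2) := by
      intro L hL
      rw [sum_lm hN hP hd hL]
      have h1 := (hpos L hL).ne'
      have h2 : ((-1 : ℝ) ^ L.card) ^ 2 = 1 := by
        rw [← pow_mul, mul_comm, pow_mul]
        norm_num
      rw [div_pow, mul_pow, h2]
      field_simp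
    rw [Finset.sum_congr rfl e4, ← Finset.sum_mul]
    change GG N F * (1 / GG N F ^ 2) = _
    field_simp

end Pool.Agent.MRG
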