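import Pool.Agent.MRG.Tent
import Pool.Agent.MRG.Sel
import Pool.Agent.MRG.Gsum

/-!
# Module Maj: a majorant of the primes with small character sums

Let `δ` be the exponent of `tent (2K)`, `η = δ/8`, `D = e^(ηw)`, `λ` the weights of `selberg_weights` for `P = pr 1 D`, `N p = |p|²` (`> 1`), `F = Fam D`,
and `W(n) = (∑_{A ∈ F, ∏A ∣ n} λ(A))² tn (log|n| - w)`.
* `W ≥ 0`.  If `p` is a first-quadrant prime, `e^w < |p| ≤ e^(w+1)`, then no prime of `pr 1 D` divides `p` (`P1_eq_of_dvd`, `|p| > D`), so only `A = ∅`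
  counts and `W(p) = tn (log|p| - w) ≥ 1`.
* `∑_{n ∈ ball (e^(w+2))} W(n) ch m k n = ∑_{A,B ∈ F} λ(A) λ(B) ∑_{n : ∏A ∣ n, ∏B ∣ n} tn ch`, and `∏A ∣ n ∧ ∏B ∣ n ↔ Π ∣ n`, `Π = ∏(A ∪ B)` (`prod_dvd_iff`);
  `n = Π n'` (`sum_dvd`), `ch m k n = ch m k Π ch m k n'`, `tn (log|n| - w) = tn (log|n'| - w')`, `w' = w - log|Π| ≥ (1 - 2η) w ≥ w/2`
  (`|Π| ≤ |∏A| |∏B| ≤ D²`), `|m| + |k| ≤ e^(Kw) ≤ e^(2Kw')`.  By `tent (2K)` the inner sum is
  `ch m k Π (1_{k=0} tM m e^((2+im)w')) + O(e^((2-δ)w'))`; for `k = 0`, `ch m 0 Π = e^(im log|Π|)`, so the main term is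
  `tM m e^((2+im)w) / |Π|²`, and the sum of the main terms over `A, B` is `tM m e^((2+im)w) / G`, `G ≥ c log D = c η w` (`gsum`).
  The errors: at most `(9D²)²` pairs, total `81 e^(4ηw) C e^((2-δ)w) = C e^((2-δ/2)w)`.
-/

set_option autoImplicit false

namespace Pool.Agent.MRG

open Pool.Agent.GaussPret

namespace MajAux

theorem tn_nonneg (x : ℝ) : 0 ≤ tn x := le_max_left _ _

theorem one_le_tn {x : ℝ} (h : |x| ≤ 1) : 1 ≤ tn x :=
  le_trans (by linarith) (le_max_right 0 (2 - |x|))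

theorem mem_fam {D : ℝ} {A : Finset GaussianInt} :
    A ∈ Fam D ↔ A ⊆ pr 1 D ∧ ab (∏ p ∈ A, p) ≤ D := by
  classical
  rw [Fam, Finset.mem_filter, Finset.mem_powerset]

theorem fam_prime {D : ℝ} {A : Finset GaussianInt} (hA : A ∈ Fam D) :
    ∀ p ∈ A, Prime p ∧ 0 < p.re ∧ 0 ≤ p.im := fun _ hp =>
  (mem_pr.1 ((mem_fam.1 hA).1 hp)).1

theorem prod_ne {A : Finset GaussianInt} (hA : ∀ p ∈ A, Prime p ∧ 0 < p.re ∧ 0 ≤ p.im) :
    ∏ p ∈ A, p ≠ 0 := Finset.prod_ne_zero_iff.2 fun p hp => (hA p hp).1.ne_zero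

theorem ab_prod (s : Finset GaussianInt) : ab (∏ p ∈ s, p) = ∏ p ∈ s, ab p := by
  rw [ab, map_prod, norm_prod]
  rfl

theorem ab_union_le {D : ℝ} {A B : Finset GaussianInt} (hA : A ∈ Fam D) (hB : B ∈ Fam D) :
    ab (∏ p ∈ A ∪ B, p) ≤ D * D := by
  have hA' := fam_prime hA
  have hB' := fam_prime hB
  have h1 : ∏ p ∈ A ∪ B, p ∣ (∏ p ∈ A, p) * ∏ p ∈ B, p := by
    refine (prod_dvd_iff ?_ (mul_ne_zero (prod_ne hA') (prod_ne hB'))).2 ?_
    · intro p hp
      rcases Finset.mem_union.1 hp with h | h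
      · exact hA' p h
      · exact hB' p h
    · intro p hp
      rcases Finset.mem_union.1 hp with h | h
      · exact Dvd.dvd.mul_right (Finset.dvd_prod_of_mem (fun q => q) h) _
      · exact Dvd.dvd.mul_left (Finset.dvd_prod_of_mem (fun q => q) h) _
  obtain ⟨c, hc⟩ := h1
  have hc0 : c ≠ 0 := by
    rintro rfl
    rw [mul_zero] at hc
    exact mul_ne_zero (prod_ne hA') (prod_ne hB') hc
  have h2 : ab ((∏ p ∈ A, p) * ∏ p ∈ B, p) = ab (∏ p ∈ A ∪ B, p) * ab c := by rw [hc, ab_mul]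
  rw [ab_mul] at h2
  have h3 := one_le_ab hc0
  have h4 := (mem_fam.1 hA).2
  have h5 := (mem_fam.1 hB).2
  have h6 := ab_nonneg (∏ p ∈ A ∪ B, p)
  have h7 : ab (∏ p ∈ A, p) * ab (∏ p ∈ B, p) ≤ D * D :=
    mul_le_mul h4 h5 (ab_nonneg _) ((ab_nonneg _).trans h4)
  nlinarith

open scoped Classical in
/-- the majorant -/
noncomputable def WW (lam : Finset GaussianInt → ℝ) (F : Finset (Finset GaussianInt)) (w : ℝ)
    (n : GaussianInt) : ℝ :=
  (∑ A ∈ F, if (∏ p ∈ A, p) ∣ n then lam A else 0) ^ 2 * tn (Real.log (ab n) - w)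

theorem WW_nonneg (lam : Finset GaussianInt → ℝ) (F : Finset (Finset GaussianInt)) (w : ℝ)
    (n : GaussianInt) : 0 ≤ WW lam F w n := mul_nonneg (sq_nonneg _) (tn_nonneg _)

theorem WW_prime {lam : Finset GaussianInt → ℝ} {D w : ℝ} (hlam : lam ∅ = 1) (hD : 1 ≤ D)
    (hDw : D ≤ Real.exp w) {p : GaussianInt} (hp : p ∈ pr (Real.exp w) (Real.exp (w + 1))) :
    1 ≤ WW lam (Fam D) w p := by
  classical
  rw [mem_pr] at hp
  obtain ⟨hp, hp1, hp2⟩ := hp
  have h1 : (∑ A ∈ Fam D, if (∏ q ∈ A, q) ∣ p then lam A else 0) = 1 := by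
    rw [Finset.sum_eq_single ∅]
    · rw [Finset.prod_empty, if_pos (one_dvd p), hlam]
    · intro A hA hA0
      rw [if_neg]
      intro hd
      obtain ⟨q, hq⟩ := Finset.nonempty_iff_ne_empty.2 hA0
      have hqp : q ∣ p := (Finset.dvd_prod_of_mem (fun q => q) hq).trans hd
      have hq' := (mem_fam.1 hA).1 hq
      rw [mem_pr] at hq'
      have h2 := P1_eq_of_dvd (p := ⟨q, hq'.1⟩) (q := ⟨p, hp⟩) hqp
      have h3 : q = p := congrArg Subtype.val h2
      rw [h3] at hq'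
      linarith [hq'.2.2]
    · intro h
      exact absurd (fam_empty hD) h
  have hpos := ab_pos hp.1.ne_zero
  have h4 : |Real.log (ab p) - w| ≤ 1 := by
    have h5 : w < Real.log (ab p) := (Real.lt_log_iff_exp_lt hpos).2 hp1
    have h6 : Real.log (ab p) ≤ w + 1 := (Real.log_le_iff_le_exp hpos).2 hp2
    rw [abs_le]
    constructor <;> linarith
  unfold WW
  rw [h1, one_pow, one_mul]
  exact one_le_tn h4

open scoped Classical in
theorem inner (m : ℝ) (k : ℤ) (w : ℝ) {P : GaussianInt} (hP : P ≠ 0) :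
    ∑ n ∈ (ball (Real.exp (w + 2))).filter (fun n => P ∣ n),
        (tn (Real.log (ab n) - w) : ℂ) * ch m k n =
      ch m k P * ∑ n ∈ ball (Real.exp ((w - Real.log (ab P)) + 2)),
        (tn (Real.log (ab n) - (w - Real.log (ab P))) : ℂ) * ch m k n := by
  have hpos := ab_pos hP
  rw [sum_dvd P hP, Finset.mul_sum]
  have h1 : Real.exp (w + 2) / ab P = Real.exp ((w - Real.log (ab P)) + 2) := by
    rw [show w - Real.log (ab P) + 2 = (w + 2) - Real.log (ab P) by ring, Real.exp_sub,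
      Real.exp_log hpos]
  rw [h1]
  refine Finset.sum_congr rfl fun n hn => ?_
  have hn0 := (mem_ball'.1 hn).1
  rw [ab_mul, Real.log_mul hpos.ne' (ab_pos hn0).ne', ch_mul hP hn0,
    show Real.log (ab P) + Real.log (ab n) - w = Real.log (ab n) - (w - Real.log (ab P)) by ring]
  ring

open scoped Classical in
theorem expand (lam : Finset GaussianInt → ℝ) (F : Finset (Finset GaussianInt))
    (hF : ∀ A ∈ F, ∀ p ∈ A, Prime p ∧ 0 < p.re ∧ 0 ≤ p.im) (R w m : ℝ) (k : ℤ) :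
    ∑ n ∈ ball R, (WW lam F w n : ℂ) * ch m k n =
      ∑ A ∈ F, ∑ B ∈ F, ((lam A * lam B : ℝ) : ℂ) *
        ∑ n ∈ (ball R).filter (fun n => (∏ p ∈ A ∪ B, p) ∣ n),
          (tn (Real.log (ab n) - w) : ℂ) * ch m k n := by
  have h1 : ∀ n ∈ ball R, (WW lam F w n : ℂ) * ch m k n =
      ∑ A ∈ F, ∑ B ∈ F, (if (∏ p ∈ A ∪ B, p) ∣ n then
        ((lam A * lam B : ℝ) : ℂ) * ((tn (Real.log (ab n) - w) : ℂ) * ch m k n) else 0) := by
    intro n hn
    have hn0 := (mem_ball'.1 hn).1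
    unfold WW
    rw [sq, Finset.sum_mul_sum]
    push_cast
    rw [Finset.sum_mul, Finset.sum_mul]
    refine Finset.sum_congr rfl fun A hA => ?_
    rw [Finset.sum_mul, Finset.sum_mul]
    refine Finset.sum_congr rfl fun B hB => ?_
    have hU : ∀ p ∈ A ∪ B, Prime p ∧ 0 < p.re ∧ 0 ≤ p.im := by
      intro p hp
      rcases Finset.mem_union.1 hp with h | h
      · exact hF A hA p h
      · exact hF B hB p h
    have h2 : (∏ p ∈ A ∪ B, p) ∣ n ↔ (∏ p ∈ A, p) ∣ n ∧ (∏ p ∈ B, p) ∣ n := by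
      rw [prod_dvd_iff hU hn0, prod_dvd_iff (hF A hA) hn0, prod_dvd_iff (hF B hB) hn0]
      constructor
      · intro h
        exact ⟨fun p hp => h p (Finset.mem_union_left _ hp),
          fun p hp => h p (Finset.mem_union_right _ hp)⟩
      · rintro ⟨h3, h4⟩ p hp
        rcases Finset.mem_union.1 hp with h | h
        · exact h3 p h
        · exact h4 p h
    by_cases hA1 : (∏ p ∈ A, p) ∣ n
    · by_cases hB1 : (∏ p ∈ B, p) ∣ n
      · rw [if_pos hA1, if_pos hB1, if_pos (h2.2 ⟨hA1, hB1⟩)]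
        ring
      · rw [if_pos hA1, if_neg hB1, if_neg (fun h => hB1 (h2.1 h).2)]
        push_cast
        ring
    · rw [if_neg hA1, if_neg (fun h => hA1 (h2.1 h).1)]
      push_cast
      ring
  rw [Finset.sum_congr rfl h1, Finset.sum_comm]
  refine Finset.sum_congr rfl fun A _ => ?_
  rw [Finset.sum_comm]
  refine Finset.sum_congr rfl fun B _ => ?_
  rw [← Finset.sum_filter, Finset.mul_sum]

/-- the main term of a pair -/
theorem main_term (m w : ℝ) {P : GaussianInt} (hP : P ≠ 0) :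
    ch m 0 P * (tM m * Complex.exp ((2 + m * Complex.I) * ((w - Real.log (ab P) : ℝ) : ℂ))) =
      tM m * Complex.exp ((2 + m * Complex.I) * w) * ((1 / ab P ^ 2 : ℝ) : ℂ) := by
  have hpos := ab_pos hP
  have h1 : ((1 / ab P ^ 2 : ℝ) : ℂ) = Complex.exp ((-(2 * Real.log (ab P)) : ℝ) : ℂ) := by
    rw [← Complex.ofReal_exp, Real.exp_neg, two_mul, Real.exp_add, Real.exp_log hpos]
    congr 1
    field_simp
  rw [h1, ch]
  have h2 : ∀ a b c : ℂ, a * (b * c) = b * (a * c) := fun a b c => by ring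
  rw [h2, mul_assoc, ← Complex.exp_add, ← Complex.exp_add]
  congr 2
  push_cast
  ring

end MajAux

open MajAux

theorem majorant (K : ℕ) : ∃ δ C w0 : ℝ, 0 < δ ∧ 0 < C ∧ ∀ w : ℝ, w0 ≤ w →
    ∃ W : GaussianInt → ℝ, (∀ n, 0 ≤ W n) ∧
      (∀ p ∈ pr (Real.exp w) (Real.exp (w + 1)), 1 ≤ W p) ∧
      ∀ (m : ℝ) (k : ℤ), |m| + |(k : ℝ)| ≤ Real.exp (K * w) →
        ‖∑ n ∈ ball (Real.exp (w + 2)), (W n : ℂ) * ch m k n‖ ≤
          (if k = 0 then C * Real.exp (2 * w) / (w * (1 + m ^ 2)) else 0) +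
            C * Real.exp ((2 - δ) * w) := by
  classical
  obtain ⟨δ0, C0, hδ0, hδ0', hC0, htent⟩ := tent (2 * K)
  obtain ⟨C1, hC1, htM⟩ := tM_le
  obtain ⟨c, hc, hG⟩ := gsum
  set η : ℝ := δ0 / 8 with hη
  have hη0 : 0 < η := by positivity
  have hη1 : η ≤ 1 / 16 := by rw [hη]; linarith
  refine ⟨δ0 / 2, C1 / (c * η) + 81 * C0, 8, by positivity, by positivity, fun w hw => ?_⟩
  have hw0 : 0 < w := by linarith
  set D : ℝ := Real.exp (η * w) with hD
  have hD1 : 1 ≤ D := Real.one_le_exp (by positivity)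
  have hDw : D ≤ Real.exp w := Real.exp_le_exp.2 (by nlinarith)
  have hlogD : Real.log D = η * w := Real.log_exp _
  have hN : ∀ p ∈ pr 1 D, 1 < ab p ^ 2 := by
    intro p hp
    have := (mem_pr.1 hp).2.1
    nlinarith
  obtain ⟨lam, hl0, hl1, hl2, hl3⟩ := selberg_weights (pr 1 D) (fun p => ab p ^ 2) hN (Fam D)
    (fam_empty hD1) (fun A hA => (mem_fam.1 hA).1) (fun A hA B hB => fam_down hA hB)
  set G : ℝ := ∑ A ∈ Fam D, ∏ p ∈ A, 1 / (ab p ^ 2 - 1) with hGdef
  have hG1 : c * (η * w) ≤ G := by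
    rw [← hlogD]
    exact hG D hD1
  have hG0 : 0 < c * (η * w) := by positivity
  have hGpos : 0 < G := hG0.trans_le hG1
  refine ⟨WW lam (Fam D) w, WW_nonneg _ _ _, fun p hp => WW_prime hl0 hD1 hDw hp, ?_⟩
  intro m k hmk
  have hF : ∀ A ∈ Fam D, ∀ p ∈ A, Prime p ∧ 0 < p.re ∧ 0 ≤ p.im := fun A hA => fam_prime hA
  rw [expand lam (Fam D) hF]
  -- the pairs
  set M : ℂ := if k = 0 then tM m * Complex.exp ((2 + m * Complex.I) * w) else 0 with hM
  have hpair : ∀ A ∈ Fam D, ∀ B ∈ Fam D,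
      ‖(∑ n ∈ (ball (Real.exp (w + 2))).filter (fun n => (∏ p ∈ A ∪ B, p) ∣ n),
          (tn (Real.log (ab n) - w) : ℂ) * ch m k n) -
        M * ((1 / ∏ p ∈ A ∪ B, ab p ^ 2 : ℝ) : ℂ)‖ ≤ C0 * Real.exp ((2 - δ0) * w) := by
    intro A hA B hB
    have hU : ∀ p ∈ A ∪ B, Prime p ∧ 0 < p.re ∧ 0 ≤ p.im := by
      intro p hp
      rcases Finset.mem_union.1 hp with h | h
      · exact hF A hA p h
      · exact hF B hB p h
    have hP0 := prod_ne hU
    have hPle := ab_union_le hA hB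
    have hP2 : ∏ p ∈ A ∪ B, ab p ^ 2 = ab (∏ p ∈ A ∪ B, p) ^ 2 := by
      rw [Finset.prod_pow, ab_prod]
    rw [hP2]
    set P := ∏ p ∈ A ∪ B, p with hPdef
    have hpos := ab_pos hP0
    have h1P := one_le_ab hP0
    have hlog0 : 0 ≤ Real.log (ab P) := Real.log_nonneg h1P
    have hlog1 : Real.log (ab P) ≤ 2 * (η * w) := by
      have := Real.log_le_log hpos hPle
      rw [Real.log_mul (by positivity) (by positivity), hlogD] at this
      linarith
    rw [inner m k w hP0]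
    have hw4 : 4 ≤ w - Real.log (ab P) := by nlinarith
    have hw2 : w ≤ 2 * (w - Real.log (ab P)) := by nlinarith
    have hmk' : |m| + |(k : ℝ)| ≤ Real.exp ((2 * K : ℕ) * (w - Real.log (ab P))) := by
      refine hmk.trans (Real.exp_le_exp.2 ?_)
      push_cast
      have hK : (0 : ℝ) ≤ K := Nat.cast_nonneg K
      nlinarith
    have h1 := htent (w - Real.log (ab P)) m k hw4 hmk'
    have h2 : M * ((1 / ab P ^ 2 : ℝ) : ℂ) = ch m k P *
        (if k = 0 then tM m * Complex.exp ((2 + m * Complex.I) *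
          ((w - Real.log (ab P) : ℝ) : ℂ)) else 0) := by
      by_cases hk : k = 0
      · rw [hM, if_pos hk, if_pos hk, hk, main_term m w hP0]
      · rw [hM, if_neg hk, if_neg hk, zero_mul, mul_zero]
    rw [h2, ← mul_sub, norm_mul, norm_ch, one_mul]
    refine h1.trans (mul_le_mul_of_nonneg_left (Real.exp_le_exp.2 ?_) hC0.le)
    nlinarith
  -- the sum of the main terms
  have hmain : ∑ A ∈ Fam D, ∑ B ∈ Fam D, ((lam A * lam B : ℝ) : ℂ) *
      (M * ((1 / ∏ p ∈ A ∪ B, ab p ^ 2 : ℝ) : ℂ)) = M * ((1 / G : ℝ) : ℂ) := by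
    rw [hGdef, ← hl3]
    push_cast
    rw [Finset.mul_sum]
    refine Finset.sum_congr rfl fun A _ => ?_
    rw [Finset.mul_sum]
    refine Finset.sum_congr rfl fun B _ => ?_
    ring
  have hdiff : ‖(∑ A ∈ Fam D, ∑ B ∈ Fam D, ((lam A * lam B : ℝ) : ℂ) *
      ∑ n ∈ (ball (Real.exp (w + 2))).filter (fun n => (∏ p ∈ A ∪ B, p) ∣ n),
          (tn (Real.log (ab n) - w) : ℂ) * ch m k n) - M * ((1 / G : ℝ) : ℂ)‖ ≤
      81 * C0 * Real.exp ((2 - δ0 / 2) * w) := by
    rw [← hmain, ← Finset.sum_sub_distrib]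
    have hcard := card_fam D
    have hE : 0 ≤ C0 * Real.exp ((2 - δ0) * w) := by positivity
    calc _ ≤ ∑ A ∈ Fam D, ∑ B ∈ Fam D, C0 * Real.exp ((2 - δ0) * w) := by
          refine (norm_sum_le _ _).trans (Finset.sum_le_sum fun A hA => ?_)
          rw [← Finset.sum_sub_distrib]
          refine (norm_sum_le _ _).trans (Finset.sum_le_sum fun B hB => ?_)
          rw [← mul_sub, norm_mul, Complex.norm_real, norm_mul]
          have h1 := hl1 A
          have h2 := hl1 B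
          have h3 : ‖lam A‖ * ‖lam B‖ ≤ 1 := by
            rw [Real.norm_eq_abs, Real.norm_eq_abs]
            exact mul_le_one₀ h1 (abs_nonneg _) h2
          calc _ ≤ 1 * (C0 * Real.exp ((2 - δ0) * w)) :=
                mul_le_mul h3 (hpair A hA B hB) (norm_nonneg _) zero_le_one
            _ = _ := one_mul _
      _ = ((Fam D).card : ℝ) * ((Fam D).card : ℝ) * (C0 * Real.exp ((2 - δ0) * w)) := by
          rw [Finset.sum_const, Finset.sum_const, nsmul_eq_mul, nsmul_eq_mul, mul_assoc]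
      _ ≤ (9 * D ^ 2) * (9 * D ^ 2) * (C0 * Real.exp ((2 - δ0) * w)) := by
          refine mul_le_mul_of_nonneg_right ?_ hE
          exact mul_le_mul hcard hcard (Nat.cast_nonneg _) (by positivity)
      _ = 81 * C0 * (D ^ 4 * Real.exp ((2 - δ0) * w)) := by ring
      _ = _ := by
          rw [hD, ← Real.exp_nat_mul, ← Real.exp_add, hη]
          congr 2
          push_cast
          ring
  have hMle : ‖M * ((1 / G : ℝ) : ℂ)‖ ≤
      (if k = 0 then (C1 / (c * η)) * Real.exp (2 * w) / (w * (1 + m ^ 2)) else 0) := by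
    by_cases hk : k = 0
    · rw [hM, if_pos hk, if_pos hk, norm_mul, norm_mul, Complex.norm_real, Real.norm_eq_abs,
        abs_of_pos (by positivity), Complex.norm_exp]
      have h1 : ((2 + m * Complex.I) * w : ℂ).re = 2 * w := by simp
      rw [h1]
      have h2 : 1 / G ≤ 1 / (c * (η * w)) := one_div_le_one_div_of_le hG0 hG1
      calc _ ≤ C1 / (1 + m ^ 2) * Real.exp (2 * w) * (1 / (c * (η * w))) := by
            refine mul_le_mul ?_ h2 (by positivity) (by positivity)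
            exact mul_le_mul_of_nonneg_right (htM m) (Real.exp_pos _).le
        _ = _ := by
            have hm : (1 + m ^ 2) ≠ 0 := by positivity
            field_simp
    · rw [hM, if_neg hk, if_neg hk, zero_mul, norm_zero]
  have hfin := norm_le_norm_add_norm_sub' (∑ A ∈ Fam D, ∑ B ∈ Fam D, ((lam A * lam B : ℝ) : ℂ) *
      ∑ n ∈ (ball (Real.exp (w + 2))).filter (fun n => (∏ p ∈ A ∪ B, p) ∣ n),
          (tn (Real.log (ab n) - w) : ℂ) * ch m k n) (M * ((1 / G : ℝ) : ℂ))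
  refine hfin.trans (add_le_add (hMle.trans ?_) (hdiff.trans ?_))
  · by_cases hk : k = 0
    · rw [if_pos hk, if_pos hk]
      refine div_le_div_of_nonneg_right (mul_le_mul_of_nonneg_right ?_ (Real.exp_pos _).le)
        (by positivity)
      linarith
    · rw [if_neg hk, if_neg hk]
  · refine mul_le_mul_of_nonneg_right ?_ (Real.exp_pos _).le
    have : 0 ≤ C1 / (c * η) := by positivity
    linarith

end Pool.Agent.MRG
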