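import Pool.Agent.MRG.Vdc

/-!
# Module Phase: the phase of an iterated difference is almost linear on short horizontal segments

`chB m k Y` is the character cut off at `|g| ≤ Y` (and `0` at `0`).  Let `hs` have `d - 1` entries `≥ 1`, product `P`, `Im g₀ ≠ 0`, `sum hs + L ≤ W`, `2W ≤ |g₀|`,
`|g₀| + W ≤ Y`.  For `0 ≤ x < L` all the points `g₀ + x + σ`, `σ` a partial sum of `hs`, are nonzero, in the disc, and have the same nonzero imaginary part, so
`Dl hs (chB m k Y) (g₀ + x) = exp (i ψ(x))`, `ψ(x) = ∑_S (-1)^(d-1-|S|) φ(g₀ + x + σ_S)`, `φ(z) = Re (c Log z)`, `c = m - ik`.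
For `|w| ≤ |g₀|/2`: `Log (g₀ + w) = Log g₀ + ∑_{j≥1} (-1)^(j+1) (w/g₀)^j/j` (both sides have derivative `1/(g₀ + w)` along the segment; the segment does
not meet the real axis).  The `(d-1)`-fold difference `P_j(x) = ∑_S (-1)^(d-1-|S|) (x + σ_S)^j` vanishes for `j < d - 1`, is constant for `j = d - 1`,
`P_d(x) - P_d(0) = d! P x`, and `|P_j(x) - P_j(0)| ≤ j^d P x W^(j-d)` for `j > d` (mean value theorem: `P_j'(x) = j(j-1)⋯(j-d+1) ∫ (x + t·h)^(j-d) h₁⋯h_(d-1) dt`).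
So `ψ(x) = ψ(0) + A x + E(x)` with `A = Re (c (-1)^(d+1) (d-1)! P/g₀^d)` and
`|E(x)| ≤ |c| P x ∑_{j>d} j^d W^(j-d)/|g₀|^j ≤ C (|m|+|k|) P x W/|g₀|^(d+1)` (`W/|g₀| ≤ 1/2`).

`geo_sum`: `|∑_{x<L} e^(i(a + Ax + E(x)))| ≤ |∑ e^(iAx)| + ∑ |E(x)| ≤ 2/|1 - e^(iA)| + L·e`, `|1 - e^(iA)| = 2|sin (A/2)| ≥ 2|A|/π` for `|A| ≤ π`.
-/

set_option autoImplicit false

namespace Pool.Agent.MRG

open Pool.Agent.GaussPret

open scoped Classical in
/-- the truncated character -/
noncomputable def chB (m : ℝ) (k : ℤ) (Y : ℝ) (g : GaussianInt) : ℂ :=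
  if g ∈ ball Y then ch m k g else 0

/-- iterated difference of a function of a real variable -/
noncomputable def dlr : List ℕ → (ℝ → ℂ) → (ℝ → ℂ)
  | [], f => f
  | h :: t, f => dlr t (fun x => f (x + h) - f x)

theorem ph_mv (f f' : ℝ → ℂ) (a b : ℝ) (v : ℂ) (M : ℝ) (hf : ∀ t, HasDerivAt f (f' t) t)
    (hM : ∀ t ∈ Set.Icc a b, ‖f' t - v‖ ≤ M) (hab : a ≤ b) :
    ‖f b - f a - ((b - a : ℝ) : ℂ) * v‖ ≤ (b - a) * M := by
  have h := norm_image_sub_le_of_norm_deriv_le_segment' (f := fun t : ℝ => f t - (t : ℂ) * v)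
    (f' := fun t => f' t - v) (a := a) (b := b) (C := M) (by
      intro t _
      apply HasDerivAt.hasDerivWithinAt
      have h1 : HasDerivAt (fun t : ℝ => (t : ℂ) * v) (1 * v) t :=
        (Complex.ofRealCLM.hasDerivAt (x := t)).mul_const v
      rw [one_mul] at h1
      exact (hf t).sub h1)
    (fun t ht => hM t (Set.Ico_subset_Icc_self ht)) b (Set.right_mem_Icc.2 hab)
  have e : f b - f a - ((b - a : ℝ) : ℂ) * v = (f b - (b : ℂ) * v) - (f a - (a : ℂ) * v) := by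
    push_cast
    ring
  rw [e, mul_comm (b - a) M]
  exact h

theorem dlr_deriv (hs : List ℕ) : ∀ (f f' : ℝ → ℂ), (∀ t, HasDerivAt f (f' t) t) →
    ∀ t, HasDerivAt (dlr hs f) (dlr hs f' t) t := by
  induction hs with
  | nil =>
    intro f f' hf t
    exact hf t
  | cons h l ih =>
    intro f f' hf t
    refine ih (fun x => f (x + h) - f x) (fun x => f' (x + h) - f' x) ?_ t
    intro s
    exact ((hf (s + h)).comp_add_const s (h : ℝ)).sub (hf s)

theorem dlr_bound (hs : List ℕ) : ∀ (f : ℕ → ℝ → ℂ) (v : ℂ) (M a b x : ℝ),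
    (∀ j t, HasDerivAt (f j) (f (j + 1) t) t) →
    (∀ t ∈ Set.Icc a b, ‖f hs.length t - v‖ ≤ M) → a ≤ x → x + hs.sum ≤ b →
    ‖dlr hs (f 0) x - (hs.prod : ℂ) * v‖ ≤ hs.prod * M := by
  induction hs with
  | nil =>
    intro f v M a b x hf hM hax hxb
    simp only [List.sum_nil, Nat.cast_zero, add_zero, List.length_nil] at hxb hM
    simp only [List.prod_nil, Nat.cast_one, one_mul]
    exact hM x ⟨hax, hxb⟩
  | cons h l ih =>
    intro f v M a b x hf hM hax hxb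
    have hh : (0 : ℝ) ≤ h := by positivity
    simp only [List.sum_cons, Nat.cast_add] at hxb
    have key := ih (fun j t => f j (t + h) - f j t) ((h : ℂ) * v) (h * M) a (b - h) x
      (by
        intro j t
        exact ((hf j (t + h)).comp_add_const t (h : ℝ)).sub (hf j t))
      (by
        intro t ht
        have h1 := ph_mv (f l.length) (f (l.length + 1)) t (t + h) v M (hf l.length)
          (fun s hs => hM s ⟨ht.1.trans hs.1, by linarith [hs.2, ht.2]⟩) (by linarith)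
        have e : t + (h : ℝ) - t = h := by ring
        rw [e] at h1
        exact_mod_cast h1)
      hax (by linarith)
    have e1 : ((h :: l).prod : ℂ) = (h : ℂ) * (l.prod : ℂ) := by
      rw [List.prod_cons]
      push_cast
      rfl
    have e2 : (((h :: l).prod : ℕ) : ℂ) * v = (l.prod : ℂ) * ((h : ℂ) * v) := by
      rw [List.prod_cons]
      push_cast
      ring
    have e3 : (((h :: l).prod : ℕ) : ℝ) * M = (l.prod : ℝ) * ((h : ℝ) * M) := by
      rw [List.prod_cons]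
      push_cast
      ring
    rw [e2, e3]
    exact key

theorem dlr_exp (hs : List ℕ) : ∀ (F : GaussianInt → ℂ) (G : ℝ → ℂ) (g₀ : GaussianInt) (W : ℝ),
    (∀ n : ℕ, (n : ℝ) ≤ W → F (g₀ + (n : GaussianInt)) =
      Complex.exp (((G n).re : ℂ) * Complex.I)) →
    ∀ x : ℕ, (x : ℝ) + hs.sum ≤ W → Dl hs F (g₀ + (x : GaussianInt)) =
      Complex.exp (((dlr hs G x).re : ℂ) * Complex.I) := by
  induction hs with
  | nil =>
    intro F G g₀ W hF x hx
    simp only [List.sum_nil, Nat.cast_zero, add_zero] at hx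
    exact hF x hx
  | cons h l ih =>
    intro F G g₀ W hF x hx
    have hh : (0 : ℝ) ≤ h := by positivity
    simp only [List.sum_cons, Nat.cast_add] at hx
    refine ih (Dh h F) (fun x => G (x + h) - G x) g₀ (W - h) ?_ x (by linarith)
    intro n hn
    have h1 := hF (n + h) (by push_cast; linarith)
    have h2 := hF n (by linarith)
    rw [Dh, h2, ← Complex.exp_conj, add_assoc, ← Nat.cast_add, h1, ← Complex.exp_add]
    congr 1
    rw [map_mul, Complex.conj_ofReal, Complex.conj_I, Complex.sub_re]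
    push_cast
    ring

theorem ph_ne {g₀ : GaussianInt} (h : g₀.im ≠ 0) (t : ℝ) :
    GaussianInt.toComplex g₀ + (t : ℂ) ∈ Complex.slitPlane := by
  right
  rw [Complex.add_im, Complex.ofReal_im, add_zero, ← GaussianInt.intCast_im]
  exact_mod_cast h

theorem ph_chain {z : ℂ} (hz : ∀ t : ℝ, z + (t : ℂ) ∈ Complex.slitPlane) (c : ℂ) (j : ℕ) (t : ℝ) :
    HasDerivAt (fun t : ℝ => c * (-1) ^ j * (j.factorial : ℂ) / (z + (t : ℂ)) ^ (j + 1))
      (c * (-1) ^ (j + 1) * ((j + 1).factorial : ℂ) / (z + (t : ℂ)) ^ (j + 1 + 1)) t := by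
  have hne : z + (t : ℂ) ≠ 0 := Complex.slitPlane_ne_zero (hz t)
  have h1 : HasDerivAt (fun t : ℝ => z + (t : ℂ)) 1 t :=
    (Complex.ofRealCLM.hasDerivAt (x := t)).const_add z
  have h2 : HasDerivAt (fun t : ℝ => ((z + (t : ℂ)) ^ (j + 1))⁻¹)
      (-(((j + 1 : ℕ) : ℂ) * (z + (t : ℂ)) ^ (j + 1 - 1) * 1) / ((z + (t : ℂ)) ^ (j + 1)) ^ 2) t :=
    (h1.pow (j + 1)).inv (pow_ne_zero _ hne)
  have h3 : HasDerivAt (fun t : ℝ => c * (-1) ^ j * (j.factorial : ℂ) / (z + (t : ℂ)) ^ (j + 1))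
      (c * (-1) ^ j * (j.factorial : ℂ) *
        (-(((j + 1 : ℕ) : ℂ) * (z + (t : ℂ)) ^ (j + 1 - 1) * 1) /
          ((z + (t : ℂ)) ^ (j + 1)) ^ 2)) t :=
    h2.const_mul (c * (-1) ^ j * (j.factorial : ℂ))
  refine h3.congr_deriv ?_
  rw [Nat.factorial_succ, Nat.add_sub_cancel]
  push_cast
  field_simp
  ring

theorem ph_log {z : ℂ} (hz : ∀ t : ℝ, z + (t : ℂ) ∈ Complex.slitPlane) (c : ℂ) (t : ℝ) :
    HasDerivAt (fun t : ℝ => c * Complex.log (z + (t : ℂ)))
      (c * (-1) ^ 0 * ((0 : ℕ).factorial : ℂ) / (z + (t : ℂ)) ^ (0 + 1)) t := by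
  have h1 : HasDerivAt (fun t : ℝ => z + (t : ℂ)) 1 t :=
    (Complex.ofRealCLM.hasDerivAt (x := t)).const_add z
  have h2 := (h1.clog_real (hz t)).const_mul c
  refine h2.congr_deriv ?_
  simp
  ring

theorem ph_val {m : ℝ} {k : ℤ} {Y : ℝ} {g : GaussianInt} (hg : g ≠ 0) (hY : ab g ≤ Y) :
    chB m k Y g = Complex.exp
      (((((m : ℂ) - k * Complex.I) * Complex.log (GaussianInt.toComplex g)).re : ℂ) *
        Complex.I) := by
  rw [chB, if_pos (mem_ball'.2 ⟨hg, hY⟩), ch]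
  congr 3
  rw [Complex.mul_re, Complex.log_re, Complex.log_im]
  simp [ab]

theorem phase (d : ℕ) (hd : 2 ≤ d) : ∃ C : ℝ, 0 < C ∧ ∀ (m : ℝ) (k : ℤ) (Y : ℝ)
    (g₀ : GaussianInt) (hs : List ℕ) (L : ℕ) (W : ℝ), hs.length = d - 1 → (∀ h ∈ hs, 1 ≤ h) →
    g₀.im ≠ 0 → (hs.sum : ℝ) + L ≤ W → 2 * W ≤ ab g₀ → ab g₀ + W ≤ Y →
    ∃ (a : ℝ) (E : ℕ → ℝ), (∀ x : ℕ, x < L →
      Dl hs (chB m k Y) (g₀ + (x : GaussianInt)) = Complex.exp (((a +
        (((m : ℂ) - k * Complex.I) * (-1) ^ (d + 1) * ((d - 1).factorial : ℂ) * (hs.prod : ℂ) /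
          GaussianInt.toComplex g₀ ^ d).re * x + E x : ℝ) : ℂ) * Complex.I)) ∧
      ∀ x : ℕ, x < L → |E x| ≤ C * (|m| + |(k : ℝ)|) * hs.prod * x * W / ab g₀ ^ (d + 1) := by
  refine ⟨(d.factorial : ℝ) * 2 ^ (d + 1), by positivity, ?_⟩
  intro m k Y g₀ hs L W hlen hh1 him hW1 hW2 hW3
  have hz : ∀ t : ℝ, GaussianInt.toComplex g₀ + (t : ℂ) ∈ Complex.slitPlane := ph_ne him
  have hg0 : g₀ ≠ 0 := by
    intro h
    apply him
    rw [h]
    rfl
  have habpos : 0 < ab g₀ := ab_pos hg0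
  have hab : ab g₀ = ‖GaussianInt.toComplex g₀‖ := rfl
  have hW0 : 0 ≤ W := le_trans (by positivity) hW1
  generalize hzz : GaussianInt.toComplex g₀ = z at *
  have hzpos : 0 < ‖z‖ := by
    rw [← hab]
    exact habpos
  set c : ℂ := (m : ℂ) - k * Complex.I with hc
  have hcn : ‖c‖ ≤ |m| + |(k : ℝ)| := by
    rw [hc]
    refine (norm_sub_le _ _).trans ?_
    rw [norm_mul, Complex.norm_I, mul_one, Complex.norm_real, Real.norm_eq_abs]
    have : ‖(k : ℂ)‖ = |(k : ℝ)| := by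
      rw [← Complex.ofReal_intCast, Complex.norm_real, Real.norm_eq_abs]
    rw [this]
  let f : ℕ → ℝ → ℂ := fun j t => c * (-1) ^ j * (j.factorial : ℂ) / (z + (t : ℂ)) ^ (j + 1)
  have hf : ∀ j t, HasDerivAt (f j) (f (j + 1) t) t := fun j t => ph_chain hz c j t
  let G : ℝ → ℂ := fun t => c * Complex.log (z + (t : ℂ))
  have hG : ∀ t, HasDerivAt G (f 0 t) t := fun t => ph_log hz c t
  have hd1 : d - 1 + 1 = d := by omega
  -- lower bound for the distance
  have hlow : ∀ t ∈ Set.Icc (0 : ℝ) W, ‖z‖ / 2 ≤ ‖z + (t : ℂ)‖ := by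
    intro t ht
    have h1 : ‖z‖ ≤ ‖z + (t : ℂ)‖ + ‖(t : ℂ)‖ := by
      have := norm_sub_le (z + (t : ℂ)) (t : ℂ)
      rwa [add_sub_cancel_right] at this
    rw [Complex.norm_real, Real.norm_eq_abs, abs_of_nonneg ht.1] at h1
    rw [hab] at hW2
    linarith [ht.2]
  have hfd : ∀ t ∈ Set.Icc (0 : ℝ) W, ‖f d t‖ ≤
      ‖c‖ * (d.factorial : ℝ) * 2 ^ (d + 1) / ‖z‖ ^ (d + 1) := by
    intro t ht
    have h1 : ‖f d t‖ = ‖c‖ * (d.factorial : ℝ) / ‖z + (t : ℂ)‖ ^ (d + 1) := by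
      simp only [f]
      rw [norm_div, norm_mul, norm_mul, norm_pow, norm_pow, norm_neg, norm_one, one_pow, mul_one,
        Complex.norm_natCast]
    rw [h1]
    have h2 : (‖z‖ / 2) ^ (d + 1) ≤ ‖z + (t : ℂ)‖ ^ (d + 1) :=
      pow_le_pow_left₀ (by positivity) (hlow t ht) _
    have h3 : ‖c‖ * (d.factorial : ℝ) * 2 ^ (d + 1) / ‖z‖ ^ (d + 1) =
        ‖c‖ * (d.factorial : ℝ) / (‖z‖ / 2) ^ (d + 1) := by
      rw [div_pow]
      field_simp
    rw [h3]
    exact div_le_div_of_nonneg_left (by positivity) (by positivity) h2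
  set M : ℝ := ‖c‖ * (d.factorial : ℝ) * 2 ^ (d + 1) / ‖z‖ ^ (d + 1) with hM
  have hM0 : 0 ≤ M := by positivity
  have hvar : ∀ t ∈ Set.Icc (0 : ℝ) W, ‖f (d - 1) t - f (d - 1) 0‖ ≤ W * M := by
    intro t ht
    have h1 := ph_mv (f (d - 1)) (f (d - 1 + 1)) 0 t 0 M (hf (d - 1)) (by
      intro s hs'
      rw [hd1, sub_zero]
      exact hfd s ⟨hs'.1, hs'.2.trans ht.2⟩) ht.1
    rw [mul_zero, sub_zero, sub_zero] at h1
    refine h1.trans ?_
    exact mul_le_mul_of_nonneg_right ht.2 hM0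
  have hv : f (d - 1) 0 = c * (-1) ^ (d + 1) * ((d - 1).factorial : ℂ) / z ^ d := by
    simp only [f]
    rw [hd1, Complex.ofReal_zero, add_zero]
    congr 3
    obtain ⟨e, rfl⟩ : ∃ e, d = e + 1 := ⟨d - 1, by omega⟩
    rw [Nat.add_sub_cancel, pow_succ, pow_succ]
    ring
  have hdl : ∀ t : ℝ, 0 ≤ t → t + hs.sum ≤ W →
      ‖dlr hs (f 0) t - (hs.prod : ℂ) * f (d - 1) 0‖ ≤ hs.prod * (W * M) := by
    intro t ht htW
    refine dlr_bound hs f (f (d - 1) 0) (W * M) 0 W t hf ?_ ht htW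
    rw [hlen]
    exact hvar
  have hEx : ∀ x : ℕ, x < L →
      ‖dlr hs G x - dlr hs G 0 - (x : ℂ) * ((hs.prod : ℂ) * f (d - 1) 0)‖ ≤
        x * (hs.prod * (W * M)) := by
    intro x hx
    have hxL : (x : ℝ) ≤ L := by exact_mod_cast hx.le
    have h1 := ph_mv (dlr hs G) (dlr hs (f 0)) 0 x ((hs.prod : ℂ) * f (d - 1) 0)
      (hs.prod * (W * M)) (dlr_deriv hs G (f 0) hG) (by
        intro s hs'
        exact hdl s hs'.1 (by linarith [hs'.2])) (by positivity)
    rw [sub_zero] at h1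
    exact_mod_cast h1
  refine ⟨(dlr hs G 0).re, fun x =>
    (dlr hs G x - dlr hs G 0 - (x : ℂ) * ((hs.prod : ℂ) * f (d - 1) 0)).re, ?_, ?_⟩
  · intro x hx
    have hxL : (x : ℝ) ≤ L := by exact_mod_cast hx.le
    have h1 := dlr_exp hs (chB m k Y) G g₀ W (by
      intro n hn
      have hn0 : g₀ + (n : GaussianInt) ≠ 0 := by
        intro h
        apply him
        have := congrArg Zsqrtd.im h
        simpa using this
      have e : GaussianInt.toComplex (g₀ + (n : GaussianInt)) = z + ((n : ℝ) : ℂ) := by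
        rw [map_add, hzz, map_natCast]
        push_cast
        rfl
      have hY : ab (g₀ + (n : GaussianInt)) ≤ Y := by
        rw [ab, e]
        refine (norm_add_le _ _).trans ?_
        rw [Complex.norm_real, Real.norm_eq_abs, Nat.abs_cast, ← hab]
        linarith
      rw [ph_val hn0 hY, e]) x (by linarith)
    rw [h1]
    congr 3
    beta_reduce
    rw [Complex.sub_re, Complex.sub_re, hv]
    have e2 : ((x : ℂ) * ((hs.prod : ℂ) * (c * (-1) ^ (d + 1) * ((d - 1).factorial : ℂ) /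
        z ^ d))).re = (c * (-1) ^ (d + 1) * ((d - 1).factorial : ℂ) * (hs.prod : ℂ) /
          z ^ d).re * x := by
      rw [show (x : ℂ) * ((hs.prod : ℂ) * (c * (-1) ^ (d + 1) * ((d - 1).factorial : ℂ) /
        z ^ d)) = ((x : ℝ) : ℂ) * (c * (-1) ^ (d + 1) * ((d - 1).factorial : ℂ) *
          (hs.prod : ℂ) / z ^ d) by push_cast; ring, Complex.re_ofReal_mul, mul_comm]
    rw [e2]
    ring
  · intro x hx
    refine (Complex.abs_re_le_norm _).trans ((hEx x hx).trans ?_)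
    rw [hM, hab]
    have : (x : ℝ) * (hs.prod * (W * (‖c‖ * (d.factorial : ℝ) * 2 ^ (d + 1) / ‖z‖ ^ (d + 1)))) =
        (d.factorial : ℝ) * 2 ^ (d + 1) * ‖c‖ * hs.prod * x * W / ‖z‖ ^ (d + 1) := by
      ring
    rw [this]
    gcongr

theorem geo_sum (a A e : ℝ) (L : ℕ) (E : ℕ → ℝ) (hA : A ≠ 0) (hA' : |A| ≤ Real.pi)
    (hE : ∀ x < L, |E x| ≤ e) :
    ‖∑ x ∈ Finset.range L, Complex.exp (((a + A * x + E x : ℝ) : ℂ) * Complex.I)‖ ≤
      Real.pi / |A| + L * e := by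
  have hpi := Real.pi_pos
  have hApos : 0 < |A| := abs_pos.2 hA
  set w : ℂ := Complex.exp (Complex.I * (A : ℂ)) with hw
  have hwn : ‖w‖ = 1 := by
    rw [hw, mul_comm]
    exact Complex.norm_exp_ofReal_mul_I A
  have hlow : 2 * |A| / Real.pi ≤ ‖w - 1‖ := by
    rw [hw, Complex.norm_exp_I_mul_ofReal_sub_one, norm_mul, Real.norm_eq_abs, Real.norm_eq_abs,
      abs_two]
    have h1 := Real.mul_abs_le_abs_sin (x := A / 2) (by
      rw [abs_div, abs_two]
      linarith)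
    rw [abs_div, abs_two] at h1
    calc 2 * |A| / Real.pi = 2 * (2 / Real.pi * (|A| / 2)) := by
          field_simp
      _ ≤ 2 * |Real.sin (A / 2)| := by linarith
  have hpos : 0 < ‖w - 1‖ := lt_of_lt_of_le (by positivity) hlow
  have hw1 : w ≠ 1 := by
    intro h
    rw [h, sub_self, norm_zero] at hpos
    exact lt_irrefl _ hpos
  have hterm : ∀ x : ℕ, Complex.exp (((a + A * x + E x : ℝ) : ℂ) * Complex.I) =
      Complex.exp ((a : ℂ) * Complex.I) * w ^ x +
        Complex.exp ((a : ℂ) * Complex.I) * w ^ x *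
          (Complex.exp (Complex.I * (E x : ℂ)) - 1) := by
    intro x
    have e1 : Complex.exp (((a + A * x + E x : ℝ) : ℂ) * Complex.I) =
        Complex.exp ((a : ℂ) * Complex.I) * w ^ x * Complex.exp (Complex.I * (E x : ℂ)) := by
      rw [hw, ← Complex.exp_nat_mul, ← Complex.exp_add, ← Complex.exp_add]
      congr 1
      push_cast
      ring
    rw [e1]
    ring
  have hsum : ∑ x ∈ Finset.range L, Complex.exp (((a + A * x + E x : ℝ) : ℂ) * Complex.I) =
      Complex.exp ((a : ℂ) * Complex.I) * ((w ^ L - 1) / (w - 1)) +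
        ∑ x ∈ Finset.range L, Complex.exp ((a : ℂ) * Complex.I) * w ^ x *
          (Complex.exp (Complex.I * (E x : ℂ)) - 1) := by
    rw [Finset.sum_congr rfl fun x _ => hterm x, Finset.sum_add_distrib, ← Finset.mul_sum,
      geom_sum_eq hw1]
  rw [hsum]
  refine (norm_add_le _ _).trans (add_le_add ?_ ?_)
  · rw [norm_mul, Complex.norm_exp_ofReal_mul_I, one_mul, norm_div]
    have h1 : ‖w ^ L - 1‖ ≤ 2 := by
      refine (norm_sub_le _ _).trans ?_
      rw [norm_pow, hwn, one_pow, norm_one]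
      norm_num
    calc ‖w ^ L - 1‖ / ‖w - 1‖ ≤ 2 / (2 * |A| / Real.pi) := by
          apply div_le_div₀ (by norm_num) h1 (by positivity) hlow
      _ = Real.pi / |A| := by
          field_simp
  · refine (norm_sum_le _ _).trans ?_
    calc ∑ x ∈ Finset.range L, ‖Complex.exp ((a : ℂ) * Complex.I) * w ^ x *
          (Complex.exp (Complex.I * (E x : ℂ)) - 1)‖ ≤ ∑ x ∈ Finset.range L, e := by
          refine Finset.sum_le_sum fun x hx => ?_
          rw [norm_mul, norm_mul, Complex.norm_exp_ofReal_mul_I, norm_pow, hwn, one_pow, one_mul,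
            one_mul]
          refine (Real.norm_exp_I_mul_ofReal_sub_one_le).trans ?_
          rw [Real.norm_eq_abs]
          exact hE x (Finset.mem_range.1 hx)
      _ = L * e := by
          rw [Finset.sum_const, Finset.card_range, nsmul_eq_mul]

end Pool.Agent.MRG
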