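import Mathlib

/-!
# Module Planch: Plancherel's inequality for an integrable bounded function

`‖b‖₂² ≤ (1/2π) ‖b̂‖₂²`.  `b ∈ L¹ ∩ L∞ ⊂ L²`.  For a Schwartz function `φ`: `∫ conj φ · b = ∫ conj (𝓕 φ) · 𝓕 b` (see `ml_pars` in
`Pool/Agent/DyMax/Mult.lean`, which may be imported or copied; `VectorFourier.integral_sesq_fourierIntegral_eq_neg_flip`), so
`|∫ conj φ · b| ≤ ‖𝓕 φ‖₂ ‖𝓕 b‖₂ = ‖φ‖₂ ‖𝓕 b‖₂` (Cauchy–Schwarz and Plancherel for Schwartz functions) and, Schwartz functions being dense in `L²`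
(`SchwartzMap.denseRange_toLpCLM`), `‖b‖₂ ≤ ‖𝓕 b‖₂`; here `𝓕 b(ξ) = ∫ b(v) e^(-2πiξv) dv = b̂(2πξ)`, so `‖𝓕 b‖₂² = (1/2π) ‖b̂‖₂²`.
-/

set_option autoImplicit false

open MeasureTheory

namespace Pool.Agent.MRG

open scoped ENNReal RealInnerProductSpace FourierTransform in
/-- Parseval's identity for a Schwartz function and an integrable function. -/
private theorem pl_pars (φ : SchwartzMap ℝ ℂ) (h : ℝ → ℂ) (hint : Integrable h) :
    ∫ x, (starRingEnd ℂ) (φ x) * h x = ∫ ξ, (starRingEnd ℂ) (𝓕 φ ξ) * 𝓕 h ξ := by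
  have := VectorFourier.integral_sesq_fourierIntegral_eq_neg_flip (μ := (volume : Measure ℝ))
      (ν := (volume : Measure ℝ)) (L := -innerₗ ℝ) (e := Real.fourierChar)
      (f := (𝓕 φ : SchwartzMap ℝ ℂ)) (g := h) (innerSL ℂ) Real.continuous_fourierChar
      (by
        have : Continuous fun p : ℝ × ℝ => (- innerₗ ℝ) p.1 p.2 := continuous_inner.neg
        exact this) (𝓕 φ).integrable hint
  have e1 : VectorFourier.fourierIntegral Real.fourierChar volume (-innerₗ ℝ) (𝓕 φ : SchwartzMap ℝ ℂ) =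
      (φ : ℝ → ℂ) := by
    have : (𝓕⁻ (𝓕 φ) : SchwartzMap ℝ ℂ) = φ := FourierTransform.fourierInv_fourier_eq φ
    calc VectorFourier.fourierIntegral Real.fourierChar volume (-innerₗ ℝ) (𝓕 φ : SchwartzMap ℝ ℂ)
        = 𝓕⁻ ((𝓕 φ : SchwartzMap ℝ ℂ) : ℝ → ℂ) := rfl
      _ = ((𝓕⁻ (𝓕 φ) : SchwartzMap ℝ ℂ) : ℝ → ℂ) := (SchwartzMap.fourierInv_coe _).symm
      _ = φ := by rw [this]
  have e2 : VectorFourier.fourierIntegral Real.fourierChar volume (-(-innerₗ ℝ).flip) h = 𝓕 h := by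
    have : (-(-innerₗ ℝ).flip) = innerₗ ℝ := by
      ext
      simp
    rw [this]
    rfl
  rw [e1, e2] at this
  simp only [innerSL_apply_apply, RCLike.inner_apply] at this
  simp only [mul_comm] at this ⊢
  exact this

private theorem pl_dense (P : Lp ℂ 2 (volume : Measure ℝ) → Prop) (hP : IsClosed {φ | P φ})
    (h : ∀ ψ : SchwartzMap ℝ ℂ, P (ψ.toLp 2 volume)) (φ : Lp ℂ 2 (volume : Measure ℝ)) : P φ := by
  have hd : DenseRange (SchwartzMap.toLpCLM ℂ (E := ℝ) ℂ 2 volume) :=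
    SchwartzMap.denseRange_toLpCLM ENNReal.ofNat_ne_top
  exact DenseRange.induction_on (p := P) hd φ hP h

private theorem pl_norm_sq (f : ℝ → ℂ) (hf : MemLp f 2 volume) :
    ‖hf.toLp f‖ ^ 2 = ∫ x, ‖f x‖ ^ 2 := by
  have h1 : ‖hf.toLp f‖ ^ 2 = RCLike.re (inner ℂ (hf.toLp f) (hf.toLp f)) :=
    norm_sq_eq_re_inner (𝕜 := ℂ) (hf.toLp f)
  rw [h1, MeasureTheory.L2.inner_def]
  have h2 : ∫ a, inner ℂ ((hf.toLp f) a) ((hf.toLp f) a) = ∫ a, ((‖f a‖ ^ 2 : ℝ) : ℂ) := by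
    apply integral_congr_ae
    filter_upwards [hf.coeFn_toLp] with a ha
    rw [ha, inner_self_eq_norm_sq_to_K]
    push_cast
    rfl
  rw [h2, integral_complex_ofReal]
  exact Complex.ofReal_re _

open scoped FourierTransform in
private theorem pl_main (b : ℝ → ℂ) (hb : Integrable b) (hb2 : MemLp b 2 volume)
    (hG2 : MemLp (𝓕 b) 2 volume) : ∫ x, ‖b x‖ ^ 2 ≤ ∫ x, ‖𝓕 b x‖ ^ 2 := by
  have key : ∀ φ : Lp ℂ 2 (volume : Measure ℝ), ‖inner ℂ φ (hb2.toLp b)‖ ≤ ‖φ‖ * ‖hG2.toLp (𝓕 b)‖ := by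
    refine pl_dense _ ?_ ?_
    · apply isClosed_le
      · exact (continuous_id.inner continuous_const).norm
      · exact continuous_norm.mul continuous_const
    · intro ψ
      have h1 : inner ℂ (ψ.toLp 2 volume) (hb2.toLp b) = ∫ x, (starRingEnd ℂ) (ψ x) * b x := by
        rw [MeasureTheory.L2.inner_def]
        apply integral_congr_ae
        filter_upwards [hb2.coeFn_toLp, ψ.coeFn_toLp 2 volume] with a ha ha2
        rw [ha, ha2, RCLike.inner_apply]
        ring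
      have h2 : inner ℂ ((𝓕 ψ).toLp 2 volume) (hG2.toLp (𝓕 b)) =
          ∫ x, (starRingEnd ℂ) (𝓕 ψ x) * 𝓕 b x := by
        rw [MeasureTheory.L2.inner_def]
        apply integral_congr_ae
        filter_upwards [hG2.coeFn_toLp, (𝓕 ψ).coeFn_toLp 2 volume] with a ha ha2
        rw [ha, ha2, RCLike.inner_apply]
        ring
      rw [h1, pl_pars ψ b hb, ← h2]
      refine (norm_inner_le_norm _ _).trans ?_
      rw [SchwartzMap.norm_fourier_toL2_eq]
  have h3 := key (hb2.toLp b)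
  rw [inner_self_eq_norm_sq_to_K] at h3
  have h4 : ‖hb2.toLp b‖ ≤ ‖hG2.toLp (𝓕 b)‖ := by
    rcases (norm_nonneg (hb2.toLp b)).eq_or_lt with h0 | h0
    · rw [← h0]
      exact norm_nonneg _
    · have h5 : ‖hb2.toLp b‖ ^ 2 ≤ ‖hb2.toLp b‖ * ‖hG2.toLp (𝓕 b)‖ := by
        simpa using h3
      rw [sq] at h5
      exact le_of_mul_le_mul_left h5 h0
  rw [← pl_norm_sq b hb2, ← pl_norm_sq (𝓕 b) hG2]
  exact pow_le_pow_left₀ (norm_nonneg _) h4 2

theorem planch (b : ℝ → ℂ) (hb : Integrable b) (hB : ∃ B : ℝ, ∀ v, ‖b v‖ ≤ B)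
    (hF : Integrable fun t : ℝ => ‖∫ v : ℝ, b v * Complex.exp (((-(t * v) : ℝ) : ℂ) *
      Complex.I)‖ ^ 2) :
    ∫ v : ℝ, ‖b v‖ ^ 2 ≤ (1 / (2 * Real.pi)) *
      ∫ t : ℝ, ‖∫ v : ℝ, b v * Complex.exp (((-(t * v) : ℝ) : ℂ) * Complex.I)‖ ^ 2 := by
  obtain ⟨B, hB⟩ := hB
  have hpi : (2 * Real.pi) ≠ 0 := by positivity
  have hfe : ∀ ξ : ℝ, FourierTransform.fourier b ξ =
      ∫ v : ℝ, b v * Complex.exp (((-((2 * Real.pi * ξ) * v) : ℝ) : ℂ) * Complex.I) := by
    intro ξ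
    rw [Real.fourier_real_eq_integral_exp_smul]
    apply integral_congr_ae
    refine Filter.Eventually.of_forall fun v => ?_
    simp only [smul_eq_mul]
    rw [mul_comm]
    congr 2
    push_cast
    ring
  set Φ : ℝ → ℝ := fun t : ℝ => ‖∫ v : ℝ, b v * Complex.exp (((-(t * v) : ℝ) : ℂ) *
      Complex.I)‖ ^ 2 with hΦ
  have hΦ2 : ∀ ξ : ℝ, ‖FourierTransform.fourier b ξ‖ ^ 2 = Φ (2 * Real.pi * ξ) := by
    intro ξ
    rw [hfe]
  have hint2 : Integrable fun ξ : ℝ => ‖FourierTransform.fourier b ξ‖ ^ 2 := by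
    have h1 : (fun ξ : ℝ => ‖FourierTransform.fourier b ξ‖ ^ 2) = fun ξ => Φ (2 * Real.pi * ξ) :=
      funext hΦ2
    rw [h1]
    exact (integrable_comp_mul_left_iff Φ hpi).2 hF
  have hb2 : MemLp b 2 volume := by
    rw [memLp_two_iff_integrable_sq_norm hb.aestronglyMeasurable]
    have h1 : Integrable fun v => B * ‖b v‖ := hb.norm.const_mul B
    refine h1.mono (hb.aestronglyMeasurable.norm.pow 2) ?_
    refine Filter.Eventually.of_forall fun v => ?_
    have h2 := hB v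
    have h3 := norm_nonneg (b v)
    rw [Real.norm_of_nonneg (by positivity), Real.norm_of_nonneg (mul_nonneg (h3.trans h2) h3), sq]
    exact mul_le_mul_of_nonneg_right h2 h3
  have hGc : Continuous (FourierTransform.fourier b : ℝ → ℂ) :=
    VectorFourier.fourierIntegral_continuous Real.continuous_fourierChar (by
      exact continuous_inner) hb
  have hG2 : MemLp (FourierTransform.fourier b : ℝ → ℂ) 2 volume := by
    rw [memLp_two_iff_integrable_sq_norm hGc.aestronglyMeasurable]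
    exact hint2
  have h := pl_main b hb hb2 hG2
  refine h.trans (le_of_eq ?_)
  rw [integral_congr_ae (Filter.Eventually.of_forall hΦ2),
    MeasureTheory.Measure.integral_comp_mul_left Φ (2 * Real.pi), smul_eq_mul,
    abs_of_pos (by positivity), one_div]

end Pool.Agent.MRG
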