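import Pool.Agent.MRG.Decomp

/-!
# Module PropA: the first range of primes

By `energy_le` and Cauchy–Schwarz over the `v1 - v0` cells it is enough to bound
`∑_{c ∈ T} |Q_v|² |FR f Y|² ≤ e^(2(2-α)v/h) ∑_{c ∈ fr M} |FR f Y c|² ≤ e^((4-2α)v/h) · C (2Y)² · #ann Y 2Y ≤ C R⁴ e^(-2αv/h)`, `Y = R e^(-v/h) ≥ M`
(`mvt` with `R₁ = Y`, `R₂ = 2Y`, `|b| ≤ 1`, `card_ann_le`).
-/

set_option autoImplicit false

namespace Pool.Agent.MRG

open Pool.Agent.GaussPret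

theorem propA : ∃ C : ℝ, 0 < C ∧ ∀ (f : GaussianInt → ℂ), CM f → ∀ (h v0 v1 M : ℕ) (R α : ℝ),
    1 ≤ h → v0 < v1 → 0 < α → 1 ≤ M → 1 ≤ Ls (rng h v0 v1) →
    (M : ℝ) ≤ R * Real.exp (-((v1 : ℝ) / h)) → Real.exp (2 * v1 / h) ≤ R →
    ∀ T ⊆ fr M, (∀ c ∈ T, ∀ v ∈ Finset.Ico v0 v1,
      ‖Qv f h v c‖ ≤ Real.exp ((2 - α) * v / h)) →
    ∑ c ∈ T, ‖FR f R c‖ ^ 2 ≤ C * R ^ 4 * (((v1 : ℝ) - v0) ^ 2 * Real.exp (-(2 * α * v0 / h)) +
      1 / Ls (rng h v0 v1) + 1 / h + 1 / R) := by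
  obtain ⟨C1, hC1, hmvt⟩ := mvt
  obtain ⟨C2, hC2, hen⟩ := energy_le
  refine ⟨288 * C1 + C2, by positivity, ?_⟩
  intro f hf h v0 v1 M R α hh hv hα hM hL hMR hR T hT hQ
  have hR0 : 0 < R := (Real.exp_pos _).trans_le hR
  have hhR : (0 : ℝ) < h := by exact_mod_cast hh
  have hexp1 : Real.exp (-((v1 : ℝ) / h)) ≤ 1 := by
    rw [Real.exp_le_one_iff]
    have : (0 : ℝ) ≤ (v1 : ℝ) / h := by positivity
    linarith
  have hMR' : (M : ℝ) ≤ R := hMR.trans (mul_le_of_le_one_right hR0.le hexp1)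
  have h1 := hen f hf h v0 v1 M R hh hv hR hL hM hMR' T hT
  -- the energy of one cell
  have hcell : ∀ v ∈ Finset.Ico v0 v1,
      ∑ c ∈ T, (‖Qv f h v c‖ * ‖FR f (R * Real.exp (-((v : ℝ) / h))) c‖) ^ 2 ≤
        144 * C1 * R ^ 4 * Real.exp (-(2 * α * v0 / h)) := by
    intro v hvm
    rw [Finset.mem_Ico] at hvm
    set Y : ℝ := R * Real.exp (-((v : ℝ) / h)) with hY
    have hY0 : 0 < Y := mul_pos hR0 (Real.exp_pos _)
    have hMY : (M : ℝ) ≤ Y := by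
      refine hMR.trans (mul_le_mul_of_nonneg_left ?_ hR0.le)
      apply Real.exp_le_exp.2
      have : (v : ℝ) / h ≤ (v1 : ℝ) / h := by
        apply div_le_div_of_nonneg_right _ hhR.le
        exact_mod_cast hvm.2.le
      linarith
    have h2 := hmvt M Y (2 * Y) f hM hMY (by linarith)
    have h3 : ∑ g ∈ ann Y (2 * Y), ‖f g‖ ^ 2 ≤ 9 * (2 * Y) ^ 2 := by
      refine le_trans ?_ (card_ann_le Y (2 * Y))
      rw [Finset.card_eq_sum_ones]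
      push_cast
      refine Finset.sum_le_sum fun g hg => ?_
      have := hf.le g (mem_ann.1 hg).1
      exact pow_le_one₀ (norm_nonneg _) this
    have h4 : ∑ c ∈ T, ‖FR f Y c‖ ^ 2 ≤ 144 * C1 * Y ^ 4 := by
      calc ∑ c ∈ T, ‖FR f Y c‖ ^ 2 ≤ ∑ c ∈ fr M, ‖FR f Y c‖ ^ 2 :=
            Finset.sum_le_sum_of_subset_of_nonneg hT fun _ _ _ => by positivity
        _ ≤ C1 * (2 * Y) ^ 2 * ∑ g ∈ ann Y (2 * Y), ‖f g‖ ^ 2 := h2
        _ ≤ C1 * (2 * Y) ^ 2 * (9 * (2 * Y) ^ 2) :=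
            mul_le_mul_of_nonneg_left h3 (by positivity)
        _ = 144 * C1 * Y ^ 4 := by ring
    have h5 : ∑ c ∈ T, (‖Qv f h v c‖ * ‖FR f Y c‖) ^ 2 ≤
        Real.exp ((2 - α) * v / h) ^ 2 * ∑ c ∈ T, ‖FR f Y c‖ ^ 2 := by
      rw [Finset.mul_sum]
      refine Finset.sum_le_sum fun c hc => ?_
      rw [mul_pow]
      refine mul_le_mul_of_nonneg_right ?_ (by positivity)
      exact pow_le_pow_left₀ (norm_nonneg _) (hQ c hc v (Finset.mem_Ico.2 hvm)) 2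
    have h6 : Real.exp ((2 - α) * v / h) ^ 2 * Y ^ 4 ≤
        R ^ 4 * Real.exp (-(2 * α * v0 / h)) := by
      have e1 : Real.exp ((2 - α) * v / h) ^ 2 = Real.exp (2 * ((2 - α) * v / h)) := by
        rw [← Real.exp_nat_mul]
        norm_num
      have e2 : Real.exp (-((v : ℝ) / h)) ^ 4 = Real.exp (4 * (-((v : ℝ) / h))) := by
        rw [← Real.exp_nat_mul]
        norm_num
      have e3 : Real.exp ((2 - α) * v / h) ^ 2 * Y ^ 4 =
          R ^ 4 * Real.exp (-(2 * α * v / h)) := by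
        rw [hY, mul_pow, e1, e2, mul_left_comm, ← Real.exp_add]
        congr 2
        ring
      rw [e3]
      refine mul_le_mul_of_nonneg_left ?_ (by positivity)
      apply Real.exp_le_exp.2
      have : 2 * α * (v0 : ℝ) / h ≤ 2 * α * v / h := by
        apply div_le_div_of_nonneg_right _ hhR.le
        have : (v0 : ℝ) ≤ v := by exact_mod_cast hvm.1
        nlinarith
      linarith
    calc ∑ c ∈ T, (‖Qv f h v c‖ * ‖FR f Y c‖) ^ 2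
        ≤ Real.exp ((2 - α) * v / h) ^ 2 * ∑ c ∈ T, ‖FR f Y c‖ ^ 2 := h5
      _ ≤ Real.exp ((2 - α) * v / h) ^ 2 * (144 * C1 * Y ^ 4) :=
          mul_le_mul_of_nonneg_left h4 (by positivity)
      _ = 144 * C1 * (Real.exp ((2 - α) * v / h) ^ 2 * Y ^ 4) := by ring
      _ ≤ 144 * C1 * (R ^ 4 * Real.exp (-(2 * α * v0 / h))) :=
          mul_le_mul_of_nonneg_left h6 (by positivity)
      _ = 144 * C1 * R ^ 4 * Real.exp (-(2 * α * v0 / h)) := by ring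
  have hcard : ((Finset.Ico v0 v1).card : ℝ) = (v1 : ℝ) - v0 := by
    rw [Nat.card_Ico, Nat.cast_sub hv.le]
  have h7 : ∑ c ∈ T, (∑ v ∈ Finset.Ico v0 v1, ‖Qv f h v c‖ *
      ‖FR f (R * Real.exp (-((v : ℝ) / h))) c‖) ^ 2 ≤
      ((v1 : ℝ) - v0) ^ 2 * (144 * C1 * R ^ 4 * Real.exp (-(2 * α * v0 / h))) := by
    calc ∑ c ∈ T, (∑ v ∈ Finset.Ico v0 v1, ‖Qv f h v c‖ *
          ‖FR f (R * Real.exp (-((v : ℝ) / h))) c‖) ^ 2
        ≤ ∑ c ∈ T, ((Finset.Ico v0 v1).card : ℝ) * ∑ v ∈ Finset.Ico v0 v1, (‖Qv f h v c‖ *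
          ‖FR f (R * Real.exp (-((v : ℝ) / h))) c‖) ^ 2 :=
          Finset.sum_le_sum fun c _ => sq_sum_le_card_mul_sum_sq
      _ = ((Finset.Ico v0 v1).card : ℝ) * ∑ v ∈ Finset.Ico v0 v1, ∑ c ∈ T, (‖Qv f h v c‖ *
          ‖FR f (R * Real.exp (-((v : ℝ) / h))) c‖) ^ 2 := by
          rw [← Finset.mul_sum, Finset.sum_comm]
      _ ≤ ((Finset.Ico v0 v1).card : ℝ) * ∑ _v ∈ Finset.Ico v0 v1,
          144 * C1 * R ^ 4 * Real.exp (-(2 * α * v0 / h)) :=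
          mul_le_mul_of_nonneg_left (Finset.sum_le_sum hcell) (Nat.cast_nonneg _)
      _ = ((v1 : ℝ) - v0) ^ 2 * (144 * C1 * R ^ 4 * Real.exp (-(2 * α * v0 / h))) := by
          rw [Finset.sum_const, nsmul_eq_mul, hcard]
          ring
  set E : ℝ := Real.exp (-(2 * α * v0 / h)) with hE
  have hE0 : 0 < E := Real.exp_pos _
  have hL0 : 0 < Ls (rng h v0 v1) := by linarith
  have hX : 0 ≤ 1 / Ls (rng h v0 v1) + 1 / (h : ℝ) + 1 / R := by positivity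
  have hV : 0 ≤ ((v1 : ℝ) - v0) ^ 2 * E := by positivity
  calc ∑ c ∈ T, ‖FR f R c‖ ^ 2 ≤ _ := h1
    _ ≤ 2 * (((v1 : ℝ) - v0) ^ 2 * (144 * C1 * R ^ 4 * E)) +
        C2 * R ^ 4 * (1 / Ls (rng h v0 v1) + 1 / h + 1 / R) := by
        linarith
    _ ≤ (288 * C1 + C2) * R ^ 4 * (((v1 : ℝ) - v0) ^ 2 * E +
      1 / Ls (rng h v0 v1) + 1 / h + 1 / R) := by
        have hR4 : 0 < R ^ 4 := by positivity
        have a1 : 0 ≤ C2 * R ^ 4 * (((v1 : ℝ) - v0) ^ 2 * E) := by positivity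
        have a2 : 0 ≤ 288 * C1 * R ^ 4 * (1 / Ls (rng h v0 v1) + 1 / (h : ℝ) + 1 / R) := by
          positivity
        nlinarith [a1, a2]

end Pool.Agent.MRG
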