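import Pool.Agent.MRG.LBound
import Pool.Agent.MRG.Mert

/-!
# Module UnifD: a real function does not pretend to be a character, uniformly

Put `D_u(m,k) = ∑_{p ∈ pr 1 (e^u)} (1 - f(p) Re ch m k p)/|p|²`, all terms `≥ 0`, nondecreasing in `u`.  With `φ` the argument of `ch m k p`:
`1 - f cos φ ≥ 1 - |cos φ| ≥ (1 - cos² φ)/2 = (1 - cos 2φ)/4`, `cos 2φ = Re ch (2m) (2k) p`.  `ch (2m) (2k)` is `CM` if `4 ∣ k`.  `eulD_ge`:
`u exp (-∑ (1 - Re ch (2m)(2k) p)/|p|²) ≤ C ‖Gs (ch (2m)(2k)) (1/u)‖`.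
* large `|m| + |k| ≥ T1/2`: by `lb_large (K+1) ε'` the right side is `≤ C ε' u`, so `4 D_u ≥ log (1/(C ε')) ≥ 4Δ` for small `ε'`.
* each fixed `(m,k) ≠ (0,0)`: `lb_fixed`, so `4 D_u ≥ log u - C → ∞`.  `(m,k) = (0,0)`: `D_u(0,0) = ∑_{|p| ≤ e^u} (1 - f(p))/N(p) → ∞` as the series
  (nonnegative terms) is not summable.
* the finitely many `k` with `|k| ≤ T1` and `m ∈ [-T1, T1]`: `m ↦ D_u(m,k)` is continuous and nondecreasing in `u`, so every `m₀` has `u₀` and a neighbourhood with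
  `D_u(m,k) ≥ Δ` for `u ≥ u₀`; compactness.
-/

set_option autoImplicit false

namespace Pool.Agent.MRG

open Pool.Agent.GaussPret

/-- the distance -/
noncomputable def Dst (f : GaussianInt → ℝ) (u m : ℝ) (k : ℤ) : ℝ :=
  ∑ p ∈ pr 1 (Real.exp u), (1 - f p * (ch m k p).re) / ab p ^ 2

lemma pr_ne_zero {r s : ℝ} {p : GaussianInt} (hp : p ∈ pr r s) : p ≠ 0 :=
  (mem_pr.1 hp).1.1.ne_zero

lemma abs_re_ch (m : ℝ) (k : ℤ) (p : GaussianInt) : |(ch m k p).re| ≤ 1 := by
  have := Complex.abs_re_le_norm (ch m k p)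
  rwa [norm_ch] at this

lemma term_nonneg {f : GaussianInt → ℝ} (hf : IsBCM f) (m : ℝ) (k : ℤ) {p : GaussianInt}
    (hp : p ≠ 0) : 0 ≤ (1 - f p * (ch m k p).re) / ab p ^ 2 := by
  have h1 := hf.abs_le_one hp
  have h2 := abs_re_ch m k p
  have h3 : f p * (ch m k p).re ≤ 1 := by
    refine (le_abs_self _).trans ?_
    rw [abs_mul]
    nlinarith [abs_nonneg (f p), abs_nonneg (ch m k p).re]
  have := ab_pos hp
  apply div_nonneg (by linarith) (by positivity)

lemma Dst_mono {f : GaussianInt → ℝ} (hf : IsBCM f) {u u' : ℝ} (h : u ≤ u') (m : ℝ) (k : ℤ) :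
    Dst f u m k ≤ Dst f u' m k := by
  apply Finset.sum_le_sum_of_subset_of_nonneg
  · intro p hp
    rw [mem_pr] at hp ⊢
    exact ⟨hp.1, hp.2.1, hp.2.2.trans (Real.exp_le_exp.2 h)⟩
  · intro p hp _
    exact term_nonneg hf m k (pr_ne_zero hp)

lemma ch_two (m : ℝ) (k : ℤ) (p : GaussianInt) :
    (ch (2 * m) (2 * k) p).re = 2 * (ch m k p).re ^ 2 - 1 := by
  have h1 : ch (2 * m) (2 * k) p = ch m k p * ch m k p := by
    rw [two_mul, two_mul, ch_add]
  rw [h1, Complex.mul_re]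
  have h2 : Complex.normSq (ch m k p) = 1 := by
    rw [Complex.normSq_eq_norm_sq, norm_ch, one_pow]
  rw [Complex.normSq_apply] at h2
  linear_combination -h2

lemma term_ge {f : GaussianInt → ℝ} (hf : IsBCM f) (m : ℝ) (k : ℤ) {p : GaussianInt}
    (hp : p ≠ 0) : (1 - (ch (2 * m) (2 * k) p).re) / ab p ^ 2 ≤
      4 * ((1 - f p * (ch m k p).re) / ab p ^ 2) := by
  have h1 := hf.abs_le_one hp
  have h2 := abs_re_ch m k p
  have hab := ab_pos hp
  rw [ch_two, ← mul_div_assoc]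
  apply div_le_div_of_nonneg_right _ (by positivity)
  set c := (ch m k p).re with hc
  have h3 : f p * c ≤ |c| := by
    refine (le_abs_self _).trans ?_
    rw [abs_mul]
    nlinarith [abs_nonneg (f p), abs_nonneg c]
  have h4 : c ^ 2 = |c| ^ 2 := (sq_abs c).symm
  nlinarith [sq_nonneg (|c| - 1)]

lemma cm_ch (m : ℝ) {k : ℤ} (hk : 4 ∣ k) : CM (ch m k) where
  mul := fun _ _ ha hb => ch_mul ha hb m k
  le := fun a _ => (norm_ch m k a).le
  map_I := ch_I_of_dvd m hk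

/-- the main inequality -/
lemma key_le : ∃ C : ℝ, 0 < C ∧ ∀ (f : GaussianInt → ℝ), IsBCM f → ∀ (u m : ℝ) (k : ℤ), 1 ≤ u →
    4 ∣ k → u * Real.exp (-(4 * Dst f u m k)) ≤ C * ‖Gs (ch (2 * m) ((2 * k : ℤ))) (1 / u)‖ := by
  obtain ⟨C, hC, h⟩ := eulD_ge
  refine ⟨C, hC, ?_⟩
  intro f hf u m k hu hk
  refine le_trans ?_ (h (ch (2 * m) (2 * k)) (cm_ch _ (Dvd.dvd.mul_left hk 2)) u hu)
  apply mul_le_mul_of_nonneg_left _ (by linarith)
  apply Real.exp_le_exp.2
  rw [neg_le_neg_iff, Dst, Finset.mul_sum]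
  exact Finset.sum_le_sum fun p hp => term_ge hf m k (pr_ne_zero hp)

lemma ge_of_exp_le {D δ : ℝ} (h : Real.exp (-(4 * D)) ≤ Real.exp (-(4 * δ))) : δ ≤ D := by
  have := Real.exp_le_exp.1 h
  linarith

lemma continuous_Dst (f : GaussianInt → ℝ) (u : ℝ) (k : ℤ) :
    Continuous fun m : ℝ => Dst f u m k := by
  unfold Dst ch
  fun_prop

/-- unbounded at the origin -/
lemma zero_large (f : GaussianInt → ℝ) (hf : IsBCM f)
    (hns : ¬ Summable fun p : P1 => (1 - f p) / nm (p : GaussianInt)) (B : ℝ) :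
    ∃ u : ℝ, B ≤ Dst f u 0 0 := by
  by_contra hcon
  push Not at hcon
  apply hns
  apply summable_of_sum_le (c := B)
  · intro p
    have := term_nonneg hf 0 0 p.2.1.ne_zero
    rw [ch_zero, Complex.one_re, mul_one, ← nm_eq_ab] at this
    exact this
  · intro s
    -- all elements are bounded
    have hb : ∃ u : ℝ, ∀ p ∈ s, ab (p : GaussianInt) ≤ Real.exp u := by
      refine ⟨∑ p ∈ s, ab (p : GaussianInt), fun p hp => ?_⟩
      have h1 : ab (p : GaussianInt) ≤ ∑ p ∈ s, ab (p : GaussianInt) :=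
        Finset.single_le_sum (f := fun p : P1 => ab (p : GaussianInt))
          (fun q _ => ab_nonneg _) hp
      have h2 := Real.add_one_le_exp (∑ p ∈ s, ab (p : GaussianInt))
      linarith
    obtain ⟨u, hu⟩ := hb
    refine le_trans ?_ (hcon u).le
    have h1 : ∑ p ∈ s, (1 - f p) / nm (p : GaussianInt) =
        ∑ p ∈ s.map (Function.Embedding.subtype _), (1 - f p) / nm p := by
      rw [Finset.sum_map]
      rfl
    rw [h1]
    have h2 : Dst f u 0 0 = ∑ p ∈ pr 1 (Real.exp u), (1 - f p) / nm p := by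
      unfold Dst
      apply Finset.sum_congr rfl
      intro p _
      rw [ch_zero, Complex.one_re, mul_one, nm_eq_ab]
    rw [h2]
    apply Finset.sum_le_sum_of_subset_of_nonneg
    · intro p hp
      rw [Finset.mem_map] at hp
      obtain ⟨q, hq, rfl⟩ := hp
      rw [mem_pr]
      refine ⟨q.2, ?_, hu q hq⟩
      show 1 < ab (q : GaussianInt)
      have h3 := two_le_nm_of_prime q.2.1
      rw [nm_eq_ab] at h3
      have h4 := ab_nonneg (q : GaussianInt)
      nlinarith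
    · intro p hp _
      have := term_nonneg hf 0 0 (pr_ne_zero hp)
      rw [ch_zero, Complex.one_re, mul_one, ← nm_eq_ab] at this
      exact this

/-- every fixed character -/
lemma fixed_large (f : GaussianInt → ℝ) (hf : IsBCM f)
    (hns : ¬ Summable fun p : P1 => (1 - f p) / nm (p : GaussianInt)) (B m : ℝ) (k : ℤ)
    (hk : 4 ∣ k) : ∃ u : ℝ, B ≤ Dst f u m k := by
  by_cases h0 : m = 0 ∧ k = 0
  · obtain ⟨rfl, rfl⟩ := h0
    exact zero_large f hf hns B
  · have h1 : (2 * m) ≠ 0 ∨ (2 * k) ≠ 0 := by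
      by_contra hcon
      push Not at hcon
      apply h0
      constructor
      · linarith [hcon.1]
      · have := hcon.2
        omega
    obtain ⟨C1, hC1⟩ := lb_fixed (2 * m) (2 * k) h1
    obtain ⟨C, hC, hkey⟩ := key_le
    set A : ℝ := C * max C1 1 with hA
    have hA0 : 0 < A := by positivity
    refine ⟨max 1 (A * Real.exp (4 * B)), ?_⟩
    set u := max 1 (A * Real.exp (4 * B)) with hu
    have hu1 : 1 ≤ u := le_max_left _ _
    have h2 := hkey f hf u m k hu1 hk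
    have h3 := hC1 u hu1
    have h4 : C * ‖Gs (ch (2 * m) (2 * k)) (1 / u)‖ ≤ A := by
      rw [hA]
      exact mul_le_mul_of_nonneg_left (h3.trans (le_max_left _ _)) hC.le
    have h5 : A ≤ u * Real.exp (-(4 * B)) := by
      have h6 : A * Real.exp (4 * B) ≤ u := le_max_right _ _
      have h7 : A = A * Real.exp (4 * B) * Real.exp (-(4 * B)) := by
        rw [mul_assoc, ← Real.exp_add]
        simp
      rw [h7]
      exact mul_le_mul_of_nonneg_right h6 (Real.exp_pos _).le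
    apply ge_of_exp_le
    have h8 : u * Real.exp (-(4 * Dst f u m k)) ≤ u * Real.exp (-(4 * B)) :=
      (h2.trans h4).trans h5
    exact le_of_mul_le_mul_left h8 (by linarith)

/-- uniformity in a compact set of `m` -/
lemma compact_large (f : GaussianInt → ℝ) (hf : IsBCM f)
    (hns : ¬ Summable fun p : P1 => (1 - f p) / nm (p : GaussianInt)) (B T : ℝ) (k : ℤ)
    (hk : 4 ∣ k) : ∃ U : ℝ, ∀ u : ℝ, U ≤ u → ∀ m ∈ Set.Icc (-T) T, B ≤ Dst f u m k := by
  refine IsCompact.induction_on (p := fun s => ∃ U : ℝ, ∀ u : ℝ, U ≤ u → ∀ m ∈ s,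
    B ≤ Dst f u m k) isCompact_Icc ?_ ?_ ?_ ?_
  · exact ⟨0, fun u _ m hm => absurd hm (Set.notMem_empty m)⟩
  · rintro s t hst ⟨U, hU⟩
    exact ⟨U, fun u hu m hm => hU u hu m (hst hm)⟩
  · rintro s t ⟨U, hU⟩ ⟨V, hV⟩
    refine ⟨max U V, fun u hu m hm => ?_⟩
    rcases hm with hm | hm
    · exact hU u ((le_max_left _ _).trans hu) m hm
    · exact hV u ((le_max_right _ _).trans hu) m hm
  · intro m _
    obtain ⟨u0, hu0⟩ := fixed_large f hf hns (B + 1) m k hk
    have hopen : {m' : ℝ | B < Dst f u0 m' k} ∈ nhds m := by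
      apply (isOpen_lt continuous_const (continuous_Dst f u0 k)).mem_nhds
      show B < Dst f u0 m k
      linarith
    refine ⟨{m' : ℝ | B < Dst f u0 m' k}, mem_nhdsWithin_of_mem_nhds hopen, u0, ?_⟩
    intro u hu m' hm'
    have h1 : B < Dst f u0 m' k := hm'
    exact h1.le.trans (Dst_mono hf hu m' k)

theorem unifD (f : GaussianInt → ℝ) (hf : IsBCM f)
    (hns : ¬ Summable fun p : P1 => (1 - f p) / nm (p : GaussianInt)) (Δ : ℝ) (K : ℕ) :
    ∃ U0 : ℝ, ∀ u : ℝ, U0 ≤ u → ∀ (m : ℝ) (k : ℤ), 4 ∣ k → |m| + |(k : ℝ)| ≤ Real.exp (K * u) →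
    Δ ≤ ∑ p ∈ pr 1 (Real.exp u), (1 - f p * (ch m k p).re) / ab p ^ 2 := by
  obtain ⟨C, hC, hkey⟩ := key_le
  set ε' : ℝ := Real.exp (-(4 * Δ)) / C with hε'
  have hε0 : 0 < ε' := by positivity
  obtain ⟨T1, V0, hT1, hlarge⟩ := lb_large (K + 1) ε' hε0
  -- bounded region
  have hbdd : ∃ U1 : ℝ, ∀ u : ℝ, U1 ≤ u → ∀ k ∈ Finset.Icc (-⌈T1⌉) ⌈T1⌉, 4 ∣ k →
      ∀ m ∈ Set.Icc (-T1) T1, Δ ≤ Dst f u m k := by
    have h1 : ∀ k : ℤ, ∃ U : ℝ, 4 ∣ k → ∀ u : ℝ, U ≤ u → ∀ m ∈ Set.Icc (-T1) T1,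
        Δ ≤ Dst f u m k := by
      intro k
      by_cases hk : 4 ∣ k
      · obtain ⟨U, hU⟩ := compact_large f hf hns Δ T1 k hk
        exact ⟨U, fun _ => hU⟩
      · exact ⟨0, fun h => absurd h hk⟩
    choose U hU using h1
    refine ⟨∑ k ∈ Finset.Icc (-⌈T1⌉) ⌈T1⌉, |U k|, ?_⟩
    intro u hu k hk hk4 m hm
    apply hU k hk4 u _ m hm
    refine le_trans (le_trans (le_abs_self _) ?_) hu
    exact Finset.single_le_sum (f := fun k => |U k|) (fun _ _ => abs_nonneg _) hk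
  obtain ⟨U1, hU1⟩ := hbdd
  refine ⟨max (max U1 V0) 1, ?_⟩
  intro u hu m k hk hmk
  have hu1 : 1 ≤ u := (le_max_right _ _).trans hu
  have huU : U1 ≤ u := ((le_max_left _ _).trans (le_max_left _ _)).trans hu
  have huV : V0 ≤ u := ((le_max_right _ _).trans (le_max_left _ _)).trans hu
  show Δ ≤ Dst f u m k
  rcases le_or_gt T1 (|m| + |(k : ℝ)|) with hT | hT
  · have h1 : |2 * m| + |((2 * k : ℤ) : ℝ)| = 2 * (|m| + |(k : ℝ)|) := by
      push_cast
      rw [abs_mul, abs_mul, abs_two]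
      ring
    have h2 : T1 ≤ |2 * m| + |((2 * k : ℤ) : ℝ)| := by
      rw [h1]
      linarith
    have h3 : |2 * m| + |((2 * k : ℤ) : ℝ)| ≤ Real.exp ((K + 1 : ℕ) * u) := by
      rw [h1]
      have h4 : Real.exp ((K + 1 : ℕ) * u) = Real.exp u * Real.exp (K * u) := by
        rw [← Real.exp_add]
        congr 1
        push_cast
        ring
      rw [h4]
      have h5 : 2 ≤ Real.exp u := by
        have := Real.add_one_le_exp u
        linarith
      exact mul_le_mul h5 hmk (by positivity) (by positivity)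
    have h4 := hlarge u huV (2 * m) (2 * k) h2 h3
    have h5 := hkey f hf u m k hu1 hk
    apply ge_of_exp_le
    have h6 : u * Real.exp (-(4 * Dst f u m k)) ≤ u * Real.exp (-(4 * Δ)) := by
      refine h5.trans ?_
      calc C * ‖Gs (ch (2 * m) (2 * k)) (1 / u)‖ ≤ C * (ε' * u) :=
            mul_le_mul_of_nonneg_left h4 hC.le
        _ = u * Real.exp (-(4 * Δ)) := by
            rw [hε']
            field_simp
    exact le_of_mul_le_mul_left h6 (by linarith)
  · apply hU1 u huU k _ hk m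
    · have h1 : |m| < T1 := by
        have := abs_nonneg (k : ℝ)
        linarith
      exact ⟨(abs_lt.1 h1).1.le, (abs_lt.1 h1).2.le⟩
    · have h1 : |(k : ℝ)| < T1 := by
        have := abs_nonneg m
        linarith
      have h2 := abs_lt.1 h1
      have h3 := Int.le_ceil T1
      rw [Finset.mem_Icc]
      constructor
      · have : (-(⌈T1⌉ : ℝ)) ≤ (k : ℝ) := by linarith
        exact_mod_cast this
      · have : (k : ℝ) ≤ (⌈T1⌉ : ℝ) := by linarith
        exact_mod_cast this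

end Pool.Agent.MRG
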