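import Pool.Agent.MRG.Halasz
import Pool.Agent.MRG.UnifD

/-!
# Module Small: all twisted sums of `f` are small

If `4 ∤ c.2` then `FR f Y c = 0`: `n ↦ i n` permutes `ann Y 2Y` and multiplies the summand by `i^(c.2) ≠ 1` (`ch_mul`, `ch_I`, `f (i n) = f n`).
If `4 ∣ c.2`: `g = f ch c.1 c.2` is `CM` (`CM.of_bcm`, `CM.mul_ch`), `FR f Y c = SS g (log 2Y) - SS g (log Y)`, `tw g t = f ch (c.1 - t) c.2`,
`|c.1 - t| + |c.2| ≤ 2Y² + T ≤ e^(3u)` for `u ∈ {log Y, log 2Y}` large; `unifD` with `K = 3` gives the hypothesis of `halasz (ε/8)`.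
-/

set_option autoImplicit false

namespace Pool.Agent.MRG

open Pool.Agent.GaussPret

/-- multiplication by `i` permutes the annulus -/
theorem sm_rot (F : GaussianInt → ℂ) (r s : ℝ) :
    ∑ g ∈ ann r s, F (⟨0, 1⟩ * g) = ∑ g ∈ ann r s, F g := by
  have hII : (⟨0, -1⟩ : GaussianInt) * ⟨0, 1⟩ = 1 := by ext <;> simp
  have hII' : (⟨0, 1⟩ : GaussianInt) * ⟨0, -1⟩ = 1 := by ext <;> simp
  have hne : (⟨0, -1⟩ : GaussianInt) ≠ 0 := by
    intro h
    have := congrArg Zsqrtd.im h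
    simp at this
  have hab : ab ⟨0, -1⟩ = 1 := by
    have h := ab_mul ⟨0, -1⟩ ⟨0, 1⟩
    rw [hII, ab_one, ab_I, mul_one] at h
    exact h.symm
  refine Finset.sum_nbij' (fun g => ⟨0, 1⟩ * g) (fun g => ⟨0, -1⟩ * g) ?_ ?_ ?_ ?_ ?_
  · intro g hg
    rw [mem_ann] at hg ⊢
    rw [ab_mul, ab_I, one_mul]
    exact ⟨mul_ne_zero I_ne hg.1, hg.2⟩
  · intro g hg
    rw [mem_ann] at hg ⊢
    rw [ab_mul, hab, one_mul]
    exact ⟨mul_ne_zero hne hg.1, hg.2⟩
  · intro g _
    show (⟨0, -1⟩ : GaussianInt) * (⟨0, 1⟩ * g) = g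
    rw [← mul_assoc, hII, one_mul]
  · intro g _
    show (⟨0, 1⟩ : GaussianInt) * (⟨0, -1⟩ * g) = g
    rw [← mul_assoc, hII', one_mul]
  · intro g _
    rfl

theorem sm_I_zpow {k : ℤ} (hk : ¬ (4 ∣ k)) : Complex.I ^ k ≠ 1 := by
  have h4 : Complex.I ^ (4 : ℤ) = 1 := by
    have h := Complex.I_pow_four
    exact_mod_cast h
  have hdm : k = 4 * (k / 4) + k % 4 := (Int.mul_ediv_add_emod k 4).symm
  have hr : k % 4 = 1 ∨ k % 4 = 2 ∨ k % 4 = 3 := by omega
  have e : Complex.I ^ k = Complex.I ^ (k % 4) := by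
    conv_lhs => rw [hdm]
    rw [zpow_add₀ Complex.I_ne_zero, zpow_mul, h4, one_zpow, one_mul]
  rw [e]
  rcases hr with h | h | h <;> rw [h]
  · intro h1
    rw [zpow_one] at h1
    have := congrArg Complex.re h1
    simp at this
  · intro h1
    have h2 : Complex.I ^ (2 : ℤ) = -1 := by
      have := Complex.I_sq
      exact_mod_cast this
    rw [h2] at h1
    have := congrArg Complex.re h1
    norm_num at this
  · intro h1
    have h2 : Complex.I ^ (3 : ℤ) = -Complex.I := by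
      have h3 : Complex.I ^ (3 : ℕ) = -Complex.I := Complex.I_pow_three
      exact_mod_cast h3
    rw [h2] at h1
    have := congrArg Complex.re h1
    simp at this

theorem sm_zero {f : GaussianInt → ℂ} (hf : CM f) (Y : ℝ) (c : ℤ × ℤ) (hc : ¬ (4 ∣ c.2)) :
    FR f Y c = 0 := by
  have h1 : FR f Y c = Complex.I ^ c.2 * FR f Y c := by
    conv_lhs => rw [FR, ← sm_rot]
    rw [FR, Finset.mul_sum]
    refine Finset.sum_congr rfl fun g hg => ?_
    rw [mem_ann] at hg
    rw [hf.mul _ _ I_ne hg.1, hf.map_I, ch_mul I_ne hg.1, ch_I]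
    ring
  have h2 : (1 - Complex.I ^ c.2) * FR f Y c = 0 := by
    rw [sub_mul, one_mul, ← h1, sub_self]
  rcases mul_eq_zero.mp h2 with h | h
  · exact absurd (sub_eq_zero.mp h).symm (sm_I_zpow hc)
  · exact h

theorem sm_split (g : GaussianInt → ℂ) {Y : ℝ} (hY : 0 < Y) :
    ∑ n ∈ ann Y (2 * Y), g n = SS g (Real.log (2 * Y)) - SS g (Real.log Y) := by
  classical
  rw [SS, SS, Real.exp_log (by positivity), Real.exp_log hY]
  have h := Finset.sum_filter_add_sum_filter_not (ball (2 * Y)) (fun n => Y < ab n) g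
  have h2 : (ball (2 * Y)).filter (fun n => ¬ Y < ab n) = ball Y := by
    ext n
    rw [Finset.mem_filter, mem_ball', mem_ball', not_lt]
    constructor
    · rintro ⟨⟨h1, _⟩, h3⟩; exact ⟨h1, h3⟩
    · rintro ⟨h1, h3⟩; exact ⟨⟨h1, by linarith⟩, h3⟩
  rw [h2] at h
  rw [← h, ann]
  ring

theorem smallFR (f : GaussianInt → ℝ) (hf : IsBCM f)
    (hns : ¬ Summable fun p : P1 => (1 - f p) / nm (p : GaussianInt)) :
    SmallFR (fun n => (f n : ℂ)) := by
  intro ε hε
  obtain ⟨Δ, T, U0, hH⟩ := halasz (ε / 8) (by positivity)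
  obtain ⟨U1, hU⟩ := unifD f hf hns Δ 3
  refine ⟨max (max 3 |T|) (max (Real.exp U0) (Real.exp U1)), fun Y hY c hc1 hc2 => ?_⟩
  have hY3 : 3 ≤ Y := (le_max_left _ _).trans ((le_max_left _ _).trans hY)
  have hYT : |T| ≤ Y := (le_max_right _ _).trans ((le_max_left _ _).trans hY)
  have hY0 : Real.exp U0 ≤ Y := (le_max_left _ _).trans ((le_max_right _ _).trans hY)
  have hY1 : Real.exp U1 ≤ Y := (le_max_right _ _).trans ((le_max_right _ _).trans hY)
  have hYp : 0 < Y := by linarith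
  have hCM := CM.of_bcm hf
  by_cases h4 : 4 ∣ c.2
  · set g : GaussianInt → ℂ := fun n => (f n : ℂ) * ch c.1 c.2 n with hg
    have hgCM : CM g := hCM.mul_ch c.1 h4
    have key : ∀ Z : ℝ, Y ≤ Z → ‖SS g (Real.log Z)‖ ≤ ε / 8 * Z ^ 2 := by
      intro Z hZ
      have hZp : 0 < Z := by linarith
      have hl0 : U0 ≤ Real.log Z := (Real.le_log_iff_exp_le hZp).mpr (hY0.trans hZ)
      have hl1 : U1 ≤ Real.log Z := (Real.le_log_iff_exp_le hZp).mpr (hY1.trans hZ)
      have h := hH g hgCM (Real.log Z) hl0 ?_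
      · have e : Real.exp (2 * Real.log Z) = Z ^ 2 := by
          rw [mul_comm, Real.exp_mul, Real.exp_log hZp]
          norm_num
        rw [e] at h
        exact h
      · intro t ht
        have hbound : |(c.1 : ℝ) - t| + |(c.2 : ℝ)| ≤ Real.exp ((3 : ℕ) * Real.log Z) := by
          have e : Real.exp ((3 : ℕ) * Real.log Z) = Z ^ 3 := by
            rw [mul_comm, Real.exp_mul, Real.exp_log hZp]
            norm_num
          rw [e]
          have h1 : |(c.1 : ℝ) - t| ≤ |(c.1 : ℝ)| + |t| := abs_sub _ _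
          have h2 : |t| ≤ Y := ht.trans ((le_abs_self T).trans hYT)
          have h3 : Y ^ 3 ≤ Z ^ 3 := pow_le_pow_left₀ hYp.le hZ 3
          have h5 : Y ≤ Y ^ 2 := by nlinarith
          have h6 : 3 * Y ^ 2 ≤ Y ^ 3 := by
            have : Y ^ 3 = Y * Y ^ 2 := by ring
            rw [this]
            exact mul_le_mul_of_nonneg_right hY3 (by positivity)
          linarith
        refine (hU (Real.log Z) hl1 ((c.1 : ℝ) - t) c.2 h4 hbound).trans (le_of_eq ?_)
        refine Finset.sum_congr rfl fun p _ => ?_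
        have e : tw g t p = (f p : ℂ) * ch ((c.1 : ℝ) - t) c.2 p := by
          have h7 := ch_add (c.1 : ℝ) (-t) c.2 0 p
          rw [add_zero, ← sub_eq_add_neg] at h7
          rw [tw, hg, h7]
          ring
        rw [e, Complex.re_ofReal_mul]
    have hFR : FR (fun n => (f n : ℂ)) Y c = SS g (Real.log (2 * Y)) - SS g (Real.log Y) := by
      rw [← sm_split g hYp, FR]
    rw [hFR]
    have k1 := key Y le_rfl
    have k2 := key (2 * Y) (by linarith)
    have k3 := norm_sub_le (SS g (Real.log (2 * Y))) (SS g (Real.log Y))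
    have hY2 : 0 ≤ ε * Y ^ 2 := by positivity
    nlinarith
  · rw [sm_zero hCM Y c h4, norm_zero]
    positivity

end Pool.Agent.MRG
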