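import Pool.Agent.MRG.Fac
import Pool.Agent.MRG.Thin

/-!
# Module TK: the Turán–Kubilius inequality

Let `N(d) = #{n ∈ ball r : d ∣ n} = #ball (r/|d|) = π r²/|d|² + O(r/|d| + 1)` (`card_dvd`, `card_ball_asymp`); for `d = p`, `p p'`
(`p, p' ∈ S`) we have `|d| ≤ z² ≤ r`, so the error is `O(r/|d|)`.  Let `L = Ls S`, `A = ∑_{p ∈ S} 1/|p|`; by Cauchy–Schwarz
`A² ≤ |S| L ≤ 9 z² L ≤ 9 r L`, and `L ≤ A`.
`∑ om S n = ∑_p N(p) = π r² L + O(r A)`,
`∑ (om S n)² = ∑_p N(p) + ∑_{p ≠ p'} N(p p')` (`p ∣ n` and `p' ∣ n` iff `p p' ∣ n` for different first-quadrant primes)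
`≤ π r² L + O(r A) + π r² L² + O(r A²)`.  So
`∑ (om - L)² ≤ π r² L + O(r A + r A²) ≤ C r² (L + 1)`.
-/

set_option autoImplicit false

namespace Pool.Agent.MRG

open Pool.Agent.GaussPret

namespace TKAux

open scoped Classical in
theorem om_eq (S : Finset GaussianInt) (n : GaussianInt) :
    (om S n : ℝ) = ∑ p ∈ S, if p ∣ n then (1 : ℝ) else 0 := by
  unfold om
  rw [Finset.card_filter]
  push_cast
  rfl

open scoped Classical in
/-- number of multiples of `d` in the ball, up to `2 K r / |d|` -/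
theorem count {K : ℝ} (hball : ∀ r : ℝ, 0 ≤ r → |((ball r).card : ℝ) - Real.pi * r ^ 2| ≤ K * (r + 1))
    (hK : 0 < K) {r : ℝ} (hr : 1 ≤ r) {d : GaussianInt} (hd : d ≠ 0) (hdr : ab d ≤ r) :
    |(((ball r).filter (fun n => d ∣ n)).card : ℝ) - Real.pi * r ^ 2 * (1 / ab d) ^ 2| ≤
      2 * K * r * (1 / ab d) := by
  have hd0 := ab_pos hd
  rw [card_dvd d hd r]
  have h1 := hball (r / ab d) (by positivity)
  have h2 : (1 : ℝ) ≤ r / ab d := by rwa [le_div_iff₀ hd0, one_mul]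
  have e1 : Real.pi * (r / ab d) ^ 2 = Real.pi * r ^ 2 * (1 / ab d) ^ 2 := by
    field_simp
  rw [e1] at h1
  have e2 : 2 * K * r * (1 / ab d) = K * (r / ab d + r / ab d) := by
    field_simp
    ring
  rw [e2]
  exact h1.trans (by nlinarith)

open scoped Classical in
theorem pair_dvd {p q : GaussianInt} (hp : Prime p ∧ 0 < p.re ∧ 0 ≤ p.im)
    (hq : Prime q ∧ 0 < q.re ∧ 0 ≤ q.im) (hpq : p ≠ q) {n : GaussianInt} (hn : n ≠ 0) :
    (p ∣ n ∧ q ∣ n) ↔ p * q ∣ n := by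
  have hA : ∀ x ∈ ({p, q} : Finset GaussianInt), Prime x ∧ 0 < x.re ∧ 0 ≤ x.im := by
    intro x hx
    rw [Finset.mem_insert, Finset.mem_singleton] at hx
    rcases hx with rfl | rfl
    · exact hp
    · exact hq
  have h := prod_dvd_iff hA hn
  rw [Finset.prod_pair hpq] at h
  rw [h]
  simp

open scoped Classical in
theorem pair_count {K : ℝ}
    (hball : ∀ r : ℝ, 0 ≤ r → |((ball r).card : ℝ) - Real.pi * r ^ 2| ≤ K * (r + 1))
    (hK : 0 < K) {z r : ℝ} (hz : 1 ≤ z) (hzr : z ^ 2 ≤ r) {S : Finset GaussianInt}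
    (hS : S ⊆ pr 1 z) {p q : GaussianInt} (hp : p ∈ S) (hq : q ∈ S) :
    ∑ n ∈ ball r, (if p ∣ n then (1 : ℝ) else 0) * (if q ∣ n then (1 : ℝ) else 0) ≤
      (if p = q then (Real.pi * r ^ 2 * (1 / ab p) ^ 2 + 2 * K * r * (1 / ab p)) else 0) +
        (Real.pi * r ^ 2 * ((1 / ab p) ^ 2 * (1 / ab q) ^ 2) +
          2 * K * r * ((1 / ab p) * (1 / ab q))) := by
  have hr : 1 ≤ r := by nlinarith
  have hpm := mem_pr.1 (hS hp)
  have hqm := mem_pr.1 (hS hq)
  have hp0 : p ≠ 0 := hpm.1.1.ne_zero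
  have hq0 : q ≠ 0 := hqm.1.1.ne_zero
  have hap := ab_pos hp0
  have haq := ab_pos hq0
  have hsum : ∑ n ∈ ball r, (if p ∣ n then (1 : ℝ) else 0) * (if q ∣ n then (1 : ℝ) else 0) =
      (((ball r).filter (fun n => p ∣ n ∧ q ∣ n)).card : ℝ) := by
    rw [Finset.card_filter]
    push_cast
    refine Finset.sum_congr rfl fun n _ => ?_
    by_cases h1 : p ∣ n <;> by_cases h2 : q ∣ n <;> simp [h1, h2]
  rw [hsum]
  have hrest : 0 ≤ Real.pi * r ^ 2 * ((1 / ab p) ^ 2 * (1 / ab q) ^ 2) +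
          2 * K * r * ((1 / ab p) * (1 / ab q)) := by
    have := Real.pi_pos
    positivity
  by_cases hpq : p = q
  · subst hpq
    rw [if_pos rfl]
    have e : (ball r).filter (fun n => p ∣ n ∧ p ∣ n) = (ball r).filter (fun n => p ∣ n) := by
      simp
    rw [e]
    have h1 := (abs_le.1 (count hball hK hr hp0 (by nlinarith [hpm.2.2]))).2
    linarith
  · rw [if_neg hpq, zero_add]
    have e : (ball r).filter (fun n => p ∣ n ∧ q ∣ n) =
        (ball r).filter (fun n => p * q ∣ n) := by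
      refine Finset.filter_congr fun n hn => ?_
      exact pair_dvd hpm.1 hqm.1 hpq (mem_ball'.1 hn).1
    rw [e]
    have hle : ab (p * q) ≤ r := by
      rw [ab_mul]
      have : ab p * ab q ≤ z * z := mul_le_mul hpm.2.2 hqm.2.2 haq.le (by linarith)
      nlinarith
    have h1 := (abs_le.1 (count hball hK hr (mul_ne_zero hp0 hq0) hle)).2
    rw [ab_mul] at h1
    have e1 : Real.pi * r ^ 2 * (1 / (ab p * ab q)) ^ 2 =
        Real.pi * r ^ 2 * ((1 / ab p) ^ 2 * (1 / ab q) ^ 2) := by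
      field_simp
    have e2 : 2 * K * r * (1 / (ab p * ab q)) = 2 * K * r * ((1 / ab p) * (1 / ab q)) := by
      field_simp
    rw [e1, e2] at h1
    linarith

end TKAux

open TKAux

theorem tk : ∃ C : ℝ, 0 < C ∧ ∀ (z r : ℝ) (S : Finset GaussianInt), 1 ≤ z → z ^ 2 ≤ r →
    S ⊆ pr 1 z → ∑ n ∈ ball r, ((om S n : ℝ) - Ls S) ^ 2 ≤ C * r ^ 2 * (Ls S + 1) := by
  classical
  obtain ⟨K, hK, hball⟩ := card_ball_asymp
  have hpi := Real.pi_pos
  refine ⟨Real.pi + 82 * K, by positivity, fun z r S hz hzr hS => ?_⟩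
  have hr : 1 ≤ r := by nlinarith
  have hr0 : 0 < r := by linarith
  set L := Ls S with hL
  set A := ∑ p ∈ S, 1 / ab p with hA
  have hL' : L = ∑ p ∈ S, (1 / ab p) ^ 2 := by
    rw [hL, Ls]
    refine Finset.sum_congr rfl fun p _ => ?_
    rw [one_div_pow]
  have hmem : ∀ p ∈ S, 1 < ab p := fun p hp => (mem_pr.1 (hS hp)).2.1
  have hL0 : 0 ≤ L := by
    rw [hL']
    exact Finset.sum_nonneg fun p _ => sq_nonneg _
  have hA0 : 0 ≤ A := Finset.sum_nonneg fun p hp => by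
    have := hmem p hp
    positivity
  have hLA : L ≤ A := by
    rw [hL']
    refine Finset.sum_le_sum fun p hp => ?_
    have h1 := hmem p hp
    have h2 : 1 / ab p ≤ 1 := by
      rw [div_le_one (by linarith)]
      exact h1.le
    have h3 : 0 ≤ 1 / ab p := by positivity
    nlinarith
  have hcard : (S.card : ℝ) ≤ 9 * r := by
    have h1 : S ⊆ ball z := by
      intro p hp
      have h := mem_pr.1 (hS hp)
      exact mem_ball'.2 ⟨h.1.1.ne_zero, h.2.2⟩
    have h2 : (S.card : ℝ) ≤ (ball z).card := by exact_mod_cast Finset.card_le_card h1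
    have h3 := card_ball_le' z
    nlinarith
  have hA2 : A ^ 2 ≤ 9 * r * L := by
    have h1 : A ^ 2 ≤ S.card * ∑ p ∈ S, (1 / ab p) ^ 2 := by
      rw [hA]
      exact sq_sum_le_card_mul_sum_sq
    rw [← hL'] at h1
    exact h1.trans (mul_le_mul_of_nonneg_right hcard hL0)
  -- second moment
  have hsq : ∑ n ∈ ball r, (om S n : ℝ) ^ 2 ≤
      Real.pi * r ^ 2 * L + 2 * K * r * A + Real.pi * r ^ 2 * L ^ 2 + 2 * K * r * A ^ 2 := by
    have e1 : ∑ n ∈ ball r, (om S n : ℝ) ^ 2 = ∑ p ∈ S, ∑ q ∈ S, ∑ n ∈ ball r,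
        (if p ∣ n then (1 : ℝ) else 0) * (if q ∣ n then (1 : ℝ) else 0) := by
      have e2 : ∀ n ∈ ball r, (om S n : ℝ) ^ 2 = ∑ p ∈ S, ∑ q ∈ S,
          (if p ∣ n then (1 : ℝ) else 0) * (if q ∣ n then (1 : ℝ) else 0) := by
        intro n _
        rw [sq, om_eq, Finset.sum_mul_sum]
      rw [Finset.sum_congr rfl e2, Finset.sum_comm]
      refine Finset.sum_congr rfl fun p _ => ?_
      rw [Finset.sum_comm]
    rw [e1]
    have h1 : ∑ p ∈ S, ∑ q ∈ S, ∑ n ∈ ball r,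
        (if p ∣ n then (1 : ℝ) else 0) * (if q ∣ n then (1 : ℝ) else 0) ≤
        ∑ p ∈ S, ∑ q ∈ S,
        ((if p = q then (Real.pi * r ^ 2 * (1 / ab p) ^ 2 + 2 * K * r * (1 / ab p)) else 0) +
        (Real.pi * r ^ 2 * ((1 / ab p) ^ 2 * (1 / ab q) ^ 2) +
          2 * K * r * ((1 / ab p) * (1 / ab q)))) :=
      Finset.sum_le_sum fun p hp => Finset.sum_le_sum fun q hq =>
        pair_count hball hK hz hzr hS hp hq
    refine h1.trans (le_of_eq ?_)
    have e3 : ∀ p ∈ S, ∑ q ∈ S,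
        ((if p = q then (Real.pi * r ^ 2 * (1 / ab p) ^ 2 + 2 * K * r * (1 / ab p)) else 0) +
        (Real.pi * r ^ 2 * ((1 / ab p) ^ 2 * (1 / ab q) ^ 2) +
          2 * K * r * ((1 / ab p) * (1 / ab q)))) =
        (Real.pi * r ^ 2 * (1 / ab p) ^ 2 + 2 * K * r * (1 / ab p)) +
        (Real.pi * r ^ 2 * ((1 / ab p) ^ 2 * L) + 2 * K * r * ((1 / ab p) * A)) := by
      intro p hp
      rw [Finset.sum_add_distrib, Finset.sum_ite_eq, if_pos hp, Finset.sum_add_distrib,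
        ← Finset.mul_sum, ← Finset.mul_sum, ← Finset.mul_sum, ← Finset.mul_sum, ← hL', ← hA]
    rw [Finset.sum_congr rfl e3, Finset.sum_add_distrib, Finset.sum_add_distrib,
      Finset.sum_add_distrib, ← Finset.mul_sum, ← Finset.mul_sum, ← Finset.mul_sum,
      ← Finset.mul_sum, ← Finset.sum_mul, ← Finset.sum_mul, ← hL', ← hA]
    ring
  -- first moment
  have hfirst : Real.pi * r ^ 2 * L - 2 * K * r * A ≤ ∑ n ∈ ball r, (om S n : ℝ) := by
    have e1 : ∑ n ∈ ball r, (om S n : ℝ) =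
        ∑ p ∈ S, (((ball r).filter (fun n => p ∣ n)).card : ℝ) := by
      rw [Finset.sum_congr rfl fun n _ => om_eq S n, Finset.sum_comm]
      refine Finset.sum_congr rfl fun p _ => ?_
      rw [Finset.card_filter]
      push_cast
      rfl
    rw [e1]
    have h1 : ∑ p ∈ S, (Real.pi * r ^ 2 * (1 / ab p) ^ 2 - 2 * K * r * (1 / ab p)) ≤
        ∑ p ∈ S, (((ball r).filter (fun n => p ∣ n)).card : ℝ) := by
      refine Finset.sum_le_sum fun p hp => ?_
      have hpm := mem_pr.1 (hS hp)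
      have := (abs_le.1 (count hball hK hr hpm.1.1.ne_zero (by nlinarith [hpm.2.2]))).1
      linarith
    rw [Finset.sum_sub_distrib, ← Finset.mul_sum, ← Finset.mul_sum, ← hL', ← hA] at h1
    exact h1
  have hcardr : ((ball r).card : ℝ) ≤ Real.pi * r ^ 2 + 2 * K * r := by
    have := (abs_le.1 (hball r hr0.le)).2
    nlinarith
  have hexp : ∑ n ∈ ball r, ((om S n : ℝ) - L) ^ 2 =
      ∑ n ∈ ball r, (om S n : ℝ) ^ 2 - 2 * L * ∑ n ∈ ball r, (om S n : ℝ) +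
        L ^ 2 * (ball r).card := by
    have : ∀ n ∈ ball r, ((om S n : ℝ) - L) ^ 2 =
        (om S n : ℝ) ^ 2 - 2 * L * (om S n : ℝ) + L ^ 2 := fun n _ => by ring
    rw [Finset.sum_congr rfl this, Finset.sum_add_distrib, Finset.sum_sub_distrib,
      ← Finset.mul_sum, Finset.sum_const, nsmul_eq_mul]
    ring
  rw [hexp]
  have h1 : 2 * L * (Real.pi * r ^ 2 * L - 2 * K * r * A) ≤
      2 * L * ∑ n ∈ ball r, (om S n : ℝ) := mul_le_mul_of_nonneg_left hfirst (by linarith)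
  have h2 : L ^ 2 * ((ball r).card : ℝ) ≤ L ^ 2 * (Real.pi * r ^ 2 + 2 * K * r) :=
    mul_le_mul_of_nonneg_left hcardr (sq_nonneg _)
  have h3 : ∑ n ∈ ball r, (om S n : ℝ) ^ 2 - 2 * L * ∑ n ∈ ball r, (om S n : ℝ) +
        L ^ 2 * (ball r).card ≤
      Real.pi * r ^ 2 * L + 2 * K * r * (A + A ^ 2 + 2 * (A * L) + L ^ 2) := by
    linarith
  refine h3.trans ?_
  have h4 : A + A ^ 2 + 2 * (A * L) + L ^ 2 ≤ A + 4 * A ^ 2 := by nlinarith
  have h5 : A ≤ (1 + A ^ 2) / 2 := by nlinarith [sq_nonneg (A - 1)]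
  have h6 : A + 4 * A ^ 2 ≤ 1 / 2 * r + 9 / 2 * (9 * r * L) := by nlinarith
  have h7 : 2 * K * r * (A + A ^ 2 + 2 * (A * L) + L ^ 2) ≤
      2 * K * r * (1 / 2 * r + 9 / 2 * (9 * r * L)) :=
    mul_le_mul_of_nonneg_left (h4.trans h6) (by positivity)
  have h8 : 2 * K * r * (1 / 2 * r + 9 / 2 * (9 * r * L)) = K * r ^ 2 + 81 * (K * r ^ 2 * L) := by
    ring
  have h9 : (0 : ℝ) ≤ K * r ^ 2 := by positivity
  have h10 : 0 ≤ K * r ^ 2 * L := mul_nonneg h9 hL0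
  have h11 : (0 : ℝ) ≤ Real.pi * r ^ 2 := by positivity
  have h12 : (Real.pi + 82 * K) * r ^ 2 * (L + 1) =
      Real.pi * r ^ 2 * L + Real.pi * r ^ 2 + 82 * (K * r ^ 2 * L) + 82 * (K * r ^ 2) := by ring
  linarith

end Pool.Agent.MRG
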