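import Pool.Agent.MRG.Weyl

/-!
# Module Tent: smoothed character sums over discs

`tn x = max 0 (2 - |x|)`.  For all real `y`: `tn y = ∫_{-2}^{2} sg(x) 1[y ≤ x] dx` with `sg(x) = -1` for `x < 0` and `1` for `x > 0`
(`y ≤ -2`: `-2 + 2 = 0`; `-2 ≤ y ≤ 0`: `y + 2`; `0 ≤ y ≤ 2`: `2 - y`; `y > 2`: `0`).  So with `S(Y) = ∑_{g ∈ ball Y} ch m k g`
`∑_{g ∈ ball (e^(w+2))} tn (log|g| - w) ch m k g = ∫_0^2 S(e^(w+x)) dx - ∫_{-2}^0 S(e^(w+x)) dx`.
By `weyl (2K)` with `Y = e^(w+x) ≥ e^(w/2)` (`w ≥ 4`), `|m| + |k| ≤ e^(Kw) ≤ Y^(2K)`, the error is `≤ 4 C e^((2-δ)(w+2))`, and for `k = 0`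
`∫_0^2 mainT - ∫_{-2}^0 mainT = (2π/(2+im)) e^((2+im)w) (∫_0^2 e^((2+im)x) dx - ∫_{-2}^0 e^((2+im)x) dx) = tM m · e^((2+im)w)`.
`tM_le`: `|2 + im|² = 4 + m²`.
-/

set_option autoImplicit false

namespace Pool.Agent.MRG

open Pool.Agent.GaussPret

/-- the tent -/
noncomputable def tn (x : ℝ) : ℝ := max 0 (2 - |x|)

/-- its Mellin transform -/
noncomputable def tM (m : ℝ) : ℂ :=
  2 * Real.pi * (Complex.exp (2 * (2 + m * Complex.I)) - 2 +
    Complex.exp (-(2 * (2 + m * Complex.I)))) / (2 + m * Complex.I) ^ 2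

namespace Tent

open MeasureTheory intervalIntegral

lemma int_ind (a b y : ℝ) (hab : a ≤ b) :
    ∫ x in a..b, (if y ≤ x then (1 : ℂ) else 0) = ((max (b - max y a) 0 : ℝ) : ℂ) := by
  rw [intervalIntegral.integral_of_le hab]
  have e : (fun x : ℝ => if y ≤ x then (1 : ℂ) else 0) = (Set.Ici y).indicator (fun _ => (1 : ℂ)) := by
    funext x
    simp [Set.indicator, Set.mem_Ici]
  rw [e, MeasureTheory.integral_indicator measurableSet_Ici, MeasureTheory.setIntegral_const,
    measureReal_restrict_apply measurableSet_Ici]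
  have h : volume.real (Set.Ici y ∩ Set.Ioc a b) = volume.real (Set.Ioi y ∩ Set.Ioc a b) := by
    refine measureReal_congr ?_
    exact (Ioi_ae_eq_Ici.symm).inter (ae_eq_refl _)
  have h2 : Set.Ioi y ∩ Set.Ioc a b = Set.Ioc (max y a) b := by
    ext x
    simp only [Set.mem_inter_iff, Set.mem_Ioi, Set.mem_Ioc, max_lt_iff]
    tauto
  rw [h, h2, Real.volume_real_Ioc]
  simp

lemma ii_ind (a b y : ℝ) :
    IntervalIntegrable (fun x : ℝ => if y ≤ x then (1 : ℂ) else 0) volume a b := by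
  have e : (fun x : ℝ => if y ≤ x then (1 : ℂ) else 0) = (Set.Ici y).indicator (fun _ => (1 : ℂ)) := by
    funext x
    simp [Set.indicator, Set.mem_Ici]
  rw [e]
  have h : IntervalIntegrable (fun _ : ℝ => (1 : ℂ)) volume a b := intervalIntegrable_const
  exact ⟨h.1.indicator measurableSet_Ici, h.2.indicator measurableSet_Ici⟩

lemma tn_eq (y : ℝ) : (tn y : ℂ) = (∫ x in (0:ℝ)..2, (if y ≤ x then (1 : ℂ) else 0)) -
    ∫ x in (-2:ℝ)..0, (if y ≤ x then (1 : ℂ) else 0) := by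
  rw [int_ind _ _ _ (by norm_num), int_ind _ _ _ (by norm_num), ← Complex.ofReal_sub]
  congr 1
  unfold tn
  rcases abs_cases y with ⟨h, h'⟩ | ⟨h, h'⟩ <;> rw [h] <;> simp only [max_def] <;> split_ifs <;>
    linarith

/-- the sum over the ball of radius `e^(w+x)` -/
lemma S_eq (w x m : ℝ) (k : ℤ) (hx : x ≤ 2) :
    ∑ g ∈ ball (Real.exp (w + x)), ch m k g = ∑ g ∈ ball (Real.exp (w + 2)),
      (if Real.log (ab g) - w ≤ x then (1 : ℂ) else 0) * ch m k g := by
  simp only [ite_mul, one_mul, zero_mul]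
  rw [← Finset.sum_filter]
  refine Finset.sum_congr ?_ fun _ _ => rfl
  ext g
  rw [Finset.mem_filter, mem_ball', mem_ball']
  constructor
  · rintro ⟨h0, h1⟩
    refine ⟨⟨h0, h1.trans (Real.exp_le_exp.2 (by linarith))⟩, ?_⟩
    have := Real.log_le_log (ab_pos h0) h1
    rw [Real.log_exp] at this
    linarith
  · rintro ⟨⟨h0, _⟩, h1⟩
    refine ⟨h0, ?_⟩
    rw [← Real.log_le_iff_le_exp (ab_pos h0)]
    linarith

lemma ii_S (w a b m : ℝ) (k : ℤ) (ha : a ≤ 2) (hb : b ≤ 2) :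
    IntervalIntegrable (fun x => ∑ g ∈ ball (Real.exp (w + x)), ch m k g) volume a b := by
  have h : IntervalIntegrable (fun x => ∑ g ∈ ball (Real.exp (w + 2)),
      (if Real.log (ab g) - w ≤ x then (1 : ℂ) else 0) * ch m k g) volume a b := by
    have := IntervalIntegrable.sum (μ := volume) (a := a) (b := b) (ball (Real.exp (w + 2)))
      (f := fun g x => (if Real.log (ab g) - w ≤ x then (1 : ℂ) else 0) * ch m k g)
      (fun g _ => (ii_ind a b _).mul_const _)
    refine this.congr ?_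
    intro x _
    simp
  refine h.congr ?_
  intro x hx
  have : x ≤ 2 := by
    rcases Set.mem_uIoc.1 hx with h | h
    · exact h.2.trans hb
    · exact h.2.trans ha
  exact (S_eq w x m k this).symm

lemma int_S (w a b m : ℝ) (k : ℤ) (ha : a ≤ 2) (hb : b ≤ 2) :
    ∫ x in a..b, ∑ g ∈ ball (Real.exp (w + x)), ch m k g = ∑ g ∈ ball (Real.exp (w + 2)),
      (∫ x in a..b, (if Real.log (ab g) - w ≤ x then (1 : ℂ) else 0)) * ch m k g := by
  have h : ∫ x in a..b, ∑ g ∈ ball (Real.exp (w + x)), ch m k g =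
      ∫ x in a..b, ∑ g ∈ ball (Real.exp (w + 2)),
      (if Real.log (ab g) - w ≤ x then (1 : ℂ) else 0) * ch m k g := by
    refine intervalIntegral.integral_congr fun x hx => ?_
    refine S_eq w x m k ?_
    rcases Set.mem_uIcc.1 hx with h | h
    · exact h.2.trans hb
    · exact h.2.trans ha
  rw [h, intervalIntegral.integral_finset_sum]
  · refine Finset.sum_congr rfl fun g _ => ?_
    rw [intervalIntegral.integral_mul_const]
  · intro g _
    exact (ii_ind a b _).mul_const _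

lemma sum_eq (w m : ℝ) (k : ℤ) :
    ∑ g ∈ ball (Real.exp (w + 2)), (tn (Real.log (ab g) - w) : ℂ) * ch m k g =
      (∫ x in (0:ℝ)..2, ∑ g ∈ ball (Real.exp (w + x)), ch m k g) -
      ∫ x in (-2:ℝ)..0, ∑ g ∈ ball (Real.exp (w + x)), ch m k g := by
  rw [int_S _ _ _ _ _ (by norm_num) (by norm_num), int_S _ _ _ _ _ (by norm_num) (by norm_num),
    ← Finset.sum_sub_distrib]
  refine Finset.sum_congr rfl fun g _ => ?_
  rw [tn_eq, sub_mul]

lemma s_ne (m : ℝ) : (2 + m * Complex.I : ℂ) ≠ 0 := by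
  intro h
  have := congrArg Complex.re h
  simp at this

lemma mainT_eq (w x m : ℝ) : mainT m 0 (Real.exp (w + x)) =
    2 * Real.pi / (2 + m * Complex.I) * Complex.exp ((2 + m * Complex.I) * w) *
      Complex.exp ((2 + m * Complex.I) * x) := by
  unfold mainT
  rw [if_pos rfl, Real.log_exp, Complex.ofReal_exp, ← Complex.exp_nat_mul]
  have e : Complex.exp ((2 + m * Complex.I) * w) * Complex.exp ((2 + m * Complex.I) * x) =
      Complex.exp ((2 : ℕ) * ((w + x : ℝ) : ℂ)) * Complex.exp (((m * (w + x) : ℝ) : ℂ) * Complex.I) := by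
    rw [← Complex.exp_add, ← Complex.exp_add]
    congr 1
    push_cast
    ring
  rw [mul_assoc (2 * (Real.pi : ℂ) / (2 + m * Complex.I)), e]
  ring

lemma mainT_zero {k : ℤ} (hk : k ≠ 0) (m Y : ℝ) : mainT m k Y = 0 := by
  unfold mainT
  rw [if_neg hk]

lemma cont_mainT (w m : ℝ) (k : ℤ) : Continuous fun x : ℝ => mainT m k (Real.exp (w + x)) := by
  by_cases hk : k = 0
  · subst hk
    simp only [mainT_eq]
    fun_prop
  · simp only [mainT_zero hk]
    exact continuous_const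

lemma int_mainT (w m : ℝ) (k : ℤ) :
    (∫ x in (0:ℝ)..2, mainT m k (Real.exp (w + x))) -
      ∫ x in (-2:ℝ)..0, mainT m k (Real.exp (w + x)) =
    if k = 0 then tM m * Complex.exp ((2 + m * Complex.I) * w) else 0 := by
  by_cases hk : k = 0
  · subst hk
    rw [if_pos rfl]
    simp only [mainT_eq]
    rw [intervalIntegral.integral_const_mul, intervalIntegral.integral_const_mul,
      integral_exp_mul_complex (s_ne m), integral_exp_mul_complex (s_ne m)]
    unfold tM
    have hs := s_ne m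
    have e1 : ((2 + m * Complex.I) * ((2 : ℝ) : ℂ)) = 2 * (2 + m * Complex.I) := by
      push_cast; ring
    have e2 : ((2 + m * Complex.I) * ((-2 : ℝ) : ℂ)) = -(2 * (2 + m * Complex.I)) := by
      push_cast; ring
    have e3 : ((2 + m * Complex.I) * ((0 : ℝ) : ℂ)) = 0 := by
      push_cast; ring
    rw [e1, e2, e3, Complex.exp_zero]
    field_simp
    ring
  · rw [if_neg hk]
    simp only [mainT_zero hk]
    simp

end Tent

theorem tM_le : ∃ C : ℝ, 0 < C ∧ ∀ m : ℝ, ‖tM m‖ ≤ C / (1 + m ^ 2) := by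
  refine ⟨2 * Real.pi * (Real.exp 4 + 3), by positivity, fun m => ?_⟩
  unfold tM
  have hn : ‖(2 + m * Complex.I : ℂ)‖ ^ 2 = 4 + m ^ 2 := by
    rw [Complex.sq_norm, Complex.normSq_apply]
    simp
    ring
  rw [norm_div, norm_pow, hn, norm_mul, norm_mul, Complex.norm_real, Real.norm_of_nonneg Real.pi_pos.le]
  have h1 : ‖Complex.exp (2 * (2 + m * Complex.I))‖ = Real.exp 4 := by
    rw [Complex.norm_exp]
    congr 1
    simp
    norm_num
  have h2 : ‖Complex.exp (-(2 * (2 + m * Complex.I)))‖ ≤ 1 := by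
    rw [Complex.norm_exp]
    refine Real.exp_le_one_iff.2 ?_
    simp
  have h3 : ‖Complex.exp (2 * (2 + m * Complex.I)) - 2 + Complex.exp (-(2 * (2 + m * Complex.I)))‖ ≤
      Real.exp 4 + 3 := by
    refine (norm_add_le _ _).trans ?_
    have := norm_sub_le (Complex.exp (2 * (2 + m * Complex.I))) 2
    rw [h1] at this
    have h4 : ‖(2 : ℂ)‖ = 2 := by simp
    linarith
  have h4 : ‖(2 : ℂ)‖ = 2 := by simp
  rw [h4]
  refine div_le_div₀ (by positivity) (by gcongr) (by positivity) (by linarith)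

theorem tent (K : ℕ) : ∃ δ C : ℝ, 0 < δ ∧ δ ≤ 1 / 2 ∧ 0 < C ∧ ∀ (w m : ℝ) (k : ℤ), 4 ≤ w →
    |m| + |(k : ℝ)| ≤ Real.exp (K * w) →
    ‖∑ g ∈ ball (Real.exp (w + 2)), (tn (Real.log (ab g) - w) : ℂ) * ch m k g -
      (if k = 0 then tM m * Complex.exp ((2 + m * Complex.I) * w) else 0)‖ ≤
      C * Real.exp ((2 - δ) * w) := by
  obtain ⟨δ, C, hδ, hδ2, hC, h⟩ := weyl (2 * K)
  refine ⟨δ, 4 * C * Real.exp 4, hδ, hδ2, by positivity, fun w m k hw hmk => ?_⟩
  have hb : ∀ x : ℝ, -2 ≤ x → x ≤ 2 →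
      ‖∑ g ∈ ball (Real.exp (w + x)), ch m k g - mainT m k (Real.exp (w + x))‖ ≤
      C * Real.exp 4 * Real.exp ((2 - δ) * w) := by
    intro x hx1 hx2
    refine (h (Real.exp (w + x)) m k (Real.one_le_exp (by linarith)) ?_).trans ?_
    · refine hmk.trans ?_
      rw [← Real.exp_nat_mul]
      refine Real.exp_le_exp.2 ?_
      push_cast
      have : (0 : ℝ) ≤ K := Nat.cast_nonneg _
      nlinarith
    · rw [mul_assoc]
      refine mul_le_mul_of_nonneg_left ?_ hC.le
      rw [← Real.exp_mul, ← Real.exp_add]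
      refine Real.exp_le_exp.2 ?_
      nlinarith
  rw [Tent.sum_eq, ← Tent.int_mainT]
  have e : ∀ A B A' B' : ℂ, A - B - (A' - B') = (A - A') - (B - B') := by intros; ring
  rw [e]
  refine (norm_sub_le _ _).trans ?_
  rw [← intervalIntegral.integral_sub (Tent.ii_S _ _ _ _ _ (by norm_num) (by norm_num))
      ((Tent.cont_mainT w m k).intervalIntegrable _ _),
    ← intervalIntegral.integral_sub (Tent.ii_S _ _ _ _ _ (by norm_num) (by norm_num))
      ((Tent.cont_mainT w m k).intervalIntegrable _ _)]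
  have i1 := intervalIntegral.norm_integral_le_of_norm_le_const (a := 0) (b := 2)
    (f := fun x => ∑ g ∈ ball (Real.exp (w + x)), ch m k g - mainT m k (Real.exp (w + x)))
    (C := C * Real.exp 4 * Real.exp ((2 - δ) * w)) (by
      intro x hx
      rw [Set.uIoc_of_le (by norm_num)] at hx
      exact hb x (by linarith [hx.1]) hx.2)
  have i2 := intervalIntegral.norm_integral_le_of_norm_le_const (a := -2) (b := 0)
    (f := fun x => ∑ g ∈ ball (Real.exp (w + x)), ch m k g - mainT m k (Real.exp (w + x)))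
    (C := C * Real.exp 4 * Real.exp ((2 - δ) * w)) (by
      intro x hx
      rw [Set.uIoc_of_le (by norm_num)] at hx
      exact hb x hx.1.le (by linarith [hx.2]))
  have e1 : |(2 : ℝ) - 0| = 2 := by norm_num
  have e2 : |(0 : ℝ) - (-2)| = 2 := by norm_num
  rw [e1] at i1
  rw [e2] at i2
  linarith

end Pool.Agent.MRG
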