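import Mathlib

/-!
# Module UnitMV: mean values of Dirichlet series over unit intervals

General: `x_i ≥ 0`, `∑ ‖d_i‖ < ∞`, `D(t) = ∑ d_i e^(-i t x_i)`, and `b_j` bounds `∑ ‖d_i‖` over (finite subsets of) `{i : j ≤ x_i < j+1}`.

First for a finite set of indices: with `t₁ = t0 + 1/2`, `e^(-(t-t₁)²) ≥ e^(-1/4)` on `[t0, t0+1]` and (`fourierIntegral_gaussian`)
`∫ e^(-(t-t₁)²) |D(t)|² dt = ∑_{i,i'} d_i conj d_i' e^(-i t₁ (x_i - x_i')) √π e^(-(x_i - x_i')²/4) ≤ √π ∑_{i,i'} ‖d_i‖ ‖d_i'‖ e^(-(x_i-x_i')²/4)`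
`≤ √π ∑_{j,j'} b_j b_j' E(|j-j'|)`, and `b_j b_j' ≤ (b_j² + b_j'²)/2`.
The general case: finite partial sums converge to `D` uniformly in `t`, and the bound is uniform.
-/

set_option autoImplicit false

namespace Pool.Agent.MRG

open MeasureTheory

theorem umv_exp_bound (y : ℝ) : Real.exp (-(y ^ 2 / 4)) ≤ Real.exp 1 * Real.exp (-|y|) := by
  rw [← Real.exp_add]
  apply Real.exp_le_exp.mpr
  have h := sq_nonneg (|y| / 2 - 1)
  have h2 := sq_abs y
  nlinarith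

theorem umv_r_lt : Real.exp (-1) < 1 := by
  rw [Real.exp_lt_one_iff]; norm_num

theorem umv_geom (J : Finset ℕ) (j : ℕ) :
    ∑ k ∈ J, Real.exp (-|(j : ℝ) - k|) ≤ 2 * (1 - Real.exp (-1))⁻¹ := by
  have hr0 : (0 : ℝ) ≤ Real.exp (-1) := (Real.exp_pos _).le
  have hr1 := umv_r_lt
  have hsum : Summable (fun m : ℕ => Real.exp (-1) ^ m) := summable_geometric_of_lt_one hr0 hr1
  have htsum : ∑' m : ℕ, Real.exp (-1) ^ m = (1 - Real.exp (-1))⁻¹ := tsum_geometric_of_lt_one hr0 hr1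
  have key : ∀ (S : Finset ℕ) (g : ℕ → ℕ), Set.InjOn g S →
      ∑ k ∈ S, Real.exp (-1) ^ (g k) ≤ (1 - Real.exp (-1))⁻¹ := by
    intro S g hg
    rw [← htsum, ← Finset.sum_image (f := fun m => Real.exp (-1) ^ m) hg]
    exact hsum.sum_le_tsum _ (fun i _ => pow_nonneg hr0 i)
  rw [← Finset.sum_filter_add_sum_filter_not J (fun k => k ≤ j), two_mul]
  apply add_le_add
  · refine le_trans (le_of_eq ?_) (key (J.filter (fun k => k ≤ j)) (fun k => j - k) ?_)
    · apply Finset.sum_congr rfl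
      intro k hk
      have hkj : k ≤ j := (Finset.mem_filter.mp hk).2
      have : (k : ℝ) ≤ j := by exact_mod_cast hkj
      rw [abs_of_nonneg (by linarith), ← Real.exp_nat_mul, Nat.cast_sub hkj]
      congr 1; ring
    · intro a ha b hb hab
      have h1 : a ≤ j := (Finset.mem_filter.mp (Finset.mem_coe.mp ha)).2
      have h2 : b ≤ j := (Finset.mem_filter.mp (Finset.mem_coe.mp hb)).2
      simp only at hab
      omega
  · refine le_trans (le_of_eq ?_) (key (J.filter (fun k => ¬ k ≤ j)) (fun k => k - j) ?_)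
    · apply Finset.sum_congr rfl
      intro k hk
      have hkj : j ≤ k := by have := (Finset.mem_filter.mp hk).2; omega
      have : (j : ℝ) ≤ k := by exact_mod_cast hkj
      rw [abs_of_nonpos (by linarith), ← Real.exp_nat_mul, Nat.cast_sub hkj]
      congr 1; ring
    · intro a ha b hb hab
      have h1 : ¬ a ≤ j := (Finset.mem_filter.mp (Finset.mem_coe.mp ha)).2
      have h2 : ¬ b ≤ j := (Finset.mem_filter.mp (Finset.mem_coe.mp hb)).2
      simp only at hab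
      omega

theorem umv_double {ι : Type} (s : Finset ι) (x : ι → ℝ) (a : ι → ℝ) (b : ℕ → ℝ)
    (hx : ∀ i, 0 ≤ x i) (ha : ∀ i, 0 ≤ a i)
    (hb : ∀ (j : ℕ) (s : Finset ι), (∀ i ∈ s, (j : ℝ) ≤ x i ∧ x i < j + 1) → ∑ i ∈ s, a i ≤ b j)
    (hbs : Summable (fun j => b j ^ 2)) :
    ∑ i ∈ s, ∑ k ∈ s, a i * a k * Real.exp (-((x i - x k) ^ 2 / 4)) ≤
      Real.exp 2 * (2 * (1 - Real.exp (-1))⁻¹) * ∑' j, b j ^ 2 := by
  classical
  set F : ι → ℕ := fun i => ⌊x i⌋₊ with hF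
  set κ : ℕ → ℕ → ℝ := fun m n => Real.exp (-|(m : ℝ) - n|) with hκ
  set J : Finset ℕ := s.image F with hJ
  set A : ℕ → ℝ := fun j => ∑ i ∈ s.filter (fun i => F i = j), a i with hA
  have hA0 : ∀ j, 0 ≤ A j := fun j => Finset.sum_nonneg (fun i _ => ha i)
  have hAb : ∀ j, A j ≤ b j := by
    intro j
    apply hb
    intro i hi
    have h1 : F i = j := (Finset.mem_filter.mp hi).2
    rw [← h1]
    exact ⟨Nat.floor_le (hx i), Nat.lt_floor_add_one (x i)⟩
  have hterm : ∀ i k, a i * a k * Real.exp (-((x i - x k) ^ 2 / 4)) ≤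
      Real.exp 2 * (a i * a k * κ (F i) (F k)) := by
    intro i k
    have h1 : Real.exp (-((x i - x k) ^ 2 / 4)) ≤ Real.exp 2 * κ (F i) (F k) := by
      refine (umv_exp_bound _).trans ?_
      rw [hκ]
      simp only
      rw [← Real.exp_add, ← Real.exp_add]
      apply Real.exp_le_exp.mpr
      have h2 : |((F i : ℕ) : ℝ) - (F k : ℕ)| ≤ |x i - x k| + 1 := by
        have e1 := Nat.floor_le (hx i)
        have e2 := Nat.lt_floor_add_one (x i)
        have e3 := Nat.floor_le (hx k)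
        have e4 := Nat.lt_floor_add_one (x k)
        have e5 := le_abs_self (x i - x k)
        have e6 := neg_abs_le (x i - x k)
        rw [abs_le]
        constructor
        · simp only [hF]; linarith
        · simp only [hF]; linarith
      linarith
    calc a i * a k * Real.exp (-((x i - x k) ^ 2 / 4)) ≤ a i * a k * (Real.exp 2 * κ (F i) (F k)) :=
          mul_le_mul_of_nonneg_left h1 (mul_nonneg (ha i) (ha k))
      _ = _ := by ring
  have hmaps : ∀ i ∈ s, F i ∈ J := fun i hi => Finset.mem_image_of_mem F hi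
  have hfib : ∀ (h : ℕ → ℝ), ∑ i ∈ s, a i * h (F i) = ∑ j ∈ J, A j * h j := by
    intro h
    rw [← Finset.sum_fiberwise_of_maps_to hmaps]
    apply Finset.sum_congr rfl
    intro j _
    rw [hA]
    simp only
    rw [Finset.sum_mul]
    apply Finset.sum_congr rfl
    intro i hi
    rw [(Finset.mem_filter.mp hi).2]
  have hdouble : ∑ i ∈ s, ∑ k ∈ s, a i * a k * κ (F i) (F k) = ∑ j ∈ J, ∑ l ∈ J, A j * A l * κ j l := by
    have h1 : ∀ i, ∑ k ∈ s, a i * a k * κ (F i) (F k) = a i * (∑ l ∈ J, A l * κ (F i) l) := by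
      intro i
      rw [← hfib (fun l => κ (F i) l), Finset.mul_sum]
      apply Finset.sum_congr rfl
      intro k _
      ring
    simp_rw [h1]
    rw [hfib (fun m => ∑ l ∈ J, A l * κ m l)]
    apply Finset.sum_congr rfl
    intro j _
    rw [Finset.mul_sum]
    apply Finset.sum_congr rfl
    intro l _
    ring
  have hκ0 : ∀ j l, 0 ≤ κ j l := fun j l => (Real.exp_pos _).le
  have hκs : ∀ j l, κ j l = κ l j := by
    intro j l
    simp only [hκ]
    rw [abs_sub_comm]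
  have hAA : ∑ j ∈ J, ∑ l ∈ J, A j * A l * κ j l ≤ (2 * (1 - Real.exp (-1))⁻¹) * ∑' j, b j ^ 2 := by
    have h1 : ∑ j ∈ J, ∑ l ∈ J, A j * A l * κ j l ≤
        ∑ j ∈ J, ∑ l ∈ J, (A j ^ 2 / 2 * κ j l + A l ^ 2 / 2 * κ j l) := by
      apply Finset.sum_le_sum
      intro j _
      apply Finset.sum_le_sum
      intro l _
      nlinarith [mul_nonneg (sq_nonneg (A j - A l)) (hκ0 j l)]
    have h2 : ∑ j ∈ J, ∑ l ∈ J, (A j ^ 2 / 2 * κ j l + A l ^ 2 / 2 * κ j l) =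
        ∑ j ∈ J, A j ^ 2 * ∑ l ∈ J, κ j l := by
      simp_rw [Finset.sum_add_distrib]
      rw [Finset.sum_comm (f := fun j l => A l ^ 2 / 2 * κ j l), ← Finset.sum_add_distrib]
      apply Finset.sum_congr rfl
      intro j _
      rw [← Finset.sum_add_distrib, Finset.mul_sum]
      apply Finset.sum_congr rfl
      intro l _
      rw [hκs l j]
      ring
    have h3 : ∑ j ∈ J, A j ^ 2 * ∑ l ∈ J, κ j l ≤ ∑ j ∈ J, (2 * (1 - Real.exp (-1))⁻¹) * b j ^ 2 := by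
      apply Finset.sum_le_sum
      intro j _
      have h4 : ∑ l ∈ J, κ j l ≤ 2 * (1 - Real.exp (-1))⁻¹ := umv_geom J j
      have h5 : A j ^ 2 ≤ b j ^ 2 := pow_le_pow_left₀ (hA0 j) (hAb j) 2
      have h6 : 0 ≤ ∑ l ∈ J, κ j l := Finset.sum_nonneg (fun l _ => hκ0 j l)
      calc A j ^ 2 * ∑ l ∈ J, κ j l ≤ b j ^ 2 * (2 * (1 - Real.exp (-1))⁻¹) :=
            mul_le_mul h5 h4 h6 (sq_nonneg _)
        _ = _ := by ring
    refine h1.trans (h2.le.trans (h3.trans ?_))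
    rw [← Finset.mul_sum]
    apply mul_le_mul_of_nonneg_left
    · exact hbs.sum_le_tsum _ (fun i _ => sq_nonneg _)
    · have := umv_r_lt
      have h7 : 0 < 1 - Real.exp (-1) := by linarith
      positivity
  calc ∑ i ∈ s, ∑ k ∈ s, a i * a k * Real.exp (-((x i - x k) ^ 2 / 4))
      ≤ ∑ i ∈ s, ∑ k ∈ s, Real.exp 2 * (a i * a k * κ (F i) (F k)) :=
        Finset.sum_le_sum (fun i _ => Finset.sum_le_sum (fun k _ => hterm i k))
    _ = Real.exp 2 * ∑ j ∈ J, ∑ l ∈ J, A j * A l * κ j l := by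
        rw [← hdouble, Finset.mul_sum]
        apply Finset.sum_congr rfl
        intro i _
        rw [Finset.mul_sum]
    _ ≤ Real.exp 2 * ((2 * (1 - Real.exp (-1))⁻¹) * ∑' j, b j ^ 2) :=
        mul_le_mul_of_nonneg_left hAA (Real.exp_pos _).le
    _ = _ := by ring

/-- the Gaussian integral -/
theorem umv_gauss (y : ℝ) :
    ∫ u : ℝ, Complex.exp (((-(u * y) : ℝ) : ℂ) * Complex.I) * ((Real.exp (-u ^ 2) : ℝ) : ℂ) =
      ((Real.sqrt Real.pi * Real.exp (-(y ^ 2 / 4)) : ℝ) : ℂ) := by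
  have h := fourierIntegral_gaussian (b := 1) (by norm_num) (-(y : ℂ))
  have e1 : (fun u : ℝ => Complex.exp (((-(u * y) : ℝ) : ℂ) * Complex.I) * ((Real.exp (-u ^ 2) : ℝ) : ℂ)) =
      fun u : ℝ => Complex.exp (Complex.I * (-(y : ℂ)) * u) * Complex.exp (-1 * (u : ℂ) ^ 2) := by
    funext u
    congr 1
    · congr 1
      push_cast
      ring
    · push_cast
      congr 1
      ring
  rw [e1, h]
  rw [div_one]
  have e2 : ((Real.pi : ℂ)) ^ (1 / 2 : ℂ) = ((Real.sqrt Real.pi : ℝ) : ℂ) := by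
    rw [Real.sqrt_eq_rpow, Complex.ofReal_cpow Real.pi_pos.le]
    norm_num
  rw [e2]
  push_cast
  congr 2
  ring

theorem umv_gauss_int (y : ℝ) :
    Integrable (fun u : ℝ => Complex.exp (((-(u * y) : ℝ) : ℂ) * Complex.I) * ((Real.exp (-u ^ 2) : ℝ) : ℂ)) := by
  have h0 : Integrable (fun u : ℝ => Real.exp (-1 * u ^ 2)) := integrable_exp_neg_mul_sq (by norm_num)
  have h1 : Integrable (fun u : ℝ => ((Real.exp (-u ^ 2) : ℝ) : ℂ)) := by
    have := h0.ofReal (𝕜 := ℂ)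
    refine this.congr (Filter.Eventually.of_forall fun u => ?_)
    simp
  refine h1.bdd_mul (c := 1) ?_ ?_
  · exact (by fun_prop : Continuous fun u : ℝ => Complex.exp (((-(u * y) : ℝ) : ℂ) * Complex.I)).aestronglyMeasurable
  · refine Filter.Eventually.of_forall fun u => ?_
    rw [Complex.norm_exp_ofReal_mul_I]

theorem umv_finite_gauss {ι : Type} (s : Finset ι) (x : ι → ℝ) (d : ι → ℂ) :
    Integrable (fun u : ℝ => ‖∑ i ∈ s, d i * Complex.exp (((-(u * x i) : ℝ) : ℂ) * Complex.I)‖ ^ 2 * Real.exp (-u ^ 2)) ∧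
    ∫ u : ℝ, ‖∑ i ∈ s, d i * Complex.exp (((-(u * x i) : ℝ) : ℂ) * Complex.I)‖ ^ 2 * Real.exp (-u ^ 2) ≤
      Real.sqrt Real.pi * ∑ i ∈ s, ∑ k ∈ s, ‖d i‖ * ‖d k‖ * Real.exp (-((x i - x k) ^ 2 / 4)) := by
  set G : ℝ → ℂ := fun u => ∑ i ∈ s, d i * Complex.exp (((-(u * x i) : ℝ) : ℂ) * Complex.I) with hG
  have hexp : ∀ u : ℝ, (((‖G u‖ ^ 2 * Real.exp (-u ^ 2) : ℝ)) : ℂ) =
      ∑ i ∈ s, ∑ k ∈ s, d i * (starRingEnd ℂ) (d k) *
        (Complex.exp (((-(u * (x i - x k)) : ℝ) : ℂ) * Complex.I) * ((Real.exp (-u ^ 2) : ℝ) : ℂ)) := by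
    intro u
    have h1 : ((‖G u‖ ^ 2 : ℝ) : ℂ) = G u * (starRingEnd ℂ) (G u) := by
      rw [Complex.mul_conj, Complex.normSq_eq_norm_sq]
    rw [Complex.ofReal_mul, h1, hG]
    simp only [map_sum, map_mul]
    rw [Finset.sum_mul_sum, Finset.sum_mul]
    apply Finset.sum_congr rfl
    intro i _
    rw [Finset.sum_mul]
    apply Finset.sum_congr rfl
    intro k _
    have h2 : (starRingEnd ℂ) (Complex.exp (((-(u * x k) : ℝ) : ℂ) * Complex.I)) =
        Complex.exp (((u * x k : ℝ) : ℂ) * Complex.I) := by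
      rw [← Complex.exp_conj, map_mul, Complex.conj_ofReal, Complex.conj_I]
      congr 1
      push_cast
      ring
    rw [h2]
    have h3 : Complex.exp (((-(u * (x i - x k)) : ℝ) : ℂ) * Complex.I) =
        Complex.exp (((-(u * x i) : ℝ) : ℂ) * Complex.I) * Complex.exp (((u * x k : ℝ) : ℂ) * Complex.I) := by
      rw [← Complex.exp_add]
      congr 1
      push_cast
      ring
    rw [h3]
    ring
  have hInt : Integrable (fun u : ℝ => (((‖G u‖ ^ 2 * Real.exp (-u ^ 2) : ℝ)) : ℂ)) := by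
    simp_rw [hexp]
    apply integrable_finsetSum
    intro i _
    apply integrable_finsetSum
    intro k _
    exact (umv_gauss_int (x i - x k)).const_mul _
  have hIntR : Integrable (fun u : ℝ => ‖G u‖ ^ 2 * Real.exp (-u ^ 2)) := by
    have := hInt.re
    refine this.congr (Filter.Eventually.of_forall fun u => ?_)
    simp only [RCLike.re_eq_complex_re, Complex.ofReal_re]
  refine ⟨hIntR, ?_⟩
  have hval : ((∫ u : ℝ, ‖G u‖ ^ 2 * Real.exp (-u ^ 2) : ℝ) : ℂ) =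
      ∑ i ∈ s, ∑ k ∈ s, d i * (starRingEnd ℂ) (d k) *
        ((Real.sqrt Real.pi * Real.exp (-((x i - x k) ^ 2 / 4)) : ℝ) : ℂ) := by
    rw [← integral_complex_ofReal]
    have : (fun u : ℝ => (((‖G u‖ ^ 2 * Real.exp (-u ^ 2) : ℝ)) : ℂ)) = fun u : ℝ =>
      ∑ i ∈ s, ∑ k ∈ s, d i * (starRingEnd ℂ) (d k) *
        (Complex.exp (((-(u * (x i - x k)) : ℝ) : ℂ) * Complex.I) * ((Real.exp (-u ^ 2) : ℝ) : ℂ)) := by
      funext u; exact hexp u
    have h4 : ∫ u : ℝ, (((‖G u‖ ^ 2 * Real.exp (-u ^ 2) : ℝ)) : ℂ) = ∫ u : ℝ,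
      ∑ i ∈ s, ∑ k ∈ s, d i * (starRingEnd ℂ) (d k) *
        (Complex.exp (((-(u * (x i - x k)) : ℝ) : ℂ) * Complex.I) * ((Real.exp (-u ^ 2) : ℝ) : ℂ)) := by
      rw [this]
    refine Eq.trans (by rfl) (h4.trans ?_)
    rw [integral_finsetSum]
    · apply Finset.sum_congr rfl
      intro i _
      rw [integral_finsetSum]
      · apply Finset.sum_congr rfl
        intro k _
        rw [integral_const_mul, umv_gauss]
      · intro k _
        exact (umv_gauss_int (x i - x k)).const_mul _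
    · intro i _
      apply integrable_finsetSum
      intro k _
      exact (umv_gauss_int (x i - x k)).const_mul _
  have hnn : 0 ≤ ∫ u : ℝ, ‖G u‖ ^ 2 * Real.exp (-u ^ 2) :=
    integral_nonneg (fun u => mul_nonneg (sq_nonneg _) (Real.exp_pos _).le)
  calc ∫ u : ℝ, ‖G u‖ ^ 2 * Real.exp (-u ^ 2) = ‖((∫ u : ℝ, ‖G u‖ ^ 2 * Real.exp (-u ^ 2) : ℝ) : ℂ)‖ := by
        rw [Complex.norm_real, Real.norm_of_nonneg hnn]
    _ = ‖∑ i ∈ s, ∑ k ∈ s, d i * (starRingEnd ℂ) (d k) *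
        ((Real.sqrt Real.pi * Real.exp (-((x i - x k) ^ 2 / 4)) : ℝ) : ℂ)‖ := by rw [hval]
    _ ≤ ∑ i ∈ s, ∑ k ∈ s, ‖d i * (starRingEnd ℂ) (d k) *
        ((Real.sqrt Real.pi * Real.exp (-((x i - x k) ^ 2 / 4)) : ℝ) : ℂ)‖ := by
        refine (norm_sum_le _ _).trans (Finset.sum_le_sum fun i _ => norm_sum_le _ _)
    _ = Real.sqrt Real.pi * ∑ i ∈ s, ∑ k ∈ s, ‖d i‖ * ‖d k‖ * Real.exp (-((x i - x k) ^ 2 / 4)) := by
        rw [Finset.mul_sum]
        apply Finset.sum_congr rfl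
        intro i _
        rw [Finset.mul_sum]
        apply Finset.sum_congr rfl
        intro k _
        rw [norm_mul, norm_mul, RCLike.norm_conj, Complex.norm_real, Real.norm_of_nonneg (by positivity)]
        ring

theorem umv_finite {ι : Type} (s : Finset ι) (x : ι → ℝ) (d : ι → ℂ) (t0 : ℝ) :
    ∫ t in t0..(t0 + 1), ‖∑ i ∈ s, d i * Complex.exp (((-(t * x i) : ℝ) : ℂ) * Complex.I)‖ ^ 2 ≤
      Real.exp 1 * (Real.sqrt Real.pi * ∑ i ∈ s, ∑ k ∈ s, ‖d i‖ * ‖d k‖ * Real.exp (-((x i - x k) ^ 2 / 4))) := by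
  set c : ι → ℂ := fun i => d i * Complex.exp (((-(t0 * x i) : ℝ) : ℂ) * Complex.I) with hc
  have hcn : ∀ i, ‖c i‖ = ‖d i‖ := by
    intro i
    rw [hc]
    simp only
    rw [norm_mul, Complex.norm_exp_ofReal_mul_I, mul_one]
  have hshift : ∫ t in t0..(t0 + 1), ‖∑ i ∈ s, d i * Complex.exp (((-(t * x i) : ℝ) : ℂ) * Complex.I)‖ ^ 2 =
      ∫ u in (0 : ℝ)..1, ‖∑ i ∈ s, c i * Complex.exp (((-(u * x i) : ℝ) : ℂ) * Complex.I)‖ ^ 2 := by
    have h := intervalIntegral.integral_comp_add_left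
      (fun t : ℝ => ‖∑ i ∈ s, d i * Complex.exp (((-(t * x i) : ℝ) : ℂ) * Complex.I)‖ ^ 2) t0 (a := 0) (b := 1)
    rw [add_zero] at h
    rw [← h]
    apply intervalIntegral.integral_congr
    intro u _
    simp only
    congr 2
    apply Finset.sum_congr rfl
    intro i _
    rw [hc]
    simp only
    rw [mul_assoc, ← Complex.exp_add]
    congr 2
    push_cast
    ring
  obtain ⟨hI, hle⟩ := umv_finite_gauss s x c
  have hle' : ∫ u : ℝ, ‖∑ i ∈ s, c i * Complex.exp (((-(u * x i) : ℝ) : ℂ) * Complex.I)‖ ^ 2 * Real.exp (-u ^ 2) ≤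
      Real.sqrt Real.pi * ∑ i ∈ s, ∑ k ∈ s, ‖d i‖ * ‖d k‖ * Real.exp (-((x i - x k) ^ 2 / 4)) := by
    simpa only [hcn] using hle
  rw [hshift]
  have hcont : Continuous fun u : ℝ => ‖∑ i ∈ s, c i * Complex.exp (((-(u * x i) : ℝ) : ℂ) * Complex.I)‖ ^ 2 := by
    fun_prop
  have h1 : ∫ u in (0 : ℝ)..1, ‖∑ i ∈ s, c i * Complex.exp (((-(u * x i) : ℝ) : ℂ) * Complex.I)‖ ^ 2 ≤
      ∫ u in (0 : ℝ)..1, Real.exp 1 * (‖∑ i ∈ s, c i * Complex.exp (((-(u * x i) : ℝ) : ℂ) * Complex.I)‖ ^ 2 * Real.exp (-u ^ 2)) := by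
    apply intervalIntegral.integral_mono_on (by norm_num)
    · exact hcont.intervalIntegrable _ _
    · exact (by fun_prop : Continuous fun u : ℝ => Real.exp 1 * (‖∑ i ∈ s, c i * Complex.exp (((-(u * x i) : ℝ) : ℂ) * Complex.I)‖ ^ 2 * Real.exp (-u ^ 2))).intervalIntegrable _ _
    · intro u hu
      have h2 : 1 ≤ Real.exp 1 * Real.exp (-u ^ 2) := by
        rw [← Real.exp_add]
        apply Real.one_le_exp
        nlinarith [hu.1, hu.2]
      have h3 : 0 ≤ ‖∑ i ∈ s, c i * Complex.exp (((-(u * x i) : ℝ) : ℂ) * Complex.I)‖ ^ 2 := sq_nonneg _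
      nlinarith
  refine h1.trans ?_
  rw [intervalIntegral.integral_const_mul]
  apply mul_le_mul_of_nonneg_left _ (Real.exp_pos _).le
  refine le_trans ?_ hle'
  rw [intervalIntegral.integral_of_le (by norm_num : (0 : ℝ) ≤ 1)]
  exact setIntegral_le_integral hI (Filter.Eventually.of_forall fun u => mul_nonneg (sq_nonneg _) (Real.exp_pos _).le)

theorem unit_mv : ∃ C : ℝ, 0 < C ∧ ∀ (ι : Type) (x : ι → ℝ) (d : ι → ℂ) (b : ℕ → ℝ),
    (∀ i, 0 ≤ x i) → Summable (fun i => ‖d i‖) →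
    (∀ (j : ℕ) (s : Finset ι), (∀ i ∈ s, (j : ℝ) ≤ x i ∧ x i < j + 1) → ∑ i ∈ s, ‖d i‖ ≤ b j) →
    Summable (fun j => b j ^ 2) → ∀ t0 : ℝ,
    ∫ t in t0..(t0 + 1), ‖∑' i, d i * Complex.exp (((-(t * x i) : ℝ) : ℂ) * Complex.I)‖ ^ 2 ≤
      C * ∑' j, b j ^ 2 := by
  have hr := umv_r_lt
  have hr' : 0 < 1 - Real.exp (-1) := by linarith
  refine ⟨Real.exp 1 * (Real.sqrt Real.pi * (Real.exp 2 * (2 * (1 - Real.exp (-1))⁻¹))), by positivity, ?_⟩
  intro ι x d b hx hd hb hbs t0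
  set C : ℝ := Real.exp 1 * (Real.sqrt Real.pi * (Real.exp 2 * (2 * (1 - Real.exp (-1))⁻¹))) with hC
  have hfin : ∀ s : Finset ι,
      ∫ t in t0..(t0 + 1), ‖∑ i ∈ s, d i * Complex.exp (((-(t * x i) : ℝ) : ℂ) * Complex.I)‖ ^ 2 ≤
        C * ∑' j, b j ^ 2 := by
    intro s
    refine (umv_finite s x d t0).trans ?_
    have h := umv_double s x (fun i => ‖d i‖) b hx (fun i => norm_nonneg _) hb hbs
    calc Real.exp 1 * (Real.sqrt Real.pi * ∑ i ∈ s, ∑ k ∈ s, ‖d i‖ * ‖d k‖ * Real.exp (-((x i - x k) ^ 2 / 4)))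
        ≤ Real.exp 1 * (Real.sqrt Real.pi * (Real.exp 2 * (2 * (1 - Real.exp (-1))⁻¹) * ∑' j, b j ^ 2)) := by
          apply mul_le_mul_of_nonneg_left _ (Real.exp_pos _).le
          exact mul_le_mul_of_nonneg_left h (Real.sqrt_nonneg _)
      _ = _ := by rw [hC]; ring
  set M : ℝ := ∑' i, ‖d i‖ with hM
  have hM0 : 0 ≤ M := tsum_nonneg (fun i => norm_nonneg _)
  have hnorm : ∀ (t : ℝ) (i : ι), ‖d i * Complex.exp (((-(t * x i) : ℝ) : ℂ) * Complex.I)‖ = ‖d i‖ := by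
    intro t i
    rw [norm_mul, Complex.norm_exp_ofReal_mul_I, mul_one]
  have hsumt : ∀ t : ℝ, Summable (fun i => d i * Complex.exp (((-(t * x i) : ℝ) : ℂ) * Complex.I)) := by
    intro t
    apply Summable.of_norm
    simp_rw [hnorm]
    exact hd
  have hcont : Continuous fun t : ℝ => ∑' i, d i * Complex.exp (((-(t * x i) : ℝ) : ℂ) * Complex.I) := by
    apply continuous_tsum (u := fun i => ‖d i‖)
    · intro i; fun_prop
    · exact hd
    · intro i t
      exact (hnorm t i).le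
  apply le_of_forall_pos_le_add
  intro ε hε
  -- choose a finite set with small tail
  obtain ⟨δ, hδ, hδ1, hδ2⟩ : ∃ δ : ℝ, 0 < δ ∧ δ ≤ 1 ∧ (2 * M + 1) * δ ≤ ε := by
    refine ⟨min 1 (ε / (2 * M + 1)), lt_min one_pos (by positivity), min_le_left _ _, ?_⟩
    calc (2 * M + 1) * min 1 (ε / (2 * M + 1)) ≤ (2 * M + 1) * (ε / (2 * M + 1)) :=
          mul_le_mul_of_nonneg_left (min_le_right _ _) (by positivity)
      _ = ε := by field_simp
  obtain ⟨s, hs⟩ : ∃ s : Finset ι, M - ∑ i ∈ s, ‖d i‖ < δ := by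
    have h := hd.hasSum.eventually (lt_mem_nhds (show M - δ < ∑' i, ‖d i‖ by rw [← hM]; linarith))
    obtain ⟨s, hs⟩ := h.exists
    exact ⟨s, by linarith⟩
  have htail : ∀ t : ℝ, ‖∑' i, d i * Complex.exp (((-(t * x i) : ℝ) : ℂ) * Complex.I)‖ ≤
      ‖∑ i ∈ s, d i * Complex.exp (((-(t * x i) : ℝ) : ℂ) * Complex.I)‖ + δ := by
    intro t
    rw [← (hsumt t).sum_add_tsum_compl (s := s)]
    refine (norm_add_le _ _).trans ?_
    gcongr
    have h1 : Summable (fun i : ((s : Set ι)ᶜ : Set ι) => ‖d i‖) := hd.subtype _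
    have h2 : ‖∑' i : ((s : Set ι)ᶜ : Set ι), d i * Complex.exp (((-(t * x i) : ℝ) : ℂ) * Complex.I)‖ ≤
        ∑' i : ((s : Set ι)ᶜ : Set ι), ‖d i‖ := by
      refine (norm_tsum_le_tsum_norm ?_).trans ?_
      · simp_rw [hnorm]; exact h1
      · simp_rw [hnorm]; exact le_rfl
    have h3 : ∑ i ∈ s, ‖d i‖ + ∑' i : ((s : Set ι)ᶜ : Set ι), ‖d i‖ = M := hd.sum_add_tsum_compl
    linarith
  have hFs : ∀ t : ℝ, ‖∑ i ∈ s, d i * Complex.exp (((-(t * x i) : ℝ) : ℂ) * Complex.I)‖ ≤ M := by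
    intro t
    refine (norm_sum_le _ _).trans ?_
    simp_rw [hnorm]
    exact hd.sum_le_tsum _ (fun i _ => norm_nonneg _)
  have hsq : ∀ t : ℝ, ‖∑' i, d i * Complex.exp (((-(t * x i) : ℝ) : ℂ) * Complex.I)‖ ^ 2 ≤
      ‖∑ i ∈ s, d i * Complex.exp (((-(t * x i) : ℝ) : ℂ) * Complex.I)‖ ^ 2 + ε := by
    intro t
    have h1 := htail t
    have h2 := hFs t
    have h3 := norm_nonneg (∑' i, d i * Complex.exp (((-(t * x i) : ℝ) : ℂ) * Complex.I))
    have h4 := norm_nonneg (∑ i ∈ s, d i * Complex.exp (((-(t * x i) : ℝ) : ℂ) * Complex.I))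
    calc ‖∑' i, d i * Complex.exp (((-(t * x i) : ℝ) : ℂ) * Complex.I)‖ ^ 2
        ≤ (‖∑ i ∈ s, d i * Complex.exp (((-(t * x i) : ℝ) : ℂ) * Complex.I)‖ + δ) ^ 2 :=
          pow_le_pow_left₀ h3 h1 2
      _ ≤ _ := by nlinarith
  calc ∫ t in t0..(t0 + 1), ‖∑' i, d i * Complex.exp (((-(t * x i) : ℝ) : ℂ) * Complex.I)‖ ^ 2
      ≤ ∫ t in t0..(t0 + 1), (‖∑ i ∈ s, d i * Complex.exp (((-(t * x i) : ℝ) : ℂ) * Complex.I)‖ ^ 2 + ε) := by
        apply intervalIntegral.integral_mono_on (by linarith)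
        · exact (hcont.norm.pow 2).intervalIntegrable _ _
        · exact (by fun_prop : Continuous fun t : ℝ => (‖∑ i ∈ s, d i * Complex.exp (((-(t * x i) : ℝ) : ℂ) * Complex.I)‖ ^ 2 + ε)).intervalIntegrable _ _
        · intro t _
          exact hsq t
    _ = (∫ t in t0..(t0 + 1), ‖∑ i ∈ s, d i * Complex.exp (((-(t * x i) : ℝ) : ℂ) * Complex.I)‖ ^ 2) + ε := by
        rw [intervalIntegral.integral_add]
        · simp
        · exact (by fun_prop : Continuous fun t : ℝ => ‖∑ i ∈ s, d i * Complex.exp (((-(t * x i) : ℝ) : ℂ) * Complex.I)‖ ^ 2).intervalIntegrable _ _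
        · exact continuous_const.intervalIntegrable _ _
    _ ≤ C * ∑' j, b j ^ 2 + ε := by
        have := hfin s
        linarith

end Pool.Agent.MRG
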