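import Pool.Agent.MRG.Thin

set_option autoImplicit false

/-!
# Module Vdc: van der Corput's differencing in the direction of the real axis

`bb Y` are all Gaussian integers with `|g| ≤ Y` (including `0`).  `Dh h F g = F(g+h) conj F(g)`, `Dl [h₁,…,h_n] F = D_{h_n} ⋯ D_{h_1} F`.

* `vdc`: `H ∑_g F(g) = ∑_{g ∈ bb (Y+H)} ∑_{j<H} F(g+j)`, Cauchy–Schwarz, `#bb (2Y) ≤ C Y²`,
  `∑_g |∑_j F(g+j)|² = ∑_{j,j'} ∑_g F(g+j) conj F(g+j') ≤ H #bb Y + 2 H ∑_{1 ≤ h < H} |∑_g F(g+h) conj F(g)|`.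
* `vdc_iter`: induction on `n`.  First (no condition on the first shift) for all `n`: if `‖∑ Dl hs F‖ ≤ B Y²` for all lists `hs` of length `n` with entries in
  `[1,H)`, then `‖∑ F‖ ≤ C Y² (1/H + B)^(1/2^n)` (`n = 0`: `B ≤ …` with `C ≥ 1`).  Then one more step with shifts `h₁ < H₁`; for `h₁ < h₀` use the trivial bound.
-/

namespace Pool.Agent.MRG

open Pool.Agent.GaussPret

/-- all Gaussian integers with `|g| ≤ Y` -/
noncomputable def bb (Y : ℝ) : Finset GaussianInt := by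
  classical exact insert 0 (ball Y)

/-- one differencing step -/
noncomputable def Dh (h : ℕ) (F : GaussianInt → ℂ) (g : GaussianInt) : ℂ :=
  F (g + (h : GaussianInt)) * (starRingEnd ℂ) (F g)

/-- iterated differencing -/
noncomputable def Dl : List ℕ → (GaussianInt → ℂ) → (GaussianInt → ℂ)
  | [], F => F
  | h :: t, F => Dl t (Dh h F)

theorem vd_ab_zero : ab 0 = 0 := by simp [ab]

theorem vd_mem {Y : ℝ} (hY : 0 ≤ Y) {g : GaussianInt} : g ∈ bb Y ↔ ab g ≤ Y := by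
  classical
  unfold bb
  rw [Finset.mem_insert, mem_ball']
  constructor
  · rintro (rfl | h)
    · rw [vd_ab_zero]
      exact hY
    · exact h.2
  · intro h
    by_cases h0 : g = 0
    · exact Or.inl h0
    · exact Or.inr ⟨h0, h⟩

theorem vd_card {Y : ℝ} (hY : 1 ≤ Y) : ((bb Y).card : ℝ) ≤ 10 * Y ^ 2 := by
  classical
  have h1 : (bb Y).card ≤ (ball Y).card + 1 := by
    unfold bb
    exact Finset.card_insert_le _ _
  have h2 := card_ball_le' Y
  have h3 : ((bb Y).card : ℝ) ≤ (ball Y).card + 1 := by exact_mod_cast h1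
  nlinarith

theorem vd_ab_nat (j : ℕ) : ab (j : GaussianInt) = j := by
  rw [ab, map_natCast, Complex.norm_natCast]

theorem vd_ab_sub (g g' : GaussianInt) : ab (g - g') ≤ ab g + ab g' := by
  rw [ab, map_sub]
  exact norm_sub_le _ _

/-- translation of a sum of a function supported in `bb Y` -/
theorem vd_shift {Y : ℝ} (hY : 0 ≤ Y) (G : GaussianInt → ℂ) (hG : ∀ g, Y < ab g → G g = 0)
    (j : ℕ) (hj : (j : ℝ) ≤ Y) : ∑ g ∈ bb (2 * Y), G (g + (j : GaussianInt)) =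
      ∑ g ∈ bb Y, G g := by
  classical
  have h1 : ∑ g ∈ bb (2 * Y), G (g + (j : GaussianInt)) =
      ∑ g ∈ (bb (2 * Y)).image (fun g => g + (j : GaussianInt)), G g := by
    rw [Finset.sum_image]
    intro a _ b _ hab
    exact add_right_cancel hab
  rw [h1]
  symm
  refine Finset.sum_subset ?_ ?_
  · intro g hg
    rw [vd_mem hY] at hg
    rw [Finset.mem_image]
    refine ⟨g - (j : GaussianInt), ?_, sub_add_cancel _ _⟩
    rw [vd_mem (by linarith)]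
    have h2 := vd_ab_sub g (j : GaussianInt)
    rw [vd_ab_nat] at h2
    linarith
  · intro g _ hg
    rw [vd_mem hY, not_le] at hg
    exact hG g hg

theorem vd_corr {Y : ℝ} (hY : 0 ≤ Y) (F : GaussianInt → ℂ) (hF : ∀ g, Y < ab g → F g = 0)
    (j j' : ℕ) (hj' : (j' : ℝ) ≤ Y) (h : j' ≤ j) :
    ∑ g ∈ bb (2 * Y), F (g + (j : GaussianInt)) * (starRingEnd ℂ) (F (g + (j' : GaussianInt))) =
      ∑ g ∈ bb Y, Dh (j - j') F g := by
  rw [← vd_shift hY (Dh (j - j') F) ?_ j' hj']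
  · refine Finset.sum_congr rfl fun g _ => ?_
    unfold Dh
    have h1 : g + (j : GaussianInt) = g + (j' : GaussianInt) + ((j - j' : ℕ) : GaussianInt) := by
      rw [add_assoc, ← Nat.cast_add]
      congr 2
      omega
    rw [h1]
  · intro g hg
    unfold Dh
    rw [hF g hg, map_zero, mul_zero]

theorem vd_inner {Y : ℝ} (hY : 0 ≤ Y) (F : GaussianInt → ℂ) (hF : ∀ g, Y < ab g → F g = 0)
    (H : ℕ) (hH : (H : ℝ) ≤ Y) :
    ∑ g ∈ bb (2 * Y), ‖∑ j ∈ Finset.range H, F (g + (j : GaussianInt))‖ ^ 2 ≤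
      H * (‖∑ g ∈ bb Y, Dh 0 F g‖ + 2 * ∑ h ∈ Finset.Ico 1 H, ‖∑ g ∈ bb Y, Dh h F g‖) := by
  set T : ℕ → ℝ := fun h => ‖∑ g ∈ bb Y, Dh h F g‖ with hT
  have hT0 : ∀ h, 0 ≤ T h := fun h => norm_nonneg _
  have h1 : ((∑ g ∈ bb (2 * Y), ‖∑ j ∈ Finset.range H, F (g + (j : GaussianInt))‖ ^ 2 : ℝ) : ℂ) =
      ∑ j ∈ Finset.range H, ∑ j' ∈ Finset.range H, ∑ g ∈ bb (2 * Y),
        F (g + (j : GaussianInt)) * (starRingEnd ℂ) (F (g + (j' : GaussianInt))) := by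
    push_cast
    have h2 : ∀ g : GaussianInt, ((‖∑ j ∈ Finset.range H, F (g + (j : GaussianInt))‖ : ℝ) : ℂ) ^ 2 =
        ∑ j ∈ Finset.range H, ∑ j' ∈ Finset.range H,
          F (g + (j : GaussianInt)) * (starRingEnd ℂ) (F (g + (j' : GaussianInt))) := by
      intro g
      have h3 := RCLike.mul_conj (∑ j ∈ Finset.range H, F (g + (j : GaussianInt)))
      rw [map_sum, Finset.sum_mul_sum] at h3
      exact h3.symm
    rw [Finset.sum_congr rfl fun g _ => h2 g, Finset.sum_comm]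
    exact Finset.sum_congr rfl fun j _ => Finset.sum_comm
  have h2 : ∑ g ∈ bb (2 * Y), ‖∑ j ∈ Finset.range H, F (g + (j : GaussianInt))‖ ^ 2 ≤
      ∑ j ∈ Finset.range H, ∑ j' ∈ Finset.range H, T (if j' ≤ j then j - j' else j' - j) := by
    have h3 : ∑ g ∈ bb (2 * Y), ‖∑ j ∈ Finset.range H, F (g + (j : GaussianInt))‖ ^ 2 =
        ‖((∑ g ∈ bb (2 * Y), ‖∑ j ∈ Finset.range H, F (g + (j : GaussianInt))‖ ^ 2 : ℝ) : ℂ)‖ := by
      rw [Complex.norm_real, Real.norm_of_nonneg]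
      exact Finset.sum_nonneg fun _ _ => by positivity
    rw [h3, h1]
    refine (norm_sum_le _ _).trans (Finset.sum_le_sum fun j hj => ?_)
    refine (norm_sum_le _ _).trans (Finset.sum_le_sum fun j' hj' => ?_)
    rw [Finset.mem_range] at hj hj'
    have hjY : (j : ℝ) ≤ Y := by
      have : (j : ℝ) ≤ H := by exact_mod_cast hj.le
      linarith
    have hjY' : (j' : ℝ) ≤ Y := by
      have : (j' : ℝ) ≤ H := by exact_mod_cast hj'.le
      linarith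
    by_cases h : j' ≤ j
    · rw [if_pos h, vd_corr hY F hF j j' hjY' h]
    · rw [if_neg h]
      have h4 := vd_corr hY F hF j' j hjY (by omega)
      rw [hT]
      simp only
      rw [← h4, ← RCLike.norm_conj, map_sum]
      refine le_of_eq ?_
      congr 1
      refine Finset.sum_congr rfl fun g _ => ?_
      rw [map_mul, Complex.conj_conj]
      ring
  refine h2.trans ?_
  have h3 : ∀ j ∈ Finset.range H, ∑ j' ∈ Finset.range H, T (if j' ≤ j then j - j' else j' - j) ≤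
      T 0 + 2 * ∑ h ∈ Finset.Ico 1 H, T h := by
    intro j hj
    rw [Finset.mem_range] at hj
    have h4 : Finset.range H = (Finset.range j ∪ {j}) ∪ Finset.Ico (j + 1) H := by
      ext x
      simp only [Finset.mem_range, Finset.mem_union, Finset.mem_singleton, Finset.mem_Ico]
      omega
    have hd1 : Disjoint (Finset.range j ∪ {j}) (Finset.Ico (j + 1) H) := by
      rw [Finset.disjoint_left]
      intro x hx
      simp only [Finset.mem_range, Finset.mem_union, Finset.mem_singleton, Finset.mem_Ico] at hx ⊢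
      omega
    have hd2 : Disjoint (Finset.range j) ({j} : Finset ℕ) := by
      rw [Finset.disjoint_singleton_right, Finset.mem_range]
      omega
    rw [h4, Finset.sum_union hd1, Finset.sum_union hd2, Finset.sum_singleton]
    have e1 : ∑ j' ∈ Finset.range j, T (if j' ≤ j then j - j' else j' - j) ≤
        ∑ h ∈ Finset.Ico 1 H, T h := by
      have e2 : ∑ j' ∈ Finset.range j, T (if j' ≤ j then j - j' else j' - j) =
          ∑ h ∈ (Finset.range j).image (fun j' => j - j'), T h := by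
        rw [Finset.sum_image]
        · refine Finset.sum_congr rfl fun x hx => ?_
          rw [Finset.mem_range] at hx
          rw [if_pos hx.le]
        · intro a ha b hb hab
          rw [Finset.mem_coe, Finset.mem_range] at ha hb
          have hab' : j - a = j - b := hab
          omega
      rw [e2]
      refine Finset.sum_le_sum_of_subset_of_nonneg ?_ fun _ _ _ => hT0 _
      intro x hx
      rw [Finset.mem_image] at hx
      obtain ⟨y, hy, rfl⟩ := hx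
      rw [Finset.mem_range] at hy
      rw [Finset.mem_Ico]
      omega
    have e3 : ∑ j' ∈ Finset.Ico (j + 1) H, T (if j' ≤ j then j - j' else j' - j) ≤
        ∑ h ∈ Finset.Ico 1 H, T h := by
      have e2 : ∑ j' ∈ Finset.Ico (j + 1) H, T (if j' ≤ j then j - j' else j' - j) =
          ∑ h ∈ (Finset.Ico (j + 1) H).image (fun j' => j' - j), T h := by
        rw [Finset.sum_image]
        · refine Finset.sum_congr rfl fun x hx => ?_
          rw [Finset.mem_Ico] at hx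
          rw [if_neg (by omega)]
        · intro a ha b hb hab
          rw [Finset.mem_coe, Finset.mem_Ico] at ha hb
          have hab' : a - j = b - j := hab
          omega
      rw [e2]
      refine Finset.sum_le_sum_of_subset_of_nonneg ?_ fun _ _ _ => hT0 _
      intro x hx
      rw [Finset.mem_image] at hx
      obtain ⟨y, hy, rfl⟩ := hx
      rw [Finset.mem_Ico] at hy
      rw [Finset.mem_Ico]
      omega
    rw [if_pos le_rfl, Nat.sub_self]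
    linarith
  refine (Finset.sum_le_sum h3).trans (le_of_eq ?_)
  rw [Finset.sum_const, nsmul_eq_mul, Finset.card_range]

theorem vdc : ∃ C : ℝ, 0 < C ∧ ∀ (F : GaussianInt → ℂ) (Y : ℝ) (H : ℕ), 1 ≤ Y → 1 ≤ H →
    (H : ℝ) ≤ Y → (∀ g, ‖F g‖ ≤ 1) → (∀ g, Y < ab g → F g = 0) →
    ‖∑ g ∈ bb Y, F g‖ ^ 2 ≤ C * Y ^ 2 / H * (Y ^ 2 +
      ∑ h ∈ Finset.Ico 1 H, ‖∑ g ∈ bb Y, Dh h F g‖) := by
  refine ⟨400, by norm_num, ?_⟩
  intro F Y H hY hH hHY hF1 hF
  have hY0 : 0 ≤ Y := by linarith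
  have hH0 : (0 : ℝ) < H := by exact_mod_cast hH
  set S := ∑ g ∈ bb Y, F g with hS
  set Sh := ∑ h ∈ Finset.Ico 1 H, ‖∑ g ∈ bb Y, Dh h F g‖ with hSh
  have hSh0 : 0 ≤ Sh := Finset.sum_nonneg fun _ _ => norm_nonneg _
  have h1 : (H : ℂ) * S = ∑ g ∈ bb (2 * Y), ∑ j ∈ Finset.range H, F (g + (j : GaussianInt)) := by
    rw [Finset.sum_comm]
    have h2 : ∀ j ∈ Finset.range H, ∑ g ∈ bb (2 * Y), F (g + (j : GaussianInt)) = S := by
      intro j hj
      rw [Finset.mem_range] at hj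
      have : (j : ℝ) ≤ H := by exact_mod_cast hj.le
      exact vd_shift hY0 F hF j (by linarith)
    rw [Finset.sum_congr rfl h2, Finset.sum_const, nsmul_eq_mul, Finset.card_range]
  have h2 : (H * ‖S‖) ^ 2 ≤ ((bb (2 * Y)).card : ℝ) *
      ∑ g ∈ bb (2 * Y), ‖∑ j ∈ Finset.range H, F (g + (j : GaussianInt))‖ ^ 2 := by
    have h3 : (H : ℝ) * ‖S‖ ≤ ∑ g ∈ bb (2 * Y), ‖∑ j ∈ Finset.range H, F (g + (j : GaussianInt))‖ := by
      have h4 : (H : ℝ) * ‖S‖ = ‖(H : ℂ) * S‖ := by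
        rw [norm_mul, Complex.norm_natCast]
      rw [h4, h1]
      exact norm_sum_le _ _
    exact (pow_le_pow_left₀ (by positivity) h3 2).trans sq_sum_le_card_mul_sum_sq
  have h3 := vd_inner hY0 F hF H hHY
  have h4 : ‖∑ g ∈ bb Y, Dh 0 F g‖ ≤ 10 * Y ^ 2 := by
    refine (norm_sum_le _ _).trans ?_
    calc ∑ g ∈ bb Y, ‖Dh 0 F g‖ ≤ ∑ g ∈ bb Y, (1 : ℝ) := by
          refine Finset.sum_le_sum fun g _ => ?_
          unfold Dh
          rw [norm_mul, RCLike.norm_conj]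
          exact mul_le_one₀ (hF1 _) (norm_nonneg _) (hF1 _)
      _ = ((bb Y).card : ℝ) := by rw [Finset.sum_const, nsmul_eq_mul, mul_one]
      _ ≤ _ := vd_card hY
  have h5 : ((bb (2 * Y)).card : ℝ) ≤ 40 * Y ^ 2 := by
    have := vd_card (Y := 2 * Y) (by linarith)
    linarith
  have h6 : (H * ‖S‖) ^ 2 ≤ (40 * Y ^ 2) * (H * (10 * Y ^ 2 + 2 * Sh)) := by
    refine h2.trans (mul_le_mul h5 (h3.trans ?_) (Finset.sum_nonneg fun _ _ => by positivity)
      (by positivity))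
    refine mul_le_mul_of_nonneg_left ?_ hH0.le
    linarith
  have h7 : ‖S‖ ^ 2 * H ≤ (40 * Y ^ 2) * (10 * Y ^ 2 + 2 * Sh) := by
    refine le_of_mul_le_mul_right ?_ hH0
    calc ‖S‖ ^ 2 * H * H = (H * ‖S‖) ^ 2 := by ring
      _ ≤ (40 * Y ^ 2) * (H * (10 * Y ^ 2 + 2 * Sh)) := h6
      _ = _ := by ring
  have h8 : ‖S‖ ^ 2 ≤ (40 * Y ^ 2) * (10 * Y ^ 2 + 2 * Sh) / H := by
    rw [le_div_iff₀ hH0]
    exact h7
  refine h8.trans ?_
  rw [div_mul_eq_mul_div]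
  refine div_le_div_of_nonneg_right ?_ hH0.le
  nlinarith [mul_nonneg (sq_nonneg Y) hSh0]

theorem vd_Dh_le {F : GaussianInt → ℂ} (hF1 : ∀ g, ‖F g‖ ≤ 1) (h : ℕ) (g : GaussianInt) :
    ‖Dh h F g‖ ≤ 1 := by
  unfold Dh
  rw [norm_mul, RCLike.norm_conj]
  exact mul_le_one₀ (hF1 _) (norm_nonneg _) (hF1 _)

theorem vd_Dh_supp {F : GaussianInt → ℂ} {Y : ℝ} (hF : ∀ g, Y < ab g → F g = 0) (h : ℕ)
    (g : GaussianInt) (hg : Y < ab g) : Dh h F g = 0 := by
  unfold Dh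
  rw [hF g hg, map_zero, mul_zero]

theorem vd_sqrt {a c x y : ℝ} (hc : 0 ≤ c) (hx : 0 ≤ x) (hy : 0 ≤ y)
    (h : a ^ 2 ≤ c * y ^ 2 * x) : a ≤ Real.sqrt c * y * x ^ ((1 : ℝ) / 2) := by
  rw [← Real.sqrt_eq_rpow]
  refine le_of_sq_le_sq ?_ (by positivity)
  calc a ^ 2 ≤ c * y ^ 2 * x := h
    _ = (Real.sqrt c * y * Real.sqrt x) ^ 2 := by
        rw [mul_pow, mul_pow, Real.sq_sqrt hc, Real.sq_sqrt hx]

theorem vd_iter0 (n : ℕ) : ∃ C : ℝ, 1 ≤ C ∧ ∀ (F : GaussianInt → ℂ) (Y B : ℝ) (H : ℕ),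
    1 ≤ Y → 0 ≤ B → 1 ≤ H → (H : ℝ) ≤ Y → (∀ g, ‖F g‖ ≤ 1) → (∀ g, Y < ab g → F g = 0) →
    (∀ hs : List ℕ, hs.length = n → (∀ h ∈ hs, 1 ≤ h ∧ h < H) →
      ‖∑ g ∈ bb Y, Dl hs F g‖ ≤ B * Y ^ 2) →
    ‖∑ g ∈ bb Y, F g‖ ≤ C * Y ^ 2 * (1 / (H : ℝ) + B) ^ ((1 : ℝ) / 2 ^ n) := by
  induction n with
  | zero =>
    refine ⟨1, le_rfl, ?_⟩
    intro F Y B H hY hB hH hHY hF1 hF hs
    have h1 := hs [] rfl (by simp)
    have h2 : ‖∑ g ∈ bb Y, F g‖ ≤ B * Y ^ 2 := h1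
    refine h2.trans ?_
    rw [pow_zero, div_one, Real.rpow_one]
    have : (0 : ℝ) ≤ 1 / (H : ℝ) := by positivity
    nlinarith [sq_nonneg Y]
  | succ n ih =>
    obtain ⟨Cn, hCn, hn⟩ := ih
    obtain ⟨C, hC, hv⟩ := vdc
    refine ⟨max 1 (Real.sqrt (C * (1 + Cn))), le_max_left _ _, ?_⟩
    intro F Y B H hY hB hH hHY hF1 hF hs
    have hH0 : (0 : ℝ) < H := by exact_mod_cast hH
    have hH1 : 1 / (H : ℝ) ≤ 1 := by
      rw [div_le_one hH0]
      exact_mod_cast hH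
    set X : ℝ := (1 / (H : ℝ) + B) ^ ((1 : ℝ) / 2 ^ n) with hX
    have hX0 : 0 ≤ X := by positivity
    have hXH : 1 / (H : ℝ) ≤ X := by
      have h1 : 1 / (H : ℝ) ≤ (1 / (H : ℝ)) ^ ((1 : ℝ) / 2 ^ n) := by
        refine Real.self_le_rpow_of_le_one (by positivity) hH1 ?_
        rw [div_le_one (by positivity)]
        exact one_le_pow₀ (by norm_num)
      refine h1.trans ?_
      exact Real.rpow_le_rpow (by positivity) (by linarith) (by positivity)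
    have h1 : ∀ h ∈ Finset.Ico 1 H, ‖∑ g ∈ bb Y, Dh h F g‖ ≤ Cn * Y ^ 2 * X := by
      intro h hh
      rw [Finset.mem_Ico] at hh
      refine hn (Dh h F) Y B H hY hB hH hHY (vd_Dh_le hF1 h) (vd_Dh_supp hF h) ?_
      intro hs' hlen hmem
      refine hs (h :: hs') (by rw [List.length_cons, hlen]) ?_
      intro x hx
      rcases List.mem_cons.1 hx with rfl | hx
      · exact hh
      · exact hmem x hx
    have h2 := hv F Y H hY hH hHY hF1 hF
    have h3 : ∑ h ∈ Finset.Ico 1 H, ‖∑ g ∈ bb Y, Dh h F g‖ ≤ H * (Cn * Y ^ 2 * X) := by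
      refine (Finset.sum_le_sum h1).trans ?_
      rw [Finset.sum_const, nsmul_eq_mul, Nat.card_Ico]
      refine mul_le_mul_of_nonneg_right ?_ (by positivity)
      exact_mod_cast Nat.sub_le _ _
    have h4 : ‖∑ g ∈ bb Y, F g‖ ^ 2 ≤ (C * (1 + Cn)) * (Y ^ 2) ^ 2 * X := by
      refine h2.trans ?_
      calc C * Y ^ 2 / H * (Y ^ 2 + ∑ h ∈ Finset.Ico 1 H, ‖∑ g ∈ bb Y, Dh h F g‖)
          ≤ C * Y ^ 2 / H * (Y ^ 2 + H * (Cn * Y ^ 2 * X)) :=
            mul_le_mul_of_nonneg_left (by linarith) (by positivity)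
        _ = C * (Y ^ 2) ^ 2 * (1 / H + Cn * X) := by
            field_simp
        _ ≤ C * (Y ^ 2) ^ 2 * (X + Cn * X) :=
            mul_le_mul_of_nonneg_left (by linarith) (by positivity)
        _ = _ := by ring
    have h5 := vd_sqrt (by positivity) hX0 (sq_nonneg Y) h4
    have h6 : X ^ ((1 : ℝ) / 2) = (1 / (H : ℝ) + B) ^ ((1 : ℝ) / 2 ^ (n + 1)) := by
      rw [hX, ← Real.rpow_mul (by positivity)]
      congr 1
      rw [pow_succ]
      field_simp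
    rw [h6] at h5
    refine h5.trans ?_
    refine mul_le_mul_of_nonneg_right ?_ (by positivity)
    exact mul_le_mul_of_nonneg_right (le_max_right _ _) (sq_nonneg Y)

theorem vdc_iter (n : ℕ) : ∃ C : ℝ, 0 < C ∧ ∀ (F : GaussianInt → ℂ) (Y B : ℝ) (h0 H1 H : ℕ),
    1 ≤ Y → 0 ≤ B → 1 ≤ h0 → h0 ≤ H1 → (H1 : ℝ) ≤ Y → 1 ≤ H → (H : ℝ) ≤ Y →
    (∀ g, ‖F g‖ ≤ 1) → (∀ g, Y < ab g → F g = 0) →
    (∀ h1 ∈ Finset.Ico h0 H1, ∀ hs : List ℕ, hs.length = n → (∀ h ∈ hs, 1 ≤ h ∧ h < H) →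
      ‖∑ g ∈ bb Y, Dl (h1 :: hs) F g‖ ≤ B * Y ^ 2) →
    ‖∑ g ∈ bb Y, F g‖ ≤ C * Y ^ 2 *
      (((h0 : ℝ) / H1 + (1 / (H : ℝ) + B) ^ ((1 : ℝ) / 2 ^ n)) ^ ((1 : ℝ) / 2)) := by
  obtain ⟨Cn, hCn, hn⟩ := vd_iter0 n
  obtain ⟨C, hC, hv⟩ := vdc
  refine ⟨Real.sqrt (C * (10 + Cn)), Real.sqrt_pos.2 (by positivity), ?_⟩
  intro F Y B h0 H1 H hY hB hh0 hh01 hH1Y hH hHY hF1 hF hs
  have hH1 : 1 ≤ H1 := hh0.trans hh01
  have hH10 : (0 : ℝ) < H1 := by exact_mod_cast hH1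
  have hH0 : (0 : ℝ) < H := by exact_mod_cast hH
  set X : ℝ := (1 / (H : ℝ) + B) ^ ((1 : ℝ) / 2 ^ n) with hX
  have hX0 : 0 ≤ X := by positivity
  have h1 : ∀ h ∈ Finset.Ico h0 H1, ‖∑ g ∈ bb Y, Dh h F g‖ ≤ Cn * Y ^ 2 * X := by
    intro h hh
    exact hn (Dh h F) Y B H hY hB hH hHY (vd_Dh_le hF1 h) (vd_Dh_supp hF h)
      fun hs' hlen hmem => hs h hh hs' hlen hmem
  have h2 : ∀ h ∈ Finset.Ico 1 h0, ‖∑ g ∈ bb Y, Dh h F g‖ ≤ 10 * Y ^ 2 := by
    intro h _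
    refine (norm_sum_le _ _).trans ?_
    calc ∑ g ∈ bb Y, ‖Dh h F g‖ ≤ ∑ g ∈ bb Y, (1 : ℝ) :=
          Finset.sum_le_sum fun g _ => vd_Dh_le hF1 h g
      _ = ((bb Y).card : ℝ) := by rw [Finset.sum_const, nsmul_eq_mul, mul_one]
      _ ≤ _ := vd_card hY
  have h3 : ∑ h ∈ Finset.Ico 1 H1, ‖∑ g ∈ bb Y, Dh h F g‖ ≤
      ((h0 : ℝ) - 1) * (10 * Y ^ 2) + H1 * (Cn * Y ^ 2 * X) := by
    rw [← Finset.sum_Ico_consecutive _ hh0 hh01]
    refine add_le_add ?_ ?_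
    · refine (Finset.sum_le_sum h2).trans ?_
      rw [Finset.sum_const, nsmul_eq_mul, Nat.card_Ico, Nat.cast_sub hh0, Nat.cast_one]
    · refine (Finset.sum_le_sum h1).trans ?_
      rw [Finset.sum_const, nsmul_eq_mul, Nat.card_Ico]
      refine mul_le_mul_of_nonneg_right ?_ (by positivity)
      exact_mod_cast Nat.sub_le _ _
  have h4 := hv F Y H1 hY hH1 hH1Y hF1 hF
  have h5 : ‖∑ g ∈ bb Y, F g‖ ^ 2 ≤ (C * (10 + Cn)) * (Y ^ 2) ^ 2 * ((h0 : ℝ) / H1 + X) := by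
    refine h4.trans ?_
    calc C * Y ^ 2 / H1 * (Y ^ 2 + ∑ h ∈ Finset.Ico 1 H1, ‖∑ g ∈ bb Y, Dh h F g‖)
        ≤ C * Y ^ 2 / H1 * (Y ^ 2 + (((h0 : ℝ) - 1) * (10 * Y ^ 2) + H1 * (Cn * Y ^ 2 * X))) :=
          mul_le_mul_of_nonneg_left (by linarith) (by positivity)
      _ ≤ C * Y ^ 2 / H1 * (10 * h0 * Y ^ 2 + H1 * (Cn * Y ^ 2 * X)) := by
          refine mul_le_mul_of_nonneg_left ?_ (by positivity)
          nlinarith [sq_nonneg Y]
      _ = C * (Y ^ 2) ^ 2 * (10 * (h0 / H1) + Cn * X) := by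
          field_simp
      _ ≤ C * (Y ^ 2) ^ 2 * ((10 + Cn) * (h0 / H1 + X)) := by
          refine mul_le_mul_of_nonneg_left ?_ (by positivity)
          have h6 : (0 : ℝ) ≤ (h0 : ℝ) / H1 := by positivity
          nlinarith [mul_nonneg (by linarith : (0 : ℝ) ≤ Cn) h6]
      _ = _ := by ring
  have h6 := vd_sqrt (by positivity) (by positivity) (sq_nonneg Y) h5
  exact h6

end Pool.Agent.MRG
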