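import Pool.Agent.MRG.Thin

/-!
# Module WeylSmall: comparison of a character sum with an integral

`mainT m k Y = ∫_{|z| ≤ Y} |z|^(im) (z/|z|)^k dA = 2πY² Y^(im)/(2 + im)` if `k = 0`, else `0` (polar coordinates).

`weyl_small`: unit squares around the lattice points: on the square of `g`, `|g| ≥ 2`, the function `z ↦ |z|^(im) (z/|z|)^k` varies by at most
`C (|m| + |k|)/|g|` (gradient of `m log|z| + k arg z` is `≤ (|m|+|k|)/|z|`), `∑_{g ∈ ball Y} 1/|g| ≤ C Y`; the squares meeting the boundary circle contribute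
`≤ C Y` (`Y ≥ 1`).

(An alternative for `k ≠ 0`, `k` not divisible by `4`: the sum is `0` by rotation by `i`.)
-/

set_option autoImplicit false

namespace Pool.Agent.MRG

open Pool.Agent.GaussPret MeasureTheory

/-- the main term -/
noncomputable def mainT (m : ℝ) (k : ℤ) (Y : ℝ) : ℂ :=
  if k = 0 then 2 * Real.pi * (Y : ℂ) ^ 2 * Complex.exp (((m * Real.log Y : ℝ) : ℂ) * Complex.I) /
    (2 + m * Complex.I) else 0

/-- the character on the complex plane -/
noncomputable def wphi (m : ℝ) (k : ℤ) (z : ℂ) : ℂ :=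
  Complex.exp (((m * Real.log ‖z‖ + k * Complex.arg z : ℝ) : ℂ) * Complex.I)

theorem norm_wphi (m : ℝ) (k : ℤ) (z : ℂ) : ‖wphi m k z‖ = 1 :=
  Complex.norm_exp_ofReal_mul_I _

theorem wphi_eq {z : ℂ} (h : z ≠ 0) (m : ℝ) (k : ℤ) :
    wphi m k z = Complex.exp (((m * Real.log ‖z‖ : ℝ) : ℂ) * Complex.I) *
      (z / (‖z‖ : ℂ)) ^ k := by
  have h2 : (‖z‖ : ℂ) ≠ 0 := by
    have := norm_ne_zero_iff.2 h
    exact_mod_cast this
  have h1 : Complex.exp (((Complex.arg z : ℝ) : ℂ) * Complex.I) = z / (‖z‖ : ℂ) := by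
    have h1 := Complex.norm_mul_exp_arg_mul_I z
    rw [eq_div_iff h2, mul_comm]
    exact h1
  rw [← h1, ← Complex.exp_int_mul, ← Complex.exp_add, wphi]
  congr 1
  push_cast
  ring

theorem measurable_wphi (m : ℝ) (k : ℤ) : Measurable (wphi m k) := by
  unfold wphi
  have h1 : Measurable fun z : ℂ => m * Real.log ‖z‖ + k * Complex.arg z :=
    (measurable_const.mul (Real.measurable_log.comp measurable_norm)).add
      (measurable_const.mul Complex.measurable_arg)
  exact Complex.measurable_exp.comp ((Complex.measurable_ofReal.comp h1).mul measurable_const)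

theorem norm_pow_sub_pow_le' {u v : ℂ} (hu : ‖u‖ = 1) (hv : ‖v‖ = 1) (n : ℕ) :
    ‖u ^ n - v ^ n‖ ≤ n * ‖u - v‖ := by
  induction n with
  | zero => simp
  | succ n ih =>
    have e : u ^ (n + 1) - v ^ (n + 1) = (u ^ n - v ^ n) * u + v ^ n * (u - v) := by ring
    rw [e]
    calc ‖(u ^ n - v ^ n) * u + v ^ n * (u - v)‖ ≤ ‖(u ^ n - v ^ n) * u‖ + ‖v ^ n * (u - v)‖ :=
          norm_add_le _ _
      _ = ‖u ^ n - v ^ n‖ + ‖u - v‖ := by
          rw [norm_mul, norm_mul, norm_pow, hu, hv]; simp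
      _ ≤ n * ‖u - v‖ + ‖u - v‖ := by linarith
      _ = ((n + 1 : ℕ) : ℝ) * ‖u - v‖ := by push_cast; ring

theorem norm_zpow_sub_zpow_le' {u v : ℂ} (hu : ‖u‖ = 1) (hv : ‖v‖ = 1) (k : ℤ) :
    ‖u ^ k - v ^ k‖ ≤ |(k : ℝ)| * ‖u - v‖ := by
  have hu0 : u ≠ 0 := by rw [← norm_ne_zero_iff, hu]; exact one_ne_zero
  have hv0 : v ≠ 0 := by rw [← norm_ne_zero_iff, hv]; exact one_ne_zero
  obtain ⟨n, rfl | rfl⟩ := k.eq_nat_or_neg
  · simpa using norm_pow_sub_pow_le' hu hv n
  · have e : u ^ (-(n : ℤ)) - v ^ (-(n : ℤ)) = (v ^ n - u ^ n) / (u ^ n * v ^ n) := by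
      rw [zpow_neg, zpow_neg, zpow_natCast, zpow_natCast]
      field_simp
    rw [e, norm_div, norm_mul, norm_pow, norm_pow, hu, hv, norm_sub_rev]
    simpa using norm_pow_sub_pow_le' hu hv n

theorem norm_expI_sub_le (a b : ℝ) :
    ‖Complex.exp ((a : ℂ) * Complex.I) - Complex.exp ((b : ℂ) * Complex.I)‖ ≤ |a - b| := by
  have e : Complex.exp ((a : ℂ) * Complex.I) - Complex.exp ((b : ℂ) * Complex.I) =
      Complex.exp ((b : ℂ) * Complex.I) * (Complex.exp (Complex.I * ((a - b : ℝ) : ℂ)) - 1) := by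
    rw [mul_sub, ← Complex.exp_add, mul_one]
    congr 2
    push_cast
    ring
  rw [e, norm_mul, Complex.norm_exp_ofReal_mul_I, one_mul]
  exact Real.norm_exp_I_mul_ofReal_sub_one_le

theorem abs_log_sub_le {a b c : ℝ} (hc : 0 < c) (ha : c ≤ a) (hb : c ≤ b) :
    |Real.log a - Real.log b| ≤ |a - b| / c := by
  have ha0 : 0 < a := hc.trans_le ha
  have hb0 : 0 < b := hc.trans_le hb
  have key : ∀ x y : ℝ, c ≤ x → c ≤ y → Real.log x - Real.log y ≤ |x - y| / c := by
    intro x y hx hy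
    have hx0 : 0 < x := hc.trans_le hx
    have hy0 : 0 < y := hc.trans_le hy
    have h1 := Real.log_le_sub_one_of_pos (div_pos hx0 hy0)
    rw [Real.log_div hx0.ne' hy0.ne'] at h1
    calc Real.log x - Real.log y ≤ x / y - 1 := h1
      _ = (x - y) / y := by field_simp
      _ ≤ |x - y| / y := by gcongr; exact le_abs_self _
      _ ≤ |x - y| / c := by gcongr
  rw [abs_le]
  constructor
  · have := key b a hb ha
    rw [abs_sub_comm] at this
    linarith
  · exact key a b ha hb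

theorem norm_unit_sub_le {z w : ℂ} (hz : z ≠ 0) (hw : w ≠ 0) :
    ‖z / (‖z‖ : ℂ) - w / (‖w‖ : ℂ)‖ ≤ 2 * ‖z - w‖ / ‖w‖ := by
  have hz' : 0 < ‖z‖ := norm_pos_iff.2 hz
  have hw' : 0 < ‖w‖ := norm_pos_iff.2 hw
  have hzc : (‖z‖ : ℂ) ≠ 0 := by exact_mod_cast hz'.ne'
  have hwc : (‖w‖ : ℂ) ≠ 0 := by exact_mod_cast hw'.ne'
  have e : z / (‖z‖ : ℂ) - w / (‖w‖ : ℂ) =
      (z - w) / (‖w‖ : ℂ) + z / (‖z‖ : ℂ) * (((‖w‖ - ‖z‖ : ℝ) : ℂ) / (‖w‖ : ℂ)) := by
    push_cast
    field_simp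
    ring
  rw [e]
  refine (norm_add_le _ _).trans ?_
  have h1 : ‖(z - w) / (‖w‖ : ℂ)‖ = ‖z - w‖ / ‖w‖ := by
    rw [norm_div, Complex.norm_real, Real.norm_of_nonneg hw'.le]
  have h2 : ‖z / (‖z‖ : ℂ) * (((‖w‖ - ‖z‖ : ℝ) : ℂ) / (‖w‖ : ℂ))‖ ≤ ‖z - w‖ / ‖w‖ := by
    rw [norm_mul, norm_div, norm_div, Complex.norm_real, Complex.norm_real, Complex.norm_real,
      Real.norm_of_nonneg hw'.le, Real.norm_of_nonneg hz'.le, div_self hz'.ne', one_mul]
    gcongr
    rw [Real.norm_eq_abs, norm_sub_rev z w]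
    exact abs_norm_sub_norm_le w z
  rw [h1]
  have : 2 * ‖z - w‖ / ‖w‖ = ‖z - w‖ / ‖w‖ + ‖z - w‖ / ‖w‖ := by ring
  linarith

/-- the unit square of a lattice point -/
def wsq (g : GaussianInt) : Set ℂ :=
  {z | ((g.re : ℝ) - 1 / 2 ≤ z.re ∧ z.re < (g.re : ℝ) + 1 / 2) ∧
    ((g.im : ℝ) - 1 / 2 ≤ z.im ∧ z.im < (g.im : ℝ) + 1 / 2)}

theorem wsq_eq (g : GaussianInt) : wsq g = Complex.measurableEquivRealProd ⁻¹'
    (Set.Ico ((g.re : ℝ) - 1 / 2) ((g.re : ℝ) + 1 / 2) ×ˢ
      Set.Ico ((g.im : ℝ) - 1 / 2) ((g.im : ℝ) + 1 / 2)) := by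
  ext z
  simp [wsq, Complex.measurableEquivRealProd_apply]

theorem measurableSet_wsq (g : GaussianInt) : MeasurableSet (wsq g) := by
  rw [wsq_eq]
  exact Complex.measurableEquivRealProd.measurable
    (measurableSet_Ico.prod measurableSet_Ico)

theorem volume_wsq (g : GaussianInt) : volume (wsq g) = 1 := by
  rw [wsq_eq, Complex.volume_preserving_equiv_real_prod.measure_preimage
    (measurableSet_Ico.prod measurableSet_Ico).nullMeasurableSet, Measure.volume_eq_prod,
    Measure.prod_prod, Real.volume_Ico, Real.volume_Ico]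
  norm_num

theorem wsq_near {g : GaussianInt} {z : ℂ} (hz : z ∈ wsq g) :
    ‖z - GaussianInt.toComplex g‖ ≤ 71 / 100 := by
  obtain ⟨⟨h1, h2⟩, h3, h4⟩ := hz
  have h5 : ‖z - GaussianInt.toComplex g‖ ^ 2 ≤ (71 / 100) ^ 2 := by
    rw [← Complex.normSq_eq_norm_sq, Complex.normSq_apply, Complex.sub_re, Complex.sub_im,
      ← GaussianInt.intCast_re, ← GaussianInt.intCast_im]
    have h6 : (z.re - (g.re : ℝ)) * (z.re - (g.re : ℝ)) ≤ 1 / 4 := by
      have : |z.re - (g.re : ℝ)| ≤ 1 / 2 := by rw [abs_le]; constructor <;> linarith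
      have h7 := abs_mul_abs_self (z.re - (g.re : ℝ))
      nlinarith [abs_nonneg (z.re - (g.re : ℝ))]
    have h8 : (z.im - (g.im : ℝ)) * (z.im - (g.im : ℝ)) ≤ 1 / 4 := by
      have : |z.im - (g.im : ℝ)| ≤ 1 / 2 := by rw [abs_le]; constructor <;> linarith
      have h7 := abs_mul_abs_self (z.im - (g.im : ℝ))
      nlinarith [abs_nonneg (z.im - (g.im : ℝ))]
    exact (add_le_add h6 h8).trans (by norm_num)
  exact le_of_sq_le_sq h5 (by norm_num)

theorem wsq_disjoint {g h : GaussianInt} (hgh : g ≠ h) : Disjoint (wsq g) (wsq h) := by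
  rw [Set.disjoint_left]
  rintro z ⟨⟨h1, h2⟩, h3, h4⟩ ⟨⟨h5, h6⟩, h7, h8⟩
  apply hgh
  have a1 : g.re < h.re + 1 := by
    have : (g.re : ℝ) < h.re + 1 := by linarith
    exact_mod_cast this
  have a2 : h.re < g.re + 1 := by
    have : (h.re : ℝ) < g.re + 1 := by linarith
    exact_mod_cast this
  have a3 : g.im < h.im + 1 := by
    have : (g.im : ℝ) < h.im + 1 := by linarith
    exact_mod_cast this
  have a4 : h.im < g.im + 1 := by
    have : (h.im : ℝ) < g.im + 1 := by linarith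
    exact_mod_cast this
  exact Zsqrtd.ext (by omega) (by omega)

theorem exists_wsq (z : ℂ) : ∃ g : GaussianInt, z ∈ wsq g := by
  refine ⟨⟨⌊z.re + 1 / 2⌋, ⌊z.im + 1 / 2⌋⟩, ⟨?_, ?_⟩, ?_, ?_⟩
  · have := Int.floor_le (z.re + 1 / 2)
    simp only
    linarith
  · have := Int.lt_floor_add_one (z.re + 1 / 2)
    simp only
    linarith
  · have := Int.floor_le (z.im + 1 / 2)
    simp only
    linarith
  · have := Int.lt_floor_add_one (z.im + 1 / 2)
    simp only
    linarith

theorem wphi_near {g : GaussianInt} (hg : g ≠ 0) {z : ℂ} (hz : z ∈ wsq g) (m : ℝ) (k : ℤ) :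
    ‖ch m k g - wphi m k z‖ ≤ 3 * (|m| + |(k : ℝ)|) / ab g := by
  set w : ℂ := GaussianInt.toComplex g with hw
  have hw1 : 1 ≤ ‖w‖ := one_le_ab hg
  have hw0 : w ≠ 0 := toC_ne hg
  have hd := wsq_near hz
  rw [← hw] at hd
  have hz1 : 29 / 100 * ‖w‖ ≤ ‖z‖ := by
    have h1 : ‖w‖ ≤ ‖z‖ + ‖z - w‖ := by
      have := norm_sub_le z (z - w)
      simpa using this
    nlinarith
  have hwp : 0 < ‖w‖ := by linarith
  have hz0 : z ≠ 0 := by
    rw [← norm_pos_iff]
    nlinarith
  have hch : ch m k g = wphi m k w := rfl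
  rw [hch, wphi_eq hw0, wphi_eq hz0]
  have hnz : ‖z / (‖z‖ : ℂ)‖ = 1 := by
    rw [norm_div, Complex.norm_real, norm_norm, div_self (norm_ne_zero_iff.2 hz0)]
  have hnw : ‖w / (‖w‖ : ℂ)‖ = 1 := by
    rw [norm_div, Complex.norm_real, norm_norm, div_self (norm_ne_zero_iff.2 hw0)]
  set A := Complex.exp (((m * Real.log ‖w‖ : ℝ) : ℂ) * Complex.I)
  set B := Complex.exp (((m * Real.log ‖z‖ : ℝ) : ℂ) * Complex.I)
  have hA : ‖A‖ = 1 := Complex.norm_exp_ofReal_mul_I _
  have e : A * (w / (‖w‖ : ℂ)) ^ k - B * (z / (‖z‖ : ℂ)) ^ k =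
      A * ((w / (‖w‖ : ℂ)) ^ k - (z / (‖z‖ : ℂ)) ^ k) + (A - B) * (z / (‖z‖ : ℂ)) ^ k := by
    ring
  rw [e]
  have h1 : ‖A * ((w / (‖w‖ : ℂ)) ^ k - (z / (‖z‖ : ℂ)) ^ k)‖ ≤ |(k : ℝ)| * (3 / ‖w‖) := by
    rw [norm_mul, hA, one_mul]
    refine (norm_zpow_sub_zpow_le' hnw hnz k).trans ?_
    gcongr
    rw [norm_sub_rev]
    refine (norm_unit_sub_le hz0 hw0).trans ?_
    gcongr
    linarith
  have h2 : ‖(A - B) * (z / (‖z‖ : ℂ)) ^ k‖ ≤ |m| * (3 / ‖w‖) := by
    rw [norm_mul, norm_zpow, hnz, one_zpow, mul_one]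
    refine (norm_expI_sub_le _ _).trans ?_
    rw [← mul_sub, abs_mul]
    gcongr
    have h3 : 29 / 100 * ‖w‖ ≤ ‖w‖ := by linarith
    refine (abs_log_sub_le (by positivity) h3 hz1).trans ?_
    have h4 : |‖w‖ - ‖z‖| ≤ 71 / 100 := by
      refine (abs_norm_sub_norm_le w z).trans ?_
      rw [norm_sub_rev]
      exact hd
    rw [div_le_div_iff₀ (by positivity) hwp]
    nlinarith
  refine (norm_add_le _ _).trans ?_
  have h5 : 3 * (|m| + |(k : ℝ)|) / ab g = |(k : ℝ)| * (3 / ‖w‖) + |m| * (3 / ‖w‖) := by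
    show 3 * (|m| + |(k : ℝ)|) / ‖w‖ = _
    ring
  rw [h5]
  linarith

theorem one_div_tel (n N : ℕ) (hn : 1 ≤ n) (hnN : n ≤ N) :
    (1 : ℝ) / n = ∑ j ∈ Finset.Ico n N, 1 / ((j : ℝ) * (j + 1)) + 1 / N := by
  induction N, hnN using Nat.le_induction with
  | base => simp
  | succ M hM ih =>
    rw [Finset.sum_Ico_succ_top hM]
    have hM0 : (0 : ℝ) < M := by
      have : 0 < M := by omega
      exact_mod_cast this
    rw [ih]
    push_cast
    field_simp
    ring

theorem sum_inv_ab {Y : ℝ} (hY : 1 ≤ Y) : ∑ g ∈ ball Y, 1 / ab g ≤ 54 * Y := by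
  classical
  set N : ℕ := ⌈Y⌉₊ with hN
  have hNY : Y ≤ N := Nat.le_ceil Y
  have hNY' : (N : ℝ) < Y + 1 := Nat.ceil_lt_add_one (by linarith)
  have hN1 : 1 ≤ N := by
    have : (1 : ℝ) ≤ N := hY.trans hNY
    exact_mod_cast this
  have hN0 : (0 : ℝ) < N := by linarith
  -- the pointwise bound
  have hpt : ∀ g ∈ ball Y, 1 / ab g ≤
      2 * (∑ j ∈ Finset.Ico 1 N, (if ab g ≤ j then 1 / ((j : ℝ) * (j + 1)) else 0) + 1 / N) := by
    intro g hg
    rw [mem_ball'] at hg
    have h1 : 1 ≤ ab g := one_le_ab hg.1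
    set n : ℕ := ⌈ab g⌉₊ with hn
    have hn1 : 1 ≤ n := by
      have : (1 : ℝ) ≤ n := h1.trans (Nat.le_ceil _)
      exact_mod_cast this
    have hnN : n ≤ N := Nat.ceil_mono hg.2
    have hn2 : (n : ℝ) < ab g + 1 := Nat.ceil_lt_add_one (by linarith)
    have hn0 : (0 : ℝ) < n := by exact_mod_cast hn1
    have h2 : 1 / ab g ≤ 2 * (1 / (n : ℝ)) := by
      have h3 : (n : ℝ) ≤ 2 * ab g := by linarith
      rw [mul_one_div, div_le_div_iff₀ (by linarith) hn0]
      linarith
    refine h2.trans ?_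
    rw [one_div_tel n N hn1 hnN]
    gcongr
    rw [← Finset.sum_filter]
    apply le_of_eq
    apply Finset.sum_congr _ (fun _ _ => rfl)
    ext j
    rw [Finset.mem_filter, Finset.mem_Ico, Finset.mem_Ico]
    constructor
    · rintro ⟨h4, h5⟩
      exact ⟨⟨hn1.trans h4, h5⟩, Nat.ceil_le.1 h4⟩
    · rintro ⟨⟨_, h5⟩, h6⟩
      exact ⟨Nat.ceil_le.2 h6, h5⟩
  refine (Finset.sum_le_sum hpt).trans ?_
  rw [← Finset.mul_sum, Finset.sum_add_distrib, Finset.sum_comm, Finset.sum_const,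
    nsmul_eq_mul]
  have h7 : ∑ j ∈ Finset.Ico 1 N, ∑ g ∈ ball Y,
      (if ab g ≤ (j : ℝ) then 1 / ((j : ℝ) * (j + 1)) else 0) ≤ ∑ j ∈ Finset.Ico 1 N, (9 : ℝ) := by
    apply Finset.sum_le_sum
    intro j hj
    rw [Finset.mem_Ico] at hj
    have hj0 : (0 : ℝ) < j := by
      have : 0 < j := by omega
      exact_mod_cast this
    rw [← Finset.sum_filter, Finset.sum_const, nsmul_eq_mul]
    have h8 : (((ball Y).filter (fun g => ab g ≤ (j : ℝ))).card : ℝ) ≤ 9 * (j : ℝ) ^ 2 := by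
      refine le_trans ?_ (card_ball_le' (j : ℝ))
      exact_mod_cast Finset.card_le_card (by
        intro g hg
        rw [Finset.mem_filter, mem_ball'] at hg
        rw [mem_ball']
        exact ⟨hg.1.1, hg.2⟩)
    calc (((ball Y).filter (fun g => ab g ≤ (j : ℝ))).card : ℝ) * (1 / ((j : ℝ) * (j + 1)))
        ≤ 9 * (j : ℝ) ^ 2 * (1 / ((j : ℝ) * (j + 1))) := by gcongr
      _ = 9 * (j / (j + 1)) := by field_simp
      _ ≤ 9 * 1 := by
          gcongr
          rw [div_le_one (by positivity)]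
          linarith
      _ = 9 := by norm_num
  have h9 : ((ball Y).card : ℝ) * (1 / N) ≤ 9 * Y := by
    have h10 := card_ball_le' Y
    calc ((ball Y).card : ℝ) * (1 / N) ≤ 9 * Y ^ 2 * (1 / Y) := by
          gcongr
      _ = 9 * Y := by field_simp
  have h11 : ∑ j ∈ Finset.Ico 1 N, (9 : ℝ) ≤ 9 * Y := by
    rw [Finset.sum_const, nsmul_eq_mul, Nat.card_Ico, Nat.cast_sub hN1]
    push_cast
    linarith
  linarith

/-- the union of the squares of the nonzero lattice points of the disc -/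
noncomputable def wS (Y : ℝ) : Set ℂ := ⋃ g ∈ ball Y, wsq g

theorem integrableOn_wphi (m : ℝ) (k : ℤ) {s : Set ℂ} (hs : volume s < ⊤) :
    IntegrableOn (wphi m k) s := by
  refine Measure.integrableOn_of_bounded (M := 1) hs.ne (measurable_wphi m k).aestronglyMeasurable
    (Filter.Eventually.of_forall fun z => (norm_wphi m k z).le)

theorem vol_closedBall_real {r : ℝ} (hr : 0 ≤ r) :
    volume.real (Metric.closedBall (0 : ℂ) r) = Real.pi * r ^ 2 := by
  rw [Measure.real, Complex.volume_closedBall, ENNReal.toReal_mul, ENNReal.toReal_pow,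
    ENNReal.toReal_ofReal hr]
  simp [mul_comm]

theorem vol_closedBall_lt (r : ℝ) : volume (Metric.closedBall (0 : ℂ) r) < ⊤ :=
  measure_closedBall_lt_top

theorem mem_wS {Y : ℝ} {z : ℂ} : z ∈ wS Y ↔ ∃ g ∈ ball Y, z ∈ wsq g := by
  simp [wS]

theorem vol_wS_lt (Y : ℝ) : volume (wS Y) < ⊤ := by
  refine (measure_biUnion_finset_le _ _).trans_lt ?_
  simp [volume_wsq]

theorem measurableSet_wS (Y : ℝ) : MeasurableSet (wS Y) :=
  Finset.measurableSet_biUnion _ fun g _ => measurableSet_wsq g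

theorem wS_diff {Y : ℝ} (hY : 1 ≤ Y) :
    volume.real (wS Y \ Metric.closedBall (0 : ℂ) Y) ≤ Real.pi * (2 * Y + 1) := by
  have h1 : wS Y \ Metric.closedBall (0 : ℂ) Y ⊆
      Metric.closedBall (0 : ℂ) (Y + 1) \ Metric.closedBall (0 : ℂ) Y := by
    rintro z ⟨hz, hz'⟩
    refine ⟨?_, hz'⟩
    obtain ⟨g, hg, hzg⟩ := mem_wS.1 hz
    rw [mem_ball'] at hg
    rw [mem_closedBall_zero_iff]
    have h2 := wsq_near hzg
    have h3 : ‖z‖ ≤ ‖z - GaussianInt.toComplex g‖ + ‖GaussianInt.toComplex g‖ := by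
      have := norm_add_le (z - GaussianInt.toComplex g) (GaussianInt.toComplex g)
      simpa using this
    have h4 : ‖GaussianInt.toComplex g‖ ≤ Y := hg.2
    linarith
  refine (measureReal_mono h1 ((measure_mono Set.sdiff_subset).trans_lt
    (vol_closedBall_lt _)).ne).trans ?_
  rw [measureReal_sdiff (Metric.closedBall_subset_closedBall (by linarith))
    Metric.isClosed_closedBall.measurableSet (vol_closedBall_lt _).ne,
    vol_closedBall_real (by linarith), vol_closedBall_real (by linarith)]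
  apply le_of_eq
  ring

theorem wS_diff' {Y : ℝ} (hY : 1 ≤ Y) :
    volume.real (Metric.closedBall (0 : ℂ) Y \ wS Y) ≤ Real.pi * (2 * Y - 1) + 1 := by
  have h1 : Metric.closedBall (0 : ℂ) Y \ wS Y ⊆
      (Metric.closedBall (0 : ℂ) Y \ Metric.closedBall (0 : ℂ) (Y - 1)) ∪ wsq 0 := by
    rintro z ⟨hz, hz'⟩
    by_cases h2 : z ∈ Metric.closedBall (0 : ℂ) (Y - 1)
    · right
      obtain ⟨g, hg⟩ := exists_wsq z
      by_cases hg0 : g = 0
      · rwa [hg0] at hg
      · exfalso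
        apply hz'
        rw [mem_wS]
        refine ⟨g, ?_, hg⟩
        rw [mem_ball']
        refine ⟨hg0, ?_⟩
        rw [mem_closedBall_zero_iff] at h2
        have h3 := wsq_near hg
        have h4 : ‖GaussianInt.toComplex g‖ ≤ ‖z‖ + ‖z - GaussianInt.toComplex g‖ := by
          have := norm_sub_le z (z - GaussianInt.toComplex g)
          simpa using this
        show ‖GaussianInt.toComplex g‖ ≤ Y
        linarith
    · exact Or.inl ⟨hz, h2⟩
  have hfin : volume ((Metric.closedBall (0 : ℂ) Y \ Metric.closedBall (0 : ℂ) (Y - 1)) ∪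
      wsq 0) ≠ ⊤ := by
    refine ne_of_lt ((measure_union_le _ _).trans_lt (ENNReal.add_lt_top.2 ⟨?_, ?_⟩))
    · exact (measure_mono Set.sdiff_subset).trans_lt (vol_closedBall_lt _)
    · rw [volume_wsq]
      exact ENNReal.one_lt_top
  refine (measureReal_mono h1 hfin).trans ((measureReal_union_le _ _).trans ?_)
  rw [measureReal_sdiff (Metric.closedBall_subset_closedBall (by linarith))
    Metric.isClosed_closedBall.measurableSet (vol_closedBall_lt _).ne,
    vol_closedBall_real (by linarith), vol_closedBall_real (by linarith), Measure.real, volume_wsq]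
  apply le_of_eq
  simp only [ENNReal.toReal_one]
  ring

theorem int_wS (m : ℝ) (k : ℤ) (Y : ℝ) :
    ∫ z in wS Y, wphi m k z = ∑ g ∈ ball Y, ∫ z in wsq g, wphi m k z := by
  rw [wS]
  apply integral_biUnion_finset
  · intro g _
    exact measurableSet_wsq g
  · intro g _ h _ hgh
    exact wsq_disjoint hgh
  · intro g _
    apply integrableOn_wphi
    rw [volume_wsq]
    exact ENNReal.one_lt_top

theorem int_compare (m : ℝ) (k : ℤ) {Y : ℝ} (hY : 1 ≤ Y) :
    ‖(∫ z in wS Y, wphi m k z) - ∫ z in Metric.closedBall (0 : ℂ) Y, wphi m k z‖ ≤ 14 * Y := by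
  have hD : MeasurableSet (Metric.closedBall (0 : ℂ) Y) := Metric.isClosed_closedBall.measurableSet
  have h1 := integral_inter_add_sdiff (μ := volume) (f := wphi m k) hD
    (integrableOn_wphi m k (vol_wS_lt Y))
  have h2 := integral_inter_add_sdiff (μ := volume) (f := wphi m k) (measurableSet_wS Y)
    (integrableOn_wphi m k (vol_closedBall_lt Y))
  rw [Set.inter_comm] at h2
  have e : (∫ z in wS Y, wphi m k z) - ∫ z in Metric.closedBall (0 : ℂ) Y, wphi m k z =
      (∫ z in wS Y \ Metric.closedBall (0 : ℂ) Y, wphi m k z) -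
        ∫ z in Metric.closedBall (0 : ℂ) Y \ wS Y, wphi m k z := by
    rw [← h1, ← h2]
    ring
  rw [e]
  refine (norm_sub_le _ _).trans ?_
  have h3 : ‖∫ z in wS Y \ Metric.closedBall (0 : ℂ) Y, wphi m k z‖ ≤
      1 * volume.real (wS Y \ Metric.closedBall (0 : ℂ) Y) :=
    norm_setIntegral_le_of_norm_le_const
      ((measure_mono Set.sdiff_subset).trans_lt (vol_wS_lt Y)) fun z _ => (norm_wphi m k z).le
  have h4 : ‖∫ z in Metric.closedBall (0 : ℂ) Y \ wS Y, wphi m k z‖ ≤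
      1 * volume.real (Metric.closedBall (0 : ℂ) Y \ wS Y) :=
    norm_setIntegral_le_of_norm_le_const
      ((measure_mono Set.sdiff_subset).trans_lt (vol_closedBall_lt Y))
      fun z _ => (norm_wphi m k z).le
  have h5 := wS_diff hY
  have h6 := wS_diff' hY
  have h7 := Real.pi_lt_d2
  nlinarith

theorem int_radial (m : ℝ) {Y : ℝ} (hY : 1 ≤ Y) :
    ∫ r in Set.Ioc 0 Y, ((r : ℂ) * Complex.exp (((m * Real.log r : ℝ) : ℂ) * Complex.I)) =
      (Y : ℂ) ^ 2 * Complex.exp (((m * Real.log Y : ℝ) : ℂ) * Complex.I) /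
        (2 + m * Complex.I) := by
  have hc : ∀ r : ℝ, 0 < r → ((r : ℂ) ^ (1 + m * Complex.I)) =
      (r : ℂ) * Complex.exp (((m * Real.log r : ℝ) : ℂ) * Complex.I) := by
    intro r hr
    have hr' : (r : ℂ) ≠ 0 := by exact_mod_cast hr.ne'
    rw [Complex.cpow_add _ _ hr', Complex.cpow_one, Complex.cpow_def_of_ne_zero hr',
      ← Complex.ofReal_log hr.le]
    congr 2
    push_cast
    ring
  have h1 : ∫ r in Set.Ioc 0 Y, ((r : ℂ) * Complex.exp (((m * Real.log r : ℝ) : ℂ) * Complex.I)) =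
      ∫ r in Set.Ioc 0 Y, ((r : ℂ) ^ (1 + m * Complex.I)) := by
    apply setIntegral_congr_fun measurableSet_Ioc
    intro r hr
    exact (hc r hr.1).symm
  have hY0 : (0 : ℝ) < Y := by linarith
  rw [h1, ← intervalIntegral.integral_of_le hY0.le, integral_cpow]
  · have hne : (1 + (m : ℂ) * Complex.I + 1) ≠ 0 := by
      intro h
      have := congrArg Complex.re h
      simp at this
      try norm_num at this
    have hYc : (Y : ℂ) ≠ 0 := by exact_mod_cast hY0.ne'
    rw [Complex.ofReal_zero, Complex.zero_cpow hne, sub_zero, Complex.cpow_add _ _ hYc,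
      Complex.cpow_one, hc Y hY0]
    have : 1 + (m : ℂ) * Complex.I + 1 = 2 + m * Complex.I := by ring
    rw [this]
    congr 1
    ring
  · left
    simp

theorem int_angular (k : ℤ) :
    ∫ t in Set.Ioo (-Real.pi) Real.pi, Complex.exp (((k * t : ℝ) : ℂ) * Complex.I) =
      if k = 0 then 2 * (Real.pi : ℂ) else 0 := by
  rw [← integral_Ioc_eq_integral_Ioo, ← intervalIntegral.integral_of_le
    (by linarith [Real.pi_pos])]
  split_ifs with hk
  · subst hk
    simp
    ring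
  · have hc : ((k : ℂ) * Complex.I) ≠ 0 := by
      simp [hk]
    have e : ∀ t : ℝ, Complex.exp (((k * t : ℝ) : ℂ) * Complex.I) =
        Complex.exp ((k : ℂ) * Complex.I * (t : ℂ)) := by
      intro t
      congr 1
      push_cast
      ring
    simp_rw [e]
    rw [integral_exp_mul_complex hc]
    have e2 : Complex.exp ((k : ℂ) * Complex.I * ((Real.pi : ℝ) : ℂ)) =
        Complex.exp ((k : ℂ) * Complex.I * ((-Real.pi : ℝ) : ℂ)) := by
      rw [Complex.exp_eq_exp_iff_exists_int]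
      refine ⟨k, ?_⟩
      push_cast
      ring
    rw [e2, sub_self, zero_div]

theorem int_disc (m : ℝ) (k : ℤ) {Y : ℝ} (hY : 1 ≤ Y) :
    ∫ z in Metric.closedBall (0 : ℂ) Y, wphi m k z = mainT m k Y := by
  have hD : MeasurableSet (Metric.closedBall (0 : ℂ) Y) := Metric.isClosed_closedBall.measurableSet
  rw [← integral_indicator hD, ← Complex.integral_comp_polarCoord_symm]
  have hT : MeasurableSet polarCoord.target := polarCoord.open_target.measurableSet
  have h1 : ∀ p ∈ polarCoord.target,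
      p.1 • (Metric.closedBall (0 : ℂ) Y).indicator (wphi m k) (Complex.polarCoord.symm p) =
      (Set.Iic Y ×ˢ (Set.univ : Set ℝ)).indicator
        (fun p : ℝ × ℝ => ((p.1 : ℂ) * Complex.exp (((m * Real.log p.1 : ℝ) : ℂ) * Complex.I)) *
          Complex.exp (((k * p.2 : ℝ) : ℂ) * Complex.I)) p := by
    rintro ⟨r, t⟩ ⟨hr, ht⟩
    simp only [Set.mem_Ioi] at hr
    simp only [Set.mem_Ioo] at ht
    have hn : ‖Complex.polarCoord.symm (r, t)‖ = r := by
      rw [Complex.norm_polarCoord_symm, abs_of_pos hr]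
    have ha : Complex.arg (Complex.polarCoord.symm (r, t)) = t := by
      rw [Complex.polarCoord_symm_apply]
      have := Complex.arg_mul_cos_add_sin_mul_I hr (θ := t) ⟨ht.1, ht.2.le⟩
      push_cast
      exact this
    by_cases hrY : r ≤ Y
    · rw [Set.indicator_of_mem, Set.indicator_of_mem]
      · simp only
        rw [wphi, hn, ha, Complex.real_smul, mul_assoc, ← Complex.exp_add]
        congr 2
        push_cast
        ring
      · exact ⟨hrY, trivial⟩
      · rw [mem_closedBall_zero_iff, hn]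
        exact hrY
    · rw [Set.indicator_of_notMem, Set.indicator_of_notMem, smul_zero]
      · rintro ⟨h, _⟩
        exact hrY h
      · rw [mem_closedBall_zero_iff, hn]
        exact hrY
  rw [setIntegral_congr_fun hT h1, setIntegral_indicator (measurableSet_Iic.prod MeasurableSet.univ)]
  have h2 : polarCoord.target ∩ (Set.Iic Y ×ˢ (Set.univ : Set ℝ)) =
      Set.Ioc 0 Y ×ˢ Set.Ioo (-Real.pi) Real.pi := by
    ext ⟨r, t⟩
    simp [polarCoord_target]
    tauto
  rw [h2, Measure.volume_eq_prod, setIntegral_prod_mul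
    (fun r : ℝ => (r : ℂ) * Complex.exp (((m * Real.log r : ℝ) : ℂ) * Complex.I))
    (fun t : ℝ => Complex.exp (((k * t : ℝ) : ℂ) * Complex.I)), int_radial m hY, int_angular,
    mainT]
  split_ifs with hk
  · ring
  · simp

theorem weyl_small : ∃ C : ℝ, 0 < C ∧ ∀ (Y m : ℝ) (k : ℤ), 1 ≤ Y →
    ‖∑ g ∈ ball Y, ch m k g - mainT m k Y‖ ≤ C * (1 + |m| + |(k : ℝ)|) * Y := by
  refine ⟨162, by norm_num, ?_⟩
  intro Y m k hY
  rw [← int_disc m k hY]
  have e : ∑ g ∈ ball Y, ch m k g - ∫ z in Metric.closedBall (0 : ℂ) Y, wphi m k z =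
      ∑ g ∈ ball Y, (ch m k g - ∫ z in wsq g, wphi m k z) +
      ((∫ z in wS Y, wphi m k z) - ∫ z in Metric.closedBall (0 : ℂ) Y, wphi m k z) := by
    rw [int_wS, Finset.sum_sub_distrib]
    ring
  rw [e]
  refine (norm_add_le _ _).trans ?_
  have h1 : ‖∑ g ∈ ball Y, (ch m k g - ∫ z in wsq g, wphi m k z)‖ ≤
      162 * (|m| + |(k : ℝ)|) * Y := by
    refine (norm_sum_le _ _).trans ?_
    calc ∑ g ∈ ball Y, ‖ch m k g - ∫ z in wsq g, wphi m k z‖
        ≤ ∑ g ∈ ball Y, 3 * (|m| + |(k : ℝ)|) * (1 / ab g) := by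
          apply Finset.sum_le_sum
          intro g hg
          have hg0 : g ≠ 0 := (mem_ball'.1 hg).1
          have h2 : ch m k g - ∫ z in wsq g, wphi m k z =
              ∫ z in wsq g, (ch m k g - wphi m k z) := by
            rw [integral_sub, setIntegral_const, Measure.real, volume_wsq]
            · simp
            · rw [← IntegrableOn, integrableOn_const_iff]
              right
              rw [volume_wsq]
              exact ENNReal.one_lt_top
            · apply integrableOn_wphi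
              rw [volume_wsq]
              exact ENNReal.one_lt_top
          rw [h2]
          have h3 := norm_setIntegral_le_of_norm_le_const (μ := volume) (s := wsq g)
            (f := fun z => ch m k g - wphi m k z) (C := 3 * (|m| + |(k : ℝ)|) * (1 / ab g))
            (by rw [volume_wsq]; exact ENNReal.one_lt_top) (by
              intro z hz
              have := wphi_near hg0 hz m k
              rw [mul_one_div]
              exact this)
          rw [Measure.real, volume_wsq] at h3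
          simpa using h3
      _ = 3 * (|m| + |(k : ℝ)|) * ∑ g ∈ ball Y, 1 / ab g := by rw [Finset.mul_sum]
      _ ≤ 3 * (|m| + |(k : ℝ)|) * (54 * Y) := by
          gcongr
          exact sum_inv_ab hY
      _ = 162 * (|m| + |(k : ℝ)|) * Y := by ring
  have h4 := int_compare m k hY
  have h5 : 0 ≤ |m| := abs_nonneg _
  have h6 : 0 ≤ |(k : ℝ)| := abs_nonneg _
  nlinarith

end Pool.Agent.MRG
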