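import Pool.Agent.MRG.WeylLarge
import Pool.Agent.MRG.WeylSmall

/-!
# Module Weyl: exponential sums over discs

`weyl`: if `|m| + |k| ≤ Y^(1/2)` this is `weyl_small`; otherwise `weyl_large`, and the main term is `≤ 2πY²/|m| ≤ C Y^(3/2)` for `k = 0`
(then `|m| > Y^(1/2)`).
-/

set_option autoImplicit false

namespace Pool.Agent.MRG

open Pool.Agent.GaussPret

private theorem norm_two_add (m : ℝ) : (1 + |m|) / 2 ≤ ‖(2 : ℂ) + m * Complex.I‖ := by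
  have h1 : ‖(2 : ℂ) + m * Complex.I‖ ^ 2 = 4 + m ^ 2 := by
    have h := Complex.normSq_add_mul_I 2 m
    rw [Complex.normSq_eq_norm_sq] at h
    push_cast at h
    rw [h]
    norm_num
  have h2 : ((1 + |m|) / 2) ^ 2 ≤ ‖(2 : ℂ) + m * Complex.I‖ ^ 2 := by
    rw [h1]
    nlinarith [sq_abs m, abs_nonneg m, sq_nonneg (|m| - 1)]
  exact le_of_sq_le_sq h2 (norm_nonneg _)

private theorem norm_mainT (m : ℝ) (k : ℤ) (Y : ℝ) (hY : 0 ≤ Y) :
    ‖mainT m k Y‖ ≤ if k = 0 then 4 * Real.pi * Y ^ 2 / (1 + |m|) else 0 := by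
  unfold mainT
  split_ifs with h
  · have hpos : 0 < (1 + |m|) / 2 := by positivity
    have h1 := norm_two_add m
    have h2 : ‖2 * (Real.pi : ℂ) * (Y : ℂ) ^ 2 *
        Complex.exp (((m * Real.log Y : ℝ) : ℂ) * Complex.I)‖ = 2 * Real.pi * Y ^ 2 := by
      rw [norm_mul, Complex.norm_exp_ofReal_mul_I, mul_one, norm_mul, norm_mul, norm_pow,
        Complex.norm_real, Complex.norm_real, Real.norm_of_nonneg hY,
        Real.norm_of_nonneg Real.pi_pos.le]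
      norm_num
    rw [norm_div, h2]
    calc 2 * Real.pi * Y ^ 2 / ‖(2 : ℂ) + m * Complex.I‖
        ≤ 2 * Real.pi * Y ^ 2 / ((1 + |m|) / 2) :=
          div_le_div_of_nonneg_left (by positivity) hpos h1
      _ = 4 * Real.pi * Y ^ 2 / (1 + |m|) := by
          field_simp
          ring
  · simp

theorem weyl (K : ℕ) : ∃ δ C : ℝ, 0 < δ ∧ δ ≤ 1 / 2 ∧ 0 < C ∧ ∀ (Y m : ℝ) (k : ℤ), 1 ≤ Y →
    |m| + |(k : ℝ)| ≤ Y ^ K →
    ‖∑ g ∈ ball Y, ch m k g - mainT m k Y‖ ≤ C * Y ^ (2 - δ) := by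
  obtain ⟨δ, C, hδ, hδ2, hC, hl⟩ := weyl_large K
  obtain ⟨C', hC', hs⟩ := weyl_small
  refine ⟨δ, C + 2 * C' + 4 * Real.pi, hδ, hδ2, by positivity, fun Y m k hY h => ?_⟩
  have hY0 : 0 < Y := by linarith
  have hpow : Y ^ ((3 : ℝ) / 2) ≤ Y ^ (2 - δ) :=
    Real.rpow_le_rpow_of_exponent_le hY (by linarith)
  have h32 : Y ^ ((1 : ℝ) / 2) * Y = Y ^ ((3 : ℝ) / 2) := by
    nth_rewrite 2 [← Real.rpow_one Y]
    rw [← Real.rpow_add hY0]
    norm_num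
  have h12 : 1 ≤ Y ^ ((1 : ℝ) / 2) := Real.one_le_rpow hY (by norm_num)
  have hP : 0 ≤ Y ^ (2 - δ) := Real.rpow_nonneg hY0.le _
  rcases le_total (|m| + |(k : ℝ)|) (Y ^ ((1 : ℝ) / 2)) with h1 | h1
  · have h2 := hs Y m k hY
    have h3 : C' * (1 + |m| + |(k : ℝ)|) * Y ≤ 2 * C' * Y ^ (2 - δ) := by
      calc C' * (1 + |m| + |(k : ℝ)|) * Y ≤ C' * (2 * Y ^ ((1 : ℝ) / 2)) * Y := by
            gcongr
            linarith
        _ = 2 * C' * Y ^ ((3 : ℝ) / 2) := by rw [← h32]; ring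
        _ ≤ 2 * C' * Y ^ (2 - δ) := by gcongr
    have h4 : 2 * C' * Y ^ (2 - δ) ≤ (C + 2 * C' + 4 * Real.pi) * Y ^ (2 - δ) := by
      gcongr
      have := Real.pi_pos
      linarith
    linarith
  · have h2 := hl Y m k hY h1 h
    have h3 : ‖mainT m k Y‖ ≤ 4 * Real.pi * Y ^ (2 - δ) := by
      refine (norm_mainT m k Y hY0.le).trans ?_
      split_ifs with hk
      · subst hk
        rw [Int.cast_zero, abs_zero, add_zero] at h1
        have h5 : 4 * Real.pi * Y ^ 2 / (1 + |m|) ≤ 4 * Real.pi * Y ^ ((3 : ℝ) / 2) := by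
          rw [div_le_iff₀ (by positivity)]
          have h6 : Y ^ ((3 : ℝ) / 2) * Y ^ ((1 : ℝ) / 2) = Y ^ 2 := by
            rw [← Real.rpow_add hY0]
            norm_num
          calc 4 * Real.pi * Y ^ 2 = 4 * Real.pi * Y ^ ((3 : ℝ) / 2) * Y ^ ((1 : ℝ) / 2) := by
                rw [← h6]; ring
            _ ≤ 4 * Real.pi * Y ^ ((3 : ℝ) / 2) * (1 + |m|) := by
                gcongr
                linarith
        calc _ ≤ _ := h5
          _ ≤ _ := by gcongr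
      · positivity
    calc ‖∑ g ∈ ball Y, ch m k g - mainT m k Y‖ ≤ ‖∑ g ∈ ball Y, ch m k g‖ + ‖mainT m k Y‖ :=
          norm_sub_le _ _
      _ ≤ C * Y ^ (2 - δ) + 4 * Real.pi * Y ^ (2 - δ) := add_le_add h2 h3
      _ ≤ (C + 2 * C' + 4 * Real.pi) * Y ^ (2 - δ) := by
          have : 0 ≤ 2 * C' * Y ^ (2 - δ) := by positivity
          linarith

/-- a crude consequence for annuli -/
theorem weyl_ann (K : ℕ) : ∃ δ C : ℝ, 0 < δ ∧ δ ≤ 1 / 2 ∧ 0 < C ∧ ∀ (Y m : ℝ) (k : ℤ), 1 ≤ Y →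
    |m| + |(k : ℝ)| ≤ Y ^ K →
    ‖∑ g ∈ ann Y (2 * Y), ch m k g‖ ≤
      C * ((if k = 0 then Y ^ 2 / (1 + |m|) else 0) + Y ^ (2 - δ)) := by
  obtain ⟨δ, C, hδ, hδ2, hC, hw⟩ := weyl K
  refine ⟨δ, 5 * C + 20 * Real.pi, hδ, hδ2, by positivity, fun Y m k hY h => ?_⟩
  have hY0 : 0 < Y := by linarith
  have hP : 0 ≤ Y ^ (2 - δ) := Real.rpow_nonneg hY0.le _
  have h1 := hw Y m k hY h
  have h2 := hw (2 * Y) m k (by linarith) (h.trans (pow_le_pow_left₀ hY0.le (by linarith) K))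
  have h3 : (2 * Y) ^ (2 - δ) ≤ 4 * Y ^ (2 - δ) := by
    rw [Real.mul_rpow (by norm_num) hY0.le]
    gcongr
    calc (2 : ℝ) ^ (2 - δ) ≤ 2 ^ (2 : ℝ) :=
          Real.rpow_le_rpow_of_exponent_le (by norm_num) (by linarith)
      _ = 4 := by norm_num
  have hsub : ball Y ⊆ ball (2 * Y) := by
    intro g hg
    rw [mem_ball'] at hg ⊢
    exact ⟨hg.1, by linarith [hg.2]⟩
  have hann : ann Y (2 * Y) = ball (2 * Y) \ ball Y := by
    ext g
    rw [mem_ann, Finset.mem_sdiff, mem_ball', mem_ball']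
    constructor
    · rintro ⟨h4, h5, h6⟩
      exact ⟨⟨h4, h6⟩, fun h7 => absurd h7.2 (not_le.2 h5)⟩
    · rintro ⟨⟨h4, h5⟩, h6⟩
      refine ⟨h4, ?_, h5⟩
      by_contra h7
      exact h6 ⟨h4, not_lt.1 h7⟩
  have hsum : ∑ g ∈ ann Y (2 * Y), ch m k g =
      (∑ g ∈ ball (2 * Y), ch m k g - mainT m k (2 * Y)) - (∑ g ∈ ball Y, ch m k g - mainT m k Y) +
        (mainT m k (2 * Y) - mainT m k Y) := by
    rw [hann]
    have := Finset.sum_sdiff (f := fun g => ch m k g) hsub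
    rw [← this]
    ring
  have h4 := norm_mainT m k Y hY0.le
  have h5 := norm_mainT m k (2 * Y) (by linarith)
  set E : ℝ := if k = 0 then Y ^ 2 / (1 + |m|) else 0 with hE
  have hE0 : 0 ≤ E := by
    rw [hE]
    split_ifs <;> positivity
  have h6 : ‖mainT m k Y‖ ≤ 4 * Real.pi * E := by
    refine h4.trans (le_of_eq ?_)
    rw [hE]
    split_ifs
    · ring
    · ring
  have h7 : ‖mainT m k (2 * Y)‖ ≤ 16 * Real.pi * E := by
    refine h5.trans (le_of_eq ?_)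
    rw [hE]
    split_ifs
    · ring
    · ring
  have h8 : ‖∑ g ∈ ann Y (2 * Y), ch m k g‖ ≤ C * (2 * Y) ^ (2 - δ) + C * Y ^ (2 - δ) +
      (16 * Real.pi * E + 4 * Real.pi * E) := by
    rw [hsum]
    refine (norm_add_le _ _).trans (add_le_add ((norm_sub_le _ _).trans (add_le_add h2 h1)) ?_)
    exact (norm_sub_le _ _).trans (add_le_add h7 h6)
  have h9 : C * (2 * Y) ^ (2 - δ) ≤ C * (4 * Y ^ (2 - δ)) := by gcongr
  have h10 : 0 ≤ 5 * C * E := by positivity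
  have h11 : 0 ≤ 20 * Real.pi * Y ^ (2 - δ) := by positivity
  calc ‖∑ g ∈ ann Y (2 * Y), ch m k g‖ ≤ _ := h8
    _ ≤ C * (4 * Y ^ (2 - δ)) + C * Y ^ (2 - δ) + (16 * Real.pi * E + 4 * Real.pi * E) := by
        linarith
    _ ≤ (5 * C + 20 * Real.pi) * (E + Y ^ (2 - δ)) := by linarith

end Pool.Agent.MRG
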