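import Pool.Agent.MRG.Phase
import Pool.Agent.MRG.Dir

/-!
# Module WeylD: the exponential sum for `|m| + |k|` between `Y^(d-3/2)` and `Y^(d-1/2)`

Let `T = |m| + |k|`, `Y^θ = Y^d/T`, `1/2 ≤ θ ≤ 3/2`, `ε = 1/(100 d)`.  For `Y ≤ Y₀(d)` the bound is trivial.
`H₁ = ⌊Y^(θ/2)⌋`, `h₀ = ⌈H₁ Y^(-ε)⌉`, `H = ⌈Y^ε⌉`, `L = ⌊Y^(θ/2 + 4ε)⌋`, `W = Y^(7/8)`; all `≤ Y`.

Let `h₁ ∈ [h₀, H₁)`, `hs` a list of `d - 2` numbers in `[1,H)`, `P` the product; `Y^(θ/2-ε)/2 ≤ P ≤ 2^d Y^(θ/2+(d-2)ε)`.  `D = Dl (h₁ :: hs) (chB m k Y)` is bounded by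
one and supported in `bb Y`.  `∑_{g ∈ bb Y} D(g) = (1/L) ∑_{g₀ ∈ bb (Y+L)} ∑_{x<L} D(g₀ + x)`.
Call `g₀` good if `Y^(1-ε) ≤ |g₀| ≤ Y - W`, `Im g₀ ≠ 0`, `|Re (c/g₀^d)| ≥ Y^(-ε) |c|/|g₀|^d`, `c = m - ik`, `T/2 ≤ |c| ≤ T`.
Bad `g₀ ∈ bb (Y+L)`: at most `C (Y^(2-2ε) + Y^(15/8) + Y + Y^(2-ε)) ≤ C Y^(2-ε)` (`card_ball_le`, `card_thin`, `card_dir`).
For a good `g₀` (`phase`, `geo_sum`): `|A| ≤ C P T/|g₀|^d ≤ C Y^(-θ/2 + 2dε) ≤ π`, `|A| ≥ c P T Y^(-ε) Y^(-d) ≥ c Y^(-θ/2-2ε)`,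
`|E(x)| ≤ C T P L W/|g₀|^(d+1) ≤ C Y^(-1/8 + (2d+3)ε) ≤ C Y^(-1/16)`; so `|∑_{x<L} D(g₀+x)| ≤ C Y^(θ/2+2ε) + C L Y^(-1/16) ≤ C L Y^(-ε)`.
So the hypothesis of `vdc_iter (d-2)` holds with `B = C Y^(-ε)`; also `h₀/H₁ ≤ C Y^(-ε)`, `1/H ≤ Y^(-ε)`.  Result: `δ = ε/2^(d-1)`.
-/

set_option autoImplicit false

namespace Pool.Agent.MRG

open Pool.Agent.GaussPret


private theorem Dl_le (hs : List ℕ) : ∀ (F : GaussianInt → ℂ), (∀ g, ‖F g‖ ≤ 1) →
    ∀ g, ‖Dl hs F g‖ ≤ 1 := by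
  induction hs with
  | nil => intro F hF g; exact hF g
  | cons h t ih =>
    intro F hF g
    refine ih (Dh h F) (fun g => ?_) g
    rw [Dh, norm_mul, RCLike.norm_conj]
    exact mul_le_one₀ (hF _) (norm_nonneg _) (hF _)

private theorem Dl_supp (Y : ℝ) (hs : List ℕ) : ∀ (F : GaussianInt → ℂ),
    (∀ g, Y < ab g → F g = 0) → ∀ g, Y < ab g → Dl hs F g = 0 := by
  induction hs with
  | nil => intro F hF g hg; exact hF g hg
  | cons h t ih =>
    intro F hF g hg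
    refine ih (Dh h F) (fun g hg => ?_) g hg
    rw [Dh, hF g hg, map_zero, mul_zero]

private theorem ab_zero : ab 0 = 0 := by simp [ab]

private theorem mem_bb {Y : ℝ} (hY : 0 ≤ Y) {g : GaussianInt} : g ∈ bb Y ↔ ab g ≤ Y := by
  classical
  rw [bb, Finset.mem_insert, mem_ball']
  constructor
  · rintro (rfl | h)
    · rw [ab_zero]; exact hY
    · exact h.2
  · intro h
    by_cases h0 : g = 0
    · exact Or.inl h0
    · exact Or.inr ⟨h0, h⟩

private theorem card_bb (Y : ℝ) : ((bb Y).card : ℝ) ≤ 9 * Y ^ 2 + 1 := by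
  classical
  have h1 : (bb Y).card ≤ (ball Y).card + 1 := by
    rw [bb]
    exact Finset.card_insert_le _ _
  have h2 := card_ball_le' Y
  have h3 : ((bb Y).card : ℝ) ≤ ((ball Y).card : ℝ) + 1 := by exact_mod_cast h1
  linarith

private theorem ab_natCast (n : ℕ) : ab (n : GaussianInt) = n := by
  simp [ab]

private theorem ab_add_le (g h : GaussianInt) : ab (g + h) ≤ ab g + ab h := by
  rw [ab, map_add]
  exact norm_add_le _ _

private theorem avg {Y : ℝ} (hY : 0 ≤ Y) (L : ℕ) (D : GaussianInt → ℂ)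
    (hD : ∀ g, Y < ab g → D g = 0) :
    (L : ℂ) * ∑ g ∈ bb Y, D g =
      ∑ g₀ ∈ bb (Y + L), ∑ x ∈ Finset.range L, D (g₀ + (x : GaussianInt)) := by
  classical
  rw [Finset.sum_comm]
  have key : ∀ x ∈ Finset.range L, ∑ g₀ ∈ bb (Y + L), D (g₀ + (x : GaussianInt)) =
      ∑ g ∈ bb Y, D g := by
    intro x hx
    have hx' : (x : ℝ) ≤ L := by exact_mod_cast (Finset.mem_range.1 hx).le
    have hYL : 0 ≤ Y + L := by positivity
    have e := Finset.sum_map (bb (Y + L)) (addRightEmbedding (x : GaussianInt)) D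
    simp only [addRightEmbedding_apply] at e
    rw [← e]
    symm
    refine Finset.sum_subset ?_ ?_
    · intro g hg
      rw [Finset.mem_map]
      refine ⟨g - (x : GaussianInt), ?_, ?_⟩
      · rw [mem_bb hYL]
        have h1 : ab (g - (x : GaussianInt)) ≤ ab g + ab (x : GaussianInt) := by
          rw [ab, map_sub]
          exact norm_sub_le _ _
        rw [ab_natCast] at h1
        have h2 := (mem_bb hY).1 hg
        linarith
      · simp
    · intro g _ hg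
      refine hD g ?_
      rw [mem_bb hY] at hg
      exact not_le.1 hg
  rw [Finset.sum_congr rfl key, Finset.sum_const, Finset.card_range, nsmul_eq_mul]

private theorem abs_re_le (g : GaussianInt) : |(g.re : ℝ)| ≤ ab g := by
  have h := Complex.abs_re_le_norm (GaussianInt.toComplex g)
  rwa [← GaussianInt.intCast_re] at h

open scoped Classical in
private theorem card_line {Z : ℝ} (hZ : 0 ≤ Z) :
    (((bb Z).filter fun g => g.im = 0).card : ℝ) ≤ 2 * Z + 1 := by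
  set n : ℤ := ⌊Z⌋ with hn
  have hn0 : 0 ≤ n := Int.floor_nonneg.2 hZ
  have h1 : ((bb Z).filter fun g => g.im = 0).card ≤ (Finset.Icc (-n) n).card := by
    refine Finset.card_le_card_of_injOn (fun g => g.re) ?_ ?_
    · intro g hg
      rw [Finset.mem_coe, Finset.mem_filter, mem_bb hZ] at hg
      have h := (abs_re_le g).trans hg.1
      rw [abs_le] at h
      rw [Finset.mem_coe, Finset.mem_Icc]
      have h5 : ((-g.re : ℤ) : ℝ) ≤ Z := by push_cast; linarith [h.1]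
      have h6 := Int.le_floor.2 h5
      refine ⟨?_, Int.le_floor.2 h.2⟩
      show -n ≤ g.re
      omega
    · intro g hg g' hg' h
      rw [Finset.mem_coe, Finset.mem_filter] at hg hg'
      exact Zsqrtd.ext h (hg.2.trans hg'.2.symm)
  rw [Int.card_Icc] at h1
  have h2 : (((bb Z).filter fun g => g.im = 0).card : ℤ) ≤ 2 * n + 1 := by
    have : ((n + 1 - (-n)).toNat : ℤ) = 2 * n + 1 := by
      rw [Int.toNat_of_nonneg (by omega)]; ring
    rw [← this]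
    exact_mod_cast h1
  have h3 : (((bb Z).filter fun g => g.im = 0).card : ℝ) ≤ 2 * (n : ℝ) + 1 := by exact_mod_cast h2
  have h4 : (n : ℝ) ≤ Z := Int.floor_le Z
  linarith

/-- the good points -/
private def Good (d : ℕ) (Y u w : ℝ) (c : ℂ) (g : GaussianInt) : Prop :=
  Y / u ≤ ab g ∧ ab g + w ≤ Y ∧ g.im ≠ 0 ∧
    1 / u * ‖c‖ / ab g ^ d ≤ |(c / GaussianInt.toComplex g ^ d).re|

private theorem norm_c_le (m : ℝ) (k : ℤ) : ‖(m : ℂ) - k * Complex.I‖ ≤ |m| + |(k : ℝ)| := by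
  refine (norm_sub_le _ _).trans (le_of_eq ?_)
  rw [norm_mul, Complex.norm_I, mul_one, Complex.norm_real, Complex.norm_intCast,
    Real.norm_eq_abs]

private theorem le_norm_c (m : ℝ) (k : ℤ) :
    (|m| + |(k : ℝ)|) / 2 ≤ ‖(m : ℂ) - k * Complex.I‖ := by
  have h1 := Complex.abs_re_le_norm ((m : ℂ) - k * Complex.I)
  have h2 := Complex.abs_im_le_norm ((m : ℂ) - k * Complex.I)
  have e1 : ((m : ℂ) - k * Complex.I).re = m := by simp
  have e2 : ((m : ℂ) - k * Complex.I).im = -k := by simp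
  rw [e1] at h1
  rw [e2, abs_neg] at h2
  linarith

private theorem good_sum (d : ℕ) (hd : 2 ≤ d) (C1 : ℝ) (hC1 : 0 < C1) (hph : ∀ (m : ℝ) (k : ℤ)
    (Y : ℝ) (g₀ : GaussianInt) (hs : List ℕ) (L : ℕ) (W : ℝ), hs.length = d - 1 →
    (∀ h ∈ hs, 1 ≤ h) → g₀.im ≠ 0 → (hs.sum : ℝ) + L ≤ W → 2 * W ≤ ab g₀ → ab g₀ + W ≤ Y →
    ∃ (a : ℝ) (E : ℕ → ℝ), (∀ x : ℕ, x < L →
      Dl hs (chB m k Y) (g₀ + (x : GaussianInt)) = Complex.exp (((a +
        (((m : ℂ) - k * Complex.I) * (-1) ^ (d + 1) * ((d - 1).factorial : ℂ) * (hs.prod : ℂ) /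
          GaussianInt.toComplex g₀ ^ d).re * x + E x : ℝ) : ℂ) * Complex.I)) ∧
      ∀ x : ℕ, x < L → |E x| ≤ C1 * (|m| + |(k : ℝ)|) * hs.prod * x * W / ab g₀ ^ (d + 1))
    (m : ℝ) (k : ℤ) (Y u s w : ℝ) (L : ℕ) (hs : List ℕ) (g₀ : GaussianInt)
    (hY : 1 ≤ Y) (hu : 1 ≤ u) (hs2 : 2 ≤ s) (hT : 0 < |m| + |(k : ℝ)|)
    (hTs : (|m| + |(k : ℝ)|) * s ^ 2 = Y ^ d) (hw : 1 ≤ w)
    (hsum : (hs.sum : ℝ) + L ≤ w) (h2w : 2 * w ≤ Y / u)
    (hA4 : ((d - 1).factorial : ℝ) * u ^ (2 * d - 2) ≤ s) (hwu : u ^ (2 * d + 4) * w ≤ Y)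
    (hL : (L : ℝ) ≤ s * u ^ 4) (hL' : s * u ^ 4 ≤ 2 * L) (hlen : hs.length = d - 1)
    (hs1 : ∀ h ∈ hs, 1 ≤ h) (hP : s / (2 * u) ≤ (hs.prod : ℝ)) (hP' : (hs.prod : ℝ) ≤ s * u ^ (d - 2))
    (hg : Good d Y u w ((m : ℂ) - k * Complex.I) g₀) :
    ‖∑ x ∈ Finset.range L, Dl hs (chB m k Y) (g₀ + (x : GaussianInt))‖ ≤
      L * ((8 * Real.pi + C1) / u) := by
  obtain ⟨hg1, hg2, hg3, hg4⟩ := hg
  have hu0 : 0 < u := by linarith
  have hY0 : 0 < Y := by linarith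
  have hs0 : 0 < s := by linarith
  have hL0 : (0 : ℝ) ≤ L := Nat.cast_nonneg L
  set T := |m| + |(k : ℝ)| with hTdef
  set c := (m : ℂ) - k * Complex.I with hc
  set z := GaussianInt.toComplex g₀ with hz
  set r := ab g₀ with hr
  have hYu0 : 0 < Y / u := by positivity
  have hr0 : 0 < r := lt_of_lt_of_le hYu0 hg1
  have hrY : r ≤ Y := by linarith
  obtain ⟨a, E, hE1, hE2⟩ := hph m k Y g₀ hs L w hlen hs1 hg3 hsum (h2w.trans hg1) hg2
  set A := (c * (-1) ^ (d + 1) * ((d - 1).factorial : ℂ) * (hs.prod : ℂ) / z ^ d).re with hA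
  set P : ℝ := (hs.prod : ℝ) with hPdef
  have hP0 : 0 < P := lt_of_lt_of_le (by positivity) hP
  have hcT : ‖c‖ ≤ T := norm_c_le m k
  have hTc : T / 2 ≤ ‖c‖ := le_norm_c m k
  have hfac : (1 : ℝ) ≤ ((d - 1).factorial : ℝ) := by
    exact_mod_cast Nat.succ_le_of_lt (Nat.factorial_pos _)
  have hAabs : |A| = ((d - 1).factorial : ℝ) * P * |(c / z ^ d).re| := by
    have h1 : c * (-1) ^ (d + 1) * ((d - 1).factorial : ℂ) * (hs.prod : ℂ) / z ^ d =
        (((-1) ^ (d + 1) * ((d - 1).factorial : ℝ) * P : ℝ) : ℂ) * (c / z ^ d) := by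
      rw [hPdef, Complex.ofReal_mul, Complex.ofReal_mul, Complex.ofReal_natCast,
        Complex.ofReal_natCast, Complex.ofReal_pow, Complex.ofReal_neg, Complex.ofReal_one]
      ring
    rw [hA, h1, Complex.re_ofReal_mul, abs_mul, abs_mul, abs_mul, abs_pow, abs_neg, abs_one,
      one_pow, one_mul, abs_of_pos (by linarith : (0 : ℝ) < ((d - 1).factorial : ℝ)),
      abs_of_pos hP0]
  have hrd : 0 < r ^ d := pow_pos hr0 d
  have hYd : 0 < Y ^ d := pow_pos hY0 d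
  have hlow : 1 / (4 * u ^ 2 * s) ≤ |A| := by
    have h1 : 1 / u * (T / 2) / Y ^ d ≤ |(c / z ^ d).re| := by
      refine le_trans ?_ hg4
      exact div_le_div₀ (by positivity) (mul_le_mul_of_nonneg_left hTc (by positivity)) hrd
        (pow_le_pow_left₀ hr0.le hrY d)
    have h2 : s / (2 * u) * (1 / u * (T / 2) / Y ^ d) ≤ |A| := by
      rw [hAabs]
      refine mul_le_mul ?_ h1 (by positivity) (by positivity)
      calc s / (2 * u) ≤ P := hP
        _ = 1 * P := (one_mul P).symm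
        _ ≤ _ := mul_le_mul_of_nonneg_right hfac hP0.le
    refine le_trans (le_of_eq ?_) h2
    rw [← hTs]
    field_simp
    ring
  have hA0 : 0 < |A| := lt_of_lt_of_le (by positivity) hlow
  have hYud : (Y / u) ^ d ≤ r ^ d := pow_le_pow_left₀ hYu0.le hg1 d
  have hup : |A| ≤ 1 := by
    have h1 : |(c / z ^ d).re| ≤ T / (Y / u) ^ d := by
      refine (Complex.abs_re_le_norm _).trans ?_
      rw [norm_div, norm_pow]
      exact div_le_div₀ hT.le hcT (by positivity) hYud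
    rw [hAabs]
    calc ((d - 1).factorial : ℝ) * P * |(c / z ^ d).re|
        ≤ ((d - 1).factorial : ℝ) * (s * u ^ (d - 2)) * (T / (Y / u) ^ d) := by
          refine mul_le_mul ?_ h1 (abs_nonneg _) (by positivity)
          exact mul_le_mul_of_nonneg_left hP' (by positivity)
      _ = ((d - 1).factorial : ℝ) * u ^ (2 * d - 2) / s := by
          have e : 2 * d - 2 = (d - 2) + d := by omega
          rw [e, pow_add, div_pow, ← hTs]
          field_simp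
      _ ≤ 1 := by rw [div_le_one hs0]; exact hA4
  have hEb : ∀ x < L, |E x| ≤ C1 / u := by
    intro x hx
    have hxL : (x : ℝ) ≤ s * u ^ 4 := le_trans (by exact_mod_cast hx.le) hL
    refine (hE2 x hx).trans ?_
    calc C1 * T * P * x * w / r ^ (d + 1)
        ≤ C1 * T * (s * u ^ (d - 2)) * (s * u ^ 4) * w / (Y / u) ^ (d + 1) := by
          refine div_le_div₀ (by positivity) ?_ (by positivity)
            (pow_le_pow_left₀ hYu0.le hg1 (d + 1))
          refine mul_le_mul_of_nonneg_right ?_ (by linarith)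
          refine mul_le_mul ?_ hxL (Nat.cast_nonneg x) (by positivity)
          exact mul_le_mul_of_nonneg_left hP' (by positivity)
      _ = C1 * (u ^ (2 * d + 4) * w) / (u * Y) := by
          have e : u ^ (2 * d + 4) = u ^ (d - 2) * u ^ 4 * u ^ (d + 1) * u := by
            rw [← pow_add, ← pow_add, ← pow_succ]
            congr 1
            omega
          have e2 : (Y / u) ^ (d + 1) = T * s ^ 2 * Y / u ^ (d + 1) := by
            rw [div_pow, pow_succ Y d, hTs]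
          rw [e, e2]
          field_simp
      _ ≤ C1 * Y / (u * Y) := by
          refine div_le_div_of_nonneg_right ?_ (by positivity)
          exact mul_le_mul_of_nonneg_left hwu hC1.le
      _ = C1 / u := by field_simp
  have hgs := geo_sum a A (C1 / u) L E (abs_pos.1 hA0)
    (hup.trans (by linarith [Real.pi_gt_three])) hEb
  have hcongr : ∑ x ∈ Finset.range L, Dl hs (chB m k Y) (g₀ + (x : GaussianInt)) =
      ∑ x ∈ Finset.range L, Complex.exp (((a + A * x + E x : ℝ) : ℂ) * Complex.I) :=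
    Finset.sum_congr rfl fun x hx => hE1 x (Finset.mem_range.1 hx)
  rw [hcongr]
  refine hgs.trans ?_
  have hpi := Real.pi_pos
  have h1 : Real.pi / |A| ≤ 4 * Real.pi * u ^ 2 * s := by
    rw [div_le_iff₀ hA0]
    have h2 : 4 * Real.pi * u ^ 2 * s * (1 / (4 * u ^ 2 * s)) ≤ 4 * Real.pi * u ^ 2 * s * |A| :=
      mul_le_mul_of_nonneg_left hlow (by positivity)
    refine le_trans (le_of_eq ?_) h2
    field_simp
  have h2 : 4 * Real.pi * u ^ 2 * s ≤ 8 * Real.pi * L / u := by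
    rw [le_div_iff₀ hu0]
    have h3 : u ^ 2 * s * u ≤ 2 * L := by
      refine le_trans ?_ hL'
      have : u ^ 3 ≤ u ^ 4 := pow_le_pow_right₀ hu (by norm_num)
      calc u ^ 2 * s * u = s * u ^ 3 := by ring
        _ ≤ s * u ^ 4 := mul_le_mul_of_nonneg_left this hs0.le
    calc 4 * Real.pi * u ^ 2 * s * u = 4 * Real.pi * (u ^ 2 * s * u) := by ring
      _ ≤ 4 * Real.pi * (2 * L) := mul_le_mul_of_nonneg_left h3 (by positivity)
      _ = 8 * Real.pi * L := by ring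
  calc Real.pi / |A| + L * (C1 / u) ≤ 8 * Real.pi * L / u + L * (C1 / u) := by linarith
    _ = L * ((8 * Real.pi + C1) / u) := by ring

open scoped Classical in
private theorem bad_card (d : ℕ) (hd : 1 ≤ d) : ∃ C : ℝ, 0 < C ∧ ∀ (Y u w : ℝ) (L : ℕ) (c : ℂ),
    1 ≤ Y → 1 ≤ u → 1 ≤ w → u * w ≤ Y → (L : ℝ) ≤ w → c ≠ 0 →
    (((bb (Y + L)).filter fun g => ¬ Good d Y u w c g).card : ℝ) ≤ C * (Y ^ 2 / u) := by
  obtain ⟨Ct, hCt, ht⟩ := card_thin
  obtain ⟨Cd, hCd, hdir⟩ := card_dir d hd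
  refine ⟨10 + 9 * Ct + 5 + 6 * Cd, by positivity, ?_⟩
  intro Y u w L c hY hu hw huw hLw hc
  have hL0 : (0 : ℝ) ≤ L := Nat.cast_nonneg L
  have hu0 : 0 < u := by linarith
  have hY0 : 0 < Y := by linarith
  have huY : u ≤ Y := by nlinarith
  have hwY : w ≤ Y := by nlinarith
  have hLY : (L : ℝ) ≤ Y := hLw.trans hwY
  have hYL : 0 ≤ Y + L := by positivity
  have hYu : 1 ≤ Y / u := by rwa [le_div_iff₀ hu0, one_mul]
  set A1 := bb (Y / u) with hA1
  set A2 := ann (Y - w) (Y - w + (w + L)) with hA2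
  set A3 := (bb (Y + L)).filter fun g => g.im = 0 with hA3
  set A4 := (ball (Y + L)).filter fun g =>
    |(c / GaussianInt.toComplex g ^ d).re| < 1 / u * ‖c‖ / ab g ^ d with hA4
  have hsub : ((bb (Y + L)).filter fun g => ¬ Good d Y u w c g) ⊆ ((A1 ∪ A2) ∪ A3) ∪ A4 := by
    intro g hg
    rw [Finset.mem_filter, mem_bb hYL] at hg
    obtain ⟨hg1, hg2⟩ := hg
    simp only [Finset.mem_union]
    by_cases h1 : ab g ≤ Y / u
    · exact Or.inl (Or.inl (Or.inl ((mem_bb (by positivity)).2 h1)))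
    have hg0 : g ≠ 0 := by
      rintro rfl
      rw [ab_zero] at h1
      exact h1 (by positivity)
    by_cases h2 : Y < ab g + w
    · refine Or.inl (Or.inl (Or.inr ?_))
      rw [hA2, mem_ann]
      exact ⟨hg0, by linarith, by linarith⟩
    by_cases h3 : g.im = 0
    · refine Or.inl (Or.inr ?_)
      rw [hA3, Finset.mem_filter, mem_bb hYL]
      exact ⟨hg1, h3⟩
    · refine Or.inr ?_
      rw [hA4, Finset.mem_filter, mem_ball']
      refine ⟨⟨hg0, hg1⟩, ?_⟩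
      by_contra h4
      exact hg2 ⟨(not_le.1 h1).le, not_lt.1 h2, h3, not_lt.1 h4⟩
  have hc0 := Finset.card_le_card hsub
  have e1 := Finset.card_union_le ((A1 ∪ A2) ∪ A3) A4
  have e2 := Finset.card_union_le (A1 ∪ A2) A3
  have e3 := Finset.card_union_le A1 A2
  have hsum : (((bb (Y + L)).filter fun g => ¬ Good d Y u w c g).card : ℝ) ≤
      A1.card + A2.card + A3.card + A4.card := by
    have : ((bb (Y + L)).filter fun g => ¬ Good d Y u w c g).card ≤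
      A1.card + A2.card + A3.card + A4.card := by omega
    exact_mod_cast this
  have hYYu : 1 ≤ Y ^ 2 / u := by
    rw [le_div_iff₀ hu0, one_mul]
    nlinarith
  have b1 : (A1.card : ℝ) ≤ 10 * (Y ^ 2 / u) := by
    have h := card_bb (Y / u)
    have h2 : (Y / u) ^ 2 ≤ Y ^ 2 / u := by
      rw [div_pow]
      refine div_le_div_of_nonneg_left (by positivity) hu0 ?_
      nlinarith
    linarith
  have b2 : (A2.card : ℝ) ≤ 9 * Ct * (Y ^ 2 / u) := by
    have h := ht (Y - w) (w + L) (by linarith) (by linarith)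
    have h2 : Ct * (Y - w + (w + L) + 1) * (w + L + 1) ≤ Ct * (3 * Y) * (3 * w) := by
      have h3 : Y - w + (w + L) + 1 ≤ 3 * Y := by linarith
      have h4 : w + L + 1 ≤ 3 * w := by linarith
      have h5 : 0 ≤ w + L + 1 := by linarith
      exact mul_le_mul (mul_le_mul_of_nonneg_left h3 hCt.le) h4 h5 (by positivity)
    have h3 : Y * w ≤ Y ^ 2 / u := by
      rw [le_div_iff₀ hu0]
      nlinarith
    calc (A2.card : ℝ) ≤ _ := h
      _ ≤ _ := h2
      _ = 9 * Ct * (Y * w) := by ring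
      _ ≤ _ := mul_le_mul_of_nonneg_left h3 (by positivity)
  have hYY : Y ≤ Y ^ 2 / u := by
    rw [le_div_iff₀ hu0]
    nlinarith
  have b3 : (A3.card : ℝ) ≤ 5 * (Y ^ 2 / u) := by
    have h := card_line hYL
    have : 2 * (Y + (L : ℝ)) + 1 ≤ 5 * Y := by linarith
    linarith
  have b4 : (A4.card : ℝ) ≤ 6 * Cd * (Y ^ 2 / u) := by
    have h := hdir (Y + L) (1 / u) c (by linarith) (by positivity)
      (by rw [div_le_one hu0]; exact hu) hc
    have h2 : 1 / u * (Y + (L : ℝ)) ^ 2 + (Y + L) ≤ 6 * (Y ^ 2 / u) := by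
      have h3 : (Y + (L : ℝ)) ^ 2 ≤ 4 * Y ^ 2 := by nlinarith
      have h4 : 1 / u * (Y + (L : ℝ)) ^ 2 ≤ 1 / u * (4 * Y ^ 2) :=
        mul_le_mul_of_nonneg_left h3 (by positivity)
      have h5 : 1 / u * (4 * Y ^ 2) = 4 * (Y ^ 2 / u) := by ring
      linarith
    calc (A4.card : ℝ) ≤ _ := h
      _ ≤ Cd * (6 * (Y ^ 2 / u)) := mul_le_mul_of_nonneg_left h2 hCd.le
      _ = _ := by ring
  calc _ ≤ _ := hsum
    _ ≤ 10 * (Y ^ 2 / u) + 9 * Ct * (Y ^ 2 / u) + 5 * (Y ^ 2 / u) + 6 * Cd * (Y ^ 2 / u) := by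
        linarith
    _ = _ := by ring

private theorem chB_le (m : ℝ) (k : ℤ) (Y : ℝ) (g : GaussianInt) : ‖chB m k Y g‖ ≤ 1 := by
  classical
  rw [chB]
  split_ifs
  · exact (norm_ch m k g).le
  · simp

private theorem chB_supp (m : ℝ) (k : ℤ) (Y : ℝ) (g : GaussianInt) (hg : Y < ab g) :
    chB m k Y g = 0 := by
  classical
  rw [chB, if_neg]
  intro h
  exact absurd (mem_ball'.1 h).2 (not_le.2 hg)

private theorem diff_bound (d : ℕ) (hd : 2 ≤ d) : ∃ C3 : ℝ, 0 < C3 ∧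
    ∀ (m : ℝ) (k : ℤ) (Y u s w : ℝ) (L : ℕ) (hs : List ℕ),
    1 ≤ Y → 1 ≤ u → 2 ≤ s → 0 < |m| + |(k : ℝ)| →
    (|m| + |(k : ℝ)|) * s ^ 2 = Y ^ d → 1 ≤ w →
    (hs.sum : ℝ) + L ≤ w → 2 * w ≤ Y / u →
    ((d - 1).factorial : ℝ) * u ^ (2 * d - 2) ≤ s → u ^ (2 * d + 4) * w ≤ Y →
    (L : ℝ) ≤ s * u ^ 4 → s * u ^ 4 ≤ 2 * L → hs.length = d - 1 →
    (∀ h ∈ hs, 1 ≤ h) → s / (2 * u) ≤ (hs.prod : ℝ) → (hs.prod : ℝ) ≤ s * u ^ (d - 2) →
    ‖∑ g ∈ bb Y, Dl hs (chB m k Y) g‖ ≤ C3 * (Y ^ 2 / u) := by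
  classical
  obtain ⟨C1, hC1, hph⟩ := phase d hd
  obtain ⟨C2, hC2, hbad⟩ := bad_card d (by omega)
  have hpi := Real.pi_pos
  refine ⟨37 * (8 * Real.pi + C1) + C2, by positivity, ?_⟩
  intro m k Y u s w L hs hY hu hs2 hT hTs hw hsum h2w hA4 hwu hL hL' hlen hs1 hP hP'
  have hu0 : 0 < u := by linarith
  have hY0 : 0 < Y := by linarith
  have hs0 : 0 < s := by linarith
  have hLpos : (0 : ℝ) < L := by
    have : 0 < s * u ^ 4 := by positivity
    linarith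
  have huw : u * w ≤ Y := by
    refine le_trans ?_ hwu
    have : u ^ 1 ≤ u ^ (2 * d + 4) := pow_le_pow_right₀ hu (by omega)
    rw [pow_one] at this
    exact mul_le_mul_of_nonneg_right this (by linarith)
  have hLw : (L : ℝ) ≤ w := by
    have : (0 : ℝ) ≤ (hs.sum : ℝ) := Nat.cast_nonneg _
    linarith
  have hwY : w ≤ Y := by nlinarith
  set c := (m : ℂ) - k * Complex.I with hc
  have hc0 : c ≠ 0 := by
    intro h
    have := le_norm_c m k
    rw [← hc, h, norm_zero] at this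
    linarith
  set D := Dl hs (chB m k Y) with hD
  have hD1 : ∀ g, ‖D g‖ ≤ 1 := Dl_le hs _ (chB_le m k Y)
  have hD0 : ∀ g, Y < ab g → D g = 0 := Dl_supp Y hs _ (chB_supp m k Y)
  have hav := avg hY0.le L D hD0
  have hS : ∀ g₀ : GaussianInt, ‖∑ x ∈ Finset.range L, D (g₀ + (x : GaussianInt))‖ ≤ L := by
    intro g₀
    refine (norm_sum_le _ _).trans ?_
    calc _ ≤ ∑ x ∈ Finset.range L, (1 : ℝ) := Finset.sum_le_sum fun x _ => hD1 _
      _ = L := by simp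
  have hsplit := Finset.sum_filter_add_sum_filter_not (bb (Y + L)) (fun g => Good d Y u w c g)
    (fun g₀ => ∑ x ∈ Finset.range L, D (g₀ + (x : GaussianInt)))
  have hgood : ‖∑ g₀ ∈ (bb (Y + L)).filter (fun g => Good d Y u w c g),
      ∑ x ∈ Finset.range L, D (g₀ + (x : GaussianInt))‖ ≤
      37 * Y ^ 2 * (L * ((8 * Real.pi + C1) / u)) := by
    refine (norm_sum_le _ _).trans ?_
    calc _ ≤ ∑ g₀ ∈ (bb (Y + L)).filter (fun g => Good d Y u w c g),
          (L * ((8 * Real.pi + C1) / u) : ℝ) := Finset.sum_le_sum fun g₀ hg₀ =>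
            good_sum d hd C1 hC1 hph m k Y u s w L hs g₀ hY hu hs2 hT hTs hw hsum h2w hA4 hwu
              hL hL' hlen hs1 hP hP' (Finset.mem_filter.1 hg₀).2
      _ = (((bb (Y + L)).filter (fun g => Good d Y u w c g)).card : ℝ) *
          (L * ((8 * Real.pi + C1) / u)) := by rw [Finset.sum_const, nsmul_eq_mul]
      _ ≤ 37 * Y ^ 2 * (L * ((8 * Real.pi + C1) / u)) := by
          refine mul_le_mul_of_nonneg_right ?_ (by positivity)
          have h1 : (((bb (Y + L)).filter (fun g => Good d Y u w c g)).card : ℝ) ≤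
              (bb (Y + L)).card := Nat.cast_le.2 (Finset.card_filter_le _ _)
          have h2 := card_bb (Y + L)
          have h3 : (Y + (L : ℝ)) ^ 2 ≤ (2 * Y) ^ 2 :=
            pow_le_pow_left₀ (by positivity) (by linarith) 2
          have h4 : 1 ≤ Y ^ 2 := one_le_pow₀ hY
          linarith
  have hbd : ‖∑ g₀ ∈ (bb (Y + L)).filter (fun g => ¬ Good d Y u w c g),
      ∑ x ∈ Finset.range L, D (g₀ + (x : GaussianInt))‖ ≤ C2 * (Y ^ 2 / u) * L := by
    refine (norm_sum_le _ _).trans ?_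
    calc _ ≤ ∑ g₀ ∈ (bb (Y + L)).filter (fun g => ¬ Good d Y u w c g), (L : ℝ) :=
          Finset.sum_le_sum fun g₀ _ => hS g₀
      _ = (((bb (Y + L)).filter (fun g => ¬ Good d Y u w c g)).card : ℝ) * L := by
          rw [Finset.sum_const, nsmul_eq_mul]
      _ ≤ _ := mul_le_mul_of_nonneg_right (hbad Y u w L c hY hu hw huw hLw hc0) hLpos.le
  have hmain : (L : ℝ) * ‖∑ g ∈ bb Y, D g‖ ≤
      L * ((37 * (8 * Real.pi + C1) + C2) * (Y ^ 2 / u)) := by
    have h1 : (L : ℝ) * ‖∑ g ∈ bb Y, D g‖ = ‖(L : ℂ) * ∑ g ∈ bb Y, D g‖ := by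
      rw [norm_mul, Complex.norm_natCast]
    rw [h1, hav, ← hsplit]
    refine (norm_add_le _ _).trans ?_
    calc _ ≤ 37 * Y ^ 2 * (L * ((8 * Real.pi + C1) / u)) + C2 * (Y ^ 2 / u) * L :=
          add_le_add hgood hbd
      _ = _ := by ring
  exact le_of_mul_le_mul_left hmain hLpos

private theorem ev_le (K a b : ℝ) (hab : a < b) :
    ∃ Y0 : ℝ, 1 ≤ Y0 ∧ ∀ Y : ℝ, Y0 ≤ Y → K * Y ^ a ≤ Y ^ b := by
  have h := (tendsto_rpow_atTop (sub_pos.2 hab)).eventually_ge_atTop K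
  obtain ⟨Z, hZ⟩ := Filter.eventually_atTop.1 h
  refine ⟨max Z 1, le_max_right _ _, fun Y hY => ?_⟩
  have hY0 : 0 < Y := lt_of_lt_of_le one_pos ((le_max_right _ _).trans hY)
  have h1 := hZ Y ((le_max_left _ _).trans hY)
  calc K * Y ^ a ≤ Y ^ (b - a) * Y ^ a :=
        mul_le_mul_of_nonneg_right h1 (Real.rpow_nonneg hY0.le _)
    _ = Y ^ b := by rw [← Real.rpow_add hY0, sub_add_cancel]

private theorem list_bd (u : ℝ) (hu : 1 ≤ u) (hs : List ℕ) : (∀ h ∈ hs, 1 ≤ h ∧ (h : ℝ) ≤ u) →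
    (hs.sum : ℝ) ≤ hs.length * u ∧ (1 : ℝ) ≤ (hs.prod : ℝ) ∧ (hs.prod : ℝ) ≤ u ^ hs.length := by
  induction hs with
  | nil => intro _; simp
  | cons h t ih =>
    intro hh
    obtain ⟨h1, h2, h3⟩ := ih fun x hx => hh x (List.mem_cons_of_mem _ hx)
    obtain ⟨h4, h5⟩ := hh h List.mem_cons_self
    have h4' : (1 : ℝ) ≤ h := by exact_mod_cast h4
    rw [List.sum_cons, List.prod_cons, List.length_cons]
    push_cast
    have e1 : ((t.prod : ℕ) : ℝ) = (List.map (Nat.cast : ℕ → ℝ) t).prod := by push_cast; rfl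
    have e2 : ((t.sum : ℕ) : ℝ) = (List.map (Nat.cast : ℕ → ℝ) t).sum := by push_cast; rfl
    rw [e1] at h2 h3
    rw [e2] at h1
    refine ⟨by linarith, by nlinarith, ?_⟩
    rw [pow_succ, mul_comm]
    exact mul_le_mul h3 h5 (by linarith) (by positivity)

private theorem weyl_large (d : ℕ) (hd : 2 ≤ d) (ε : ℝ) (hε : ε = 1 / (100 * (d : ℝ))) :
    ∃ Y0 C : ℝ, 1 ≤ Y0 ∧ 0 < C ∧ ∀ (Y m : ℝ) (k : ℤ), Y0 ≤ Y →
    Y ^ ((d : ℝ) - 3 / 2) ≤ |m| + |(k : ℝ)| → |m| + |(k : ℝ)| ≤ Y ^ ((d : ℝ) - 1 / 2) →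
    ‖∑ g ∈ bb Y, chB m k Y g‖ ≤ C * Y ^ (2 - ε * (1 / 2 ^ (d - 2)) * (1 / 2)) := by
  have hdR : (2 : ℝ) ≤ d := by exact_mod_cast hd
  have hd0 : (0 : ℝ) < d := by linarith
  have hε0 : 0 < ε := by rw [hε]; positivity
  have hεd : ε * d = 1 / 100 := by rw [hε]; field_simp
  have hε1 : ε ≤ 1 / 200 := by
    have : ε * 2 ≤ ε * d := mul_le_mul_of_nonneg_left hdR hε0.le
    linarith
  obtain ⟨C3, hC3, hdiff⟩ := diff_bound d hd
  obtain ⟨Cv, hCv, hvdc⟩ := vdc_iter (d - 2)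
  have hcast : ((2 * d - 2 : ℕ) : ℝ) ≤ 2 * d := by
    have : (2 * d - 2 : ℕ) ≤ 2 * d := Nat.sub_le _ _
    exact_mod_cast this
  obtain ⟨Ya, hYa1, hYa⟩ := ev_le 2 0 (1 / 4) (by norm_num)
  obtain ⟨Yb, hYb1, hYb⟩ := ev_le ((d : ℝ) + 2) (4 / 5) (7 / 8) (by norm_num)
  obtain ⟨Yc, hYc1, hYc⟩ := ev_le 2 (7 / 8) (1 - ε) (by linarith)
  obtain ⟨Yd, hYd1, hYd⟩ := ev_le ((d - 1).factorial : ℝ) (ε * ((2 * d - 2 : ℕ) : ℝ)) (1 / 4) (by
    have : ε * ((2 * d - 2 : ℕ) : ℝ) ≤ ε * (2 * d) := mul_le_mul_of_nonneg_left hcast hε0.le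
    have : ε * (2 * d) = 2 * (ε * d) := by ring
    linarith)
  obtain ⟨Ye, hYe1, hYe⟩ := ev_le 2 ε 1 (by linarith)
  refine ⟨Ya + Yb + Yc + Yd + Ye, Cv * (4 + C3), by linarith, by positivity, ?_⟩
  intro Y m k hY hT1 hT2
  have hY1 : 1 ≤ Y := by linarith
  have hY0 : 0 < Y := by linarith
  have ha := hYa Y (by linarith)
  have hb := hYb Y (by linarith)
  have hc := hYc Y (by linarith)
  have hd' := hYd Y (by linarith)
  have he := hYe Y (by linarith)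
  rw [Real.rpow_zero, mul_one] at ha
  rw [Real.rpow_one] at he
  set T := |m| + |(k : ℝ)| with hTdef
  have hT : 0 < T := lt_of_lt_of_le (Real.rpow_pos_of_pos hY0 _) hT1
  set u := Y ^ ε with hu
  set w := Y ^ ((7 : ℝ) / 8) with hw
  have hu1 : 1 ≤ u := Real.one_le_rpow hY1 hε0.le
  have hu0 : 0 < u := by linarith
  have hw1 : 1 ≤ w := Real.one_le_rpow hY1 (by norm_num)
  set s := Real.sqrt (Y ^ d / T) with hs
  have hquot : 0 < Y ^ d / T := by positivity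
  have hs0 : 0 < s := Real.sqrt_pos.2 hquot
  have hs2 : s ^ 2 = Y ^ d / T := Real.sq_sqrt hquot.le
  have hTs : T * s ^ 2 = Y ^ d := by rw [hs2]; field_simp
  have hYd : (Y ^ d : ℝ) = Y ^ (d : ℝ) := (Real.rpow_natCast Y d).symm
  have hsle : s ≤ Y ^ ((3 : ℝ) / 4) := by
    rw [← pow_le_pow_iff_left₀ hs0.le (Real.rpow_nonneg hY0.le _) two_ne_zero, hs2,
      div_le_iff₀ hT, ← Real.rpow_natCast (Y ^ ((3 : ℝ) / 4)) 2, ← Real.rpow_mul hY0.le, hYd]
    calc Y ^ (d : ℝ) = Y ^ ((3 : ℝ) / 4 * ((2 : ℕ) : ℝ)) * Y ^ ((d : ℝ) - 3 / 2) := by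
          rw [← Real.rpow_add hY0]
          congr 1
          push_cast
          ring
      _ ≤ _ := mul_le_mul_of_nonneg_left hT1 (Real.rpow_nonneg hY0.le _)
  have hsge : Y ^ ((1 : ℝ) / 4) ≤ s := by
    rw [← pow_le_pow_iff_left₀ (Real.rpow_nonneg hY0.le _) hs0.le two_ne_zero, hs2,
      le_div_iff₀ hT, ← Real.rpow_natCast (Y ^ ((1 : ℝ) / 4)) 2, ← Real.rpow_mul hY0.le, hYd]
    calc Y ^ ((1 : ℝ) / 4 * ((2 : ℕ) : ℝ)) * T
        ≤ Y ^ ((1 : ℝ) / 4 * ((2 : ℕ) : ℝ)) * Y ^ ((d : ℝ) - 1 / 2) :=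
          mul_le_mul_of_nonneg_left hT2 (Real.rpow_nonneg hY0.le _)
      _ = Y ^ (d : ℝ) := by
          rw [← Real.rpow_add hY0]
          congr 1
          push_cast
          ring
  have hs2' : 2 ≤ s := ha.trans hsge
  have hupow : ∀ j : ℕ, u ^ j = Y ^ (ε * (j : ℝ)) := by
    intro j
    rw [hu, ← Real.rpow_natCast, ← Real.rpow_mul hY0.le]
  have h45 : s * u ^ 4 ≤ Y ^ ((4 : ℝ) / 5) := by
    rw [hupow 4]
    calc s * Y ^ (ε * ((4 : ℕ) : ℝ)) ≤ Y ^ ((3 : ℝ) / 4) * Y ^ (ε * ((4 : ℕ) : ℝ)) :=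
          mul_le_mul_of_nonneg_right hsle (Real.rpow_nonneg hY0.le _)
      _ = Y ^ ((3 : ℝ) / 4 + ε * ((4 : ℕ) : ℝ)) := by rw [← Real.rpow_add hY0]
      _ ≤ _ := Real.rpow_le_rpow_of_exponent_le hY1 (by push_cast; linarith)
  have hs45 : s ≤ Y ^ ((4 : ℝ) / 5) :=
    hsle.trans (Real.rpow_le_rpow_of_exponent_le hY1 (by norm_num))
  have hu45 : u ≤ Y ^ ((4 : ℝ) / 5) := Real.rpow_le_rpow_of_exponent_le hY1 (by linarith)
  have h2w : 2 * w ≤ Y / u := by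
    refine hc.trans (le_of_eq ?_)
    rw [Real.rpow_sub hY0, Real.rpow_one]
  have hA4 : ((d - 1).factorial : ℝ) * u ^ (2 * d - 2) ≤ s := by
    rw [hupow]
    exact hd'.trans hsge
  have hwu : u ^ (2 * d + 4) * w ≤ Y := by
    rw [hupow, ← Real.rpow_add hY0]
    calc _ ≤ Y ^ (1 : ℝ) := Real.rpow_le_rpow_of_exponent_le hY1 (by
          push_cast
          have : ε * (2 * (d : ℝ) + 4) = 2 * (ε * d) + 4 * ε := by ring
          rw [this, hεd]
          linarith)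
      _ = Y := Real.rpow_one Y
  set L := ⌊s * u ^ 4⌋₊ with hLdef
  have hsu4 : 2 ≤ s * u ^ 4 := by
    have : 1 ≤ u ^ 4 := one_le_pow₀ hu1
    exact hs2'.trans (le_mul_of_one_le_right hs0.le this)
  have hL : (L : ℝ) ≤ s * u ^ 4 := Nat.floor_le (by positivity)
  have hL' : s * u ^ 4 ≤ 2 * L := by
    have h1 := Nat.lt_floor_add_one (s * u ^ 4)
    rw [← hLdef] at h1
    linarith
  set H1 := ⌊s⌋₊ with hH1def
  have hH1 : (H1 : ℝ) ≤ s := Nat.floor_le hs0.le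
  have hH1' : s / 2 ≤ H1 := by
    have h1 := Nat.lt_floor_add_one s
    rw [← hH1def] at h1
    linarith
  have hH1pos : (0 : ℝ) < H1 := by linarith
  set h0 := ⌈(H1 : ℝ) / u⌉₊ with hh0def
  set H := ⌈u⌉₊ with hHdef
  have hh0pos : 1 ≤ h0 := Nat.one_le_iff_ne_zero.2 (Nat.ceil_pos.2 (by positivity)).ne'
  have hh0H1 : h0 ≤ H1 := by
    rw [hh0def, Nat.ceil_le, div_le_iff₀ hu0]
    exact le_mul_of_one_le_right hH1pos.le hu1
  have hHu : u ≤ H := Nat.le_ceil u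
  have hHpos : 1 ≤ H := Nat.one_le_iff_ne_zero.2 (Nat.ceil_pos.2 hu0).ne'
  have hHY : (H : ℝ) ≤ Y := by
    have := Nat.ceil_lt_add_one hu0.le
    rw [← hHdef] at this
    linarith
  have hH1Y : (H1 : ℝ) ≤ Y := by
    refine hH1.trans (hsle.trans ?_)
    calc Y ^ ((3 : ℝ) / 4) ≤ Y ^ (1 : ℝ) := Real.rpow_le_rpow_of_exponent_le hY1 (by norm_num)
      _ = Y := Real.rpow_one Y
  clear_value u w s L H1 h0 H
  have hvd := hvdc (chB m k Y) Y (C3 / u) h0 H1 H hY1 (by positivity) hh0pos hh0H1 hH1Y hHpos hHY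
    (chB_le m k Y) (chB_supp m k Y) (by
      intro h1 hh1 hs hlen hhs
      rw [Finset.mem_Ico] at hh1
      have hlb := list_bd u hu1 hs fun h hh => ⟨(hhs h hh).1, by
        have h7 := (hhs h hh).2
        rw [hHdef] at h7
        exact (Nat.lt_ceil.1 h7).le⟩
      rw [hlen] at hlb
      obtain ⟨hsum, hp1, hp2⟩ := hlb
      have hh1s : (h1 : ℝ) ≤ s := le_trans (by exact_mod_cast hh1.2.le) hH1
      have hh1g : s / (2 * u) ≤ h1 := by
        have e1 : (H1 : ℝ) / u ≤ h0 := by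
          rw [hh0def]
          exact Nat.le_ceil _
        have e2 : (h0 : ℝ) ≤ h1 := by exact_mod_cast hh1.1
        have e3 : s / (2 * u) = s / 2 / u := by field_simp
        rw [e3]
        exact (div_le_div_of_nonneg_right hH1' hu0.le).trans (e1.trans e2)
      have hdm : ((d - 2 : ℕ) : ℝ) = (d : ℝ) - 2 := by
        rw [Nat.cast_sub hd]
        norm_num
      have hh10 : (0 : ℝ) ≤ h1 := Nat.cast_nonneg _
      have hprodc : (((h1 :: hs).prod : ℕ) : ℝ) = h1 * (hs.prod : ℝ) := by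
        rw [List.prod_cons, Nat.cast_mul]
      have hsumc : (((h1 :: hs).sum : ℕ) : ℝ) = h1 + (hs.sum : ℝ) := by
        rw [List.sum_cons, Nat.cast_add]
      have := hdiff m k Y u s w L (h1 :: hs) hY1 hu1 hs2' hT hTs hw1 (by
          rw [hsumc]
          have e1 : ((d - 2 : ℕ) : ℝ) * u ≤ ((d : ℝ) - 2) * Y ^ ((4 : ℝ) / 5) := by
            rw [hdm]
            exact mul_le_mul_of_nonneg_left hu45 (by linarith)
          have e2 : 0 ≤ Y ^ ((4 : ℝ) / 5) := Real.rpow_nonneg hY0.le _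
          linarith) h2w hA4 hwu hL hL'
        (by rw [List.length_cons, hlen]; omega)
        (by
          intro h hh
          rw [List.mem_cons] at hh
          rcases hh with rfl | hh
          · omega
          · exact (hhs h hh).1)
        (by
          rw [hprodc]
          exact hh1g.trans (le_mul_of_one_le_right hh10 hp1))
        (by
          rw [hprodc]
          exact mul_le_mul hh1s hp2 (by linarith) hs0.le)
      refine this.trans (le_of_eq ?_)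
      ring)
  refine hvd.trans ?_
  set ν : ℝ := 1 / 2 ^ (d - 2) with hν
  have hν0 : 0 < ν := by rw [hν]; positivity
  have hν1 : ν ≤ 1 := by
    rw [hν, div_le_one (by positivity)]
    exact one_le_pow₀ (by norm_num)
  have hur : ∀ x : ℝ, 0 ≤ u ^ x := fun x => Real.rpow_nonneg hu0.le x
  have hinv : u⁻¹ ≤ u ^ (-ν) := by
    rw [← Real.rpow_neg_one]
    exact Real.rpow_le_rpow_of_exponent_le hu1 (by linarith)
  have f1 : (h0 : ℝ) / H1 ≤ 3 * u ^ (-ν) := by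
    have e1 := Nat.ceil_lt_add_one (a := (H1 : ℝ) / u) (by positivity)
    rw [← hh0def] at e1
    have e2 : u ≤ s := by
      refine le_trans ?_ hsge
      rw [hu]
      exact Real.rpow_le_rpow_of_exponent_le hY1 (by linarith)
    have e3 : (h0 : ℝ) / H1 ≤ 3 * u⁻¹ := by
      rw [div_le_iff₀ hH1pos]
      have e4 : (1 : ℝ) ≤ 2 * u⁻¹ * H1 := by
        have : (1 : ℝ) ≤ u⁻¹ * s := by
          rw [inv_mul_eq_div, le_div_iff₀ hu0, one_mul]
          exact e2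
        have h5 : 0 ≤ u⁻¹ := by positivity
        have h6 : s ≤ 2 * H1 := by linarith
        calc (1 : ℝ) ≤ u⁻¹ * s := this
          _ ≤ u⁻¹ * (2 * H1) := mul_le_mul_of_nonneg_left h6 h5
          _ = 2 * u⁻¹ * H1 := by ring
      have e5 : (H1 : ℝ) / u = u⁻¹ * H1 := by rw [div_eq_mul_inv, mul_comm]
      rw [e5] at e1
      linarith
    linarith
  have f2 : (1 / (H : ℝ) + C3 / u) ^ ν ≤ (1 + C3) * u ^ (-ν) := by
    have e1 : 1 / (H : ℝ) + C3 / u ≤ (1 + C3) * u⁻¹ := by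
      have : 1 / (H : ℝ) ≤ u⁻¹ := by
        rw [one_div]
        exact inv_anti₀ hu0 hHu
      have e2 : C3 / u = C3 * u⁻¹ := div_eq_mul_inv _ _
      rw [e2]
      linarith
    calc (1 / (H : ℝ) + C3 / u) ^ ν ≤ ((1 + C3) * u⁻¹) ^ ν :=
          Real.rpow_le_rpow (by positivity) e1 hν0.le
      _ = (1 + C3) ^ ν * u ^ (-ν) := by
          rw [Real.mul_rpow (by positivity) (by positivity), Real.inv_rpow hu0.le,
            Real.rpow_neg hu0.le]
      _ ≤ (1 + C3) * u ^ (-ν) := by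
          refine mul_le_mul_of_nonneg_right ?_ (hur _)
          calc (1 + C3) ^ ν ≤ (1 + C3) ^ (1 : ℝ) :=
                Real.rpow_le_rpow_of_exponent_le (by linarith) hν1
            _ = 1 + C3 := Real.rpow_one _
  have f3 : ((h0 : ℝ) / H1 + (1 / (H : ℝ) + C3 / u) ^ ν) ^ ((1 : ℝ) / 2) ≤
      (4 + C3) * Y ^ (-(ε * ν * (1 / 2))) := by
    have e0 : 0 ≤ (h0 : ℝ) / H1 + (1 / (H : ℝ) + C3 / u) ^ ν := by positivity
    calc _ ≤ ((4 + C3) * u ^ (-ν)) ^ ((1 : ℝ) / 2) :=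
          Real.rpow_le_rpow e0 (by linarith) (by norm_num)
      _ = (4 + C3) ^ ((1 : ℝ) / 2) * (u ^ (-ν)) ^ ((1 : ℝ) / 2) :=
          Real.mul_rpow (by positivity) (hur _)
      _ ≤ (4 + C3) * (u ^ (-ν)) ^ ((1 : ℝ) / 2) := by
          refine mul_le_mul_of_nonneg_right ?_ (Real.rpow_nonneg (hur _) _)
          calc (4 + C3) ^ ((1 : ℝ) / 2) ≤ (4 + C3) ^ (1 : ℝ) :=
                Real.rpow_le_rpow_of_exponent_le (by linarith) (by norm_num)
            _ = 4 + C3 := Real.rpow_one _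
      _ = (4 + C3) * Y ^ (-(ε * ν * (1 / 2))) := by
          rw [hu, ← Real.rpow_mul hY0.le, ← Real.rpow_mul hY0.le]
          congr 2
          ring
  calc Cv * Y ^ 2 * ((h0 : ℝ) / H1 + (1 / (H : ℝ) + C3 / u) ^ ν) ^ ((1 : ℝ) / 2)
      ≤ Cv * Y ^ 2 * ((4 + C3) * Y ^ (-(ε * ν * (1 / 2)))) :=
        mul_le_mul_of_nonneg_left f3 (by positivity)
    _ = Cv * (4 + C3) * Y ^ (2 - ε * ν * (1 / 2)) := by
        rw [sub_eq_add_neg, Real.rpow_add hY0]
        have : Y ^ (2 : ℝ) = Y ^ 2 := by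
          rw [← Real.rpow_natCast]
          norm_num
        rw [this]
        ring

theorem weyl_d (d : ℕ) (hd : 2 ≤ d) : ∃ δ C : ℝ, 0 < δ ∧ δ ≤ 1 / 2 ∧ 0 < C ∧
    ∀ (Y m : ℝ) (k : ℤ), 1 ≤ Y → Y ^ ((d : ℝ) - 3 / 2) ≤ |m| + |(k : ℝ)| →
    |m| + |(k : ℝ)| ≤ Y ^ ((d : ℝ) - 1 / 2) → ‖∑ g ∈ ball Y, ch m k g‖ ≤ C * Y ^ (2 - δ) := by
  classical
  have hdR : (2 : ℝ) ≤ d := by exact_mod_cast hd
  obtain ⟨Y0, C, hY0, hC, hmain⟩ := weyl_large d hd (1 / (100 * (d : ℝ))) rfl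
  set δ : ℝ := 1 / (100 * (d : ℝ)) * (1 / 2 ^ (d - 2)) * (1 / 2) with hδ
  have hδ0 : 0 < δ := by rw [hδ]; positivity
  have hδ1 : δ ≤ 1 / 2 := by
    have h1 : 1 / (100 * (d : ℝ)) ≤ 1 := by
      rw [div_le_one (by positivity)]
      linarith
    have h2 : (1 : ℝ) / 2 ^ (d - 2) ≤ 1 := by
      rw [div_le_one (by positivity)]
      exact one_le_pow₀ (by norm_num)
    have h3 : 1 / (100 * (d : ℝ)) * (1 / 2 ^ (d - 2)) ≤ 1 * 1 :=
      mul_le_mul h1 h2 (by positivity) (by norm_num)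
    rw [hδ]
    linarith
  refine ⟨δ, C + 9 * Y0, hδ0, hδ1, by positivity, ?_⟩
  intro Y m k hY hT1 hT2
  have hYp : 0 < Y := by linarith
  have hYr : 0 ≤ Y ^ (2 - δ) := Real.rpow_nonneg hYp.le _
  by_cases hlarge : Y0 ≤ Y
  · have h := hmain Y m k hlarge hT1 hT2
    have e : ∑ g ∈ bb Y, chB m k Y g = ∑ g ∈ ball Y, ch m k g := by
      rw [bb, Finset.sum_insert (by rw [mem_ball']; simp)]
      rw [chB, if_neg (by rw [mem_ball']; simp), zero_add]
      refine Finset.sum_congr rfl fun g hg => ?_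
      rw [chB, if_pos hg]
    rw [e] at h
    refine h.trans ?_
    exact mul_le_mul_of_nonneg_right (by linarith) hYr
  · have h1 : ‖∑ g ∈ ball Y, ch m k g‖ ≤ 9 * Y ^ 2 := by
      refine (norm_sum_le _ _).trans ?_
      calc _ = ((ball Y).card : ℝ) := by
            rw [Finset.sum_congr rfl fun g _ => norm_ch m k g]
            simp
        _ ≤ _ := card_ball_le' Y
    have h2 : Y ^ 2 = Y ^ δ * Y ^ (2 - δ) := by
      rw [← Real.rpow_add hYp, ← Real.rpow_natCast]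
      congr 1
      push_cast
      ring
    have h3 : Y ^ δ ≤ Y0 := by
      calc Y ^ δ ≤ Y ^ (1 : ℝ) := Real.rpow_le_rpow_of_exponent_le hY (by linarith)
        _ = Y := Real.rpow_one Y
        _ ≤ Y0 := (not_le.1 hlarge).le
    refine h1.trans ?_
    rw [h2]
    have h4 : Y ^ δ * Y ^ (2 - δ) ≤ Y0 * Y ^ (2 - δ) := mul_le_mul_of_nonneg_right h3 hYr
    have h5 : 0 ≤ C * Y ^ (2 - δ) := by positivity
    nlinarith

end Pool.Agent.MRG
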