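import Pool.Agent.MRG.WeylD

/-!
# Module WeylLarge

`d = 2, …, K + 1` cover `Y^(1/2) ≤ |m| + |k| ≤ Y^(K + 1/2)`; take the least `δ` and the largest `C`.
-/

set_option autoImplicit false

namespace Pool.Agent.MRG

open Pool.Agent.GaussPret

theorem weyl_large (K : ℕ) : ∃ δ C : ℝ, 0 < δ ∧ δ ≤ 1 / 2 ∧ 0 < C ∧ ∀ (Y m : ℝ) (k : ℤ), 1 ≤ Y →
    Y ^ ((1 : ℝ) / 2) ≤ |m| + |(k : ℝ)| → |m| + |(k : ℝ)| ≤ Y ^ K →
    ‖∑ g ∈ ball Y, ch m k g‖ ≤ C * Y ^ (2 - δ) := by
  obtain rfl | hK := Nat.eq_zero_or_pos K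
  · refine ⟨1 / 2, 9, by norm_num, le_rfl, by norm_num, fun Y m k hY h1 h2 => ?_⟩
    have hY1 : Y = 1 := by
      rcases eq_or_lt_of_le hY with h | h
      · exact h.symm
      · have := Real.one_lt_rpow h (by norm_num : (0 : ℝ) < 1 / 2)
        rw [pow_zero] at h2
        linarith
    have h3 : ‖∑ g ∈ ball Y, ch m k g‖ ≤ ((ball Y).card : ℝ) := by
      refine (norm_sum_le _ _).trans ?_
      simp [norm_ch]
    have h4 := card_ball_le' Y
    rw [hY1, Real.one_rpow, mul_one]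
    rw [hY1] at h3 h4
    linarith
  choose δ C hδ hδ' hC h using fun d : ℕ => fun hd : 2 ≤ d => weyl_d d hd
  classical
  -- the least exponent and the largest constant
  let s : Finset {d : ℕ // 2 ≤ d} := (Finset.range K).image fun j => ⟨j + 2, by omega⟩
  have hne : s.Nonempty := ⟨⟨2, le_rfl⟩, by
    simp only [s, Finset.mem_image, Finset.mem_range]
    exact ⟨0, hK, rfl⟩⟩
  refine ⟨s.inf' hne fun d => δ d d.2, ∑ d ∈ s, C d d.2, ?_, ?_, ?_, ?_⟩
  · rw [Finset.lt_inf'_iff]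
    exact fun d _ => hδ d d.2
  · obtain ⟨d, hd⟩ := hne
    exact (Finset.inf'_le _ hd).trans (hδ' d d.2)
  · exact Finset.sum_pos (fun d _ => hC d d.2) hne
  · intro Y m k hY h1 h2
    obtain ⟨j, hj, hj1, hj2⟩ : ∃ j : ℕ, j < K ∧
        Y ^ (((j + 2 : ℕ) : ℝ) - 3 / 2) ≤ |m| + |(k : ℝ)| ∧
        |m| + |(k : ℝ)| ≤ Y ^ (((j + 2 : ℕ) : ℝ) - 1 / 2) := by
      by_contra hc
      push Not at hc
      have key : ∀ j : ℕ, j ≤ K → Y ^ ((j : ℝ) + 1 / 2) ≤ |m| + |(k : ℝ)| := by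
        intro j
        induction j with
        | zero => intro _; simpa using h1
        | succ j ih =>
          intro hj
          have h3 := ih (by omega)
          have h4 := hc j (by omega) (by
            rw [show (((j + 2 : ℕ) : ℝ) - 3 / 2) = (j : ℝ) + 1 / 2 by push_cast; ring]
            exact h3)
          rw [show (((j + 2 : ℕ) : ℝ) - 1 / 2) = ((j + 1 : ℕ) : ℝ) + 1 / 2 by push_cast; ring] at h4
          exact h4.le
      have h5 := key K le_rfl
      rcases eq_or_lt_of_le hY with h | h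
      · have h6 := hc 0 hK (by rw [← h]; simpa [← h] using h1)
        rw [← h] at h6 h2
        simp at h6 h2
        linarith
      · have h6 : Y ^ (K : ℝ) < Y ^ ((K : ℝ) + 1 / 2) :=
          Real.rpow_lt_rpow_of_exponent_lt h (by linarith)
        rw [Real.rpow_natCast] at h6
        linarith
    have hmem : (⟨j + 2, by omega⟩ : {d : ℕ // 2 ≤ d}) ∈ s := by
      simp only [s, Finset.mem_image, Finset.mem_range]
      exact ⟨j, hj, rfl⟩
    have h7 := h (j + 2) (by omega) Y m k hY hj1 hj2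
    refine h7.trans ?_
    have h8 : C (j + 2) (by omega) ≤ ∑ d ∈ s, C d d.2 :=
      Finset.single_le_sum (f := fun d : {d : ℕ // 2 ≤ d} => C d d.2)
        (fun d _ => (hC d d.2).le) hmem
    have h9 : s.inf' hne (fun d => δ d d.2) ≤ δ (j + 2) (by omega) := Finset.inf'_le _ hmem
    have h10 : Y ^ (2 - δ (j + 2) (by omega)) ≤ Y ^ (2 - s.inf' hne (fun d => δ d d.2)) :=
      Real.rpow_le_rpow_of_exponent_le hY (by linarith)
    exact mul_le_mul h8 h10 (by positivity) (h8.trans' (hC _ _).le)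

end Pool.Agent.MRG
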